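import Pool.Agent.RTB.SStmts

/-! The class `C0` modulo `w0`. -/

set_option autoImplicit false

open Polynomial

namespace Pool.Agent.RTB

namespace BEZ_

variable {L : Type} [Field L] [IsAlgClosed L]

theorem span_top {m : ℕ} (ω : Fin m → L[X]) (h : ∀ c : L, ∃ i, (ω i).eval c ≠ 0) :
    ∃ a : Fin m → L[X], ∑ i, a i * ω i = 1 := by
  have h1 : (1 : L[X]) ∈ Ideal.span (Set.range ω) := by
    rw [← Ideal.eq_top_iff_one]
    obtain ⟨d, hd⟩ := (IsPrincipalIdealRing.principal (Ideal.span (Set.range ω))).principal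
    have hd' : Ideal.span (Set.range ω) = Ideal.span {d} := hd
    rw [hd', Ideal.span_singleton_eq_top]
    by_contra hu
    have hdeg : d.degree ≠ 0 := fun h0 => hu (isUnit_iff_degree_eq_zero.2 h0)
    obtain ⟨c, hc⟩ := IsAlgClosed.exists_root d hdeg
    obtain ⟨i, hi⟩ := h c
    apply hi
    have h2 : ω i ∈ Ideal.span {d} := by
      rw [← hd']
      exact Ideal.subset_span ⟨i, rfl⟩
    obtain ⟨q, hq⟩ := Ideal.mem_span_singleton.1 h2
    rw [hq, eval_mul, hc, zero_mul]
  exact Ideal.mem_span_range_iff_exists_fun.1 h1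

omit [IsAlgClosed L] in
theorem dvd_der (F x : L[X]) : F ∣ derivative (F ^ 2 * x) := by
  rw [pow_two, derivative_mul, derivative_mul]
  exact ⟨derivative F * x + derivative F * x + F * derivative x, by ring⟩

end BEZ_

open BEZ_ in
theorem bez_proof : Stmt_BEZ := by
  classical
  intro L _ _ _ F A f1 f2 w0 T2 K D P hF hcop hfd hw0 hD hD1 hw0c hT
  -- a basis of `P`
  let bP := Module.finBasis L P
  let ω : Fin (Module.finrank L P) → L[X] := fun i => (bP i : L[X])
  have hωP : ∀ i, ω i ∈ P := fun i => (bP i).2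
  have hrep : ∀ u ∈ P, ∃ c : Fin (Module.finrank L P) → L, u = ∑ i, c i • ω i := by
    intro u hu
    refine ⟨fun i => bP.repr ⟨u, hu⟩ i, ?_⟩
    have h1 := bP.sum_repr ⟨u, hu⟩
    have h2 := congrArg (Subtype.val : P → L[X]) h1
    rw [AddSubmonoidClass.coe_finsetSum] at h2
    exact h2.symm
  have hroot : ∀ c : L, ∃ i, (ω i).eval c ≠ 0 := by
    intro c
    by_contra hn
    push Not at hn
    obtain ⟨u, hu, huc⟩ := hcop c
    obtain ⟨a, rfl⟩ := hrep u hu
    apply huc
    rw [eval_finsetSum]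
    apply Finset.sum_eq_zero
    intro i _
    rw [eval_smul, hn i, smul_zero]
  obtain ⟨h, hh⟩ := span_top ω hroot
  let Bd : ℕ := Finset.univ.sup fun i => (ω i).natDegree
  let Hd : ℕ := Finset.univ.sup fun i => (h i).natDegree
  have hBd : ∀ u ∈ P, u.natDegree ≤ Bd := by
    intro u hu
    obtain ⟨a, rfl⟩ := hrep u hu
    apply natDegree_sum_le_of_forall_le
    intro i _
    exact (natDegree_smul_le _ _).trans
      (Finset.le_sup (f := fun i => (ω i).natDegree) (Finset.mem_univ i))
  have hHd : ∀ i, (h i).natDegree ≤ Hd := fun i =>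
    Finset.le_sup (f := fun i => (h i).natDegree) (Finset.mem_univ i)
  refine ⟨2 * F.natDegree + Hd + Bd, fun N hN γ wh hγ hR hw => ?_⟩
  have hF2 : (F ^ 2).natDegree ≤ 2 * F.natDegree := natDegree_pow_le
  choose w hw' using hw
  let W : Fin (Module.finrank L P) → L[X] := fun i => w (ω i) (hωP i)
  have hW : ∀ i, T2 * wh (ω i) = γ * W i := fun i => hw' (ω i) (hωP i)
  let C2 : L[X] := ∑ i, h i * W i
  have hcopF : IsCoprime w0 (F ^ 2) := by
    apply IsCoprime.pow_right
    refine (isCoprime_iff_aeval_ne_zero_of_isAlgClosed L L w0 F).2 ?_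
    intro c
    rw [coe_aeval_eq_eval]
    by_cases hc : F.eval c = 0
    · exact Or.inl (hw0c c hc)
    · exact Or.inr hc
  have hdiv : ∀ u ∈ P, ∀ v : L[X], T2 * wh u = γ * v → w0 ∣ u * C2 - v := by
    intro u hu v hv
    let r : Fin (Module.finrank L P + 1) → L[X] :=
      Fin.cons (F ^ 2 * (-1)) (fun i => F ^ 2 * (h i * u))
    let ω' : Fin (Module.finrank L P + 1) → L[X] := Fin.cons u ω
    obtain ⟨q, -, -, -, hq⟩ := hR _ r ω' (by
      intro i
      refine Fin.cases ?_ (fun i => ?_) i
      · simp only [r, Fin.cons_zero]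
        refine ⟨?_, dvd_der F _⟩
        refine natDegree_mul_le.trans ?_
        rw [natDegree_neg, natDegree_one]
        omega
      · simp only [r, Fin.cons_succ]
        refine ⟨?_, dvd_der F _⟩
        refine natDegree_mul_le.trans ?_
        have h1 : (h i * u).natDegree ≤ Hd + Bd :=
          natDegree_mul_le.trans (Nat.add_le_add (hHd i) (hBd u hu))
        omega) (by
      intro i
      refine Fin.cases ?_ (fun i => ?_) i
      · simp only [ω', Fin.cons_zero]
        exact hu
      · simp only [ω', Fin.cons_succ]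
        exact hωP i) (by
      rw [Fin.sum_univ_succ]
      simp only [r, ω', Fin.cons_zero, Fin.cons_succ]
      have h1 : ∑ i, F ^ 2 * (h i * u) * ω i = F ^ 2 * u * ∑ i, h i * ω i := by
        rw [Finset.mul_sum]
        exact Finset.sum_congr rfl fun i _ => by ring
      rw [h1, hh]
      ring)
    rw [Fin.sum_univ_succ] at hq
    simp only [r, ω', Fin.cons_zero, Fin.cons_succ] at hq
    have h2 : T2 * ∑ i, F ^ 2 * (h i * u) * wh (ω i) = F ^ 2 * u * (γ * C2) := by
      simp only [C2]
      rw [Finset.mul_sum, Finset.mul_sum, Finset.mul_sum]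
      apply Finset.sum_congr rfl
      intro i _
      have := hW i
      linear_combination (F ^ 2 * (h i * u)) * this
    have h3 : γ * (F ^ 2 * (u * C2 - v)) = γ * (w0 * (T2 * q)) := by
      have h4 := congrArg (fun z => T2 * z) hq
      simp only [mul_add] at h4
      rw [h2] at h4
      linear_combination h4 + (F ^ 2) * hv
    have h5 : F ^ 2 * (u * C2 - v) = w0 * (T2 * q) := mul_left_cancel₀ hγ h3
    exact hcopF.dvd_of_dvd_mul_left ⟨_, h5⟩
  obtain ⟨S, R, hSR⟩ := hT
  refine ⟨(C2 * S) % w0, ?_, ?_⟩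
  · rw [← hD]
    exact natDegree_mod_lt _ (by omega)
  · intro u hu v hv
    obtain ⟨z, hz⟩ := hdiv u hu v hv
    have h1 := EuclideanDomain.div_add_mod (C2 * S) w0
    refine ⟨T2 * u * (C2 * S / w0) + R * C2 * u - z, ?_⟩
    have h2 : (C2 * S) % w0 = C2 * S - w0 * (C2 * S / w0) := by
      linear_combination h1
    rw [h2]
    linear_combination (-1 : L[X]) * hz - (C2 * u) * hSR
end Pool.Agent.RTB
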