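import Pool.Agent.RTB.SStmts

set_option autoImplicit false

open Polynomial

namespace Pool.Agent.RTB

/-- module BN3: a space of polynomials of degree at most `M` whose 1-jets are lines at the
points of `S` has dimension at most two, if `3 M < 2 |S| + 6` -/
theorem bn3_proof (hBNG : Stmt_BNG) : Stmt_BN3 := by
  intro L _ _ U M S hfin hdeg hS hM
  by_contra hcon
  have h3 : 3 ≤ Module.finrank L U := by omega
  obtain ⟨f, hf⟩ := exists_linearIndependent_of_le_finrank h3
  let W : Submodule L L[X] := Submodule.span L (Set.range fun i : Fin 3 => (f i : L[X]))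
  have hWU : W ≤ U := by
    refine Submodule.span_le.mpr ?_
    rintro _ ⟨i, rfl⟩
    exact (f i).2
  have hli : LinearIndependent L fun i : Fin 3 => (f i : L[X]) :=
    hf.map' U.subtype U.ker_subtype
  have hW3 : Module.finrank L W = 3 := by
    have h := finrank_span_eq_card hli
    rw [Fintype.card_fin] at h
    exact h
  have hWf : FiniteDimensional L W := FiniteDimensional.span_of_finite L (Set.finite_range _)
  have hB := hBNG L W 3 M S hWf hW3 (by norm_num) (fun u hu => hdeg u (hWU hu))
    (fun c hc u hu v hv => hS c hc u (hWU hu) v (hWU hv))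
  omega

end Pool.Agent.RTB
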