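import Pool.Agent.RTB.SStmts

/-!
# squad RTB: the general bound from the Wronskian
-/

set_option autoImplicit false

open Polynomial

namespace Pool.Agent.RTB

namespace BNG_

variable {L : Type} [Field L]

/-- the matrix of the derivatives -/
noncomputable def WM {h : ℕ} (u : Fin h → L[X]) : Matrix (Fin h) (Fin h) L[X] :=
  Matrix.of fun i j => derivative^[(i : ℕ)] (u j)

theorem order_dvd {h : ℕ} (u : Fin h → L[X]) (c : L) (a : Fin h → ℕ)
    (ha : ∀ j, (X - C c) ^ a j ∣ u j) (e : ℕ) (he : e + ∑ i : Fin h, (i : ℕ) ≤ ∑ j, a j) :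
    (X - C c) ^ e ∣ (WM u).det := by
  rw [Matrix.det_apply']
  refine Finset.dvd_sum fun σ _ => Dvd.dvd.mul_left ?_ _
  have h1 : ∏ j, (X - C c) ^ (a j - (σ j : ℕ)) ∣ ∏ j, WM u (σ j) j :=
    Finset.prod_dvd_prod_of_dvd _ _ fun j _ =>
      pow_sub_dvd_iterate_derivative_of_pow_dvd _ (ha j)
  refine dvd_trans ?_ h1
  rw [Finset.prod_pow_eq_pow_sum]
  apply pow_dvd_pow
  have h2 : ∑ j, ((σ j : Fin h) : ℕ) = ∑ i : Fin h, (i : ℕ) :=
    Equiv.sum_comp σ (fun i : Fin h => (i : ℕ))
  have h3 : ∑ j, a j ≤ ∑ j, ((a j - (σ j : ℕ)) + (σ j : ℕ)) :=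
    Finset.sum_le_sum fun j _ => by omega
  rw [Finset.sum_add_distrib, h2] at h3
  omega

/-- change of basis -/
theorem det_of_span {h : ℕ} (u v : Fin h → L[X])
    (huv : ∀ j, u j ∈ Submodule.span L (Set.range v)) : (WM v).det ∣ (WM u).det := by
  have h1 : ∀ j, ∃ A : Fin h → L, u j = ∑ i, A i • v i := fun j => by
    obtain ⟨A, hA⟩ := (Submodule.mem_span_range_iff_exists_fun L).mp (huv j)
    exact ⟨A, hA.symm⟩
  choose A hA using h1
  have h2 : WM u = WM v * (Matrix.of fun i j => C (A j i)) := by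
    ext1 i j
    rw [Matrix.mul_apply]
    show derivative^[(i : ℕ)] (u j) = ∑ l, derivative^[(i : ℕ)] (v l) * C (A j l)
    rw [hA j, iterate_derivative_sum]
    refine Finset.sum_congr rfl fun l _ => ?_
    rw [iterate_derivative_smul, smul_eq_C_mul, mul_comm]
  rw [h2, Matrix.det_mul]
  exact Dvd.intro _ rfl

section deg
variable [CharZero L]

theorem deg_bound {h D : ℕ} (u : Fin h → L[X]) (hu0 : ∀ j, u j ≠ 0)
    (hD : ∀ j, (u j).natDegree ≤ D) (hinj : Function.Injective fun j => (u j).natDegree) :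
    (WM u).det ≠ 0 ∧ (WM u).det.natDegree + ∑ i : Fin h, (i : ℕ)
      + ∑ j, (D - (u j).natDegree) ≤ h * D := by
  set M : Matrix (Fin h) (Fin h) L[X] := Matrix.of fun i j =>
    X ^ ((i : ℕ)) * (X ^ (D - (u j).natDegree) * WM u i j) with hM
  have hdet : M.det = X ^ (∑ i : Fin h, (i : ℕ)) *
      (X ^ (∑ j, (D - (u j).natDegree)) * (WM u).det) := by
    rw [← Finset.prod_pow_eq_pow_sum, ← Finset.prod_pow_eq_pow_sum, ← Matrix.det_mul_row,
      ← Matrix.det_mul_column]
    rfl
  have hdeg : ∀ i j, (M i j).natDegree ≤ D := by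
    intro i j
    show (X ^ ((i : ℕ)) * (X ^ (D - (u j).natDegree) *
      derivative^[(i : ℕ)] (u j))).natDegree ≤ D
    by_cases h0 : derivative^[(i : ℕ)] (u j) = 0
    · rw [h0, mul_zero, mul_zero, natDegree_zero]; exact Nat.zero_le _
    · have h1 : (i : ℕ) ≤ (u j).natDegree := by
        by_contra hlt
        exact h0 (iterate_derivative_eq_zero (not_le.mp hlt))
      have h2 := natDegree_iterate_derivative (u j) (i : ℕ)
      have h3 := hD j
      refine le_trans natDegree_mul_le ?_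
      refine le_trans (Nat.add_le_add_left natDegree_mul_le _) ?_
      rw [natDegree_X_pow, natDegree_X_pow]
      omega
  have hco : ∀ i j, (M i j).coeff D = (u j).leadingCoeff *
      ((u j).natDegree.descFactorial (i : ℕ) : L) := by
    intro i j
    show (X ^ ((i : ℕ)) * (X ^ (D - (u j).natDegree) *
      derivative^[(i : ℕ)] (u j))).coeff D = _
    rw [← mul_assoc, ← pow_add]
    rcases Nat.lt_or_ge (u j).natDegree (i : ℕ) with h1 | h1
    · rw [iterate_derivative_eq_zero h1, mul_zero, coeff_zero,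
        Nat.descFactorial_eq_zero_iff_lt.mpr h1, Nat.cast_zero, mul_zero]
    · have h3 := hD j
      have h4 : D = ((u j).natDegree - (i : ℕ)) + ((i : ℕ) + (D - (u j).natDegree)) := by omega
      conv_lhs => rw [h4, show ((i : ℕ) + (((u j).natDegree - (i : ℕ)) +
        ((i : ℕ) + (D - (u j).natDegree)) - (u j).natDegree)) = (i : ℕ) + (D - (u j).natDegree)
        by omega]
      rw [coeff_X_pow_mul, coeff_iterate_derivative, Nat.sub_add_cancel h1, nsmul_eq_mul,
        mul_comm, leadingCoeff]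
  have hcdet : M.det.coeff (h * D) = (∏ j, (u j).leadingCoeff) *
      (Matrix.vandermonde fun j => ((u j).natDegree : L)).det := by
    have h1 : M.det.coeff (h * D) = (Matrix.of fun i j => (M i j).coeff D).det := by
      rw [Matrix.det_apply, Matrix.det_apply, finsetSum_coeff]
      refine Finset.sum_congr rfl fun σ _ => ?_
      rw [coeff_smul]
      congr 1
      have h2 := coeff_prod_of_natDegree_le (s := Finset.univ) (fun j : Fin h => M (σ j) j) D
        (fun j _ => hdeg _ _)
      rw [Finset.card_univ, Fintype.card_fin] at h2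
      exact h2
    rw [h1]
    have h3 : (Matrix.of fun i j => (M i j).coeff D) = Matrix.of fun i j =>
        (u j).leadingCoeff * (Matrix.of fun i j : Fin h =>
          (descPochhammer L (i : ℕ)).eval ((u j).natDegree : L)) i j := by
      ext i j
      show (M i j).coeff D = (u j).leadingCoeff * _
      rw [hco]
      congr 1
      exact (descPochhammer_eval_eq_descFactorial L _ _).symm
    rw [h3, Matrix.det_mul_row, ← Matrix.det_transpose (Matrix.of fun i j : Fin h =>
          (descPochhammer L (i : ℕ)).eval ((u j).natDegree : L)),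
      Matrix.det_eval_matrixOfPolynomials_eq_det_vandermonde _
        (fun i : Fin h => descPochhammer L (i : ℕ))
        (fun i => descPochhammer_natDegree L i) (fun i => monic_descPochhammer L i)]
    rfl
  have hne : M.det.coeff (h * D) ≠ 0 := by
    rw [hcdet]
    refine mul_ne_zero (Finset.prod_ne_zero_iff.mpr fun j _ =>
      leadingCoeff_ne_zero.mpr (hu0 j)) ?_
    rw [Matrix.det_vandermonde_ne_zero_iff]
    intro i j hij
    exact hinj (Nat.cast_injective hij)
  have hM0 : M.det ≠ 0 := by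
    intro h
    rw [h, coeff_zero] at hne
    exact hne rfl
  have hW0 : (WM u).det ≠ 0 := by
    intro h
    rw [hdet, h, mul_zero, mul_zero] at hM0
    exact hM0 rfl
  refine ⟨hW0, ?_⟩
  have hMd : M.det.natDegree ≤ h * D := by
    rw [Matrix.det_apply]
    refine natDegree_sum_le_of_forall_le _ _ fun σ _ => ?_
    refine le_trans (natDegree_smul_le _ _) ?_
    refine le_trans (natDegree_prod_le _ _) ?_
    have : ∑ j : Fin h, (M (σ j) j).natDegree ≤ ∑ _j : Fin h, D :=
      Finset.sum_le_sum fun j _ => hdeg _ _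
    rw [Finset.sum_const, Finset.card_univ, Fintype.card_fin, smul_eq_mul] at this
    exact this
  rw [hdet, natDegree_mul (pow_ne_zero _ X_ne_zero)
    (mul_ne_zero (pow_ne_zero _ X_ne_zero) hW0), natDegree_mul (pow_ne_zero _ X_ne_zero) hW0,
    natDegree_X_pow, natDegree_X_pow] at hMd
  omega

end deg

/-- the kernel of a nonzero functional -/
theorem step (U : Submodule L L[X]) [FiniteDimensional L U] (m : ℕ)
    (hU : Module.finrank L U = m + 1) (φ : U →ₗ[L] L) (hφ : φ ≠ 0) :
    ∃ v0 ∈ U, ∃ U' : Submodule L L[X], U' ≤ U ∧ FiniteDimensional L U' ∧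
      Module.finrank L U' = m ∧ (∀ x : U, (x : L[X]) ∈ U' ↔ φ x = 0) ∧
      (∀ h : v0 ∈ U, φ ⟨v0, h⟩ ≠ 0) ∧ ∀ x ∈ U, ∃ r : L, x - r • v0 ∈ U' := by
  obtain ⟨w, hw⟩ : ∃ w, φ w ≠ 0 := by
    by_contra h
    push Not at h
    exact hφ (LinearMap.ext h)
  have hmem : ∀ x : U, (x : L[X]) ∈ (LinearMap.ker φ).map U.subtype ↔ φ x = 0 := by
    intro x
    rw [Submodule.mem_map]
    constructor
    · rintro ⟨y, hy, hxy⟩
      have : y = x := Subtype.ext hxy
      rw [← this]; exact hy
    · intro h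
      exact ⟨x, h, rfl⟩
  refine ⟨w, w.2, (LinearMap.ker φ).map U.subtype, Submodule.map_subtype_le _ _, ?_, ?_,
    hmem, fun _ => hw, ?_⟩
  · infer_instance
  · have h1 : Module.finrank L ((LinearMap.ker φ).map U.subtype)
        = Module.finrank L (LinearMap.ker φ) :=
      (Submodule.equivMapOfInjective _ (Submodule.injective_subtype U) _).finrank_eq.symm
    have h2 := LinearMap.finrank_range_add_finrank_ker φ
    have h3 : LinearMap.range φ = ⊤ := by
      rw [LinearMap.range_eq_top]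
      intro z
      exact ⟨(z / φ w) • w, by rw [map_smul, smul_eq_mul, div_mul_cancel₀ z hw]⟩
    rw [h3, finrank_top, Module.finrank_self, hU] at h2
    omega
  · intro x hx
    refine ⟨φ ⟨x, hx⟩ / φ w, ?_⟩
    have h1 : x - (φ ⟨x, hx⟩ / φ w) • (w : L[X])
        = ((⟨x, hx⟩ - (φ ⟨x, hx⟩ / φ w) • w : U) : L[X]) := rfl
    rw [h1, hmem, map_sub, map_smul, smul_eq_mul, div_mul_cancel₀ _ hw, sub_self]

/-- a functional whose kernel is smaller -/
theorem functional (U : Submodule L L[X]) [FiniteDimensional L U] (m : ℕ)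
    (hU : Module.finrank L U = m + 1) (ψ : U →ₗ[L] L) :
    ∃ φ : U →ₗ[L] L, φ ≠ 0 ∧ ∀ x, φ x = 0 → ψ x = 0 := by
  by_cases hψ : ψ = 0
  · have h1 : ∃ x : U, x ≠ 0 := by
      have : Nontrivial U := Module.nontrivial_of_finrank_pos (R := L) (by omega)
      exact exists_ne 0
    obtain ⟨x, hx⟩ := h1
    have h2 := (Module.forall_dual_apply_eq_zero_iff L x).not.mpr hx
    push Not at h2
    obtain ⟨φ, hφ⟩ := h2
    refine ⟨φ, ?_, ?_⟩
    · rintro rfl
      exact hφ rfl
    · intro y _
      rw [hψ]; rfl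
  · exact ⟨ψ, hψ, fun _ h => h⟩

/-- adapted family -/
theorem flag (c : L) : ∀ (m : ℕ) (U : Submodule L L[X]) (k : ℕ), FiniteDimensional L U →
    Module.finrank L U = m → (∀ u ∈ U, (X - C c) ^ k ∣ u) →
    ∃ v : Fin m → L[X], U ≤ Submodule.span L (Set.range v) ∧
      ∀ j : Fin m, (X - C c) ^ (k + (j : ℕ)) ∣ v j := by
  intro m
  induction m with
  | zero =>
    intro U k hfd hU _
    have h0 : U = ⊥ := Submodule.finrank_eq_zero.mp hU
    refine ⟨Fin.elim0, ?_, fun j => j.elim0⟩
    rw [h0]; exact bot_le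
  | succ m ih =>
    intro U k hfd hU hk
    -- the coefficient at order k
    have hq : ∀ u ∈ U, ∃ q, u = (X - C c) ^ k * q := fun u hu => hk u hu
    let ψ : U →ₗ[L] L :=
      { toFun := fun u => (taylor c (u : L[X])).coeff k
        map_add' := fun u v => by
          show (taylor c ((u : L[X]) + (v : L[X]))).coeff k = _
          rw [map_add, coeff_add]
        map_smul' := fun r u => by
          show (taylor c (r • (u : L[X]))).coeff k = _
          rw [map_smul, coeff_smul]; rfl }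
    obtain ⟨φ, hφ0, hφ⟩ := functional U m hU ψ
    obtain ⟨v0, hv0, U', hU'U, hfd', hU', hmem, -, hsp⟩ := step U m hU φ hφ0
    obtain ⟨v, hv, hvd⟩ := ih U' (k + 1) hfd' hU' (by
      intro u hu
      have h1 := hφ ⟨u, hU'U hu⟩ ((hmem ⟨u, hU'U hu⟩).mp hu)
      obtain ⟨q, hq⟩ := hk u (hU'U hu)
      have h3 : q.eval c = 0 := by
        have h2 : (taylor c u).coeff k = 0 := h1
        rw [hq, taylor_mul, taylor_pow, map_sub, taylor_X, taylor_C, add_sub_cancel_right,
          coeff_X_pow_mul', if_pos le_rfl, Nat.sub_self, taylor_coeff_zero] at h2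
        exact h2
      obtain ⟨r, hr⟩ := dvd_iff_isRoot.mpr h3
      refine ⟨r, ?_⟩
      rw [hq, hr, pow_succ]; ring)
    refine ⟨Fin.cons v0 v, ?_, ?_⟩
    · intro x hx
      obtain ⟨r, hr⟩ := hsp x hx
      have h1 : x = r • v0 + (x - r • v0) := by ring
      rw [h1]
      refine Submodule.add_mem _ (Submodule.smul_mem _ _ (Submodule.subset_span ⟨0, rfl⟩)) ?_
      refine Submodule.span_mono ?_ (hv hr)
      rintro _ ⟨j, rfl⟩
      exact ⟨j.succ, rfl⟩
    · intro j
      refine Fin.cases ?_ (fun j => ?_) j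
      · simpa using hk v0 hv0
      · have := hvd j
        rw [Fin.cons_succ, Fin.val_succ]
        rwa [show k + ((j : ℕ) + 1) = k + 1 + (j : ℕ) by ring]

theorem sq_dvd {c : L} {u : L[X]} (h1 : u.eval c = 0) (h2 : (derivative u).eval c = 0) :
    (X - C c) ^ 2 ∣ u := by
  obtain ⟨q, rfl⟩ := dvd_iff_isRoot.mpr h1
  rw [derivative_mul, derivative_X_sub_C, one_mul, eval_add, eval_mul, eval_sub, eval_X, eval_C,
    sub_self, zero_mul, add_zero] at h2
  obtain ⟨r, rfl⟩ := dvd_iff_isRoot.mpr h2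
  exact ⟨r, by ring⟩

/-- the functional of a point at which the 1-jets are on a line -/
theorem flag_tline (c : L) (m : ℕ) (U : Submodule L L[X]) [FiniteDimensional L U]
    (hU : Module.finrank L U = m + 1) (ht : tline U c) :
    ∃ (v : Fin (m + 1) → L[X]) (a : Fin (m + 1) → ℕ), U ≤ Submodule.span L (Set.range v) ∧
      (∀ j, (X - C c) ^ (a j) ∣ v j) ∧ m + ∑ i : Fin (m + 1), (i : ℕ) ≤ ∑ j, a j := by
  have h1 : ∃ ψ : U →ₗ[L] L, ∀ x : U, ψ x = 0 → (X - C c) ^ 2 ∣ (x : L[X]) := by
    let ev : U →ₗ[L] L :=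
      { toFun := fun u => (u : L[X]).eval c
        map_add' := fun u v => by
          show ((u : L[X]) + (v : L[X])).eval c = _
          rw [eval_add]
        map_smul' := fun r u => by
          show (r • (u : L[X])).eval c = _
          rw [eval_smul]; rfl }
    let dv : U →ₗ[L] L :=
      { toFun := fun u => (derivative (u : L[X])).eval c
        map_add' := fun u v => by
          show (derivative ((u : L[X]) + (v : L[X]))).eval c = _
          rw [derivative_add, eval_add]
        map_smul' := fun r u => by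
          show (derivative (r • (u : L[X]))).eval c = _
          rw [derivative_smul, eval_smul]; rfl }
    by_cases h : ∃ u0 : U, (u0 : L[X]).eval c ≠ 0
    · obtain ⟨u0, hu0⟩ := h
      refine ⟨ev, fun x hx => ?_⟩
      have hx' : (x : L[X]).eval c = 0 := hx
      have h2 := ht u0 u0.2 x x.2
      rw [hx', mul_zero] at h2
      exact sq_dvd hx' ((mul_eq_zero.mp h2).resolve_left hu0)
    · push Not at h
      exact ⟨dv, fun x hx => sq_dvd (h x) hx⟩
  obtain ⟨ψ, hψ⟩ := h1
  obtain ⟨φ, hφ0, hφ⟩ := functional U m hU ψ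
  obtain ⟨v0, hv0, U', hU'U, hfd', hU', hmem, -, hsp⟩ := step U m hU φ hφ0
  obtain ⟨v, hv, hvd⟩ := flag c m U' 2 hfd' hU' (fun u hu =>
    hψ ⟨u, hU'U hu⟩ (hφ _ ((hmem ⟨u, hU'U hu⟩).mp hu)))
  refine ⟨Fin.cons v0 v, Fin.cons 0 (fun j => 2 + (j : ℕ)), ?_, ?_, ?_⟩
  · intro x hx
    obtain ⟨r, hr⟩ := hsp x hx
    have h1 : x = r • v0 + (x - r • v0) := by ring
    rw [h1]
    refine Submodule.add_mem _ (Submodule.smul_mem _ _ (Submodule.subset_span ⟨0, rfl⟩)) ?_
    refine Submodule.span_mono ?_ (hv hr)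
    rintro _ ⟨j, rfl⟩
    exact ⟨j.succ, rfl⟩
  · intro j
    refine Fin.cases ?_ (fun j => ?_) j
    · simp
    · exact hvd j
  · rw [Fin.sum_univ_succ, Fin.sum_univ_succ]
    simp only [Fin.cons_zero, Fin.cons_succ, Fin.val_zero, Fin.val_succ, zero_add]
    rw [Finset.sum_add_distrib, Finset.sum_add_distrib, Finset.sum_const, Finset.sum_const,
      Finset.card_univ, Fintype.card_fin, smul_eq_mul, smul_eq_mul]
    omega

/-- a family with distinct degrees -/
theorem deg_basis (D : ℕ) : ∀ (h : ℕ) (U : Submodule L L[X]), FiniteDimensional L U →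
    Module.finrank L U = h → (∀ u ∈ U, u.natDegree ≤ D) →
    ∃ u : Fin h → L[X], (∀ j, u j ∈ U) ∧ (∀ j, u j ≠ 0) ∧
      Function.Injective fun j => (u j).natDegree := by
  intro h
  induction h with
  | zero => intro U _ _ _; exact ⟨Fin.elim0, fun j => j.elim0, fun j => j.elim0, fun j => j.elim0⟩
  | succ m ih =>
    intro U hfd hU hD
    classical
    have hne : ∃ d, ∃ u ∈ U, u ≠ 0 ∧ u.natDegree = d := by
      have : Nontrivial U := Module.nontrivial_of_finrank_pos (R := L) (by omega)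
      obtain ⟨x, hx⟩ := exists_ne (0 : U)
      exact ⟨_, x, x.2, fun h => hx (Subtype.ext h), rfl⟩
    obtain ⟨d, ⟨u0, hu0, hu00, hd⟩, hmax⟩ : ∃ d, (∃ u ∈ U, u ≠ 0 ∧ u.natDegree = d) ∧
        ∀ u ∈ U, u.natDegree ≤ d := by
      obtain ⟨d, hd⟩ := hne
      have hb : ∃ n, n ≤ D ∧ ∃ u ∈ U, u ≠ 0 ∧ u.natDegree = n := by
        obtain ⟨u, hu, h1, h2⟩ := hd
        exact ⟨d, by rw [← h2]; exact hD u hu, u, hu, h1, h2⟩
      set P : ℕ → Prop := fun n => ∃ u ∈ U, u ≠ 0 ∧ u.natDegree = n with hP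
      obtain ⟨n0, hn0, hPn0⟩ := hb
      refine ⟨Nat.findGreatest P D, Nat.findGreatest_spec (P := P) hn0 hPn0, fun u hu => ?_⟩
      by_cases h0 : u = 0
      · rw [h0, natDegree_zero]; exact Nat.zero_le _
      · exact Nat.le_findGreatest (hD u hu) ⟨u, hu, h0, rfl⟩
    let ψ : U →ₗ[L] L :=
      { toFun := fun u => (u : L[X]).coeff d
        map_add' := fun u v => by
          show ((u : L[X]) + (v : L[X])).coeff d = _
          rw [coeff_add]
        map_smul' := fun r u => by
          show (r • (u : L[X])).coeff d = _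
          rw [coeff_smul]; rfl }
    have hψ : ψ ≠ 0 := by
      intro h
      have h1 : ψ ⟨u0, hu0⟩ = 0 := by rw [h]; rfl
      have h2 : u0.coeff d = 0 := h1
      rw [← hd, coeff_natDegree, leadingCoeff_eq_zero] at h2
      exact hu00 h2
    obtain ⟨v0, hv0, U', hU'U, hfd', hU', hmem, -, -⟩ := step U m hU ψ hψ
    obtain ⟨u, hu, hun, hui⟩ := ih U' hfd' hU' (fun u hu => hD u (hU'U hu))
    have hlt : ∀ j, (u j).natDegree < d := by
      intro j
      have h1 : (u j).coeff d = 0 := (hmem ⟨u j, hU'U (hu j)⟩).mp (hu j)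
      refine lt_of_le_of_ne (hmax _ (hU'U (hu j))) fun h2 => ?_
      rw [← h2, coeff_natDegree, leadingCoeff_eq_zero] at h1
      exact hun j h1
    refine ⟨Fin.cons u0 u, ?_, ?_, ?_⟩
    · intro j
      refine Fin.cases hu0 (fun j => hU'U (hu j)) j
    · intro j
      refine Fin.cases hu00 (fun j => hun j) j
    · intro i j
      refine Fin.cases ?_ (fun i => ?_) i <;> refine Fin.cases ?_ (fun j => ?_) j
      · intro _; rfl
      · intro h
        simp only [Fin.cons_zero, Fin.cons_succ] at h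
        rw [hd] at h
        exact absurd h (hlt j).ne'
      · intro h
        simp only [Fin.cons_zero, Fin.cons_succ] at h
        rw [hd] at h
        exact absurd h (hlt i).ne
      · intro h
        simp only [Fin.cons_succ] at h
        rw [hui h]

theorem sum_fin_val (n : ℕ) : 2 * ∑ i : Fin (n + 1), (i : ℕ) = n * (n + 1) := by
  rw [Fin.sum_univ_eq_sum_range (fun i => i), mul_comm 2, Finset.sum_range_id_mul_two]
  rw [mul_comm]; simp

/-- distinct numbers at most `D` -/
theorem sum_distinct {m D : ℕ} (d : Fin (m + 1) → ℕ) (hd : Function.Injective d)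
    (hD : ∀ j, d j ≤ D) : ∑ i : Fin (m + 1), (i : ℕ) ≤ ∑ j, (D - d j) := by
  have hinj : Function.Injective fun j => D - d j := by
    intro i j hij
    apply hd
    have h1 := hD i
    have h2 := hD j
    simp only at hij
    omega
  set f : Fin (m + 1) → ℕ := fun j => D - d j with hf
  have h1 : StrictMono (f ∘ Tuple.sort f) :=
    (Tuple.monotone_sort f).strictMono_of_injective (hinj.comp (Tuple.sort f).injective)
  have h2 : ∀ (i : ℕ) (hi : i < m + 1), i ≤ (f ∘ Tuple.sort f) ⟨i, hi⟩ := by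
    intro i
    induction i with
    | zero => intro _; exact Nat.zero_le _
    | succ i ih =>
      intro hi
      have h3 := ih (by omega)
      have h4 : (f ∘ Tuple.sort f) ⟨i, by omega⟩ < (f ∘ Tuple.sort f) ⟨i + 1, hi⟩ :=
        h1 (by rw [Fin.lt_def]; exact Nat.lt_succ_self i)
      omega
  have h3 : ∑ j, f (Tuple.sort f j) = ∑ j, f j := Equiv.sum_comp (Tuple.sort f) f
  show ∑ i : Fin (m + 1), (i : ℕ) ≤ ∑ j, f j
  rw [← h3]
  exact Finset.sum_le_sum fun i _ => h2 i i.2

end BNG_

open BNG_ in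
theorem bng_proof : Stmt_BNG := by
  intro L _ _ U h D S hfd hU hh hD ht
  obtain ⟨m, rfl⟩ : ∃ m, h = m + 1 := ⟨h - 1, by omega⟩
  obtain ⟨u, huU, hu0, hui⟩ := deg_basis D (m + 1) U hfd hU hD
  obtain ⟨hW0, hWd⟩ := deg_bound u hu0 (fun j => hD _ (huU j)) hui
  have hdist := sum_distinct (fun j => (u j).natDegree) hui (fun j => hD _ (huU j))
  have hdvd : ∀ c ∈ S, (X - C c) ^ m ∣ (WM u).det := by
    intro c hc
    obtain ⟨v, a, hv, hvd, ha⟩ := flag_tline c m U hU (ht c hc)
    exact dvd_trans (order_dvd v c a hvd m ha) (det_of_span u v fun j => hv (huU j))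
  have hprod : ∏ c ∈ S, (X - C c) ^ m ∣ (WM u).det := by
    refine Finset.prod_dvd_of_coprime ?_ hdvd
    intro a _ b _ hab
    exact (pairwise_coprime_X_sub_C Function.injective_id hab).pow
  have h1 := natDegree_le_of_dvd hprod hW0
  have h2 : (∏ c ∈ S, (X - C c : L[X]) ^ m).natDegree = m * S.card := by
    rw [natDegree_prod_of_monic _ _ fun c _ => (monic_X_sub_C c).pow m]
    simp [mul_comm]
  rw [h2] at h1
  have h3 := sum_fin_val m
  have h4 : ∑ i : Fin (m + 1), (i : ℕ) ≤ ∑ j, (D - (u j).natDegree) := hdist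
  rw [Nat.add_sub_cancel]
  nlinarith

end Pool.Agent.RTB
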