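import Pool.Agent.RTB.SStmts

set_option autoImplicit false

open Polynomial

namespace Pool.Agent.RTB

open Classical in
/-- module BNS: the general Wronskian bound at the roots of `F` which are not of type II -/
theorem bns_proof (hBNG : Stmt_BNG) (hHIN : Stmt_HIN) : Stmt_BNS := by
  intro L _ _ _ F g D h U hF hfin hh h1 hdeg
  have hcard : F.roots.toFinset.card = g := (hHIN L F g hF).1
  have hsplit : (F.roots.toFinset.filter (fun c => tI U c)).card + (sig F U).card = g := by
    rw [← hcard]
    exact Finset.card_filter_add_card_filter_not (fun c => tI U c)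
  have hB := hBNG L U h D (F.roots.toFinset.filter (fun c => tI U c)) hfin hh h1 hdeg (by
    intro c hc u hu v hv
    obtain ⟨lam, hlam⟩ := (Finset.mem_filter.mp hc).2
    rw [hlam u hu, hlam v hv]
    ring)
  have hmul : (h - 1) * g = (h - 1) * (F.roots.toFinset.filter (fun c => tI U c)).card
      + (h - 1) * (sig F U).card := by
    rw [← Nat.mul_add, hsplit]
  omega

end Pool.Agent.RTB
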