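import Pool.Agent.RTB.KStmts

/-!
# squad RTB, module CFT: the multiplication table of the cuspidal curve
-/

set_option autoImplicit false

open Polynomial

namespace Pool.Agent.RTB

namespace CFT_

section
variable (g : ℕ) (A : Type) [Field A]

/-- the basis elements -/
noncomputable def bB (e m : ℕ) : A[X] := yF g A 0 ^ e * (if m = 0 then 1 else yF g A m)

/-- their degrees -/
def degB (e m : ℕ) : ℕ := (g + 1) * e + (if m = 0 then 0 else g + 1 + m)

variable [CharZero A]

theorem der_yF (i : ℕ) : derivative (yF g A i) = (X ^ g - 1) * X ^ i := by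
  have h1 : (g + i + 1 : A) ≠ 0 := by exact_mod_cast Nat.succ_ne_zero (g + i)
  have h2 : (i + 1 : A) ≠ 0 := by exact_mod_cast Nat.succ_ne_zero i
  rw [yF, derivative_sub, derivative_C_mul_X_pow, derivative_C_mul_X_pow]
  push_cast
  rw [inv_mul_cancel₀ h1, inv_mul_cancel₀ h2, C_1]
  ring

theorem yF_natDegree (i : ℕ) (hg : 1 ≤ g) : (yF g A i).natDegree = g + i + 1 := by
  have h1 : (g + i + 1 : A)⁻¹ ≠ 0 := inv_ne_zero (by exact_mod_cast Nat.succ_ne_zero (g + i))
  have h2 : (i + 1 : A)⁻¹ ≠ 0 := inv_ne_zero (by exact_mod_cast Nat.succ_ne_zero i)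
  rw [yF, natDegree_sub_eq_left_of_natDegree_lt, natDegree_C_mul_X_pow _ _ h1]
  rw [natDegree_C_mul_X_pow _ _ h1, natDegree_C_mul_X_pow _ _ h2]
  omega

theorem yF_ne_zero (i : ℕ) (hg : 1 ≤ g) : yF g A i ≠ 0 := by
  intro h
  have := yF_natDegree g A i hg
  rw [h, natDegree_zero] at this
  omega

theorem bB_ne_zero (hg : 1 ≤ g) (e m : ℕ) : bB g A e m ≠ 0 := by
  rw [bB]
  refine mul_ne_zero (pow_ne_zero _ (yF_ne_zero g A 0 hg)) ?_
  split_ifs
  · exact one_ne_zero
  · exact yF_ne_zero g A m hg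

theorem bB_natDegree (hg : 1 ≤ g) (e m : ℕ) : (bB g A e m).natDegree = degB g e m := by
  have h0 := bB_ne_zero g A hg e m
  rw [bB] at h0 ⊢
  rw [natDegree_mul (left_ne_zero_of_mul h0) (right_ne_zero_of_mul h0), natDegree_pow,
    yF_natDegree g A 0 hg, degB]
  split_ifs with h
  · rw [natDegree_one]
    ring
  · rw [yF_natDegree g A m hg]
    ring

theorem bB_dvd (e m : ℕ) : (X ^ g - 1 : A[X]) ∣ derivative (bB g A e m) := by
  have h1 : ∀ i, (X ^ g - 1 : A[X]) ∣ derivative (yF g A i) := fun i => by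
    rw [der_yF]; exact dvd_mul_right _ _
  rw [bB, derivative_mul, derivative_pow]
  refine dvd_add (Dvd.dvd.mul_right (Dvd.dvd.mul_left (h1 0) _) _) (Dvd.dvd.mul_left ?_ _)
  split_ifs
  · rw [derivative_one]; exact dvd_zero _
  · exact h1 m

end

theorem const_of_deg (g : ℕ) (hg : 1 ≤ g) (P : ℚ[X]) (hP : P.natDegree ≤ g)
    (hdvd : (X ^ g - 1 : ℚ[X]) ∣ derivative P) : P = C (P.coeff 0) := by
  have h1 : derivative P = 0 := by
    refine eq_zero_of_dvd_of_natDegree_lt hdvd ?_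
    have h2 : (X ^ g - 1 : ℚ[X]).natDegree = g := by
      rw [← C_1, natDegree_X_pow_sub_C]
    rw [h2]
    have := natDegree_derivative_le P
    omega
  exact eq_C_of_natDegree_eq_zero (derivative_eq_zero.1 h1)

theorem single_sum (g : ℕ) (e0 m0 : ℕ) (he : e0 < 4) (hm : m0 < g + 1) (a : ℚ) :
    ∑ e : Fin 4, ∑ m : Fin (g + 1), C (if (e : ℕ) = e0 ∧ (m : ℕ) = m0 then a else 0)
      * bB g ℚ e m = C a * bB g ℚ e0 m0 := by
  rw [Finset.sum_eq_single (⟨e0, he⟩ : Fin 4), Finset.sum_eq_single (⟨m0, hm⟩ : Fin (g + 1))]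
  · rw [if_pos ⟨rfl, rfl⟩]
  · intro b _ hb
    rw [if_neg (fun h => hb (Fin.ext h.2)), C_0, zero_mul]
  · intro h
    exact absurd (Finset.mem_univ _) h
  · intro b _ hb
    refine Finset.sum_eq_zero (fun m _ => ?_)
    rw [if_neg (fun h => hb (Fin.ext h.1)), C_0, zero_mul]
  · intro h
    exact absurd (Finset.mem_univ _) h

theorem exists_deg (g D : ℕ) (h1 : g + 1 ≤ D) (h2 : D < 4 * (g + 1)) :
    ∃ e0 m0 : ℕ, e0 < 4 ∧ m0 < g + 1 ∧ degB g e0 m0 = D := by
  have h3 := Nat.div_add_mod D (g + 1)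
  have h4 : D / (g + 1) < 4 := (Nat.div_lt_iff_lt_mul (Nat.succ_pos g)).2 h2
  have h5 : 1 ≤ D / (g + 1) := (Nat.one_le_div_iff (Nat.succ_pos g)).2 h1
  have h6 : D % (g + 1) < g + 1 := Nat.mod_lt _ (Nat.succ_pos g)
  by_cases h7 : D % (g + 1) = 0
  · refine ⟨D / (g + 1), 0, h4, Nat.succ_pos g, ?_⟩
    rw [degB, if_pos rfl]
    omega
  · refine ⟨D / (g + 1) - 1, D % (g + 1), by omega, h6, ?_⟩
    rw [degB, if_neg h7]
    obtain ⟨q, hq⟩ : ∃ q, D / (g + 1) = q + 1 := ⟨D / (g + 1) - 1, by omega⟩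
    rw [hq] at h3 ⊢
    rw [Nat.add_sub_cancel]
    rw [Nat.mul_add, Nat.mul_one] at h3
    omega

/-- reduction of degrees -/
theorem exists_comb (g : ℕ) (hg : 1 ≤ g) : ∀ (D : ℕ), D < 4 * (g + 1) → ∀ P : ℚ[X],
    P.natDegree ≤ D → (X ^ g - 1 : ℚ[X]) ∣ derivative P →
    ∃ c : Fin 4 → Fin (g + 1) → ℚ,
      P = ∑ e : Fin 4, ∑ m : Fin (g + 1), C (c e m) * bB g ℚ e m ∧
      ∀ (e : Fin 4) (m : Fin (g + 1)), D < degB g (e : ℕ) (m : ℕ) → c e m = 0 := by
  have hsmall : ∀ (D : ℕ), ∀ P : ℚ[X], P.natDegree ≤ g → (X ^ g - 1 : ℚ[X]) ∣ derivative P →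
    ∃ c : Fin 4 → Fin (g + 1) → ℚ,
      P = ∑ e : Fin 4, ∑ m : Fin (g + 1), C (c e m) * bB g ℚ e m ∧
      ∀ (e : Fin 4) (m : Fin (g + 1)), D < degB g (e : ℕ) (m : ℕ) → c e m = 0 := by
    intro D P hP hdvd
    refine ⟨fun e m => if (e : ℕ) = 0 ∧ (m : ℕ) = 0 then P.coeff 0 else 0, ?_, ?_⟩
    · rw [single_sum g 0 0 (by norm_num) (Nat.succ_pos g)]
      rw [bB, if_pos rfl, pow_zero, mul_one, mul_one]
      exact const_of_deg g hg P hP hdvd
    · intro e m hem
      refine if_neg (fun h => ?_)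
      rw [h.1, h.2, degB, if_pos rfl] at hem
      omega
  intro D
  induction D with
  | zero =>
    intro _ P hP hdvd
    exact hsmall 0 P (by omega) hdvd
  | succ D ih =>
    intro hD P hP hdvd
    by_cases h1 : D + 1 < g + 1
    · exact hsmall (D + 1) P (by omega) hdvd
    · obtain ⟨e0, m0, he0, hm0, hdeg⟩ := exists_deg g (D + 1) (by omega) hD
      have hbd : (bB g ℚ e0 m0).natDegree = D + 1 := by rw [bB_natDegree g ℚ hg, hdeg]
      have hbc : (bB g ℚ e0 m0).coeff (D + 1) ≠ 0 := by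
        rw [← hbd]
        exact leadingCoeff_ne_zero.2 (bB_ne_zero g ℚ hg e0 m0)
      obtain ⟨c, hc1, hc2⟩ := ih (by omega)
        (P - C (P.coeff (D + 1) / (bB g ℚ e0 m0).coeff (D + 1)) * bB g ℚ e0 m0) (by
          rw [natDegree_le_iff_coeff_eq_zero]
          intro N hN
          rw [coeff_sub, coeff_C_mul]
          rcases Nat.lt_or_ge (D + 1) N with h2 | h2
          · rw [coeff_eq_zero_of_natDegree_lt (lt_of_le_of_lt hP h2),
              coeff_eq_zero_of_natDegree_lt (n := N) (by rw [hbd]; exact h2), mul_zero, sub_zero]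
          · have h3 : N = D + 1 := by omega
            rw [h3, div_mul_cancel₀ _ hbc, sub_self]) (by
          rw [derivative_sub, derivative_C_mul]
          exact dvd_sub hdvd (Dvd.dvd.mul_left (bB_dvd g ℚ e0 m0) _))
      refine ⟨fun e m => c e m + if (e : ℕ) = e0 ∧ (m : ℕ) = m0 then
        P.coeff (D + 1) / (bB g ℚ e0 m0).coeff (D + 1) else 0, ?_, ?_⟩
      · simp only [C_add, add_mul, Finset.sum_add_distrib]
        rw [single_sum g e0 m0 he0 hm0, ← hc1, sub_add_cancel]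
      · intro e m hem
        simp only
        rw [hc2 e m (by omega), if_neg, zero_add]
        intro h
        rw [h.1, h.2, hdeg] at hem
        omega

theorem bF_bidx (g : ℕ) (A : Type) [Field A] (e m : ℕ) (hm : m < g + 1) :
    bF g A (bidx g e m) = bB g A e m := by
  rw [bidx]
  by_cases h1 : m = 0
  · rw [if_pos h1]
    by_cases h2 : e = 0
    · rw [if_pos h2, bF, if_pos rfl, bB, if_pos h1, h2, pow_zero, mul_one]
    · rw [if_neg h2]
      obtain ⟨q, rfl⟩ : ∃ q, e = q + 1 := ⟨e - 1, by omega⟩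
      have h3 : (g + 1) * (q + 1) - g ≠ 0 := by
        rw [Nat.mul_add, Nat.mul_one]; omega
      have h4 : g + ((g + 1) * (q + 1) - g) = (g + 1) * (q + 1) := by
        rw [Nat.mul_add, Nat.mul_one]; omega
      rw [bF, if_neg h3, h4, Nat.mul_div_cancel_left _ (Nat.succ_pos g), Nat.mul_mod_right,
        bB, if_pos h1, Nat.add_sub_cancel, mul_one, pow_succ]
  · rw [if_neg h1]
    have h3 : (g + 1) * (e + 1) + m - g ≠ 0 := by
      rw [Nat.mul_add, Nat.mul_one]; omega
    have h4 : g + ((g + 1) * (e + 1) + m - g) = m + (g + 1) * (e + 1) := by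
      rw [Nat.mul_add, Nat.mul_one]; omega
    rw [bF, if_neg h3, h4, Nat.add_mul_div_left _ _ (Nat.succ_pos g), Nat.div_eq_of_lt hm,
      Nat.add_mul_mod_self_left, Nat.mod_eq_of_lt hm, bB, if_neg h1, zero_add,
      Nat.add_sub_cancel]

theorem yF_map (g : ℕ) (A : Type) [Field A] [CharZero A] (i : ℕ) :
    (yF g ℚ i).map (algebraMap ℚ A) = yF g A i := by
  simp only [yF, Polynomial.map_sub, Polynomial.map_mul, Polynomial.map_pow, map_X, map_C,
    map_inv₀, map_add, map_natCast, map_one]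

theorem bB_map (g : ℕ) (A : Type) [Field A] [CharZero A] (e m : ℕ) :
    (bB g ℚ e m).map (algebraMap ℚ A) = bB g A e m := by
  rw [bB, bB, Polynomial.map_mul, Polynomial.map_pow, yF_map]
  split_ifs
  · rw [Polynomial.map_one]
  · rw [yF_map]

end CFT_

open CFT_ in
theorem cft_proof : Stmt_CFT := by
  classical
  intro g hg
  have h1 : ∀ i j : Fin (g + 1), ∃ c : Fin 4 → Fin (g + 1) → ℚ,
      yF g ℚ i * yF g ℚ j = ∑ e : Fin 4, ∑ m : Fin (g + 1), C (c e m) * bB g ℚ e m ∧
      ∀ (e : Fin 4) (m : Fin (g + 1)), 2 * (g + 1) + i + j < degB g (e : ℕ) (m : ℕ) →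
        c e m = 0 := by
    intro i j
    refine exists_comb g hg (2 * (g + 1) + i + j) ?_ _ ?_ ?_
    · have := i.2
      have := j.2
      omega
    · refine le_trans natDegree_mul_le ?_
      rw [yF_natDegree g ℚ i hg, yF_natDegree g ℚ j hg]
      omega
    · rw [derivative_mul, der_yF, der_yF]
      exact dvd_add (Dvd.dvd.mul_right (dvd_mul_right _ _) _)
        (Dvd.dvd.mul_left (dvd_mul_right _ _) _)
  choose c hc1 hc2 using h1
  refine ⟨fun x => c x.1 x.2.1 x.2.2.1 x.2.2.2, ?_, ?_⟩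
  · intro i j
    rw [hc1 i j]
    refine Finset.sum_congr rfl (fun e _ => Finset.sum_congr rfl (fun m _ => ?_))
    simp only [bB, Fin.ext_iff, Fin.val_zero]
  · intro A _ _ i j
    by_cases hi : i = 0
    · rw [hi, Finset.sum_eq_single j]
      · simp [gam, bF]
      · intro l _ hl
        simp [gam, hl]
      · intro h
        exact absurd (Finset.mem_range.2 (by omega)) h
    by_cases hj : j = 0
    · rw [hj, Finset.sum_eq_single i]
      · simp [gam, bF, hi]
      · intro l _ hl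
        simp [gam, hi, hl]
      · intro h
        exact absurd (Finset.mem_range.2 (by omega)) h
    -- main case
    have hri : (g + i) % (g + 1) < g + 1 := Nat.mod_lt _ (Nat.succ_pos g)
    have hrj : (g + j) % (g + 1) < g + 1 := Nat.mod_lt _ (Nat.succ_pos g)
    have hqi : 1 ≤ (g + i) / (g + 1) := (Nat.one_le_div_iff (Nat.succ_pos g)).2 (by omega)
    have hqj : 1 ≤ (g + j) / (g + 1) := (Nat.one_le_div_iff (Nat.succ_pos g)).2 (by omega)
    have hdi := Nat.div_add_mod (g + i) (g + 1)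
    have hdj := Nat.div_add_mod (g + j) (g + 1)
    generalize hri' : (g + i) % (g + 1) = ri at hri hdi
    generalize hrj' : (g + j) % (g + 1) = rj at hrj hdj
    generalize hqi' : (g + i) / (g + 1) = qi at hqi hdi
    generalize hqj' : (g + j) / (g + 1) = qj at hqj hdj
    have h2 : yF g A ri * yF g A rj = ∑ e : Fin 4, ∑ m : Fin (g + 1),
        C (algebraMap ℚ A (c ⟨ri, hri⟩ ⟨rj, hrj⟩ e m)) * bB g A e m := by
      have h3 := congrArg (Polynomial.map (algebraMap ℚ A)) (hc1 ⟨ri, hri⟩ ⟨rj, hrj⟩)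
      simp only [Polynomial.map_mul, Polynomial.map_sum, map_C, yF_map, bB_map] at h3
      exact h3
    have h4 : bF g A i * bF g A j = ∑ e : Fin 4, ∑ m : Fin (g + 1),
        C (algebraMap ℚ A (c ⟨ri, hri⟩ ⟨rj, hrj⟩ e m)) *
          bF g A (bidx g (qi - 1 + (qj - 1) + e) m) := by
      rw [bF, bF, if_neg hi, if_neg hj, hri', hrj', hqi', hqj']
      calc yF g A 0 ^ (qi - 1) * yF g A ri * (yF g A 0 ^ (qj - 1) * yF g A rj)
          = yF g A 0 ^ (qi - 1 + (qj - 1)) * (yF g A ri * yF g A rj) := by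
            rw [pow_add]; ring
        _ = _ := by
            rw [h2, Finset.mul_sum]
            refine Finset.sum_congr rfl (fun e _ => ?_)
            rw [Finset.mul_sum]
            refine Finset.sum_congr rfl (fun m _ => ?_)
            rw [bF_bidx g A _ _ m.2, bB, bB, pow_add _ _ (e : ℕ)]
            ring
    rw [h4]
    have h5 : ∀ l, gam g (fun x => (algebraMap ℚ A (c x.1 x.2.1 x.2.2.1 x.2.2.2))) i j l
        = ∑ e : Fin 4, ∑ m : Fin (g + 1), if bidx g (qi - 1 + (qj - 1) + e) m = l then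
          algebraMap ℚ A (c ⟨ri, hri⟩ ⟨rj, hrj⟩ e m) else 0 := by
      intro l
      rw [gam, if_neg hi, if_neg hj]
      simp only [hri', hrj', hqi', hqj']
    simp only [h5, map_sum, Finset.sum_mul, apply_ite C]
    conv_rhs => rw [Finset.sum_comm]
    refine Finset.sum_congr rfl (fun e _ => ?_)
    conv_rhs => rw [Finset.sum_comm]
    refine Finset.sum_congr rfl (fun m _ => ?_)
    by_cases h6 : bidx g (qi - 1 + (qj - 1) + e) m < i + j + g + 1
    · rw [Finset.sum_eq_single (bidx g (qi - 1 + (qj - 1) + e) m)]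
      · rw [if_pos rfl]
      · intro l _ hl
        rw [if_neg (Ne.symm hl), C_0, zero_mul]
      · intro h
        exact absurd (Finset.mem_range.2 h6) h
    · have h7 : c ⟨ri, hri⟩ ⟨rj, hrj⟩ e m = 0 := by
        refine hc2 _ _ e m ?_
        have hm := m.2
        rw [bidx] at h6
        rw [degB]
        obtain ⟨a, rfl⟩ : ∃ a, qi = a + 1 := ⟨qi - 1, by omega⟩
        obtain ⟨b, rfl⟩ : ∃ b, qj = b + 1 := ⟨qj - 1, by omega⟩
        simp only [Nat.add_sub_cancel] at h6
        simp only [Nat.mul_add, Nat.mul_one] at h6 hdi hdj ⊢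
        by_cases hm0 : (m : ℕ) = 0
        · rw [if_pos hm0] at h6 ⊢
          by_cases he : a + b + (e : ℕ) = 0
          · rw [if_pos he] at h6
            omega
          · rw [if_neg he] at h6
            omega
        · rw [if_neg hm0] at h6 ⊢
          omega
      rw [h7, map_zero, C_0, zero_mul]
      symm
      refine Finset.sum_eq_zero (fun l _ => ?_)
      rw [ite_self, zero_mul]

end Pool.Agent.RTB
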