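import Pool.Agent.RTB.SStmts

set_option autoImplicit false

open Polynomial

namespace Pool.Agent.RTB

namespace COM_

variable {L : Type} [Field L]

theorem eq_zero_of_double (S : Finset L) (H : L[X])
    (h : ∀ c ∈ S, H.eval c = 0 ∧ (derivative H).eval c = 0) (hd : H.natDegree < 2 * S.card) :
    H = 0 := by
  by_contra hH
  have h1 : ∏ c ∈ S, (X - C c) ^ 2 ∣ H := by
    apply Finset.prod_dvd_of_coprime
    · intro a _ b _ hab
      exact ((pairwise_coprime_X_sub_C (fun x y h => h)) hab).pow
    · intro c hc
      rw [← le_rootMultiplicity_iff hH]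
      exact (one_lt_rootMultiplicity_iff_isRoot hH).2 (h c hc)
  have h2 := natDegree_le_of_dvd h1 hH
  rw [natDegree_prod_of_monic _ _ (fun c _ => (monic_X_sub_C c).pow 2)] at h2
  simp only [natDegree_pow, natDegree_X_sub_C, mul_one, Finset.sum_const, smul_eq_mul] at h2
  omega

theorem mul_pow_pred (c : L) (i : ℕ) : c * ((i : L) * c ^ (i - 1)) = (i : L) * c ^ i := by
  cases i with
  | zero => simp
  | succ n => simp only [Nat.add_sub_cancel]; ring

theorem recur (S : Finset L) (M e : ℕ) (G : L[X] →ₗ[L] L[X])
    (hG : ∀ m : L[X], m.natDegree ≤ M → (G m).natDegree ≤ e)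
    (hc : ∀ c ∈ S, ∃ α β κ κ' : L, ∀ m : L[X], m.natDegree ≤ M →
      (G m).eval c = κ * (α * m.eval c + β * (derivative m).eval c) ∧
      (derivative (G m)).eval c = κ' * (α * m.eval c + β * (derivative m).eval c))
    (hS : e + 3 < 2 * S.card) (i : ℕ) (hi : i + 3 ≤ M) :
    G (X ^ (i + 3)) = 3 * (X * G (X ^ (i + 2))) - 3 * (X ^ 2 * G (X ^ (i + 1)))
      + X ^ 3 * G (X ^ i) := by
  have hdeg : ∀ j, j ≤ M → (G (X ^ j)).natDegree ≤ e := fun j hj => hG _ (by
    rw [natDegree_X_pow]; exact hj)
  have key : G (X ^ (i + 3)) - 3 * (X * G (X ^ (i + 2))) + 3 * (X ^ 2 * G (X ^ (i + 1)))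
      - X ^ 3 * G (X ^ i) = 0 := by
    apply eq_zero_of_double S
    · intro c hcS
      obtain ⟨α, β, κ, κ', h⟩ := hc c hcS
      have hX : ∀ j, j ≤ M → (G (X ^ j)).eval c = κ * (α * c ^ j + β * ((j : L) * c ^ (j - 1))) ∧
          (derivative (G (X ^ j))).eval c = κ' * (α * c ^ j + β * ((j : L) * c ^ (j - 1))) := by
        intro j hj
        have := h (X ^ j) (by rw [natDegree_X_pow]; exact hj)
        simpa [derivative_X_pow] using this
      have h0 := hX i (by omega)
      have h1 := hX (i + 1) (by omega)
      have h2 := hX (i + 2) (by omega)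
      have h3 := hX (i + 3) hi
      have hp := mul_pow_pred c i
      simp only [Nat.add_sub_cancel, Nat.cast_add, Nat.cast_one, Nat.cast_ofNat] at h1 h2 h3
      rw [show i + 2 - 1 = i + 1 by omega] at h2
      rw [show i + 3 - 1 = i + 2 by omega] at h3
      have e3 : derivative (3 : L[X]) = 0 := by simp
      constructor
      · simp only [eval_sub, eval_add, eval_mul, eval_ofNat, eval_pow, eval_X]
        rw [h0.1, h1.1, h2.1, h3.1]
        linear_combination (-c ^ 2 * κ * β) * hp
      · simp only [derivative_sub, derivative_add, derivative_mul, e3, derivative_X,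
          derivative_X_pow, eval_sub, eval_add, eval_mul, eval_ofNat, eval_pow, eval_X,
          zero_mul, eval_zero, eval_one, Nat.cast_ofNat, map_ofNat]
        rw [h0.1, h1.1, h2.1, h0.2, h1.2, h2.2, h3.2]
        norm_num
        linear_combination (-c ^ 2 * κ' * β - 3 * c * κ * β) * hp
    · refine lt_of_le_of_lt ?_ hS
      refine le_trans (natDegree_sub_le _ _) (max_le (le_trans (natDegree_add_le _ _) (max_le
        (le_trans (natDegree_sub_le _ _) (max_le ?_ ?_)) ?_)) ?_)
      · exact le_trans (hdeg _ hi) (by omega)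
      · refine le_trans natDegree_mul_le ?_
        refine le_trans (Nat.add_le_add_left natDegree_mul_le _) ?_
        have := hdeg (i + 2) (by omega)
        rw [natDegree_X, natDegree_ofNat]; omega
      · refine le_trans natDegree_mul_le ?_
        refine le_trans (Nat.add_le_add_left natDegree_mul_le _) ?_
        have := hdeg (i + 1) (by omega)
        rw [natDegree_X_pow, natDegree_ofNat]; omega
      · refine le_trans natDegree_mul_le ?_
        have := hdeg i (by omega)
        rw [natDegree_X_pow]; omega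
  linear_combination key

theorem pows [CharZero L] (M : ℕ) (G : L[X] →ₗ[L] L[X])
    (hrec : ∀ i, i + 3 ≤ M → G (X ^ (i + 3)) = 3 * (X * G (X ^ (i + 2)))
      - 3 * (X ^ 2 * G (X ^ (i + 1))) + X ^ 3 * G (X ^ i)) (j : ℕ) : j ≤ M →
    G (X ^ j) = (C (1 / 2) * (G (X ^ 2) - 2 * (X * G X) + X ^ 2 * G 1))
        * derivative (derivative (X ^ j)) + (G X - X * G 1) * derivative (X ^ j)
        + G 1 * X ^ j := by
  induction j using Nat.strong_induction_on with
  | _ j ih =>
    intro hj
    match j, ih, hj with
    | 0, _, _ => simp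
    | 1, _, _ => simp only [pow_one, derivative_X, derivative_one]; ring
    | 2, _, _ =>
      have h2 : C (1 / 2 : L) * 2 = 1 := by
        rw [← map_ofNat C 2, ← C_mul]; norm_num
      have : derivative (X ^ 2 : L[X]) = 2 * X := by
        rw [derivative_X_pow]; norm_num
        rw [show (C (2 : L)) = 2 from map_ofNat C 2]
      have h22 : derivative (2 * X : L[X]) = 2 := by
        rw [derivative_mul]; simp
      rw [this, h22]
      linear_combination (-(G (X ^ 2) - 2 * (X * G X) + X ^ 2 * G 1)) * h2
    | (i + 3), ih, hj =>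
      rw [hrec i hj, ih (i + 2) (by omega) (by omega), ih (i + 1) (by omega) (by omega),
        ih i (by omega) (by omega)]
      have d1 : ∀ a : L[X], derivative (X * a) = a + X * derivative a := fun a => by
        rw [derivative_mul, derivative_X]; ring
      have e1 : (X : L[X]) ^ (i + 1) = X * X ^ i := by ring
      have e2 : (X : L[X]) ^ (i + 2) = X * (X * X ^ i) := by ring
      have e3 : (X : L[X]) ^ (i + 3) = X * (X * (X * X ^ i)) := by ring
      rw [e1, e2, e3]
      simp only [d1, derivative_add]
      ring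

end COM_

theorem com_proof : Stmt_COM := by
  intro L _ _ S M e G hM hG hc hS
  refine ⟨G 1, G X - X * G 1, C (1 / 2) * (G (X ^ 2) - 2 * (X * G X) + X ^ 2 * G 1), ?_⟩
  intro m hm
  have hp := COM_.pows M G (fun i hi => COM_.recur S M e G hG hc hS i hi)
  have hsum : m = ∑ i ∈ Finset.range (M + 1), m.coeff i • (X : L[X]) ^ i := by
    conv_lhs => rw [as_sum_range' m (M + 1) (by omega)]
    exact Finset.sum_congr rfl (fun i _ => by rw [← smul_X_eq_monomial])
  have h1 : G m = ∑ i ∈ Finset.range (M + 1), m.coeff i • G (X ^ i) := by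
    conv_lhs => rw [hsum]
    rw [map_sum]
    exact Finset.sum_congr rfl (fun i _ => by rw [map_smul])
  have hd1 : derivative m = ∑ i ∈ Finset.range (M + 1), m.coeff i • derivative ((X : L[X]) ^ i) := by
    conv_lhs => rw [hsum]
    rw [map_sum]
    exact Finset.sum_congr rfl (fun i _ => by rw [derivative_smul])
  have hd2 : derivative (derivative m)
      = ∑ i ∈ Finset.range (M + 1), m.coeff i • derivative (derivative ((X : L[X]) ^ i)) := by
    rw [hd1, map_sum]
    exact Finset.sum_congr rfl (fun i _ => by rw [derivative_smul])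
  have h0 : G 1 * m = ∑ i ∈ Finset.range (M + 1), G 1 * m.coeff i • (X : L[X]) ^ i := by
    conv_lhs => rw [hsum]
    rw [Finset.mul_sum]
  rw [h1, hd2, hd1, h0]
  rw [Finset.mul_sum, Finset.mul_sum, ← Finset.sum_add_distrib,
    ← Finset.sum_add_distrib]
  refine Finset.sum_congr rfl (fun i hi => ?_)
  rw [Finset.mem_range] at hi
  rw [hp i (by omega)]
  simp only [smul_eq_C_mul]
  ring

end Pool.Agent.RTB
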