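import Pool.Agent.RTB.KStmts

/-!
# squad RTB, module CON: the second outcome is impossible
-/

set_option autoImplicit false

open Polynomial

namespace Pool.Agent.RTB

namespace CON_

section lin
variable {K A : Type} [Field K] [CommRing A] [Algebra K A]

theorem fin_span {q h : ℕ} (R : Submodule K A) [FiniteDimensional K R] (v : Fin h → Fin q → A) :
    FiniteDimensional K (Submodule.span K {z : Fin q → A | ∃ r ∈ R, ∃ i, z = r • v i}) := by
  have h1 : Submodule.span K {z : Fin q → A | ∃ r ∈ R, ∃ i, z = r • v i}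
      ≤ ⨆ i, R.map ((LinearMap.toSpanSingleton A (Fin q → A) (v i)).restrictScalars K) := by
    refine Submodule.span_le.2 ?_
    rintro _ ⟨r, hr, i, rfl⟩
    refine Submodule.mem_iSup_of_mem i ?_
    exact ⟨r, hr, rfl⟩
  exact Submodule.finiteDimensional_of_le h1

theorem fin_mul (R U : Submodule K A) [FiniteDimensional K R] [FiniteDimensional K U] :
    FiniteDimensional K (R * U : Submodule K A) := by
  have h1 : R.FG := (Submodule.fg_iff_finiteDimensional _).2 inferInstance
  have h2 : U.FG := (Submodule.fg_iff_finiteDimensional _).2 inferInstance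
  exact (Submodule.fg_iff_finiteDimensional _).1 (h1.mul h2)

/-- the map `r ↦ ∑ r_i w_i` -/
noncomputable def phi {ι : Type} [Fintype ι] (K : Type) [Field K] [Algebra K A] (w : ι → A) :
    (ι → A) →ₗ[K] A where
  toFun := fun r => ∑ i, r i * w i
  map_add' := fun r r' => by
    simp only [Pi.add_apply, add_mul, Finset.sum_add_distrib]
  map_smul' := fun c r => by
    simp only [Pi.smul_apply, smul_mul_assoc, ← Finset.smul_sum, RingHom.id_apply]

/-- vectors with entries in `R` -/
noncomputable def dR (ι : Type) [Fintype ι] (R : Submodule K A) : Submodule K (ι → A) :=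
  LinearMap.range (R.subtype.compLeft ι)

theorem mem_dR {ι : Type} [Fintype ι] {R : Submodule K A} {x : ι → A} :
    x ∈ dR ι R ↔ ∀ i, x i ∈ R := by
  constructor
  · rintro ⟨r, rfl⟩ i
    exact (r i).2
  · intro h
    exact ⟨fun i => ⟨x i, h i⟩, rfl⟩

theorem finrank_dR {ι : Type} [Fintype ι] (R : Submodule K A) [FiniteDimensional K R] :
    Module.finrank K (dR ι R) = Fintype.card ι * Module.finrank K R := by
  rw [dR, LinearMap.finrank_range_of_inj]
  · simp [Module.finrank_pi_fintype]
  · intro r r' h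
    funext i
    exact Subtype.ext (congrFun h i)

theorem fd_dR {ι : Type} [Fintype ι] (R : Submodule K A) [FiniteDimensional K R] :
    FiniteDimensional K (dR ι R) := by
  rw [dR]
  infer_instance

theorem le_map_phi {ι : Type} [Fintype ι] (R : Submodule K A) (w : ι → A) :
    R * Submodule.span K (Set.range w) ≤ (dR ι R).map (phi K w) := by
  classical
  refine Submodule.mul_le.2 (fun m hm n hn => ?_)
  induction hn using Submodule.span_induction with
  | mem n hn =>
    obtain ⟨i0, rfl⟩ := hn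
    refine ⟨fun i => if i = i0 then m else 0, mem_dR.2 (fun i => ?_), ?_⟩
    · by_cases h : i = i0
      · simp only [h, if_true]; exact hm
      · simp only [h, if_false]; exact Submodule.zero_mem _
    · show ∑ i, (if i = i0 then m else 0) * w i = m * w i0
      rw [Finset.sum_eq_single i0]
      · rw [if_pos rfl]
      · intro j _ hj
        rw [if_neg hj, zero_mul]
      · intro h
        exact absurd (Finset.mem_univ _) h
  | zero => rw [mul_zero]; exact Submodule.zero_mem _
  | add n n' _ _ h1 h2 => rw [mul_add]; exact Submodule.add_mem _ h1 h2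
  | smul c n _ h1 => rw [mul_smul_comm]; exact Submodule.smul_mem _ _ h1

theorem map_phi_le {ι : Type} [Fintype ι] (R : Submodule K A) (w : ι → A) :
    (dR ι R).map (phi K w) ≤ R * Submodule.span K (Set.range w) := by
  rintro _ ⟨r, hr, rfl⟩
  show ∑ i, r i * w i ∈ _
  exact Submodule.sum_mem _ (fun i _ => Submodule.mul_mem_mul (mem_dR.1 hr i)
    (Submodule.subset_span ⟨i, rfl⟩))

theorem phi_count {ι : Type} [Fintype ι] (R : Submodule K A) [FiniteDimensional K R] (w : ι → A) :
    Module.finrank K ((dR ι R).map (phi K w))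
      + Module.finrank K (dR ι R ⊓ LinearMap.ker (phi K w) : Submodule K (ι → A))
      = Fintype.card ι * Module.finrank K R := by
  have h0 := fd_dR (ι := ι) R
  have h1 := LinearMap.finrank_range_add_finrank_ker ((phi K w).domRestrict (dR ι R))
  rw [LinearMap.range_domRestrict, finrank_dR] at h1
  rw [← h1]
  congr 1
  rw [← Submodule.map_comap_subtype, Submodule.finrank_map_subtype_eq]
  rfl

end lin

section det
variable {Kf Lf : Type} [Field Kf] [Field Lf] [Algebra Kf Lf]

theorem det2_add_left (u u' v : Fin 2 → Lf) : det2 (u + u') v = det2 u v + det2 u' v := by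
  simp only [det2, Pi.add_apply]; ring

theorem det2_add_right (u v v' : Fin 2 → Lf) : det2 u (v + v') = det2 u v + det2 u v' := by
  simp only [det2, Pi.add_apply]; ring

theorem det2_smul_left (c : Kf) (u v : Fin 2 → Lf) : det2 (c • u) v = c • det2 u v := by
  simp only [det2, Pi.smul_apply, smul_sub, smul_mul_assoc]

theorem det2_smul_right (c : Kf) (u v : Fin 2 → Lf) : det2 u (c • v) = c • det2 u v := by
  simp only [det2, Pi.smul_apply, smul_sub, mul_smul_comm]

theorem det2_mul_left (c : Lf) (u v : Fin 2 → Lf) : det2 (c • u) v = c * det2 u v := by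
  simp only [det2, Pi.smul_apply, smul_eq_mul]; ring

theorem det2_mem {k : ℕ} (σ : Fin k → Fin 2 → Lf) {u v : Fin 2 → Lf}
    (hu : u ∈ Submodule.span Kf (Set.range σ)) (hv : v ∈ Submodule.span Kf (Set.range σ)) :
    det2 u v ∈ detSp Kf σ := by
  induction hu using Submodule.span_induction with
  | mem u hu =>
    obtain ⟨i, rfl⟩ := hu
    induction hv using Submodule.span_induction with
    | mem v hv =>
      obtain ⟨j, rfl⟩ := hv
      exact Submodule.subset_span ⟨i, j, rfl⟩
    | zero => simp [det2]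
    | add v v' _ _ h1 h2 =>
      rw [det2_add_right]
      exact Submodule.add_mem _ h1 h2
    | smul c v _ h1 =>
      rw [det2_smul_right]
      exact Submodule.smul_mem _ _ h1
  | zero => simp [det2]
  | add v v' _ _ h1 h2 =>
    rw [det2_add_left]
    exact Submodule.add_mem _ h1 h2
  | smul c v _ h1 =>
    rw [det2_smul_left]
    exact Submodule.smul_mem _ _ h1

theorem detSp_le {k : ℕ} (σ s : Fin k → Fin 2 → Lf)
    (h : Submodule.span Kf (Set.range σ) = Submodule.span Kf (Set.range s)) :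
    detSp Kf s ≤ detSp Kf σ := by
  refine Submodule.span_le.2 ?_
  rintro _ ⟨i, j, rfl⟩
  refine det2_mem σ ?_ ?_
  · rw [h]; exact Submodule.subset_span ⟨i, rfl⟩
  · rw [h]; exact Submodule.subset_span ⟨j, rfl⟩

/-- the map `x ↦ (θ det2 x σ_j)_j` -/
noncomputable def psi {k : ℕ} (Kf : Type) [Field Kf] [Algebra Kf Lf] (θ : Lf)
    (σ : Fin k → Fin 2 → Lf) : (Fin 2 → Lf) →ₗ[Kf] (Fin k → Lf) where
  toFun := fun x j => θ * det2 x (σ j)
  map_add' := fun x y => by
    funext j
    simp only [Pi.add_apply, det2_add_left, mul_add]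
  map_smul' := fun c x => by
    funext j
    simp only [Pi.smul_apply, det2_smul_left, mul_smul_comm, RingHom.id_apply]

end det

section lift
variable {Kf A κ B : Type} [Field Kf] [CommRing A] [Algebra Kf A] [Field κ] [CommRing B]
  [Algebra κ B] (O : ValuationSubring Kf) (red : O →+* κ) (Q : A → B → Prop)

theorem q_sum (h0 : Q 0 0) (hadd : ∀ x y p q, Q x p → Q y q → Q (x + y) (p + q)) {ι : Type}
    (t : Finset ι) (x : ι → A) (p : ι → B) (h : ∀ i ∈ t, Q (x i) (p i)) :
    Q (∑ i ∈ t, x i) (∑ i ∈ t, p i) := by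
  classical
  induction t using Finset.induction_on with
  | empty => simpa using h0
  | insert a t ha ih =>
    rw [Finset.sum_insert ha, Finset.sum_insert ha]
    exact hadd _ _ _ _ (h a (Finset.mem_insert_self _ _))
      (ih (fun i hi => h i (Finset.mem_insert_of_mem hi)))

theorem lift_indep (h0 : Q 0 0) (huniq : ∀ x p p', Q x p → Q x p' → p = p')
    (hadd : ∀ x y p q, Q x p → Q y q → Q (x + y) (p + q))
    (hsmul : ∀ (x : A) (p : B) (r : O), Q x p → Q ((r : Kf) • x) (red r • p))
    {ι : Type} (m : ℕ) (x : Fin m → ι → A) (p : Fin m → ι → B)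
    (hred : ∀ a i, Q (x a i) (p a i)) (hp : LinearIndependent κ p) :
    LinearIndependent Kf x := by
  classical
  by_contra hx
  obtain ⟨c, hc, a1, ha1⟩ := Fintype.not_linearIndependent_iff.1 hx
  obtain ⟨a0, -, ha0⟩ := Finset.exists_max_image (Finset.univ : Finset (Fin m))
    (fun a => O.valuation (c a)) ⟨a1, Finset.mem_univ _⟩
  have hc0 : c a0 ≠ 0 := by
    intro h
    have h1 := ha0 a1 (Finset.mem_univ _)
    simp only [h, map_zero] at h1
    exact ha1 ((map_eq_zero O.valuation).1 (le_antisymm h1 zero_le))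
  have hd : ∀ a, c a / c a0 ∈ O := by
    intro a
    rw [← O.valuation_le_one_iff, map_div₀]
    exact div_le_one_of_le₀ (ha0 a (Finset.mem_univ _)) zero_le
  have h2 : ∀ i, ∑ a, (((⟨c a / c a0, hd a⟩ : O) : Kf) • x a i) = 0 := by
    intro i
    have h3 := congrArg (fun z => (c a0)⁻¹ • z) (congrFun hc i)
    simp only [Finset.sum_apply, Pi.smul_apply, Pi.zero_apply, smul_zero, Finset.smul_sum,
      smul_smul] at h3
    rw [← h3]
    refine Finset.sum_congr rfl (fun a _ => ?_)
    show (c a / c a0) • x a i = _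
    rw [div_eq_inv_mul]
  have h4 : ∑ a, red ⟨c a / c a0, hd a⟩ • p a = 0 := by
    funext i
    rw [Finset.sum_apply, Pi.zero_apply]
    have h5 := q_sum Q h0 hadd Finset.univ
      (fun a => (((⟨c a / c a0, hd a⟩ : O) : Kf) • x a i))
      (fun a => red ⟨c a / c a0, hd a⟩ • p a i) (fun a _ => hsmul _ _ _ (hred a i))
    rw [h2 i] at h5
    have h6 := huniq _ _ _ h5 h0
    rw [← h6]
    refine Finset.sum_congr rfl (fun a _ => ?_)
    rw [Pi.smul_apply]
  have h7 := Fintype.linearIndependent_iff.1 hp _ h4 a0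
  have h8 : (⟨c a0 / c a0, hd a0⟩ : O) = 1 := Subtype.ext (div_self hc0)
  rw [h8, map_one] at h7
  exact one_ne_zero h7

theorem ker_le (h0 : Q 0 0) (huniq : ∀ x p p', Q x p → Q x p' → p = p')
    (hadd : ∀ x y p q, Q x p → Q y q → Q (x + y) (p + q))
    (hsmul : ∀ (x : A) (p : B) (r : O), Q x p → Q ((r : Kf) • x) (red r • p)) {ι : Type}
    [Fintype ι] (R : Submodule Kf A) (R' : Submodule κ B) [FiniteDimensional Kf R]
    [FiniteDimensional κ R'] (w : ι → A) (w' : ι → B)
    (hlift : ∀ M : ι → B, (∀ i, M i ∈ R') → ∑ i, M i * w' i = 0 →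
      ∃ x : ι → A, (∀ i, x i ∈ R ∧ Q (x i) (M i)) ∧ ∑ i, x i * w i = 0) :
    Module.finrank κ (dR ι R' ⊓ LinearMap.ker (phi κ w') : Submodule κ (ι → B))
      ≤ Module.finrank Kf (dR ι R ⊓ LinearMap.ker (phi Kf w) : Submodule Kf (ι → A)) := by
  classical
  have hf1 := fd_dR (ι := ι) R
  have hf2 := fd_dR (ι := ι) R'
  have b := Module.finBasis κ (dR ι R' ⊓ LinearMap.ker (phi κ w') : Submodule κ (ι → B))
  have h1 : ∀ a, ∃ x : ι → A, (∀ i, x i ∈ R ∧ Q (x i) ((b a).1 i : B)) ∧
      ∑ i, x i * w i = 0 := by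
    intro a
    have h2 := (Submodule.mem_inf.1 (b a).2)
    exact hlift (b a).1 (mem_dR.1 h2.1) (LinearMap.mem_ker.1 h2.2)
  choose x hx1 hx2 using h1
  have h2 : LinearIndependent κ (fun a => (b a).1) :=
    b.linearIndependent.map' (Submodule.subtype _) (Submodule.ker_subtype _)
  have h5 := lift_indep O red Q h0 huniq hadd hsmul _ x
    (fun a => (b a).1) (fun a q => (hx1 a q).2) h2
  have h6 : LinearIndependent Kf (fun a => (⟨x a, Submodule.mem_inf.2
      ⟨mem_dR.2 (fun i => (hx1 a i).1), LinearMap.mem_ker.2 (hx2 a)⟩⟩ :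
      (dR ι R ⊓ LinearMap.ker (phi Kf w) : Submodule Kf (ι → A)))) :=
    LinearIndependent.of_comp (Submodule.subtype _) h5
  have h7 := h6.fintype_card_le_finrank
  rw [Fintype.card_fin] at h7
  exact h7

end lift

theorem red_zero {Kf Lf κ : Type} [Field Kf] [Field Lf] [Algebra Kf Lf] [Field κ]
    (O : ValuationSubring Kf) (red : O →+* κ) (β : ℕ → Lf) (βF : ℕ → κ[X]) :
    Red O red β βF 0 0 := ⟨0, fun _ => 0, by simp, by simp⟩

theorem ffA {L : Type} [Field L] {A : L[X]} {a : L} {k : ℕ} (hk : 9 ≤ k)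
    (hF : FF ((X - C a) * A) (2 * k - 3)) : FF A (2 * k - 4) ∧ A.eval a ≠ 0 := by
  have hmon : A.Monic := (monic_X_sub_C a).of_mul_monic_left hF.mon
  refine ⟨⟨hmon, hF.sep.of_mul_right, ?_⟩, ?_⟩
  · have h := hF.deg
    rw [(monic_X_sub_C a).natDegree_mul hmon, natDegree_X_sub_C] at h
    omega
  · have h1 : IsCoprime (X - C a) A := hF.sep.isCoprime
    have h2 := ((irreducible_X_sub_C a).coprime_iff_not_dvd).1 h1
    rw [dvd_iff_isRoot] at h2
    exact h2

theorem wr_mono (L : Type) [Field L] (k : ℕ) (hk : 9 ≤ k) (i j : Fin k) :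
    (wr (X ^ (i : ℕ) : L[X]) (X ^ (j : ℕ))).natDegree ≤ 2 * k - 4 := by
  have hi := i.2
  have hj := j.2
  by_cases hij : i = j
  · rw [hij, wr, mul_comm, sub_self, natDegree_zero]
    exact Nat.zero_le _
  · have hij' : (i : ℕ) ≠ j := fun h => hij (Fin.ext h)
    have h1 : ∀ m n : ℕ, (X ^ m * derivative (X ^ n) : L[X]).natDegree ≤ m + (n - 1) := by
      intro m n
      rw [derivative_X_pow]
      refine le_trans natDegree_mul_le ?_
      refine Nat.add_le_add (natDegree_X_pow_le m) ?_
      refine le_trans (natDegree_C_mul_le _ _) (natDegree_X_pow_le _)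
    rw [wr]
    refine le_trans (natDegree_sub_le _ _) (max_le ?_ ?_)
    · refine le_trans (h1 _ _) ?_
      omega
    · rw [mul_comm]
      refine le_trans (h1 _ _) ?_
      omega

end CON_

open CON_ in
theorem con_proof (hRLF : Stmt_RLF) (hSSX : Stmt_SSX) (hHUB : Stmt_HUB) (hLB2 : Stmt_LB2)
    (hRDB : Stmt_RDB) (hRFB : Stmt_RFB) (_hHIN : Stmt_HIN) : Stmt_CON := by
  classical
  intro Kf Lf κ _ _ _ _ _ _ k O red β F βF hk hctx s f hdat hn0 a' A f1 f2 Γ σ θ N hF hd1 hd2 hw
    hΓ hθ hσ hy
  obtain ⟨n0, hn0⟩ := hn0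
  have hff := hctx.ff
  rw [hF] at hff
  obtain ⟨hA, hAa⟩ := ffA hk hff
  obtain ⟨hLB2a, N0, hLB2b⟩ := hLB2 κ A f1 f2 a' k hk hA hAa hd1 hd2 hw
  obtain ⟨N1, hSSX1⟩ := hSSX κ A f1 f2 a' k hk hA hAa hd1 hd2 hw
  rw [← hF] at hLB2b hSSX1
  obtain ⟨huniq, hadd, hsmul, hmul, hβ, hscale, hliftR, hredR, hmulR, hfinR, hmono, hone⟩ :=
    hRDB Kf Lf κ (2 * k - 3) O red β F βF (by omega) inferInstance hctx
  have hRF := hRFB Kf Lf κ (2 * k - 3) O red β F βF (by omega) inferInstance hctx
  -- the space H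
  have hH : ∀ p ∈ Submodule.span κ (Set.range (fun q : Fin k × Fin k => muX f1 f2 q.1 q.2)),
      ∃ w : κ[X], w.natDegree ≤ 2 * k - 4 ∧ p = wr A w := by
    intro p hp
    induction hp using Submodule.span_induction with
    | mem p hp =>
      obtain ⟨⟨i, j⟩, rfl⟩ := hp
      exact ⟨wr (X ^ (i : ℕ)) (X ^ (j : ℕ)), wr_mono κ k hk i j, by
        show X ^ (i : ℕ) * Dh f1 f2 (X ^ (j : ℕ)) - X ^ (j : ℕ) * Dh f1 f2 (X ^ (i : ℕ)) = _
        rw [key_uv, hw]⟩
    | zero => exact ⟨0, by simp, by simp [wr]⟩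
    | add p q _ _ h1 h2 =>
      obtain ⟨w, hw1, rfl⟩ := h1
      obtain ⟨w', hw2, rfl⟩ := h2
      refine ⟨w + w', le_trans (natDegree_add_le _ _) (max_le hw1 hw2), ?_⟩
      simp only [wr, derivative_add]
      ring
    | smul c p _ h1 =>
      obtain ⟨w, hw1, rfl⟩ := h1
      refine ⟨c • w, le_trans (natDegree_smul_le _ _) hw1, ?_⟩
      simp only [wr, derivative_smul, smul_sub, mul_smul_comm]
  obtain ⟨N2, hHUB2⟩ := hHUB κ A a' k _ hk hA hAa hH
  rw [← hF] at hHUB2
  obtain ⟨n, hn1, hn2, hn3, hn4, hn5⟩ : ∃ n, N0 ≤ n ∧ N1 ≤ n ∧ N2 ≤ n ∧ n0 ≤ n ∧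
      4 * (2 * k - 3) ≤ n :=
    ⟨N0 + N1 + N2 + n0 + 4 * (2 * k - 3), by omega, by omega, by omega, by omega, by omega⟩
  have hfd1 : FiniteDimensional Kf (Rn Kf (2 * k - 3) β n) := (hfinR n).2
  have hfd2 : FiniteDimensional Kf (Rn Kf (2 * k - 3) β 0) := (hfinR 0).2
  have hfd3 : FiniteDimensional κ (RF F n) := (hRF n).2.2
  have hfd4 : FiniteDimensional κ (RF F 0) := (hRF 0).2.2
  -- the relations on the columns lift
  have hcol := (hRLF Kf Lf κ (2 * k - 3) O red β F βF (by omega) inferInstance hctx k k n N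
    (fun i j => θ * det2 (σ i) (σ j)) (fun i j => Γ * muX f1 f2 i j) hy).2 (by
      refine le_trans ?_ (hLB2b n hn1 Γ hΓ)
      have hfs := hn0 n hn4
      rw [← hσ] at hfs
      have : FiniteDimensional Kf (smSp (Rn Kf (2 * k - 3) β n)
        (Submodule.span Kf (Set.range σ))) := by
        refine Module.finite_of_finrank_pos ?_
        rw [hfs]
        omega
      rw [← hfs]
      refine le_trans (Submodule.finrank_mono ?_)
        (Submodule.finrank_map_le (psi Kf θ σ) (smSp (Rn Kf (2 * k - 3) β n)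
          (Submodule.span Kf (Set.range σ))))
      refine Submodule.span_le.2 ?_
      rintro _ ⟨r, hr, i, rfl⟩
      refine ⟨r • σ i, Submodule.subset_span ⟨r, hr, σ i, Submodule.subset_span ⟨i, rfl⟩, rfl⟩, ?_⟩
      funext j
      show θ * det2 (r • σ i) (σ j) = r • (θ * det2 (σ i) (σ j))
      rw [det2_mul_left, smul_eq_mul]
      ring)
  -- the constant relations lift
  have hdet : Module.finrank Kf (detSp Kf σ) ≤ 2 * k - 4 := by
    have h1 : detSp Kf σ = detSp Kf s := le_antisymm (detSp_le s σ hσ.symm) (detSp_le σ s hσ)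
    rw [h1]
    refine le_trans hdat.dc ?_
    omega
  have hfdd : FiniteDimensional Kf (detSp Kf σ) := by
    have h1 : {x : Lf | ∃ i j, x = det2 (σ i) (σ j)}
        = Set.range (fun q : Fin k × Fin k => det2 (σ q.1) (σ q.2)) := by
      ext x
      constructor
      · rintro ⟨i, j, rfl⟩
        exact ⟨(i, j), rfl⟩
      · rintro ⟨q, rfl⟩
        exact ⟨q.1, q.2, rfl⟩
    rw [detSp, h1]
    exact FiniteDimensional.span_of_finite Kf (Set.finite_range _)
  have hcst0 := (hRLF Kf Lf κ (2 * k - 3) O red β F βF (by omega) inferInstance hctx (k * k) 1 0 N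
    (fun a _ => θ * det2 (σ (finProdFinEquiv.symm a).1) (σ (finProdFinEquiv.symm a).2))
    (fun a _ => Γ * muX f1 f2 (finProdFinEquiv.symm a).1 (finProdFinEquiv.symm a).2)
    (fun a _ => hy _ _)).2 (by
      have h1 : 2 * k - 4 ≤ Module.finrank κ (Submodule.span κ {z : Fin 1 → κ[X] |
          ∃ r ∈ RF F 0, ∃ a : Fin (k * k), z = r • fun _ =>
            Γ * muX f1 f2 (finProdFinEquiv.symm a).1 (finProdFinEquiv.symm a).2}) := by
        have := fin_span (q := 1) (RF F 0) (fun (a : Fin (k * k)) (_ : Fin 1) =>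
          Γ * muX f1 f2 (finProdFinEquiv.symm a).1 (finProdFinEquiv.symm a).2)
        refine le_trans (hLB2a Γ hΓ) (le_trans (Submodule.finrank_mono ?_)
          (Submodule.finrank_map_le (LinearMap.proj 0 : (Fin 1 → κ[X]) →ₗ[κ] κ[X]) _))
        refine Submodule.span_le.2 ?_
        rintro _ ⟨i, j, rfl⟩
        refine ⟨fun _ => Γ * muX f1 f2 i j, Submodule.subset_span ⟨1, ?_, finProdFinEquiv (i, j), ?_⟩,
          rfl⟩
        · exact mem_RF.2 ⟨by simp, by simp⟩
        · rw [one_smul, Equiv.symm_apply_apply]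
      refine le_trans ?_ h1
      refine le_trans ?_ hdet
      have h2 : ∀ x ∈ Rn Kf (2 * k - 3) β 0, ∃ c : Kf, x = c • 1 := by
        intro x hx
        have h3 : β '' Set.Iic (0 - (2 * k - 3)) = {1} := by
          rw [Nat.zero_sub]
          ext y
          constructor
          · rintro ⟨j, hj, rfl⟩
            have h4 : j = 0 := Nat.le_zero.1 hj
            rw [h4, hctx.b0]; rfl
          · intro h4
            exact ⟨0, Set.mem_Iic.2 (le_refl 0), by rw [hctx.b0]; exact h4.symm⟩
        rw [Rn, h3] at hx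
        obtain ⟨c, hc⟩ := Submodule.mem_span_singleton.1 hx
        exact ⟨c, hc.symm⟩
      refine le_trans (Submodule.finrank_mono ?_) (Submodule.finrank_map_le
        (LinearMap.pi (fun _ : Fin 1 => LinearMap.mulLeft Kf θ)) (detSp Kf σ))
      refine Submodule.span_le.2 ?_
      rintro _ ⟨r, hr, a, rfl⟩
      obtain ⟨c, rfl⟩ := h2 r hr
      refine ⟨c • det2 (σ (finProdFinEquiv.symm a).1) (σ (finProdFinEquiv.symm a).2),
        Submodule.smul_mem _ _ (Submodule.subset_span ⟨_, _, rfl⟩), ?_⟩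
      funext b
      simp)
  have hcst : ∀ κ' : Fin k → Fin k → κ, ∑ i, ∑ j, C (κ' i j) * muX f1 f2 i j = 0 →
      ∃ r : Fin k → Fin k → Lf, (∀ i j, r i j ∈ Rn Kf (2 * k - 3) β 0 ∧
        Red O red β βF (r i j) (C (κ' i j))) ∧
        ∑ i, ∑ j, r i j * (θ * det2 (σ i) (σ j)) = 0 := by
    intro κ' hκ'
    obtain ⟨r, hr1, hr2⟩ := hcst0
      (fun a => C (κ' (finProdFinEquiv.symm a).1 (finProdFinEquiv.symm a).2)) (fun a =>
        mem_RF.2 ⟨by simp, by simp⟩) (fun _ => by
          rw [Equiv.sum_comp finProdFinEquiv.symm (fun q : Fin k × Fin k =>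
            C (κ' q.1 q.2) * (Γ * muX f1 f2 q.1 q.2)), Fintype.sum_prod_type]
          have h1 : ∑ i, ∑ j, C (κ' i j) * (Γ * muX f1 f2 i j)
              = Γ * ∑ i, ∑ j, C (κ' i j) * muX f1 f2 i j := by
            simp only [Finset.mul_sum]
            refine Finset.sum_congr rfl (fun i _ => Finset.sum_congr rfl (fun j _ => ?_))
            ring
          rw [h1, hκ', mul_zero])
    refine ⟨fun i j => r (finProdFinEquiv (i, j)), fun i j => ?_, ?_⟩
    · have h1 := hr1 (finProdFinEquiv (i, j))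
      rw [Equiv.symm_apply_apply] at h1
      exact h1
    · have h1 := hr2 0
      rw [← Equiv.sum_comp finProdFinEquiv, Fintype.sum_prod_type] at h1
      simp only [Equiv.symm_apply_apply] at h1
      exact h1
  -- every relation lifts
  have hlift : ∀ M ∈ Submodule.span κ (KS F f1 f2 k n), ∃ x : Fin k → Fin k → Lf,
      (∀ i j, x i j ∈ Rn Kf (2 * k - 3) β n ∧ Red O red β βF (x i j) (M i j)) ∧
      ∑ i, ∑ j, x i j * (θ * det2 (σ i) (σ j)) = 0 := by
    intro M hM
    induction hM using Submodule.span_induction with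
    | mem M hM =>
      rcases hM with ⟨ρ, hρ, κ', hκ', rfl⟩ | ⟨t, ht, h1, h2, j0, rfl⟩
      · obtain ⟨r, hr1, hr2⟩ := hcst κ' hκ'
        obtain ⟨x, hx1, hx2⟩ := hliftR n ρ hρ
        refine ⟨fun i j => r i j * x, fun i j => ⟨?_, ?_⟩, ?_⟩
        · have h3 := hmulR 0 n (Submodule.mul_mem_mul (hr1 i j).1 hx1)
          rw [Nat.zero_add] at h3
          exact h3
        · exact hmul _ _ _ _ (hr1 i j).2 hx2
        · have h3 : ∑ i, ∑ j, r i j * x * (θ * det2 (σ i) (σ j))
              = x * ∑ i, ∑ j, r i j * (θ * det2 (σ i) (σ j)) := by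
            simp only [Finset.mul_sum]
            refine Finset.sum_congr rfl (fun i _ => Finset.sum_congr rfl (fun j _ => ?_))
            ring
          rw [h3, hr2, mul_zero]
      · obtain ⟨r, hr1, hr2⟩ := hcol t ht (fun j => by
          have h3 : ∑ i, t i * (Γ * muX f1 f2 i j)
              = Γ * (Dh f1 f2 (X ^ (j : ℕ)) * ∑ i, t i * X ^ (i : ℕ)
                - X ^ (j : ℕ) * ∑ i, t i * Dh f1 f2 (X ^ (i : ℕ))) := by
            rw [Finset.mul_sum, Finset.mul_sum, ← Finset.sum_sub_distrib, Finset.mul_sum]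
            refine Finset.sum_congr rfl (fun i _ => ?_)
            rw [muX]
            ring
          rw [h3, h1, h2]
          ring)
        refine ⟨fun i j => if j = j0 then r i else 0, fun i j => ?_, ?_⟩
        · by_cases hj : j = j0
          · simp only [hj, if_true]
            exact hr1 i
          · simp only [hj, if_false]
            exact ⟨Submodule.zero_mem _, red_zero O red β βF⟩
        · have h3 : ∀ i : Fin k, ∑ j : Fin k, (if j = j0 then r i else 0) * (θ * det2 (σ i) (σ j))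
              = r i * (θ * det2 (σ i) (σ j0)) := by
            intro i
            rw [Finset.sum_eq_single j0]
            · rw [if_pos rfl]
            · intro j _ hj
              rw [if_neg hj, zero_mul]
            · intro h
              exact absurd (Finset.mem_univ _) h
          rw [Finset.sum_congr rfl (fun i _ => h3 i)]
          exact hr2 j0
    | zero => exact ⟨0, fun i j => ⟨Submodule.zero_mem _, red_zero O red β βF⟩, by simp⟩
    | add M M' _ _ h1 h2 =>
      obtain ⟨x, hx1, hx2⟩ := h1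
      obtain ⟨y, hy1, hy2⟩ := h2
      refine ⟨fun i j => x i j + y i j, fun i j => ⟨Submodule.add_mem _ (hx1 i j).1 (hy1 i j).1,
        hadd _ _ _ _ (hx1 i j).2 (hy1 i j).2⟩, ?_⟩
      simp only [add_mul, Finset.sum_add_distrib]
      rw [hx2, hy2, add_zero]
    | smul c M _ h1 =>
      obtain ⟨x, hx1, hx2⟩ := h1
      obtain ⟨r, rfl⟩ := hctx.surj c
      refine ⟨fun i j => (r : Kf) • x i j, fun i j => ⟨Submodule.smul_mem _ _ (hx1 i j).1, ?_⟩, ?_⟩
      · have h3 := hsmul _ _ r (hx1 i j).2
        simpa [smul_eq_C_mul] using h3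
      · simp only [smul_mul_assoc, ← Finset.smul_sum]
        rw [hx2, smul_zero]
  -- counting
  have hker := ker_le O red (Red O red β βF) (red_zero O red β βF) huniq hadd
      (fun x p r h => by rw [smul_eq_C_mul]; exact hsmul x p r h)
      (Rn Kf (2 * k - 3) β n) (RF F n) (fun q : Fin k × Fin k => θ * det2 (σ q.1) (σ q.2))
      (fun q : Fin k × Fin k => muX f1 f2 q.1 q.2) (fun M hM hM0 => by
        obtain ⟨x, hx1, hx2⟩ := hlift (fun i j => M (i, j)) (hSSX1 n hn2 _ (fun i j => hM (i, j)) (by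
          rw [← Fintype.sum_prod_type (f := fun q : Fin k × Fin k => M (q.1, q.2)
            * muX f1 f2 q.1 q.2)]
          exact hM0))
        refine ⟨fun q => x q.1 q.2, fun q => hx1 q.1 q.2, ?_⟩
        rw [Fintype.sum_prod_type]
        exact hx2)
  have hc1 := phi_count (RF F n) (fun q : Fin k × Fin k => muX f1 f2 q.1 q.2)
  have hc2 := phi_count (Rn Kf (2 * k - 3) β n)
    (fun q : Fin k × Fin k => θ * det2 (σ q.1) (σ q.2))
  rw [(hRF n).2.1] at hc1
  rw [(hfinR n).1] at hc2
  have hup : Module.finrank κ ((dR (Fin k × Fin k) (RF F n)).map (phi κ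
      (fun q : Fin k × Fin k => muX f1 f2 q.1 q.2))) ≤ n + 2 * k - 5 := by
    refine le_trans ?_ (hHUB2 n hn3)
    have := FiniteDimensional.span_of_finite κ (Set.finite_range
      (fun q : Fin k × Fin k => muX f1 f2 q.1 q.2))
    have := fin_mul (RF F n) (Submodule.span κ (Set.range
      (fun q : Fin k × Fin k => muX f1 f2 q.1 q.2)))
    exact Submodule.finrank_mono (map_phi_le _ _)
  have hlow : n + 2 * k - 4 ≤ Module.finrank Kf ((dR (Fin k × Fin k) (Rn Kf (2 * k - 3) β n)).map
      (phi Kf (fun q : Fin k × Fin k => θ * det2 (σ q.1) (σ q.2)))) := by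
    have h1 := hdat.dd n (by omega) (hn0 n hn4) n hn5
    have h2 : n + 2 * k - 4 = n + (2 * k - 3) - 1 := by omega
    have h6 := (Submodule.equivMapOfInjective (LinearMap.mulLeft Kf θ)
      (fun x y h => mul_left_cancel₀ hθ h) (Rn Kf (2 * k - 3) β n * detSp Kf s)).finrank_eq
    have hfd := fd_dR (ι := Fin k × Fin k) (Rn Kf (2 * k - 3) β n)
    rw [h2, ← h1, h6]
    refine Submodule.finrank_mono ?_
    refine le_trans ?_ (le_map_phi _ _)
    rw [Submodule.map_le_iff_le_comap]
    refine Submodule.mul_le.2 (fun r hr d hd => ?_)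
    have h3 : θ * d ∈ Submodule.span Kf (Set.range (fun q : Fin k × Fin k =>
        θ * det2 (σ q.1) (σ q.2))) := by
      have h4 := detSp_le σ s hσ hd
      rw [detSp] at h4
      clear hd
      induction h4 using Submodule.span_induction with
      | mem n hn =>
        obtain ⟨i, j, rfl⟩ := hn
        exact Submodule.subset_span ⟨(i, j), rfl⟩
      | zero => rw [mul_zero]; exact Submodule.zero_mem _
      | add n n' _ _ h1 h2 => rw [mul_add]; exact Submodule.add_mem _ h1 h2
      | smul c n _ h1 => rw [mul_smul_comm]; exact Submodule.smul_mem _ _ h1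
    have h5 : LinearMap.mulLeft Kf θ (r * d) = r * (θ * d) := by
      rw [LinearMap.mulLeft_apply]
      ring
    rw [Submodule.mem_comap, h5]
    exact Submodule.mul_mem_mul hr h3
  omega

end Pool.Agent.RTB
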