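import Pool.Agent.RTB.SStmts

/-!
# RTB, module DG9: degrees of the coefficients of an operator of order 2
-/

set_option autoImplicit false

open Polynomial

namespace Pool.Agent.RTB

theorem dg9_aux {L : Type} [Field L] (β0 β1 β2 : L[X]) (n t : ℕ) :
    (β2 * derivative (derivative (X ^ (t + 1))) + β1 * derivative (X ^ (t + 1))
      + β0 * X ^ (t + 1)).coeff (n + (t + 1))
      = ((t : L) + 1) * t * β2.coeff (n + 2) + ((t : L) + 1) * β1.coeff (n + 1)
        + β0.coeff n := by
  have h0 : (β0 * X ^ (t + 1)).coeff (n + (t + 1)) = β0.coeff n := by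
    rw [coeff_mul_X_pow]
  have e1 : derivative (X ^ (t + 1) : L[X]) = C ((t : L) + 1) * X ^ t := by
    rw [derivative_X_pow]
    simp
  have h1 : (β1 * derivative (X ^ (t + 1))).coeff (n + (t + 1))
      = ((t : L) + 1) * β1.coeff (n + 1) := by
    rw [e1, show β1 * (C ((t : L) + 1) * X ^ t) = C ((t : L) + 1) * (β1 * X ^ t) by ring,
      coeff_C_mul, show n + (t + 1) = (n + 1) + t by ring, coeff_mul_X_pow]
  have h2 : (β2 * derivative (derivative (X ^ (t + 1)))).coeff (n + (t + 1))
      = ((t : L) + 1) * t * β2.coeff (n + 2) := by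
    rw [e1, derivative_mul, derivative_C, zero_mul, zero_add]
    cases t with
    | zero => simp
    | succ s =>
      have e2 : derivative (X ^ (s + 1) : L[X]) = C ((s : L) + 1) * X ^ s := by
        rw [derivative_X_pow]
        simp
      rw [e2, show β2 * (C (((s + 1 : ℕ) : L) + 1) * (C ((s : L) + 1) * X ^ s))
        = C (((s + 1 : ℕ) : L) + 1) * (C ((s : L) + 1) * (β2 * X ^ s)) by ring,
        coeff_C_mul, coeff_C_mul, show n + (s + 1 + 1) = (n + 2) + s by ring, coeff_mul_X_pow]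
      push_cast
      ring
  rw [coeff_add, coeff_add, h0, h1, h2]

theorem dg9_proof : Stmt_DG9 := by
  intro L _ _ β0 β1 β2 k hk H
  have key : ∀ n, 2 * k - 1 ≤ n → ∀ t, k - 5 ≤ t → t + 1 ≤ k - 2 →
      ((t : L) + 1) * t * β2.coeff (n + 2) + ((t : L) + 1) * β1.coeff (n + 1)
        + β0.coeff n = 0 := by
    intro n hn t ht1 ht2
    rw [← dg9_aux β0 β1 β2 n t]
    apply coeff_eq_zero_of_natDegree_lt
    refine lt_of_le_of_lt (H (X ^ (t + 1)) (by rw [natDegree_X_pow]; exact ht2)) ?_
    omega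
  have key2 : ∀ n, 2 * k - 1 ≤ n → β2.coeff (n + 2) = 0 ∧ β1.coeff (n + 1) = 0 ∧
      β0.coeff n = 0 := by
    intro n hn
    obtain ⟨s, rfl⟩ : ∃ s, k = s + 5 := ⟨k - 5, by omega⟩
    have e0 := key n hn s (by omega) (by omega)
    have e1 := key n hn (s + 1) (by omega) (by omega)
    have e2 := key n hn (s + 2) (by omega) (by omega)
    push_cast at e0 e1 e2
    have h2 : (2 : L) ≠ 0 := two_ne_zero
    have a2 : β2.coeff (n + 2) = 0 := by
      apply mul_left_cancel₀ h2
      linear_combination e0 - 2 * e1 + e2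
    rw [a2] at e0 e1 e2
    have a1 : β1.coeff (n + 1) = 0 := by
      linear_combination e1 - e0
    rw [a1] at e0
    refine ⟨a2, a1, ?_⟩
    linear_combination e0
  refine ⟨?_, ?_, ?_⟩
  · rw [natDegree_le_iff_coeff_eq_zero]
    intro i hi
    obtain ⟨n, rfl⟩ : ∃ n, i = n + 2 := ⟨i - 2, by omega⟩
    exact (key2 n (by omega)).1
  · rw [natDegree_le_iff_coeff_eq_zero]
    intro i hi
    obtain ⟨n, rfl⟩ : ∃ n, i = n + 1 := ⟨i - 1, by omega⟩
    exact (key2 n (by omega)).2.1
  · rw [natDegree_le_iff_coeff_eq_zero]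
    intro i hi
    exact (key2 i (by omega)).2.2

end Pool.Agent.RTB
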