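import Pool.Agent.RTB.SStmts

set_option autoImplicit false

/-!
# RTB, module DGC: degree of `C0`
-/

open Polynomial

namespace Pool.Agent.RTB

theorem dgc_proof : Stmt_DGC := by
  intro L _ w0 C0 D M hD hC hM h
  by_contra hcon
  have hC0 : C0 ≠ 0 := by
    rintro rfl
    simp at hcon
  have hj : D - 1 - C0.natDegree ≤ M := by omega
  have h1 := h _ hj
  have hw0 : w0 ≠ 0 := by
    rintro rfl
    simp at hD
    omega
  have hdeg : (C0 * X ^ (D - 1 - C0.natDegree)).natDegree = D - 1 := by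
    rw [natDegree_mul_X_pow _ hC0]
    omega
  have hne : C0 * X ^ (D - 1 - C0.natDegree) ≠ 0 :=
    mul_ne_zero hC0 (pow_ne_zero _ X_ne_zero)
  have hlt : (C0 * X ^ (D - 1 - C0.natDegree)).degree < w0.degree := by
    rw [degree_eq_natDegree hne, degree_eq_natDegree hw0, hdeg, hD]
    exact_mod_cast (by omega : D - 1 < D)
  rw [(mod_eq_self_iff hw0).mpr hlt] at h1
  have h2 : (C0 * X ^ (D - 1 - C0.natDegree)).leadingCoeff = 0 := by
    rw [leadingCoeff, hdeg]
    exact h1
  exact hne (leadingCoeff_eq_zero.mp h2)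

end Pool.Agent.RTB
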