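import Pool.Agent.RTB.SStmts

/-!
# RTB: module DI1, outcome I, dimension of the span of the wedge products
-/

set_option autoImplicit false

open Polynomial

namespace Pool.Agent.RTB

namespace DI1_

section
variable {L : Type} [Field L]

theorem wzr [CharZero L] (a b : L[X]) (h : wr a b = 0) (ha : a ≠ 0) : ∃ c : L, b = C c * a := by
  classical
  set g := EuclideanDomain.gcd a b with hg
  have hg0 : g ≠ 0 := by
    intro h0
    exact ha (EuclideanDomain.gcd_eq_zero_iff.mp h0).1
  obtain ⟨a1, h1⟩ : g ∣ a := EuclideanDomain.gcd_dvd_left a b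
  obtain ⟨b1, h2⟩ : g ∣ b := EuclideanDomain.gcd_dvd_right a b
  have hc : IsCoprime a1 b1 := by
    have hb := EuclideanDomain.gcd_eq_gcd_ab a b
    rw [← hg] at hb
    refine ⟨EuclideanDomain.gcdA a b, EuclideanDomain.gcdB a b, ?_⟩
    apply mul_left_cancel₀ hg0
    calc g * (EuclideanDomain.gcdA a b * a1 + EuclideanDomain.gcdB a b * b1)
        = (g * a1) * EuclideanDomain.gcdA a b + (g * b1) * EuclideanDomain.gcdB a b := by ring
      _ = g * 1 := by rw [← h1, ← h2, mul_one]; exact hb.symm
  have hw : g ^ 2 * wronskian a1 b1 = 0 := by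
    have : wr a b = g ^ 2 * wronskian a1 b1 := by
      unfold wr wronskian
      rw [h1, h2]
      simp only [derivative_mul]
      ring
    rw [← this]; exact h
  have hw2 : wronskian a1 b1 = 0 := by
    rcases mul_eq_zero.mp hw with h3 | h3
    · exact absurd (pow_eq_zero_iff (by norm_num) |>.mp h3) hg0
    · exact h3
  obtain ⟨h3, h4⟩ := hc.wronskian_eq_zero_iff.mp hw2
  have h5 := eq_C_of_natDegree_eq_zero (derivative_eq_zero.mp h3)
  have h6 := eq_C_of_natDegree_eq_zero (derivative_eq_zero.mp h4)
  have h7 : a1.coeff 0 ≠ 0 := by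
    intro h0
    rw [h0, C_0] at h5
    rw [h5, mul_zero] at h1
    exact ha h1
  refine ⟨b1.coeff 0 / a1.coeff 0, ?_⟩
  rw [h1, h2, h5, h6]
  simp only [coeff_C_zero]
  have h8 : (C (b1.coeff 0) : L[X]) = C (b1.coeff 0 / a1.coeff 0) * C (a1.coeff 0) := by
    rw [← C_mul, div_mul_cancel₀ _ h7]
  rw [h8]
  ring

theorem id1 (F l f1 f2 m m' : L[X]) :
    l ^ 2 * (m * Dl F l f1 f2 m' - m' * Dl F l f1 f2 m) = wr F (l ^ 3 * wr m m') := by
  have h : l ^ 3 * wr m m' = l * (l * (l * wr m m')) := by ring
  rw [h]
  simp only [wr, Dl, derivative_mul, derivative_sub]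
  ring

/-- the polynomials `G` with `γ * wr F G` in `Z` -/
noncomputable def GG (F γ : L[X]) (Z : Submodule L L[X]) : Submodule L L[X] where
  carrier := {G | γ * wr F G ∈ Z}
  zero_mem' := by simp [wr]
  add_mem' := fun {a b} ha hb => by
    have : γ * wr F (a + b) = γ * wr F a + γ * wr F b := by
      simp only [wr, derivative_add]; ring
    show γ * wr F (a + b) ∈ Z
    rw [this]
    exact Z.add_mem ha hb
  smul_mem' := fun c a ha => by
    have : γ * wr F (c • a) = c • (γ * wr F a) := by
      simp only [wr, smul_eq_C_mul, derivative_mul, derivative_C]; ring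
    show γ * wr F (c • a) ∈ Z
    rw [this]
    exact Z.smul_mem c ha

theorem mem_GG {F γ : L[X]} {Z : Submodule L L[X]} {G : L[X]} :
    G ∈ GG F γ Z ↔ γ * wr F G ∈ Z := Iff.rfl

theorem C_mul_mem {U : Submodule L L[X]} {p : L[X]} (c : L) (h : p ∈ U) : C c * p ∈ U := by
  rw [← smul_eq_C_mul]; exact U.smul_mem c h

theorem of_C_mul_mem {U : Submodule L L[X]} {p : L[X]} {c : L} (hc : c ≠ 0)
    (h : C c * p ∈ U) : p ∈ U := by
  rw [← smul_eq_C_mul] at h
  exact (U.smul_mem_iff hc).mp h

/-- expansion in powers of `X - C q` -/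
theorem expand (q : L) (p : L[X]) (n : ℕ) (hp : p.natDegree ≤ n) :
    ∃ a : ℕ → L, p = ∑ i ∈ Finset.range (n + 1), C (a i) * (X - C q) ^ i ∧ a 0 = p.eval q ∧
      (p.natDegree = n → p ≠ 0 → a n ≠ 0) := by
  set P := p.comp (X + C q) with hP
  have h1 : P.natDegree ≤ n := by
    refine le_trans natDegree_comp_le ?_
    rw [natDegree_X_add_C, mul_one]
    exact hp
  refine ⟨P.coeff, ?_, ?_, ?_⟩
  · have h2 : p = P.comp (X - C q) := by
      rw [hP, comp_assoc]
      simp
    conv_lhs => rw [h2]
    rw [comp_eq_sum_left, sum_over_range' _ _ (n + 1) (by omega)]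
    intro i
    simp
  · rw [coeff_zero_eq_eval_zero, hP, eval_comp]
    simp
  · intro h2 h3
    have h4 : P.natDegree = n := by
      rw [hP, natDegree_comp, natDegree_X_add_C, mul_one, h2]
    have h5 : P.leadingCoeff ≠ 0 := by
      rw [hP, leadingCoeff_comp (by rw [natDegree_X_add_C]; norm_num), leadingCoeff_X_add_C,
        one_pow, mul_one]
      exact leadingCoeff_ne_zero.mpr h3
    rw [← h4]
    exact h5

theorem dT (q : L) (n : ℕ) :
    (X - C q) * derivative ((X - C q) ^ n) = C (n : L) * (X - C q) ^ n := by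
  rw [derivative_pow, derivative_sub, derivative_X, derivative_C, sub_zero, mul_one]
  rcases n with _ | n
  · simp
  · rw [Nat.add_sub_cancel, pow_succ]
    ring

theorem wrT (q : L) (i j : ℕ) :
    (X - C q) * wr ((X - C q) ^ i) ((X - C q) ^ j) = C ((j : L) - i) * (X - C q) ^ (i + j) := by
  have h : (X - C q) * wr ((X - C q) ^ i) ((X - C q) ^ j)
      = (X - C q) ^ i * ((X - C q) * derivative ((X - C q) ^ j))
        - ((X - C q) * derivative ((X - C q) ^ i)) * (X - C q) ^ j := by
    unfold wr; ring
  rw [h, dT, dT, C_sub, pow_add]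
  ring

theorem T_ne (q : L) : (X - C q : L[X]) ≠ 0 := X_sub_C_ne_zero q

theorem natDegree_T_pow (q : L) (n : ℕ) : ((X - C q : L[X]) ^ n).natDegree = n := by
  rw [natDegree_pow, natDegree_X_sub_C, mul_one]

theorem T_derivative_sum (q : L) (n : ℕ) (a : ℕ → L) :
    (X - C q) * derivative (∑ i ∈ Finset.range n, C (a i) * (X - C q) ^ i)
      = ∑ i ∈ Finset.range n, C (a i * i) * (X - C q) ^ i := by
  rw [derivative_sum, Finset.mul_sum]
  apply Finset.sum_congr rfl
  intro i _
  rw [derivative_mul, derivative_C, zero_mul, zero_add, mul_left_comm, dT, C_mul]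
  ring

theorem finrank_PL (n : ℕ) : Module.finrank L (PL L n) = n + 1 ∧ FiniteDimensional L (PL L n) := by
  have h : PL L n = degreeLT L (n + 1) := by
    ext p
    rw [mem_PL, mem_degreeLT]
    by_cases hp : p = 0
    · rw [hp, natDegree_zero, degree_zero]
      exact ⟨fun _ => WithBot.bot_lt_coe _, fun _ => Nat.zero_le _⟩
    · rw [← natDegree_lt_iff_degree_lt hp]
      omega
  have e := degreeLTEquiv L (n + 1)
  rw [h]
  refine ⟨?_, LinearEquiv.finiteDimensional e.symm⟩
  rw [LinearEquiv.finrank_eq e]
  simp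

end

end DI1_

open DI1_ in
theorem di1_proof (hKER : Stmt_KER) (_hWDG : Stmt_WDG) (hPNX : Stmt_PNX) (_hHIN : Stmt_HIN) :
    Stmt_DI1 := by
  intro L _ _ _ F f1 f2 l γ ν b0 k Z hk hF hP hb0 hγ hnc hν hZ hZ1 hZ2
  have hF0 : F ≠ 0 := hF.mon.ne_zero
  have hl2 := der2_of_natDegree_le_one hP.dl
  have hw0 : wr f1 f2 ≠ 0 := by
    rw [hP.hw]; exact mul_ne_zero hF0 hP.l0
  obtain ⟨⟨a, b, hab⟩, hcom, -⟩ := hPNX L F f1 f2 l k (by omega) hF hP
  -- values of `ν`
  have hnu : ∀ m : L[X], m.natDegree ≤ k - 2 → ∃ α β : L,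
      ν (Dl F l f1 f2 m) = C b0 * (l ^ 2 * m) + (C α * f1 + C β * f2) := by
    intro m hm
    have h1 := (hν (Dl F l f1 f2 m) (mem_DlSp.mpr ⟨m, hm, rfl⟩)).2
    have h2 : Dh f1 f2 (ν (Dl F l f1 f2 m) - C b0 * (l ^ 2 * m)) = 0 := by
      have h3 : Dh f1 f2 (C b0 * (l ^ 2 * m)) = C b0 * (l ^ 2 * Dl F l f1 f2 m) := by
        rw [← Dh_eq_Dl hP.hw hl2]
        simp only [Dh, derivative_mul, derivative_C, derivative_add, zero_mul, zero_add]
        ring
      have h4 : ∀ u v : L[X], Dh f1 f2 (u - v) = Dh f1 f2 u - Dh f1 f2 v := by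
        intro u v
        simp only [Dh, derivative_sub]; ring
      rw [h4, h1, h3]; ring
    obtain ⟨α, β, h5⟩ := hKER L f1 f2 _ hw0 h2
    exact ⟨α, β, by rw [← h5]; ring⟩
  have hf : ∀ (a b : L) (m : L[X]), m.natDegree ≤ k - 2 →
      γ * ((C a * f1 + C b * f2) * Dl F l f1 f2 m) ∈ Z := by
    intro a b m hm
    obtain ⟨h1, h2⟩ := hZ1 (Dl F l f1 f2 m) (mem_DlSp.mpr ⟨m, hm, rfl⟩)
    have : γ * ((C a * f1 + C b * f2) * Dl F l f1 f2 m)
        = C a * (γ * (f1 * Dl F l f1 f2 m)) + C b * (γ * (f2 * Dl F l f1 f2 m)) := by ring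
    rw [this]
    exact Z.add_mem (C_mul_mem a h1) (C_mul_mem b h2)
  have hA : ∀ m m' : L[X], m.natDegree ≤ k - 2 → m'.natDegree ≤ k - 2 →
      l ^ 3 * wr m m' ∈ GG F γ Z := by
    intro m m' hm hm'
    obtain ⟨α, β, h1⟩ := hnu m hm
    obtain ⟨α', β', h2⟩ := hnu m' hm'
    have h3 := hZ2 (Dl F l f1 f2 m) (mem_DlSp.mpr ⟨m, hm, rfl⟩) (Dl F l f1 f2 m')
      (mem_DlSp.mpr ⟨m', hm', rfl⟩)
    rw [h1, h2] at h3
    have h4 := hf α β m' hm'
    have h5 := hf α' β' m hm
    apply of_C_mul_mem hb0
    apply of_C_mul_mem (c := 1) one_ne_zero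
    rw [C_1, one_mul, mem_GG]
    have h6 : γ * wr F (C b0 * (l ^ 3 * wr m m'))
        = γ * (Dl F l f1 f2 m' * (C b0 * (l ^ 2 * m) + (C α * f1 + C β * f2))
            - Dl F l f1 f2 m * (C b0 * (l ^ 2 * m') + (C α' * f1 + C β' * f2)))
          - γ * ((C α * f1 + C β * f2) * Dl F l f1 f2 m')
          + γ * ((C α' * f1 + C β' * f2) * Dl F l f1 f2 m) := by
      have h7 : wr F (C b0 * (l ^ 3 * wr m m')) = C b0 * wr F (l ^ 3 * wr m m') := by
        simp only [wr, derivative_mul, derivative_C]; ring
      rw [h7, ← id1 F l f1 f2 m m']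
      ring
    rw [h6]
    exact Z.add_mem (Z.sub_mem h3 h4) h5
  have hB : ∀ (a b : L) (m : L[X]), m.natDegree ≤ k - 2 →
      (C a * f1 + C b * f2) * (2 * derivative l * m + l * derivative m)
          - derivative (C a * f1 + C b * f2) * (l * m) ∈ GG F γ Z := by
    intro a b m hm
    rw [mem_GG, ← Dl_G hP.hw hl2 hP.l0]
    exact hf a b m hm
  have key : ∃ q : L, ∀ e, e ≤ 2 * k - 3 → (X - C q) ^ e ∈ GG F γ Z := by
    have hl := eq_X_add_C_of_natDegree_le_one hP.dl
    by_cases hc : l.coeff 1 = 0
    · -- `l` is constant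
      rw [hc, C_0, zero_mul, zero_add] at hl
      set c0 := l.coeff 0 with hc0
      have hc00 : c0 ≠ 0 := by
        intro h0
        rw [h0, C_0] at hl
        exact hP.l0 hl
      refine ⟨0, ?_⟩
      set T : L[X] := X - C 0 with hT
      have base : ∀ e, e ≤ 2 * k - 6 → T ^ e ∈ GG F γ Z := by
        intro e he
        have hij : ∃ i j : ℕ, i < j ∧ j ≤ k - 2 ∧ i + j = e + 1 := by
          by_cases h1 : e + 1 ≤ k - 2
          · exact ⟨0, e + 1, by omega, h1, by omega⟩
          · exact ⟨e + 1 - (k - 2), k - 2, by omega, by omega, by omega⟩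
        obtain ⟨i, j, hij1, hij2, hij3⟩ := hij
        have h1 := hA (T ^ i) (T ^ j) (by rw [natDegree_T_pow]; omega)
          (by rw [natDegree_T_pow]; omega)
        have h2 := wrT (0 : L) i j
        rw [← hT, hij3] at h2
        have h3 : wr (T ^ i) (T ^ j) = C ((j : L) - i) * T ^ e := by
          apply mul_left_cancel₀ (T_ne (0 : L))
          rw [← hT, h2]; ring
        rw [h3, hl] at h1
        have h4 : C c0 ^ 3 * (C ((j : L) - i) * T ^ e) = C (c0 ^ 3 * ((j : L) - i)) * T ^ e := by
          rw [C_mul, C_pow]; ring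
        rw [h4] at h1
        refine of_C_mul_mem ?_ h1
        refine mul_ne_zero (pow_ne_zero 3 hc00) ?_
        rw [sub_ne_zero]
        exact_mod_cast (by omega : j ≠ i)
      obtain ⟨p, hp1, -, hp3⟩ := expand (0 : L) (C a * f1 + C b * f2) k hab.le
      have hpk : p k ≠ 0 := hp3 hab (by
        intro h0
        rw [h0, natDegree_zero] at hab
        omega)
      have step : ∀ j, 1 ≤ j → j ≤ k - 2 → (∀ e, e ≤ k + j - 2 → T ^ e ∈ GG F γ Z) →
          T ^ (k + j - 1) ∈ GG F γ Z := by
        intro j hj1 hj2 hj3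
        have h1 := hB a b (T ^ j) (by rw [natDegree_T_pow]; omega)
        have h2 : (C a * f1 + C b * f2) * (2 * derivative l * T ^ j + l * derivative (T ^ j))
            - derivative (C a * f1 + C b * f2) * (l * T ^ j)
            = C c0 * ∑ i ∈ Finset.range (k + 1), C (p i * ((j : L) - i)) * T ^ (i + (j - 1)) := by
          apply mul_left_cancel₀ (T_ne (0 : L))
          rw [← hT]
          have h3 := T_derivative_sum (0 : L) (k + 1) p
          rw [← hT, ← hp1] at h3
          have h4 := dT (0 : L) j
          rw [← hT] at h4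
          have h5 : T * ((C a * f1 + C b * f2) * (2 * derivative l * T ^ j
              + l * derivative (T ^ j)) - derivative (C a * f1 + C b * f2) * (l * T ^ j))
              = C c0 * ((C a * f1 + C b * f2) * (T * derivative (T ^ j))
                - (T * derivative (C a * f1 + C b * f2)) * T ^ j) := by
            rw [hl, derivative_C]; ring
          rw [h5, h4, h3]
          conv_lhs => rw [hp1]
          rw [Finset.sum_mul, Finset.sum_mul, ← Finset.sum_sub_distrib, Finset.mul_sum,
            Finset.mul_sum, Finset.mul_sum]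
          apply Finset.sum_congr rfl
          intro i _
          have h6 : T ^ (i + (j - 1)) * T = T ^ i * T ^ j := by
            rw [← pow_succ, ← pow_add]
            congr 1
            omega
          have h7 : C (p i * ((j : L) - i)) = C (p i) * C (j : L) - C (p i * i) := by
            rw [← C_mul, ← C_sub]; congr 1; ring
          rw [h7]
          calc C c0 * (C (p i) * T ^ i * (C (j : L) * T ^ j) - C (p i * i) * T ^ i * T ^ j)
              = C c0 * ((C (p i) * C (j : L) - C (p i * i)) * (T ^ i * T ^ j)) := by ring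
            _ = C c0 * ((C (p i) * C (j : L) - C (p i * i)) * (T ^ (i + (j - 1)) * T)) := by
              rw [h6]
            _ = T * (C c0 * ((C (p i) * C (j : L) - C (p i * i)) * T ^ (i + (j - 1)))) := by ring
        rw [h2] at h1
        have h3 := of_C_mul_mem hc00 h1
        rw [Finset.sum_range_succ] at h3
        have h4 : ∑ i ∈ Finset.range k, C (p i * ((j : L) - i)) * T ^ (i + (j - 1))
            ∈ GG F γ Z := by
          apply Submodule.sum_mem
          intro i hi
          exact C_mul_mem _ (hj3 _ (by rw [Finset.mem_range] at hi; omega))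
        have h5 := (Submodule.add_mem_iff_right _ h4).mp h3
        have h6 : k + (j - 1) = k + j - 1 := by omega
        rw [h6] at h5
        refine of_C_mul_mem (mul_ne_zero hpk ?_) h5
        rw [sub_ne_zero]
        exact_mod_cast (by omega : j ≠ k)
      have s1 := step (k - 4) (by omega) (by omega) (fun e he => base e (by omega))
      have c1 : ∀ e, e ≤ 2 * k - 5 → T ^ e ∈ GG F γ Z := by
        intro e he
        rcases Nat.lt_or_ge e (2 * k - 5) with h | h
        · exact base e (by omega)
        · rw [show e = k + (k - 4) - 1 by omega]; exact s1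
      have s2 := step (k - 3) (by omega) (by omega) (fun e he => c1 e (by omega))
      have c2 : ∀ e, e ≤ 2 * k - 4 → T ^ e ∈ GG F γ Z := by
        intro e he
        rcases Nat.lt_or_ge e (2 * k - 4) with h | h
        · exact c1 e (by omega)
        · rw [show e = k + (k - 3) - 1 by omega]; exact s2
      have s3 := step (k - 2) (by omega) (by omega) (fun e he => c2 e (by omega))
      intro e he
      rcases Nat.lt_or_ge e (2 * k - 3) with h | h
      · exact c2 e (by omega)
      · rw [show e = k + (k - 2) - 1 by omega]; exact s3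
    · -- `l` has degree one
      set c1 := l.coeff 1 with hc1
      set q : L := - l.coeff 0 / c1 with hq
      refine ⟨q, ?_⟩
      set T : L[X] := X - C q with hT
      have hlT : l = C c1 * T := by
        rw [hT, mul_sub, ← C_mul, hq, mul_div_cancel₀ _ hc, C_neg, sub_neg_eq_add]
        exact hl
      have dlT : derivative l = C c1 := by
        rw [hlT, hT]; simp
      have base : ∀ e, 3 ≤ e → e ≤ 2 * k - 3 → T ^ e ∈ GG F γ Z := by
        intro e he3 he
        have hij : ∃ i j : ℕ, i < j ∧ j ≤ k - 2 ∧ i + j + 2 = e := by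
          by_cases h1 : e - 2 ≤ k - 2
          · exact ⟨0, e - 2, by omega, h1, by omega⟩
          · exact ⟨e - k, k - 2, by omega, by omega, by omega⟩
        obtain ⟨i, j, hij1, hij2, hij3⟩ := hij
        have h1 := hA (T ^ i) (T ^ j) (by rw [natDegree_T_pow]; omega)
          (by rw [natDegree_T_pow]; omega)
        have h2 := wrT q i j
        rw [← hT] at h2
        have h3 : l ^ 3 * wr (T ^ i) (T ^ j) = C (c1 ^ 3 * ((j : L) - i)) * T ^ e := by
          calc l ^ 3 * wr (T ^ i) (T ^ j) = C c1 ^ 3 * T ^ 2 * (T * wr (T ^ i) (T ^ j)) := by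
                rw [hlT]; ring
            _ = C (c1 ^ 3 * ((j : L) - i)) * T ^ e := by
                rw [h2, ← hij3, C_mul, C_pow, pow_add T (i + j) 2]; ring
        rw [h3] at h1
        refine of_C_mul_mem ?_ h1
        refine mul_ne_zero (pow_ne_zero 3 hc) ?_
        rw [sub_ne_zero]
        exact_mod_cast (by omega : j ≠ i)
      -- an element of the pencil not vanishing at `q`
      have hf0 : ∃ a b : L, (C a * f1 + C b * f2).eval q ≠ 0 ∧
          (C a * f1 + C b * f2).natDegree ≤ k := by
        have h1 : f1.eval q ≠ 0 ∨ f2.eval q ≠ 0 := by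
          by_contra hcon
          push Not at hcon
          have h2 := (hcom q hcon.1 hcon.2).1
          rcases hnc q h2 with h3 | h3
          · exact h3 hcon.1
          · exact h3 hcon.2
        rcases h1 with h1 | h1
        · refine ⟨1, 0, ?_, ?_⟩ <;> rw [C_1, C_0, one_mul, zero_mul, add_zero]
          · exact h1
          · exact hP.d1
        · refine ⟨0, 1, ?_, ?_⟩ <;> rw [C_1, C_0, one_mul, zero_mul, zero_add]
          · exact h1
          · exact hP.d2
      obtain ⟨a, b, hq0, hdeg⟩ := hf0
      obtain ⟨p, hp1, hp2, -⟩ := expand q (C a * f1 + C b * f2) k hdeg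
      rw [← hp2] at hq0
      have step : ∀ j, j ≤ 2 → (∀ i, i < k → T ^ (i + 1 + j) ∈ GG F γ Z) →
          T ^ j ∈ GG F γ Z := by
        intro j hj2 hj3
        have h1 := hB a b (T ^ j) (by rw [natDegree_T_pow]; omega)
        have h2 : (C a * f1 + C b * f2) * (2 * derivative l * T ^ j + l * derivative (T ^ j))
            - derivative (C a * f1 + C b * f2) * (l * T ^ j)
            = C c1 * ∑ i ∈ Finset.range (k + 1), C (p i * (2 + (j : L) - i)) * T ^ (i + j) := by
          have h3 := T_derivative_sum q (k + 1) p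
          rw [← hT, ← hp1] at h3
          have h4 := dT q j
          rw [← hT] at h4
          have h5 : (C a * f1 + C b * f2) * (2 * derivative l * T ^ j
              + l * derivative (T ^ j)) - derivative (C a * f1 + C b * f2) * (l * T ^ j)
              = C c1 * ((C a * f1 + C b * f2) * (2 * T ^ j + (T * derivative (T ^ j)))
                - (T * derivative (C a * f1 + C b * f2)) * T ^ j) := by
            rw [dlT]
            conv_lhs => rw [hlT]
            ring
          rw [h5, h4, h3]
          conv_lhs => rw [hp1]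
          rw [Finset.sum_mul, Finset.sum_mul, ← Finset.sum_sub_distrib, Finset.mul_sum,
            Finset.mul_sum]
          apply Finset.sum_congr rfl
          intro i _
          have h7 : C (p i * (2 + (j : L) - i)) = C (p i) * (2 + C (j : L)) - C (p i * i) := by
            have h8 : (2 : L[X]) = C 2 := (map_ofNat C 2).symm
            rw [h8, ← C_add, ← C_mul, ← C_sub]; congr 1; ring
          rw [h7, pow_add]
          ring
        rw [h2] at h1
        have h3 := of_C_mul_mem hc h1
        rw [Finset.sum_range_succ'] at h3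
        have h4 : ∑ i ∈ Finset.range k, C (p (i + 1) * (2 + (j : L) - (i + 1 : ℕ)))
            * T ^ (i + 1 + j) ∈ GG F γ Z := by
          apply Submodule.sum_mem
          intro i hi
          exact C_mul_mem _ (hj3 _ (Finset.mem_range.mp hi))
        have h5 := (Submodule.add_mem_iff_right _ h4).mp h3
        rw [zero_add, Nat.cast_zero, sub_zero] at h5
        refine of_C_mul_mem (mul_ne_zero hq0 ?_) h5
        exact_mod_cast (by omega : 2 + j ≠ 0)
      have s2 := step 2 le_rfl (fun i hi => base _ (by omega) (by omega))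
      have s1 : T ^ 1 ∈ GG F γ Z := step 1 (by omega) (fun i hi => by
        rcases Nat.eq_zero_or_pos i with h | h
        · rw [h]; exact s2
        · exact base _ (by omega) (by omega))
      have s0 : T ^ 0 ∈ GG F γ Z := step 0 (by omega) (fun i hi => by
        rcases Nat.eq_zero_or_pos i with h | h
        · rw [h]; exact s1
        · rcases Nat.lt_or_ge i 2 with h' | h'
          · rw [show i + 1 + 0 = 2 by omega]; exact s2
          · exact base _ (by omega) (by omega))
      intro e he
      rcases Nat.lt_or_ge e 3 with h | h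
      · interval_cases e
        · exact s0
        · exact s1
        · exact s2
      · exact base e h he
  obtain ⟨q, hq⟩ := key
  have hall : PL L (2 * k - 3) ≤ GG F γ Z := by
    intro p hp
    obtain ⟨c, hc, -, -⟩ := expand q p (2 * k - 3) hp
    rw [hc]
    apply Submodule.sum_mem
    intro i hi
    exact C_mul_mem _ (hq i (by rw [Finset.mem_range] at hi; omega))
  -- dimension count
  obtain ⟨hU1, hU2⟩ := finrank_PL (L := L) (2 * k - 3)
  let W : L[X] →ₗ[L] L[X] :=
    { toFun := fun G => γ * wr F G
      map_add' := fun a b => by simp only [wr, derivative_add]; ring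
      map_smul' := fun c a => by
        simp only [wr, smul_eq_C_mul, derivative_mul, derivative_C, RingHom.id_apply]; ring }
  have hW : ∀ G, W G = γ * wr F G := fun _ => rfl
  have h1 := LinearMap.finrank_range_add_finrank_ker (W.domRestrict (PL L (2 * k - 3)))
  have h2 : Module.finrank L (LinearMap.ker (W.domRestrict (PL L (2 * k - 3)))) ≤ 1 := by
    have hFU : F ∈ PL L (2 * k - 3) := by rw [mem_PL, hF.deg]
    have hFK : (⟨F, hFU⟩ : PL L (2 * k - 3)) ∈
        LinearMap.ker (W.domRestrict (PL L (2 * k - 3))) := by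
      rw [LinearMap.mem_ker, LinearMap.domRestrict_apply, hW]
      simp only [wr]; ring
    refine finrank_le_one (⟨⟨F, hFU⟩, hFK⟩ :
      LinearMap.ker (W.domRestrict (PL L (2 * k - 3)))) ?_
    rintro ⟨⟨G, hG⟩, hG2⟩
    rw [LinearMap.mem_ker, LinearMap.domRestrict_apply, hW] at hG2
    have h3 : wr F G = 0 := by
      rcases mul_eq_zero.mp hG2 with h | h
      · exact absurd h hγ
      · exact h
    obtain ⟨c, hc⟩ := wzr F G h3 hF0
    refine ⟨c, ?_⟩
    apply Subtype.ext
    apply Subtype.ext
    show c • F = G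
    rw [hc, smul_eq_C_mul]
  have h3 : Module.finrank L (LinearMap.range (W.domRestrict (PL L (2 * k - 3)))) ≤
      Module.finrank L Z := by
    apply Submodule.finrank_mono
    rintro _ ⟨⟨G, hG⟩, rfl⟩
    rw [LinearMap.domRestrict_apply, hW]
    exact mem_GG.mp (hall hG)
  omega

end Pool.Agent.RTB
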