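import Pool.Agent.RTB.SStmts

/-!
# RTB, module DUA: duality on the cuspidal curve
-/

set_option autoImplicit false

open Polynomial

namespace Pool.Agent.RTB

namespace DUA_

variable {L : Type} [Field L]

/-- the conditions at the roots -/
noncomputable def KK (F : L[X]) (lam : L → L) : Submodule L L[X] where
  carrier := {p | ∀ c, F.eval c = 0 → (derivative p).eval c = lam c * p.eval c}
  zero_mem' := by simp
  add_mem' := fun {a b} ha hb => by
    intro c hc
    rw [derivative_add, eval_add, eval_add, ha c hc, hb c hc]; ring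
  smul_mem' := fun s p hp => by
    intro c hc
    rw [derivative_smul, eval_smul, eval_smul, hp c hc]
    simp only [smul_eq_mul]; ring

theorem mem_KK {F : L[X]} {lam : L → L} {p : L[X]} :
    p ∈ KK F lam ↔ ∀ c, F.eval c = 0 → (derivative p).eval c = lam c * p.eval c := Iff.rfl

/-- elements of degree less than `n` -/
noncomputable def WW (F : L[X]) (lam : L → L) (n : ℕ) : Submodule L L[X] :=
  degreeLT L n ⊓ KK F lam

theorem mem_WW {F : L[X]} {lam : L → L} {n : ℕ} {p : L[X]} :
    p ∈ WW F lam n ↔ (∀ m, n ≤ m → p.coeff m = 0) ∧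
      ∀ c, F.eval c = 0 → (derivative p).eval c = lam c * p.eval c := by
  rw [WW, Submodule.mem_inf, mem_degreeLT, degree_lt_iff_coeff_zero, mem_KK]

theorem WW_eq_QF (F : L[X]) (lam : L → L) (M : ℕ) : WW F lam (M + 1) = QF F lam M := by
  ext p
  rw [mem_WW, mem_QF, natDegree_le_iff_coeff_eq_zero]
  constructor
  · rintro ⟨h1, h2⟩
    exact ⟨fun N hN => h1 N hN, h2⟩
  · rintro ⟨h1, h2⟩
    exact ⟨fun N hN => h1 N hN, h2⟩

instance finite_degreeLT (n : ℕ) : Module.Finite L (degreeLT L n) :=
  Module.Finite.equiv (degreeLTEquiv L n).symm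

instance finite_WW (F : L[X]) (lam : L → L) (n : ℕ) : Module.Finite L (WW F lam n) :=
  Submodule.finiteDimensional_of_le (inf_le_left : WW F lam n ≤ degreeLT L n)

theorem WW_zero (F : L[X]) (lam : L → L) : Module.finrank L (WW F lam 0) = 0 := by
  have h : WW F lam 0 = ⊥ := by
    rw [eq_bot_iff]
    intro p hp
    rw [mem_WW] at hp
    rw [Submodule.mem_bot]
    ext m
    rw [hp.1 m (Nat.zero_le _), coeff_zero]
  rw [h]; exact finrank_bot L L[X]

theorem WW_step (F : L[X]) (lam : L → L) (n : ℕ) :
    Module.finrank L (WW F lam (n + 1)) ≤ Module.finrank L (WW F lam n) + 1 := by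
  by_cases h : ∀ p ∈ WW F lam (n + 1), p.coeff n = 0
  · have h1 : WW F lam (n + 1) ≤ WW F lam n := by
      intro p hp
      have h2 := h p hp
      rw [mem_WW] at hp ⊢
      refine ⟨fun m hm => ?_, hp.2⟩
      rcases Nat.eq_or_lt_of_le hm with h3 | h3
      · rw [← h3]; exact h2
      · exact hp.1 m h3
    exact le_trans (Submodule.finrank_mono h1) (Nat.le_succ _)
  · push Not at h
    obtain ⟨q, hq, hqn⟩ := h
    have h1 : WW F lam (n + 1) ≤ WW F lam n ⊔ Submodule.span L {q} := by
      intro p hp
      rw [Submodule.mem_sup]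
      refine ⟨p - (p.coeff n / q.coeff n) • q, ?_, (p.coeff n / q.coeff n) • q,
        Submodule.smul_mem _ _ (Submodule.mem_span_singleton_self q), by abel⟩
      have h2 : p - (p.coeff n / q.coeff n) • q ∈ WW F lam (n + 1) :=
        Submodule.sub_mem _ hp (Submodule.smul_mem _ _ hq)
      rw [mem_WW] at h2 ⊢
      refine ⟨fun m hm => ?_, h2.2⟩
      rcases Nat.eq_or_lt_of_le hm with h3 | h3
      · rw [← h3, coeff_sub, coeff_smul, smul_eq_mul, div_mul_cancel₀ _ hqn, sub_self]
      · exact h2.1 m h3
    have h3 := Submodule.finrank_add_le_finrank_add_finrank (WW F lam n) (Submodule.span L {q})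
    have h4 : Module.finrank L (Submodule.span L {q}) ≤ 1 := by
      have := finrank_span_le_card (R := L) ({q} : Set L[X])
      simpa using this
    exact le_trans (Submodule.finrank_mono h1) (le_trans h3 (by omega))

theorem WW_step0 (F : L[X]) (lam : L → L) (n : ℕ) (h : ∀ p ∈ WW F lam (n + 1), p.coeff n = 0) :
    Module.finrank L (WW F lam (n + 1)) ≤ Module.finrank L (WW F lam n) := by
  have h1 : WW F lam (n + 1) ≤ WW F lam n := by
    intro p hp
    have h2 := h p hp
    rw [mem_WW] at hp ⊢
    refine ⟨fun m hm => ?_, hp.2⟩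
    rcases Nat.eq_or_lt_of_le hm with h3 | h3
    · rw [← h3]; exact h2
    · exact hp.1 m h3
  exact Submodule.finrank_mono h1

theorem natDegree_of_coeff {F : L[X]} {lam : L → L} {n : ℕ} {p : L[X]}
    (hp : p ∈ WW F lam (n + 1)) (h : p.coeff n ≠ 0) : p.natDegree = n := by
  rw [mem_WW] at hp
  apply le_antisymm
  · rw [natDegree_le_iff_coeff_eq_zero]
    exact fun N hN => hp.1 N hN
  · exact le_natDegree_of_ne_zero h

theorem wr_deg {F h : L[X]} {g : ℕ} (hF : F.natDegree = g) (hh : h.natDegree ≤ g - 1)
    (hg : 1 ≤ g) : (wr F h).natDegree ≤ 2 * g - 2 := by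
  rw [wr]
  refine le_trans (natDegree_sub_le _ _) (max_le ?_ ?_)
  · by_cases h0 : h.natDegree = 0
    · rw [derivative_of_natDegree_zero h0]; simp
    · refine le_trans natDegree_mul_le ?_
      have := natDegree_derivative_le h
      omega
  · refine le_trans natDegree_mul_le ?_
    have := natDegree_derivative_le F
    omega

open Classical in
theorem WW_full (hHIN : Stmt_HIN) [CharZero L] [IsAlgClosed L] {F : L[X]} {g : ℕ} (hF : FF F g)
    (hg : 1 ≤ g) (lam : L → L) : Module.finrank L (WW F lam (2 * g)) = g := by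
  obtain ⟨hcard, -, -, -, hint, -⟩ := hHIN L F g hF
  let Ψ : degreeLT L (2 * g) →ₗ[L] (F.roots.toFinset → L) :=
    { toFun := fun p c => (derivative (p : L[X])).eval (c : L) - lam c * (p : L[X]).eval (c : L)
      map_add' := fun p q => by
        funext c
        simp only [Submodule.coe_add, derivative_add, eval_add, Pi.add_apply]
        ring
      map_smul' := fun s p => by
        funext c
        simp only [Submodule.coe_smul, derivative_smul, eval_smul, Pi.smul_apply, smul_eq_mul,
          RingHom.id_apply]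
        ring }
  have hΨ : ∀ (p : degreeLT L (2 * g)) (c : F.roots.toFinset),
      Ψ p c = (derivative (p : L[X])).eval (c : L) - lam c * (p : L[X]).eval (c : L) :=
    fun p c => rfl
  have hroot : ∀ c : L, c ∈ F.roots.toFinset ↔ F.eval c = 0 := by
    intro c
    rw [Multiset.mem_toFinset, mem_roots hF.mon.ne_zero, IsRoot.def]
  have hsurj : LinearMap.range Ψ = ⊤ := by
    rw [LinearMap.range_eq_top]
    intro v
    obtain ⟨p, hp, hpv⟩ := hint hg (fun _ => 0)
      (fun c => if hc : c ∈ F.roots.toFinset then v ⟨c, hc⟩ else 0)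
    refine ⟨⟨p, ?_⟩, ?_⟩
    · rw [mem_degreeLT, degree_lt_iff_coeff_zero]
      intro m hm
      exact coeff_eq_zero_of_natDegree_lt (by omega)
    · funext c
      rw [hΨ]
      have h1 := hpv c ((hroot c).mp c.2)
      simp only [h1.1, h1.2, mul_zero, sub_zero]
      rw [dif_pos c.2]
  have hker : LinearMap.ker Ψ = Submodule.comap (degreeLT L (2 * g)).subtype (WW F lam (2 * g)) := by
    ext p
    rw [LinearMap.mem_ker, Submodule.mem_comap, WW, Submodule.mem_inf, mem_KK]
    constructor
    · intro h
      refine ⟨p.2, fun c hc => ?_⟩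
      have h1 := congrFun h ⟨c, (hroot c).mpr hc⟩
      rw [hΨ] at h1
      exact sub_eq_zero.mp h1
    · rintro ⟨-, h⟩
      funext c
      rw [hΨ]
      exact sub_eq_zero.mpr (h c ((hroot c).mp c.2))
  have h1 := LinearMap.finrank_range_add_finrank_ker Ψ
  rw [hsurj, hker] at h1
  have h2 : Module.finrank L (Submodule.comap (degreeLT L (2 * g)).subtype (WW F lam (2 * g)))
      = Module.finrank L (WW F lam (2 * g)) :=
    LinearEquiv.finrank_eq (Submodule.comapSubtypeEquivOfLe inf_le_left)
  have h3 : Module.finrank L (⊤ : Submodule L (F.roots.toFinset → L)) = g := by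
    rw [finrank_top, Module.finrank_fintype_fun_eq_card, Fintype.card_coe, hcard]
  have h4 : Module.finrank L (degreeLT L (2 * g)) = 2 * g := by
    rw [LinearEquiv.finrank_eq (degreeLTEquiv L (2 * g)), Module.finrank_fin_fun]
  rw [h2, h3, h4] at h1
  omega

end DUA_

open DUA_ in
theorem dua_proof (hHIN : Stmt_HIN) (hRSL : Stmt_RSL) : Stmt_DUA := by
  intro L _ _ _ F g hF hg lam mu M M' hlm hM
  rw [← WW_eq_QF, ← WW_eq_QF]
  have hno : ∀ n < 2 * g, ∀ p ∈ WW F lam (2 * g - n - 1 + 1), ∀ G ∈ WW F mu (n + 1),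
      p.coeff (2 * g - n - 1) ≠ 0 → G.coeff n ≠ 0 → False := by
    intro n hn p hp G hG hpc hGc
    have h1 := natDegree_of_coeff hp hpc
    have h2 := natDegree_of_coeff hG hGc
    have hp0 : p ≠ 0 := by rintro rfl; exact hpc (coeff_zero _)
    have hG0 : G ≠ 0 := by rintro rfl; exact hGc (coeff_zero _)
    have h3 : (p * G).natDegree = 2 * g - 1 := by
      rw [natDegree_mul hp0 hG0, h1, h2]; omega
    obtain ⟨h, hh, hpG⟩ := hRSL L F g hF hg (p * G) (le_of_eq h3) (by
      intro c hc
      have hp' := (mem_WW.mp hp).2 c hc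
      have hG' := (mem_WW.mp hG).2 c hc
      have h5 := hlm c hc
      rw [derivative_mul, eval_add, eval_mul, eval_mul, eval_mul, hp', hG']
      linear_combination (p.eval c * G.eval c) * h5)
    have h4 := wr_deg hF.deg hh hg
    rw [← hpG, h3] at h4
    omega
  have hstep : ∀ n < 2 * g, Module.finrank L (WW F mu (n + 1))
      + Module.finrank L (WW F lam (2 * g - n))
      ≤ Module.finrank L (WW F mu n) + Module.finrank L (WW F lam (2 * g - (n + 1))) + 1 := by
    intro n hn
    have e1 : 2 * g - n = 2 * g - n - 1 + 1 := by omega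
    have e2 : 2 * g - (n + 1) = 2 * g - n - 1 := by omega
    rw [e1, e2]
    have h1 := WW_step F mu n
    have h2 := WW_step F lam (2 * g - n - 1)
    by_cases ha : ∀ G ∈ WW F mu (n + 1), G.coeff n = 0
    · have h3 := WW_step0 F mu n ha
      omega
    · by_cases hb : ∀ p ∈ WW F lam (2 * g - n - 1 + 1), p.coeff (2 * g - n - 1) = 0
      · have h3 := WW_step0 F lam (2 * g - n - 1) hb
        omega
      · exfalso
        push Not at ha hb
        obtain ⟨G, hG, hGc⟩ := ha
        obtain ⟨p, hp, hpc⟩ := hb
        exact hno n hn p hp G hG hpc hGc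
  have hup : ∀ n ≤ 2 * g, Module.finrank L (WW F mu n) + g
      ≤ n + Module.finrank L (WW F lam (2 * g - n)) := by
    intro n
    induction n with
    | zero =>
      intro _
      rw [WW_zero, Nat.sub_zero, WW_full hHIN hF hg lam]
    | succ n ih =>
      intro hn
      have h1 := ih (by omega)
      have h2 := hstep n (by omega)
      omega
  have hdown : ∀ j ≤ 2 * g, (2 * g - j) + Module.finrank L (WW F lam (2 * g - (2 * g - j)))
      ≤ Module.finrank L (WW F mu (2 * g - j)) + g := by
    intro j
    induction j with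
    | zero =>
      intro _
      rw [Nat.sub_zero, Nat.sub_self, WW_zero, WW_full hHIN hF hg mu]
      omega
    | succ j ih =>
      intro hj
      have h1 := ih (by omega)
      have h2 := hstep (2 * g - (j + 1)) (by omega)
      have e1 : 2 * g - (j + 1) + 1 = 2 * g - j := by omega
      rw [e1] at h2
      omega
  have h1 := hup (M' + 1) (by omega)
  have h2 := hdown (2 * g - (M' + 1)) (by omega)
  have e1 : 2 * g - (2 * g - (M' + 1)) = M' + 1 := by omega
  rw [e1] at h2
  have e2 : 2 * g - (M' + 1) = M + 1 := by omega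
  rw [e2] at h1 h2
  omega

end Pool.Agent.RTB
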