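import Pool.Agent.RTB.KStmts

/-!
# squad RTB, module EXT: the normalised extension data exist
-/

set_option autoImplicit false

open Polynomial

namespace Pool.Agent.RTB

namespace EXT_

section
variable {Kf Lf κ : Type} [Field Kf] [Field Lf] [Algebra Kf Lf] [Field κ]

/-- vectors of relations -/
def relS {k0 A : Type} [Field k0] [CommRing A] [Algebra k0 A] {h : ℕ} (W : Submodule k0 A)
    (om : Fin h → A) : Submodule k0 (Fin h → A) where
  carrier := {r | (∀ j, r j ∈ W) ∧ ∑ j, r j * om j = 0}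
  zero_mem' := ⟨fun _ => W.zero_mem, by simp⟩
  add_mem' := fun {x y} hx hy => ⟨fun j => W.add_mem (hx.1 j) (hy.1 j), by
    simp only [Pi.add_apply, add_mul, Finset.sum_add_distrib]
    rw [hx.2, hy.2, add_zero]⟩
  smul_mem' := fun z x hx => ⟨fun j => W.smul_mem z (hx.1 j), by
    simp only [Pi.smul_apply, smul_mul_assoc]
    rw [← Finset.smul_sum, hx.2, smul_zero]⟩

theorem mem_relS {k0 A : Type} [Field k0] [CommRing A] [Algebra k0 A] {h : ℕ}
    {W : Submodule k0 A} {om : Fin h → A} {r : Fin h → A} :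
    r ∈ relS W om ↔ (∀ j, r j ∈ W) ∧ ∑ j, r j * om j = 0 := Iff.rfl

/-- the values of the trivial extension data -/
def trS {h M : ℕ} (NN : Submodule Kf Lf) (r : Fin M → Fin h → Lf) :
    Submodule Kf (Fin M → Lf) where
  carrier := {x | ∃ τ : Fin h → Lf, (∀ j, τ j ∈ NN) ∧ ∀ l, x l = ∑ j, r l j * τ j}
  zero_mem' := ⟨0, fun _ => NN.zero_mem, fun l => by simp⟩
  add_mem' := by
    rintro x y ⟨τ, hτ, hx⟩ ⟨σ, hσ, hy⟩
    refine ⟨τ + σ, fun j => NN.add_mem (hτ j) (hσ j), fun l => ?_⟩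
    rw [Pi.add_apply, hx, hy, ← Finset.sum_add_distrib]
    exact Finset.sum_congr rfl fun j _ => by rw [Pi.add_apply, mul_add]
  smul_mem' := by
    rintro z x ⟨τ, hτ, hx⟩
    refine ⟨z • τ, fun j => NN.smul_mem z (hτ j), fun l => ?_⟩
    rw [Pi.smul_apply, hx, Finset.smul_sum]
    exact Finset.sum_congr rfl fun j _ => by rw [Pi.smul_apply, mul_smul_comm]

theorem mem_trS {h M : ℕ} {NN : Submodule Kf Lf} {r : Fin M → Fin h → Lf} {x : Fin M → Lf} :
    x ∈ trS NN r ↔ ∃ τ : Fin h → Lf, (∀ j, τ j ∈ NN) ∧ ∀ l, x l = ∑ j, r l j * τ j := Iff.rfl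

/-- the facts used -/
structure Fct (g : ℕ) (O : ValuationSubring Kf) (red : O →+* κ) (β : ℕ → Lf) (F : κ[X])
    (βF : ℕ → κ[X]) : Prop where
  uniq : ∀ x p p', Red O red β βF x p → Red O red β βF x p' → p = p'
  add : ∀ x y p q, Red O red β βF x p → Red O red β βF y q → Red O red β βF (x + y) (p + q)
  smul : ∀ (x : Lf) (p : κ[X]) (r : O), Red O red β βF x p →
    Red O red β βF ((r : Kf) • x) (C (red r) * p)
  mul : ∀ x y p q, Red O red β βF x p → Red O red β βF y q → Red O red β βF (x * y) (p * q)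
  lift : ∀ (n : ℕ) (p : κ[X]), p ∈ RF F n → ∃ x ∈ Rn Kf g β n, Red O red β βF x p
  rf : ∀ (n : ℕ) (x : Lf) (p : κ[X]), x ∈ Rn Kf g β n → Red O red β βF x p → p ∈ RF F n
  rmul : ∀ n m, Rn Kf g β n * Rn Kf g β m ≤ Rn Kf g β (n + m)
  mono : ∀ n m, n ≤ m → Rn Kf g β n ≤ Rn Kf g β m
  one : ∀ n, (1 : Lf) ∈ Rn Kf g β n

variable {g : ℕ} {O : ValuationSubring Kf} {red : O →+* κ} {β : ℕ → Lf} {F : κ[X]}
  {βF : ℕ → κ[X]}

theorem fct_of (h : Stmt_RDB) (h1 : 1 ≤ g) (hc : CharZero κ) (hctx : IsCtx g O red β F βF) :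
    Fct g O red β F βF := by
  obtain ⟨a1, a2, a3, a4, a5, a6, a7, a8, a9, a10, a11, a12⟩ :=
    h Kf Lf κ g O red β F βF h1 hc hctx
  exact ⟨a1, a2, a3, a4, a7, a8, a9, a11, a12⟩

theorem red_zero : Red O red β βF (0 : Lf) (0 : κ[X]) := ⟨0, fun _ => 0, by simp, by simp⟩

theorem Fct.sum (hF : Fct g O red β F βF) {ι : Type} (s : Finset ι) (x : ι → Lf)
    (p : ι → κ[X]) (h : ∀ i ∈ s, Red O red β βF (x i) (p i)) :
    Red O red β βF (∑ i ∈ s, x i) (∑ i ∈ s, p i) := by
  classical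
  induction s using Finset.induction_on with
  | empty =>
    rw [Finset.sum_empty, Finset.sum_empty]
    exact red_zero
  | insert a s ha ih =>
    rw [Finset.sum_insert ha, Finset.sum_insert ha]
    exact hF.add _ _ _ _ (h a (Finset.mem_insert_self a s))
      (ih fun i hi => h i (Finset.mem_insert_of_mem hi))

theorem Fct.neg (hF : Fct g O red β F βF) {x : Lf} {p : κ[X]} (h : Red O red β βF x p) :
    Red O red β βF (-x) (-p) := by
  have h1 := hF.smul x p (-1) h
  have e1 : (((-1 : O) : Kf) • x) = -x := by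
    have : ((-1 : O) : Kf) = -1 := rfl
    rw [this, neg_smul, one_smul]
  have e2 : C (red (-1)) * p = -p := by
    rw [map_neg, map_one, map_neg, map_one, neg_mul, one_mul]
  rwa [e1, e2] at h1

theorem Fct.sub (hF : Fct g O red β F βF) {x y : Lf} {p q : κ[X]} (h : Red O red β βF x p)
    (h' : Red O red β βF y q) : Red O red β βF (x - y) (p - q) := by
  rw [sub_eq_add_neg, sub_eq_add_neg]
  exact hF.add _ _ _ _ h (hF.neg h')

/-- an integral combination of a family with independent reductions has integral coefficients -/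
theorem lattice (hctx : IsCtx g O red β F βF) (hF : Fct g O red β F βF) {q M : ℕ}
    (x : Fin M → Fin q → Lf) (p : Fin M → Fin q → κ[X])
    (hx : ∀ l i, Red O red β βF (x l i) (p l i)) (hp : LinearIndependent κ p)
    (c : Fin M → Kf) (y' : Fin q → κ[X])
    (hy : ∀ i, Red O red β βF (∑ l, c l • x l i) (y' i)) : ∀ l, c l ∈ O := by
  by_contra hc
  push Not at hc
  obtain ⟨l0, hl0⟩ := hc
  obtain ⟨m, _, hm⟩ := Finset.exists_max_image Finset.univ (fun l => O.valuation (c l))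
    ⟨l0, Finset.mem_univ _⟩
  have hm1 : c m ∉ O := by
    intro h
    apply hl0
    rw [← O.valuation_le_one_iff] at h ⊢
    exact le_trans (hm l0 (Finset.mem_univ _)) h
  have hm0 : c m ≠ 0 := fun h => hm1 (by rw [h]; exact O.zero_mem)
  have hinv : (c m)⁻¹ ∈ O := (O.mem_or_inv_mem (c m)).resolve_left hm1
  have hdiv : ∀ l, (c m)⁻¹ * c l ∈ O := by
    intro l
    rw [← O.valuation_le_one_iff, map_mul, map_inv₀]
    have h1 := hm l (Finset.mem_univ _)
    have h2 : O.valuation (c m) ≠ 0 := (Valuation.ne_zero_iff _).mpr hm0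
    calc (O.valuation (c m))⁻¹ * O.valuation (c l)
        ≤ (O.valuation (c m))⁻¹ * O.valuation (c m) := mul_le_mul_right h1 _
      _ = 1 := inv_mul_cancel₀ h2
  have hnu : ¬ IsUnit (⟨(c m)⁻¹, hinv⟩ : O) := by
    rintro ⟨u, hu⟩
    apply hm1
    have h1 : ((u : O) : Kf) * ((u⁻¹ : Oˣ) : O) = 1 := by
      exact congrArg (fun z : O => (z : Kf)) (Units.mul_inv u)
    rw [hu] at h1
    have h2 : (((u⁻¹ : Oˣ) : O) : Kf) = c m := by
      have h3 : (c m)⁻¹ * (((u⁻¹ : Oˣ) : O) : Kf) = 1 := h1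
      calc (((u⁻¹ : Oˣ) : O) : Kf) = c m * ((c m)⁻¹ * (((u⁻¹ : Oˣ) : O) : Kf)) := by
            rw [← mul_assoc, mul_inv_cancel₀ hm0, one_mul]
        _ = c m := by rw [h3, mul_one]
    rw [← h2]
    exact ((u⁻¹ : Oˣ) : O).2
  have hred0 : red ⟨(c m)⁻¹, hinv⟩ = 0 := (hctx.ker _).mpr hnu
  have key : ∀ i, ∑ l, C (red ⟨(c m)⁻¹ * c l, hdiv l⟩) * p l i = 0 := by
    intro i
    have h1 := hF.smul _ _ ⟨(c m)⁻¹, hinv⟩ (hy i)
    rw [hred0, C_0, zero_mul] at h1
    have h2 : Red O red β βF (∑ l, (((⟨(c m)⁻¹ * c l, hdiv l⟩ : O) : Kf) • x l i))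
        (∑ l, C (red ⟨(c m)⁻¹ * c l, hdiv l⟩) * p l i) :=
      hF.sum _ _ _ fun l _ => hF.smul _ _ _ (hx l i)
    have h3 : (((⟨(c m)⁻¹, hinv⟩ : O) : Kf) • ∑ l, c l • x l i)
        = ∑ l, (((⟨(c m)⁻¹ * c l, hdiv l⟩ : O) : Kf) • x l i) := by
      rw [Finset.smul_sum]
      exact Finset.sum_congr rfl fun l _ => by rw [smul_smul]
    rw [h3] at h1
    exact (hF.uniq _ _ _ h1 h2).symm
  have h4 : ∑ l, red ⟨(c m)⁻¹ * c l, hdiv l⟩ • p l = 0 := by
    funext i
    rw [Finset.sum_apply, Pi.zero_apply, ← key i]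
    exact Finset.sum_congr rfl fun l _ => by rw [Pi.smul_apply, smul_eq_C_mul]
  have h5 := (Fintype.linearIndependent_iff.mp hp) _ h4 m
  have h6 : (⟨(c m)⁻¹ * c m, hdiv m⟩ : O) = 1 := Subtype.ext (inv_mul_cancel₀ hm0)
  rw [h6, map_one] at h5
  exact one_ne_zero h5

theorem redV_mono {q : ℕ} {U U' : Submodule Kf (Fin q → Lf)} (h : U ≤ U') :
    redV O red β βF U ≤ redV O red β βF U' :=
  Submodule.span_mono fun _ ⟨x, hx, hp⟩ => ⟨x, h hx, hp⟩

theorem core (hRVD : Stmt_RVD) (h1 : 1 ≤ g) (hc : CharZero κ) (hctx : IsCtx g O red β F βF)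
    (hF : Fct g O red β F βF) (N h : ℕ) (om nn : Fin h → Lf) (ob : Fin h → κ[X])
    (NN : Submodule Kf Lf) (hnn : ∀ j, nn j ∈ Rn Kf g β (3 * g)) (hNN : NN ≤ Rn Kf g β (3 * g))
    (hob : ∀ j, Red O red β βF (om j) (ob j))
    (hlift : ∀ r' : Fin h → κ[X], (∀ i, r' i ∈ RF F N) → ∑ i, r' i * ob i = 0 →
      ∃ r : Fin h → Lf, (∀ i, r i ∈ Rn Kf g β N ∧ Red O red β βF (r i) (r' i)) ∧
        ∑ i, r i * om i = 0)
    (hknt : ¬ ∃ τ : Fin h → Lf, (∀ j, τ j ∈ NN) ∧ ∀ r : Fin h → Lf,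
      (∀ j, r j ∈ Rn Kf g β N) → ∑ j, r j * om j = 0 →
        ∑ j, r j * nn j = ∑ j, r j * τ j) :
    ∃ (c : Kf) (τ : Fin h → Lf) (M : ℕ) (rl : Fin M → Fin h → Lf)
      (rb : Fin M → Fin h → κ[X]) (p : Fin M → κ[X]), c ≠ 0 ∧ (∀ j, τ j ∈ NN) ∧
      (∀ l j, rl l j ∈ Rn Kf g β N ∧ Red O red β βF (rl l j) (rb l j)) ∧
      (∀ l, ∑ j, rl l j * om j = 0) ∧
      (∀ l, Red O red β βF (∑ j, rl l j * (c • nn j + τ j)) (p l)) ∧
      (¬ ∃ τ'' : Fin h → Lf, (∀ j, τ'' j ∈ NN) ∧
        ∀ l, Red O red β βF (∑ j, rl l j * τ'' j) (p l)) ∧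
      (∀ (r : Fin h → Lf) (r' : Fin h → κ[X]),
        (∀ j, r j ∈ Rn Kf g β N ∧ Red O red β βF (r j) (r' j)) → ∑ j, r j * om j = 0 →
        ∃ pp, Red O red β βF (∑ j, r j * (c • nn j + τ j)) pp) := by
  classical
  set Rel : Submodule Kf (Fin h → Lf) := relS (Rn Kf g β N) om with hRel
  set RelK : Submodule κ (Fin h → κ[X]) := relS (RF F N) ob with hRelK
  obtain ⟨v1, v2, v3, v4, v5⟩ := hRVD Kf Lf κ g O red β F βF h1 hc hctx h N Rel
    (fun x hx i => hx.1 i)
  have hsum : ∀ (r : Fin h → Lf) (r' : Fin h → κ[X]), (∀ j, Red O red β βF (r j) (r' j)) →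
      Red O red β βF (∑ j, r j * om j) (∑ j, r' j * ob j) := fun r r' hr =>
    hF.sum _ _ _ fun j _ => hF.mul _ _ _ _ (hr j) (hob j)
  have hRK : RelK = redV O red β βF Rel := by
    apply le_antisymm
    · intro r' hr'
      obtain ⟨r, hr, hr0⟩ := hlift r' hr'.1 hr'.2
      exact Submodule.subset_span ⟨r, ⟨fun i => (hr i).1, hr0⟩, fun i => (hr i).2⟩
    · refine Submodule.span_le.mpr ?_
      rintro r' ⟨r, hr, hrr⟩
      refine ⟨fun j => hF.rf N (r j) (r' j) (hr.1 j) (hrr j), ?_⟩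
      have h2 := hsum r r' hrr
      rw [hr.2] at h2
      exact hF.uniq _ _ _ h2 red_zero
  have hfd : FiniteDimensional κ RelK := by rw [hRK]; exact v2
  set M : ℕ := Module.finrank κ RelK with hM
  set B := Module.finBasis κ RelK with hB
  have hBi : LinearIndependent κ (fun l : Fin M => ((B l : RelK) : Fin h → κ[X])) := by
    have := B.linearIndependent.map' RelK.subtype (Submodule.ker_subtype _)
    exact this
  have hex : ∀ l : Fin M, ∃ r : Fin h → Lf, r ∈ Rel ∧
      ∀ i, Red O red β βF (r i) (((B l : RelK) : Fin h → κ[X]) i) := by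
    intro l
    obtain ⟨r, hr, hr0⟩ := hlift _ (B l).2.1 (B l).2.2
    exact ⟨r, ⟨fun i => (hr i).1, hr0⟩, fun i => (hr i).2⟩
  choose rl hrl hrlb using hex
  have hrli : LinearIndependent Kf rl := v5 M rl _ hrlb hBi
  have hspan : Submodule.span Kf (Set.range rl) = Rel := by
    apply Submodule.eq_of_le_of_finrank_eq
    · refine Submodule.span_le.mpr ?_
      rintro _ ⟨l, rfl⟩
      exact hrl l
    · rw [finrank_span_eq_card hrli, Fintype.card_fin, ← v1, ← hRK]
  -- rho and T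
  set rho : Fin M → Lf := fun l => ∑ j, rl l j * nn j with hrho
  set T : Submodule Kf (Fin M → Lf) := trS NN rl with hT
  have hprod : ∀ (l : Fin M) (x : Fin h → Lf), (∀ j, x j ∈ Rn Kf g β (3 * g)) →
      ∑ j, rl l j * x j ∈ Rn Kf g β (N + 3 * g) := by
    intro l x hx
    refine Submodule.sum_mem _ fun j _ => ?_
    exact hF.rmul _ _ (Submodule.mul_mem_mul ((hrl l).1 j) (hx j))
  have hrhoT : rho ∉ T := by
    rintro ⟨τ, hτ, hx⟩
    apply hknt
    refine ⟨τ, hτ, fun r hr hr0 => ?_⟩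
    have hmem : r ∈ Submodule.span Kf (Set.range rl) := by
      rw [hspan]; exact ⟨hr, hr0⟩
    obtain ⟨c, hc'⟩ := (Submodule.mem_span_range_iff_exists_fun Kf).mp hmem
    have e1 : ∀ y : Fin h → Lf, ∑ j, r j * y j = ∑ l, c l • ∑ j, rl l j * y j := by
      intro y
      rw [← hc']
      simp only [Finset.sum_apply, Pi.smul_apply, Finset.sum_mul, Finset.smul_sum,
        smul_mul_assoc]
      exact Finset.sum_comm
    rw [e1, e1]
    exact Finset.sum_congr rfl fun l _ => by rw [← hx l]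
  set T' : Submodule Kf (Fin M → Lf) := T ⊔ Submodule.span Kf {rho} with hT'
  have hTc : ∀ x ∈ T, ∀ i, x i ∈ Rn Kf g β (N + 3 * g) := by
    rintro x ⟨τ, hτ, hx⟩ i
    rw [hx]
    exact hprod i τ fun j => hNN (hτ j)
  have hT'c : ∀ x ∈ T', ∀ i, x i ∈ Rn Kf g β (N + 3 * g) := by
    intro x hx i
    obtain ⟨y, hy, z, hz, rfl⟩ := Submodule.mem_sup.mp hx
    obtain ⟨d, rfl⟩ := Submodule.mem_span_singleton.mp hz
    exact Submodule.add_mem _ (hTc y hy i) (Submodule.smul_mem _ d (hprod i nn hnn))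
  obtain ⟨a1, a2, a3, a4, -⟩ := hRVD Kf Lf κ g O red β F βF h1 hc hctx M _ T hTc
  obtain ⟨b1, b2, b3, b4, -⟩ := hRVD Kf Lf κ g O red β F βF h1 hc hctx M _ T' hT'c
  have hlt : T < T' := by
    refine lt_of_le_of_ne le_sup_left fun heq => hrhoT ?_
    rw [heq]
    exact (le_sup_right : Submodule.span Kf {rho} ≤ T') (Submodule.mem_span_singleton_self rho)
  have hfr : Module.finrank Kf T < Module.finrank Kf T' := Submodule.finrank_lt_finrank_of_lt hlt
  have hne : ∃ p ∈ redV O red β βF T', p ∉ redV O red β βF T := by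
    by_contra hcon
    push Not at hcon
    have : redV O red β βF T' ≤ redV O red β βF T := hcon
    have h2 := Submodule.finrank_mono this
    omega
  obtain ⟨p, hp1, hp2⟩ := hne
  obtain ⟨x, hx, hxp⟩ := b4 p hp1
  obtain ⟨y, hy, z, hz, rfl⟩ := Submodule.mem_sup.mp hx
  obtain ⟨c, rfl⟩ := Submodule.mem_span_singleton.mp hz
  have hyT := hy
  obtain ⟨τ, hτ, hyτ⟩ := hy
  have hxl : ∀ l, (y + c • rho) l = ∑ j, rl l j * (c • nn j + τ j) := by
    intro l
    rw [Pi.add_apply, Pi.smul_apply, hyτ l, hrho]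
    simp only [mul_add, Finset.sum_add_distrib, mul_smul_comm, Finset.smul_sum]
    rw [add_comm]
  refine ⟨c, τ, M, rl, fun l => ((B l : RelK) : Fin h → κ[X]), p, ?_, hτ,
    fun l j => ⟨(hrl l).1 j, hrlb l j⟩, fun l => (hrl l).2, fun l => ?_, ?_, ?_⟩
  · rintro rfl
    apply hp2
    rw [zero_smul, add_zero] at hxp
    exact Submodule.subset_span ⟨y, hyT, hxp⟩
  · rw [← hxl]; exact hxp l
  · rintro ⟨τ'', hτ'', hr⟩
    exact hp2 (Submodule.subset_span ⟨fun l => ∑ j, rl l j * τ'' j, ⟨τ'', hτ'', fun l => rfl⟩,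
      hr⟩)
  · intro r r' hr hr0
    have hmem : r ∈ Submodule.span Kf (Set.range rl) := by
      rw [hspan]; exact ⟨fun j => (hr j).1, hr0⟩
    obtain ⟨d, hd⟩ := (Submodule.mem_span_range_iff_exists_fun Kf).mp hmem
    have hdO := lattice hctx hF rl _ hrlb hBi d r' (fun i => by
      have : ∑ l, d l • rl l i = r i := by
        rw [← hd]; simp only [Finset.sum_apply, Pi.smul_apply]
      rw [this]; exact (hr i).2)
    have e1 : ∑ j, r j * (c • nn j + τ j)
        = ∑ l, (((⟨d l, hdO l⟩ : O) : Kf) • ∑ j, rl l j * (c • nn j + τ j)) := by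
      rw [← hd]
      simp only [Finset.sum_apply, Pi.smul_apply, Finset.sum_mul, Finset.smul_sum,
        smul_mul_assoc]
      exact Finset.sum_comm
    rw [e1]
    refine ⟨∑ l, C (red ⟨d l, hdO l⟩) * p l, hF.sum _ _ _ fun l _ => hF.smul _ _ _ ?_⟩
    rw [← hxl]; exact hxp l

theorem det2_add_left (u v w : Fin 2 → Lf) : det2 (u + v) w = det2 u w + det2 v w := by
  simp only [det2, Pi.add_apply]; ring

theorem det2_add_right (u v w : Fin 2 → Lf) : det2 u (v + w) = det2 u v + det2 u w := by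
  simp only [det2, Pi.add_apply]; ring

theorem det2_smul_left (z : Kf) (u w : Fin 2 → Lf) : det2 (z • u) w = z • det2 u w := by
  simp only [det2, Pi.smul_apply, Algebra.smul_def]; ring

theorem det2_smul_right (z : Kf) (u w : Fin 2 → Lf) : det2 u (z • w) = z • det2 u w := by
  simp only [det2, Pi.smul_apply, Algebra.smul_def]; ring

theorem det2_zero_left (w : Fin 2 → Lf) : det2 0 w = 0 := by
  simp only [det2, Pi.zero_apply]; ring

theorem det2_zero_right (w : Fin 2 → Lf) : det2 w 0 = 0 := by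
  simp only [det2, Pi.zero_apply]; ring

theorem mem_of_span {W : Submodule Kf Lf} {k : ℕ} {s : Fin k → Fin 2 → Lf} {f : Lf}
    (h : ∀ i j, f * det2 (s i) (s j) ∈ W) {u v : Fin 2 → Lf}
    (hu : u ∈ Submodule.span Kf (Set.range s)) (hv : v ∈ Submodule.span Kf (Set.range s)) :
    f * det2 u v ∈ W := by
  have h1 : ∀ i, f * det2 (s i) v ∈ W := by
    intro i
    refine Submodule.span_induction (p := fun v _ => f * det2 (s i) v ∈ W) ?_ ?_ ?_ ?_ hv
    · rintro _ ⟨j, rfl⟩
      exact h i j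
    · rw [det2_zero_right, mul_zero]; exact W.zero_mem
    · intro x y _ _ hx hy
      rw [det2_add_right, mul_add]; exact W.add_mem hx hy
    · intro z x _ hx
      rw [det2_smul_right, mul_smul_comm]; exact W.smul_mem z hx
  refine Submodule.span_induction (p := fun u _ => f * det2 u v ∈ W) ?_ ?_ ?_ ?_ hu
  · rintro _ ⟨j, rfl⟩
    exact h1 j
  · rw [det2_zero_left, mul_zero]; exact W.zero_mem
  · intro x y _ _ hx hy
    rw [det2_add_left, mul_add]; exact W.add_mem hx hy
  · intro z x _ hx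
    rw [det2_smul_left, mul_smul_comm]; exact W.smul_mem z hx

theorem finrank_q1 {k0 A : Type} [Field k0] [CommRing A] [Algebra k0 A] {h : ℕ}
    (W : Submodule k0 A) (om : Fin h → A) :
    Module.finrank k0 (Submodule.span k0
      {z : Fin 1 → A | ∃ r ∈ W, ∃ i, z = r • (fun _ : Fin 1 => om i)})
    = Module.finrank k0 (W * Submodule.span k0 (Set.range om) : Submodule k0 A) := by
  set φ : (Fin 1 → A) ≃ₗ[k0] A := LinearEquiv.funUnique (Fin 1) k0 A with hφ
  have hφa : ∀ z : Fin 1 → A, φ z = z 0 := fun z => rfl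
  rw [← LinearEquiv.finrank_map_eq φ]
  have : (Submodule.span k0
      {z : Fin 1 → A | ∃ r ∈ W, ∃ i, z = r • (fun _ : Fin 1 => om i)}).map
        (φ : (Fin 1 → A) →ₗ[k0] A) = W * Submodule.span k0 (Set.range om) := by
    apply le_antisymm
    · rw [Submodule.map_span]
      refine Submodule.span_le.mpr ?_
      rintro _ ⟨z, ⟨r, hr, i, rfl⟩, rfl⟩
      exact Submodule.mul_mem_mul hr (Submodule.subset_span ⟨i, rfl⟩)
    · rw [Submodule.mul_le]
      intro r hr y hy
      refine Submodule.span_induction (p := fun y _ => r * y ∈ (Submodule.span k0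
        {z : Fin 1 → A | ∃ r ∈ W, ∃ i, z = r • (fun _ : Fin 1 => om i)}).map
        (φ : (Fin 1 → A) →ₗ[k0] A)) ?_ ?_ ?_ ?_ hy
      · rintro _ ⟨i, rfl⟩
        exact ⟨r • (fun _ : Fin 1 => om i), Submodule.subset_span ⟨r, hr, i, rfl⟩, rfl⟩
      · rw [mul_zero]; exact Submodule.zero_mem _
      · intro x y _ _ hx hy
        rw [mul_add]; exact Submodule.add_mem _ hx hy
      · intro z x _ hx
        rw [mul_smul_comm]; exact Submodule.smul_mem _ z hx
  rw [this]

theorem mul_gamma {h : ℕ} (W : Submodule κ κ[X]) (γ : κ[X]) (a : Fin h → κ[X]) {p : κ[X]}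
    (hp : p ∈ W * Submodule.span κ (Set.range fun i => γ * a i)) :
    ∃ s ∈ W * Submodule.span κ (Set.range a), p = γ * s := by
  have h1 : W * Submodule.span κ (Set.range fun i => γ * a i)
      ≤ (W * Submodule.span κ (Set.range a)).map (LinearMap.mulLeft κ γ) := by
    rw [Submodule.mul_le]
    intro r hr y hy
    refine Submodule.span_induction (p := fun y _ => r * y ∈
      (W * Submodule.span κ (Set.range a)).map (LinearMap.mulLeft κ γ)) ?_ ?_ ?_ ?_ hy
    · rintro _ ⟨i, rfl⟩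
      refine ⟨r * a i, Submodule.mul_mem_mul hr (Submodule.subset_span ⟨i, rfl⟩), ?_⟩
      rw [LinearMap.mulLeft_apply]; ring
    · rw [mul_zero]; exact Submodule.zero_mem _
    · intro x y _ _ hx hy
      rw [mul_add]; exact Submodule.add_mem _ hx hy
    · intro z x _ hx
      rw [mul_smul_comm]; exact Submodule.smul_mem _ z hx
  obtain ⟨s, hs, rfl⟩ := h1 hp
  exact ⟨s, hs, rfl⟩

theorem sum_single {A : Type} [CommRing A] {h : ℕ} (i j : Fin h) (a b : A) (y : Fin h → A) :
    ∑ m, ((Pi.single i a : Fin h → A) - (Pi.single j b : Fin h → A)) m * y m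
      = a * y i - b * y j := by
  simp only [Pi.sub_apply, sub_mul, Finset.sum_sub_distrib]
  congr 1
  · rw [Finset.sum_eq_single i]
    · rw [Pi.single_eq_same]
    · intro m _ hm; rw [Pi.single_eq_of_ne hm, zero_mul]
    · intro hi; exact absurd (Finset.mem_univ i) hi
  · rw [Finset.sum_eq_single j]
    · rw [Pi.single_eq_same]
    · intro m _ hm; rw [Pi.single_eq_of_ne hm, zero_mul]
    · intro hi; exact absurd (Finset.mem_univ j) hi

theorem exists_lin {h : ℕ} (b : Fin h → κ[X]) (hb : LinearIndependent κ b)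
    (v : Fin h → κ[X]) : ∃ wh : κ[X] →ₗ[κ] κ[X], ∀ i, wh (b i) = v i := by
  obtain ⟨G, hG⟩ := LinearMap.exists_extend ((Module.Basis.span hb).constr κ v)
  refine ⟨G, fun i => ?_⟩
  have h1 : (Module.Basis.span hb).constr κ v ((Module.Basis.span hb) i) = v i :=
    (Module.Basis.span hb).constr_basis κ v i
  rw [← hG] at h1
  rw [LinearMap.comp_apply] at h1
  have h2 : (Submodule.span κ (Set.range b)).subtype ((Module.Basis.span hb) i) = b i :=
    by rw [Module.Basis.span_apply]; rfl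
  rwa [h2] at h1

end

end EXT_

open EXT_ in
theorem ext_proof (hRPK : Stmt_RPK) (hKNT : Stmt_KNT) (hRVD : Stmt_RVD) (hR1D : Stmt_R1D)
    (hRLF : Stmt_RLF) (hRDB : Stmt_RDB) (_ : Stmt_RFB) : Stmt_EXT := by
  intro Kf Lf κ _ _ _ _ hck _ k O red β F βF hk hctx s f hdat e t j0 γN γP a b n0 hA N hN0 hN3
  have h1 : 1 ≤ 2 * k - 3 := by omega
  have hF := fct_of hRDB h1 hck hctx
  set g := 2 * k - 3 with hg
  -- memberships
  have hes : ∀ i, e i ∈ Submodule.span Kf (Set.range s) := fun i => by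
    rw [← hA.spanV]; exact Submodule.subset_span (Or.inl ⟨i, rfl⟩)
  have hts : ∀ i, t i ∈ Submodule.span Kf (Set.range s) := fun i => by
    rw [← hA.spanV]; exact Submodule.subset_span (Or.inr ⟨i, rfl⟩)
  have hmem : ∀ u v : Fin 2 → Lf, u ∈ Submodule.span Kf (Set.range s) →
      v ∈ Submodule.span Kf (Set.range s) → f * det2 u v ∈ Rn Kf g β (3 * g) :=
    fun u v hu hv => mem_of_span hdat.mem hu hv
  set om : Fin (k - 2) → Lf := fun j => f * det2 (e 0) (t j) with hom
  set nn : Fin (k - 2) → Lf := fun j => f * det2 (t j) (t j0) with hnn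
  have homR : ∀ j, om j ∈ Rn Kf g β (3 * g) := fun j => hmem _ _ (hes 0) (hts j)
  have hnnR : ∀ j, nn j ∈ Rn Kf g β (3 * g) := fun j => hmem _ _ (hts j) (hts j0)
  have hNN : Nsp Kf f e t j0 ≤ Rn Kf g β (3 * g) := by
    refine Submodule.span_le.mpr ?_
    rintro _ ⟨i, rfl⟩
    exact hmem _ _ (hes i) (hts j0)
  have hb0 : b j0 ≠ 0 := hA.indb.ne_zero j0
  have hob : ∀ j, Red O red β βF (om j) (γP * b j) := hA.redP
  -- lifting of relations
  have hlift0 : ∀ r' : Fin (k - 2) → κ[X], (∀ i, r' i ∈ RF F N) →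
      ∑ i, r' i * (γP * b i) = 0 →
      ∃ r : Fin (k - 2) → Lf, (∀ i, r i ∈ Rn Kf g β N ∧ Red O red β βF (r i) (r' i)) ∧
        ∑ i, r i * om i = 0 := by
    intro r' hr' h0
    obtain ⟨-, hl⟩ := hRLF Kf Lf κ g O red β F βF h1 hck hctx (k - 2) 1 N (3 * g)
      (fun j _ => om j) (fun j _ => γP * b j) (fun i _ => ⟨homR i, hob i⟩)
    have hle := hl (by
      rw [finrank_q1, finrank_q1]
      exact le_of_eq (hA.eqP N hN0)) r' hr' (fun _ => h0)
    obtain ⟨r, hr, hr0⟩ := hle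
    exact ⟨r, hr, hr0 0⟩
  obtain ⟨c, τ, M, rl, rb, p, hc0, hτ, hrl, hrl0, hp, hnt, hint⟩ :=
    core hRVD h1 hck hctx hF N (k - 2) om nn (fun j => γP * b j) (Nsp Kf f e t j0) hnnR hNN
      hob hlift0 (hKNT Kf Lf κ k O red β F βF hk hctx s f hdat e t j0 γN γP a b n0 hA N hN0
        hN3)
  set n' : Fin (k - 2) → Lf := fun j => c • nn j + τ j with hn'
  -- Koszul relations
  have hkos : ∀ i j, ∃ q : κ[X], Red O red β βF (om j * n' i - om i * n' j) q := by
    intro i j
    obtain ⟨pp, hpp⟩ := hint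
      ((Pi.single i (om j) : Fin (k - 2) → Lf) - (Pi.single j (om i) : Fin (k - 2) → Lf))
      ((Pi.single i (γP * b j) : Fin (k - 2) → κ[X])
        - (Pi.single j (γP * b i) : Fin (k - 2) → κ[X]))
      (by
        intro m
        have h2 : ∀ (i : Fin (k - 2)) (x : Lf) (y : κ[X]), x ∈ Rn Kf g β N →
            Red O red β βF x y → (Pi.single i x : Fin (k - 2) → Lf) m ∈ Rn Kf g β N ∧
            Red O red β βF ((Pi.single i x : Fin (k - 2) → Lf) m)
              ((Pi.single i y : Fin (k - 2) → κ[X]) m) := by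
          intro i x y hx hxy
          by_cases hi : m = i
          · subst hi
            rw [Pi.single_eq_same, Pi.single_eq_same]; exact ⟨hx, hxy⟩
          · rw [Pi.single_eq_of_ne hi, Pi.single_eq_of_ne hi]
            exact ⟨Submodule.zero_mem _, red_zero⟩
        have h3 := h2 i (om j) (γP * b j) (hF.mono _ _ hN3 (homR j)) (hob j)
        have h4 := h2 j (om i) (γP * b i) (hF.mono _ _ hN3 (homR i)) (hob i)
        rw [Pi.sub_apply, Pi.sub_apply]
        exact ⟨Submodule.sub_mem _ h3.1 h4.1, hF.sub h3.2 h4.2⟩)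
      (by rw [sum_single]; ring)
    refine ⟨pp, ?_⟩
    rw [sum_single] at hpp
    exact hpp
  choose q hq using hkos
  obtain ⟨wh, hwh⟩ := exists_lin b hA.indb (fun i => q i j0)
  -- main identity
  have mkey : ∀ (r : Fin (k - 2) → Lf) (r' : Fin (k - 2) → κ[X]) (pp : κ[X]),
      (∀ j, Red O red β βF (r j) (r' j)) → ∑ j, r j * om j = 0 →
      Red O red β βF (∑ j, r j * n' j) pp → (γP * b j0) * pp = ∑ j, r' j * wh (b j) := by
    intro r r' pp hr hr0 hpp
    have e1 : om j0 * ∑ j, r j * n' j = ∑ j, r j * (om j0 * n' j - om j * n' j0) := by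
      have e2 : ∑ j, r j * (om j0 * n' j - om j * n' j0)
          = om j0 * ∑ j, r j * n' j - n' j0 * ∑ j, r j * om j := by
        rw [Finset.mul_sum, Finset.mul_sum, ← Finset.sum_sub_distrib]
        exact Finset.sum_congr rfl fun j _ => by ring
      rw [e2, hr0, mul_zero, sub_zero]
    have h2 : Red O red β βF (om j0 * ∑ j, r j * n' j) ((γP * b j0) * pp) :=
      hF.mul _ _ _ _ (hob j0) hpp
    have h3 : Red O red β βF (∑ j, r j * (om j0 * n' j - om j * n' j0))
        (∑ j, r' j * wh (b j)) :=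
      hF.sum _ _ _ fun j _ => hF.mul _ _ _ _ (hr j) (by rw [hwh]; exact hq j j0)
    rw [e1] at h2
    exact hF.uniq _ _ _ h2 h3
  -- the space `Rn N * Nsp` and its reduction
  have hU : Rn Kf g β N * Nsp Kf f e t j0 ≤ Rn Kf g β (N + 3 * g) :=
    le_trans (mul_le_mul_right hNN _) (hF.rmul _ _)
  obtain ⟨u1, u2, u3, -, -, -⟩ := hR1D Kf Lf κ g O red β F βF h1 hck hctx (N + 3 * g)
    (Rn Kf g β N * Nsp Kf f e t j0) hU
  have hred1 : RF F N * Submodule.span κ (Set.range fun i => γN * a i)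
      = red1 O red β βF (Rn Kf g β N * Nsp Kf f e t j0) := by
    apply Submodule.eq_of_le_of_finrank_eq
    · rw [Submodule.mul_le]
      intro r' hr' y hy
      obtain ⟨r, hr, hrr⟩ := hF.lift N r' hr'
      refine Submodule.span_induction (p := fun y _ => r' * y ∈
        red1 O red β βF (Rn Kf g β N * Nsp Kf f e t j0)) ?_ ?_ ?_ ?_ hy
      · rintro _ ⟨i, rfl⟩
        exact Submodule.subset_span ⟨r * (f * det2 (e i) (t j0)),
          Submodule.mul_mem_mul hr (Submodule.subset_span ⟨i, rfl⟩),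
          hF.mul _ _ _ _ hrr (hA.redN i)⟩
      · rw [mul_zero]; exact Submodule.zero_mem _
      · intro x y _ _ hx hy
        rw [mul_add]; exact Submodule.add_mem _ hx hy
      · intro z x _ hx
        rw [mul_smul_comm]; exact Submodule.smul_mem _ z hx
    · rw [u1]; exact (hA.eqN N hN0).symm
  have hRPK' := (hRPK Kf Lf κ k O red β F βF hk hctx s f hdat e t j0 γN γP a b n0 hA).2 N hN0
  refine ⟨c, τ, q, wh, hc0, hτ, fun i j => hq i j, hwh, ?_, ?_, ?_⟩
  · -- cyc
    intro i j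
    have e1 : om j0 * (om j * n' i - om i * n' j)
        = om j * (om j0 * n' i - om i * n' j0) - om i * (om j0 * n' j - om j * n' j0) := by
      ring
    have h2 : Red O red β βF (om j0 * (om j * n' i - om i * n' j)) ((γP * b j0) * q i j) :=
      hF.mul _ _ _ _ (hob j0) (hq i j)
    have h3 : Red O red β βF
        (om j * (om j0 * n' i - om i * n' j0) - om i * (om j0 * n' j - om j * n' j0))
        ((γP * b j) * q i j0 - (γP * b i) * q j j0) :=
      hF.sub (hF.mul _ _ _ _ (hob j) (hq i j0)) (hF.mul _ _ _ _ (hob i) (hq j j0))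
    rw [e1] at h2
    have h4 := hF.uniq _ _ _ h2 h3
    rw [hwh, hwh]
    apply mul_left_cancel₀ hA.γP0
    linear_combination h4
  · -- rps
    intro m r ω hr hω h0
    have hex : ∀ i, ∃ D : Fin (k - 2) → κ, ∑ j, D j • b j = ω i := fun i =>
      (Submodule.mem_span_range_iff_exists_fun κ).mp (hω i)
    choose D hD using hex
    set r' : Fin (k - 2) → κ[X] := fun j => ∑ i, D i j • r i with hr'
    have hr'R : ∀ j, r' j ∈ RF F N := fun j =>
      Submodule.sum_mem _ fun i _ => Submodule.smul_mem _ _ (hr i)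
    have hswap : ∀ y : Fin (k - 2) → κ[X], ∑ j, r' j * y j = ∑ i, r i * ∑ j, D i j • y j := by
      intro y
      simp only [hr', Finset.sum_mul, Finset.mul_sum]
      rw [Finset.sum_comm]
      refine Finset.sum_congr rfl fun i _ => Finset.sum_congr rfl fun j _ => ?_
      rw [smul_mul_assoc, mul_smul_comm]
    have h2 : ∑ j, r' j * b j = 0 := by
      rw [hswap, ← h0]
      exact Finset.sum_congr rfl fun i _ => by rw [hD]
    have h3 : ∑ j, r' j * (γP * b j) = 0 := by
      have : ∑ j, r' j * (γP * b j) = γP * ∑ j, r' j * b j := by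
        rw [Finset.mul_sum]
        exact Finset.sum_congr rfl fun j _ => by ring
      rw [this, h2, mul_zero]
    obtain ⟨rr, hrr, hrr0⟩ := hlift0 r' hr'R h3
    obtain ⟨pp, hpp⟩ := hint rr r' hrr hrr0
    have h4 := mkey rr r' pp (fun j => (hrr j).2) hrr0 hpp
    have h5 : ∑ j, rr j * (c • nn j + τ j) ∈ Rn Kf g β N * Nsp Kf f e t j0 := by
      have e1 : ∑ j, rr j * (c • nn j + τ j)
          = c • ∑ j, rr j * nn j + ∑ j, rr j * τ j := by
        rw [Finset.smul_sum, ← Finset.sum_add_distrib]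
        exact Finset.sum_congr rfl fun j _ => by rw [mul_add, mul_smul_comm]
      rw [e1]
      exact Submodule.add_mem _ (Submodule.smul_mem _ _ (hRPK' rr (fun j => (hrr j).1) hrr0))
        (Submodule.sum_mem _ fun j _ => Submodule.mul_mem_mul (hrr j).1 (hτ j))
    have h6 : pp ∈ RF F N * Submodule.span κ (Set.range fun i => γN * a i) := by
      rw [hred1]
      exact Submodule.subset_span ⟨_, h5, hpp⟩
    obtain ⟨s', hs', hpe⟩ := mul_gamma _ _ _ h6
    refine ⟨s', hs', ?_⟩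
    have h7 : ∑ i, r i * wh (ω i) = ∑ j, r' j * wh (b j) := by
      rw [hswap]
      refine Finset.sum_congr rfl fun i _ => ?_
      rw [← hD i, map_sum]
      simp only [map_smul]
    rw [h7, ← h4, hpe]
    ring
  · -- nt
    rintro ⟨τ', hτ', hwτ⟩
    have hbm : ∀ j, b j ∈ Submodule.span κ (Set.range b) := fun j =>
      Submodule.subset_span ⟨j, rfl⟩
    have hex : ∀ j, ∃ d : Fin 2 → κ, ∑ i, d i • a i = τ' (b j) := fun j =>
      (Submodule.mem_span_range_iff_exists_fun κ).mp (hτ' _ (hbm j))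
    choose d hd using hex
    have hex2 : ∀ j i, ∃ z : O, red z = d j i := fun j i => hctx.surj _
    choose z hz using hex2
    apply hnt
    refine ⟨fun j => ∑ i, ((z j i : O) : Kf) • (f * det2 (e i) (t j0)), fun j =>
      Submodule.sum_mem _ fun i _ => Submodule.smul_mem _ _
        (Submodule.subset_span ⟨i, rfl⟩), fun l => ?_⟩
    have h2 : Red O red β βF
        (∑ j, rl l j * ∑ i, ((z j i : O) : Kf) • (f * det2 (e i) (t j0)))
        (∑ j, rb l j * (γN * τ' (b j))) := by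
      refine hF.sum _ _ _ fun j _ => hF.mul _ _ _ _ (hrl l j).2 ?_
      have h3 : γN * τ' (b j) = ∑ i, C (red (z j i)) * (γN * a i) := by
        rw [← hd j, Finset.mul_sum]
        refine Finset.sum_congr rfl fun i _ => ?_
        rw [hz, smul_eq_C_mul]; ring
      rw [h3]
      exact hF.sum _ _ _ fun i _ => hF.smul _ _ _ (hA.redN i)
    have h4 : ∑ j, rb l j * (γP * b j) = 0 := by
      have h5 : Red O red β βF (∑ j, rl l j * om j) (∑ j, rb l j * (γP * b j)) :=
        hF.sum _ _ _ fun j _ => hF.mul _ _ _ _ (hrl l j).2 (hob j)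
      rw [hrl0 l] at h5
      exact hF.uniq _ _ _ h5 red_zero
    have h5 := mkey (rl l) (rb l) (p l) (fun j => (hrl l j).2) (hrl0 l) (hp l)
    have h6 : p l = ∑ j, rb l j * (γN * τ' (b j)) := by
      apply mul_left_cancel₀ (mul_ne_zero hA.γP0 hb0)
      rw [h5]
      have h7 : ∑ j, rb l j * wh (b j)
          = (γP * b j0) * ∑ j, rb l j * (γN * τ' (b j))
            - γN * τ' (b j0) * ∑ j, rb l j * (γP * b j) := by
        rw [Finset.mul_sum, Finset.mul_sum, ← Finset.sum_sub_distrib]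
        refine Finset.sum_congr rfl fun j _ => ?_
        rw [hwτ _ (hbm j)]
        ring
      rw [h7, h4, mul_zero, sub_zero]
    rw [h6]
    exact h2

end Pool.Agent.RTB
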