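import Pool.Agent.RTB.KStmts

/-!
# RTB, module FI1: outcome I is impossible
-/

set_option autoImplicit false

open Polynomial

namespace Pool.Agent.RTB

namespace FI1_

section
variable {Kf Lf : Type} [Field Kf] [Field Lf] [Algebra Kf Lf]

theorem det2_add_left (u u' v : Fin 2 → Lf) : det2 (u + u') v = det2 u v + det2 u' v := by
  simp only [det2, Pi.add_apply]; ring

theorem det2_add_right (u v v' : Fin 2 → Lf) : det2 u (v + v') = det2 u v + det2 u v' := by
  simp only [det2, Pi.add_apply]; ring

theorem det2_smul_left (c : Kf) (u v : Fin 2 → Lf) : det2 (c • u) v = c • det2 u v := by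
  simp only [det2, Pi.smul_apply, Algebra.smul_def]; ring

theorem det2_smul_right (c : Kf) (u v : Fin 2 → Lf) : det2 u (c • v) = c • det2 u v := by
  simp only [det2, Pi.smul_apply, Algebra.smul_def]; ring

/-- a submodule containing the determinants of generators contains those of the span -/
theorem det2_mem_of_span {S : Set (Fin 2 → Lf)} (W : Submodule Kf Lf) (f : Lf)
    (h : ∀ u ∈ S, ∀ v ∈ S, f * det2 u v ∈ W) :
    ∀ u ∈ Submodule.span Kf S, ∀ v ∈ Submodule.span Kf S, f * det2 u v ∈ W := by
  intro u hu v hv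
  induction hu using Submodule.span_induction with
  | mem u hu =>
    induction hv using Submodule.span_induction with
    | mem v hv => exact h u hu v hv
    | zero => simp [det2]
    | add x y _ _ hx hy =>
      rw [det2_add_right, mul_add]; exact W.add_mem hx hy
    | smul a x _ hx =>
      rw [det2_smul_right, mul_smul_comm]; exact W.smul_mem _ hx
  | zero => simp [det2]
  | add x y _ _ hx hy =>
    rw [det2_add_left, mul_add]; exact W.add_mem hx hy
  | smul a x _ hx =>
    rw [det2_smul_left, mul_smul_comm]; exact W.smul_mem _ hx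

end

end FI1_

open FI1_

theorem fi1_proof (hDI1 : Stmt_DI1) (hR1D : Stmt_R1D) (hRDB : Stmt_RDB) : Stmt_FI1 := by
  intro Kf Lf κ _ _ _ _ _ _ k O red β F βF hk hctx s f hdat e t j0 γN γP a b n0 hadp N c τ q wh
    hext hout
  set g := 2 * k - 3 with hg
  have hg1 : 1 ≤ g := by omega
  obtain ⟨_, _, _, hRmul, _, _, _, _, hRnmul, _, _, _⟩ :=
    hRDB Kf Lf κ g O red β F βF hg1 inferInstance hctx
  set V := Submodule.span Kf (Set.range s) with hV
  have heV : ∀ i, e i ∈ V := fun i => by
    rw [hV, ← hadp.spanV]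
    exact Submodule.subset_span (Or.inl ⟨i, rfl⟩)
  have htV : ∀ j, t j ∈ V := fun j => by
    rw [hV, ← hadp.spanV]
    exact Submodule.subset_span (Or.inr ⟨j, rfl⟩)
  set θ : Lf := f * det2 (e 0) (t j0) * f with hθ
  set W : Submodule Kf Lf := (detSp Kf s).map (LinearMap.mulLeft Kf θ) with hW
  -- membership
  have hdetV : ∀ u ∈ V, ∀ v ∈ V, det2 u v ∈ detSp Kf s := by
    intro u hu v hv
    have := det2_mem_of_span (detSp Kf s) 1 (S := Set.range s) (by
      rintro _ ⟨i, rfl⟩ _ ⟨j, rfl⟩
      rw [one_mul]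
      exact Submodule.subset_span ⟨i, j, rfl⟩) u hu v hv
    rwa [one_mul] at this
  have hfdet : ∀ u ∈ V, ∀ v ∈ V, f * det2 u v ∈ Rn Kf g β (3 * g) := by
    intro u hu v hv
    exact det2_mem_of_span (Rn Kf g β (3 * g)) f (S := Set.range s) (by
      rintro _ ⟨i, rfl⟩ _ ⟨j, rfl⟩
      exact hdat.mem i j) u hu v hv
  have hWmem : ∀ u ∈ V, ∀ v ∈ V, θ * det2 u v ∈ W := fun u hu v hv =>
    Submodule.mem_map.mpr ⟨_, hdetV u hu v hv, rfl⟩
  have hdR : ∀ y ∈ detSp Kf s, f * y ∈ Rn Kf g β (3 * g) := by
    intro y hy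
    unfold detSp at hy
    induction hy using Submodule.span_induction with
    | mem y hy =>
      obtain ⟨i, j, rfl⟩ := hy
      exact hdat.mem i j
    | zero => rw [mul_zero]; exact Submodule.zero_mem _
    | add x y _ _ hx hy => rw [mul_add]; exact Submodule.add_mem _ hx hy
    | smul a x _ hx => rw [mul_smul_comm]; exact Submodule.smul_mem _ _ hx
  have hWR : W ≤ Rn Kf g β (6 * g) := by
    intro x hx
    obtain ⟨y, hy, rfl⟩ := Submodule.mem_map.mp hx
    have h1 := hdR y hy
    have h2 := Submodule.mul_mem_mul (hfdet _ (heV 0) _ (htV j0)) h1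
    have h3 := hRnmul (3 * g) (3 * g) h2
    have h4 : 3 * g + 3 * g = 6 * g := by ring
    rw [h4] at h3
    have h5 : LinearMap.mulLeft Kf θ y = f * det2 (e 0) (t j0) * (f * y) := by
      rw [LinearMap.mulLeft_apply, hθ]; ring
    rw [h5]; exact h3
  have hfin : FiniteDimensional Kf (detSp Kf s) := by
    have : {x : Lf | ∃ i j, x = det2 (s i) (s j)}
        = Set.range (fun p : Fin k × Fin k => det2 (s p.1) (s p.2)) := by
      ext x
      constructor
      · rintro ⟨i, j, rfl⟩; exact ⟨(i, j), rfl⟩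
      · rintro ⟨p, rfl⟩; exact ⟨p.1, p.2, rfl⟩
    unfold detSp
    rw [this]
    exact FiniteDimensional.span_of_finite Kf (Set.finite_range _)
  have hWrank : Module.finrank Kf W ≤ g - 1 :=
    le_trans (Submodule.finrank_map_le _ _) hdat.dc
  obtain ⟨hrk, hfd, _, _, _, _⟩ := hR1D Kf Lf κ g O red β F βF hg1 inferInstance hctx (6 * g) W hWR
  set Z := red1 O red β βF W with hZ
  have hZmem : ∀ x p, x ∈ W → Red O red β βF x p → p ∈ Z := fun x p hx hp =>
    Submodule.subset_span ⟨x, hx, hp⟩
  -- products `n(e i) ω(t j)`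
  have hprod : ∀ i j, f * det2 (e i) (t j0) * (f * det2 (e 0) (t j)) ∈ W := by
    intro i j
    have h0 : det2 (e 0) (e i) = 0 := by
      fin_cases i
      · show det2 (e 0) (e 0) = 0
        simp only [det2]; ring
      · exact hadp.par
    have h1 : f * det2 (e i) (t j0) * (f * det2 (e 0) (t j)) = θ * det2 (e i) (t j) := by
      have h2 : det2 (e i) (t j0) * det2 (e 0) (t j) - det2 (e 0) (t j0) * det2 (e i) (t j)
          = det2 (e 0) (e i) * det2 (t j) (t j0) := by
        simp only [det2]; ring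
      rw [h0, zero_mul] at h2
      rw [hθ]
      linear_combination f ^ 2 * h2
    rw [h1]
    exact hWmem _ (heV i) _ (htV j)
  have hτ : ∀ x ∈ Nsp Kf f e t j0, ∀ j, x * (f * det2 (e 0) (t j)) ∈ W := by
    intro x hx j
    unfold Nsp at hx
    induction hx using Submodule.span_induction with
    | mem x hx => obtain ⟨i, rfl⟩ := hx; exact hprod i j
    | zero => rw [zero_mul]; exact W.zero_mem
    | add x y _ _ hx hy => rw [add_mul]; exact W.add_mem hx hy
    | smul r x _ hx => rw [smul_mul_assoc]; exact W.smul_mem _ hx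
  have hab : ∀ i j, γN * γP * (a i * b j) ∈ Z := by
    intro i j
    have h1 := hRmul _ _ _ _ (hadp.redN i) (hadp.redP j)
    have h2 : γN * γP * (a i * b j) = γN * a i * (γP * b j) := by ring
    rw [h2]
    exact hZmem _ _ (hprod i j) h1
  have hqZ : ∀ i j, q i j ∈ Z := by
    intro i j
    refine hZmem _ _ ?_ (hext.redq i j)
    have h1 : f * det2 (e 0) (t j) * (f * det2 (t i) (t j0))
        - f * det2 (e 0) (t i) * (f * det2 (t j) (t j0)) = θ * det2 (t i) (t j) := by
      rw [hθ]; simp only [det2]; ring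
    have h2 : f * det2 (e 0) (t j) * (c • (f * det2 (t i) (t j0)) + τ i)
        - f * det2 (e 0) (t i) * (c • (f * det2 (t j) (t j0)) + τ j)
        = c • (θ * det2 (t i) (t j)) + (τ i * (f * det2 (e 0) (t j))
          - τ j * (f * det2 (e 0) (t i))) := by
      rw [← h1]
      simp only [Algebra.smul_def]
      ring
    rw [h2]
    exact W.add_mem (W.smul_mem _ (hWmem _ (htV i) _ (htV j)))
      (W.sub_mem (hτ _ (hext.τN i) j) (hτ _ (hext.τN j) i))
  obtain ⟨f1, f2, l, ν, b0, hPN, hLam, hP, hf, hb0, hν⟩ := hout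
  set γ := γN * γP with hγ
  have hγ0 : γ ≠ 0 := mul_ne_zero hadp.γN0 hadp.γP0
  have hbj0 : b j0 ≠ 0 := by
    intro h
    have h1 := hadp.w0d
    have h2 := hadp.sgb
    rw [h, natDegree_zero] at h1
    omega
  have hbP : ∀ j, b j ∈ Submodule.span κ (Set.range b) := fun j => Submodule.subset_span ⟨j, rfl⟩
  have hqeq : ∀ i j, q i j = γ * (b j * ν (b i) - b i * ν (b j)) := by
    intro i j
    have h1 := hext.cyc i j
    rw [(hν _ (hbP i)).2.1, (hν _ (hbP j)).2.1] at h1
    have h2 : b j0 * q i j = b j0 * (γ * (b j * ν (b i) - b i * ν (b j))) := by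
      rw [h1]; ring
    exact mul_left_cancel₀ hbj0 h2
  -- bilinear extension
  have hZ1 : ∀ x ∈ Submodule.span κ (Set.range a), ∀ y ∈ Submodule.span κ (Set.range b),
      γ * (x * y) ∈ Z := by
    intro x hx y hy
    induction hx using Submodule.span_induction with
    | mem x hx =>
      obtain ⟨i, rfl⟩ := hx
      induction hy using Submodule.span_induction with
      | mem y hy => obtain ⟨j, rfl⟩ := hy; exact hab i j
      | zero => rw [mul_zero, mul_zero]; exact Z.zero_mem
      | add x y _ _ hx hy => rw [mul_add, mul_add]; exact Z.add_mem hx hy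
      | smul r x _ hx => rw [mul_smul_comm, mul_smul_comm]; exact Z.smul_mem _ hx
    | zero => rw [zero_mul, mul_zero]; exact Z.zero_mem
    | add x y _ _ hx hy => rw [add_mul, mul_add]; exact Z.add_mem hx hy
    | smul r x _ hx => rw [smul_mul_assoc, mul_smul_comm]; exact Z.smul_mem _ hx
  have hZ2 : ∀ x ∈ Submodule.span κ (Set.range b), ∀ y ∈ Submodule.span κ (Set.range b),
      γ * (y * ν x - x * ν y) ∈ Z := by
    intro x hx y hy
    induction hx using Submodule.span_induction with
    | mem x hx =>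
      obtain ⟨i, rfl⟩ := hx
      induction hy using Submodule.span_induction with
      | mem y hy => obtain ⟨j, rfl⟩ := hy; rw [← hqeq i j]; exact hqZ i j
      | zero => simp
      | add x y _ _ hx hy =>
        have : γ * ((x + y) * ν (b i) - b i * ν (x + y))
            = γ * (x * ν (b i) - b i * ν x) + γ * (y * ν (b i) - b i * ν y) := by
          rw [map_add]; ring
        rw [this]; exact Z.add_mem hx hy
      | smul r x _ hx =>
        have : γ * ((r • x) * ν (b i) - b i * ν (r • x))
            = r • (γ * (x * ν (b i) - b i * ν x)) := by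
          rw [map_smul]; simp only [smul_eq_C_mul]; ring
        rw [this]; exact Z.smul_mem _ hx
    | zero => simp
    | add x z _ _ hx hz =>
      have : γ * (y * ν (x + z) - (x + z) * ν y)
          = γ * (y * ν x - x * ν y) + γ * (y * ν z - z * ν y) := by
        rw [map_add]; ring
      rw [this]; exact Z.add_mem hx hz
    | smul r x _ hx =>
      have : γ * (y * ν (r • x) - (r • x) * ν y)
          = r • (γ * (y * ν x - x * ν y)) := by
        rw [map_smul]; simp only [smul_eq_C_mul]; ring
      rw [this]; exact Z.smul_mem _ hx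
  rw [hP] at hZ1 hZ2 hν
  rw [hLam] at hZ1
  have h1 : f1 ∈ Submodule.span κ ({f1, f2} : Set κ[X]) := Submodule.subset_span (by simp)
  have h2 : f2 ∈ Submodule.span κ ({f1, f2} : Set κ[X]) := Submodule.subset_span (by simp)
  have hfinal := hDI1 κ F f1 f2 l γ ν b0 k Z hk hctx.ff hPN hb0 hγ0 hf
    (fun ω hω => ⟨(hν ω hω).1, (hν ω hω).2.2⟩) hfd
    (fun ω hω => ⟨hZ1 f1 h1 ω hω, hZ1 f2 h2 ω hω⟩)
    (fun ω hω ω' hω' => hZ2 ω hω ω' hω')
  rw [hrk] at hfinal
  omega

end Pool.Agent.RTB
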