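import Pool.Agent.RTB.KStmts

/-!
# Rank-two bundles, module FI2: outcome II is impossible
-/

namespace Pool.Agent.RTB

open Polynomial

theorem fi2_proof (hBCH : Stmt_BCH) (hCON : Stmt_CON) : Stmt_FI2 := by
  intro Kf Lf κ _ _ _ _ _ _ k O red β F βF hk hctx s f hDat e t j0 γN γP a b n0 hAdp
    N c τ q wh hExt hOut
  obtain ⟨a', A, f1, f2, Γ, σ, θ, hFA, h1, h2, hw, hΓ, hθ, hσ, hred⟩ :=
    hBCH Kf Lf κ k O red β F βF hk hctx s f hDat e t j0 γN γP a b n0 hAdp N c τ q wh hExt hOut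
  exact hCON Kf Lf κ k O red β F βF hk hctx s f hDat ⟨n0, hAdp.eqV⟩ a' A f1 f2 Γ σ θ
    (6 * (2 * k - 3)) hFA h1 h2 hw hΓ hθ hσ hred

end Pool.Agent.RTB
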