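import Pool.Agent.RTB.SStmts

/-!
# squad RTB, module GCD: removing the gcd
-/

set_option autoImplicit false

open Polynomial

namespace Pool.Agent.RTB

theorem gcd_proof : Stmt_GCD := by
  intro L _ _ U _ hU
  obtain ⟨γ, hγ⟩ := (IsPrincipalIdealRing.principal (Ideal.span (U : Set L[X])))
  have hdvd : ∀ u ∈ U, ∃ p : L[X], u = γ * p := by
    intro u hu
    have h1 : u ∈ Ideal.span (U : Set L[X]) := Ideal.subset_span hu
    rw [hγ] at h1
    obtain ⟨a, ha⟩ := Submodule.mem_span_singleton.mp h1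
    exact ⟨a, by rw [← ha, smul_eq_mul, mul_comm]⟩
  have hγ0 : γ ≠ 0 := by
    rintro rfl
    apply hU
    rw [Submodule.eq_bot_iff]
    intro u hu
    obtain ⟨p, hp⟩ := hdvd u hu
    rw [hp, zero_mul]
  have hγI : γ ∈ Ideal.span (U : Set L[X]) := by
    rw [hγ]
    exact Submodule.mem_span_singleton_self γ
  refine ⟨γ, U.comap (LinearMap.mulLeft L γ), hγ0, ?_, ?_⟩
  · intro c
    by_contra hcon
    push Not at hcon
    have hJ : ∀ x ∈ Ideal.span (U : Set L[X]), ∃ j : L[X], j.eval c = 0 ∧ x = γ * j := by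
      intro x hx
      refine Submodule.span_induction ?_ ?_ ?_ ?_ hx
      · intro u hu
        obtain ⟨p, hp⟩ := hdvd u hu
        refine ⟨p, hcon p ?_, hp⟩
        rw [Submodule.mem_comap, LinearMap.mulLeft_apply, ← hp]
        exact hu
      · exact ⟨0, eval_zero, by rw [mul_zero]⟩
      · rintro x y - - ⟨j, hj, rfl⟩ ⟨j', hj', rfl⟩
        exact ⟨j + j', by rw [eval_add, hj, hj', add_zero], by ring⟩
      · rintro a x - ⟨j, hj, rfl⟩
        exact ⟨a * j, by rw [eval_mul, hj, mul_zero], by rw [smul_eq_mul]; ring⟩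
    obtain ⟨j, hj, hj2⟩ := hJ γ hγI
    have h1 : j = 1 := by
      apply mul_left_cancel₀ hγ0
      rw [← hj2, mul_one]
    rw [h1, eval_one] at hj
    exact one_ne_zero hj
  · ext u
    rw [Submodule.mem_map]
    constructor
    · intro hu
      obtain ⟨p, hp⟩ := hdvd u hu
      refine ⟨p, ?_, by rw [LinearMap.mulLeft_apply, hp]⟩
      rw [Submodule.mem_comap, LinearMap.mulLeft_apply, ← hp]
      exact hu
    · rintro ⟨p, hp, rfl⟩
      exact hp

end Pool.Agent.RTB
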