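import Pool.Agent.RTB.GStmts

/-!
# squad RTB, module GCK: the function field inside the field of Laurent series
-/

set_option autoImplicit false

open Polynomial

namespace Pool.Agent.RTB

namespace GCK_

theorem algMap (z : ℂ) : algebraMap ℂ (LS ℂ) z = HahnSeries.C z := by
  rw [HahnSeries.algebraMap_apply']
  exact HahnSeries.ofPowerSeries_C z

end GCK_

open GCK_ in
theorem gck_proof : Stmt_GCK := by
  intro g R hgap hatt hint
  have hcoe : ∀ x : IntermediateField.adjoin ℂ (R : Set (LS ℂ)), x ≠ 0 → (x : LS ℂ) ≠ 0 := by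
    intro x hx h
    exact hx (Subtype.ext h)
  refine ⟨?_, ?_, ?_, ?_, ?_, ?_, ?_, ?_⟩
  · intro x y hx hy
    show -((x : LS ℂ) * (y : LS ℂ)).order = _
    rw [HahnSeries.order_mul (hcoe x hx) (hcoe y hy)]
    ring
  · intro x y hx hy hxy
    show -((x : LS ℂ) + (y : LS ℂ)).order ≤ _
    have h := HahnSeries.min_order_le_order_add (x := (x : LS ℂ)) (y := (y : LS ℂ))
      (hcoe _ hxy)
    rcases min_le_iff.1 h with h1 | h1
    · exact le_max_of_le_left (by omega)
    · exact le_max_of_le_right (by omega)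
  · intro z _
    show -(algebraMap ℂ (LS ℂ) z).order = 0
    rw [algMap, HahnSeries.order_C, neg_zero]
  · intro x y hx hy hxy
    have hxy' : (x : LS ℂ).order = (y : LS ℂ).order := by
      have : -(x : LS ℂ).order = -(y : LS ℂ).order := hxy
      omega
    refine ⟨(x : LS ℂ).coeff (x : LS ℂ).order / (y : LS ℂ).coeff (y : LS ℂ).order, ?_⟩
    set z := (x : LS ℂ).coeff (x : LS ℂ).order / (y : LS ℂ).coeff (y : LS ℂ).order with hz
    by_cases h : x - z • y = 0
    · left
      exact sub_eq_zero.1 h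
    right
    have hy0 : (y : LS ℂ).coeff (y : LS ℂ).order ≠ 0 :=
      HahnSeries.coeff_order_eq_zero.not.2 (hcoe y hy)
    have hsub : ((x - z • y : IntermediateField.adjoin ℂ (R : Set (LS ℂ))) : LS ℂ)
        = (x : LS ℂ) - HahnSeries.C z * (y : LS ℂ) := by
      rw [Algebra.smul_def]
      show (x : LS ℂ) - algebraMap ℂ (LS ℂ) z * (y : LS ℂ) = _
      rw [algMap]
    have hd : Ld ((x - z • y : IntermediateField.adjoin ℂ (R : Set (LS ℂ))) : LS ℂ)
        (x : LS ℂ).order 0 := by
      rw [hsub]
      constructor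
      · intro k hk
        rw [HahnSeries.coeff_sub, HahnSeries.C_mul_eq_smul, HahnSeries.coeff_smul, (Ld_order (x : LS ℂ)).1 k hk,
          (Ld_order (y : LS ℂ)).1 k (by rw [← hxy']; exact hk)]
        simp
      · rw [HahnSeries.coeff_sub, HahnSeries.C_mul_eq_smul, HahnSeries.coeff_smul, hz, smul_eq_mul]
        rw [hxy'] at *
        field_simp
        ring
    show -((x - z • y : IntermediateField.adjoin ℂ (R : Set (LS ℂ))) : LS ℂ).order
      < -(x : LS ℂ).order
    have h1 := hcoe _ h
    have h2 : (x : LS ℂ).order < 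
        ((x - z • y : IntermediateField.adjoin ℂ (R : Set (LS ℂ))) : LS ℂ).order := by
      by_contra hlt
      rcases lt_or_eq_of_le (not_lt.1 hlt) with h3 | h3
      · exact HahnSeries.coeff_order_eq_zero.not.2 h1 (hd.1 _ h3)
      · apply HahnSeries.coeff_order_eq_zero.not.2 h1
        rw [h3]
        exact hd.2
    omega
  · intro x hxR hx
    rcases hgap (x : LS ℂ) hxR (hcoe x hx) with h | h
    · left
      show -(x : LS ℂ).order = 0
      omega
    · right
      show (g : ℤ) + 1 ≤ -(x : LS ℂ).order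
      omega
  · intro n hn
    obtain ⟨x, hx, hx0, hxo⟩ := hatt n hn
    refine ⟨⟨x, IntermediateField.subset_adjoin ℂ _ hx⟩, hx, ?_, ?_⟩
    · intro h
      exact hx0 (congrArg Subtype.val h)
    · show -x.order = n
      omega
  · intro x
    obtain ⟨a, ha, b, hb, hab⟩ := IntermediateField.mem_adjoin_iff_div.1 x.2
    rw [Algebra.adjoin_eq] at ha hb
    by_cases hb0 : b = 0
    · refine ⟨0, Subalgebra.zero_mem _, 1, Subalgebra.one_mem _, one_ne_zero, ?_⟩
      apply Subtype.ext
      rw [hab, hb0]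
      simp
    · refine ⟨⟨a, IntermediateField.subset_adjoin ℂ _ ha⟩, ha,
        ⟨b, IntermediateField.subset_adjoin ℂ _ hb⟩, hb, ?_, ?_⟩
      · intro h
        exact hb0 (congrArg Subtype.val h)
      · apply Subtype.ext
        rw [hab]
        rfl
  · intro x hx
    obtain ⟨a, ha, b, hb, hab⟩ := IntermediateField.mem_adjoin_iff_div.1 x.2
    rw [Algebra.adjoin_eq] at ha hb
    show (x : LS ℂ) ∈ R
    by_cases hb0 : b = 0
    · rw [hab, hb0, div_zero]; exact R.zero_mem
    apply hint (x : LS ℂ) a b ha hb hb0 hab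
    obtain ⟨p, hp, hpx⟩ := hx
    let ψ : (R.comap (IntermediateField.adjoin ℂ (R : Set (LS ℂ))).val) →+* R :=
      { toFun := fun a => ⟨(a.1 : LS ℂ), a.2⟩
        map_one' := rfl
        map_mul' := fun _ _ => rfl
        map_zero' := rfl
        map_add' := fun _ _ => rfl }
    refine ⟨p.map ψ, hp.map ψ, ?_⟩
    rw [eval₂_map]
    have h1 := congrArg (IntermediateField.adjoin ℂ (R : Set (LS ℂ))).val hpx
    rw [map_zero] at h1
    rw [← h1]
    exact (Polynomial.hom_eval₂ p
      (algebraMap (R.comap (IntermediateField.adjoin ℂ (R : Set (LS ℂ))).val)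
        (IntermediateField.adjoin ℂ (R : Set (LS ℂ))))
      (IntermediateField.adjoin ℂ (R : Set (LS ℂ))).val.toRingHom x).symm

end Pool.Agent.RTB
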