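import Pool.Agent.RTB.GStmts

set_option autoImplicit false

open Polynomial

namespace Pool.Agent.RTB

namespace GDV_

theorem coprime_of_eval {a : ℂ} {p : ℂ[X]} (h : p.eval a ≠ 0) (n : ℕ) :
    IsCoprime ((X - C a) ^ n) p := by
  apply IsCoprime.pow_left
  rw [Irreducible.coprime_iff_not_dvd (irreducible_X_sub_C a), dvd_iff_isRoot]
  exact h

end GDV_

open GDV_ in
theorem gdv_proof : Stmt_GDV := by
  intro g D i P Q hi hev hU hUm
  have hgg : g ≤ g ^ 2 := by nlinarith [D.g3]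
  have hUneg : (X - C ((g : ℂ) ^ 2)) ^ (g ^ 2) ∣ (-D.U) ^ 2 - X ^ 3 - C D.b := by
    rw [neg_sq]; exact D.hU
  have hg0 := pow_dvd_pow (X - C ((g : ℂ) ^ 2)) hgg
  -- the product with the conjugate
  obtain ⟨A, hA⟩ : ∃ A, A = (pm D.b (P, Q) (D.px, -D.qx)).1 := ⟨_, rfl⟩
  obtain ⟨B, hB⟩ : ∃ B, B = (pm D.b (P, Q) (D.px, -D.qx)).2 := ⟨_, rfl⟩
  have h1 : (X - C ((g : ℂ) ^ 2)) ^ g ∣ A + B * D.U := by
    have e := dvd_trans hg0 (pm_U D.hU (P, Q) (D.px, -D.qx))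
    rw [← hA, ← hB] at e
    have e2 : (X - C ((g : ℂ) ^ 2)) ^ g ∣ (P + Q * D.U) * (D.px + -D.qx * D.U) :=
      Dvd.dvd.mul_right hU _
    have e3 := dvd_add e e2
    rwa [sub_add_cancel] at e3
  have h2 : (X - C ((g : ℂ) ^ 2)) ^ g ∣ A + B * (-D.U) := by
    have e := dvd_trans hg0 (pm_U hUneg (P, Q) (D.px, -D.qx))
    rw [← hA, ← hB] at e
    have e2 : (X - C ((g : ℂ) ^ 2)) ^ g ∣ (P + Q * (-D.U)) * (D.px + -D.qx * (-D.U)) := by
      apply Dvd.dvd.mul_left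
      have : D.px + -D.qx * (-D.U) = D.px + D.qx * D.U := by ring
      rw [this]
      exact D.hx
    have e3 := dvd_add e e2
    rwa [sub_add_cancel] at e3
  have hu2 : IsUnit (2 : ℂ[X]) := by
    have : (2 : ℂ[X]) = C 2 := rfl
    rw [this]
    exact (IsUnit.mk0 (2 : ℂ) two_ne_zero).map C
  have hdA : (X - C ((g : ℂ) ^ 2)) ^ g ∣ A := by
    have e := dvd_add h1 h2
    have e2 : A + B * D.U + (A + B * (-D.U)) = 2 * A := by ring
    rw [e2, hu2.dvd_mul_left] at e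
    exact e
  have hdB : (X - C ((g : ℂ) ^ 2)) ^ g ∣ B := by
    have e := dvd_sub h1 hdA
    rw [add_sub_cancel_left] at e
    exact (coprime_of_eval D.Ua g).dvd_of_dvd_mul_right e
  -- evaluation at the points
  have e1 : A.eval D.x1 + B.eval D.x1 * D.y1 = 0 := by
    have e := eval_pm D.hy1 (P, Q) (D.px, -D.qx)
    rw [← hA, ← hB] at e
    rw [e]
    show (P.eval D.x1 + Q.eval D.x1 * D.y1) * _ = 0
    rw [hev, zero_mul]
  have e2 : A.eval D.x1 + B.eval D.x1 * (-D.y1) = 0 := by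
    have hy : (-D.y1) ^ 2 = D.x1 ^ 3 + D.b := by rw [neg_sq]; exact D.hy1
    have e := eval_pm hy (P, Q) (D.px, -D.qx)
    rw [← hA, ← hB] at e
    rw [e]
    show _ * (D.px.eval D.x1 + (-D.qx).eval D.x1 * (-D.y1)) = 0
    rw [eval_neg]
    have : D.px.eval D.x1 + -D.qx.eval D.x1 * (-D.y1) = 0 := by
      rw [← D.hx1]; ring
    rw [this, mul_zero]
  have e3 : A.eval D.x1 = 0 := by linear_combination (e1 + e2) / 2
  have e4 : B.eval D.x1 = 0 := by
    have : B.eval D.x1 * D.y1 = 0 := by linear_combination (e1 - e2) / 2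
    exact (mul_eq_zero.1 this).resolve_right D.y10
  have hcop : IsCoprime ((X - C ((g : ℂ) ^ 2)) ^ g) (X - C D.x1) := by
    apply coprime_of_eval
    rw [eval_sub, eval_X, eval_C, sub_ne_zero]
    exact D.x1a.symm
  obtain ⟨p, hp⟩ := hcop.mul_dvd hdA (dvd_iff_isRoot.2 e3)
  obtain ⟨q, hq⟩ := hcop.mul_dvd hdB (dvd_iff_isRoot.2 e4)
  rw [← D.hN] at hp hq
  have hn : D.px ^ 2 - D.qx ^ 2 * (X ^ 3 + C D.b) ≠ 0 := by
    rw [D.hN]
    exact mul_ne_zero (pow_ne_zero _ (X_sub_C_ne_zero _)) (X_sub_C_ne_zero _)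
  have hP : P = D.px * p + D.qx * q * (X ^ 3 + C D.b) := by
    apply mul_left_cancel₀ hn
    have e : A * D.px + B * D.qx * (X ^ 3 + C D.b) =
        (D.px ^ 2 - D.qx ^ 2 * (X ^ 3 + C D.b)) * P := by
      rw [hA, hB]; simp only [pm]; ring
    rw [← e, hp, hq]; ring
  have hQ : Q = D.px * q + D.qx * p := by
    apply mul_left_cancel₀ hn
    have e : A * D.qx + B * D.px = (D.px ^ 2 - D.qx ^ 2 * (X ^ 3 + C D.b)) * Q := by
      rw [hA, hB]; simp only [pm]; ring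
    rw [← e, hp, hq]; ring
  have hPQ : (P, Q) = pm D.b (D.px, D.qx) (p, q) := by
    rw [pm]
    exact Prod.ext hP hQ
  refine ⟨p, q, ?_, hPQ⟩
  have e := dvd_trans (pow_dvd_pow (X - C ((g : ℂ) ^ 2)) hi) (pm_U hUneg (D.px, D.qx) (p, q))
  rw [← hPQ] at e
  have f1 : (X - C ((g : ℂ) ^ 2)) ^ i ∣ P + Q * (-D.U) := hUm
  have f2 := dvd_sub f1 e
  rw [sub_sub_cancel] at f2
  have hc : IsCoprime ((X - C ((g : ℂ) ^ 2)) ^ i) (D.px + D.qx * (-D.U)) := by
    apply coprime_of_eval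
    rw [eval_add, eval_mul, eval_neg]
    have := D.hpa
    intro h
    apply this
    rw [← h]; ring
  exact hc.dvd_of_dvd_mul_left f2

end Pool.Agent.RTB
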