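import Pool.Agent.RTB.GStmts

set_option autoImplicit false

open Polynomial

namespace Pool.Agent.RTB

namespace GEI_

theorem zpow_one_of {ζ : ℂ} {g : ℕ} (h : ζ ^ g = 1) (k : ℤ) : ζ ^ (k * (g : ℤ)) = 1 := by
  rw [mul_comm, zpow_mul, zpow_natCast, h, one_zpow]

theorem theta_X0 (g : ℕ) (ζ : ℂ) (hζ : ζ ≠ 0) (h : ζ ^ g = 1) :
    theta ζ hζ (X0 g ℂ) = X0 g ℂ := by
  rw [X0, theta_single]
  have : -(2 * (g : ℤ)) = (-2) * (g : ℤ) := by ring
  rw [this, zpow_one_of h, mul_one]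

theorem theta_evX (g : ℕ) (ζ : ℂ) (hζ : ζ ≠ 0) (h : ζ ^ g = 1) :
    (theta ζ hζ).comp (evX g) = (evX g : ℂ[X] →+* LS ℂ) := by
  apply Polynomial.ringHom_ext
  · intro a
    rw [RingHom.comp_apply, evX_C, theta_C]
  · rw [RingHom.comp_apply, evX_X, theta_X0 g ζ hζ h]

theorem theta_Y {g : ℕ} (D : GD g) (ζ : ℂ) (hζ : ζ ≠ 0) (h : ζ ^ g = 1) :
    theta ζ hζ D.Y = D.Y := by
  have hl := D.Yl.theta ζ hζ
  have e : ζ ^ (-(3 * (g : ℤ))) * 1 = 1 := by
    have : -(3 * (g : ℤ)) = (-3) * (g : ℤ) := by ring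
    rw [this, zpow_one_of h, mul_one]
  rw [e] at hl
  refine Ld.root_unique (n := 2) (by norm_num) (by norm_num) hl D.Yl one_ne_zero ?_
  rw [← map_pow, D.hY, map_add, map_pow, theta_X0 g ζ hζ h, theta_C]

theorem theta_ev {g : ℕ} (D : GD g) (ζ : ℂ) (hζ : ζ ≠ 0) (h : ζ ^ g = 1) (p q : ℂ[X]) :
    theta ζ hζ (ev g D.Y p q) = ev g D.Y p q := by
  have h1 : ∀ r : ℂ[X], theta ζ hζ (evX g r) = evX g r := fun r =>
    congrArg (fun f : ℂ[X] →+* LS ℂ => f r) (theta_evX g ζ hζ h)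
  rw [ev, map_add, map_mul, h1, h1, theta_Y D ζ hζ h]

theorem X0_sub_ne {g : ℕ} (hg : 0 < g) (c : ℂ) : X0 g ℂ - HahnSeries.C c ≠ 0 := by
  intro h
  have h1 := congrArg (fun x : LS ℂ => x.coeff (-(2 * (g : ℤ)))) h
  simp only [HahnSeries.coeff_sub, X0, HahnSeries.coeff_single_same, HahnSeries.coeff_zero] at h1
  have h2 : (HahnSeries.C c : LS ℂ).coeff (-(2 * (g : ℤ))) = 0 := by
    apply HahnSeries.coeff_single_of_ne
    have : (0 : ℤ) < g := by exact_mod_cast hg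
    omega
  rw [h2, sub_zero] at h1
  exact one_ne_zero h1

theorem theta_w {g : ℕ} (D : GD g) (ζ : ℂ) (hζ : ζ ≠ 0) (h : ζ ^ g = 1) :
    theta ζ hζ D.w = HahnSeries.C (ζ ^ (g - 1)) * D.w := by
  have hg : 0 < g := by have := D.g3; omega
  have hl := D.wl.theta ζ hζ
  have e : ζ ^ ((g : ℤ) - 1) * 1 = ζ ^ (g - 1) := by
    rw [mul_one, ← zpow_natCast]
    congr 1
    have : ((g - 1 : ℕ) : ℤ) = (g : ℤ) - 1 := by
      rw [Nat.cast_sub hg]; simp
    rw [this]
  rw [e] at hl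
  have hl2 := (Ld_C (ζ ^ (g - 1))).mul D.wl
  rw [mul_one, zero_add] at hl2
  refine Ld.root_unique (n := g) hg (by exact_mod_cast hg.ne') hl hl2 (pow_ne_zero _ hζ) ?_
  have h1 := congrArg (theta ζ hζ) D.hw
  rw [map_mul, map_pow, map_pow, map_sub, theta_X0 g ζ hζ h, theta_C, theta_ev D ζ hζ h,
    ← D.hw] at h1
  have h2 := mul_right_cancel₀ (pow_ne_zero g (X0_sub_ne hg ((g : ℂ) ^ 2))) h1
  rw [h2, mul_pow, ← map_pow, ← pow_mul, mul_comm (g - 1) g, pow_mul, h, one_pow, map_one, one_mul]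

theorem integral_theta (g : ℕ) (ζ : ℂ) (hζ : ζ ≠ 0) (h : ζ ^ g = 1) {x : LS ℂ}
    (hx : (evX g : ℂ[X] →+* LS ℂ).IsIntegralElem x) :
    (evX g : ℂ[X] →+* LS ℂ).IsIntegralElem (theta ζ hζ x) := by
  obtain ⟨p, hp, hpx⟩ := hx
  refine ⟨p, hp, ?_⟩
  have h1 := Polynomial.hom_eval₂ p (evX g : ℂ[X] →+* LS ℂ) (theta ζ hζ) x
  rw [hpx, map_zero, theta_evX g ζ hζ h] at h1
  exact h1.symm

theorem integral_sum (g : ℕ) {ι : Type} (s : Finset ι) (f : ι → LS ℂ)
    (hf : ∀ i ∈ s, (evX g : ℂ[X] →+* LS ℂ).IsIntegralElem (f i)) :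
    (evX g : ℂ[X] →+* LS ℂ).IsIntegralElem (∑ i ∈ s, f i) := by
  classical
  induction s using Finset.induction_on with
  | empty =>
    rw [Finset.sum_empty]
    exact RingHom.isIntegralElem_zero _
  | insert a s ha ih =>
    rw [Finset.sum_insert ha]
    exact (hf a (Finset.mem_insert_self a s)).add _
      (ih fun i hi => hf i (Finset.mem_insert_of_mem hi))

end GEI_

open GEI_ in
theorem gei_proof : Stmt_GEI := by
  intro g D p q d hd hx j hj
  have hg : 0 < g := by have := D.g3; omega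
  have hg0 : g ≠ 0 := hg.ne'
  set ζ : ℂ := Complex.exp (2 * Real.pi * Complex.I / g) with hζdef
  have hprim : IsPrimitiveRoot ζ g := Complex.isPrimitiveRoot_exp g hg0
  have hζ0 : ζ ≠ 0 := hprim.ne_zero hg0
  have hk1 : ∀ k : ℕ, (ζ ^ k) ^ g = 1 := by
    intro k
    rw [← pow_mul, mul_comm, pow_mul, hprim.pow_eq_one, one_pow]
  set x := (∑ i ∈ Finset.range g, ev g D.Y (p i) (q i) * D.w ^ i) / evX g d with hxdef
  -- action of theta
  have hth : ∀ k : ℕ, theta (ζ ^ k) (pow_ne_zero k hζ0) x =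
      ∑ i ∈ Finset.range g, HahnSeries.C ((ζ ^ k) ^ ((g - 1) * i)) *
        (ev g D.Y (p i) (q i) * D.w ^ i / evX g d) := by
    intro k
    have h1 : theta (ζ ^ k) (pow_ne_zero k hζ0) (evX g d) = evX g d :=
      congrArg (fun f : ℂ[X] →+* LS ℂ => f d) (theta_evX g _ (pow_ne_zero k hζ0) (hk1 k))
    rw [hxdef, map_div₀, h1, map_sum, Finset.sum_div]
    apply Finset.sum_congr rfl
    intro i _
    rw [map_mul, map_pow, theta_ev D _ _ (hk1 k), theta_w D _ _ (hk1 k), mul_pow, ← map_pow,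
      ← pow_mul, mul_div_assoc, mul_div_assoc, mul_div_assoc]
    ring
  -- orthogonality
  have horth : ∀ i ∈ Finset.range g, ∑ k ∈ Finset.range g, ζ ^ (j * k) * (ζ ^ k) ^ ((g - 1) * i) =
      if i = j then (g : ℂ) else 0 := by
    intro i hi
    have hi' := Finset.mem_range.1 hi
    have e1 : ∀ k ∈ Finset.range g, ζ ^ (j * k) * (ζ ^ k) ^ ((g - 1) * i) =
        (ζ ^ (j + (g - 1) * i)) ^ k := by
      intro k _
      rw [← pow_mul, ← pow_add, ← pow_mul]
      congr 1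
      ring
    rw [Finset.sum_congr rfl e1]
    by_cases hij : i = j
    · rw [if_pos hij, hij]
      have e2 : ζ ^ (j + (g - 1) * j) = 1 := by
        have : j + (g - 1) * j = g * j := by
          obtain ⟨m, rfl⟩ := Nat.exists_eq_succ_of_ne_zero hg0
          simp only [Nat.succ_eq_add_one, Nat.add_sub_cancel]
          ring
        rw [this, pow_mul, hprim.pow_eq_one, one_pow]
      rw [e2]
      simp
    · rw [if_neg hij]
      have e3 : ζ ^ (j + (g - 1) * i) ≠ 1 := by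
        intro h1
        rw [hprim.pow_eq_one_iff_dvd] at h1
        apply hij
        have h2 : ((g : ℕ) : ℤ) ∣ ((j : ℤ) - i) := by
          have h3 : ((g : ℕ) : ℤ) ∣ ((j + (g - 1) * i : ℕ) : ℤ) := by exact_mod_cast h1
          have h4 : ((j + (g - 1) * i : ℕ) : ℤ) = ((j : ℤ) - i) + g * i := by
            push_cast [Nat.cast_sub hg]
            ring
          rw [h4] at h3
          exact (dvd_add_left (dvd_mul_right _ _)).1 h3
        have h5 : ((j : ℤ) - i) = 0 := by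
          apply Int.eq_zero_of_abs_lt_dvd h2
          rw [abs_lt]
          constructor <;> omega
        omega
      have e4 : (ζ ^ (j + (g - 1) * i) - 1) * ∑ k ∈ Finset.range g, (ζ ^ (j + (g - 1) * i)) ^ k = 0 := by
        rw [mul_comm, geom_sum_mul, ← pow_mul, mul_comm _ g, pow_mul, hprim.pow_eq_one, one_pow,
          sub_self]
      rcases mul_eq_zero.1 e4 with h | h
      · exact absurd (sub_eq_zero.1 h) e3
      · exact h
  have hsum : ∑ k ∈ Finset.range g, HahnSeries.C (ζ ^ (j * k)) *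
      theta (ζ ^ k) (pow_ne_zero k hζ0) x =
      HahnSeries.C (g : ℂ) * (ev g D.Y (p j) (q j) * D.w ^ j / evX g d) := by
    have e1 : ∀ k ∈ Finset.range g, HahnSeries.C (ζ ^ (j * k)) *
        theta (ζ ^ k) (pow_ne_zero k hζ0) x = ∑ i ∈ Finset.range g,
        HahnSeries.C (ζ ^ (j * k) * (ζ ^ k) ^ ((g - 1) * i)) *
          (ev g D.Y (p i) (q i) * D.w ^ i / evX g d) := by
      intro k _
      rw [hth, Finset.mul_sum]
      apply Finset.sum_congr rfl
      intro i _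
      rw [map_mul, mul_assoc]
    rw [Finset.sum_congr rfl e1, Finset.sum_comm]
    have e2 : ∀ i ∈ Finset.range g, ∑ k ∈ Finset.range g,
        HahnSeries.C (ζ ^ (j * k) * (ζ ^ k) ^ ((g - 1) * i)) *
          (ev g D.Y (p i) (q i) * D.w ^ i / evX g d) =
        if i = j then HahnSeries.C (g : ℂ) * (ev g D.Y (p i) (q i) * D.w ^ i / evX g d) else 0 := by
      intro i hi
      rw [← Finset.sum_mul, ← map_sum, horth i hi]
      split_ifs with h
      · rfl
      · rw [map_zero, zero_mul]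
    rw [Finset.sum_congr rfl e2, Finset.sum_ite_eq' (Finset.range g) j,
      if_pos (Finset.mem_range.2 hj)]
  have hC : ∀ z : ℂ, (evX g : ℂ[X] →+* LS ℂ).IsIntegralElem (HahnSeries.C z) := by
    intro z
    rw [← evX_C g z]
    exact RingHom.isIntegralElem_map _
  have hint : (evX g : ℂ[X] →+* LS ℂ).IsIntegralElem
      (HahnSeries.C (g : ℂ) * (ev g D.Y (p j) (q j) * D.w ^ j / evX g d)) := by
    rw [← hsum]
    apply integral_sum
    intro k _
    exact (hC _).mul _ (integral_theta g _ _ (hk1 k) hx)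
  have hfin := (hC ((g : ℂ)⁻¹)).mul _ hint
  have e : HahnSeries.C ((g : ℂ)⁻¹) * (HahnSeries.C (g : ℂ) *
      (ev g D.Y (p j) (q j) * D.w ^ j / evX g d)) = ev g D.Y (p j) (q j) * D.w ^ j / evX g d := by
    rw [← mul_assoc, ← map_mul, inv_mul_cancel₀ (by exact_mod_cast hg0), map_one, one_mul]
  rw [e] at hfin
  exact hfin

end Pool.Agent.RTB
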