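import Pool.Agent.RTB.GStmts

/-!
# MP_7b271a_ag, squad RTB, part G: module GEN
-/

set_option autoImplicit false

open Polynomial

namespace Pool.Agent.RTB

namespace GEN_

theorem evX_injective (g : ℕ) (hg : 0 < g) : Function.Injective (evX g : ℂ[X] →+* LS ℂ) := by
  rw [injective_iff_map_eq_zero]
  intro p hp
  by_contra h0
  have h1 := Ld_evX g (p := p) (n := p.natDegree) le_rfl hg
  exact h1.ne_zero (by rw [coeff_natDegree]; exact leadingCoeff_ne_zero.2 h0) hp

/-- Lemma A. -/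
theorem lemA (g : ℕ) (hg : 0 < g) (p d : ℂ[X]) (hd : d ≠ 0)
    (h : (evX g : ℂ[X] →+* LS ℂ).IsIntegralElem (evX g p / evX g d)) : d ∣ p := by
  have hinj := evX_injective g hg
  let ι : FractionRing ℂ[X] →+* LS ℂ := IsFractionRing.lift hinj
  have hι : ∀ a : ℂ[X], ι (algebraMap ℂ[X] (FractionRing ℂ[X]) a) = evX g a := fun a =>
    IsFractionRing.lift_algebraMap hinj a
  have hιinj : Function.Injective ι := ι.injective
  let x : FractionRing ℂ[X] := algebraMap ℂ[X] (FractionRing ℂ[X]) p /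
    algebraMap ℂ[X] (FractionRing ℂ[X]) d
  have hx : ι x = evX g p / evX g d := by
    show ι (algebraMap ℂ[X] (FractionRing ℂ[X]) p / algebraMap ℂ[X] (FractionRing ℂ[X]) d) = _
    rw [map_div₀, hι, hι]
  have hint : IsIntegral ℂ[X] x := by
    obtain ⟨f, hf, hf0⟩ := h
    refine ⟨f, hf, ?_⟩
    apply hιinj
    rw [map_zero, Polynomial.hom_eval₂, hx]
    have : ι.comp (algebraMap ℂ[X] (FractionRing ℂ[X])) = evX g := RingHom.ext hι
    rw [this]
    exact hf0
  obtain ⟨y, hy⟩ := (IsIntegrallyClosed.isIntegral_iff (R := ℂ[X])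
    (K := FractionRing ℂ[X])).1 hint
  have hd' : algebraMap ℂ[X] (FractionRing ℂ[X]) d ≠ 0 := by
    intro h0
    exact hd ((FaithfulSMul.algebraMap_injective ℂ[X] (FractionRing ℂ[X]))
      (by rw [h0, map_zero]))
  refine ⟨y, ?_⟩
  apply FaithfulSMul.algebraMap_injective ℂ[X] (FractionRing ℂ[X])
  rw [map_mul, hy]
  show _ = _ * (algebraMap ℂ[X] (FractionRing ℂ[X]) p / algebraMap ℂ[X] (FractionRing ℂ[X]) d)
  rw [mul_div_cancel₀ _ hd']

theorem sqf (b : ℂ) (hb : b ≠ 0) : Squarefree (X ^ 3 + C b : ℂ[X]) := by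
  apply Polynomial.Separable.squarefree
  rw [Polynomial.separable_def]
  refine ⟨C (1 / b), - C (1 / (3 * b)) * X, ?_⟩
  have h1 : derivative (X ^ 3 + C b : ℂ[X]) = C 3 * X ^ 2 := by
    rw [derivative_add, derivative_C, add_zero, derivative_X_pow]
    norm_num
  rw [h1]
  have h2 : (C (1 / b) : ℂ[X]) * C b = 1 := by
    rw [← C_mul, one_div, inv_mul_cancel₀ hb, C_1]
  have h3 : (C (1 / (3 * b)) : ℂ[X]) * C 3 = C (1 / b) := by
    rw [← C_mul]
    congr 1
    field_simp
  calc C (1 / b) * (X ^ 3 + C b) + - C (1 / (3 * b)) * X * (C 3 * X ^ 2)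
      = C (1 / b) * C b + (C (1 / b) - C (1 / (3 * b)) * C 3) * X ^ 3 := by ring
    _ = 1 := by rw [h2, h3]; ring

/-- Lemma B. -/
theorem lemB (s q d : ℂ[X]) (hs : Squarefree s) (hd : d ≠ 0) (h : d ^ 2 ∣ q ^ 2 * s) : d ∣ q := by
  classical
  obtain ⟨d', hd'⟩ := EuclideanDomain.gcd_dvd_left d q
  obtain ⟨q', hq'⟩ := EuclideanDomain.gcd_dvd_right d q
  set h0 := EuclideanDomain.gcd d q with hh0
  have hne : h0 ≠ 0 := by
    intro h1
    rw [h1, zero_mul] at hd'
    exact hd hd'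
  have hcop : IsCoprime d' q' := by
    have hb := EuclideanDomain.gcd_eq_gcd_ab d q
    refine ⟨EuclideanDomain.gcdA d q, EuclideanDomain.gcdB d q, ?_⟩
    apply mul_left_cancel₀ hne
    rw [← hh0] at hb
    calc h0 * (EuclideanDomain.gcdA d q * d' + EuclideanDomain.gcdB d q * q')
        = (h0 * d') * EuclideanDomain.gcdA d q + (h0 * q') * EuclideanDomain.gcdB d q := by ring
      _ = d * EuclideanDomain.gcdA d q + q * EuclideanDomain.gcdB d q := by rw [← hd', ← hq']
      _ = h0 * 1 := by rw [← hb, mul_one]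
  have h1 : d' ^ 2 ∣ q' ^ 2 * s := by
    have h2 : h0 ^ 2 * d' ^ 2 ∣ h0 ^ 2 * (q' ^ 2 * s) := by
      have e1 : h0 ^ 2 * d' ^ 2 = d ^ 2 := by
        calc h0 ^ 2 * d' ^ 2 = (h0 * d') ^ 2 := by ring
          _ = d ^ 2 := by rw [← hd']
      have e2 : h0 ^ 2 * (q' ^ 2 * s) = q ^ 2 * s := by
        calc h0 ^ 2 * (q' ^ 2 * s) = (h0 * q') ^ 2 * s := by ring
          _ = q ^ 2 * s := by rw [← hq']
      rw [e1, e2]
      exact h
    exact (mul_dvd_mul_iff_left (pow_ne_zero 2 hne)).1 h2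
  have h2 : d' ^ 2 ∣ s := (hcop.pow (m := 2) (n := 2)).dvd_of_dvd_mul_left h1
  have h3 : IsUnit d' := hs d' (by rw [← pow_two]; exact h2)
  obtain ⟨u, hu⟩ := h3
  rw [hd', hq', ← hu]
  exact (mul_dvd_mul_iff_left hne).2 (Units.coe_dvd)

end GEN_

theorem gen_proof : Stmt_GEN := by
  intro g D p q d hd hint
  have hg : 0 < g := by have := D.g3; omega
  have hz : (-1 : ℂ) ≠ 0 := by norm_num
  -- the involution
  have hX : theta (-1) hz (X0 g ℂ) = X0 g ℂ := by
    rw [X0, theta_single]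
    congr 1
    rw [mul_one, zpow_neg, zpow_mul]
    norm_num
  have hev : ∀ r : ℂ[X], theta (-1) hz (evX g r) = evX g r := by
    intro r
    have : (theta (-1) hz).comp (evX g) = (evX g : ℂ[X] →+* LS ℂ) := by
      apply Polynomial.ringHom_ext
      · intro a
        rw [RingHom.comp_apply, evX_C, theta_C]
      · rw [RingHom.comp_apply, evX_X, hX]
    exact congrArg (fun h : ℂ[X] →+* LS ℂ => h r) this
  have hY : theta (-1) hz D.Y = - D.Y := by
    have h1 : (theta (-1) hz D.Y) ^ 2 = D.Y ^ 2 := by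
      rw [← map_pow, D.hY, map_add, map_pow, hX, theta_C]
    rcases sq_eq_sq_iff_eq_or_eq_neg.1 h1 with h2 | h2
    · exfalso
      have h3 := (D.Yl.theta (-1) hz).2
      rw [h2, D.Yl.2, mul_one] at h3
      have h4 : Odd (-(3 * (g : ℤ))) := by
        have : Odd (g : ℤ) := by exact_mod_cast D.odd
        exact (Odd.mul (by decide) this).neg
      rw [Odd.neg_one_zpow h4] at h3
      norm_num at h3
    · exact h2
  have hdd : evX g d ≠ (0 : LS ℂ) := fun h0 =>
    hd (GEN_.evX_injective g hg (by rw [h0, map_zero]))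
  -- the conjugate
  have hth : theta (-1) hz (ev g D.Y p q / evX g d) = (evX g p - evX g q * D.Y) / evX g d := by
    rw [map_div₀, ev, map_add, map_mul, hev, hev, hev, hY]
    ring
  have hint2 : (evX g : ℂ[X] →+* LS ℂ).IsIntegralElem
      ((evX g p - evX g q * D.Y) / evX g d) := by
    obtain ⟨f, hf, hf0⟩ := hint
    refine ⟨f, hf, ?_⟩
    have h1 := congrArg (theta (-1) hz) hf0
    rw [map_zero, Polynomial.hom_eval₂, hth] at h1
    have : (theta (-1) hz).comp (evX g) = (evX g : ℂ[X] →+* LS ℂ) := RingHom.ext hev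
    rw [this] at h1
    exact h1
  have hhalf : (evX g : ℂ[X] →+* LS ℂ).IsIntegralElem (evX g (C (1 / 2))) :=
    RingHom.isIntegralElem_map _
  have h2half : (2 : LS ℂ) * evX g (C (1 / 2)) = 1 := by
    have : (2 : LS ℂ) = evX g (C 2) := by
      rw [evX_C]
      exact (map_ofNat HahnSeries.C 2).symm
    rw [this, ← map_mul, ← C_mul]
    norm_num
  have hsum : (evX g : ℂ[X] →+* LS ℂ).IsIntegralElem (evX g p / evX g d) := by
    have h1 := (RingHom.IsIntegralElem.add _ hint hint2)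
    have h2 := RingHom.IsIntegralElem.mul _ h1 hhalf
    have h3 : (ev g D.Y p q / evX g d + (evX g p - evX g q * D.Y) / evX g d) *
        evX g (C (1 / 2)) = evX g p / evX g d := by
      rw [ev]
      calc ((evX g p + evX g q * D.Y) / evX g d + (evX g p - evX g q * D.Y) / evX g d) *
          evX g (C (1 / 2)) = (evX g p / evX g d) * (2 * evX g (C (1 / 2))) := by ring
        _ = _ := by rw [h2half, mul_one]
    rw [h3] at h2
    exact h2
  have hdif : (evX g : ℂ[X] →+* LS ℂ).IsIntegralElem (evX g q * D.Y / evX g d) := by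
    have h1 := (RingHom.IsIntegralElem.sub _ hint hint2)
    have h2 := RingHom.IsIntegralElem.mul _ h1 hhalf
    have h3 : (ev g D.Y p q / evX g d - (evX g p - evX g q * D.Y) / evX g d) *
        evX g (C (1 / 2)) = evX g q * D.Y / evX g d := by
      rw [ev]
      calc ((evX g p + evX g q * D.Y) / evX g d - (evX g p - evX g q * D.Y) / evX g d) *
          evX g (C (1 / 2)) = (evX g q * D.Y / evX g d) * (2 * evX g (C (1 / 2))) := by ring
        _ = _ := by rw [h2half, mul_one]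
    rw [h3] at h2
    exact h2
  refine ⟨GEN_.lemA g hg p d hd hsum, ?_⟩
  have hsq := RingHom.IsIntegralElem.mul _ hdif hdif
  have h4 : evX g q * D.Y / evX g d * (evX g q * D.Y / evX g d) =
      evX g (q ^ 2 * (X ^ 3 + C D.b)) / evX g (d ^ 2) := by
    have h5 : evX g (X ^ 3 + C D.b : ℂ[X]) = D.Y ^ 2 := by
      rw [D.hY, map_add, map_pow, evX_X, evX_C]
    rw [map_mul, h5, map_pow, map_pow]
    ring
  rw [h4] at hsq
  have h6 := GEN_.lemA g hg _ _ (pow_ne_zero 2 hd) hsq
  exact GEN_.lemB (X ^ 3 + C D.b) q d (GEN_.sqf D.b D.b0) hd h6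

end Pool.Agent.RTB
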