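import Pool.Agent.RTB.GStmts

/-!
# squad RTB, part G: the field is a function field
-/

set_option autoImplicit false

open Polynomial

namespace Pool.Agent.RTB

theorem gff_proof (hGRK : Stmt_GRK) : Stmt_GFF := by
  intro g K _ _ R v hR
  obtain ⟨f, hf, hf0, hvf⟩ := hR.att (g + 1) le_rfl
  have htr : Transcendental ℂ f := by
    intro halg
    have hirr := minpoly.irreducible halg.isIntegral
    have hdeg := IsAlgClosed.degree_eq_one_of_irreducible ℂ hirr
    obtain ⟨z, hz⟩ := minpoly.mem_range_of_degree_eq_one ℂ f hdeg
    have hz0 : z ≠ 0 := by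
      rintro rfl
      rw [map_zero] at hz
      exact hf0 hz.symm
    have h1 := hR.alg z hz0
    rw [hz, hvf] at h1
    push_cast at h1
    linarith
  refine ⟨f, htr, ?_⟩
  have hrk : Module.rank (IntermediateField.adjoin ℂ {f}) K ≤ ((g + 1 : ℕ) : Cardinal) := by
    refine rank_le fun s hs => ?_
    by_contra hlt
    rw [not_le] at hlt
    obtain ⟨t, hts, htc⟩ := Finset.exists_subset_card_eq (show g + 1 + 1 ≤ s.card by omega)
    let e := (Finset.equivFinOfCardEq htc).symm
    let z : Fin (g + 1 + 1) → K := fun i => (e i : K)
    have hz : LinearIndependent (IntermediateField.adjoin ℂ {f}) z := by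
      have h1 : LinearIndependent (IntermediateField.adjoin ℂ {f})
          ((fun i : s => (i : K)) ∘ fun i : Fin (g + 1 + 1) => (⟨e i, hts (e i).2⟩ : s)) := by
        apply hs.comp
        intro i j hij
        apply e.injective
        apply Subtype.ext
        exact congrArg (fun x : s => (x : K)) hij
      exact h1
    obtain ⟨P, ⟨i0, hi0⟩, hP⟩ := hGRK g K R v hR f (g + 1) hf hf0 hvf (Nat.succ_pos g) z
    rw [Fintype.linearIndependent_iff] at hz
    have h2 := hz (fun i => aeval (IntermediateField.AdjoinSimple.gen ℂ f) (P i)) (by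
      rw [← hP]
      refine Finset.sum_congr rfl fun i _ => ?_
      rw [Algebra.smul_def, ← aeval_algebraMap_apply,
        IntermediateField.AdjoinSimple.algebraMap_gen]) i0
    apply hi0
    have h3 : aeval f (P i0) = 0 := by
      have h4 := congrArg (algebraMap (IntermediateField.adjoin ℂ {f}) K) h2
      rw [← aeval_algebraMap_apply, IntermediateField.AdjoinSimple.algebraMap_gen,
        map_zero] at h4
      exact h4
    exact transcendental_iff.mp htr _ h3
  rw [FiniteDimensional, ← Module.rank_lt_aleph0_iff]
  exact lt_of_le_of_lt hrk (Cardinal.natCast_lt_aleph0)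

end Pool.Agent.RTB
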