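import Pool.Agent.RTB.GStmts

/-!
# squad RTB, module GFR: elements of the ring have multiples in `ℂ[X]`
-/

set_option autoImplicit false

open Polynomial

namespace Pool.Agent.RTB

namespace GFR_

/-- polynomials in `X` are in the ring -/
theorem inR_evX (g : ℕ) (D : GD g) (d : ℂ[X]) : D.InR (evX g d) := by
  refine ⟨fun i => if i = 0 then d else 0, fun _ => 0, ?_, ?_⟩
  · intro i _
    by_cases h : i = 0
    · subst h
      exact VU.of_zero _ _ _ _
    · simp only [if_neg h]
      exact VU.zero _ _ _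
  · have hg : 0 < g := by have := D.g3; omega
    rw [Finset.sum_eq_single 0]
    · simp [ev]
    · intro i _ hi
      simp [ev, if_neg hi]
    · intro h
      exact absurd (Finset.mem_range.2 hg) h

theorem eval₂_mem (g : ℕ) (D : GD g) (R : Subalgebra ℂ (LS ℂ)) (hR : ∀ x, x ∈ R ↔ D.InR x)
    (s : LS ℂ) (hs : s ∈ R) (P : ℂ[X][X]) : eval₂ (evX g) s P ∈ R := by
  rw [eval₂_eq_sum_range]
  exact sum_mem fun i _ => mul_mem ((hR _).2 (inR_evX g D _)) (pow_mem hs _)

end GFR_

theorem gfr_proof (hGRA : Stmt_GRA) (hGRI : Stmt_GRI) : Stmt_GFR := by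
  intro g D s hs hs0
  obtain ⟨R, hR⟩ := hGRA g D
  have hex : ∃ n : ℕ, ∃ P : ℂ[X][X], P.Monic ∧ eval₂ (evX g) s P = 0 ∧ P.natDegree = n := by
    obtain ⟨P, hP, hP0⟩ := hGRI g D s hs
    exact ⟨_, P, hP, hP0, rfl⟩
  classical
  obtain ⟨P, hPm, hP0, hPn⟩ := Nat.find_spec hex
  have hmin : ∀ Q : ℂ[X][X], Q.Monic → eval₂ (evX g) s Q = 0 → P.natDegree ≤ Q.natDegree := by
    intro Q hQ hQ0
    rw [hPn]
    exact Nat.find_min' hex ⟨Q, hQ, hQ0, rfl⟩
  have hsplit : eval₂ (evX g) s (divX P) * s + evX g (P.coeff 0) = 0 := by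
    have h1 : eval₂ (evX g) s (divX P * X + C (P.coeff 0)) = 0 := by
      rw [divX_mul_X_add]; exact hP0
    rw [eval₂_add, eval₂_mul, eval₂_X, eval₂_C] at h1
    exact h1
  have hdeg : 1 ≤ P.natDegree := by
    by_contra h
    have h0 : P.natDegree = 0 := by omega
    have h1 : P = 1 := hPm.natDegree_eq_zero.1 h0
    rw [h1, eval₂_one] at hP0
    exact one_ne_zero hP0
  have hc : P.coeff 0 ≠ 0 := by
    intro h0
    rw [h0, map_zero, add_zero] at hsplit
    have h1 : eval₂ (evX g) s (divX P) = 0 := by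
      rcases mul_eq_zero.1 hsplit with h | h
      · exact h
      · exact absurd h hs0
    have h2 : (divX P).natDegree = P.natDegree - 1 := natDegree_divX_eq_natDegree_tsub_one
    have h3 : (divX P).Monic := by
      rw [Monic, leadingCoeff, h2, coeff_divX, Nat.sub_add_cancel hdeg]
      exact hPm
    have h4 := hmin _ h3 h1
    omega
  refine ⟨-eval₂ (evX g) s (divX P), P.coeff 0, ?_, hc, ?_⟩
  · rw [← hR]
    exact neg_mem (GFR_.eval₂_mem g D R hR s ((hR s).2 hs) _)
  · linear_combination (-1 : LS ℂ) * hsplit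

end Pool.Agent.RTB
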