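import Pool.Agent.RTB.GStmts

/-!
# squad RTB, part G: the genus
-/

set_option autoImplicit false

namespace Pool.Agent.RTB

namespace GGN_

open Crv

theorem dg_np {K : Type} [Field K] [Algebra ℂ K] (p : Pt K) (n : ℤ) : dg (np p n) = n := by
  unfold dg np
  rw [Finsupp.sum_single_index rfl]

theorem ord_pow {K : Type} [Field K] [Algebra ℂ K] (V : Val K) (q : Pt K) {x : K} (hx : x ≠ 0)
    (n : ℕ) : V.ord q (x ^ n) = n * V.ord q x := by
  induction n with
  | zero => rw [pow_zero, V.ord_one]; simp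
  | succ n ih =>
    rw [pow_succ, V.mul q _ _ (pow_ne_zero n hx) hx, ih]
    push_cast; ring

end GGN_

open GGN_ in
theorem ggn_proof (hGNS : Crv.Stmt_GNS) (hELL : Crv.Stmt_ELL) (hTWI : Crv.Stmt_TWI)
    (hGVO : Stmt_GVO) (hGOT : Stmt_GOT) (hGLN : Stmt_GLN) (hGZD : Stmt_GZD) : Stmt_GGN := by
  intro g K _ _ R v hR V p hp
  have hord : ∀ f ∈ R, f ≠ 0 → ∀ q : Pt K, q ≠ p → 0 ≤ V.ord q f := by
    intro f hf hf0 q hq
    exact (V.mem q f hf0).mp (hGOT g K R v hR V p hp q hq f hf)
  -- functions vanishing at a point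
  have hfq : ∀ q : Pt K, q ≠ p → ∃ f ∈ R, f ≠ 0 ∧ 1 ≤ V.ord q f := by
    intro q hq
    obtain ⟨r, hr, hr0, hvr⟩ := hR.att (g + 1) le_rfl
    obtain ⟨z, hz⟩ := V.res q r (hGOT g K R v hR V p hp q hq r hr)
    have hne : r - algebraMap ℂ K z ≠ 0 := by
      intro h
      have h1 : r = algebraMap ℂ K z := sub_eq_zero.mp h
      have hz0 : z ≠ 0 := by
        rintro rfl
        rw [map_zero] at h1
        exact hr0 h1
      have h2 := hR.alg z hz0
      rw [← h1, hvr] at h2
      push_cast at h2
      linarith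
    refine ⟨r - algebraMap ℂ K z, R.sub_mem hr (R.algebraMap_mem z), hne, ?_⟩
    rcases hz with h | h
    · exact absurd h hne
    · linarith
  rw [hGNS K V g]
  constructor
  · intro D
    have hA : ∀ s : Finset (Pt K), p ∉ s → ∃ f ∈ R, f ≠ 0 ∧ ∀ q ∈ s, D q ≤ V.ord q f := by
      intro s
      classical
      induction s using Finset.induction_on with
      | empty =>
        intro _
        exact ⟨1, R.one_mem, one_ne_zero, fun q hq => absurd hq (Finset.notMem_empty q)⟩
      | insert a s ha ih =>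
        intro hps
        have hpa : a ≠ p := fun h => hps (by rw [h]; exact Finset.mem_insert_self _ _)
        obtain ⟨f, hf, hf0, hfs⟩ := ih (fun h => hps (Finset.mem_insert_of_mem h))
        obtain ⟨r, hr, hr0, hra⟩ := hfq a hpa
        have hrn0 : r ^ (D a).toNat ≠ 0 := pow_ne_zero _ hr0
        refine ⟨f * r ^ (D a).toNat, R.mul_mem hf (R.pow_mem hr _), mul_ne_zero hf0 hrn0, ?_⟩
        intro q hq
        rw [V.mul q _ _ hf0 hrn0, ord_pow V q hr0]
        rcases Finset.mem_insert.mp hq with h | h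
        · subst h
          have h1 := hord f hf hf0 q hpa
          have h2 : (D q) ≤ ((D q).toNat : ℤ) := Int.self_le_toNat _
          have h3 : (0 : ℤ) ≤ ((D q).toNat : ℤ) := Int.natCast_nonneg _
          nlinarith
        · have hqp : q ≠ p := by
            rintro rfl
            exact hps (Finset.mem_insert_of_mem h)
          have h1 := hord r hr hr0 q hqp
          have h3 : (0 : ℤ) ≤ ((D a).toNat : ℤ) := Int.natCast_nonneg _
          have h4 := hfs q h
          nlinarith
    classical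
    obtain ⟨f, hf, hf0, hfs⟩ := hA (D.support.erase p) (Finset.notMem_erase p _)
    obtain ⟨n, hn1, hn2⟩ : ∃ n : ℕ, g ≤ n ∧ D p + v f ≤ n :=
      ⟨max g (D p + v f).toNat, le_max_left _ _, le_trans (Int.self_le_toNat _)
        (by exact_mod_cast le_max_right g (D p + v f).toNat)⟩
    have hle : D ≤ Crv.np p (n : ℤ) + V.dv f := by
      intro q
      rw [Finsupp.add_apply, V.dv_apply hf0, Crv.np]
      by_cases hq : q = p
      · subst hq
        rw [Finsupp.single_eq_same, hGVO g K R v hR V q hp f hf0]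
        linarith
      · rw [Finsupp.single_eq_of_ne hq, zero_add]
        by_cases hs : q ∈ D.support
        · exact hfs q (Finset.mem_erase.mpr ⟨hq, hs⟩)
        · rw [Finsupp.notMem_support_iff.mp hs]
          exact hord f hf hf0 q hq
    have h1 := (hELL K V D _ hle).2.2
    have h2 := hTWI K V (Crv.np p (n : ℤ)) f hf0
    rw [h2.2.1, h2.2.2.1, dg_np, (hGLN g K R v hR V p hp n).2.2 hn1] at h1
    have h3 := hGZD g K R v hR V p hp f hf hf0
    linarith
  · refine ⟨Crv.np p (g : ℤ), ?_⟩
    rw [dg_np, (hGLN g K R v hR V p hp g).2.1 le_rfl]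
    ring

end Pool.Agent.RTB
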