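import Pool.Agent.RTB.GStmts

/-!
# squad RTB, module GGP: the gap property of the elliptic curve
-/

set_option autoImplicit false

open Polynomial

namespace Pool.Agent.RTB

namespace GGP_

theorem exists_scale (O : ValuationSubring ℂ) (p q : ℂ[X]) (h : ¬ (p = 0 ∧ q = 0)) :
    ∃ (z : ℂ) (P Q : O[X]), z ≠ 0 ∧ P.map O.subtype = C z * p ∧ Q.map O.subtype = C z * q ∧
      ¬ (P.map (red O) = 0 ∧ Q.map (red O) = 0) := by
  classical
  set S : Finset ℂ := p.support.image p.coeff ∪ q.support.image q.coeff with hS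
  have hne : S.Nonempty := by
    by_cases hp : p = 0
    · have hq : q ≠ 0 := fun hq => h ⟨hp, hq⟩
      obtain ⟨k, hk⟩ := support_nonempty.2 hq
      exact ⟨q.coeff k, Finset.mem_union_right _ (Finset.mem_image_of_mem _ hk)⟩
    · obtain ⟨k, hk⟩ := support_nonempty.2 hp
      exact ⟨p.coeff k, Finset.mem_union_left _ (Finset.mem_image_of_mem _ hk)⟩
  obtain ⟨m, hm, hmax⟩ := Finset.exists_max_image S O.valuation hne
  have hm0 : m ≠ 0 := by
    rw [hS, Finset.mem_union, Finset.mem_image, Finset.mem_image] at hm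
    rcases hm with ⟨k, hk, rfl⟩ | ⟨k, hk, rfl⟩
    · exact mem_support_iff.1 hk
    · exact mem_support_iff.1 hk
  have hO : ∀ a ∈ S, m⁻¹ * a ∈ O := by
    intro a ha
    rw [← O.valuation_le_one_iff, map_mul, map_inv₀]
    have h1 := hmax a ha
    have h2 : O.valuation m ≠ 0 := (Valuation.ne_zero_iff _).2 hm0
    calc (O.valuation m)⁻¹ * O.valuation a ≤ (O.valuation m)⁻¹ * O.valuation m :=
          mul_le_mul_right h1 _
      _ = 1 := inv_mul_cancel₀ h2
  have hOp : ∀ k, m⁻¹ * p.coeff k ∈ O := by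
    intro k
    by_cases h0 : p.coeff k = 0
    · rw [h0, mul_zero]; exact O.zero_mem
    · exact hO _ (Finset.mem_union_left _ (Finset.mem_image_of_mem _ (mem_support_iff.2 h0)))
  have hOq : ∀ k, m⁻¹ * q.coeff k ∈ O := by
    intro k
    by_cases h0 : q.coeff k = 0
    · rw [h0, mul_zero]; exact O.zero_mem
    · exact hO _ (Finset.mem_union_right _ (Finset.mem_image_of_mem _ (mem_support_iff.2 h0)))
  have hlp : ∃ P : O[X], P.map O.subtype = C m⁻¹ * p := by
    have : C m⁻¹ * p ∈ lifts O.subtype := by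
      rw [lifts_iff_coeff_lifts]
      intro k
      rw [coeff_C_mul]
      exact ⟨⟨_, hOp k⟩, rfl⟩
    exact (mem_lifts _).1 this
  have hlq : ∃ P : O[X], P.map O.subtype = C m⁻¹ * q := by
    have : C m⁻¹ * q ∈ lifts O.subtype := by
      rw [lifts_iff_coeff_lifts]
      intro k
      rw [coeff_C_mul]
      exact ⟨⟨_, hOq k⟩, rfl⟩
    exact (mem_lifts _).1 this
  obtain ⟨P, hP⟩ := hlp
  obtain ⟨Q, hQ⟩ := hlq
  refine ⟨m⁻¹, P, Q, inv_ne_zero hm0, hP, hQ, ?_⟩
  rintro ⟨h1, h2⟩
  rw [hS, Finset.mem_union, Finset.mem_image, Finset.mem_image] at hm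
  have key : ∀ (R : O[X]) (r : ℂ[X]) (k : ℕ), R.map O.subtype = C m⁻¹ * r → r.coeff k = m →
      R.map (red O) = 0 → False := by
    intro R r k hR hr h3
    have h4 : O.subtype (R.coeff k) = 1 := by
      rw [← coeff_map, hR, coeff_C_mul, hr, inv_mul_cancel₀ hm0]
    have h5 : R.coeff k = 1 := by
      apply O.subtype_injective
      rw [h4, map_one]
    have h6 : (R.map (red O)).coeff k = 0 := by rw [h3, coeff_zero]
    rw [coeff_map, h5, map_one] at h6
    exact one_ne_zero h6
  rcases hm with ⟨k, _, hk⟩ | ⟨k, _, hk⟩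
  · exact key P p k hP hk h1
  · exact key Q q k hQ hk h2

end GGP_

open GGP_

theorem ggp_proof (hGKP : Stmt_GKP) : Stmt_GGP := by
  intro g O D hodd hg3 i p q hi1 hig hVU hBd
  by_contra hne
  have : CharZero (kap O) := D.vr.charZero
  obtain ⟨z, P, Q, hz, hP, hQ, hne2⟩ := exists_scale O p q hne
  apply hne2
  -- divisibility over `O`
  have h1 : VU ((g : O) ^ 2) (-D.U) i P Q := by
    show _ ∣ _
    have hmon : ((X - C ((g : O) ^ 2)) ^ i : O[X]).Monic := (monic_X_sub_C _).pow i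
    rw [← map_dvd_map O.subtype O.subtype_injective hmon]
    have e1 : ((X - C ((g : O) ^ 2)) ^ i : O[X]).map O.subtype
        = (X - C ((g : ℂ) ^ 2)) ^ i := by
      simp
    have e2 : (P + Q * -D.U).map O.subtype
        = C z * (p + q * -(D.U.map O.subtype)) := by
      rw [Polynomial.map_add, Polynomial.map_mul, Polynomial.map_neg, hP, hQ]; ring
    rw [e1, e2]
    exact Dvd.dvd.mul_left hVU _
  -- reduction
  have h2 : VU ((-(g : kap O)) ^ 2) (-(D.U.map (red O))) i (P.map (red O)) (Q.map (red O)) := by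
    show _ ∣ _
    have h3 := Polynomial.map_dvd (red O) h1
    have e1 : ((X - C ((g : O) ^ 2)) ^ i : O[X]).map (red O)
        = (X - C ((-(g : kap O)) ^ 2)) ^ i := by
      simp
    have e2 : (P + Q * -D.U).map (red O)
        = P.map (red O) + Q.map (red O) * -(D.U.map (red O)) := by
      rw [Polynomial.map_add, Polynomial.map_mul, Polynomial.map_neg]
    rw [e1, e2] at h3
    exact h3
  have hg0 : (g : kap O) ≠ 0 := by
    rw [Nat.cast_ne_zero]; omega
  have hU : (X - C ((-(g : kap O)) ^ 2)) ^ (g ^ 2) ∣ (-(D.U.map (red O))) ^ 2 - X ^ 3 := by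
    have h3 := Polynomial.map_dvd (red O) D.hU
    have hb : red O D.b = 0 := by
      rw [IsLocalRing.residue_eq_zero_iff]
      exact D.vr.bm
    have e1 : ((X - C ((g : O) ^ 2)) ^ (g ^ 2) : O[X]).map (red O)
        = (X - C ((-(g : kap O)) ^ 2)) ^ (g ^ 2) := by
      simp
    have e2 : (D.U ^ 2 - X ^ 3 - C D.b).map (red O) = (-(D.U.map (red O))) ^ 2 - X ^ 3 := by
      rw [Polynomial.map_sub, Polynomial.map_sub, Polynomial.map_pow, Polynomial.map_pow, map_X,
        map_C, hb, C_0, sub_zero, neg_sq]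
    rw [e1, e2] at h3
    exact h3
  have hUe : (-(D.U.map (red O))).eval ((-(g : kap O)) ^ 2) = -(-(g : kap O)) ^ 3 := by
    have h3 : (D.U.map (red O)).eval ((g : kap O) ^ 2) = red O (D.U.eval ((g : O) ^ 2)) := by
      have : ((g : kap O) ^ 2) = red O ((g : O) ^ 2) := by simp
      rw [this, eval_map_apply]
    rw [eval_neg, neg_sq, h3, D.Ua]
    ring
  have hiN : i ≤ g ^ 2 := by nlinarith
  have h4 := (hGKP (kap O) (-(g : kap O)) (g ^ 2) (-(D.U.map (red O))) two_ne_zero
    (neg_ne_zero.2 hg0) hU hUe i (P.map (red O)) (Q.map (red O)) hiN).1 h2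
  -- degrees
  have hBdO : Bd P Q i := by
    apply Bd.of_coeff
    · intro k hk
      apply O.subtype_injective
      rw [← coeff_map, hP, coeff_C_mul, hBd.coeff.1 k hk, mul_zero, map_zero]
    · intro k hk
      apply O.subtype_injective
      rw [← coeff_map, hQ, coeff_C_mul, hBd.coeff.2 k hk, mul_zero, map_zero]
  have hBdk : Bd (P.map (red O)) (Q.map (red O)) i := hBdO.map (red O)
  apply rd_eq_zero
  by_contra hrd
  obtain ⟨E, hE⟩ := h4
  have hE0 : E ≠ 0 := by
    rintro rfl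
    rw [mul_zero] at hE
    exact hrd hE
  have hpow : ((X - C (-(g : kap O))) ^ i : (kap O)[X]) ≠ 0 :=
    pow_ne_zero _ (X_sub_C_ne_zero _)
  have hdeg : E.natDegree = 0 := by
    have h5 := hBdk.natDegree_rd
    rw [hE, natDegree_mul hpow hE0, natDegree_pow, natDegree_X_sub_C] at h5
    omega
  obtain ⟨e, he⟩ : ∃ e, E = C e := ⟨E.coeff 0, eq_C_of_natDegree_eq_zero hdeg⟩
  have h6 := rd_coeff_one (P.map (red O)) (Q.map (red O))
  rw [hE, he, coeff_mul_C, C_neg, sub_neg_eq_add, coeff_X_add_C_pow, Nat.choose_one_right] at h6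
  have hi0 : (i : kap O) ≠ 0 := by
    rw [Nat.cast_ne_zero]; omega
  rcases mul_eq_zero.1 h6 with h7 | h7
  · rcases mul_eq_zero.1 h7 with h8 | h8
    · exact pow_ne_zero _ hg0 h8
    · exact hi0 h8
  · apply hE0
    rw [he, h7, C_0]

end Pool.Agent.RTB
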