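import Pool.Agent.RTB.GStmts

set_option autoImplicit false

open Polynomial

namespace Pool.Agent.RTB

namespace GGR_

theorem distinct {g : ℕ} {i j d e : ℕ} (hi : i < g) (hj : j < g)
    (h : -((g : ℤ) * d) + i * ((g : ℤ) - 1) = -((g : ℤ) * e) + j * ((g : ℤ) - 1)) : i = j := by
  have h1 : (i : ℤ) - j = g * (((i : ℤ) - j) - ((d : ℤ) - e)) := by linear_combination -h
  set k : ℤ := ((i : ℤ) - j) - ((d : ℤ) - e) with hk
  have hi' : (i : ℤ) < g := by exact_mod_cast hi
  have hj' : (j : ℤ) < g := by exact_mod_cast hj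
  have hi0 : (0 : ℤ) ≤ i := by positivity
  have hj0 : (0 : ℤ) ≤ j := by positivity
  have h2 : k < 1 := by
    by_contra h3
    push Not at h3
    nlinarith
  have h3 : -1 < k := by
    by_contra h3
    push Not at h3
    nlinarith
  have h4 : k = 0 := by omega
  rw [h4, mul_zero] at h1
  omega

end GGR_

open GGR_ in
theorem ggr_proof : Stmt_GGR := by
  classical
  intro g D x hx hx0
  obtain ⟨p, q, hpq, hxs⟩ := hx
  have hg : 0 < g := by have := D.g3; omega
  have hg' : (3 : ℤ) ≤ g := by exact_mod_cast D.g3
  -- the terms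
  have hterm : ∀ i, ∃ (m : ℤ) (c : ℂ) (d : ℕ), i < g → ¬ (p i = 0 ∧ q i = 0) →
      c ≠ 0 ∧ Ld (ev g D.Y (p i) (q i) * D.w ^ i) m c ∧ (m = 0 ∨ m ≤ -((g : ℤ) + 1)) ∧
      m = -((g : ℤ) * d) + i * ((g : ℤ) - 1) := by
    intro i
    by_cases hi : i < g
    · by_cases hne : ¬ (p i = 0 ∧ q i = 0)
      · obtain ⟨d, c, hc, hBd, hd1, hLd⟩ := ev_order g hg D.Yl hne
        refine ⟨-((g : ℤ) * d) + i * ((g : ℤ) - 1), c, d, fun _ _ => ⟨hc, ?_, ?_, rfl⟩⟩
        · have h1 := hLd.mul (D.wl.pow i)
          rw [one_pow, mul_one] at h1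
          exact h1
        · by_cases hi0 : i = 0
          · subst hi0
            by_cases hd0 : d = 0
            · left
              subst hd0
              simp
            · right
              have h2 : (2 : ℤ) ≤ d := by exact_mod_cast (by omega : 2 ≤ d)
              push_cast
              nlinarith
          · right
            have h3 : i + 1 ≤ d := by
              by_contra hcon
              apply hne
              exact D.gap i (p i) (q i) (by omega) hi (hpq i hi) (hBd.mono (by omega))
            have h4 : (i : ℤ) + 1 ≤ d := by exact_mod_cast h3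
            have h5 : (1 : ℤ) ≤ i := by exact_mod_cast (by omega : 1 ≤ i)
            nlinarith
      · exact ⟨0, 0, 0, fun _ h => absurd h hne⟩
    · exact ⟨0, 0, 0, fun h => absurd h hi⟩
  choose m c d hmcd using hterm
  set I : Finset ℕ := (Finset.range g).filter (fun i => ¬ (p i = 0 ∧ q i = 0)) with hI
  have hIne : I.Nonempty := by
    by_contra hcon
    rw [Finset.not_nonempty_iff_eq_empty] at hcon
    apply hx0
    rw [hxs]
    apply Finset.sum_eq_zero
    intro i hi
    have h1 : i ∉ I := by rw [hcon]; exact Finset.notMem_empty i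
    rw [hI, Finset.mem_filter] at h1
    have h2 : p i = 0 ∧ q i = 0 := by
      by_contra h3
      exact h1 ⟨hi, h3⟩
    rw [h2.1, h2.2]
    simp [ev]
  obtain ⟨j, hj, hmin⟩ := Finset.exists_min_image I m hIne
  have hj' := Finset.mem_filter.1 hj
  have hjg := Finset.mem_range.1 hj'.1
  obtain ⟨j1, j2, j3, j4⟩ := hmcd j hjg hj'.2
  have hsum : Ld x (m j) (∑ i ∈ Finset.range g, if i = j then c j else 0) := by
    rw [hxs]
    apply Ld.sum
    intro i hi
    by_cases hij : i = j
    · subst hij
      rw [if_pos rfl]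
      exact j2
    · rw [if_neg hij]
      by_cases hne : p i = 0 ∧ q i = 0
      · rw [hne.1, hne.2]
        have : ev g D.Y (0 : ℂ[X]) 0 * D.w ^ i = 0 := by simp [ev]
        rw [this]
        exact Ld.zero _
      · have hig := Finset.mem_range.1 hi
        obtain ⟨i1, i2, i3, i4⟩ := hmcd i hig hne
        have hle : m j ≤ m i := hmin i (by rw [hI, Finset.mem_filter]; exact ⟨hi, hne⟩)
        have hlt : m j < m i := by
          rcases lt_or_eq_of_le hle with h | h
          · exact h
          · exfalso
            rw [i4, j4] at h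
            exact hij (distinct hig hjg h.symm)
        exact i2.weaken hlt
  rw [Finset.sum_ite_eq' (Finset.range g) j, if_pos hj'.1] at hsum
  rw [hsum.order j1]
  exact j3

end Pool.Agent.RTB
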