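import Pool.Agent.RTB.GStmts

/-!
# squad RTB, module GHN: the square root of `Z^3 + b` modulo a power of `Z - g^2`
-/

set_option autoImplicit false

open Polynomial

namespace Pool.Agent.RTB

namespace GHN_

theorem exists_sqrt (O : ValuationSubring ℂ) (x : O) : ∃ e : O, e ^ 2 = x := by
  obtain ⟨z, hz⟩ := IsAlgClosed.exists_pow_nat_eq (x : ℂ) (n := 2) (by norm_num)
  have hmem : z ∈ O := by
    rcases O.mem_or_inv_mem z with h | h
    · exact h
    · by_cases h0 : z = 0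
      · rw [h0]; exact O.zero_mem
      · have h1 : z = z ^ 2 * z⁻¹ := by
          rw [pow_two, mul_assoc, mul_inv_cancel₀ h0, mul_one]
        rw [h1, hz]
        exact O.mul_mem _ _ x.2 h
  exact ⟨⟨z, hmem⟩, Subtype.ext hz⟩

theorem lift {R : Type} [CommRing R] (a b eta : R) (h : eta ^ 2 = a ^ 3 + b)
    (hu : IsUnit (2 * eta)) (N : ℕ) :
    ∃ U : R[X], (X - C a) ^ (N + 1) ∣ U ^ 2 - X ^ 3 - C b ∧ U.eval a = eta := by
  induction N with
  | zero =>
    refine ⟨C eta, ?_, by simp⟩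
    rw [zero_add, pow_one, dvd_iff_isRoot, IsRoot.def]
    simp only [eval_sub, eval_pow, eval_C, eval_X]
    rw [h]; ring
  | succ N ih =>
    obtain ⟨U, ⟨E, hE⟩, hU⟩ := ih
    obtain ⟨u, hu'⟩ := hu.exists_left_inv
    refine ⟨U + C (-(E.eval a) * u) * (X - C a) ^ (N + 1), ?_, by simp [hU]⟩
    have h1 : (U + C (-(E.eval a) * u) * (X - C a) ^ (N + 1)) ^ 2 - X ^ 3 - C b =
        (X - C a) ^ (N + 1) * (E + 2 * U * C (-(E.eval a) * u) +
          C (-(E.eval a) * u) ^ 2 * (X - C a) ^ (N + 1)) := by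
      have h2 : (U + C (-(E.eval a) * u) * (X - C a) ^ (N + 1)) ^ 2 - X ^ 3 - C b =
        (U ^ 2 - X ^ 3 - C b) + (X - C a) ^ (N + 1) * (2 * U * C (-(E.eval a) * u) +
          C (-(E.eval a) * u) ^ 2 * (X - C a) ^ (N + 1)) := by ring
      rw [h2, hE]; ring
    rw [h1, pow_succ (X - C a) (N + 1)]
    apply mul_dvd_mul_left
    rw [dvd_iff_isRoot, IsRoot.def]
    simp only [eval_add, eval_mul, eval_sub, eval_pow, eval_C, eval_X, eval_ofNat, hU, sub_self]
    rw [pow_succ 0 N, mul_zero, mul_zero, add_zero]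
    linear_combination (-(eval a E)) * hu'

end GHN_

theorem ghn_proof : Stmt_GHN := by
  intro g O b hv hg
  haveI := hv.charZero
  obtain ⟨e0, he0⟩ := GHN_.exists_sqrt O (((g : O) ^ 2) ^ 3 + b)
  have h1 : (red O e0 - (g : kap O) ^ 3) * (red O e0 + (g : kap O) ^ 3) = 0 := by
    have h2 := congrArg (red O) he0
    rw [map_pow, map_add, map_pow, map_pow, map_natCast, hv.red_b] at h2
    linear_combination h2
  obtain ⟨e, he, her⟩ : ∃ e : O, e ^ 2 = ((g : O) ^ 2) ^ 3 + b ∧ red O e = -(g : kap O) ^ 3 := by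
    rcases mul_eq_zero.1 h1 with h | h
    · refine ⟨-e0, by rw [neg_sq, he0], ?_⟩
      rw [map_neg, sub_eq_zero.1 h]
    · exact ⟨e0, he0, eq_neg_of_add_eq_zero_left h⟩
  have hg0 : (g : kap O) ≠ 0 := by
    have : g ≠ 0 := by omega
    exact_mod_cast this
  have hu : IsUnit (2 * e) := by
    rw [← IsLocalRing.residue_ne_zero_iff_isUnit]
    show red O (2 * e) ≠ 0
    rw [map_mul, her]
    refine mul_ne_zero ?_ (neg_ne_zero.2 (pow_ne_zero _ hg0))
    have h2 : red O 2 = ((2 : ℕ) : kap O) := by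
      rw [← map_natCast (red O) 2]; norm_num
    rw [h2]
    exact_mod_cast (by norm_num : (2 : ℕ) ≠ 0)
  obtain ⟨U, hU, hUa⟩ := GHN_.lift ((g : O) ^ 2) b e he hu (g ^ 2 - 1)
  have h3 : g ^ 2 - 1 + 1 = g ^ 2 := by
    have : 0 < g ^ 2 := by positivity
    omega
  rw [h3] at hU
  exact ⟨U, hU, by rw [hUa, her]⟩

end Pool.Agent.RTB
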