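import Pool.Agent.RTB.GStmts

/-!
# squad RTB, module GIC: integral elements, one component
-/

set_option autoImplicit false

open Polynomial

namespace Pool.Agent.RTB

namespace GIC_

theorem int_of_pow (f : ℂ[X] →+* LS ℂ) {x : LS ℂ} {n : ℕ} (hn : 0 < n)
    (h : f.IsIntegralElem (x ^ n)) : f.IsIntegralElem x :=
  @IsIntegral.of_pow ℂ[X] (LS ℂ) _ _ f.toAlgebra x n hn h

theorem int_pow (f : ℂ[X] →+* LS ℂ) {x : LS ℂ} (h : f.IsIntegralElem x) (n : ℕ) :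
    f.IsIntegralElem (x ^ n) := by
  induction n with
  | zero => rw [pow_zero]; exact f.isIntegralElem_one
  | succ n ih => rw [pow_succ]; exact RingHom.IsIntegralElem.mul f ih h

theorem int_ev (g : ℕ) (D : GD g) (p q : ℂ[X]) :
    (evX g : ℂ[X] →+* LS ℂ).IsIntegralElem (ev g D.Y p q) := by
  have hY : (evX g : ℂ[X] →+* LS ℂ).IsIntegralElem D.Y := by
    apply int_of_pow _ (n := 2) (by norm_num)
    have : D.Y ^ 2 = evX g (X ^ 3 + C D.b) := by
      rw [D.hY, map_add, map_pow, evX_X, evX_C]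
    rw [this]
    exact RingHom.isIntegralElem_map _
  rw [ev]
  exact RingHom.IsIntegralElem.add _ (RingHom.isIntegralElem_map _)
    (RingHom.IsIntegralElem.mul _ (RingHom.isIntegralElem_map _) hY)

theorem evX_eq_zero (g : ℕ) (D : GD g) {p : ℂ[X]} (h : evX g p = 0) : p = 0 := by
  have hg : 0 < g := by have := D.g3; omega
  have : ev g D.Y p 0 = 0 := by rw [ev, h]; simp
  exact (ev_eq_zero g hg D.Yl this).1

theorem ev_div (g : ℕ) (Y : LS ℂ) (p q d : ℂ[X]) (hd : evX g d ≠ 0) :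
    ev g Y (d * p) (d * q) / evX g d = ev g Y p q := by
  rw [ev_cmul, mul_div_cancel_left₀ _ hd]

end GIC_

open GIC_ in
theorem gic_proof (hGDV : Stmt_GDV) (hGEN : Stmt_GEN) : Stmt_GIC := by
  intro g D i p q d hi hd hint
  have hg : 0 < g := by have := D.g3; omega
  rcases Nat.eq_zero_or_pos i with h0 | hipos
  · subst h0
    rw [pow_zero, mul_one] at hint
    obtain ⟨⟨p', hp⟩, ⟨q', hq⟩⟩ := hGEN g D p q d hd hint
    exact ⟨p', q', VU.of_zero _ _ _ _, hp, hq⟩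
  -- notation
  set a : ℂ := (g : ℂ) ^ 2 with ha
  set T : ℂ[X] := X - C a with hT
  have hT0 : T ≠ 0 := X_sub_C_ne_zero a
  set A : LS ℂ := evX g T with hA
  have hA0 : A ≠ 0 := fun h => hT0 (evX_eq_zero g D h)
  have hEd : evX g d ≠ 0 := fun h => hd (evX_eq_zero g D h)
  have hAX : X0 g ℂ - HahnSeries.C a = A := by
    rw [hA, hT, map_sub, evX_X, evX_C]
  have hw : D.w ^ g * A ^ g = ev g D.Y D.px D.qx := by
    rw [← hAX]; exact D.hw
  set ξ : ℂ[X] × ℂ[X] := (D.px, D.qx) with hξ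
  set E : LS ℂ := ev g D.Y D.px D.qx with hE
  have hE0 : E ≠ 0 := by
    intro h
    obtain ⟨h1, h2⟩ := ev_eq_zero g hg D.Yl h
    have h3 := D.hN
    rw [h1, h2] at h3
    have h4 : (X - C ((g : ℂ) ^ 2)) ^ g * (X - C D.x1) = (0 : ℂ[X]) := by
      rw [← h3]; ring
    rcases mul_eq_zero.1 h4 with h5 | h5
    · exact X_sub_C_ne_zero _ (pow_eq_zero_iff (by omega) |>.1 h5)
    · exact X_sub_C_ne_zero _ h5
  have hY := D.hY
  set G : LS ℂ := ev g D.Y p q with hG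
  -- step 1 : z^g
  set P1 : ℂ[X] × ℂ[X] := pm D.b (ppw D.b (p, q) g) (ppw D.b ξ i) with hP1
  have hevP1 : ev g D.Y P1.1 P1.2 = G ^ g * E ^ i := by
    rw [hP1, ev_pm g hY, ev_ppw g hY, ev_ppw g hY]
  set δ : ℂ[X] := T ^ (g * i) * d ^ g with hδ
  have hδ0 : δ ≠ 0 := mul_ne_zero (pow_ne_zero _ hT0) (pow_ne_zero _ hd)
  have hEδ : evX g δ = A ^ (g * i) * evX g d ^ g := by
    rw [hδ, map_mul, map_pow, map_pow]
  have hEδ0 : evX g δ ≠ 0 := fun h => hδ0 (evX_eq_zero g D h)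
  have hzg : (G * D.w ^ i / evX g d) ^ g = ev g D.Y P1.1 P1.2 / evX g δ := by
    rw [hevP1, hEδ, ← hw, div_pow, mul_pow, div_eq_div_iff (pow_ne_zero _ hEd)
      (mul_ne_zero (pow_ne_zero _ hA0) (pow_ne_zero _ hEd))]
    ring
  have hint1 := int_pow _ hint g
  rw [hzg] at hint1
  obtain ⟨⟨θ1, hθ1⟩, ⟨θ2, hθ2⟩⟩ := hGEN g D P1.1 P1.2 δ hδ0 hint1
  have hevθ : G ^ g * E ^ i = evX g δ * ev g D.Y θ1 θ2 := by
    rw [← hevP1, hθ1, hθ2, ev_cmul]
  -- step 2 : φ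
  set P2 : ℂ[X] × ℂ[X] := pm D.b (p, q) ξ with hP2
  have hevP2 : ev g D.Y P2.1 P2.2 = G * E := by rw [hP2, ev_pm g hY]
  set δ2 : ℂ[X] := d * T ^ i with hδ2
  have hδ20 : δ2 ≠ 0 := mul_ne_zero hd (pow_ne_zero _ hT0)
  have hEδ2 : evX g δ2 = evX g d * A ^ i := by rw [hδ2, map_mul, map_pow]
  have hEδ20 : evX g δ2 ≠ 0 := fun h => hδ20 (evX_eq_zero g D h)
  set P3 : ℂ[X] × ℂ[X] := pm D.b (θ1, θ2) (ppw D.b ξ (g - i)) with hP3
  have hevP3 : ev g D.Y P3.1 P3.2 = ev g D.Y θ1 θ2 * E ^ (g - i) := by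
    rw [hP3, ev_pm g hY, ev_ppw g hY]
  have hφg : (ev g D.Y P2.1 P2.2 / evX g δ2) ^ g = ev g D.Y P3.1 P3.2 := by
    rw [hevP2, hEδ2, hevP3, div_pow, div_eq_iff (pow_ne_zero _ (mul_ne_zero hEd
      (pow_ne_zero _ hA0)))]
    have h1 : (G * E) ^ g = (G ^ g * E ^ i) * E ^ (g - i) := by
      rw [mul_pow, mul_assoc, ← pow_add]; congr 2; omega
    rw [h1, hevθ, hEδ, mul_pow, ← pow_mul, mul_comm i g]
    ring
  have hint2 : (evX g : ℂ[X] →+* LS ℂ).IsIntegralElem (ev g D.Y P2.1 P2.2 / evX g δ2) := by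
    apply int_of_pow _ hg
    rw [hφg]
    exact int_ev g D _ _
  obtain ⟨⟨A1, hA1⟩, ⟨B1, hB1⟩⟩ := hGEN g D P2.1 P2.2 δ2 hδ20 hint2
  have hevAB : ev g D.Y P2.1 P2.2 = evX g δ2 * ev g D.Y A1 B1 := by
    rw [hA1, hB1, ev_cmul]
  have hAB : ev g D.Y (ppw D.b (A1, B1) g).1 (ppw D.b (A1, B1) g).2 = ev g D.Y P3.1 P3.2 := by
    rw [ev_ppw g hY, ← hφg, hevAB, mul_div_cancel_left₀ _ hEδ20]
  obtain ⟨e1, e2⟩ := ev_inj g hg D.Yl hAB
  -- step 3 : evaluation at (x1, y1)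
  have hy1 : D.y1 ^ 2 = D.x1 ^ 3 + D.b := D.hy1
  have hx : A1.eval D.x1 + B1.eval D.x1 * D.y1 = 0 := by
    have h1 := eval_ppw hy1 (A1, B1) g
    rw [e1, e2, hP3, eval_pm hy1, eval_ppw hy1 ξ (g - i)] at h1
    have h2 : ξ.1.eval D.x1 + ξ.2.eval D.x1 * D.y1 = 0 := D.hx1
    rw [h2, zero_pow (by omega), mul_zero] at h1
    exact pow_eq_zero_iff (by omega) |>.1 h1.symm
  -- step 4 : divisibility
  have hdiv : T ^ (g - i) ∣ A1 + B1 * D.U := by
    have hle : g * (g - i) ≤ g ^ 2 := by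
      rw [pow_two]; exact Nat.mul_le_mul_left _ (by omega)
    have h1 := dvd_trans (pow_dvd_pow T hle) (ppw_U D.hU (A1, B1) g)
    have h2 := dvd_trans (pow_dvd_pow T hle) (pm_U D.hU (θ1, θ2) (ppw D.b ξ (g - i)))
    have h3 : T ^ (g * (g - i)) ∣ (ppw D.b ξ (g - i)).1 + (ppw D.b ξ (g - i)).2 * D.U := by
      have h4 := VU.ppw D.hU (P := ξ) (i := g) D.hx (g - i) (by rw [mul_comm]; exact hle)
      rw [mul_comm g (g - i)]
      exact h4
    rw [← hP3, ← e1, ← e2] at h2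
    have h5 : T ^ (g * (g - i)) ∣ (ppw D.b (A1, B1) g).1 + (ppw D.b (A1, B1) g).2 * D.U := by
      have := dvd_add h2 (Dvd.dvd.mul_left h3 (θ1 + θ2 * D.U))
      rw [sub_add_cancel] at this
      exact this
    have h6 : T ^ (g * (g - i)) ∣ (A1 + B1 * D.U) ^ g := by
      have := dvd_sub h5 h1
      rw [sub_sub_cancel] at this
      exact this
    rw [mul_comm g (g - i), pow_mul] at h6
    exact (UniqueFactorizationMonoid.pow_dvd_pow_iff_dvd (by omega : g ≠ 0)).1 h6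
  -- step 5 : GDV
  have hle2 : i ≤ g ^ 2 := by
    rw [pow_two]; nlinarith
  obtain ⟨p', q', hv, hpq⟩ := hGDV g D i (T ^ i * A1) (T ^ i * B1) hle2
    (by
      rw [eval_mul, eval_mul]
      linear_combination ((T ^ i).eval D.x1) * hx)
    (by
      show T ^ g ∣ T ^ i * A1 + T ^ i * B1 * D.U
      have h1 : T ^ g = T ^ i * T ^ (g - i) := by rw [← pow_add]; congr 1; omega
      have h2 : T ^ i * A1 + T ^ i * B1 * D.U = T ^ i * (A1 + B1 * D.U) := by ring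
      rw [h1, h2]
      exact mul_dvd_mul_left _ hdiv)
    (by
      show T ^ i ∣ T ^ i * A1 + T ^ i * B1 * (-D.U)
      have h2 : T ^ i * A1 + T ^ i * B1 * (-D.U) = T ^ i * (A1 + B1 * (-D.U)) := by ring
      rw [h2]
      exact dvd_mul_right _ _)
  refine ⟨p', q', hv, ?_⟩
  have h1 : ev g D.Y (T ^ i * A1) (T ^ i * B1) = E * ev g D.Y p' q' := by
    have h2 : ev g D.Y (T ^ i * A1) (T ^ i * B1)
        = ev g D.Y (pm D.b (D.px, D.qx) (p', q')).1 (pm D.b (D.px, D.qx) (p', q')).2 := by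
      rw [← hpq]
    rw [h2, ev_pm g hY]
  have h3 : G * E = evX g d * E * ev g D.Y p' q' := by
    rw [← hevP2, hevAB, hEδ2]
    rw [ev_cmul, map_pow] at h1
    linear_combination (evX g d) * h1
  have h4 : G = ev g D.Y (d * p') (d * q') := by
    rw [ev_cmul]
    apply mul_right_cancel₀ hE0
    rw [h3]; ring
  exact ev_inj g hg D.Yl h4

end Pool.Agent.RTB
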