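import Pool.Agent.RTB.GStmts

/-!
# squad RTB, module GIN: functions regular outside the point are in `R`
-/

set_option autoImplicit false

open Polynomial

namespace Pool.Agent.RTB

theorem gin_proof : Stmt_GIN := by
  intro g K _ _ R v h p hp x hx
  by_contra hxR
  have hic : IsIntegrallyClosedIn R.toSubring K := by
    rw [Subring.isIntegrallyClosedIn_iff]
    intro z hz
    exact h.int z hz
  have hxR' : x ∉ R.toSubring := hxR
  obtain ⟨W, hW, hxW⟩ := Subring.exists_le_valuationSubring_of_isIntegrallyClosedIn hxR'
  have htop : W ≠ ⊤ := by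
    intro h1
    apply hxW
    rw [h1]
    exact ValuationSubring.mem_top x
  let q : Pt K := ⟨W, fun z => hW (R.algebraMap_mem z), htop⟩
  have hq : q ≠ p := by
    intro h1
    obtain ⟨r, hr, hr0, hvr⟩ := h.att (g + 1) le_rfl
    have h2 : r ∈ p.ring := by
      rw [← h1]
      exact hW hr
    rcases (hp r).1 h2 with h3 | h3
    · exact hr0 h3
    · rw [hvr] at h3
      have : (0 : ℤ) < ((g + 1 : ℕ) : ℤ) := by positivity
      omega
  exact hxW (hx q hq)

end Pool.Agent.RTB
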