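import Pool.Agent.RTB.GStmts

/-!
# squad RTB, module GIT: the ring is integrally closed
-/

set_option autoImplicit false

open Polynomial

namespace Pool.Agent.RTB

namespace GIT_

/-- polynomials in `X` are in the ring -/
theorem inR_evX (g : ℕ) (D : GD g) (d : ℂ[X]) : D.InR (evX g d) := by
  refine ⟨fun i => if i = 0 then d else 0, fun _ => 0, ?_, ?_⟩
  · intro i _
    by_cases h : i = 0
    · subst h
      exact VU.of_zero _ _ _ _
    · simp only [if_neg h]
      exact VU.zero _ _ _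
  · have hg : 0 < g := by have := D.g3; omega
    rw [Finset.sum_eq_single 0]
    · simp [ev]
    · intro i _ hi
      simp [ev, if_neg hi]
    · intro h
      exact absurd (Finset.mem_range.2 hg) h

theorem evX_ne_zero (g : ℕ) (hg : 0 < g) (d : ℂ[X]) (hd : d ≠ 0) : evX g d ≠ 0 :=
  (Ld_evX g (p := d) le_rfl hg).ne_zero (by rwa [coeff_natDegree, Ne, leadingCoeff_eq_zero])

/-- transitivity of integrality -/
theorem trans (g : ℕ) (R : Subalgebra ℂ (LS ℂ)) (hX : ∀ d : ℂ[X], evX g d ∈ R)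
    (hI : ∀ x ∈ R, (evX g : ℂ[X] →+* LS ℂ).IsIntegralElem x) (x : LS ℂ) (hx : IsIntegral R x) :
    (evX g : ℂ[X] →+* LS ℂ).IsIntegralElem x := by
  let f : ℂ[X] →+* R := (evX g : ℂ[X] →+* LS ℂ).codRestrict R hX
  letI : Algebra ℂ[X] R := f.toAlgebra
  letI : Algebra ℂ[X] (LS ℂ) := (evX g : ℂ[X] →+* LS ℂ).toAlgebra
  haveI : IsScalarTower ℂ[X] R (LS ℂ) := IsScalarTower.of_algebraMap_eq fun _ => rfl
  haveI : Algebra.IsIntegral ℂ[X] R := by
    refine ⟨fun r => ?_⟩
    obtain ⟨P, hP, hP0⟩ := hI r r.2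
    refine ⟨P, hP, ?_⟩
    apply Subtype.ext
    have h1 : (R.val : R →+* LS ℂ) (eval₂ f r P) = eval₂ ((R.val : R →+* LS ℂ).comp f) (r : LS ℂ) P :=
      hom_eval₂ P f (R.val : R →+* LS ℂ) r
    exact h1.trans hP0
  exact isIntegral_trans (R := ℂ[X]) (A := R) x hx

end GIT_

theorem git_proof (hGRI : Stmt_GRI) (hGFR : Stmt_GFR) (hGEI : Stmt_GEI) (hGIC : Stmt_GIC) :
    Stmt_GIT := by
  intro g D R hR x a s ha hs hs0 hx hint
  have hg : 0 < g := by have := D.g3; omega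
  obtain ⟨s', d, hs', hd, hsd⟩ := hGFR g D s ((hR s).1 hs) hs0
  have hev := GIT_.evX_ne_zero g hg d hd
  have hs'0 : s' ≠ 0 := by
    rintro rfl
    rw [mul_zero] at hsd
    exact hev hsd.symm
  obtain ⟨p, q, hVU, hsum⟩ := (hR _).1 (mul_mem ha ((hR s').2 hs'))
  have hxd : x = (∑ i ∈ Finset.range g, ev g D.Y (p i) (q i) * D.w ^ i) / evX g d := by
    rw [← hsum, ← hsd, hx, mul_div_mul_right _ _ hs'0]
  have hint' : (evX g : ℂ[X] →+* LS ℂ).IsIntegralElem x :=
    GIT_.trans g R (fun d => (hR _).2 (GIT_.inR_evX g D d))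
      (fun y hy => hGRI g D y ((hR y).1 hy)) x hint
  have h1 := hGEI g D p q d hd (by rw [← hxd]; exact hint')
  have h2 : ∀ i, i < g → ∃ p' q' : ℂ[X], VU ((g : ℂ) ^ 2) (-D.U) i p' q' ∧ p i = d * p' ∧
      q i = d * q' := fun i hi => hGIC g D i (p i) (q i) d hi hd (h1 i hi)
  choose p' q' h3 using h2
  rw [hR]
  refine ⟨fun i => if h : i < g then p' i h else 0, fun i => if h : i < g then q' i h else 0,
    ?_, ?_⟩
  · intro i hi
    simp only [dif_pos hi]
    exact (h3 i hi).1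
  · rw [hxd, div_eq_iff hev, Finset.sum_mul]
    apply Finset.sum_congr rfl
    intro i hi
    have hi' := Finset.mem_range.1 hi
    simp only [dif_pos hi']
    rw [(h3 i hi').2.1, (h3 i hi').2.2, ev_cmul]
    ring

end Pool.Agent.RTB
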