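import Pool.Agent.RTB.GStmts

/-! Inverses in the ring of Laurent series. -/

set_option autoImplicit false

namespace Pool.Agent.RTB

namespace GIV_

variable {B : Type} [CommRing B]

theorem Ld_ps (q : PowerSeries B) :
    Ld (HahnSeries.ofPowerSeries ℤ B q) 0 (PowerSeries.constantCoeff q) := by
  constructor
  · intro k hk
    rw [HahnSeries.ofPowerSeries_apply, HahnSeries.embDomain_of_notMem_range]
    rintro ⟨n, hn⟩
    have h1 : (n : ℤ) = k := hn
    omega
  · have := HahnSeries.ofPowerSeries_apply_coeff (Γ := ℤ) (R := B) q 0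
    rw [PowerSeries.coeff_zero_eq_constantCoeff] at this
    exact_mod_cast this

end GIV_

open GIV_ in
theorem giv_proof : Stmt_GIV := by
  intro B _ m x hx
  rcases subsingleton_or_nontrivial B with hB | hB
  · have hS : Subsingleton (LS B) := ⟨fun a b => by
      ext n
      exact Subsingleton.elim _ _⟩
    exact ⟨0, ⟨fun _ _ => rfl, Subsingleton.elim _ _⟩, Subsingleton.elim _ _⟩
  · have ho : x.order = m := hx.order one_ne_zero
    have h1 := LaurentSeries.ofPowerSeries_powerSeriesPart x
    have hc : PowerSeries.constantCoeff (LaurentSeries.powerSeriesPart x) = 1 := by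
      rw [← PowerSeries.coeff_zero_eq_constantCoeff_apply, LaurentSeries.powerSeriesPart_coeff, ho]
      simpa using hx.2
    have h2 : LaurentSeries.powerSeriesPart x *
        PowerSeries.invOfUnit (LaurentSeries.powerSeriesPart x) 1 = 1 :=
      PowerSeries.mul_invOfUnit _ 1 (by rw [hc]; rfl)
    refine ⟨HahnSeries.single (-m) 1 * HahnSeries.ofPowerSeries ℤ B
      (PowerSeries.invOfUnit (LaurentSeries.powerSeriesPart x) 1), ?_, ?_⟩
    · have h3 := (Ld_single (-m) (1 : B)).mul
        (Ld_ps (PowerSeries.invOfUnit (LaurentSeries.powerSeriesPart x) 1))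
      rw [PowerSeries.constantCoeff_invOfUnit] at h3
      simpa using h3
    · rw [← mul_assoc, mul_comm x, ← ho, ← h1, ← map_mul, h2, map_one]

end Pool.Agent.RTB
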