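import Pool.Agent.RTB.GStmts

/-!
# squad RTB, module GKD: the functions on the cuspidal cubic
-/

set_option autoImplicit false

open Polynomial

namespace Pool.Agent.RTB

namespace GKD_

theorem coeff_sum {B : Type} [CommRing B] (a : ℕ → B) (n k : ℕ) (h : n < k → a k = 0) :
    (∑ i ∈ Finset.range (n + 1), monomial i (a i)).coeff k = a k := by
  rw [finsetSum_coeff]
  by_cases hk : k ≤ n
  · rw [Finset.sum_eq_single k]
    · rw [coeff_monomial_same]
    · intro i _ hik
      exact coeff_monomial_of_ne _ (Ne.symm hik)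
    · intro hkn
      exact absurd (Finset.mem_range.2 (by omega)) hkn
  · rw [h (by omega)]
    refine Finset.sum_eq_zero fun i hi => ?_
    have := Finset.mem_range.1 hi
    exact coeff_monomial_of_ne _ (by omega)

end GKD_

theorem gkd_proof : Stmt_GKD := by
  intro B _ f n hf h1
  have hz : ∀ k, n < k → f.coeff k = 0 := fun k hk =>
    coeff_eq_zero_of_natDegree_lt (lt_of_le_of_lt hf hk)
  have hp : ∀ k, (∑ i ∈ Finset.range (n + 1), monomial i (f.coeff (2 * i))).coeff k =
      f.coeff (2 * k) := fun k =>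
    GKD_.coeff_sum (fun i => f.coeff (2 * i)) n k (fun hk => hz _ (by omega))
  have hq : ∀ k, (∑ i ∈ Finset.range (n + 1), monomial i (-f.coeff (2 * i + 3))).coeff k =
      -f.coeff (2 * k + 3) := fun k =>
    GKD_.coeff_sum (fun i => -f.coeff (2 * i + 3)) n k
      (fun hk => by rw [hz _ (by omega), neg_zero])
  refine ⟨∑ i ∈ Finset.range (n + 1), monomial i (f.coeff (2 * i)),
    ∑ i ∈ Finset.range (n + 1), monomial i (-f.coeff (2 * i + 3)), ?_, ?_⟩
  · apply Bd.of_coeff
    · intro k hk
      rw [hp, hz _ hk]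
    · intro k hk
      rw [hq, hz _ hk, neg_zero]
  · ext k
    rcases Nat.even_or_odd' k with ⟨j, hj | hj⟩
    · rw [hj, rd_coeff_even, hp]
    · by_cases hj0 : j = 0
      · have e : k = 1 := by omega
        rw [e, rd_coeff_one, h1]
      · obtain ⟨i, rfl⟩ := Nat.exists_eq_succ_of_ne_zero hj0
        have e : k = 2 * i + 3 := by omega
        rw [e, rd_coeff_odd, hq, neg_neg]

end Pool.Agent.RTB
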