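import Pool.Agent.RTB.GStmts

/-! # squad RTB, module GKP (helper1): vanishing at a point of the cuspidal cubic -/

set_option autoImplicit false

open Polynomial

namespace Pool.Agent.RTB

namespace GKP_

variable {F : Type} [Field F]

theorem coprime_X_sub_C {c : F} {f : F[X]} (h : f.eval c ≠ 0) : IsCoprime (X - C c) f := by
  have hirr : Irreducible (X - C c) := irreducible_X_sub_C c
  rw [hirr.coprime_iff_not_dvd, dvd_iff_isRoot]
  exact h

theorem factor (c : F) : (X : F[X]) ^ 2 - C (c ^ 2) = (X - C c) * (X + C c) := by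
  rw [C_pow]; ring

theorem dvd_comp {c : F} {i : ℕ} {h : F[X]} (hd : (X - C (c ^ 2)) ^ i ∣ h) :
    (X - C c) ^ i ∣ h.comp (X ^ 2) := by
  obtain ⟨k, rfl⟩ := hd
  have h1 : ((X - C (c ^ 2)) ^ i * k : F[X]).comp (X ^ 2) =
      (X - C c) ^ i * ((X + C c) ^ i * k.comp (X ^ 2)) := by
    rw [mul_comp, pow_comp, sub_comp, X_comp, C_comp, factor, mul_pow]
    ring
  rw [h1]
  exact dvd_mul_right _ _

theorem comp_dvd {c : F} (h2 : (2 : F) ≠ 0) (hc : c ≠ 0) (i : ℕ) :
    ∀ h : F[X], (X - C c) ^ i ∣ h.comp (X ^ 2) → (X - C (c ^ 2)) ^ i ∣ h := by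
  induction i with
  | zero => intro h _; simp
  | succ i ih =>
    intro h hd
    have h0 : h.eval (c ^ 2) = 0 := by
      have h1 : (X - C c) ∣ h.comp (X ^ 2) := dvd_trans (dvd_pow_self _ (Nat.succ_ne_zero i)) hd
      rw [dvd_iff_isRoot, IsRoot.def, eval_comp] at h1
      simpa using h1
    have h3 : (X - C (c ^ 2)) ∣ h := by
      rw [dvd_iff_isRoot]; exact h0
    obtain ⟨k, rfl⟩ := h3
    rw [mul_comp, sub_comp, X_comp, C_comp, factor, pow_succ', mul_assoc] at hd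
    have h4 := (mul_dvd_mul_iff_left (X_sub_C_ne_zero c)).1 hd
    have hcop : IsCoprime ((X - C c) ^ i) (X + C c) := by
      apply IsCoprime.pow_left
      apply coprime_X_sub_C
      rw [eval_add, eval_X, eval_C, ← two_mul]
      exact mul_ne_zero h2 hc
    have h5 := hcop.dvd_of_dvd_mul_left h4
    rw [pow_succ']
    exact mul_dvd_mul_left _ (ih k h5)

end GKP_

open GKP_ in
theorem gkp_proof : Stmt_GKP := by
  intro F _ c N U h2 hc hU hUa i p q hi
  have hc3 : c ^ 3 ≠ 0 := pow_ne_zero _ hc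
  have h1 : (X - C c) ^ N ∣ (U.comp (X ^ 2) - X ^ 3) * (U.comp (X ^ 2) + X ^ 3) := by
    have h3 := dvd_comp hU
    have h4 : (U ^ 2 - X ^ 3 : F[X]).comp (X ^ 2) =
        (U.comp (X ^ 2) - X ^ 3) * (U.comp (X ^ 2) + X ^ 3) := by
      rw [sub_comp, pow_comp, pow_comp, X_comp]
      ring
    rwa [h4] at h3
  have h5 : IsCoprime ((X - C c) ^ N) (U.comp (X ^ 2) - X ^ 3) := by
    apply IsCoprime.pow_left
    apply coprime_X_sub_C
    rw [eval_sub, eval_comp, eval_pow, eval_pow, eval_X, hUa]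
    have : -c ^ 3 - c ^ 3 = -(2 * c ^ 3) := by ring
    rw [this]
    exact neg_ne_zero.2 (mul_ne_zero h2 hc3)
  have h6 : (X - C c) ^ N ∣ U.comp (X ^ 2) + X ^ 3 := h5.dvd_of_dvd_mul_left h1
  have h7 : (X - C c) ^ i ∣ q.comp (X ^ 2) * (U.comp (X ^ 2) + X ^ 3) :=
    Dvd.dvd.mul_left (dvd_trans (pow_dvd_pow _ hi) h6) _
  have h8 : rd p q = (p + q * U).comp (X ^ 2) - q.comp (X ^ 2) * (U.comp (X ^ 2) + X ^ 3) := by
    rw [rd, add_comp, mul_comp]
    ring
  rw [h8, dvd_sub_left h7]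
  exact ⟨fun h => dvd_comp h, fun h => comp_dvd h2 hc i _ h⟩

end Pool.Agent.RTB
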