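import Pool.Agent.RTB.GStmts

/-!
# squad RTB, module GKS: Riemann-Roch on the cuspidal cubic, surjectivity
-/

set_option autoImplicit false

open Polynomial

namespace Pool.Agent.RTB

theorem gks_proof (hKP : Stmt_GKP) (hKD : Stmt_GKD) : Stmt_GKS := by
  intro F _ _ c N U hc hU hUe i u hi
  rcases Nat.eq_zero_or_pos i with h0 | h0
  · subst h0
    exact ⟨0, 0, Bd.zero 0, by simp⟩
  · have hmon : ((X - C c) ^ i : F[X]).Monic := (monic_X_sub_C c).pow i
    have hdeg : ((X - C c) ^ i : F[X]).natDegree = i := by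
      rw [natDegree_pow, natDegree_X_sub_C, mul_one]
    set r : F[X] := (u.comp (X ^ 2)) %ₘ (X - C c) ^ i with hr
    have hrd : r.natDegree ≤ i := by
      have := natDegree_modByMonic_lt (u.comp (X ^ 2)) hmon (by
        intro h
        have h1 := congrArg natDegree h
        rw [hdeg, natDegree_one] at h1
        omega)
      rw [hdeg] at this
      exact this.le
    have hcoef : ((X - C c) ^ i : F[X]).coeff 1 ≠ 0 := by
      rw [sub_eq_add_neg, ← C_neg, coeff_X_add_C_pow, Nat.choose_one_right]
      exact mul_ne_zero (pow_ne_zero _ (neg_ne_zero.mpr hc)) (by exact_mod_cast h0.ne')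
    set e : F := -(r.coeff 1) / ((X - C c) ^ i : F[X]).coeff 1 with he
    obtain ⟨p, q, hpq, hrpq⟩ := hKD F (r + C e * (X - C c) ^ i) i (by
        refine (natDegree_add_le _ _).trans (max_le hrd ?_)
        refine (natDegree_C_mul_le _ _).trans ?_
        rw [hdeg]) (by
        rw [coeff_add, coeff_C_mul, he, div_mul_cancel₀ _ hcoef, add_neg_cancel])
    refine ⟨p, q, hpq, ?_⟩
    have h1 : (X - C c) ^ i ∣ rd (p - u) q := by
      have h2 : rd (p - u) q = rd p q - u.comp (X ^ 2) := by
        simp only [rd, sub_comp]; ring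
      have h3 : u.comp (X ^ 2) = r + (X - C c) ^ i * (u.comp (X ^ 2) /ₘ (X - C c) ^ i) :=
        (modByMonic_add_div (u.comp (X ^ 2)) ((X - C c) ^ i)).symm
      rw [h2, hrpq]
      refine ⟨C e - u.comp (X ^ 2) /ₘ (X - C c) ^ i, ?_⟩
      rw [mul_sub]
      linear_combination -h3
    have h4 := (hKP F c N U two_ne_zero hc hU hUe i (p - u) q hi).mpr h1
    have h5 : p + q * U - u = (p - u) + q * U := by ring
    rw [h5]
    exact h4

end Pool.Agent.RTB
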