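import Pool.Agent.RTB.GStmts

set_option autoImplicit false
set_option linter.unusedSectionVars false

open Polynomial

namespace Pool.Agent.RTB

namespace GLF_

variable {O : Type} [CommRing O] [IsLocalRing O]

/-- lift of a polynomial -/
theorem lift1 (p : (IsLocalRing.ResidueField O)[X]) :
    ∃ q : O[X], q.map (IsLocalRing.residue O) = p ∧ q.degree = p.degree :=
  exists_degree_eq_of_mem_lifts
    (mem_lifts_of_surjective (f := IsLocalRing.residue O) IsLocalRing.residue_surjective p)

/-- lift of a pair -/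
theorem lift2 (p q : (IsLocalRing.ResidueField O)[X]) (n : ℕ) (h : Bd p q n) :
    ∃ p' q' : O[X], Bd p' q' n ∧ p'.map (IsLocalRing.residue O) = p ∧
      q'.map (IsLocalRing.residue O) = q := by
  obtain ⟨p', hp1, hp2⟩ := lift1 p
  obtain ⟨q', hq1, hq2⟩ := lift1 q
  refine ⟨p', q', ⟨?_, ?_⟩, hp1, hq1⟩
  · rw [natDegree_eq_of_degree_eq hp2]; exact h.1
  · rcases h.2 with h2 | h2
    · left
      rw [h2, degree_zero, degree_eq_bot] at hq2
      exact hq2
    · right
      rw [natDegree_eq_of_degree_eq hq2]; exact h2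

theorem monD (a : O) (i : ℕ) : ((X - C a) ^ i : O[X]).Monic := (monic_X_sub_C a).pow i

theorem degD (a : O) (i : ℕ) : ((X - C a) ^ i : O[X]).degree = i := by
  rw [degree_eq_natDegree (monD a i).ne_zero, (monic_X_sub_C a).natDegree_pow, natDegree_X_sub_C,
    mul_one]

/-- polynomials congruent to some p + q U -/
noncomputable def NN (a : O) (U : O[X]) (i : ℕ) : Submodule O O[X] where
  carrier := {x | ∃ p q : O[X], Bd p q i ∧ (X - C a) ^ i ∣ p + q * U - x}
  zero_mem' := ⟨0, 0, Bd.zero i, by simp⟩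
  add_mem' := by
    rintro x y ⟨p, q, hb, hd⟩ ⟨p', q', hb', hd'⟩
    refine ⟨p + p', q + q', hb.add hb', ?_⟩
    have h : p + p' + (q + q') * U - (x + y) = (p + q * U - x) + (p' + q' * U - y) := by ring
    rw [h]
    exact dvd_add hd hd'
  smul_mem' := by
    rintro c x ⟨p, q, hb, hd⟩
    refine ⟨C c * p, C c * q, hb.cmul c, ?_⟩
    have h : C c * p + C c * q * U - c • x = C c * (p + q * U - x) := by
      rw [smul_eq_C_mul]; ring
    rw [h]
    exact Dvd.dvd.mul_left hd _

/-- a polynomial of small degree with coefficients in the maximal ideal -/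
theorem mem_m (i : ℕ) (r : O[X]) (hd : r.degree < i) (hm : r.map (IsLocalRing.residue O) = 0) :
    r ∈ IsLocalRing.maximalIdeal O • (degreeLT O i : Submodule O O[X]) := by
  have h1 : r = ∑ j ∈ Finset.range i, (r.coeff j) • (X ^ j : O[X]) := by
    have h2 : r.natDegree < i ∨ i = 0 := by
      by_cases hi : i = 0
      · exact Or.inr hi
      · left
        by_cases hr : r = 0
        · rw [hr, natDegree_zero]; omega
        · exact (natDegree_lt_iff_degree_lt hr).2 hd
    rcases h2 with h2 | h2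
    · conv_lhs => rw [r.as_sum_range_C_mul_X_pow' h2]
      refine Finset.sum_congr rfl ?_
      intro j _
      rw [smul_eq_C_mul]
    · subst h2
      simp only [Finset.range_zero, Finset.sum_empty]
      rw [← degree_eq_bot]
      exact WithBot.lt_coe_bot.1 hd
  rw [h1]
  refine Submodule.sum_mem _ ?_
  intro j hj
  refine Submodule.smul_mem_smul ?_ ?_
  · rw [← IsLocalRing.residue_eq_zero_iff, ← coeff_map, hm, coeff_zero]
  · rw [mem_degreeLT]
    refine lt_of_le_of_lt (degree_X_pow_le j) ?_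
    exact_mod_cast Finset.mem_range.1 hj

/-- the assumptions -/
structure Hy (c b : O) (N : ℕ) (U : O[X]) : Prop where
  c0 : IsLocalRing.residue O c ≠ 0
  b0 : IsLocalRing.residue O b = 0
  hU : (X - C (c ^ 2)) ^ N ∣ U ^ 2 - X ^ 3 - C b
  ev : IsLocalRing.residue O (U.eval (c ^ 2)) = -(IsLocalRing.residue O c) ^ 3

theorem mapD (c : O) (i : ℕ) : ((X - C (c ^ 2)) ^ i : O[X]).map (IsLocalRing.residue O) =
    (X - C ((IsLocalRing.residue O c) ^ 2)) ^ i := by
  simp

theorem Hy.red {c b : O} {N : ℕ} {U : O[X]} (h : Hy c b N U) :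
    (X - C ((IsLocalRing.residue O c) ^ 2)) ^ N ∣
      (U.map (IsLocalRing.residue O)) ^ 2 - X ^ 3 := by
  have h1 := Polynomial.map_dvd (IsLocalRing.residue O) h.hU
  rw [mapD] at h1
  have h2 : (U ^ 2 - X ^ 3 - C b).map (IsLocalRing.residue O) =
      (U.map (IsLocalRing.residue O)) ^ 2 - X ^ 3 := by
    simp [h.b0]
  rw [h2] at h1
  exact h1

theorem Hy.red2 {c b : O} {N : ℕ} {U : O[X]} (h : Hy c b N U) :
    (U.map (IsLocalRing.residue O)).eval ((IsLocalRing.residue O c) ^ 2) =
      -(IsLocalRing.residue O c) ^ 3 := by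
  rw [← h.ev, ← map_pow, eval_map_apply]

theorem surj [CharZero (IsLocalRing.ResidueField O)] (hS : Stmt_GKS) {c b : O} {N : ℕ} {U : O[X]}
    (h : Hy c b N U) (i : ℕ) (hi : i ≤ N) :
    (degreeLT O i : Submodule O O[X]) ≤ NN (c ^ 2) U i := by
  refine Submodule.le_of_le_smul_of_le_jacobson_bot (I := IsLocalRing.maximalIdeal O) ?_
    (IsLocalRing.maximalIdeal_le_jacobson _) ?_
  · classical
    rw [degreeLT_eq_span_X_pow]
    exact ⟨_, rfl⟩
  · intro u hu
    rw [mem_degreeLT] at hu
    obtain ⟨p0, q0, hb, hd⟩ := hS (IsLocalRing.ResidueField O) (IsLocalRing.residue O c) N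
      (U.map (IsLocalRing.residue O)) h.c0 h.red h.red2 i (u.map (IsLocalRing.residue O)) hi
    obtain ⟨p, q, hb', hp, hq⟩ := lift2 p0 q0 i hb
    have hmon := monD (c ^ 2) i
    have hx1 : (p + q * U) %ₘ ((X - C (c ^ 2)) ^ i) ∈ NN (c ^ 2) U i := by
      refine ⟨p, q, hb', ?_⟩
      exact dvd_sub_comm.1 (dvd_modByMonic_sub (p + q * U) ((X - C (c ^ 2)) ^ i))
    have hlt : ((p + q * U) %ₘ ((X - C (c ^ 2)) ^ i)).degree < i := by
      have := degree_modByMonic_lt (p + q * U) hmon
      rw [degD] at this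
      exact this
    have hx2 : u - (p + q * U) %ₘ ((X - C (c ^ 2)) ^ i) ∈
        IsLocalRing.maximalIdeal O • (degreeLT O i : Submodule O O[X]) := by
      refine mem_m i _ ?_ ?_
      · exact lt_of_le_of_lt (degree_sub_le _ _) (max_lt hu hlt)
      · have h1 : u = u %ₘ ((X - C (c ^ 2)) ^ i) := by
          rw [(modByMonic_eq_self_iff hmon).2]
          rw [degD]; exact hu
        have h2 : u - (p + q * U) %ₘ ((X - C (c ^ 2)) ^ i) =
            (u - (p + q * U)) %ₘ ((X - C (c ^ 2)) ^ i) := by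
          rw [sub_modByMonic, ← h1]
        rw [h2, map_modByMonic _ hmon, modByMonic_eq_zero_iff_dvd (hmon.map _), mapD,
          Polynomial.map_sub, Polynomial.map_add, Polynomial.map_mul, hp, hq]
        exact dvd_sub_comm.1 hd
    have h3 : u = (p + q * U) %ₘ ((X - C (c ^ 2)) ^ i) +
        (u - (p + q * U) %ₘ ((X - C (c ^ 2)) ^ i)) := by ring
    rw [h3]
    exact Submodule.add_mem_sup hx1 hx2

/-- correction of an element with coefficients in the maximal ideal -/
theorem corr {a : O} {U : O[X]} {i : ℕ}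
    (hs : (degreeLT O i : Submodule O O[X]) ≤ NN a U i) (r : ℕ → O)
    (hr : ∀ j, IsLocalRing.residue O (r j) = 0) (n : ℕ) (hn : n ≤ i) :
    ∃ p q : O[X], Bd p q i ∧ p.map (IsLocalRing.residue O) = 0 ∧
      q.map (IsLocalRing.residue O) = 0 ∧
      (X - C a) ^ i ∣ p + q * U - ∑ j ∈ Finset.range n, C (r j) * X ^ j := by
  induction n with
  | zero => exact ⟨0, 0, Bd.zero i, by simp, by simp, by simp⟩
  | succ n ih =>
    obtain ⟨p, q, hb, hp, hq, hd⟩ := ih (by omega)
    have h1 : (X ^ n : O[X]) ∈ NN a U i := by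
      apply hs
      rw [mem_degreeLT]
      refine lt_of_le_of_lt (degree_X_pow_le n) ?_
      exact_mod_cast hn
    obtain ⟨p', q', hb', hd'⟩ := h1
    refine ⟨p + C (r n) * p', q + C (r n) * q', hb.add (hb'.cmul _), ?_, ?_, ?_⟩
    · rw [Polynomial.map_add, Polynomial.map_mul, hp, map_C, hr, C_0, zero_mul, add_zero]
    · rw [Polynomial.map_add, Polynomial.map_mul, hq, map_C, hr, C_0, zero_mul, add_zero]
    · have h2 : p + C (r n) * p' + (q + C (r n) * q') * U -
          ∑ j ∈ Finset.range (n + 1), C (r j) * X ^ j =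
          (p + q * U - ∑ j ∈ Finset.range n, C (r j) * X ^ j) +
            C (r n) * (p' + q' * U - X ^ n) := by
        rw [Finset.sum_range_succ]; ring
      rw [h2]
      exact dvd_add hd (Dvd.dvd.mul_left hd' _)

end GLF_

open GLF_ in
theorem glf_proof (hP : Stmt_GKP) (hD : Stmt_GKD) (hS : Stmt_GKS) : Stmt_GLF := by
  intro O _ _ _ c b N U hc hb hU hev i n f hi hin hf hf1 hdf
  have h : Hy c b N U := ⟨hc, hb, hU, hev⟩
  obtain ⟨p0, q0, hb0, hrd⟩ := hD (IsLocalRing.ResidueField O) f n hf hf1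
  obtain ⟨p, q, hbpq, hp, hq⟩ := lift2 p0 q0 n hb0
  have hmon := monD (c ^ 2) i
  have hv : VU ((IsLocalRing.residue O c) ^ 2) (U.map (IsLocalRing.residue O)) i p0 q0 := by
    rw [hP (IsLocalRing.ResidueField O) (IsLocalRing.residue O c) N
      (U.map (IsLocalRing.residue O)) two_ne_zero h.c0 h.red h.red2 i p0 q0 hi, hrd]
    exact hdf
  obtain ⟨r, hrdef⟩ : ∃ r, r = (p + q * U) %ₘ ((X - C (c ^ 2)) ^ i) := ⟨_, rfl⟩
  have hrm : r.map (IsLocalRing.residue O) = 0 := by
    rw [hrdef, map_modByMonic _ hmon, modByMonic_eq_zero_iff_dvd (hmon.map _), mapD,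
      Polynomial.map_add, Polynomial.map_mul, hp, hq]
    exact hv
  have hrlt : r.degree < i := by
    have := degree_modByMonic_lt (p + q * U) hmon
    rw [degD] at this
    rw [hrdef]
    exact this
  have hrs : r = ∑ j ∈ Finset.range i, C (r.coeff j) * X ^ j := by
    have h2 : r.natDegree < i ∨ i = 0 := by
      by_cases hi : i = 0
      · exact Or.inr hi
      · left
        by_cases hr : r = 0
        · rw [hr, natDegree_zero]; omega
        · exact (natDegree_lt_iff_degree_lt hr).2 hrlt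
    rcases h2 with h2 | h2
    · exact r.as_sum_range_C_mul_X_pow' h2
    · subst h2
      simp only [Finset.range_zero, Finset.sum_empty]
      rw [← degree_eq_bot]
      exact WithBot.lt_coe_bot.1 hrlt
  obtain ⟨p1, q1, hb1, hp1, hq1, hd1⟩ := corr (surj hS h i hi) (fun j => r.coeff j)
    (fun j => by rw [← coeff_map, hrm, coeff_zero]) i le_rfl
  refine ⟨p - p1, q - q1, ?_, ?_, ?_⟩
  · have h1 := hbpq.add ((hb1.mono hin).cmul (-1))
    have h2 : p + C (-1) * p1 = p - p1 := by rw [C_neg, C_1]; ring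
    have h3 : q + C (-1) * q1 = q - q1 := by rw [C_neg, C_1]; ring
    rw [h2, h3] at h1
    exact h1
  · show (X - C (c ^ 2)) ^ i ∣ p - p1 + (q - q1) * U
    have h1 : p - p1 + (q - q1) * U = -(r - (p + q * U)) - (p1 + q1 * U - r) := by ring
    rw [h1]
    refine dvd_sub ?_ ?_
    · rw [dvd_neg, hrdef]
      exact dvd_modByMonic_sub _ _
    · conv_rhs => rw [hrs]
      exact hd1
  · rw [Polynomial.map_sub, Polynomial.map_sub, hp1, hq1, sub_zero, sub_zero, hp, hq]
    exact hrd

end Pool.Agent.RTB
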