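import Pool.Agent.RTB.GStmts

/-!
# squad RTB, part G: the marked curve
-/

set_option autoImplicit false

namespace Pool.Agent.RTB

theorem gmk_proof (hVALO : Crv.Stmt_VALO) (hPOL : Crv.Stmt_POL) (hGFF : Stmt_GFF)
    (hGPT : Stmt_GPT) (hGLN : Stmt_GLN) (hGGN : Stmt_GGN) : Stmt_GMK := by
  intro g K _ _ R v hR y c hy hc
  have hFF := hGFF g K R v hR
  obtain ⟨V⟩ := hVALO K hFF
  obtain ⟨p, hp⟩ := hGPT g K R v hR
  have hpol : ∀ n : ℕ, (⨅ q, polar p n q : Submodule ℂ K) = V.L (Crv.np p (n : ℤ)) :=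
    fun n => (hPOL K V p p n).2
  refine ⟨{ K := K, isFF := hFF, genus := hGGN g K R v hR V p hp, pt := p, nonW := ?_,
            y := y, pole := ?_, c := c, table := hc }, rfl⟩
  · have h1 := (hGLN g K R v hR V p hp g).2.1 le_rfl
    unfold Crv.Val.ell at h1
    unfold h0
    rw [hpol]
    exact_mod_cast h1
  · intro i
    obtain ⟨h1, h2, h3⟩ := hy i
    constructor
    · rw [hpol, (hGLN g K R v hR V p hp (g + 1 + (i : ℕ))).1]
      refine ⟨h1, Or.inr ?_⟩
      rw [h3]; push_cast; linarith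
    · rw [hpol, (hGLN g K R v hR V p hp (g + (i : ℕ))).1]
      rintro ⟨-, h | h⟩
      · exact h2 h
      · rw [h3] at h
        push_cast at h
        linarith

end Pool.Agent.RTB
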