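import Pool.Agent.RTB.GStmts

set_option autoImplicit false

open Polynomial

set_option maxHeartbeats 400000

namespace Pool.Agent.RTB

namespace GNX_

/-- a monic polynomial of degree one more -/
theorem factor {B : Type} [CommRing B] [IsDomain B] {N P : B[X]} {g : ℕ} (hN : N.Monic)
    (hP : P.Monic) (hNd : N.natDegree = g + 1) (hPd : P.natDegree = g) (h : P ∣ N) :
    ∃ x : B, N = P * (X - C x) := by
  obtain ⟨M, hM⟩ := h
  have hMm : M.Monic := by
    apply hP.of_mul_monic_left
    rw [← hM]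
    exact hN
  have hMd : M.natDegree = 1 := by
    have := hP.natDegree_mul hMm
    rw [← hM, hNd, hPd] at this
    omega
  refine ⟨-M.coeff 0, ?_⟩
  rw [hM]
  congr 1
  have h1 := eq_X_add_C_of_natDegree_le_one (p := M) (by omega)
  have h2 : M.coeff 1 = 1 := by
    rw [← hMd]
    exact hMm
  rw [h2] at h1
  rw [h1]
  simp

variable {g : ℕ} {O : ValuationSubring ℂ}

/-- the norm -/
noncomputable def N (D : OD g O) : O[X] := D.px ^ 2 - D.qx ^ 2 * (X ^ 3 + C D.b)

theorem N_dvd (D : OD g O) : (X - C ((g : O) ^ 2)) ^ g ∣ N D := by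
  have h : N D = (D.px + D.qx * D.U) * (D.px - D.qx * D.U) +
      D.qx ^ 2 * (D.U ^ 2 - X ^ 3 - C D.b) := by
    unfold N
    ring
  rw [h]
  apply dvd_add
  · exact Dvd.dvd.mul_right D.hx _
  · apply Dvd.dvd.mul_left
    refine dvd_trans (pow_dvd_pow _ ?_) D.hU
    nlinarith [Nat.zero_le g, sq_nonneg ((g : ℤ) - 1)]

theorem px_monic (D : OD g O) : D.px.Monic ∧ D.px.natDegree = (g + 1) / 2 := by
  have h1 := D.bd.1
  have h2 := D.lead
  have h3 : D.px.natDegree ≤ (g + 1) / 2 := by omega
  have h4 : (g + 1) / 2 ≤ D.px.natDegree := by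
    apply le_natDegree_of_ne_zero
    rw [h2]
    exact one_ne_zero
  have h5 : D.px.natDegree = (g + 1) / 2 := le_antisymm h3 h4
  refine ⟨?_, h5⟩
  show D.px.leadingCoeff = 1
  rw [leadingCoeff, h5, h2]

theorem N_monic (D : OD g O) (hg : Odd g) : (N D).Monic ∧ (N D).natDegree = g + 1 := by
  obtain ⟨h1, h2⟩ := px_monic D
  have h3 : (D.px ^ 2).Monic := h1.pow 2
  have h4 : (D.px ^ 2).natDegree = g + 1 := by
    rw [h1.natDegree_pow, h2]
    obtain ⟨j, hj⟩ := hg
    omega
  have h5 : (D.qx ^ 2 * (X ^ 3 + C D.b)).degree < (D.px ^ 2).degree := by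
    rw [degree_eq_natDegree h3.ne_zero, h4]
    rcases D.bd.2 with hq | hq
    · rw [hq]
      simp only [ne_eq, OfNat.ofNat_ne_zero, not_false_eq_true, zero_pow, zero_mul, degree_zero]
      exact WithBot.bot_lt_coe _
    · have h6 : (D.qx ^ 2 * (X ^ 3 + C D.b)).natDegree ≤ 2 * D.qx.natDegree + 3 := by
        refine natDegree_mul_le.trans ?_
        have h7 := natDegree_pow_le (p := D.qx) (n := 2)
        have h8 : (X ^ 3 + C D.b : O[X]).natDegree ≤ 3 := by
          have := natDegree_X_pow_add_C (n := 3) (r := D.b)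
          omega
        omega
      refine (degree_le_natDegree).trans_lt ?_
      rw [Nat.cast_lt]
      obtain ⟨j, hj⟩ := hg
      omega
  constructor
  · exact h3.sub_of_left h5
  · have h6 : (N D).degree = (D.px ^ 2).degree := degree_sub_eq_left_of_degree_lt h5
    rw [natDegree_eq_of_degree_eq h6, h4]

theorem N_map (D : OD g O) (hg : Odd g) :
    (N D).map (red O) = (X - 1) * (X - C ((g : kap O) ^ 2)) ^ g := by
  have hinj : Function.Injective (fun p : (kap O)[X] => expand (kap O) 2 p) :=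
    expand_injective (by norm_num)
  apply hinj
  show expand (kap O) 2 _ = expand (kap O) 2 _
  rw [expand_eq_comp_X_pow, expand_eq_comp_X_pow]
  have h1 : ((N D).map (red O)).comp (X ^ 2) =
      rd (D.px.map (red O)) (D.qx.map (red O)) *
        (rd (D.px.map (red O)) (D.qx.map (red O))).comp (-X) := by
    have hb : red O D.b = 0 := D.vr.red_b
    unfold N rd
    simp only [Polynomial.map_sub, Polynomial.map_mul, Polynomial.map_pow, Polynomial.map_add,
      Polynomial.map_X, Polynomial.map_C, hb, map_zero, add_zero, sub_comp, mul_comp, pow_comp,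
      X_comp, comp_assoc]
    have h2 : ((-X : (kap O)[X]) ^ 2) = X ^ 2 := by ring
    rw [h2]
    ring
  rw [h1, D.hrd]
  simp only [sub_comp, mul_comp, pow_comp, add_comp, X_comp, C_comp, one_comp]
  have h3 : (X - C ((g : kap O) ^ 2)).comp (X ^ 2 : (kap O)[X]) =
      (X - C (g : kap O)) * (X + C (g : kap O)) := by
    simp only [sub_comp, X_comp, map_pow, pow_comp, C_comp]
    ring
  have h4 : (-X - C (g : kap O)) ^ g = -((X + C (g : kap O)) ^ g) := by
    have : (-X - C (g : kap O)) = -(X + C (g : kap O)) := by ring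
    rw [this, hg.neg_pow]
  rw [h4]
  have h5 : (X ^ 2 - C ((g : kap O) ^ 2)) ^ g =
      (X - C (g : kap O)) ^ g * (X + C (g : kap O)) ^ g := by
    rw [← mul_pow]
    congr 1
    rw [map_pow]
    ring
  rw [h5]
  ring

theorem main (D : OD g O) (hg : Odd g) (h3 : 3 ≤ g) : ∃ x : O,
    N D = (X - C ((g : O) ^ 2)) ^ g * (X - C x) ∧ red O x = 1 := by
  obtain ⟨h1, h2⟩ := N_monic D hg
  have hP : ((X - C ((g : O) ^ 2)) ^ g).Monic := (monic_X_sub_C _).pow g
  have hPd : ((X - C ((g : O) ^ 2)) ^ g).natDegree = g := by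
    rw [(monic_X_sub_C _).natDegree_pow, natDegree_X_sub_C, mul_one]
  obtain ⟨x, hx⟩ := factor h1 hP h2 hPd (N_dvd D)
  refine ⟨x, hx, ?_⟩
  have h4 := N_map D hg
  rw [hx] at h4
  have hgO : red O ((g : O) ^ 2) = (g : kap O) ^ 2 := by rw [map_pow, map_natCast]
  rw [Polynomial.map_mul, Polynomial.map_pow, Polynomial.map_sub, Polynomial.map_X,
    Polynomial.map_C, hgO, Polynomial.map_sub, Polynomial.map_X, Polynomial.map_C,
    mul_comm (X - 1 : (kap O)[X])] at h4
  have h5 : (X - C ((g : kap O) ^ 2)) ^ g ≠ 0 := ((monic_X_sub_C _).pow g).ne_zero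
  have h6 : (X - C ((g : kap O) ^ 2)) ^ g * (X - C (red O x)) =
      (X - C ((g : kap O) ^ 2)) ^ g * (X - C 1) := by
    rw [h4, map_one]
  have h7 := mul_left_cancel₀ h5 h6
  have h8 : C (red O x) = C 1 := by
    have := sub_right_injective h7
    exact this
  exact C_injective h8

end GNX_

open GNX_ in
theorem gnx_proof : Stmt_GNX := by
  intro g O D hg h3
  obtain ⟨x, hx, hr⟩ := main D hg h3
  haveI : CharZero (kap O) := D.vr.charZero
  have hb : red O D.b = 0 := D.vr.red_b
  have hg1 : ((g : kap O)) ^ 2 ≠ 1 := by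
    intro h
    have h' : ((g ^ 2 : ℕ) : kap O) = ((1 : ℕ) : kap O) := by
      push_cast
      exact h
    have := Nat.cast_injective h'
    nlinarith
  have hgk : (g : kap O) ≠ 0 := by
    have : g ≠ 0 := by omega
    exact_mod_cast this
  have hNC : (D.px.map O.subtype) ^ 2 - (D.qx.map O.subtype) ^ 2 * (X ^ 3 + C (D.b : ℂ)) =
      (X - C ((g : ℂ) ^ 2)) ^ g * (X - C (x : ℂ)) := by
    have h := congrArg (Polynomial.map O.subtype) hx
    have hgO : O.subtype ((g : O) ^ 2) = (g : ℂ) ^ 2 := by rw [map_pow, map_natCast]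
    have hbO : O.subtype D.b = (D.b : ℂ) := rfl
    have hxO : O.subtype x = (x : ℂ) := rfl
    unfold N at h
    simp only [Polynomial.map_mul, Polynomial.map_pow, Polynomial.map_sub, Polynomial.map_add,
      Polynomial.map_X, Polynomial.map_C, hgO, hbO, hxO] at h
    exact h
  have hxa : (x : ℂ) ≠ (g : ℂ) ^ 2 := by
    intro h
    have h' : x = (g : O) ^ 2 := by
      apply Subtype.ext
      rw [h]
      push_cast
      rfl
    apply hg1
    rw [← hr, h', map_pow, map_natCast]
  have hx3 : (x : ℂ) ^ 3 + (D.b : ℂ) ≠ 0 := by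
    intro h
    have h' : x ^ 3 + D.b = 0 := by
      apply Subtype.ext
      push_cast
      exact h
    have h4 := congrArg (red O) h'
    rw [map_add, map_pow, hr, hb, map_zero] at h4
    simp at h4
  have hev : (D.px.map O.subtype).eval (x : ℂ) ^ 2 =
      (D.qx.map O.subtype).eval (x : ℂ) ^ 2 * ((x : ℂ) ^ 3 + (D.b : ℂ)) := by
    have h := congrArg (Polynomial.eval (x : ℂ)) hNC
    simp only [eval_sub, eval_mul, eval_pow, eval_add, eval_X, eval_C, sub_self, mul_zero] at h
    exact sub_eq_zero.mp h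
  have hq : (D.qx.map O.subtype).eval (x : ℂ) ≠ 0 := by
    intro h
    have hp : (D.px.map O.subtype).eval (x : ℂ) = 0 := by
      rw [h] at hev
      have : (D.px.map O.subtype).eval (x : ℂ) ^ 2 = 0 := by
        rw [hev]
        ring
      exact pow_eq_zero_iff (two_ne_zero) |>.mp this
    have d1 : (X - C (x : ℂ)) ∣ D.px.map O.subtype := dvd_iff_isRoot.mpr hp
    have d2 : (X - C (x : ℂ)) ∣ D.qx.map O.subtype := dvd_iff_isRoot.mpr h
    have d3 : (X - C (x : ℂ)) ^ 2 ∣ (X - C ((g : ℂ) ^ 2)) ^ g * (X - C (x : ℂ)) := by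
      rw [← hNC]
      apply dvd_sub
      · exact pow_dvd_pow_of_dvd d1 2
      · exact Dvd.dvd.mul_right (pow_dvd_pow_of_dvd d2 2) _
    rw [sq] at d3
    have d4 : (X - C (x : ℂ)) ∣ (X - C ((g : ℂ) ^ 2)) ^ g := by
      exact (mul_dvd_mul_iff_right (X_sub_C_ne_zero _)).mp d3
    have d5 := dvd_iff_isRoot.mp d4
    rw [IsRoot.def] at d5
    simp only [eval_pow, eval_sub, eval_X, eval_C] at d5
    exact hxa (sub_eq_zero.mp (eq_zero_of_pow_eq_zero d5))
  have hUa : D.U.eval ((g : O) ^ 2) ≠ 0 := by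
    intro h
    have := D.Ua
    rw [h, map_zero] at this
    have h2 : (g : kap O) ^ 3 = 0 := by
      rw [← neg_eq_zero]
      exact this.symm
    exact hgk (eq_zero_of_pow_eq_zero h2)
  refine ⟨(x : ℂ), -(D.px.map O.subtype).eval (x : ℂ) / (D.qx.map O.subtype).eval (x : ℂ),
    hNC, hxa, ?_, ?_, ?_, ?_⟩
  · rw [div_pow, neg_sq, hev]
    field_simp
  · intro h
    rw [div_eq_zero_iff] at h
    rcases h with h | h
    · rw [neg_eq_zero] at h
      rw [h] at hev
      have : (D.qx.map O.subtype).eval (x : ℂ) ^ 2 * ((x : ℂ) ^ 3 + (D.b : ℂ)) = 0 := by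
        rw [← hev]
        ring
      rcases mul_eq_zero.mp this with h4 | h4
      · exact hq (eq_zero_of_pow_eq_zero h4)
      · exact hx3 h4
    · exact hq h
  · field_simp
    ring
  · intro h
    have e1 : ∀ p : O[X], (p.map O.subtype).eval ((g : ℂ) ^ 2) = ((p.eval ((g : O) ^ 2) : O) : ℂ) := by
      intro p
      have : ((g : ℂ) ^ 2) = O.subtype ((g : O) ^ 2) := by
        rw [map_pow, map_natCast]
      rw [this, eval_map_apply]
      rfl
    rw [e1, e1, e1] at h
    have h' : D.px.eval ((g : O) ^ 2) - D.qx.eval ((g : O) ^ 2) * D.U.eval ((g : O) ^ 2) = 0 := by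
      apply Subtype.ext
      push_cast
      exact h
    have h4 : D.px.eval ((g : O) ^ 2) + D.qx.eval ((g : O) ^ 2) * D.U.eval ((g : O) ^ 2) = 0 := by
      have d : (X - C ((g : O) ^ 2)) ∣ D.px + D.qx * D.U :=
        dvd_trans (dvd_pow_self _ (by omega)) D.hx
      have := dvd_iff_isRoot.mp d
      rw [IsRoot.def] at this
      simpa only [eval_add, eval_mul] using this
    have h5 : D.px.eval ((g : O) ^ 2) = 0 := by
      have h6 : (2 : O) * D.px.eval ((g : O) ^ 2) = 0 := by linear_combination h' + h4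
      rcases mul_eq_zero.mp h6 with h7 | h7
      · exfalso
        have := D.vr.nat 2 (by norm_num)
        have h8 : ((2 : ℕ) : O) = 0 := by exact_mod_cast h7
        rw [h8] at this
        exact not_isUnit_zero this
      · exact h7
    have h6 : D.qx.eval ((g : O) ^ 2) = 0 := by
      rw [h5, zero_add] at h4
      rcases mul_eq_zero.mp h4 with h7 | h7
      · exact h7
      · exact absurd h7 hUa
    have h7 := congrArg (Polynomial.eval (-(g : kap O))) D.hrd
    unfold rd at h7
    have e2 : ∀ p : O[X], (p.map (red O)).eval ((g : kap O) ^ 2) = red O (p.eval ((g : O) ^ 2)) := by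
      intro p
      have : ((g : kap O) ^ 2) = red O ((g : O) ^ 2) := by
        rw [map_pow, map_natCast]
      rw [this, eval_map_apply]
    simp only [eval_sub, eval_mul, eval_comp, eval_pow, eval_X, eval_add, eval_one, eval_C] at h7
    have e3 : (-(g : kap O)) ^ 2 = (g : kap O) ^ 2 := by ring
    rw [e3, e2, e2, h5, h6, map_zero, zero_mul, sub_zero] at h7
    rcases mul_eq_zero.mp h7.symm with h8 | h8
    · apply hg1
      have : (g : kap O) = 1 := by linear_combination -h8
      rw [this, one_pow]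
    · have h9 := eq_zero_of_pow_eq_zero h8
      have h10 : (2 : kap O) * (g : kap O) = 0 := by linear_combination -h9
      rcases mul_eq_zero.mp h10 with h11 | h11
      · exact two_ne_zero h11
      · exact hgk h11

end Pool.Agent.RTB
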