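import Pool.Agent.RTB.GStmts

/-!
# squad RTB, part G, module GOT: `R` is regular outside the point
-/

set_option autoImplicit false

open Polynomial

namespace Pool.Agent.RTB

namespace GOT_

theorem aeval_reflect {K : Type} [Field K] [Algebra ℂ K] (r : K) (hr : r ≠ 0) (N : ℕ) (P : ℂ[X])
    (hP : P.natDegree ≤ N) : aeval r⁻¹ (reflect N P) * r ^ N = aeval r P := by
  let _ : Invertible r := invertibleOfNonzero hr
  have h := eval₂_reflect_mul_pow (algebraMap ℂ K) r N P hP
  rw [invOf_eq_inv] at h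
  exact h

end GOT_

open GOT_ in
theorem got_proof (hGDG : Stmt_GDG) (hGRK : Stmt_GRK) (hGVO : Stmt_GVO) : Stmt_GOT := by
  classical
  intro g K _ _ R v hR V p hp q hqp r hr
  by_contra hq
  have hr0 : r ≠ 0 := by
    intro h
    exact hq (h ▸ q.ring.zero_mem)
  have hv1 : v 1 = 0 := by
    have := hR.alg 1 one_ne_zero
    rwa [map_one] at this
  have hconst : ∀ z : ℂ, r ≠ z • (1 : K) := by
    intro z h
    apply hq
    rw [h, ← Algebra.algebraMap_eq_smul_one]
    exact q.const z
  -- the order of the pole is positive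
  have hvr : (g : ℤ) + 1 ≤ v r := by
    rcases hR.gap r hr hr0 with h | h
    · exfalso
      obtain ⟨z, hz | hz⟩ := hR.res r 1 hr0 one_ne_zero (by rw [h, hv1])
      · exact hconst z hz
      · have h1 : r - z • (1 : K) ≠ 0 := fun h2 => hconst z (sub_eq_zero.1 h2)
        have h2 : r - z • (1 : K) ∈ R := R.sub_mem hr (R.smul_mem R.one_mem z)
        rcases hR.gap _ h2 h1 with h3 | h3 <;> omega
    · exact h
  obtain ⟨m, hm⟩ : ∃ m : ℕ, v r = m := ⟨(v r).toNat, by omega⟩
  have hm0 : 0 < m := by omega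
  have hx0 : r⁻¹ ≠ 0 := inv_ne_zero hr0
  have hop : V.ord p r⁻¹ = m := by
    rw [V.ord_inv p hr0, hGVO g K R v hR V p hp r hr0, hm]; ring
  have hoq : 0 < V.ord q r⁻¹ := by
    rw [V.ord_inv q hr0]
    have := (V.mem q r hr0).not.1 hq
    omega
  -- independent elements
  obtain ⟨z, hz⟩ := hGDG K V {p, q} r⁻¹ hx0 (by
    intro s hs
    rw [Finset.mem_insert, Finset.mem_singleton] at hs
    rcases hs with hs | hs
    · rw [hs, hop]; exact_mod_cast hm0
    · rw [hs]; exact hoq)
  have hM : m + 1 ≤ ∑ s ∈ ({p, q} : Finset (Pt K)), (V.ord s r⁻¹).toNat := by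
    rw [Finset.sum_pair (Ne.symm hqp), hop]
    have : 1 ≤ (V.ord q r⁻¹).toNat := by omega
    simpa using this
  generalize (∑ s ∈ ({p, q} : Finset (Pt K)), (V.ord s r⁻¹).toNat) = M at z hz hM
  obtain ⟨P, ⟨i₀, hi₀⟩, hP⟩ := hGRK g K R v hR r m hr hr0 hm hm0 (fun i => z (Fin.castLE hM i))
  set N : ℕ := Finset.univ.sup fun i => (P i).natDegree with hN
  have hNi : ∀ i, (P i).natDegree ≤ N := fun i =>
    Finset.le_sup (f := fun i => (P i).natDegree) (Finset.mem_univ i)
  have key := hz (fun j => if h : j.1 < m + 1 then reflect N (P ⟨j.1, h⟩) else 0) (by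
    have h1 : ∑ i : Fin (m + 1), aeval r⁻¹ (reflect N (P i)) * z (Fin.castLE hM i) =
        ∑ j : Fin M, aeval r⁻¹ ((if h : j.1 < m + 1 then reflect N (P ⟨j.1, h⟩) else 0 : ℂ[X])) *
          z j := by
      apply Fintype.sum_of_injective (Fin.castLE hM) (Fin.castLE_injective hM)
      · intro j hj
        have h2 : ¬ j.1 < m + 1 := by
          intro h3
          exact hj ⟨⟨j.1, h3⟩, rfl⟩
        rw [dif_neg h2, map_zero, zero_mul]
      · intro i
        have h2 : (Fin.castLE hM i).1 < m + 1 := i.2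
        rw [dif_pos h2]
        rfl
    rw [← h1]
    have h2 : (∑ i : Fin (m + 1), aeval r⁻¹ (reflect N (P i)) * z (Fin.castLE hM i)) * r ^ N = 0 := by
      rw [Finset.sum_mul, ← hP]
      refine Finset.sum_congr rfl fun i _ => ?_
      rw [← aeval_reflect r hr0 N (P i) (hNi i)]
      ring
    exact (mul_eq_zero.1 h2).resolve_right (pow_ne_zero _ hr0))
  have h3 := key (Fin.castLE hM i₀)
  have h4 : (Fin.castLE hM i₀).1 < m + 1 := i₀.2
  rw [dif_pos h4, reflect_eq_zero_iff] at h3
  exact hi₀ h3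

end Pool.Agent.RTB
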