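import Pool.Agent.RTB.KStmts

/-!
# RTB, module GPO: general position
-/

set_option autoImplicit false

open Polynomial

namespace Pool.Agent.RTB

open Classical in
theorem gpo_proof : Stmt_GPO := by
  intro κ _ _ F D U hF hcop hdeg hex
  have hinf : Infinite κ := CharZero.infinite κ
  -- an element with nonzero coefficient of degree `D`
  have hD : ∃ u ∈ U, u.coeff D ≠ 0 := by
    obtain ⟨u, hu, hud⟩ := hex
    by_cases hu0 : u = 0
    · rw [hu0, natDegree_zero] at hud
      obtain ⟨v, hv, hv0⟩ := hcop 0
      have hv1 : v ≠ 0 := by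
        rintro rfl
        exact hv0 (by simp)
      refine ⟨v, hv, ?_⟩
      have h1 : v.natDegree = D := by
        have := hdeg v hv
        omega
      rw [← h1, coeff_natDegree]
      exact leadingCoeff_ne_zero.mpr hv1
    · refine ⟨u, hu, ?_⟩
      rw [← hud, coeff_natDegree]
      exact leadingCoeff_ne_zero.mpr hu0
  let f : Option (F.roots.toFinset) → Module.Dual κ κ[X] := fun i =>
    match i with
    | none => lcoeff κ D
    | some c => leval (c : κ)
  obtain ⟨w, hw, hw0⟩ := Module.Dual.exists_forall_mem_ne_zero_of_forall_exists U f (by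
    intro i
    cases i with
    | none =>
      obtain ⟨u, hu, hu0⟩ := hD
      exact ⟨u, hu, hu0⟩
    | some c =>
      obtain ⟨u, hu, hu0⟩ := hcop c
      exact ⟨u, hu, hu0⟩)
  have h1 : w.coeff D ≠ 0 := hw0 none
  refine ⟨w, hw, le_antisymm (hdeg w hw) (le_natDegree_of_ne_zero h1), ?_, ?_⟩
  · rintro rfl
    exact h1 (coeff_zero D)
  · intro c hc
    have hcr : c ∈ F.roots.toFinset := by
      rw [Multiset.mem_toFinset, mem_roots hF, IsRoot.def]
      exact hc
    exact hw0 (some ⟨c, hcr⟩)

end Pool.Agent.RTB
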