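import Pool.Agent.RTB.GStmts

/-!
# (GPT) the point at infinity
-/

set_option autoImplicit false

open Polynomial

namespace Pool.Agent.RTB

theorem gpt_proof : Stmt_GPT := by
  intro g K _ _ R v h
  have hv1 : v 1 = 0 := by
    have := h.alg 1 one_ne_zero
    rwa [map_one] at this
  have hvn1 : v (-1) = 0 := by
    have := h.alg (-1) (neg_ne_zero.2 one_ne_zero)
    rwa [map_neg, map_one] at this
  have hvinv : ∀ x : K, x ≠ 0 → v x + v x⁻¹ = 0 := by
    intro x hx
    rw [← h.mul x x⁻¹ hx (inv_ne_zero hx), mul_inv_cancel₀ hx, hv1]
  let A : ValuationSubring K :=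
    { carrier := {x | x = 0 ∨ v x ≤ 0}
      mul_mem' := by
        rintro a b (rfl | ha) hb
        · left; rw [zero_mul]
        rcases hb with rfl | hb
        · left; rw [mul_zero]
        by_cases ha0 : a = 0
        · left; rw [ha0, zero_mul]
        by_cases hb0 : b = 0
        · left; rw [hb0, mul_zero]
        right
        rw [h.mul a b ha0 hb0]
        omega
      one_mem' := Or.inr hv1.le
      add_mem' := by
        rintro a b (rfl | ha) hb
        · rw [zero_add]; exact hb
        rcases hb with rfl | hb
        · rw [add_zero]; exact Or.inr ha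
        by_cases ha0 : a = 0
        · rw [ha0, zero_add]; exact Or.inr hb
        by_cases hb0 : b = 0
        · rw [hb0, add_zero]; exact Or.inr ha
        by_cases hab : a + b = 0
        · exact Or.inl hab
        right
        exact (h.add a b ha0 hb0 hab).trans (max_le ha hb)
      zero_mem' := Or.inl rfl
      neg_mem' := by
        rintro a (rfl | ha)
        · left; rw [neg_zero]
        by_cases ha0 : a = 0
        · left; rw [ha0, neg_zero]
        right
        rw [neg_eq_neg_one_mul, h.mul (-1) a (neg_ne_zero.2 one_ne_zero) ha0, hvn1]
        omega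
      mem_or_inv_mem' := by
        intro x
        by_cases hx : x = 0
        · left; left; exact hx
        have := hvinv x hx
        rcases le_or_gt (v x) 0 with h1 | h1
        · left; right; exact h1
        · right; right; omega }
  refine ⟨⟨A, ?_, ?_⟩, fun x => Iff.rfl⟩
  · intro z
    by_cases hz : z = 0
    · left; rw [hz, map_zero]
    · right; exact (h.alg z hz).le
  · intro htop
    obtain ⟨x, _, hx0, hx⟩ := h.att (g + 1) le_rfl
    have : x ∈ A := by rw [htop]; trivial
    rcases this with h1 | h1
    · exact hx0 h1
    · rw [hx] at h1
      push_cast at h1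
      omega

end Pool.Agent.RTB
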