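import Pool.Agent.RTB.GStmts

/-!
# squad RTB, module GRA: the ring
-/

set_option autoImplicit false

open Polynomial

namespace Pool.Agent.RTB

namespace GRA

theorem zero {g : ℕ} (D : GD g) : D.InR 0 := by
  refine ⟨fun _ => 0, fun _ => 0, fun i _ => VU.zero _ _ _, ?_⟩
  simp [ev]

theorem add {g : ℕ} {D : GD g} {x y : LS ℂ} (hx : D.InR x) (hy : D.InR y) : D.InR (x + y) := by
  obtain ⟨p, q, h1, h2⟩ := hx
  obtain ⟨p', q', h1', h2'⟩ := hy
  refine ⟨fun i => p i + p' i, fun i => q i + q' i, fun i hi => (h1 i hi).add (h1' i hi), ?_⟩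
  rw [h2, h2', ← Finset.sum_add_distrib]
  refine Finset.sum_congr rfl fun i _ => ?_
  rw [ev_add, add_mul]

theorem sum {g : ℕ} {D : GD g} {ι : Type} (s : Finset ι) (x : ι → LS ℂ)
    (h : ∀ i ∈ s, D.InR (x i)) : D.InR (∑ i ∈ s, x i) := by
  classical
  induction s using Finset.induction_on with
  | empty => rw [Finset.sum_empty]; exact zero D
  | insert a s ha ih =>
    rw [Finset.sum_insert ha]
    exact add (h a (Finset.mem_insert_self a s))
      (ih fun i hi => h i (Finset.mem_insert_of_mem hi))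

theorem comp {g : ℕ} (D : GD g) {i : ℕ} (hi : i < g) {p q : ℂ[X]}
    (h : VU ((g : ℂ) ^ 2) (-D.U) i p q) : D.InR (ev g D.Y p q * D.w ^ i) := by
  refine ⟨fun k => if k = i then p else 0, fun k => if k = i then q else 0, ?_, ?_⟩
  · intro k _
    by_cases hk : k = i
    · subst hk
      simpa using h
    · simp only [hk, if_false]
      exact VU.zero _ _ _
  · rw [Finset.sum_eq_single i]
    · simp
    · intro k _ hk
      simp only [hk, if_false]
      simp [ev]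
    · intro hn
      exact absurd (Finset.mem_range.2 hi) hn

theorem hV {g : ℕ} (D : GD g) :
    (X - C ((g : ℂ) ^ 2)) ^ (g ^ 2) ∣ (-D.U) ^ 2 - X ^ 3 - C D.b := by
  have h : (-D.U) ^ 2 = D.U ^ 2 := by ring
  rw [h]
  exact D.hU

theorem evX_ne {g : ℕ} (D : GD g) : evX g (X - C ((g : ℂ) ^ 2)) ≠ 0 := by
  intro h
  have hg : 0 < g := by have := D.g3; omega
  have h1 : ev g D.Y (X - C ((g : ℂ) ^ 2)) 0 = 0 := by
    rw [ev, h, map_zero, zero_mul, add_zero]
  exact X_sub_C_ne_zero _ (ev_eq_zero g hg D.Yl h1).1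

theorem dvd_of {a : ℂ} {U P Q : ℂ[X]} {n : ℕ} (hU : U.eval a ≠ 0)
    (h1 : (X - C a) ^ n ∣ P + Q * U) (h2 : (X - C a) ^ n ∣ P + Q * (-U)) :
    (X - C a) ^ n ∣ P ∧ (X - C a) ^ n ∣ Q := by
  have e : (C (2 : ℂ)⁻¹ : ℂ[X]) * 2 = 1 := by
    have h3 : (2 : ℂ[X]) = C 2 := (map_ofNat C 2).symm
    rw [h3, ← C_mul, inv_mul_cancel₀ (by norm_num : (2 : ℂ) ≠ 0), C_1]
  constructor
  · have h3 := Dvd.dvd.mul_left (dvd_add h1 h2) (C (2 : ℂ)⁻¹)
    have h4 : (C (2 : ℂ)⁻¹ : ℂ[X]) * (P + Q * U + (P + Q * (-U))) = P := by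
      linear_combination P * e
    rw [h4] at h3
    exact h3
  · have h3 := Dvd.dvd.mul_left (dvd_sub h1 h2) (C (2 : ℂ)⁻¹)
    have h4 : (C (2 : ℂ)⁻¹ : ℂ[X]) * (P + Q * U - (P + Q * (-U))) = U * Q := by
      linear_combination (U * Q) * e
    rw [h4] at h3
    have h5 : IsCoprime ((X - C a) ^ n) U := by
      apply IsCoprime.pow_left
      rw [(irreducible_X_sub_C a).coprime_iff_not_dvd]
      rw [dvd_iff_isRoot]
      exact hU
    exact h5.dvd_of_dvd_mul_left h3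

theorem mul_comp {g : ℕ} (D : GD g) {i j : ℕ} (hi : i < g) (hj : j < g) {p q p' q' : ℂ[X]}
    (h : VU ((g : ℂ) ^ 2) (-D.U) i p q) (h' : VU ((g : ℂ) ^ 2) (-D.U) j p' q') :
    D.InR (ev g D.Y p q * D.w ^ i * (ev g D.Y p' q' * D.w ^ j)) := by
  have g3 := D.g3
  have hgg : 3 * g ≤ g ^ 2 := by rw [pow_two]; exact Nat.mul_le_mul_right g g3
  have e1 : ev g D.Y p q * D.w ^ i * (ev g D.Y p' q' * D.w ^ j) =
      ev g D.Y (pm D.b (p, q) (p', q')).1 (pm D.b (p, q) (p', q')).2 * D.w ^ (i + j) := by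
    rw [ev_pm g D.hY, pow_add]
    ring
  have h1 : VU ((g : ℂ) ^ 2) (-D.U) (i + j) (pm D.b (p, q) (p', q')).1
      (pm D.b (p, q) (p', q')).2 :=
    VU.pm (hV D) (P := (p, q)) (Q := (p', q')) h h' (by omega)
  by_cases hij : i + j < g
  · rw [e1]
    exact comp D hij h1
  · push Not at hij
    set A := pm D.b (p, q) (p', q') with hA
    have h2 : VU ((g : ℂ) ^ 2) (-D.U) (i + j + 0) (pm D.b A (D.px, D.qx)).1
        (pm D.b A (D.px, D.qx)).2 :=
      VU.pm (hV D) (P := A) (Q := (D.px, D.qx)) h1 (VU.of_zero _ _ _ _) (by omega)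
    have h3 : VU ((g : ℂ) ^ 2) D.U (0 + g) (pm D.b A (D.px, D.qx)).1
        (pm D.b A (D.px, D.qx)).2 :=
      VU.pm D.hU (P := A) (Q := (D.px, D.qx)) (VU.of_zero _ _ _ _) D.hx (by omega)
    rw [add_zero] at h2
    rw [zero_add] at h3
    obtain ⟨⟨p2, hp2⟩, ⟨q2, hq2⟩⟩ := dvd_of D.Ua h3 (h2.mono hij)
    obtain ⟨k, hk⟩ := Nat.exists_eq_add_of_le hij
    have h4 : VU ((g : ℂ) ^ 2) (-D.U) k p2 q2 := by
      have h5 : (X - C ((g : ℂ) ^ 2)) ^ (i + j) ∣
        (pm D.b A (D.px, D.qx)).1 + (pm D.b A (D.px, D.qx)).2 * (-D.U) := h2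
      rw [hk, hp2, hq2, pow_add] at h5
      have h6 : (X - C ((g : ℂ) ^ 2)) ^ g * p2 + (X - C ((g : ℂ) ^ 2)) ^ g * q2 * (-D.U) =
        (X - C ((g : ℂ) ^ 2)) ^ g * (p2 + q2 * (-D.U)) := by ring
      rw [h6] at h5
      exact (mul_dvd_mul_iff_left (pow_ne_zero _ (X_sub_C_ne_zero _))).1 h5
    have hkg : k < g := by omega
    have h5 := comp D hkg h4
    have h6 : ev g D.Y p q * D.w ^ i * (ev g D.Y p' q' * D.w ^ j) =
        ev g D.Y p2 q2 * D.w ^ k := by
      have h7 : evX g ((X - C ((g : ℂ) ^ 2)) ^ g) ≠ 0 := by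
        rw [map_pow]
        exact pow_ne_zero _ (evX_ne D)
      apply mul_left_cancel₀ h7
      have h8 : D.w ^ g * evX g ((X - C ((g : ℂ) ^ 2)) ^ g) = ev g D.Y D.px D.qx := by
        rw [← D.hw, map_pow, map_sub, evX_X, evX_C]
      have h9 : ev g D.Y (pm D.b A (D.px, D.qx)).1 (pm D.b A (D.px, D.qx)).2 =
          ev g D.Y A.1 A.2 * ev g D.Y D.px D.qx := ev_pm g D.hY A (D.px, D.qx)
      rw [hp2, hq2, ev_cmul] at h9
      rw [e1, hk, pow_add]
      calc evX g ((X - C ((g : ℂ) ^ 2)) ^ g) * (ev g D.Y A.1 A.2 * (D.w ^ g * D.w ^ k))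
          = (ev g D.Y A.1 A.2 * (D.w ^ g * evX g ((X - C ((g : ℂ) ^ 2)) ^ g))) * D.w ^ k := by
            ring
        _ = (ev g D.Y A.1 A.2 * ev g D.Y D.px D.qx) * D.w ^ k := by rw [h8]
        _ = evX g ((X - C ((g : ℂ) ^ 2)) ^ g) * (ev g D.Y p2 q2 * D.w ^ k) := by
            rw [← h9]; ring
    rw [h6]
    exact h5

theorem mul {g : ℕ} {D : GD g} {x y : LS ℂ} (hx : D.InR x) (hy : D.InR y) : D.InR (x * y) := by
  obtain ⟨p, q, h1, h2⟩ := hx
  obtain ⟨p', q', h1', h2'⟩ := hy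
  rw [h2, h2', Finset.sum_mul_sum]
  refine sum _ _ fun i hi => sum _ _ fun j hj => ?_
  exact mul_comp D (Finset.mem_range.1 hi) (Finset.mem_range.1 hj)
    (h1 i (Finset.mem_range.1 hi)) (h1' j (Finset.mem_range.1 hj))

theorem alg {g : ℕ} (D : GD g) (z : ℂ) : D.InR (HahnSeries.C z) := by
  have hg : 0 < g := by have := D.g3; omega
  have h := comp D hg (VU.of_zero ((g : ℂ) ^ 2) (-D.U) (C z) 0)
  have e : ev g D.Y (C z) 0 * D.w ^ 0 = HahnSeries.C z := by
    rw [ev, evX_C, map_zero, zero_mul, add_zero, pow_zero, mul_one]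
  rw [e] at h
  exact h

end GRA

theorem gra_proof : Stmt_GRA := by
  intro g D
  refine ⟨{ carrier := {x | D.InR x}
            mul_mem' := fun hx hy => GRA.mul hx hy
            add_mem' := fun hx hy => GRA.add hx hy
            algebraMap_mem' := fun z => by
              have h := GRA.alg D z
              have e : algebraMap ℂ (LS ℂ) z = HahnSeries.C z := by
                rw [HahnSeries.algebraMap_apply']
                exact HahnSeries.ofPowerSeries_C z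
              show D.InR (algebraMap ℂ (LS ℂ) z)
              rw [e]
              exact h }, fun x => Iff.rfl⟩

end Pool.Agent.RTB
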