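import Pool.Agent.RTB.GStmts

/-! # squad RTB, module GRI (helper1): the ring is integral over `ℂ[X]` -/

set_option autoImplicit false

open Polynomial

namespace Pool.Agent.RTB

namespace GRI_

theorem coprime_X_sub_C {c : ℂ} {f : ℂ[X]} (h : f.eval c ≠ 0) : IsCoprime (X - C c) f := by
  have hirr : Irreducible (X - C c) := irreducible_X_sub_C c
  rw [hirr.coprime_iff_not_dvd, dvd_iff_isRoot]
  exact h

/-- a polynomial pair vanishing at both points is divisible -/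
theorem dvd_both {a : ℂ} {U P Q : ℂ[X]} {n : ℕ} (hUa : U.eval a ≠ 0)
    (h1 : VU a (-U) n P Q) (h2 : VU a U n P Q) :
    (X - C a) ^ n ∣ P ∧ (X - C a) ^ n ∣ Q := by
  have h3 : (X - C a) ^ n ∣ P + Q * (-U) := h1
  have h4 : (X - C a) ^ n ∣ P + Q * U := h2
  have hu : IsUnit (C (2 : ℂ)) := isUnit_C.2 (isUnit_iff_ne_zero.2 two_ne_zero)
  constructor
  · have h5 := dvd_add h3 h4
    have h6 : P + Q * (-U) + (P + Q * U) = P * C 2 := by
      rw [C_ofNat]; ring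
    rw [h6] at h5
    exact (hu.dvd_mul_right).1 h5
  · have h5 := dvd_sub h4 h3
    have h6 : P + Q * U - (P + Q * (-U)) = Q * U * C 2 := by
      rw [C_ofNat]; ring
    rw [h6] at h5
    have h7 := (hu.dvd_mul_right).1 h5
    exact (IsCoprime.pow_left (coprime_X_sub_C hUa)).dvd_of_dvd_mul_right h7

theorem evX_ne_zero {g : ℕ} (D : GD g) {p : ℂ[X]} (hp : p ≠ 0) : evX g p ≠ 0 := by
  intro h
  apply hp
  have hg : 0 < g := by have := D.g3; omega
  have h1 : ev g D.Y p 0 = 0 := by rw [ev, h, map_zero, zero_mul, add_zero]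
  exact (ev_eq_zero g hg D.Yl h1).1

end GRI_

open GRI_ in
theorem gri_proof : Stmt_GRI := by
  intro g D x hx
  have hg : 0 < g := by have := D.g3; omega
  let _ : Algebra ℂ[X] (LS ℂ) := (evX g).toAlgebra
  have halg : ∀ p : ℂ[X], IsIntegral ℂ[X] (evX g p) := fun p => isIntegral_algebraMap
  have hYint : IsIntegral ℂ[X] D.Y := by
    apply IsIntegral.of_pow (n := 2) (by norm_num)
    rw [D.hY]
    have : X0 g ℂ ^ 3 + HahnSeries.C D.b = evX g (X ^ 3 + C D.b) := by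
      rw [map_add, map_pow, evX_X, evX_C]
    rw [this]
    exact halg _
  have hev : ∀ p q : ℂ[X], IsIntegral ℂ[X] (ev g D.Y p q) := by
    intro p q
    rw [ev]
    exact (halg p).add ((halg q).mul hYint)
  obtain ⟨p, q, hpq, rfl⟩ := hx
  show IsIntegral ℂ[X] _
  apply IsIntegral.sum
  intro i hi
  have hig : i < g := Finset.mem_range.1 hi
  set a : ℂ := (g : ℂ) ^ 2 with ha
  have hU' : (X - C a) ^ (g ^ 2) ∣ (-D.U) ^ 2 - X ^ 3 - C D.b := by
    rw [neg_sq]; exact D.hU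
  have hgi : g * i ≤ g ^ 2 := by
    rw [sq]; exact Nat.mul_le_mul_left g hig.le
  have hgi' : i * g ≤ g ^ 2 := by rw [mul_comm]; exact hgi
  set A : ℂ[X] × ℂ[X] := ppw D.b (p i, q i) g with hA
  set X' : ℂ[X] × ℂ[X] := ppw D.b (D.px, D.qx) i with hX'
  have hA1 : VU a (-D.U) (g * i) A.1 A.2 := VU.ppw (P := (p i, q i)) hU' (hpq i hig) g hgi
  have hX1 : VU a D.U (i * g) X'.1 X'.2 := VU.ppw (P := (D.px, D.qx)) D.hU D.hx i hgi'
  have h1 : VU a (-D.U) (g * i + 0) (pm D.b A X').1 (pm D.b A X').2 :=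
    VU.pm hU' hA1 (VU.of_zero _ _ _ _) (by omega)
  have h2 : VU a D.U (0 + i * g) (pm D.b A X').1 (pm D.b A X').2 :=
    VU.pm D.hU (VU.of_zero _ _ _ _) hX1 (by omega)
  rw [add_zero] at h1
  rw [zero_add, mul_comm i g] at h2
  obtain ⟨⟨p', hp'⟩, ⟨q', hq'⟩⟩ := dvd_both D.Ua h1 h2
  have h3 : ev g D.Y (pm D.b A X').1 (pm D.b A X').2 =
      ev g D.Y (p i) (q i) ^ g * ev g D.Y D.px D.qx ^ i := by
    rw [ev_pm g D.hY, hA, hX', ev_ppw g D.hY, ev_ppw g D.hY]
  rw [hp', hq', ev_cmul] at h3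
  have h4 : evX g ((X - C a) ^ (g * i)) = (X0 g ℂ - HahnSeries.C a) ^ (g * i) := by
    rw [map_pow, map_sub, evX_X, evX_C]
  have h5 : evX g ((X - C a) ^ (g * i)) ≠ 0 :=
    evX_ne_zero D (pow_ne_zero _ (X_sub_C_ne_zero a))
  have h6 : (ev g D.Y (p i) (q i) * D.w ^ i) ^ g = ev g D.Y p' q' := by
    apply mul_left_cancel₀ h5
    rw [h3, ← D.hw, h4, mul_pow, mul_pow (D.w ^ g), ← pow_mul, ← pow_mul, ← pow_mul,
      mul_comm i g]
    ring
  apply IsIntegral.of_pow hg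
  rw [h6]
  exact hev p' q'

end Pool.Agent.RTB
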