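import Pool.Agent.RTB.GStmts

set_option autoImplicit false

open Polynomial

namespace Pool.Agent.RTB

namespace GRK_

variable {g : ℕ} {K : Type} [Field K] [Algebra ℂ K] {R : Subalgebra ℂ K} {v : K → ℤ}

theorem v_one (h : CR g K R v) : v 1 = 0 := by
  have := h.alg 1 one_ne_zero
  rwa [map_one] at this

theorem v_pow (h : CR g K R v) (f : K) (hf : f ≠ 0) (k : ℕ) : v (f ^ k) = k * v f := by
  induction k with
  | zero => rw [pow_zero, v_one h]; simp
  | succ k ih =>
    rw [pow_succ, h.mul _ _ (pow_ne_zero k hf) hf, ih]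
    push_cast
    ring

theorem v_nonneg (h : CR g K R v) (x : K) (hx : x ∈ R) (hx0 : x ≠ 0) : 0 ≤ v x := by
  rcases h.gap x hx hx0 with h1 | h1
  · omega
  · omega

/-- minimal elements of the residue classes -/
theorem exists_min (h : CR g K R v) (m : ℕ) (hm : 0 < m) (r : ℕ) (hr : r < m) :
    ∃ b ∈ R, b ≠ 0 ∧ ∃ n : ℕ, v b = n ∧ n % m = r ∧
      ∀ x ∈ R, x ≠ 0 → ∀ N : ℕ, v x = N → N % m = r → n ≤ N := by
  classical
  have hex : ∃ n : ℕ, n % m = r ∧ ∃ x ∈ R, x ≠ 0 ∧ v x = n := by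
    refine ⟨r + m * (g + 1), ?_, ?_⟩
    · rw [Nat.add_mul_mod_self_left, Nat.mod_eq_of_lt hr]
    · refine h.att _ ?_
      have : 1 * (g + 1) ≤ m * (g + 1) := Nat.mul_le_mul_right _ hm
      omega
  obtain ⟨h1, b, hb, hb0, hvb⟩ := Nat.find_spec hex
  refine ⟨b, hb, hb0, Nat.find hex, hvb, h1, ?_⟩
  intro x hx hx0 N hN hNr
  exact Nat.find_min' hex ⟨hNr, x, hx, hx0, hN⟩

end GRK_

open GRK_ in
theorem grk_proof : Stmt_GRK := by
  classical
  intro g K _ _ R v h f m hfR hf0 hvf hm z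
  have hm' : ∀ r : Fin m, ∃ b ∈ R, b ≠ 0 ∧ ∃ n : ℕ, v b = n ∧ n % m = (r : ℕ) ∧
      ∀ x ∈ R, x ≠ 0 → ∀ N : ℕ, v x = N → N % m = (r : ℕ) → n ≤ N :=
    fun r => exists_min h m hm r r.2
  choose b hbR hb0 n hvb hnr hmin using hm'
  -- the module is generated by the `b r`
  have key : ∀ N : ℕ, ∀ x ∈ R, x ≠ 0 → v x = N →
      ∃ c : Fin m → ℂ[X], x = ∑ r, aeval f (c r) * b r := by
    intro N
    induction N using Nat.strong_induction_on with
    | _ N ih =>
      intro x hx hx0 hvx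
      let r : Fin m := ⟨N % m, Nat.mod_lt _ hm⟩
      have hle : n r ≤ N := hmin r x hx hx0 N hvx rfl
      have hmod : n r % m = N % m := hnr r
      obtain ⟨k, hk⟩ : ∃ k, N = n r + m * k := by
        have h1 : (N - n r) % m = 0 := Nat.sub_mod_eq_zero_of_mod_eq hmod.symm
        obtain ⟨k, hk⟩ := Nat.dvd_of_mod_eq_zero h1
        exact ⟨k, by omega⟩
      have hy0 : f ^ k * b r ≠ 0 := mul_ne_zero (pow_ne_zero k hf0) (hb0 r)
      have hvy : v (f ^ k * b r) = v x := by
        rw [h.mul _ _ (pow_ne_zero k hf0) (hb0 r), v_pow h f hf0, hvf, hvb, hvx, hk]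
        push_cast
        ring
      have hyR : f ^ k * b r ∈ R := R.mul_mem (R.pow_mem hfR k) (hbR r)
      have hterm : ∀ w : ℂ, ∑ r', aeval f ((Pi.single r (C w * X ^ k) : Fin m → ℂ[X]) r') * b r'
          = w • (f ^ k * b r) := by
        intro w
        rw [Finset.sum_eq_single r]
        · rw [Pi.single_eq_same, map_mul, map_pow, aeval_X, aeval_C, Algebra.smul_def]
          ring
        · intro r' _ hr'
          rw [Pi.single_eq_of_ne hr', map_zero, zero_mul]
        · intro hr'; exact absurd (Finset.mem_univ r) hr'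
      obtain ⟨w, hw⟩ := h.res x (f ^ k * b r) hx0 hy0 hvy.symm
      by_cases hxw : x = w • (f ^ k * b r)
      · exact ⟨Pi.single r (C w * X ^ k), by rw [hterm w]; exact hxw⟩
      · have hlt : v (x - w • (f ^ k * b r)) < v x := hw.resolve_left hxw
        have hx'0 : x - w • (f ^ k * b r) ≠ 0 := sub_ne_zero.2 hxw
        have hx'R : x - w • (f ^ k * b r) ∈ R := R.sub_mem hx (R.smul_mem hyR w)
        have hnn := v_nonneg h _ hx'R hx'0
        obtain ⟨N', hN'⟩ := Int.eq_ofNat_of_zero_le hnn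
        obtain ⟨c, hc⟩ := ih N' (by omega) _ hx'R hx'0 hN'
        refine ⟨c + Pi.single r (C w * X ^ k), ?_⟩
        simp only [Pi.add_apply, map_add, add_mul, Finset.sum_add_distrib]
        rw [hterm w, ← hc]
        ring
  have key' : ∀ x ∈ R, ∃ c : Fin m → ℂ[X], x = ∑ r, aeval f (c r) * b r := by
    intro x hx
    by_cases hx0 : x = 0
    · exact ⟨0, by rw [hx0]; simp⟩
    · obtain ⟨N, hN⟩ := Int.eq_ofNat_of_zero_le (v_nonneg h x hx hx0)
      exact key N x hx hx0 hN
  -- common denominator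
  have hfr : ∀ i, ∃ a ∈ R, ∃ d ∈ R, d ≠ 0 ∧ z i = a / d := fun i => h.frac (z i)
  choose a haR d hdR hd0 hz using hfr
  have hs0 : ∏ j, d j ≠ 0 := Finset.prod_ne_zero_iff.2 (fun j _ => hd0 j)
  have hsz : ∀ i, (∏ j, d j) * z i ∈ R := by
    intro i
    rw [hz i, ← Finset.mul_prod_erase Finset.univ d (Finset.mem_univ i)]
    have h2 : d i * (∏ x ∈ Finset.univ.erase i, d x) * (a i / d i)
        = a i * ∏ x ∈ Finset.univ.erase i, d x := by
      field_simp [hd0 i]
    rw [h2]
    exact R.mul_mem (haR i) (R.prod_mem (fun j _ => hdR j))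
  choose c hc using fun i => key' _ (hsz i)
  have hnli : ¬ LinearIndependent ℂ[X] c := by
    intro hli
    have := hli.fintype_card_le_finrank
    rw [Module.finrank_fin_fun, Fintype.card_fin] at this
    omega
  obtain ⟨P, hP, i0, hi0⟩ := Fintype.not_linearIndependent_iff.1 hnli
  refine ⟨P, ⟨i0, hi0⟩, ?_⟩
  have hP' : ∀ r, ∑ i, P i * c i r = 0 := by
    intro r
    have := congrFun hP r
    simpa [Finset.sum_apply, Pi.smul_apply, smul_eq_mul] using this
  have hmul : (∏ j, d j) * ∑ i, aeval f (P i) * z i = 0 := by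
    rw [Finset.mul_sum]
    have h3 : ∀ i, (∏ j, d j) * (aeval f (P i) * z i) = ∑ r, aeval f (P i * c i r) * b r := by
      intro i
      have : (∏ j, d j) * (aeval f (P i) * z i) = aeval f (P i) * ((∏ j, d j) * z i) := by ring
      rw [this, hc i, Finset.mul_sum]
      refine Finset.sum_congr rfl (fun r _ => ?_)
      rw [map_mul]; ring
    rw [Finset.sum_congr rfl (fun i _ => h3 i), Finset.sum_comm]
    refine Finset.sum_eq_zero (fun r _ => ?_)
    rw [← Finset.sum_mul, ← map_sum, hP' r, map_zero, zero_mul]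
  exact (mul_eq_zero.1 hmul).resolve_left hs0

end Pool.Agent.RTB
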