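import Pool.Agent.RTB.KStmts

set_option autoImplicit false

open MvPolynomial

namespace Pool.Agent.RTB
namespace GRS_

variable (K : Type) [Field K] (k : ℕ)

/-- the ring of the Plücker variables -/
abbrev PR := MvPolynomial (Fin k × Fin k) K

/-- the ring of the coordinates of two vectors -/
abbrev SR := MvPolynomial (Fin k ⊕ Fin k) K

/-- `X (i,j) ↦ a_i b_j - a_j b_i` -/
noncomputable def Phi : PR K k →ₐ[K] SR K k :=
  aeval fun p => X (Sum.inl p.1) * X (Sum.inr p.2) - X (Sum.inl p.2) * X (Sum.inr p.1)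

/-- values of the variables -/
noncomputable def cutv (u v : ℕ) : Fin k ⊕ Fin k → SR K k
  | Sum.inl j => if (j : ℕ) < u then X (Sum.inl j) else 0
  | Sum.inr j => if (j : ℕ) < v then X (Sum.inr j) else 0

/-- setting variables to zero -/
noncomputable def cut (u v : ℕ) : SR K k →ₐ[K] SR K k := aeval (cutv K k u v)

/-- the coordinate ring of the cone over the Grassmannian -/
abbrev AR := PR K k ⧸ RingHom.ker (Phi K k).toRingHom

/-- the prime ideals of the chain -/
noncomputable def Q (u v : ℕ) : Ideal (AR K k) :=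
  RingHom.ker ((cut K k u v).toRingHom.comp (RingHom.kerLift (Phi K k).toRingHom))

instance (u v : ℕ) : (Q K k u v).IsPrime := RingHom.ker_isPrime _

theorem mem_Q (u v : ℕ) (f : PR K k) :
    Ideal.Quotient.mk _ f ∈ Q K k u v ↔ cut K k u v (Phi K k f) = 0 := by
  unfold Q
  rw [RingHom.mem_ker, RingHom.comp_apply, RingHom.kerLift_mk]
  rfl

theorem cut_cut {u v u' v' : ℕ} (hu : u' ≤ u) (hv : v' ≤ v) (f : SR K k) :
    cut K k u' v' (cut K k u v f) = cut K k u' v' f := by
  have h : (cut K k u' v').comp (cut K k u v) = cut K k u' v' := by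
    apply MvPolynomial.algHom_ext
    rintro (j | j)
    · simp only [cut, AlgHom.comp_apply, aeval_X, cutv]
      by_cases h1 : (j : ℕ) < u
      · rw [if_pos h1, aeval_X]
        rfl
      · rw [if_neg h1, map_zero, if_neg (by omega)]
    · simp only [cut, AlgHom.comp_apply, aeval_X, cutv]
      by_cases h1 : (j : ℕ) < v
      · rw [if_pos h1, aeval_X]
        rfl
      · rw [if_neg h1, map_zero, if_neg (by omega)]
  exact DFunLike.congr_fun h f

theorem Q_mono {u v u' v' : ℕ} (hu : u' ≤ u) (hv : v' ≤ v) : Q K k u v ≤ Q K k u' v' := by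
  intro x hx
  obtain ⟨f, rfl⟩ := Ideal.Quotient.mk_surjective x
  rw [mem_Q] at hx ⊢
  rw [← cut_cut K k hu hv, hx, map_zero]

theorem cut_Phi_X (u v : ℕ) (i j : Fin k) : cut K k u v (Phi K k (X (i, j))) =
    (if (i : ℕ) < u then X (Sum.inl i) else 0) * (if (j : ℕ) < v then X (Sum.inr j) else 0) -
    (if (j : ℕ) < u then X (Sum.inl j) else 0) * (if (i : ℕ) < v then X (Sum.inr i) else 0) := by
  simp only [Phi, cut, aeval_X, map_sub, map_mul, cutv]

theorem step_a (i : ℕ) (h1 : 1 ≤ i) (h2 : i + 2 ≤ k) : Q K k (i + 1) k < Q K k i k := by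
  refine lt_of_le_of_ne (Q_mono K k (by omega) le_rfl) ?_
  intro heq
  have hmem : Ideal.Quotient.mk _ (X ((⟨i, by omega⟩ : Fin k), (⟨k - 1, by omega⟩ : Fin k))) ∈
      Q K k i k := by
    rw [mem_Q, cut_Phi_X]
    simp only [lt_self_iff_false, if_false]
    rw [if_neg (by omega : ¬ (k - 1 < i))]
    ring
  rw [← heq, mem_Q, cut_Phi_X] at hmem
  simp only [] at hmem
  rw [if_pos (by omega : i < i + 1), if_pos (by omega : k - 1 < k),
    if_neg (by omega : ¬ (k - 1 < i + 1)), zero_mul, sub_zero] at hmem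
  exact mul_ne_zero (X_ne_zero _) (X_ne_zero _) hmem

theorem step_b (j : ℕ) (h1 : 1 ≤ j) (h2 : j + 1 ≤ k) : Q K k 1 (j + 1) < Q K k 1 j := by
  refine lt_of_le_of_ne (Q_mono K k le_rfl (by omega)) ?_
  intro heq
  have hmem : Ideal.Quotient.mk _ (X ((⟨0, by omega⟩ : Fin k), (⟨j, by omega⟩ : Fin k))) ∈
      Q K k 1 j := by
    rw [mem_Q, cut_Phi_X]
    simp only [lt_self_iff_false, if_false]
    rw [if_neg (by omega : ¬ (j < 1))]
    ring
  rw [← heq, mem_Q, cut_Phi_X] at hmem
  simp only [] at hmem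
  rw [if_pos (by omega : 0 < 1), if_pos (by omega : j < j + 1),
    if_neg (by omega : ¬ (j < 1)), zero_mul, sub_zero] at hmem
  exact mul_ne_zero (X_ne_zero _) (X_ne_zero _) hmem

theorem height_a (hk : 2 ≤ k) (d : ℕ) (hd : d + 2 ≤ k) :
    (d : ℕ∞) ≤ (Q K k (k - 1 - d) k).height := by
  induction d with
  | zero => simp
  | succ d ih =>
    have h1 := ih (by omega)
    have h2 : Q K k (k - 1 - d) k < Q K k (k - 1 - (d + 1)) k := by
      have h3 := step_a K k (k - 1 - (d + 1)) (by omega) (by omega)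
      have h4 : k - 1 - (d + 1) + 1 = k - 1 - d := by omega
      rwa [h4] at h3
    have h3 := Ideal.height_add_one_le_of_lt_of_isPrime h2
    refine le_trans ?_ h3
    push_cast
    gcongr

theorem height_b (hk : 2 ≤ k) (d : ℕ) (hd : d + 1 ≤ k) :
    ((k - 2 + d : ℕ) : ℕ∞) ≤ (Q K k 1 (k - d)).height := by
  induction d with
  | zero =>
    have h := height_a K k hk (k - 2) (by omega)
    have h2 : k - 1 - (k - 2) = 1 := by omega
    rw [h2] at h
    simpa using h
  | succ d ih =>
    have h1 := ih (by omega)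
    have h2 : Q K k 1 (k - d) < Q K k 1 (k - (d + 1)) := by
      have h3 := step_b K k (k - (d + 1)) (by omega) (by omega)
      have h4 : k - (d + 1) + 1 = k - d := by omega
      rwa [h4] at h3
    have h3 := Ideal.height_add_one_le_of_lt_of_isPrime h2
    refine le_trans ?_ h3
    have h4 : k - 2 + (d + 1) = (k - 2 + d) + 1 := by omega
    rw [h4]
    push_cast
    push_cast at h1
    gcongr

theorem height_M (hk : 2 ≤ k) : ((2 * k - 3 : ℕ) : ℕ∞) ≤ (Q K k 1 1).height := by
  have h := height_b K k hk (k - 1) (by omega)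
  have h1 : k - (k - 1) = 1 := by omega
  have h2 : k - 2 + (k - 1) = 2 * k - 3 := by omega
  rwa [h1, h2] at h

/-- after the last cut everything is zero -/
theorem cut_last (f : PR K k) : cut K k 1 1 (Phi K k f) =
    algebraMap K (SR K k) (aeval (fun _ : Fin k × Fin k => (0 : K)) f) := by
  have h : (cut K k 1 1).comp (Phi K k) =
      (Algebra.ofId K (SR K k)).comp (aeval (fun _ : Fin k × Fin k => (0 : K))) := by
    apply MvPolynomial.algHom_ext
    rintro ⟨i, j⟩
    rw [AlgHom.comp_apply, cut_Phi_X, AlgHom.comp_apply, aeval_X, map_zero]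
    by_cases hi : (i : ℕ) < 1
    · by_cases hj : (j : ℕ) < 1
      · have : i = j := by
          apply Fin.ext; omega
        subst this
        ring
      · rw [if_neg hj, if_neg hj]; ring
    · rw [if_neg hi, if_neg hi]; ring
  exact DFunLike.congr_fun h f

/-- the Plücker relations -/
theorem plucker (i0 j0 i j : Fin k) : (X (i0, i) * X (j0, j) - X (i0, j) * X (j0, i) -
    X (i0, j0) * X (i, j) : PR K k) ∈ RingHom.ker (Phi K k).toRingHom := by
  rw [RingHom.mem_ker]
  change Phi K k _ = 0
  simp only [Phi, map_sub, map_mul, aeval_X]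
  ring

theorem diag_mem (i : Fin k) : (X (i, i) : PR K k) ∈ RingHom.ker (Phi K k).toRingHom := by
  rw [RingHom.mem_ker]
  change Phi K k _ = 0
  simp only [Phi, aeval_X]
  ring

theorem anti_mem (i j : Fin k) :
    (X (i, j) + X (j, i) : PR K k) ∈ RingHom.ker (Phi K k).toRingHom := by
  rw [RingHom.mem_ker]
  change Phi K k _ = 0
  simp only [Phi, map_add, aeval_X]
  ring

end GRS_

open GRS_ in
theorem grs_proof : Stmt_GRS := by
  classical
  intro K _ _ k m hk hm B
  by_contra hcon
  push Not at hcon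
  let θ : Fin m → PR K k := fun l => ∑ i, ∑ j, C (B l i j) * X (i, j)
  let I : Ideal (PR K k) := RingHom.ker (Phi K k).toRingHom
  let T : Ideal (PR K k) := Ideal.span (Set.range θ)
  -- the zero locus
  have hzero : ∀ x ∈ zeroLocus K (I ⊔ T), x = 0 := by
    intro x hx
    rw [mem_zeroLocus_iff] at hx
    by_contra hx0
    obtain ⟨⟨i0, j0⟩, hc⟩ := Function.ne_iff.1 hx0
    simp only [Pi.zero_apply] at hc
    have hpl : ∀ i j, x (i0, i) * x (j0, j) - x (i0, j) * x (j0, i) =
        x (i0, j0) * x (i, j) := by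
      intro i j
      have h := hx _ (Ideal.mem_sup_left (plucker K k i0 j0 i j))
      simp only [map_sub, map_mul, aeval_X] at h
      exact sub_eq_zero.1 h
    have hdiag : ∀ i, x (i, i) = 0 := by
      intro i
      have h := hx _ (Ideal.mem_sup_left (diag_mem K k i))
      rwa [aeval_X] at h
    have hanti : ∀ i j, x (i, j) + x (j, i) = 0 := by
      intro i j
      have h := hx _ (Ideal.mem_sup_left (anti_mem K k i j))
      rwa [map_add, aeval_X, aeval_X] at h
    have hrep : ∀ i j, ((x (i0, j0))⁻¹ * x (i0, i)) * x (j0, j) -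
        ((x (i0, j0))⁻¹ * x (i0, j)) * x (j0, i) = x (i, j) := by
      intro i j
      have h := hpl i j
      field_simp
      linear_combination h
    have hli : LinearIndependent K ![fun i => (x (i0, j0))⁻¹ * x (i0, i), fun j => x (j0, j)] := by
      rw [LinearIndependent.pair_iff]
      intro s t hst
      have e1 := congrFun hst j0
      have e2 := congrFun hst i0
      simp only [Pi.add_apply, Pi.smul_apply, smul_eq_mul, Pi.zero_apply, hdiag, mul_zero,
        add_zero, zero_add, inv_mul_cancel₀ hc, mul_one] at e1 e2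
      refine ⟨e1, ?_⟩
      have e3 : x (j0, i0) ≠ 0 := by
        intro h0
        have := hanti i0 j0
        rw [h0, add_zero] at this
        exact hc this
      exact (mul_eq_zero.1 e2).resolve_right e3
    obtain ⟨l, hl⟩ := hcon _ _ hli
    apply hl
    have h := hx (θ l) (Ideal.mem_sup_right (Ideal.subset_span ⟨l, rfl⟩))
    simp only [θ, map_sum, map_mul, aeval_X, aeval_C, Algebra.algebraMap_self, RingHom.id_apply] at h
    simp only [hrep]
    exact h
  -- the ideal generated by the linear forms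
  let J : Ideal (AR K k) := Ideal.span (Set.range fun l => Ideal.Quotient.mk I (θ l))
  have hmap : (I ⊔ T).map (Ideal.Quotient.mk I) = J := by
    rw [Ideal.map_sup, Ideal.map_quotient_self, bot_sup_eq, Ideal.map_span, ← Set.range_comp]
    rfl
  have hJM : J ≤ Q K k 1 1 := by
    rw [Ideal.span_le]
    rintro _ ⟨l, rfl⟩
    change Ideal.Quotient.mk _ (θ l) ∈ Q K k 1 1
    rw [mem_Q, cut_last]
    simp [θ]
  obtain ⟨p, hp, hpM⟩ := Ideal.exists_minimalPrimes_le hJM
  have hpprime : p.IsPrime := hp.1.1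
  have hMp : Q K k 1 1 ≤ p := by
    intro y hy
    obtain ⟨f, rfl⟩ := Ideal.Quotient.mk_surjective y
    rw [mem_Q, cut_last] at hy
    have hf0 : aeval (fun _ : Fin k × Fin k => (0 : K)) f = 0 := by
      have := (algebraMap K (SR K k)).injective
      exact this (by rw [hy, map_zero])
    have hrad : f ∈ (I ⊔ T).radical := by
      rw [← vanishingIdeal_zeroLocus_eq_radical (K := K), mem_vanishingIdeal_iff]
      intro x hx
      rw [hzero x hx]
      exact hf0
    obtain ⟨n, hn⟩ := hrad
    have h1 : (Ideal.Quotient.mk I f) ^ n ∈ J := by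
      rw [← hmap, ← map_pow]
      exact Ideal.mem_map_of_mem _ hn
    exact hpprime.mem_of_pow_mem n (hp.1.2 h1)
  have hMmin : Q K k 1 1 ∈ J.minimalPrimes := by
    have : p = Q K k 1 1 := le_antisymm hpM hMp
    rwa [this] at hp
  have h1 := Ideal.height_le_spanRank_toENat_of_mem_minimalPrimes J _ hMmin
  have h2 : (J.spanFinrank : ℕ∞) = J.spanRank.toENat := by
    rw [Submodule.fg_iff_spanRank_eq_spanFinrank.mpr (IsNoetherian.noetherian J), map_natCast]
  have h3 : J.spanFinrank ≤ m := by
    refine (Submodule.spanFinrank_span_le_ncard_of_finite (Set.finite_range _)).trans ?_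
    rw [← Set.image_univ]
    refine (Set.ncard_image_le Set.finite_univ).trans ?_
    rw [Set.ncard_univ, Nat.card_eq_fintype_card, Fintype.card_fin]
  have h4 := height_M K k hk
  rw [← h2] at h1
  have h5 : ((2 * k - 3 : ℕ) : ℕ∞) ≤ (m : ℕ∞) :=
    (h4.trans h1).trans (by exact_mod_cast h3)
  have h6 : 2 * k - 3 ≤ m := by exact_mod_cast h5
  omega

end Pool.Agent.RTB
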