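import Pool.Agent.RTB.GStmts

set_option autoImplicit false

/-!
# squad RTB, module GRT: roots in the ring of Laurent series
-/

namespace Pool.Agent.RTB

namespace GRT_

open PowerSeries

variable {B : Type} [CommRing B]

/-- one step of the approximation of the `n`-th root -/
noncomputable def nxt (u : B) (n : ℕ) (f G : PowerSeries B) (k : ℕ) : PowerSeries B :=
  G + C (u * coeff (k + 1) (f - G ^ n)) * X ^ (k + 1)

/-- the approximations of the `n`-th root -/
noncomputable def apx (u : B) (n : ℕ) (f : PowerSeries B) : ℕ → PowerSeries B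
  | 0 => 1
  | k + 1 => nxt u n f (apx u n f k) k

theorem nxt_step (u : B) (n : ℕ) (hu : (n : B) * u = 1) (f G : PowerSeries B) (k : ℕ)
    (hG : constantCoeff G = 1) (h : X ^ (k + 1) ∣ f - G ^ n) :
    constantCoeff (nxt u n f G k) = 1 ∧ X ^ (k + 2) ∣ f - (nxt u n f G k) ^ n := by
  obtain ⟨e, he⟩ := h
  have hc : coeff (k + 1) (f - G ^ n) = constantCoeff e := by
    rw [he]
    have h1 := coeff_X_pow_mul e (k + 1) 0
    rw [zero_add] at h1
    rw [h1, coeff_zero_eq_constantCoeff_apply]
  refine ⟨?_, ?_⟩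
  · unfold nxt
    rw [map_add, map_mul, map_pow, constantCoeff_X, hG, zero_pow (Nat.succ_ne_zero k), mul_zero,
      add_zero]
  · obtain ⟨r, hr⟩ := Polynomial.powAddExpansion G
      (C (u * constantCoeff e) * X ^ (k + 1) : PowerSeries B) n
    unfold nxt
    rw [hc, hr]
    have hn : ((n : ℕ) : PowerSeries B) * C u = 1 := by
      rw [← map_natCast (C (R := B)) n, ← map_mul, hu, map_one]
    have h2 : f - (G ^ n + (n : PowerSeries B) * G ^ (n - 1)
          * (C (u * constantCoeff e) * X ^ (k + 1))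
          + r * (C (u * constantCoeff e) * X ^ (k + 1)) ^ 2)
        = X ^ (k + 1) * (e - C (constantCoeff e) * G ^ (n - 1)
          - r * C (u * constantCoeff e) ^ 2 * X ^ (k + 1)) := by
      have h3 : f = X ^ (k + 1) * e + G ^ n := by rw [← he]; ring
      rw [h3, map_mul C u]
      linear_combination (-(X ^ (k + 1) * C (constantCoeff e) * G ^ (n - 1))) * hn
    rw [h2, pow_succ X (k + 1)]
    refine mul_dvd_mul_left _ ?_
    rw [X_dvd_iff, map_sub, map_sub, map_mul, map_mul, map_pow, hG, one_pow, mul_one,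
      constantCoeff_C, sub_self, map_pow, constantCoeff_X, zero_pow (Nat.succ_ne_zero k),
      mul_zero, sub_zero]

theorem apx_spec (u : B) (n : ℕ) (hu : (n : B) * u = 1) (f : PowerSeries B)
    (hf : constantCoeff f = 1) (k : ℕ) :
    constantCoeff (apx u n f k) = 1 ∧ X ^ (k + 1) ∣ f - (apx u n f k) ^ n := by
  induction k with
  | zero =>
    refine ⟨map_one _, ?_⟩
    show X ^ (0 + 1) ∣ f - (1 : PowerSeries B) ^ n
    rw [zero_add, pow_one, one_pow, X_dvd_iff, map_sub, hf, map_one, sub_self]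
  | succ k ih => exact nxt_step u n hu f _ k ih.1 ih.2

theorem apx_dvd (u : B) (n : ℕ) (f : PowerSeries B) (k j : ℕ) :
    X ^ (k + 1) ∣ apx u n f (k + j) - apx u n f k := by
  induction j with
  | zero => rw [add_zero, sub_self]; exact dvd_zero _
  | succ j ih =>
    have h : apx u n f (k + (j + 1)) - apx u n f k = (apx u n f (k + j) - apx u n f k)
        + C (u * coeff (k + j + 1) (f - (apx u n f (k + j)) ^ n)) * X ^ (k + j + 1) := by
      show nxt u n f (apx u n f (k + j)) (k + j) - apx u n f k = _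
      unfold nxt
      ring
    rw [h]
    refine dvd_add ih (Dvd.dvd.mul_left (pow_dvd_pow _ ?_) _)
    omega

theorem exists_root (u : B) (n : ℕ) (hu : (n : B) * u = 1) (f : PowerSeries B)
    (hf : constantCoeff f = 1) : ∃ g : PowerSeries B, constantCoeff g = 1 ∧ g ^ n = f := by
  let g : PowerSeries B := mk fun k => coeff k (apx u n f k)
  have hg : ∀ k, X ^ (k + 1) ∣ g - apx u n f k := by
    intro k
    rw [X_pow_dvd_iff]
    intro i hi
    rw [map_sub, coeff_mk]
    obtain ⟨j, rfl⟩ : ∃ j, k = i + j := ⟨k - i, by omega⟩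
    have h := (X_pow_dvd_iff.mp (apx_dvd u n f i j)) i (Nat.lt_succ_self i)
    rw [map_sub, sub_eq_zero] at h
    rw [h, sub_self]
  refine ⟨g, ?_, ?_⟩
  · rw [← coeff_zero_eq_constantCoeff_apply, coeff_mk, coeff_zero_eq_constantCoeff_apply]
    exact (apx_spec u n hu f hf 0).1
  · ext k
    have h1 : X ^ (k + 1) ∣ g ^ n - f := by
      have h2 : g ^ n - f = (g ^ n - (apx u n f k) ^ n) - (f - (apx u n f k) ^ n) := by ring
      rw [h2]
      exact dvd_sub ((hg k).trans (sub_dvd_pow_sub_pow _ _ n)) (apx_spec u n hu f hf k).2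
    have h3 := (X_pow_dvd_iff.mp h1) k (Nat.lt_succ_self k)
    rw [map_sub, sub_eq_zero] at h3
    exact h3

theorem Ld_ofPowerSeries (g : PowerSeries B) (c : B) (hg : constantCoeff g = c) :
    Ld (HahnSeries.ofPowerSeries ℤ B g) 0 c := by
  refine ⟨fun k hk => ?_, ?_⟩
  · rw [HahnSeries.ofPowerSeries_apply]
    refine HahnSeries.embDomain_of_notMem_range ?_
    rintro ⟨i, hi⟩
    have h : ((i : ℕ) : ℤ) = k := hi
    omega
  · have h := HahnSeries.ofPowerSeries_apply_coeff (Γ := ℤ) g 0
    rw [Nat.cast_zero] at h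
    rw [h, coeff_zero_eq_constantCoeff_apply, hg]

end GRT_

open GRT_

/-- GRT: roots in the ring of Laurent series. -/
theorem grt_proof : Stmt_GRT := by
  intro B _ n m x hn hunit hx
  obtain ⟨v, hv⟩ := hunit
  have hu : (n : B) * ((v⁻¹ : Bˣ) : B) = 1 := by
    rw [← hv]
    exact v.mul_inv
  let f : PowerSeries B := PowerSeries.mk fun k => x.coeff ((n : ℤ) * m + k)
  have hf : PowerSeries.constantCoeff f = 1 := by
    rw [← PowerSeries.coeff_zero_eq_constantCoeff_apply, PowerSeries.coeff_mk, Nat.cast_zero,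
      add_zero]
    exact hx.2
  obtain ⟨g, hg, hgf⟩ := exists_root _ n hu f hf
  refine ⟨HahnSeries.single m 1 * HahnSeries.ofPowerSeries ℤ B g, ?_, ?_⟩
  · have h := (Ld_single m (1 : B)).mul (Ld_ofPowerSeries g 1 hg)
    rw [add_zero, mul_one] at h
    exact h
  · rw [mul_pow, ← map_pow (HahnSeries.ofPowerSeries ℤ B) g n, hgf, HahnSeries.single_pow, one_pow]
    ext k
    have hk : k = (k - (n : ℤ) * m) + n • m := by
      rw [nsmul_eq_mul]
      ring
    rw [hk, HahnSeries.coeff_single_mul_add, one_mul]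
    by_cases h0 : 0 ≤ k - (n : ℤ) * m
    · obtain ⟨i, hi⟩ := Int.eq_ofNat_of_zero_le h0
      rw [hi, HahnSeries.ofPowerSeries_apply_coeff, PowerSeries.coeff_mk]
      congr 1
      rw [nsmul_eq_mul]
      ring
    · have h1 : (HahnSeries.ofPowerSeries ℤ B f).coeff (k - (n : ℤ) * m) = 0 :=
        (Ld_ofPowerSeries f 1 hf).1 _ (by omega)
      have h2 : x.coeff (k - (n : ℤ) * m + n • m) = 0 := by
        refine hx.1 _ ?_
        rw [nsmul_eq_mul]
        omega
      rw [h1, h2]

end Pool.Agent.RTB
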