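import Pool.Agent.RTB.GStmts

/-!
# squad RTB, part G: modules GOD, GGD and GSM (smoothing, from the other modules)
-/

set_option autoImplicit false

open Polynomial

namespace Pool.Agent.RTB

theorem GSM_.algebraMap_LS (z : ℂ) : algebraMap ℂ (LS ℂ) z = HahnSeries.C z := by
  rw [HahnSeries.algebraMap_apply']
  ext n
  simp [HahnSeries.ofPowerSeries_C]

theorem GSM_.smul_LS (z : ℂ) (x : LS ℂ) : algebraMap ℂ (LS ℂ) z * x = z • x := by
  rw [GSM_.algebraMap_LS, HahnSeries.C_mul_eq_smul]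

theorem god_proof (hHN : Stmt_GHN) (hXI : Stmt_GXI) (hYW : Stmt_GYW) : Stmt_GOD := by
  intro g O b hodd hg hv
  obtain ⟨U, hU, Ua⟩ := hHN g O b hv (by omega)
  obtain ⟨px, qx, hx, hbd, hlead, hrd⟩ := hXI g O b U hodd hg hv hU Ua
  obtain ⟨Y, w, hY, Yl, hw, wl⟩ := hYW g O b px qx hodd hg hv hbd hlead
  exact ⟨{ b := b, U := U, px := px, qx := qx, Y := Y, w := w, vr := hv, hU := hU, Ua := Ua,
           hx := hx, bd := hbd, lead := hlead, hrd := hrd, hY := hY, Yl := Yl, hw := hw,
           wl := wl }⟩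

theorem ggd_proof (hNX : Stmt_GNX) (hGP : Stmt_GGP) : Stmt_GGD := by
  intro g O D hodd hg
  obtain ⟨x1, y1, hN, x1a, hy1, y10, hx1, hpa⟩ := hNX g O D hodd hg
  have hsub : Function.Injective O.subtype := Subtype.val_injective
  have hb : O.subtype D.b = (D.b : ℂ) := rfl
  have hgO : O.subtype ((g : O) ^ 2) = (g : ℂ) ^ 2 := by rw [map_pow, map_natCast]
  have hza : ((X : O[X]) - C ((g : O) ^ 2)).map O.subtype = X - C ((g : ℂ) ^ 2) := by
    rw [Polynomial.map_sub, map_X, map_C, hgO]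
  refine ⟨{ b := D.b, U := D.U.map O.subtype, px := D.px.map O.subtype,
            qx := D.qx.map O.subtype, Y := mapR O.subtype D.Y, w := mapR O.subtype D.w,
            x1 := x1, y1 := y1, odd := hodd, g3 := hg, b0 := ?_, hU := ?_, Ua := ?_, hx := ?_,
            hN := hN, x1a := x1a, hy1 := hy1, y10 := y10, hx1 := hx1, hpa := hpa,
            gap := hGP g O D hodd hg, hY := ?_, Yl := ?_, hw := ?_, wl := ?_ },
          ⟨rfl, rfl, rfl, rfl, rfl, rfl⟩⟩
  · intro h
    apply D.vr.b0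
    apply hsub
    rw [map_zero]
    exact h
  · have h := Polynomial.map_dvd O.subtype D.hU
    rw [Polynomial.map_pow, hza, Polynomial.map_sub, Polynomial.map_sub, Polynomial.map_pow,
      Polynomial.map_pow, map_X, map_C] at h
    exact h
  · rw [← hgO, Polynomial.eval_map, Polynomial.eval₂_hom]
    intro h
    have h1 : D.U.eval ((g : O) ^ 2) = 0 := hsub (by rw [h, map_zero])
    have h2 := D.Ua
    rw [h1, map_zero] at h2
    have := D.vr.charZero
    have h3 : (g : kap O) ≠ 0 := by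
      have : (g : kap O) ≠ ((0 : ℕ) : kap O) := by
        intro h; exact absurd (Nat.cast_injective h) (by omega)
      simpa using this
    have h4 : (g : kap O) ^ 3 = 0 := by
      rw [← neg_eq_zero]; exact h2.symm
    exact h3 (pow_eq_zero_iff (by norm_num) |>.1 h4)
  · have h := Polynomial.map_dvd O.subtype D.hx
    rw [Polynomial.map_pow, hza, Polynomial.map_add, Polynomial.map_mul] at h
    exact h
  · rw [← map_pow, D.hY, map_add, map_pow, mapR_C, hb]
    congr 2
    simp [X0]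
  · have h := D.Yl.map O.subtype
    rw [map_one] at h
    exact h
  · have h := congrArg (mapR O.subtype) D.hw
    rw [map_mul, map_pow, map_pow, map_sub, mapR_C, hgO, mapR_ev] at h
    have h1 : mapR O.subtype (X0 g O) = X0 g ℂ := by simp [X0]
    rw [h1] at h
    exact h
  · have h := D.wl.map O.subtype
    rw [map_one] at h
    exact h

theorem gsm_proof (hVL : Stmt_GVL) (hOD : Stmt_GOD) (hGD : Stmt_GGD) (hRA : Stmt_GRA)
    (hGR : Stmt_GGR) (hIT : Stmt_GIT) (hSW : Stmt_GSW) (hSU : Stmt_GSU) (hTB : Stmt_GTB)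
    (hCK : Stmt_GCK) (hMK : Stmt_GMK) : Stmt_SMO := by
  intro g cF hodd hg hcF
  obtain ⟨O, b, hv⟩ := hVL
  obtain ⟨D⟩ := hOD g O b hodd hg hv
  obtain ⟨E, hE⟩ := hGD g O D hodd hg
  obtain ⟨R, hR⟩ := hRA g E
  obtain ⟨hYr, t, ht, htg, hwt⟩ := hSW g O D hodd hg
  obtain ⟨y, hy⟩ := hSU g O D E hE t hYr htg hwt
  have := D.vr.charZero
  have hgap : ∀ x ∈ R, x ≠ 0 → x.order = 0 ∨ x.order ≤ -((g : ℤ) + 1) :=
    fun x hx hx0 => hGR g E x ((hR x).1 hx) hx0
  obtain ⟨cO, hc, hcr, hord⟩ := hTB g cF O R y t (by omega) hcF ht hgap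
    (fun i => (hR _).2 (hy i).1) (fun i => (hy i).2.1) (fun i => (hy i).2.2)
  -- the elements of R of order -n
  have hatt : ∀ n : ℕ, g + 1 ≤ n → ∃ x ∈ R, x ≠ 0 ∧ x.order = -(n : ℤ) := by
    intro n hn
    have hi : n % (g + 1) < g + 1 := Nat.mod_lt _ (Nat.succ_pos g)
    have hyR : ∀ i, mapR O.subtype (y i) ∈ R := fun i => (hR _).2 (hy i).1
    have hy0 : ∀ i, mapR O.subtype (y i) ≠ 0 := by
      intro i h
      have h2 := (hord i).1
      apply h2
      exact mapR_injective Subtype.val_injective (by rw [h, map_zero])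
    refine ⟨mapR O.subtype (y 0) ^ (n / (g + 1) - 1) *
      mapR O.subtype (y ⟨n % (g + 1), hi⟩), R.mul_mem (R.pow_mem (hyR 0) _) (hyR _),
      mul_ne_zero (pow_ne_zero _ (hy0 0)) (hy0 _), ?_⟩
    rw [HahnSeries.order_mul (pow_ne_zero _ (hy0 0)) (hy0 _), HahnSeries.order_pow, (hord _).2,
      (hord _).2]
    have h1 : 1 ≤ n / (g + 1) := Nat.div_pos hn (Nat.succ_pos g)
    have h2 : (g + 1) * (n / (g + 1)) + n % (g + 1) = n := Nat.div_add_mod n (g + 1)
    obtain ⟨k, hk⟩ : ∃ k, n / (g + 1) = k + 1 := ⟨n / (g + 1) - 1, by omega⟩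
    rw [hk] at h2 ⊢
    have h3 : ((n : ℕ) : ℤ) = ((g : ℤ) + 1) * ((k : ℤ) + 1) + ((n % (g + 1) : ℕ) : ℤ) := by
      have h4 : (((g + 1) * (k + 1) + n % (g + 1) : ℕ) : ℤ) = (n : ℤ) := by rw [h2]
      rw [← h4]
      push_cast
      ring
    have h5 : ((0 : Fin (g + 1)) : ℕ) = 0 := rfl
    simp only [Nat.add_sub_cancel, nsmul_eq_mul, h5, Nat.cast_zero, add_zero]
    rw [h3]
    ring
  have hCR := hCK g R hgap hatt (hIT g E R hR)
  set K := IntermediateField.adjoin ℂ (R : Set (LS ℂ)) with hKdef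
  have hmem : ∀ i, mapR O.subtype (y i) ∈ K := fun i =>
    IntermediateField.subset_adjoin ℂ (R : Set (LS ℂ)) ((hR _).2 (hy i).1)
  obtain ⟨X, hX⟩ := hMK g K (R.comap K.val) (fun x => -(x : LS ℂ).order) hCR
    (fun i => ⟨mapR O.subtype (y i), hmem i⟩) (fun x => (cO x : ℂ)) (by
      intro i
      refine ⟨?_, ?_, ?_⟩
      · show mapR O.subtype (y i) ∈ R
        exact (hR _).2 (hy i).1
      · intro h
        have h1 := congrArg Subtype.val h
        have h2 := (hord i).1
        apply h2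
        exact mapR_injective Subtype.val_injective (by rw [map_zero]; exact h1)
      · show -(mapR O.subtype (y i)).order = _
        rw [(hord i).2]
        ring) (by
      intro i j
      apply Subtype.val_injective
      have h1 := hc i j
      have h2 : ((⟨mapR O.subtype (y i), hmem i⟩ * ⟨mapR O.subtype (y j), hmem j⟩ : K) : LS ℂ)
          = mapR O.subtype (y i) * mapR O.subtype (y j) := rfl
      show ((⟨mapR O.subtype (y i), hmem i⟩ * ⟨mapR O.subtype (y j), hmem j⟩ : K) : LS ℂ) = _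
      rw [h2, h1]
      have hval : ∀ z : K, (z : LS ℂ) = K.val z := fun _ => rfl
      refine Eq.trans ?_ (hval _).symm
      rw [map_sum]
      refine Finset.sum_congr rfl fun l _ => ?_
      rw [map_sum]
      refine Finset.sum_congr rfl fun m _ => ?_
      have h3 : ∀ (z : ℂ) (x : K), K.val (z • x) = z • K.val x := by
        intro z x
        rw [Algebra.smul_def, map_mul, AlgHom.commutes]
        exact GSM_.smul_LS z _
      rw [h3, map_mul, map_pow]
      congr 2
      split_ifs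
      · rw [map_one]
      · rfl)
  refine ⟨X, kap O, inferInstance, D.vr.charZero, O, red O, cO, ?_, hcr⟩
  intro x
  rw [hX]

end Pool.Agent.RTB
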