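import Pool.Agent.RTB.GStmts

/-!
# squad RTB, module GSU: the functions `y i`
-/

set_option autoImplicit false

open Polynomial

namespace Pool.Agent.RTB
namespace GSU_

theorem core (hGLF : Stmt_GLF) (g : ℕ) (O : ValuationSubring ℂ) (D : OD g O) (E : GD g)
    (hC : IsC D E) (t : LS (kap O))
    (ht1 : mapR (red O) D.Y = HahnSeries.single (-(3 * (g : ℤ))) 1)
    (ht3 : mapR (red O) D.w * evS g (X + C (g : kap O)) = t)
    (i j n : ℕ) (hj : j < g) (hjn : j ≤ n) (h : (kap O)[X])
    (hdeg : ((X + C (g : kap O)) ^ j * h).natDegree ≤ n)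
    (hc1 : ((X + C (g : kap O)) ^ j * h).coeff 1 = 0)
    (hord : -((g : ℤ) * n) + j * ((g : ℤ) - 1) = -((g : ℤ) + 1 + i)) :
    ∃ y : LS O, E.InR (mapR O.subtype y) ∧
      (∀ k : ℤ, k < -((g : ℤ) + 1 + (i : ℕ)) → y.coeff k = 0) ∧
      mapR (red O) y = evS g h * t ^ j := by
  have hg3 := E.g3
  have hcz : CharZero (kap O) := D.vr.charZero
  have hg0 : (g : kap O) ≠ 0 := by
    have : g ≠ 0 := by omega
    exact_mod_cast this
  have hrc : red O (-(g : O)) = -(g : kap O) := by rw [map_neg, map_natCast]
  obtain ⟨p, q, hB, hV, hrd⟩ := hGLF O (-(g : O)) D.b (g ^ 2) (-D.U)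
    (by
      show red O (-(g : O)) ≠ 0
      rw [hrc]; exact neg_ne_zero.2 hg0) D.vr.red_b
    (by
      have h1 := D.hU
      rw [neg_sq, neg_sq]; exact h1)
    (by
      show red O _ = -(red O (-(g : O))) ^ 3
      rw [hrc, neg_sq, eval_neg, map_neg, D.Ua]; ring)
    j n ((X + C (g : kap O)) ^ j * h) (by nlinarith) hjn hdeg hc1
    (by
      show (X - C (red O (-(g : O)))) ^ j ∣ _
      rw [hrc, C_neg, sub_neg_eq_add]; exact dvd_mul_right _ _)
  rw [neg_sq] at hV
  refine ⟨ev g D.Y p q * D.w ^ j, ?_, ?_, ?_⟩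
  · -- membership
    refine ⟨fun k => if k = j then p.map O.subtype else 0,
      fun k => if k = j then q.map O.subtype else 0, ?_, ?_⟩
    · intro k _
      by_cases hk : k = j
      · subst hk
        simp only [if_true]
        show _ ∣ _
        have h1 := Polynomial.map_dvd O.subtype hV
        have h2 : ((X - C ((g : O) ^ 2)) ^ k).map O.subtype = (X - C ((g : ℂ) ^ 2)) ^ k := by
          simp
        have h3 : (p + q * -D.U).map O.subtype
            = p.map O.subtype + q.map O.subtype * -E.U := by
          rw [hC.U]; simp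
        rw [h2, h3] at h1
        exact h1
      · simp only [if_neg hk]
        exact VU.zero _ _ _
    · rw [Finset.sum_eq_single j]
      · simp only [if_true]
        rw [map_mul, map_pow, mapR_ev, hC.Y, hC.w]
      · intro k _ hk
        simp only [if_neg hk]
        simp [ev]
      · intro hk
        exact absurd (Finset.mem_range.2 hj) hk
  · -- order
    intro k hk
    have h1 := (Ld_ev g (by omega) D.Yl hB).mul (D.wl.pow j)
    apply h1.1
    rw [hord]
    exact hk
  · -- reduction
    rw [map_mul, map_pow, mapR_ev, ht1, ← evS_rd]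
    have h1 : rd (p.map (red O)) (q.map (red O)) = (X + C (g : kap O)) ^ j * h := hrd
    rw [h1, map_mul, map_pow, ← ht3]
    ring

end GSU_

open GSU_ in
theorem gsu_proof (hGLF : Stmt_GLF) : Stmt_GSU := by
  intro g O D E hC t ht1 ht2 ht3
  have hg3 := E.g3
  have hcz : CharZero (kap O) := D.vr.charZero
  have hcore := core hGLF g O D E hC t ht1 ht3
  have key : ∀ i : Fin (g + 1), ∃ y : LS O, E.InR (mapR O.subtype y) ∧
      (∀ k : ℤ, k < -((g : ℤ) + 1 + (i : ℕ)) → y.coeff k = 0) ∧
      mapR (red O) y = eval₂ HahnSeries.C t (yF g (kap O) i) := by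
    rintro ⟨i, hi⟩
    have hyF : eval₂ HahnSeries.C t (yF g (kap O) i)
        = HahnSeries.C (((g + i + 1 : ℕ) : kap O)⁻¹) * t ^ (g + i + 1)
          - HahnSeries.C (((i + 1 : ℕ) : kap O)⁻¹) * t ^ (i + 1) := by
      rw [yF]
      simp only [eval₂_sub, eval₂_mul, eval₂_C, eval₂_X_pow]
      push_cast
      rfl
    have hXC : ∀ c : kap O, (X + C c : (kap O)[X]).natDegree = 1 := fun c => natDegree_X_add_C c
    have hpd : ∀ j : ℕ, ((X + C (g : kap O)) ^ j : (kap O)[X]).natDegree = j := by
      intro j
      rw [natDegree_pow, hXC, mul_one]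
    show ∃ y : LS O, E.InR (mapR O.subtype y) ∧
      (∀ k : ℤ, k < -((g : ℤ) + 1 + (i : ℕ)) → y.coeff k = 0) ∧
      mapR (red O) y = eval₂ HahnSeries.C t (yF g (kap O) i)
    rw [hyF]
    rcases Nat.lt_or_ge (i + 1) g with h1 | h1
    · -- generic case
      set h : (kap O)[X] := C (((g + i + 1 : ℕ) : kap O)⁻¹) * (X + 1)
        - C (((i + 1 : ℕ) : kap O)⁻¹) with hh
      have hc0 : ((i + 1 : ℕ) : kap O) ≠ 0 := by exact_mod_cast Nat.succ_ne_zero i
      have hc0' : ((g + i + 1 : ℕ) : kap O) ≠ 0 := by exact_mod_cast Nat.succ_ne_zero (g + i)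
      have hh' : h = C (((g + i + 1 : ℕ) : kap O)⁻¹) * X
          + C (((g + i + 1 : ℕ) : kap O)⁻¹ - ((i + 1 : ℕ) : kap O)⁻¹) := by
        rw [hh, C_sub]; ring
      obtain ⟨y, hy1, hy2, hy3⟩ := hcore i (i + 1) (i + 2) h1 (by omega) h
        (by
          refine le_trans natDegree_mul_le ?_
          rw [hpd]
          have : h.natDegree ≤ 1 := by rw [hh']; exact natDegree_linear_le
          omega)
        (by
          rw [hh', mul_add, coeff_add, mul_comm (C _) X, ← mul_assoc, coeff_mul_C,
            coeff_mul_C, coeff_mul_X, coeff_X_add_C_pow, coeff_X_add_C_pow]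
          simp only [Nat.choose_zero_right, Nat.choose_one_right, Nat.sub_zero,
            Nat.add_sub_cancel, pow_succ]
          push_cast at hc0 hc0' ⊢
          field_simp
          ring)
        (by push_cast; ring)
      refine ⟨y, hy1, hy2, ?_⟩
      rw [hy3, hh, map_sub, map_mul, ← ht2, evS_C, evS_C]
      ring
    · rcases Nat.lt_or_ge i g with h2 | h2
      · -- i = g - 1
        have hig : i + 1 = g := by omega
        set h : (kap O)[X] := C (((g + i + 1 : ℕ) : kap O)⁻¹) * (X + 1) ^ 2
          - C (((i + 1 : ℕ) : kap O)⁻¹) * (X + 1) with hh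
        have hc0 : ((i + 1 : ℕ) : kap O) ≠ 0 := by exact_mod_cast Nat.succ_ne_zero i
        have hc0' : ((g + i + 1 : ℕ) : kap O) ≠ 0 := by exact_mod_cast Nat.succ_ne_zero (g + i)
        have hh' : h = C (((g + i + 1 : ℕ) : kap O)⁻¹) * X ^ 2
            + C (2 * ((g + i + 1 : ℕ) : kap O)⁻¹ - ((i + 1 : ℕ) : kap O)⁻¹) * X
            + C (((g + i + 1 : ℕ) : kap O)⁻¹ - ((i + 1 : ℕ) : kap O)⁻¹) := by
          rw [hh, C_sub, C_sub, C_mul]
          simp only [map_ofNat]
          ring
        obtain ⟨y, hy1, hy2, hy3⟩ := hcore i 0 2 (by omega) (by omega) h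
          (by
            rw [pow_zero, one_mul, hh']; exact natDegree_quadratic_le)
          (by
            rw [pow_zero, one_mul, hh']
            simp only [coeff_add, coeff_C_mul, coeff_X_pow, coeff_X_one, coeff_C]
            have h3 : ((g + i + 1 : ℕ) : kap O) = 2 * ((i + 1 : ℕ) : kap O) := by
              have : g + i + 1 = 2 * (i + 1) := by omega
              rw [this]; push_cast; ring
            rw [h3]
            push_cast at hc0 ⊢
            simp
            field_simp
            norm_num)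
          (by
            have : (g : ℤ) = i + 1 := by exact_mod_cast hig.symm
            rw [this]; push_cast; ring)
        refine ⟨y, hy1, hy2, ?_⟩
        rw [hy3, hh, map_sub, map_mul, map_mul, map_pow, ← ht2, evS_C, evS_C]
        have h4 : g + i + 1 = g * 2 := by omega
        rw [h4, hig, pow_mul]
        ring
      · -- i = g
        have hig : i = g := by omega
        subst hig
        set h : (kap O)[X] := C (((i + i + 1 : ℕ) : kap O)⁻¹) * (X + 1) ^ 2
          - C (((i + 1 : ℕ) : kap O)⁻¹) * (X + 1) with hh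
        have hc0 : ((i + 1 : ℕ) : kap O) ≠ 0 := by exact_mod_cast Nat.succ_ne_zero i
        have hc0' : ((i + i + 1 : ℕ) : kap O) ≠ 0 := by exact_mod_cast Nat.succ_ne_zero (i + i)
        have hh' : h = C (((i + i + 1 : ℕ) : kap O)⁻¹) * X ^ 2
            + C (2 * ((i + i + 1 : ℕ) : kap O)⁻¹ - ((i + 1 : ℕ) : kap O)⁻¹) * X
            + C (((i + i + 1 : ℕ) : kap O)⁻¹ - ((i + 1 : ℕ) : kap O)⁻¹) := by
          rw [hh, C_sub, C_sub, C_mul]
          simp only [map_ofNat]
          ring
        obtain ⟨y, hy1, hy2, hy3⟩ := hcore i 1 3 (by omega) (by omega) h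
          (by
            refine le_trans natDegree_mul_le ?_
            rw [hpd]
            have : h.natDegree ≤ 2 := by rw [hh']; exact natDegree_quadratic_le
            omega)
          (by
            rw [pow_one, add_mul, coeff_add, coeff_C_mul, coeff_X_mul, hh']
            simp only [coeff_add, coeff_C_mul, coeff_X_pow, coeff_X_one, coeff_C,
              coeff_X_zero]
            push_cast at hc0 hc0' ⊢
            have ha := inv_mul_cancel₀ hc0'
            have hb := inv_mul_cancel₀ hc0
            simp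
            linear_combination ha - hb)
          (by push_cast; ring)
        refine ⟨y, hy1, hy2, ?_⟩
        rw [hy3, hh, map_sub, map_mul, map_mul, map_pow, ← ht2, evS_C, evS_C]
        have h4 : i + i + 1 = i * 2 + 1 := by omega
        rw [h4, pow_add, pow_mul, pow_add]
        ring
  choose y hy using key
  exact ⟨y, hy⟩

end Pool.Agent.RTB
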