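import Pool.Agent.RTB.GStmts

set_option autoImplicit false

/-!
# squad RTB, part G, module GSW: the reductions of `Y` and `w`
-/

open Polynomial

namespace Pool.Agent.RTB

namespace GSW_

theorem Ld_evS_X_add {B : Type} [CommRing B] (g : ℕ) (hg : 0 < g) (c : B) :
    Ld (evS g (X + C c : B[X])) (-(g : ℤ)) (-1) := by
  rw [map_add, evS_X, evS_C]
  have h1 := (Ld_C c).weaken (n := -(g : ℤ)) (by
    have : (0 : ℤ) < g := by exact_mod_cast hg
    linarith)
  have h2 := (Ld_single (-(g : ℤ)) (-1 : B)).add h1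
  rwa [add_zero] at h2

theorem X0_evS {B : Type} [CommRing B] (g : ℕ) : X0 g B = evS g (X ^ 2 : B[X]) := by
  rw [map_pow, evS_X, HahnSeries.single_pow, X0]
  congr 1
  · simp
  · ring

end GSW_

open GSW_ in
theorem gsw_proof (hGRT : Stmt_GRT) : Stmt_GSW := by
  intro g O D hodd hg
  have := D.vr.charZero
  have hg0 : 0 < g := by omega
  have hgk : (g : kap O) ≠ 0 := by
    exact_mod_cast (by omega : g ≠ 0)
  have hY : mapR (red O) D.Y = HahnSeries.single (-(3 * (g : ℤ))) 1 := by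
    have h1 : Ld (mapR (red O) D.Y) (-(3 * (g : ℤ))) 1 := by
      have := D.Yl.map (red O)
      rwa [map_one] at this
    have h2 : Ld (HahnSeries.single (-(3 * (g : ℤ))) 1 : LS (kap O)) (-(3 * (g : ℤ))) 1 :=
      Ld_single _ _
    refine Ld.root_unique (n := 2) (by norm_num) (by norm_num) h1 h2 one_ne_zero ?_
    have h3 := congrArg (mapR (red O)) D.hY
    rw [map_pow, map_add, map_pow, mapR_C, D.vr.red_b, map_zero, add_zero] at h3
    rw [h3, X0, mapR_single, map_one, HahnSeries.single_pow, HahnSeries.single_pow]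
    congr 1
    · simp only [smul_neg, nsmul_eq_mul]
      push_cast
      ring_nf
    · ring
  refine ⟨hY, ?_⟩
  -- the root
  have hx : Ld (evS g (-(X + 1)) : LS (kap O)) ((g : ℤ) * (-1)) 1 := by
    have h1 := (Ld_evS_X_add g hg0 (1 : kap O)).neg
    rw [neg_neg, ← map_neg, map_one] at h1
    rw [mul_neg_one]
    exact h1
  obtain ⟨h, hl, hp⟩ := hGRT (kap O) g (-1) _ hg0 (isUnit_iff_ne_zero.2 hgk) hx
  have htg : (-h) ^ g = evS g (X + 1) := by
    rw [hodd.neg_pow, hp, map_neg, neg_neg]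
  refine ⟨-h, hl.neg, htg, ?_⟩
  have hWl : Ld (mapR (red O) D.w * evS g (X + C (g : kap O))) (-1) (-1) := by
    have h1 := (D.wl.map (red O)).mul (Ld_evS_X_add g hg0 (g : kap O))
    rw [map_one, one_mul] at h1
    have h2 : (g : ℤ) - 1 + -(g : ℤ) = -1 := by ring
    rwa [h2] at h1
  refine Ld.root_unique hg0 hgk hWl hl.neg (neg_ne_zero.2 one_ne_zero) ?_
  rw [htg]
  have h3 := congrArg (mapR (red O)) D.hw
  rw [map_mul, map_pow, map_pow, map_sub, mapR_ev, hY, ← evS_rd, D.hrd, map_mul, map_pow] at h3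
  have h4 : mapR (red O) (X0 g O) - mapR (red O) (HahnSeries.C (g : O) ^ 2) =
      evS g (X - C (g : kap O)) * evS g (X + C (g : kap O)) := by
    rw [← map_mul]
    have h5 : (X - C (g : kap O)) * (X + C (g : kap O)) = X ^ 2 - C ((g : kap O) ^ 2) := by
      rw [C_pow]; ring
    have h9 : mapR (red O) (X0 g O) = X0 g (kap O) := by
      rw [X0, mapR_single, map_one, X0]
    rw [h5, map_sub, evS_C, ← X0_evS, map_pow, mapR_C, map_natCast, h9, map_pow]
  rw [h4, map_pow (evS g)] at h3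
  have h6 : evS g (X - C (g : kap O)) ≠ 0 := by
    have h7 := Ld_evS_X_add g hg0 (-(g : kap O))
    rw [C_neg, ← sub_eq_add_neg] at h7
    exact h7.ne_zero (neg_ne_zero.2 one_ne_zero)
  have h8 : (evS g (X - C (g : kap O))) ^ g ≠ 0 := pow_ne_zero _ h6
  apply mul_right_cancel₀ h8
  rw [← h3]
  ring

end Pool.Agent.RTB
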