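import Pool.Agent.RTB.GStmts

/-!
# MP_7b271a_ag, squad RTB: GTB, the multiplication table
-/

set_option autoImplicit false

open Polynomial

namespace Pool.Agent.RTB

namespace GTB_

theorem algMap (z : ℂ) : algebraMap ℂ (LS ℂ) z = HahnSeries.C z := by
  rw [HahnSeries.algebraMap_apply']
  simp

section
variable {B : Type} [CommRing B]

theorem Ld_ev2 {t : LS B} (ht : Ld t (-1) (-1)) {p : B[X]} {n : ℕ} (h : p.natDegree ≤ n) :
    Ld (eval₂ HahnSeries.C t p) (-(n : ℤ)) (p.coeff n * (-1) ^ n) := by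
  rw [eval₂_eq_sum_range' HahnSeries.C (show p.natDegree < n + 1 by omega) t]
  have h2 : p.coeff n * (-1 : B) ^ n =
      ∑ i ∈ Finset.range (n + 1), (if i = n then p.coeff i * (-1) ^ i else 0) := by
    rw [Finset.sum_ite_eq' (Finset.range (n + 1)) n]
    simp
  rw [h2]
  apply Ld.sum
  intro i hi
  have h3 := (Ld_C (p.coeff i)).mul (ht.pow i)
  have hi' : i ≤ n := by have := Finset.mem_range.1 hi; omega
  have h4 : (0 : ℤ) + (i : ℤ) * (-1) = -(i : ℤ) := by ring
  rw [h4] at h3
  split_ifs with hin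
  · subst hin
    exact h3
  · apply h3.weaken
    have h4 : i < n := lt_of_le_of_ne hi' hin
    have h5 : (i : ℤ) < n := by exact_mod_cast h4
    linarith

theorem ev2_inj {t : LS B} (ht : Ld t (-1) (-1)) {p : B[X]}
    (h : eval₂ HahnSeries.C t p = 0) : p = 0 := by
  by_contra hp
  have h1 := Ld_ev2 ht (p := p) (n := p.natDegree) le_rfl
  rw [h] at h1
  have h2 := h1.2
  rw [HahnSeries.coeff_zero] at h2
  have h3 : p.coeff p.natDegree = 0 := by
    have h4 : (p.coeff p.natDegree * (-1 : B) ^ p.natDegree) * (-1) ^ p.natDegree = 0 := by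
      rw [← h2, zero_mul]
    rw [mul_assoc, ← mul_pow] at h4
    simpa using h4
  rw [coeff_natDegree, leadingCoeff_eq_zero] at h3
  exact hp h3

end

/-- the pole order of the basis element -/
def nn (g l m : ℕ) : ℕ := l * (g + 1) + (if m = 0 then 0 else g + 1 + m)

theorem nn_inj {g l m l' m' : ℕ} (hm : m ≤ g) (hm' : m' ≤ g) (h : nn g l m = nn g l' m') :
    l = l' ∧ m = m' := by
  have h1 : nn g l m = (g + 1) * (l + if m = 0 then 0 else 1) + m := by
    rw [nn]; split_ifs with h0
    · rw [h0]; ring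
    · ring
  have h1' : nn g l' m' = (g + 1) * (l' + if m' = 0 then 0 else 1) + m' := by
    rw [nn]; split_ifs with h0
    · rw [h0]; ring
    · ring
  have h2 : nn g l m % (g + 1) = m := by
    rw [h1, Nat.mul_add_mod]; exact Nat.mod_eq_of_lt (by omega)
  have h2' : nn g l' m' % (g + 1) = m' := by
    rw [h1', Nat.mul_add_mod]; exact Nat.mod_eq_of_lt (by omega)
  have h3 : m = m' := by rw [← h2, ← h2', h]
  subst h3
  rw [h1, h1'] at h
  have h4 : (g + 1) * (l + if m = 0 then 0 else 1) = (g + 1) * (l' + if m = 0 then 0 else 1) := by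
    omega
  have h5 := Nat.eq_of_mul_eq_mul_left (by omega : 0 < g + 1) h4
  exact ⟨by omega, rfl⟩

theorem nn_surj {g N : ℕ} (h1 : g + 1 ≤ N) (h2 : N ≤ 4 * g + 2) :
    ∃ (l : Fin 4) (m : Fin (g + 1)), nn g l m = N := by
  have hmod := Nat.div_add_mod N (g + 1)
  have hlt := Nat.mod_lt N (show 0 < g + 1 by omega)
  have hq1 : 1 ≤ N / (g + 1) := (Nat.one_le_div_iff (by omega)).2 h1
  have hq2 : N / (g + 1) < 4 := by
    rw [Nat.div_lt_iff_lt_mul (by omega)]; omega
  by_cases h0 : N % (g + 1) = 0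
  · refine ⟨⟨N / (g + 1), hq2⟩, ⟨0, by omega⟩, ?_⟩
    show N / (g + 1) * (g + 1) + (if (0 : ℕ) = 0 then 0 else g + 1 + 0) = N
    rw [if_pos rfl, mul_comm]; omega
  · refine ⟨⟨N / (g + 1) - 1, by omega⟩, ⟨N % (g + 1), hlt⟩, ?_⟩
    show (N / (g + 1) - 1) * (g + 1) + (if N % (g + 1) = 0 then 0 else g + 1 + N % (g + 1)) = N
    rw [if_neg h0]
    obtain ⟨q, hq⟩ : ∃ q, N / (g + 1) = q + 1 := ⟨N / (g + 1) - 1, by omega⟩
    rw [hq] at hmod ⊢
    rw [Nat.add_sub_cancel]
    have h5 : (g + 1) * (q + 1) = q * (g + 1) + (g + 1) := by ring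
    omega

section
variable {κ : Type} [Field κ] [CharZero κ]

theorem yF_natDegree (g i : ℕ) (hg : 1 ≤ g) : (yF g κ i).natDegree = g + i + 1 := by
  have h0 : ((g + i + 1 : κ)⁻¹) ≠ 0 := by
    apply inv_ne_zero
    have : ((g + i + 1 : ℕ) : κ) ≠ 0 := Nat.cast_ne_zero.2 (by omega)
    push_cast at this
    exact this
  rw [yF, natDegree_sub_eq_left_of_natDegree_lt]
  · exact natDegree_C_mul_X_pow _ _ h0
  · rw [natDegree_C_mul_X_pow _ _ h0]
    exact lt_of_le_of_lt (natDegree_C_mul_X_pow_le _ _) (by omega)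

theorem yF_ne_zero (g i : ℕ) (hg : 1 ≤ g) : yF g κ i ≠ 0 := by
  intro h
  have := yF_natDegree (κ := κ) g i hg
  rw [h, natDegree_zero] at this
  omega

/-- the basis polynomials -/
noncomputable def bb (g : ℕ) (κ : Type) [Field κ] (x : Fin 4 × Fin (g + 1)) : κ[X] :=
  yF g κ 0 ^ (x.1 : ℕ) * (if x.2 = 0 then 1 else yF g κ x.2)

theorem bb_ne_zero (g : ℕ) (hg : 1 ≤ g) (x : Fin 4 × Fin (g + 1)) : bb g κ x ≠ 0 := by
  rw [bb]
  apply mul_ne_zero (pow_ne_zero _ (yF_ne_zero g 0 hg))
  split_ifs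
  · exact one_ne_zero
  · exact yF_ne_zero g _ hg

theorem bb_natDegree (g : ℕ) (hg : 1 ≤ g) (x : Fin 4 × Fin (g + 1)) :
    (bb g κ x).natDegree = nn g x.1 x.2 := by
  obtain ⟨l, m⟩ := x
  have h1 : (bb g κ (l, m)) = yF g κ 0 ^ (l : ℕ) * (if m = 0 then 1 else yF g κ m) := rfl
  have h2 : (if m = 0 then (1 : κ[X]) else yF g κ m) ≠ 0 := by
    split_ifs
    · exact one_ne_zero
    · exact yF_ne_zero g _ hg
  rw [h1, natDegree_mul (pow_ne_zero _ (yF_ne_zero g 0 hg)) h2, natDegree_pow,
    yF_natDegree g 0 hg, nn]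
  congr 1
  · by_cases hm : m = 0
    · rw [if_pos hm, if_pos (by rw [hm]; rfl), natDegree_one]
    · have hm' : ¬ ((m : ℕ) = 0) := fun h => hm (Fin.ext h)
      rw [if_neg hm, if_neg hm', yF_natDegree g _ hg]
      dsimp only
      omega

theorem bb_indep (g : ℕ) (hg : 1 ≤ g) (d : Fin 4 × Fin (g + 1) → κ)
    (h : ∑ x, C (d x) * bb g κ x = 0) : ∀ x, d x = 0 := by
  classical
  have hdis : Set.Pairwise { i | i ∈ (Finset.univ : Finset (Fin 4 × Fin (g + 1))) ∧
      (C (d i) * bb g κ i) ≠ 0 } (Function.onFun Ne (degree ∘ fun i => C (d i) * bb g κ i)) := by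
    intro x hx y hy hxy
    show degree (C (d x) * bb g κ x) ≠ degree (C (d y) * bb g κ y)
    have hx1 : d x ≠ 0 := fun h0 => hx.2 (by rw [h0, C_0, zero_mul])
    have hy1 : d y ≠ 0 := fun h0 => hy.2 (by rw [h0, C_0, zero_mul])
    rw [degree_C_mul hx1, degree_C_mul hy1, degree_eq_natDegree (bb_ne_zero g hg x),
      degree_eq_natDegree (bb_ne_zero g hg y), bb_natDegree g hg, bb_natDegree g hg]
    intro h5
    have h6 : nn g x.1 x.2 = nn g y.1 y.2 := by exact_mod_cast h5
    have h7 := nn_inj (by have := x.2.2; omega) (by have := y.2.2; omega) h6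
    exact hxy (Prod.ext (Fin.ext h7.1) (Fin.ext h7.2))
  have h1 := degree_sum_eq_of_disjoint (fun x => C (d x) * bb g κ x) Finset.univ hdis
  rw [h, degree_zero] at h1
  intro x
  by_contra hx
  have h2 : degree (C (d x) * bb g κ x) ≤
      Finset.univ.sup fun i => degree (C (d i) * bb g κ i) :=
    Finset.le_sup (f := fun i => degree (C (d i) * bb g κ i)) (Finset.mem_univ x)
  rw [← h1, degree_C_mul hx, degree_eq_natDegree (bb_ne_zero g hg x)] at h2
  simp at h2

end

section
variable {O : ValuationSubring ℂ}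

/-- the basis elements in the ring of Laurent series -/
noncomputable def BB (g : ℕ) (y : Fin (g + 1) → LS O) (l : Fin 4) (m : Fin (g + 1)) : LS O :=
  y 0 ^ (l : ℕ) * (if m = 0 then 1 else y m)

theorem sub_inj : Function.Injective (mapR O.subtype) :=
  mapR_injective (fun _ _ h => Subtype.ext h)

theorem expand (g : ℕ) (R : Subalgebra ℂ (LS ℂ)) (y : Fin (g + 1) → LS O)
    (u : Fin (g + 1) → O) (hu : ∀ i, IsUnit (u i))
    (hgap : ∀ x ∈ R, x ≠ 0 → x.order = 0 ∨ x.order ≤ -((g : ℤ) + 1))
    (hR : ∀ i, mapR O.subtype (y i) ∈ R)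
    (hy : ∀ i : Fin (g + 1), Ld (y i) (-((g : ℤ) + 1 + (i : ℕ))) (u i)) :
    ∀ N : ℕ, N ≤ 4 * g + 2 → ∀ x : LS O, (∀ k : ℤ, k < -(N : ℤ) → x.coeff k = 0) →
      mapR O.subtype x ∈ R →
      ∃ c : Fin 4 → Fin (g + 1) → O,
        x = ∑ l, ∑ m, HahnSeries.C (c l m) * BB g y l m := by
  classical
  have hBR : ∀ l m, mapR O.subtype (BB g y l m) ∈ R := by
    intro l m
    rw [BB, map_mul, map_pow]
    apply R.mul_mem (R.pow_mem (hR 0) _)
    split_ifs
    · rw [map_one]; exact R.one_mem
    · exact hR m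
  have hCR : ∀ z : O, mapR O.subtype (HahnSeries.C z) ∈ R := by
    intro z
    rw [mapR_C]
    have h1 := R.algebraMap_mem (z : ℂ)
    rw [algMap] at h1
    exact h1
  have hBL : ∀ (l : Fin 4) (m : Fin (g + 1)), ∃ v : O, IsUnit v ∧
      Ld (BB g y l m) (-(nn g l m : ℤ)) v := by
    intro l m
    refine ⟨u 0 ^ (l : ℕ) * (if m = 0 then 1 else u m), ?_, ?_⟩
    · apply ((hu 0).pow _).mul
      split_ifs
      · exact isUnit_one
      · exact hu m
    · have h1 := (hy 0).pow (l : ℕ)
      have h2 : Ld (if m = 0 then (1 : LS O) else y m)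
          (-((if (m : ℕ) = 0 then 0 else g + 1 + (m : ℕ) : ℕ) : ℤ))
          (if m = 0 then 1 else u m) := by
        by_cases hm : m = 0
        · have hm' : (m : ℕ) = 0 := by rw [hm]; rfl
          rw [if_pos hm, if_pos hm', if_pos hm]
          simpa using (Ld_one (B := O))
        · have hm' : ¬ ((m : ℕ) = 0) := fun h => hm (Fin.ext h)
          rw [if_neg hm, if_neg hm', if_neg hm]
          have := hy m
          push_cast
          exact this
      have h3 := h1.mul h2
      have h4 : ((l : ℕ) : ℤ) * -((g : ℤ) + 1 + ((0 : Fin (g + 1)) : ℕ)) +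
          -((if (m : ℕ) = 0 then 0 else g + 1 + (m : ℕ) : ℕ) : ℤ) = -(nn g l m : ℤ) := by
        rw [nn]
        simp only [Fin.val_zero]
        push_cast
        ring
      rw [h4] at h3
      exact h3
  intro N
  induction N with
  | zero =>
    intro _ x hx hxR
    have hx0 : x = HahnSeries.C (x.coeff 0) := by
      apply sub_inj
      by_contra hne
      have hmem : mapR O.subtype x - mapR O.subtype (HahnSeries.C (x.coeff 0)) ∈ R :=
        R.sub_mem hxR (hCR _)
      have h1 := hgap _ hmem (sub_ne_zero.2 hne)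
      rw [← map_sub] at h1
      have hne2 : mapR O.subtype (x - HahnSeries.C (x.coeff 0)) ≠ 0 := by
        rw [map_sub]; exact sub_ne_zero.2 hne
      have hc := HahnSeries.coeff_order_eq_zero.not.2 hne2
      apply hc
      rw [mapR_coeff]
      have hle : (mapR O.subtype (x - HahnSeries.C (x.coeff 0))).order ≤ 0 := by
        rcases h1 with h1 | h1
        · exact h1.le
        · have : (0 : ℤ) ≤ g := Int.natCast_nonneg g
          linarith
      generalize (mapR O.subtype (x - HahnSeries.C (x.coeff 0))).order = o at hle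
      rcases hle.lt_or_eq with h2 | h2
      · rw [HahnSeries.coeff_sub, hx o (by simpa using h2)]
        have : (HahnSeries.C (x.coeff 0) : LS O).coeff o = 0 :=
          HahnSeries.coeff_single_of_ne h2.ne
        rw [this, sub_zero, map_zero]
      · rw [h2, HahnSeries.coeff_sub]
        have : (HahnSeries.C (x.coeff 0) : LS O).coeff 0 = x.coeff 0 :=
          HahnSeries.coeff_single_same 0 _
        rw [this, sub_self, map_zero]
    refine ⟨fun l m => if l = 0 ∧ m = 0 then x.coeff 0 else 0, ?_⟩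
    rw [Finset.sum_eq_single 0, Finset.sum_eq_single 0]
    · beta_reduce
      rw [if_pos ⟨rfl, rfl⟩, BB]
      simp only [Fin.val_zero, pow_zero, if_true, mul_one]
      exact hx0
    · intro m _ hm
      beta_reduce
      rw [if_neg (fun h => hm h.2), map_zero, zero_mul]
    · intro h; exact absurd (Finset.mem_univ _) h
    · intro l _ hl
      refine Finset.sum_eq_zero fun m _ => ?_
      beta_reduce
      rw [if_neg (fun h => hl h.1), map_zero, zero_mul]
    · intro h; exact absurd (Finset.mem_univ _) h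
  | succ N ih =>
    intro hN x hx hxR
    by_cases ha : x.coeff (-((N + 1 : ℕ) : ℤ)) = 0
    · apply ih (by omega) x _ hxR
      intro k hk
      by_cases hk2 : k = -((N + 1 : ℕ) : ℤ)
      · rw [hk2, ha]
      · apply hx
        push_cast at hk2 ⊢
        omega
    · have hLx : Ld x (-((N + 1 : ℕ) : ℤ)) (x.coeff (-((N + 1 : ℕ) : ℤ))) := ⟨hx, rfl⟩
      have hLx2 := hLx.map O.subtype
      have ha2 : O.subtype (x.coeff (-((N + 1 : ℕ) : ℤ))) ≠ 0 := by
        intro h
        exact ha (Subtype.ext h)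
      have hord := hLx2.order ha2
      have h1 := hgap _ hxR (hLx2.ne_zero ha2)
      rw [hord] at h1
      have h2 : g + 1 ≤ N + 1 := by
        rcases h1 with h1 | h1
        · push_cast at h1; omega
        · push_cast at h1; omega
      obtain ⟨l, m, hlm⟩ := nn_surj h2 hN
      obtain ⟨v, hv, hB⟩ := hBL l m
      rw [hlm] at hB
      obtain ⟨w, hw⟩ := hv
      let a : O := x.coeff (-((N + 1 : ℕ) : ℤ)) * ((w⁻¹ : Oˣ) : O)
      have h3 : Ld (x - HahnSeries.C a * BB g y l m) (-((N + 1 : ℕ) : ℤ)) 0 := by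
        have h4 := (Ld_C a).mul hB
        rw [zero_add] at h4
        have h5 := hLx.add h4.neg
        have h6 : x.coeff (-((N + 1 : ℕ) : ℤ)) + -(a * v) = 0 := by
          show x.coeff (-((N + 1 : ℕ) : ℤ)) +
            -((x.coeff (-((N + 1 : ℕ) : ℤ)) * ((w⁻¹ : Oˣ) : O)) * v) = 0
          rw [mul_assoc, ← hw, Units.inv_mul, mul_one, add_neg_cancel]
        rw [h6, ← sub_eq_add_neg] at h5
        exact h5
      have h7 : ∀ k : ℤ, k < -(N : ℤ) → (x - HahnSeries.C a * BB g y l m).coeff k = 0 := by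
        intro k hk
        by_cases hk2 : k = -((N + 1 : ℕ) : ℤ)
        · rw [hk2]; exact h3.2
        · apply h3.1
          push_cast at hk2 ⊢
          omega
      have h8 : mapR O.subtype (x - HahnSeries.C a * BB g y l m) ∈ R := by
        rw [map_sub, map_mul]
        exact R.sub_mem hxR (R.mul_mem (hCR _) (hBR _ _))
      obtain ⟨c, hc⟩ := ih (by omega) _ h7 h8
      refine ⟨fun l' m' => c l' m' + if l' = l ∧ m' = m then a else 0, ?_⟩
      have h9 : x = (x - HahnSeries.C a * BB g y l m) + HahnSeries.C a * BB g y l m := by ring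
      rw [h9, hc]
      have h10 : HahnSeries.C a * BB g y l m = ∑ l', ∑ m',
          HahnSeries.C (if l' = l ∧ m' = m then a else 0) * BB g y l' m' := by
        rw [Finset.sum_eq_single l, Finset.sum_eq_single m]
        · rw [if_pos ⟨rfl, rfl⟩]
        · intro m' _ hm
          rw [if_neg (fun h => hm h.2), map_zero, zero_mul]
        · intro h; exact absurd (Finset.mem_univ _) h
        · intro l' _ hl
          refine Finset.sum_eq_zero fun m' _ => ?_
          rw [if_neg (fun h => hl h.1), map_zero, zero_mul]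
        · intro h; exact absurd (Finset.mem_univ _) h
      rw [h10, ← Finset.sum_add_distrib]
      refine Finset.sum_congr rfl fun l' _ => ?_
      rw [← Finset.sum_add_distrib]
      refine Finset.sum_congr rfl fun m' _ => ?_
      rw [map_add, add_mul]

end

end GTB_

open GTB_ in
theorem gtb_proof : Stmt_GTB := by
  intro g cF O _ R y t hg hcF ht hgap hR hy hred
  -- leading coefficients
  have hu : ∀ i : Fin (g + 1), IsUnit ((y i).coeff (-((g : ℤ) + 1 + (i : ℕ)))) := by
    intro i
    rw [← IsLocalRing.residue_ne_zero_iff_isUnit]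
    have h1 : red O ((y i).coeff (-((g : ℤ) + 1 + (i : ℕ)))) =
        (mapR (red O) (y i)).coeff (-((g : ℤ) + 1 + (i : ℕ))) := (mapR_coeff _ _ _).symm
    have h2 := Ld_ev2 ht (p := yF g (kap O) i) (n := g + i + 1) (yF_natDegree g _ hg).le
    have h3 : (-((g + (i : ℕ) + 1 : ℕ) : ℤ)) = -((g : ℤ) + 1 + (i : ℕ)) := by push_cast; ring
    rw [h3] at h2
    have h4 := h2.2
    rw [← hred i, ← h1] at h4
    show red O _ ≠ 0
    rw [h4]
    apply mul_ne_zero
    · have h5 : (yF g (kap O) i).coeff (g + i + 1) = (yF g (kap O) i).leadingCoeff := by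
        rw [leadingCoeff, yF_natDegree g _ hg]
      rw [h5]
      exact leadingCoeff_ne_zero.2 (yF_ne_zero g _ hg)
    · exact pow_ne_zero _ (neg_ne_zero.2 one_ne_zero)
  have hL : ∀ i : Fin (g + 1), Ld (y i) (-((g : ℤ) + 1 + (i : ℕ)))
      ((y i).coeff (-((g : ℤ) + 1 + (i : ℕ)))) := fun i => ⟨hy i, rfl⟩
  have hexp := expand g R y _ hu hgap hR hL (4 * g + 2) le_rfl
  have hprod : ∀ i j : Fin (g + 1), ∃ c : Fin 4 → Fin (g + 1) → O,
      y i * y j = ∑ l, ∑ m, HahnSeries.C (c l m) * BB g y l m := by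
    intro i j
    apply hexp
    · intro k hk
      apply ((hL i).mul (hL j)).1
      have hi := i.2
      have hj := j.2
      push_cast at hk
      omega
    · rw [map_mul]
      exact R.mul_mem (hR i) (hR j)
  choose c hc using hprod
  refine ⟨fun x => c x.1 x.2.1 x.2.2.1 x.2.2.2, ?_, ?_, ?_⟩
  · intro i j
    rw [← map_mul, hc i j, map_sum]
    refine Finset.sum_congr rfl fun l _ => ?_
    rw [map_sum]
    refine Finset.sum_congr rfl fun m _ => ?_
    rw [map_mul, mapR_C, HahnSeries.C_mul_eq_smul, BB, map_mul, map_pow]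
    congr 2
    split_ifs
    · rw [map_one]
    · rfl
  · rintro ⟨i, j, l, m⟩
    show red O (c i j l m) = algebraMap ℚ (kap O) (cF (i, j, l, m))
    -- the identity over the residue field
    have h1 : yF g (kap O) i * yF g (kap O) j =
        ∑ x : Fin 4 × Fin (g + 1), C (red O (c i j x.1 x.2)) * bb g (kap O) x := by
      rw [← sub_eq_zero]
      apply ev2_inj ht
      rw [eval₂_sub, eval₂_mul, ← hred i, ← hred j, ← map_mul, hc i j, map_sum,
        eval₂_finsetSum, Fintype.sum_prod_type, sub_eq_zero]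
      refine Finset.sum_congr rfl fun l' _ => ?_
      rw [map_sum]
      refine Finset.sum_congr rfl fun m' _ => ?_
      rw [map_mul, mapR_C, BB, bb, map_mul, map_pow, eval₂_mul, eval₂_C, eval₂_mul, eval₂_pow,
        hred 0]
      congr 2
      by_cases hm : m' = 0
      · rw [if_pos hm, if_pos hm, map_one, eval₂_one]
      · rw [if_neg hm, if_neg hm, hred]
    have h2 : yF g (kap O) i * yF g (kap O) j =
        ∑ x : Fin 4 × Fin (g + 1), C (algebraMap ℚ (kap O) (cF (i, j, x.1, x.2))) *
          bb g (kap O) x := by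
      have hmap : ∀ k : ℕ, (yF g ℚ k).map (algebraMap ℚ (kap O)) = yF g (kap O) k := by
        intro k
        simp [yF]
      have h3 := congrArg (Polynomial.map (algebraMap ℚ (kap O))) (hcF i j)
      rw [Polynomial.map_mul, hmap, hmap, Polynomial.map_sum] at h3
      rw [h3, Fintype.sum_prod_type]
      refine Finset.sum_congr rfl fun l' _ => ?_
      rw [Polynomial.map_sum]
      refine Finset.sum_congr rfl fun m' _ => ?_
      rw [Polynomial.map_mul, Polynomial.map_mul, Polynomial.map_pow, hmap, map_C, bb]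
      congr 2
      split_ifs
      · rw [Polynomial.map_one]
      · rw [hmap]
    have h3 : ∑ x : Fin 4 × Fin (g + 1),
        C (red O (c i j x.1 x.2) - algebraMap ℚ (kap O) (cF (i, j, x.1, x.2))) *
          bb g (kap O) x = 0 := by
      have h4 := h1.symm.trans h2
      rw [← sub_eq_zero, ← Finset.sum_sub_distrib] at h4
      rw [← h4]
      refine Finset.sum_congr rfl fun x _ => ?_
      rw [C_sub, sub_mul]
    exact sub_eq_zero.1 (bb_indep g hg _ h3 (l, m))
  · intro i
    have h1 := (hL i).map O.subtype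
    have h0 : (y i).coeff (-((g : ℤ) + 1 + (i : ℕ))) ≠ 0 := (hu i).ne_zero
    have h2 : O.subtype ((y i).coeff (-((g : ℤ) + 1 + (i : ℕ)))) ≠ 0 :=
      fun h => h0 (Subtype.ext h)
    exact ⟨(hL i).ne_zero h0, h1.order h2⟩

end Pool.Agent.RTB
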