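import Pool.Agent.RTB.GStmts

/-!
# squad RTB, module GVL: a valuation ring of the complex numbers with residue characteristic 0
-/

set_option autoImplicit false

open Polynomial

namespace Pool.Agent.RTB

theorem GVL_.exists_transcendental : ∃ b : ℂ, Transcendental ℚ b := by
  by_contra h
  push Not at h
  have h1 : {x : ℂ | IsAlgebraic ℚ x}.Countable := Algebraic.countable ℚ ℂ
  have h2 : {x : ℂ | IsAlgebraic ℚ x} = Set.univ := by
    ext x
    simp only [Set.mem_ofPred_eq, Set.mem_univ, iff_true]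
    have := h x
    unfold Transcendental at this
    exact not_not.1 this
  rw [h2] at h1
  exact not_countable_complex h1

theorem gvl_proof : Stmt_GVL := by
  obtain ⟨b, hb⟩ := GVL_.exists_transcendental
  let φ : ℚ[X] →+* ℂ := (aeval b : ℚ[X] →ₐ[ℚ] ℂ).toRingHom
  let A : Subring ℂ := φ.range
  have hbA : b ∈ A := ⟨X, by simp [φ]⟩
  let I : Ideal A := Ideal.span {(⟨b, hbA⟩ : A)}
  have hI : I ≠ ⊤ := by
    intro h
    rw [Ideal.eq_top_iff_one] at h
    obtain ⟨⟨a, p, hp⟩, ha⟩ := Ideal.mem_span_singleton'.1 h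
    have ha' : a * b = 1 := congrArg Subtype.val ha
    have h0 : aeval b (p * X - 1 : ℚ[X]) = 0 := by
      have hp' : aeval b p = a := hp
      rw [map_sub, map_mul, aeval_X, map_one, hp', ha', sub_self]
    have h1 : (p * X - 1 : ℚ[X]) = 0 := by
      by_contra hne
      exact hb ⟨_, hne, h0⟩
    have h2 := congrArg (fun q : ℚ[X] => q.eval 0) h1
    simp at h2
  obtain ⟨B, hAB, hIB⟩ := Ideal.image_subset_nonunits_valuationSubring I hI
  have hbB : b ∈ B := hAB hbA
  have hbn : b ∈ B.nonunits := hIB ⟨⟨b, hbA⟩, Ideal.subset_span rfl, rfl⟩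
  refine ⟨B, ⟨b, hbB⟩, ?_, ?_, ?_⟩
  · intro h
    have hb0 : b = 0 := congrArg Subtype.val h
    exact hb (hb0 ▸ isAlgebraic_zero)
  · have h1 := (ValuationSubring.coe_mem_nonunits_iff (A := B) (a := ⟨b, hbB⟩)).1 hbn
    exact h1
  · intro n hn
    have hnB : ((n : ℂ))⁻¹ ∈ B := by
      apply hAB
      refine ⟨C ((n : ℚ)⁻¹), ?_⟩
      simp [φ]
    refine isUnit_iff_exists_inv.2 ⟨⟨(n : ℂ)⁻¹, hnB⟩, ?_⟩
    apply Subtype.ext
    have : (n : ℂ) ≠ 0 := Nat.cast_ne_zero.2 hn
    change ((n : B) : ℂ) * (n : ℂ)⁻¹ = 1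
    rw [show ((n : B) : ℂ) = (n : ℂ) from by norm_cast]
    exact mul_inv_cancel₀ this

end Pool.Agent.RTB
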