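import Pool.Agent.RTB.GStmts

/-!
# squad RTB, part G: the order at the point
-/

set_option autoImplicit false

namespace Pool.Agent.RTB

namespace GVO_

theorem hom_pow {K : Type} [Field K] (f : K → ℤ)
    (hf : ∀ x y, x ≠ 0 → y ≠ 0 → f (x * y) = f x + f y) {x : K} (hx : x ≠ 0) (n : ℕ) :
    f (x ^ n) = n * f x := by
  have h1 : f 1 = 0 := by
    have := hf 1 1 one_ne_zero one_ne_zero
    rw [mul_one] at this
    linarith
  induction n with
  | zero => rw [pow_zero, h1]; simp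
  | succ n ih =>
    rw [pow_succ, hf _ _ (pow_ne_zero n hx) hx, ih]
    push_cast; ring

theorem hom_inv {K : Type} [Field K] (f : K → ℤ)
    (hf : ∀ x y, x ≠ 0 → y ≠ 0 → f (x * y) = f x + f y) {x : K} (hx : x ≠ 0) :
    f x⁻¹ = - f x := by
  have h1 : f 1 = 0 := by
    have := hf 1 1 one_ne_zero one_ne_zero
    rw [mul_one] at this
    linarith
  have := hf x x⁻¹ hx (inv_ne_zero hx)
  rw [mul_inv_cancel₀ hx, h1] at this
  linarith

theorem hom_zpow {K : Type} [Field K] (f : K → ℤ)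
    (hf : ∀ x y, x ≠ 0 → y ≠ 0 → f (x * y) = f x + f y) {x : K} (hx : x ≠ 0) (n : ℤ) :
    f (x ^ n) = n * f x := by
  obtain ⟨m, rfl | rfl⟩ := n.eq_nat_or_neg
  · rw [zpow_natCast, hom_pow f hf hx]
  · rw [zpow_neg, zpow_natCast, hom_inv f hf (pow_ne_zero m hx), hom_pow f hf hx]
    ring

end GVO_

open GVO_ in
theorem gvo_proof : Stmt_GVO := by
  intro g K _ _ R v hR V p hp
  have hvm := hR.mul
  have hom : ∀ x y : K, x ≠ 0 → y ≠ 0 → V.ord p (x * y) = V.ord p x + V.ord p y := V.mul p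
  have hiff : ∀ x : K, x ≠ 0 → (v x ≤ 0 ↔ 0 ≤ V.ord p x) := by
    intro x hx
    rw [← V.mem p x hx, hp x]
    constructor
    · exact fun h => Or.inr h
    · rintro (h | h)
      · exact absurd h hx
      · exact h
  have hz : ∀ x : K, x ≠ 0 → v x = 0 → V.ord p x = 0 := by
    intro x hx h
    have h1 := (hiff x hx).mp h.le
    have h2 := (hiff x⁻¹ (inv_ne_zero hx)).mp (by rw [hom_inv v hvm hx, h]; simp)
    rw [hom_inv (V.ord p) hom hx] at h2
    linarith
  obtain ⟨a, -, ha0, hva⟩ := hR.att (g + 1) le_rfl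
  obtain ⟨b, -, hb0, hvb⟩ := hR.att (g + 2) (by omega)
  have hu0 : a * b⁻¹ ≠ 0 := mul_ne_zero ha0 (inv_ne_zero hb0)
  have hvu : v (a * b⁻¹) = -1 := by
    rw [hvm a b⁻¹ ha0 (inv_ne_zero hb0), hom_inv v hvm hb0, hva, hvb]
    push_cast; ring
  generalize a * b⁻¹ = u at hu0 hvu
  have he0 : 0 ≤ V.ord p u := (hiff u hu0).mp (by rw [hvu]; norm_num)
  have hmain : ∀ x : K, x ≠ 0 → V.ord p x = - V.ord p u * v x := by
    intro x hx
    have hn : u ^ (v x) ≠ 0 := zpow_ne_zero _ hu0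
    have h1 : v (x * u ^ (v x)) = 0 := by
      rw [hvm x _ hx hn, hom_zpow v hvm hu0, hvu]; ring
    have h2 := hz _ (mul_ne_zero hx hn) h1
    rw [hom x _ hx hn, hom_zpow (V.ord p) hom hu0] at h2
    linarith
  obtain ⟨t, ht0, ht⟩ := V.unif p
  have h1 := hmain t ht0
  rw [ht] at h1
  have he : V.ord p u = 1 := by
    have h2 : V.ord p u ∣ 1 := ⟨- v t, by rw [h1]; ring⟩
    exact Int.eq_one_of_dvd_one he0 h2
  intro x hx
  rw [hmain x hx, he]
  ring

end Pool.Agent.RTB
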