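import Pool.Agent.RTB.GStmts

set_option autoImplicit false

open Polynomial

namespace Pool.Agent.RTB

namespace GWA_

section
variable {K : Type} [Field K] [Algebra ℂ K] (V : Crv.Val K)

theorem ord_pow (p : Pt K) {x : K} (hx : x ≠ 0) (k : ℕ) : V.ord p (x ^ k) = k * V.ord p x := by
  induction k with
  | zero => simp [V.ord_one]
  | succ k ih =>
    rw [pow_succ, V.mul p _ _ (pow_ne_zero k hx) hx, ih]
    push_cast; ring

theorem ord_neg (p : Pt K) {x : K} (hx : x ≠ 0) : V.ord p (-x) = V.ord p x := by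
  have h1 : V.ord p (-1) = 0 := by
    have h2 := V.mul p (-1) (-1) (by simp) (by simp)
    rw [neg_mul_neg, one_mul, V.ord_one] at h2
    linarith
  have h3 := V.mul p (-1) x (by simp) hx
  rw [neg_one_mul, h1, zero_add] at h3
  exact h3

theorem dom (p : Pt K) {x y : K} (hx : x ≠ 0) (hy : y ≠ 0) (h : V.ord p x < V.ord p y) :
    x + y ≠ 0 ∧ V.ord p (x + y) = V.ord p x := by
  have h0 : x + y ≠ 0 := by
    intro h0
    have : y = -x := by linear_combination h0
    rw [this, ord_neg V p hx] at h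
    exact lt_irrefl _ h
  refine ⟨h0, le_antisymm ?_ ?_⟩
  · by_contra hcon
    push Not at hcon
    have h2 := V.ord_add p (x := x + y) (y := -y) (n := min (V.ord p (x + y)) (V.ord p y))
      (Or.inr (min_le_left _ _)) (Or.inr (by rw [ord_neg V p hy]; exact min_le_right _ _))
    have e : x + y + -y = x := by ring
    rw [e] at h2
    rcases h2 with h2 | h2
    · exact hx h2
    · rcases min_le_iff.mp h2 with h3 | h3
      · linarith
      · linarith
  · rcases V.ord_add p (x := x) (y := y) (n := V.ord p x) (Or.inr le_rfl) (Or.inr h.le) with h2 | h2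
    · exact absurd h2 h0
    · exact h2

theorem ord_zpow (p : Pt K) {x : K} (hx : x ≠ 0) (k : ℤ) : V.ord p (x ^ k) = k * V.ord p x := by
  rcases Int.le_total 0 k with h | h
  · obtain ⟨n, rfl⟩ := Int.eq_ofNat_of_zero_le h
    rw [zpow_natCast, ord_pow V p hx]
  · obtain ⟨n, hn⟩ := Int.eq_ofNat_of_zero_le (show 0 ≤ -k by linarith)
    have : k = -(n : ℤ) := by linarith
    rw [this, zpow_neg, zpow_natCast, V.ord_inv p (pow_ne_zero n hx), ord_pow V p hx]
    ring

/-- distinct points: neither ring contains the other -/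
theorem not_le {p q : Pt K} (hpq : p ≠ q) : ∃ a : K, a ≠ 0 ∧ 0 ≤ V.ord p a ∧ V.ord q a < 0 := by
  by_contra hcon
  push Not at hcon
  apply hpq
  obtain ⟨t, ht0, ht⟩ := V.unif p
  obtain ⟨τ, hτ0, hτ⟩ := V.unif q
  have hle : ∀ a : K, a ≠ 0 → 0 ≤ V.ord p a → 0 ≤ V.ord q a := fun a ha h => hcon a ha h
  have hz : ∀ a : K, a ≠ 0 → V.ord p a = 0 → V.ord q a = 0 := by
    intro a ha h
    have h1 := hle a ha h.ge
    have h2 := hle a⁻¹ (inv_ne_zero ha) (by rw [V.ord_inv p ha, h]; simp)
    rw [V.ord_inv q ha] at h2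
    linarith
  have hall : ∀ a : K, a ≠ 0 → V.ord q a = V.ord p a * V.ord q t := by
    intro a ha
    have h1 := hz (a * t ^ (-(V.ord p a))) (mul_ne_zero ha (zpow_ne_zero _ ht0)) (by
      rw [V.mul p _ _ ha (zpow_ne_zero _ ht0), ord_zpow V p ht0, ht]; ring)
    rw [V.mul q _ _ ha (zpow_ne_zero _ ht0), ord_zpow V q ht0] at h1
    linarith
  have hc0 : 0 ≤ V.ord q t := hle t ht0 (by rw [ht]; norm_num)
  have hc : 0 < V.ord q t := by
    rcases hc0.lt_or_eq with h | h
    · exact h
    · have := hall τ hτ0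
      rw [← h, hτ] at this
      simp at this
  have hring : p.ring = q.ring := by
    ext a
    by_cases ha : a = 0
    · rw [ha]
      exact ⟨fun _ => q.ring.zero_mem, fun _ => p.ring.zero_mem⟩
    · rw [V.mem p a ha, V.mem q a ha, hall a ha]
      constructor
      · intro h; exact mul_nonneg h hc.le
      · intro h
        by_contra h2
        push Not at h2
        have := mul_neg_of_neg_of_pos h2 hc
        linarith
  cases p; cases q
  simp only at hring
  subst hring
  rfl

theorem two {p q : Pt K} (hpq : p ≠ q) : ∃ a : K, a ≠ 0 ∧ 0 < V.ord p a ∧ V.ord q a < 0 := by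
  obtain ⟨a, ha, h1, h2⟩ := not_le V hpq
  obtain ⟨b, hb, h3, h4⟩ := not_le V hpq.symm
  refine ⟨a * b⁻¹, mul_ne_zero ha (inv_ne_zero hb), ?_, ?_⟩
  · rw [V.mul p _ _ ha (inv_ne_zero hb), V.ord_inv p hb]; linarith
  · rw [V.mul q _ _ ha (inv_ne_zero hb), V.ord_inv q hb]; linarith

theorem many (p : Pt K) (S : Finset (Pt K)) (hp : p ∉ S) :
    ∃ u : K, u ≠ 0 ∧ 0 < V.ord p u ∧ ∀ q ∈ S, V.ord q u < 0 := by
  classical
  induction S using Finset.induction_on with
  | empty =>
    obtain ⟨t, ht0, ht⟩ := V.unif p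
    exact ⟨t, ht0, by rw [ht]; norm_num, by simp⟩
  | insert q S hq ih =>
    have hpq : p ≠ q := fun h => hp (by rw [h]; exact Finset.mem_insert_self q S)
    obtain ⟨u, hu0, hup, huS⟩ := ih (fun h => hp (Finset.mem_insert_of_mem h))
    obtain ⟨v, hv0, hvp, hvq⟩ := two V hpq
    set k : ℕ := 1 + ∑ r ∈ insert q S, (V.ord r u).natAbs with hk
    have hkb : ∀ r ∈ insert q S, -(V.ord r u) < k := by
      intro r hr
      have h1 : (V.ord r u).natAbs ≤ ∑ r ∈ insert q S, (V.ord r u).natAbs :=
        Finset.single_le_sum (f := fun r => (V.ord r u).natAbs) (fun _ _ => Nat.zero_le _) hr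
      have h2 : -(V.ord r u) ≤ ((V.ord r u).natAbs : ℤ) := by
        rw [Int.natCast_natAbs]; exact neg_le_abs _
      have h3 : ((V.ord r u).natAbs : ℤ) < k := by
        have : (V.ord r u).natAbs < k := by omega
        exact_mod_cast this
      linarith
    have hvk : v ^ k ≠ 0 := pow_ne_zero k hv0
    have hbig : ∀ r ∈ insert q S, V.ord r v < 0 → V.ord r (v ^ k) < V.ord r u ∧
        V.ord r (v ^ k) < 0 := by
      intro r hr hrv
      rw [ord_pow V r hv0]
      have h1 := hkb r hr
      have h2 : (1 : ℤ) ≤ k := by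
        have : 1 ≤ k := by omega
        exact_mod_cast this
      have h3 : V.ord r v ≤ -1 := by linarith
      constructor
      · nlinarith
      · nlinarith
    have hne : v ^ k + u ≠ 0 := (dom V q hvk hu0 (hbig q (Finset.mem_insert_self q S) hvq).1).1
    refine ⟨v ^ k + u, hne, ?_, ?_⟩
    · have h1 : 1 ≤ V.ord p (v ^ k) := by
        rw [ord_pow V p hv0]
        have h2 : (1 : ℤ) ≤ k := by
          have : 1 ≤ k := by omega
          exact_mod_cast this
        nlinarith
      rcases V.ord_add p (x := v ^ k) (y := u) (n := 1) (Or.inr h1) (Or.inr hup) with h | h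
      · exact absurd h hne
      · linarith
    · intro r hr
      rcases lt_or_ge (V.ord r v) 0 with h | h
      · obtain ⟨h1, h2⟩ := hbig r hr h
        rw [(dom V r hvk hu0 h1).2]; exact h2
      · have hrS : r ∈ S := by
          rcases Finset.mem_insert.mp hr with h1 | h1
          · rw [h1] at h; linarith
          · exact h1
        have h1 := huS r hrS
        have h2 : V.ord r u < V.ord r (v ^ k) := by
          rw [ord_pow V r hv0]
          have : 0 ≤ (k : ℤ) * V.ord r v := mul_nonneg (by positivity) h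
          linarith
        rw [add_comm, (dom V r hu0 hvk h2).2]
        exact h1

theorem idem (p : Pt K) (S : Finset (Pt K)) (N : ℕ) :
    ∃ e : K, (e - 1 = 0 ∨ (N : ℤ) ≤ V.ord p (e - 1)) ∧
      ∀ q ∈ S, q ≠ p → (e = 0 ∨ (N : ℤ) ≤ V.ord q e) := by
  classical
  obtain ⟨u, hu0, hup, huS⟩ := many V p (S.erase p) (by simp)
  set M := N + 1 with hM
  have huM : u ^ M ≠ 0 := pow_ne_zero M hu0
  have hMp : (N : ℤ) ≤ V.ord p (u ^ M) ∧ 0 < V.ord p (u ^ M) := by
    rw [ord_pow V p hu0]
    have h1 : (1 : ℤ) ≤ V.ord p u := hup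
    have h2 : ((M : ℕ) : ℤ) = N + 1 := by rw [hM]; push_cast; ring
    rw [h2]
    have h3 : (0 : ℤ) ≤ N := by positivity
    constructor <;> nlinarith
  obtain ⟨h1, h2⟩ := dom V p one_ne_zero huM (by rw [V.ord_one]; exact hMp.2)
  refine ⟨(1 + u ^ M)⁻¹, Or.inr ?_, ?_⟩
  · have e : (1 + u ^ M)⁻¹ - 1 = (-(u ^ M)) * (1 + u ^ M)⁻¹ := by
      field_simp
      ring
    rw [e, V.mul p _ _ (neg_ne_zero.mpr huM) (inv_ne_zero h1), ord_neg V p huM, V.ord_inv p h1,
      h2, V.ord_one]
    linarith [hMp.1]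
  · intro q hq hqp
    right
    have hqu := huS q (Finset.mem_erase.mpr ⟨hqp, hq⟩)
    have h3 : V.ord q (u ^ M) ≤ -(N : ℤ) - 1 := by
      rw [ord_pow V q hu0]
      have h4 : ((M : ℕ) : ℤ) = N + 1 := by rw [hM]; push_cast; ring
      rw [h4]
      have h5 : (0 : ℤ) ≤ N := by positivity
      have h6 : V.ord q u ≤ -1 := by linarith
      nlinarith
    have h4 := dom V q huM one_ne_zero (by
      rw [V.ord_one]
      have h5 : (0 : ℤ) ≤ N := by positivity
      linarith)
    rw [V.ord_inv q h1, add_comm, h4.2]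
    linarith

end

end GWA_

open GWA_ in
theorem gwa_proof : Stmt_GWA := by
  classical
  intro K _ _ V S a n
  set N : ℕ := n.natAbs + ∑ p ∈ S, ∑ q ∈ S, (V.ord p (a q)).natAbs with hN
  have hNb : ∀ p ∈ S, ∀ q ∈ S, n ≤ N + V.ord p (a q) := by
    intro p hp q hq
    have h1 : (V.ord p (a q)).natAbs ≤ ∑ q ∈ S, (V.ord p (a q)).natAbs :=
      Finset.single_le_sum (f := fun q => (V.ord p (a q)).natAbs) (fun _ _ => Nat.zero_le _) hq
    have h2 : ∑ q ∈ S, (V.ord p (a q)).natAbs ≤ ∑ p ∈ S, ∑ q ∈ S, (V.ord p (a q)).natAbs :=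
      Finset.single_le_sum (f := fun p => ∑ q ∈ S, (V.ord p (a q)).natAbs)
        (fun _ _ => Nat.zero_le _) hp
    have h3 : n ≤ (n.natAbs : ℤ) := by rw [Int.natCast_natAbs]; exact le_abs_self n
    have h4 : -(V.ord p (a q)) ≤ ((V.ord p (a q)).natAbs : ℤ) := by
      rw [Int.natCast_natAbs]; exact neg_le_abs _
    have h5 : ((n.natAbs + (V.ord p (a q)).natAbs : ℕ) : ℤ) ≤ N := by
      have : n.natAbs + (V.ord p (a q)).natAbs ≤ N := by omega
      exact_mod_cast this
    push_cast at h5
    push_cast at h3 h4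
    linarith
  choose e he1 he2 using fun p => idem V p S N
  refine ⟨∑ p ∈ S, a p * e p, fun p hp => ?_⟩
  have hmem : (∑ q ∈ S, a q * e q) - a p ∈ V.Lp p (-n) := by
    have e1 : (∑ q ∈ S, a q * e q) - a p =
        a p * (e p - 1) + ∑ q ∈ S.erase p, a q * e q := by
      rw [← Finset.add_sum_erase S _ hp]; ring
    rw [e1]
    refine Submodule.add_mem _ ?_ (Submodule.sum_mem _ fun q hq => ?_)
    · rw [V.mem_Lp, neg_neg]
      rcases he1 p with h | h
      · left; rw [h, mul_zero]
      · by_cases h0 : e p - 1 = 0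
        · left; rw [h0, mul_zero]
        by_cases ha : a p = 0
        · left; rw [ha, zero_mul]
        right
        rw [V.mul p _ _ ha h0]
        have := hNb p hp p hp
        linarith
    · rw [V.mem_Lp, neg_neg]
      have hq' := Finset.mem_erase.mp hq
      rcases he2 q p hp hq'.1.symm with h | h
      · left; rw [h, mul_zero]
      · by_cases h0 : e q = 0
        · left; rw [h0, mul_zero]
        by_cases ha : a q = 0
        · left; rw [ha, zero_mul]
        right
        rw [V.mul p _ _ ha h0]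
        have := hNb p hp q hq'.2
        linarith
  rw [V.mem_Lp, neg_neg] at hmem
  rcases hmem with h | h
  · left; linear_combination h
  · right; exact h

end Pool.Agent.RTB
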