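import Pool.Agent.RTB.GStmts

set_option autoImplicit false

open Polynomial

namespace Pool.Agent.RTB

/-- module GYW: the series `Y` and `w` -/
theorem gyw_proof (hGRT : Stmt_GRT) (hGIV : Stmt_GIV) : Stmt_GYW := by
  intro g O b px qx hodd hg hVR hbd hlead
  have hg0 : 0 < g := by omega
  have hgz : (0 : ℤ) < (g : ℤ) := by exact_mod_cast hg0
  have hX : Ld (X0 g O) (-(2 * (g : ℤ))) 1 := Ld_single _ _
  -- the series `Y`
  have h1 : Ld (X0 g O ^ 3 + HahnSeries.C b) (((2 : ℕ) : ℤ) * (-(3 * (g : ℤ)))) 1 := by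
    have h2 := hX.pow 3
    have h3 : Ld (HahnSeries.C b : LS O) (((2 : ℕ) : ℤ) * (-(3 * (g : ℤ)))) 0 :=
      (Ld_C b).weaken (by push_cast; linarith)
    have h4 : (((3 : ℕ) : ℤ) * (-(2 * (g : ℤ)))) = ((2 : ℕ) : ℤ) * (-(3 * (g : ℤ))) := by
      push_cast; ring
    rw [h4, one_pow] at h2
    have h5 := h2.add h3
    rw [add_zero] at h5
    exact h5
  obtain ⟨Y, hY1, hY2⟩ := hGRT O 2 (-(3 * (g : ℤ))) _ (by norm_num)
    (hVR.nat 2 (by norm_num)) h1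
  -- the function `ξ`
  have h6 : Ld (ev g Y px qx) ((g : ℤ) * (-((g : ℤ) + 1))) 1 := by
    have h7 := Ld_ev g hg0 hY1 hbd
    obtain ⟨m, hm⟩ := hodd
    have h8 : g + 1 = 2 * (m + 1) := by omega
    have h9 : (g + 1) / 2 = m + 1 := by omega
    rw [h9] at hlead
    have h10 : (-1 : O) ^ (g + 1) * (rd px qx).coeff (g + 1) = 1 := by
      rw [h8, rd_coeff_even, hlead, pow_mul]
      norm_num
    rw [h10] at h7
    have h11 : -((g : ℤ) * ((g + 1 : ℕ) : ℤ)) = (g : ℤ) * (-((g : ℤ) + 1)) := by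
      push_cast; ring
    rw [h11] at h7
    exact h7
  obtain ⟨ω, hω1, hω2⟩ := hGRT O g (-((g : ℤ) + 1)) _ hg0 (hVR.nat g (by omega)) h6
  -- the inverse
  have h12 : Ld (X0 g O - HahnSeries.C ((g : O) ^ 2)) (-(2 * (g : ℤ))) 1 := by
    have h13 : Ld (HahnSeries.C ((g : O) ^ 2) : LS O) (-(2 * (g : ℤ))) 0 :=
      (Ld_C _).weaken (by linarith)
    have h14 := hX.add h13.neg
    rw [neg_zero, add_zero, ← sub_eq_add_neg] at h14
    exact h14
  obtain ⟨z, hz1, hz2⟩ := hGIV O _ _ h12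
  refine ⟨Y, ω * z, hY2, hY1, ?_, ?_⟩
  · rw [mul_pow, hω2, mul_assoc, ← mul_pow, mul_comm z, hz2, one_pow, mul_one]
  · have h15 := hω1.mul hz1
    rw [mul_one] at h15
    have h16 : -((g : ℤ) + 1) + -(-(2 * (g : ℤ))) = (g : ℤ) - 1 := by ring
    rw [h16] at h15
    exact h15

end Pool.Agent.RTB
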