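import Pool.Agent.RTB.GStmts

/-! squad RTB, part G, module GZD: the degree of a principal divisor -/

set_option autoImplicit false

open Polynomial

namespace Pool.Agent.RTB

theorem gzd_proof (hGDG : Stmt_GDG) (hGRK : Stmt_GRK) (hGVO : Stmt_GVO) (hGOT : Stmt_GOT) :
    Stmt_GZD := by
  intro g K _ _ R v hR V p hp f hfR hf
  classical
  have hord : ∀ x, x ≠ 0 → V.ord p x = - v x := hGVO g K R v hR V p hp
  have hv1 : v 1 = 0 := by
    have := hR.alg 1 one_ne_zero
    rwa [map_one] at this
  rcases hR.gap f hfR hf with h0 | h0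
  · obtain ⟨z, hz⟩ := hR.res f 1 hf one_ne_zero (by rw [h0, hv1])
    have hfz : f = algebraMap ℂ K z := by
      by_contra hne
      rcases hz with hz | hz
      · apply hne
        rw [hz, Algebra.smul_def, mul_one]
      · have h2 : f - z • (1 : K) ∈ R := R.sub_mem hfR (R.smul_mem R.one_mem z)
        have h3 : f - z • (1 : K) ≠ 0 := by
          intro h
          apply hne
          rw [sub_eq_zero] at h
          rw [h, Algebra.smul_def, mul_one]
        rcases hR.gap _ h2 h3 with h4 | h4 <;> omega
    have hz0 : z ≠ 0 := by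
      rintro rfl
      exact hf (by rw [hfz, map_zero])
    have hdv : V.dv f = 0 := by
      ext q
      rw [V.dv_apply hf, hfz, V.ord_const q hz0]
      rfl
    rw [hdv]
    simp [Crv.dg]
  · obtain ⟨m, hm⟩ : ∃ m : ℕ, v f = m := ⟨(v f).toNat, by omega⟩
    have hm0 : 0 < m := by omega
    obtain ⟨S, hS⟩ : ∃ S : Finset (Pt K), ∀ q, q ∈ S ↔ 0 < V.ord q f := by
      refine ⟨(V.fin f hf).toFinset.filter (fun q => 0 < V.ord q f), fun q => ?_⟩
      rw [Finset.mem_filter, Set.Finite.mem_toFinset]
      constructor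
      · exact fun h => h.2
      · exact fun h => ⟨by show V.ord q f ≠ 0; omega, h⟩
    have hpf : V.ord p f = -(m : ℤ) := by rw [hord f hf, hm]
    have hpS : p ∉ S := by
      rw [hS, hpf]; omega
    obtain ⟨z, hz⟩ := hGDG K V S f hf (fun q hq => (hS q).1 hq)
    have hM : ∑ q ∈ S, (V.ord q f).toNat ≤ m := by
      by_contra hlt
      push Not at hlt
      obtain ⟨P, ⟨i, hPi⟩, hP⟩ := hGRK g K R v hR f m hfR hf hm hm0
        (fun i => z (Fin.castLE hlt i))
      have h1 := hz (fun j => if h : (j : ℕ) < m + 1 then P ⟨j, h⟩ else 0) (by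
        have h2 : ∑ j : Fin (∑ q ∈ S, (V.ord q f).toNat),
            aeval f (if h : (j : ℕ) < m + 1 then P ⟨j, h⟩ else 0) * z j =
            ∑ j ∈ Finset.univ.image (Fin.castLE hlt),
            aeval f (if h : (j : ℕ) < m + 1 then P ⟨j, h⟩ else 0) * z j := by
          symm
          apply Finset.sum_subset (Finset.subset_univ _)
          intro j _ hj
          rw [dif_neg, map_zero, zero_mul]
          intro hjm
          apply hj
          rw [Finset.mem_image]
          exact ⟨⟨j, hjm⟩, Finset.mem_univ _, by ext; simp⟩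
        rw [h2, Finset.sum_image (fun a _ b _ hab => Fin.castLE_injective hlt hab), ← hP]
        refine Finset.sum_congr rfl fun j _ => ?_
        rw [dif_pos (show ((Fin.castLE hlt j : Fin _) : ℕ) < m + 1 from j.2)]
        rfl) (Fin.castLE hlt i)
      apply hPi
      have h3 : ((Fin.castLE hlt i : Fin _) : ℕ) < m + 1 := i.2
      rw [dif_pos h3] at h1
      exact h1
    have hsub : (V.dv f).support ⊆ insert p S := by
      intro q hq
      rw [Finsupp.mem_support_iff, V.dv_apply hf] at hq
      rw [Finset.mem_insert]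
      by_cases hqp : q = p
      · exact Or.inl hqp
      · right
        have h1 := (V.mem q f hf).1 (hGOT g K R v hR V p hp q hqp f hfR)
        rw [hS]
        omega
    have hdg : Crv.dg (V.dv f) = ∑ q ∈ insert p S, V.ord q f := by
      rw [Crv.dg, Finsupp.sum_of_support_subset _ hsub _ (fun _ _ => rfl)]
      exact Finset.sum_congr rfl fun q _ => V.dv_apply hf q
    rw [hdg, Finset.sum_insert hpS, hpf]
    have h5 : ∑ q ∈ S, V.ord q f = ((∑ q ∈ S, (V.ord q f).toNat : ℕ) : ℤ) := by
      push_cast
      refine Finset.sum_congr rfl fun q hq => ?_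
      have := (hS q).1 hq
      omega
    rw [h5]
    have : ((∑ q ∈ S, (V.ord q f).toNat : ℕ) : ℤ) ≤ m := by exact_mod_cast hM
    linarith

end Pool.Agent.RTB
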