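import Pool.Agent.RTB.SStmts

set_option autoImplicit false
set_option linter.unusedSectionVars false

open Polynomial

namespace Pool.Agent.RTB

namespace HIN_

variable {L : Type} [Field L] [CharZero L] [IsAlgClosed L]

theorem mem_s {F : L[X]} {g : ℕ} (hF : FF F g) [DecidableEq L] (c : L) :
    c ∈ F.roots.toFinset ↔ F.eval c = 0 := by
  rw [Multiset.mem_toFinset, mem_roots hF.mon.ne_zero, IsRoot.def]

theorem card_s {F : L[X]} {g : ℕ} (hF : FF F g) [DecidableEq L] :
    F.roots.toFinset.card = g := by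
  have h1 : F.roots.Nodup := nodup_roots hF.sep
  rw [Multiset.toFinset_card_of_nodup h1, ← (IsAlgClosed.splits F).natDegree_eq_card_roots]
  exact hF.deg

theorem prod_s {F : L[X]} {g : ℕ} (hF : FF F g) [DecidableEq L] :
    F = ∏ c ∈ F.roots.toFinset, (X - C c) := by
  have h1 : F.roots.Nodup := nodup_roots hF.sep
  have h2 := (IsAlgClosed.splits F).eq_prod_roots_of_monic hF.mon
  have h3 : (∏ c ∈ F.roots.toFinset, (X - C c)) = (F.roots.map (fun c => X - C c)).prod := by
    rw [Finset.prod_eq_multiset_prod, Multiset.toFinset_val, Multiset.dedup_eq_self.2 h1]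
  rw [h3]
  exact h2

theorem der_ne {F : L[X]} {g : ℕ} (hF : FF F g) (c : L) (hc : F.eval c = 0) :
    (derivative F).eval c ≠ 0 := by
  have h := hF.sep.aeval_derivative_ne_zero (S := L) (x := c) (by simpa using hc)
  simpa using h

theorem cop (s : Finset L) : (s : Set L).Pairwise (Function.onFun IsCoprime (fun c : L => (X - C c : L[X]))) := by
  intro a _ b _ hab
  exact pairwise_coprime_X_sub_C (s := (id : L → L)) Function.injective_id hab

theorem dvd1 {F : L[X]} {g : ℕ} (hF : FF F g) (p : L[X])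
    (hp : ∀ c, F.eval c = 0 → p.eval c = 0) : F ∣ p := by
  classical
  rw [prod_s hF]
  refine Finset.prod_dvd_of_coprime (cop _) ?_
  intro c hc
  rw [dvd_iff_isRoot]
  exact hp c ((mem_s hF c).1 hc)

theorem dvd2 {F : L[X]} {g : ℕ} (hF : FF F g) (p : L[X])
    (hp : ∀ c, F.eval c = 0 → p.eval c = 0 ∧ (derivative p).eval c = 0) : F ^ 2 ∣ p := by
  obtain ⟨q, hq⟩ := dvd1 hF p (fun c hc => (hp c hc).1)
  have h2 : F ∣ q := by
    refine dvd1 hF q ?_
    intro c hc
    have h3 := (hp c hc).2
    rw [hq, derivative_mul, eval_add, eval_mul, eval_mul, hc, zero_mul, add_zero] at h3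
    rcases mul_eq_zero.1 h3 with h | h
    · exact absurd h (der_ne hF c hc)
    · exact h
  obtain ⟨r, hr⟩ := h2
  exact ⟨r, by rw [hq, hr]; ring⟩

theorem intp {F : L[X]} {g : ℕ} (hF : FF F g) (hg : 1 ≤ g) (a : L → L) :
    ∃ p : L[X], p.natDegree ≤ g - 1 ∧ ∀ c, F.eval c = 0 → p.eval c = a c := by
  classical
  refine ⟨Lagrange.interpolate F.roots.toFinset id a, ?_, ?_⟩
  · have h := Lagrange.degree_interpolate_lt (s := F.roots.toFinset) (v := (id : L → L)) a
      (Set.injOn_id _)
    rw [card_s hF] at h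
    have h2 : (Lagrange.interpolate F.roots.toFinset (id : L → L) a).natDegree < g := by
      by_cases h0 : (Lagrange.interpolate F.roots.toFinset (id : L → L) a) = 0
      · rw [h0, natDegree_zero]; omega
      · exact (natDegree_lt_iff_degree_lt h0).2 h
    omega
  · intro c hc
    exact Lagrange.eval_interpolate_at_node (v := (id : L → L)) a (Set.injOn_id _)
      ((mem_s hF c).2 hc)

theorem herm {F : L[X]} {g : ℕ} (hF : FF F g) (hg : 1 ≤ g) (a b : L → L) :
    ∃ p : L[X], p.natDegree ≤ 2 * g - 1 ∧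
      ∀ c, F.eval c = 0 → p.eval c = a c ∧ (derivative p).eval c = b c := by
  obtain ⟨p0, hd0, hp0⟩ := intp hF hg a
  obtain ⟨q, hdq, hq⟩ := intp hF hg
    (fun c => (b c - (derivative p0).eval c) / (derivative F).eval c)
  refine ⟨p0 + F * q, ?_, ?_⟩
  · refine le_trans (natDegree_add_le _ _) (max_le (by omega) ?_)
    refine le_trans natDegree_mul_le ?_
    have := hF.deg
    omega
  · intro c hc
    refine ⟨?_, ?_⟩
    · rw [eval_add, eval_mul, hc, zero_mul, add_zero, hp0 c hc]
    · rw [derivative_add, derivative_mul, eval_add, eval_add, eval_mul, eval_mul, hc, zero_mul,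
        add_zero, hq c hc]
      have h := der_ne hF c hc
      field_simp
      ring

end HIN_

theorem hin_proof : Stmt_HIN := by
  intro L _ _ _ F g hF
  refine ⟨?_, ?_, ?_, ?_, ?_, ?_⟩
  · convert HIN_.card_s hF
  · exact fun c hc => HIN_.der_ne hF c hc
  · exact fun p hp => HIN_.dvd1 hF p hp
  · exact fun p hp => HIN_.dvd2 hF p hp
  · exact fun hg a b => HIN_.herm hF hg a b
  · exact fun hg a => HIN_.intp hF hg a

end Pool.Agent.RTB
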