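import Pool.Agent.RTB.SStmts

/-! squad RTB, module HUB -/

set_option autoImplicit false

open Polynomial

namespace Pool.Agent.RTB

namespace HUB_

variable {L : Type} [Field L]

theorem deriv_wr (A w : L[X]) :
    derivative (wr A w) = A * derivative (derivative w) - derivative (derivative A) * w := by
  simp only [wr, derivative_sub, derivative_mul]; ring

/-- the jet conditions as a linear map -/
noncomputable def Phi (A : L[X]) (lam : L → L) (M : ℕ) (s : Finset L) :
    degreeLT L (M + 1) →ₗ[L] (s → L) where
  toFun := fun p c => (derivative (p : L[X])).eval (c : L) - lam c * (p : L[X]).eval (c : L)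
  map_add' := fun a b => by
    funext c
    simp only [Submodule.coe_add, derivative_add, eval_add, Pi.add_apply]; ring
  map_smul' := fun r a => by
    funext c
    simp only [Submodule.coe_smul, derivative_smul, eval_smul, smul_eq_mul, Pi.smul_apply,
      RingHom.id_apply]; ring

end HUB_

open HUB_

theorem hub_proof (hA : Stmt_WDG) (hB : Stmt_HIN) : Stmt_HUB := by
  classical
  intro L _ _ _ A a k H hk hFA hAa hH
  set g := 2 * k - 4 with hg
  obtain ⟨h1, h2, h3, h4, h5, h6⟩ := hB L A g hFA
  have hg1 : 1 ≤ g := by omega
  have hA0 : A ≠ 0 := hFA.mon.ne_zero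
  refine ⟨2 * g, fun n hn => ?_⟩
  set lam : L → L := fun c => (derivative (derivative A)).eval c / (derivative A).eval c with hlam
  set M := n + (2 * g - 2) with hM
  set s := A.roots.toFinset with hs
  have hsub : (RF ((X - C a) * A) n * H : Submodule L L[X]) ≤
      (LinearMap.ker (Phi A lam M s)).map (degreeLT L (M + 1)).subtype := by
    rw [Submodule.mul_le]
    intro r hr p hp
    obtain ⟨w, hw, rfl⟩ := hH p hp
    rw [mem_RF] at hr
    have hd : (wr A w).natDegree ≤ 2 * g - 2 :=
      (hA L g A w 0 (le_of_eq hFA.deg) hw (by simp)).1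
    have hd2 : (r * wr A w).natDegree ≤ M := by
      refine le_trans natDegree_mul_le ?_
      rw [hM]; exact Nat.add_le_add hr.1 hd
    have hmem : r * wr A w ∈ degreeLT L (M + 1) := by
      rw [mem_degreeLT]
      have := natDegree_le_iff_degree_le.mp hd2
      refine lt_of_le_of_lt this ?_
      exact_mod_cast Nat.lt_succ_self M
    refine ⟨⟨r * wr A w, hmem⟩, ?_, rfl⟩
    rw [SetLike.mem_coe, LinearMap.mem_ker]
    funext c
    have hc : A.eval (c : L) = 0 := by
      have h := c.2
      have h' : (c : L) ∈ A.roots := Multiset.mem_toFinset.mp h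
      exact (mem_roots hA0).mp h'
    have hA' : (derivative A).eval (c : L) ≠ 0 := h2 c hc
    have hr' : (derivative r).eval (c : L) = 0 := by
      obtain ⟨q, hq⟩ := hr.2
      rw [hq, eval_mul, eval_mul, hc]; ring
    show (derivative (r * wr A w)).eval (c : L) - lam c * (r * wr A w).eval (c : L) = 0
    rw [derivative_mul, deriv_wr, eval_add, eval_mul, eval_mul, hr', eval_sub, eval_mul, eval_mul,
      hc, eval_mul]
    simp only [wr, eval_sub, eval_mul, hc, hlam]
    field_simp
    ring
  have hsurj : Function.Surjective (Phi A lam M s) := by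
    intro b
    obtain ⟨p, hp, hp2⟩ := h5 hg1 (fun _ => 0) (fun c => if h : c ∈ s then b ⟨c, h⟩ else 0)
    have hmem : p ∈ degreeLT L (M + 1) := by
      rw [mem_degreeLT]
      have hpM : p.natDegree ≤ M := le_trans hp (by omega)
      refine lt_of_le_of_lt (natDegree_le_iff_degree_le.mp hpM) ?_
      exact_mod_cast Nat.lt_succ_self M
    refine ⟨⟨p, hmem⟩, ?_⟩
    funext c
    have hc : A.eval (c : L) = 0 := by
      have h := c.2
      have h' : (c : L) ∈ A.roots := Multiset.mem_toFinset.mp h
      exact (mem_roots hA0).mp h'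
    show (derivative p).eval (c : L) - lam c * p.eval (c : L) = b c
    rw [(hp2 c hc).1, (hp2 c hc).2]
    simp
  have : FiniteDimensional L (degreeLT L (M + 1)) :=
    LinearEquiv.finiteDimensional (degreeLTEquiv L (M + 1)).symm
  have hfr : Module.finrank L (degreeLT L (M + 1)) = M + 1 := by
    rw [LinearEquiv.finrank_eq (degreeLTEquiv L (M + 1)), Module.finrank_fin_fun]
  have hrk := LinearMap.finrank_range_add_finrank_ker (Phi A lam M s)
  rw [LinearMap.range_eq_top.mpr hsurj, finrank_top, hfr, Module.finrank_fintype_fun_eq_card,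
    Fintype.card_coe, h1] at hrk
  have hle1 := Submodule.finrank_mono hsub
  have hle2 := Submodule.finrank_map_le (degreeLT L (M + 1)).subtype (LinearMap.ker (Phi A lam M s))
  have : M = n + (2 * g - 2) := hM
  omega

end Pool.Agent.RTB
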