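import Pool.Agent.RTB.SStmts

set_option autoImplicit false

open Polynomial

namespace Pool.Agent.RTB

namespace JPC_

variable {L : Type} [Field L]

theorem id1 (T f1 f2 p : L[X]) (hT : derivative T = 1) :
    f1 * D3 T f1 f2 p = T * wr (wr f1 f2) (T * wr f1 p - 3 * (f1 * p))
      - 4 * (wr f1 f2 * (T * wr f1 p - 3 * (f1 * p))) := by
  have e3 : derivative (3 : L[X]) = 0 := by simp
  simp only [D3, wr, derivative_sub, derivative_mul, hT, e3]
  ring

theorem id2 (T f1 f2 p : L[X]) (hT : derivative T = 1) :
    f2 * D3 T f1 f2 p = T * wr (wr f1 f2) (T * wr f2 p - 3 * (f2 * p))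
      - 4 * (wr f1 f2 * (T * wr f2 p - 3 * (f2 * p))) := by
  have e3 : derivative (3 : L[X]) = 0 := by simp
  simp only [D3, wr, derivative_sub, derivative_mul, hT, e3]
  ring

/-- the value of `G` at `c` -/
theorem gval (T f w0 C3 p w om : L[X]) (c lam : L) (hT : derivative T = 1)
    (hw0 : w0.eval c ≠ 0) (hlam : (derivative om).eval c = lam * om.eval c)
    (h1 : T * w = w0 * p + C3 * om)
    (h2 : (w0 * (f * (derivative w * T - 2 * w) - derivative f * w * T)
      - f * w * derivative w0 * T).eval c = 0) :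
    (T * wr f p - 3 * (f * p)).eval c =
      (-(w0.eval c * f.eval c * T.eval c * ((derivative C3).eval c + C3.eval c * lam)
        - 3 * (f.eval c * w0.eval c * C3.eval c)
        - (derivative f).eval c * T.eval c * w0.eval c * C3.eval c
        - f.eval c * (derivative w0).eval c * T.eval c * C3.eval c) / (w0.eval c) ^ 2)
        * om.eval c := by
  have h3 : w + T * derivative w = derivative w0 * p + w0 * derivative p
      + (derivative C3 * om + C3 * derivative om) := by
    have := congrArg derivative h1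
    rw [derivative_mul, derivative_add, derivative_mul, derivative_mul, hT, one_mul] at this
    exact this
  have h1' := congrArg (eval c) h1
  have h3' := congrArg (eval c) h3
  simp only [eval_add, eval_mul, eval_sub, eval_ofNat] at h1' h3' h2
  rw [hlam] at h3'
  simp only [wr, eval_sub, eval_mul, eval_ofNat]
  rw [div_mul_eq_mul_div, eq_div_iff (pow_ne_zero 2 hw0)]
  generalize eval c T = T' at *
  generalize eval c w0 = W at *
  generalize eval c f = f' at *
  generalize eval c w = w' at *
  generalize eval c p = p' at *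
  generalize eval c om = o at *
  generalize eval c C3 = C' at *
  generalize eval c (derivative w) = dw at *
  generalize eval c (derivative f) = df at *
  generalize eval c (derivative w0) = dW at *
  generalize eval c (derivative p) = dp at *
  generalize eval c (derivative C3) = dC at *
  linear_combination T' * h2 - W * f' * T' * h3' + (3 * f' * W + df * T' * W + f' * dW * T') * h1'

/-- from the value of `G` to the jets of `D3` -/
theorem fin (A T f q G : L[X]) (c o kf : L) (hA : A.eval c = 0) (hT : derivative T = 1)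
    (hf : f.eval c ≠ 0) (hid : f * q = T * wr A G - 4 * (A * G)) (hG : G.eval c = kf * o) :
    q.eval c = (-(T.eval c * (derivative A).eval c * kf) / f.eval c) * o ∧
    (derivative q).eval c =
      ((-((5 * (derivative A).eval c + T.eval c * (derivative (derivative A)).eval c) * kf)
        - (derivative f).eval c * (-(T.eval c * (derivative A).eval c * kf) / f.eval c))
        / f.eval c) * o := by
  have h1 := congrArg (eval c) hid
  have h2 := congrArg (fun x => eval c (derivative x)) hid
  have e4 : derivative (4 : L[X]) = 0 := by simp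
  simp only [wr, eval_add, eval_mul, eval_sub, eval_ofNat, derivative_mul, derivative_sub, hT, e4,
    hA, eval_one, eval_zero, hG] at h1 h2
  have h3 : q.eval c = (-(T.eval c * (derivative A).eval c * kf) / f.eval c) * o := by
    field_simp
    linear_combination h1
  refine ⟨h3, ?_⟩
  rw [h3] at h2
  have h4 : (derivative q).eval c * f.eval c =
      (-((5 * (derivative A).eval c + T.eval c * (derivative (derivative A)).eval c) * kf)
        - (derivative f).eval c * (-(T.eval c * (derivative A).eval c * kf) / f.eval c)) * o := by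
    linear_combination h2
  rw [div_mul_eq_mul_div, eq_div_iff hf, h4]

end JPC_

open JPC_ in
theorem jpc_proof : Stmt_JPC := by
  intro L _ _ _ A f1 f2 w0 C3 a c g P ν3 w2 hFF hw hAc hca hw0 hw0P htI h1 h2
  obtain ⟨lam, hlam⟩ := htI
  have hT : derivative (X - C a : L[X]) = 1 := by simp
  have hA' : (derivative A).eval c ≠ 0 := by
    obtain ⟨u, v, huv⟩ := hFF.sep
    intro h
    have := congrArg (eval c) huv
    rw [eval_add, eval_mul, eval_mul, hAc, h, mul_zero, mul_zero, add_zero, eval_one] at this
    exact zero_ne_one this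
  have hne : f1.eval c ≠ 0 ∨ f2.eval c ≠ 0 := by
    by_contra hcon
    push Not at hcon
    obtain ⟨e1, e2⟩ := hcon
    apply hA'
    rw [← hw]
    simp only [wr, derivative_sub, derivative_mul, eval_sub, eval_add, eval_mul, e1, e2]
    ring
  rcases hne with hf | hf
  · obtain ⟨kf, hkf⟩ : ∃ kf : L, ∀ ω ∈ P, ((X - C a) * wr f1 (ν3 ω)
        - 3 * (f1 * ν3 ω)).eval c = kf * ω.eval c :=
      ⟨_, fun ω hω => gval (X - C a) f1 w0 C3 (ν3 ω) (w2 ω) ω c lam hT hw0 (hlam ω hω) (h1 ω hω)
        (h2 ω hω).1⟩
    have hid : ∀ ω, f1 * D3 (X - C a) f1 f2 (ν3 ω) = (X - C a) * wr A ((X - C a) * wr f1 (ν3 ω)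
        - 3 * (f1 * ν3 ω)) - 4 * (A * ((X - C a) * wr f1 (ν3 ω) - 3 * (f1 * ν3 ω))) := by
      intro ω
      have := id1 (X - C a) f1 f2 (ν3 ω) hT
      rw [hw] at this
      exact this
    exact ⟨_, _, fun ω hω => fin A (X - C a) f1 _ _ c _ _ hAc hT hf (hid ω) (hkf ω hω)⟩
  · obtain ⟨kf, hkf⟩ : ∃ kf : L, ∀ ω ∈ P, ((X - C a) * wr f2 (ν3 ω)
        - 3 * (f2 * ν3 ω)).eval c = kf * ω.eval c :=
      ⟨_, fun ω hω => gval (X - C a) f2 w0 C3 (ν3 ω) (w2 ω) ω c lam hT hw0 (hlam ω hω) (h1 ω hω)
        (h2 ω hω).2⟩
    have hid : ∀ ω, f2 * D3 (X - C a) f1 f2 (ν3 ω) = (X - C a) * wr A ((X - C a) * wr f2 (ν3 ω)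
        - 3 * (f2 * ν3 ω)) - 4 * (A * ((X - C a) * wr f2 (ν3 ω) - 3 * (f2 * ν3 ω))) := by
      intro ω
      have := id2 (X - C a) f1 f2 (ν3 ω) hT
      rw [hw] at this
      exact this
    exact ⟨_, _, fun ω hω => fin A (X - C a) f2 _ _ c _ _ hAc hT hf (hid ω) (hkf ω hω)⟩

end Pool.Agent.RTB
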