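import Pool.Agent.RTB.SStmts

set_option autoImplicit false

open Polynomial

namespace Pool.Agent.RTB

namespace JPD_

variable {L : Type} [Field L]

/-- the value of `wr f p` at `c` -/
theorem gval (f w0 C0 p om : L[X]) (c lam : L)
    (hw0 : w0.eval c ≠ 0) (hlam : (derivative om).eval c = lam * om.eval c)
    (h2 : (w0 * wr f (w0 * p + C0 * om) - f * (w0 * p + C0 * om) * derivative w0).eval c = 0) :
    (wr f p).eval c =
      (-(w0.eval c * f.eval c * ((derivative C0).eval c + C0.eval c * lam)
        - w0.eval c * (derivative f).eval c * C0.eval c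
        - f.eval c * (derivative w0).eval c * C0.eval c) / (w0.eval c) ^ 2) * om.eval c := by
  simp only [wr, derivative_add, derivative_mul, eval_add, eval_mul, eval_sub] at h2
  rw [hlam] at h2
  simp only [wr, eval_sub, eval_mul]
  rw [div_mul_eq_mul_div, eq_div_iff (pow_ne_zero 2 hw0)]
  linear_combination h2

/-- from the value of `wr f p` to the jets of `Dh` -/
theorem fin (B f q G : L[X]) (c o kf : L) (hB : B.eval c = 0)
    (hf : f.eval c ≠ 0) (hid : f * q = wr B G) (hG : G.eval c = kf * o) :
    q.eval c = (-((derivative B).eval c * kf) / f.eval c) * o ∧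
    (derivative q).eval c =
      ((-((derivative (derivative B)).eval c * kf)
        - (derivative f).eval c * (-((derivative B).eval c * kf) / f.eval c))
        / f.eval c) * o := by
  have h1 := congrArg (eval c) hid
  have h2 := congrArg (fun x => eval c (derivative x)) hid
  simp only [wr, eval_add, eval_mul, eval_sub, derivative_mul, derivative_sub,
    hB, hG] at h1 h2
  have h3 : q.eval c = (-((derivative B).eval c * kf) / f.eval c) * o := by
    field_simp
    linear_combination h1
  refine ⟨h3, ?_⟩
  rw [h3] at h2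
  have h4 : (derivative q).eval c * f.eval c =
      (-((derivative (derivative B)).eval c * kf)
        - (derivative f).eval c * (-((derivative B).eval c * kf) / f.eval c)) * o := by
    linear_combination h2
  rw [div_mul_eq_mul_div, eq_div_iff hf, h4]

end JPD_

open JPD_ in
theorem jpd_proof (hPNX : Stmt_PNX) : Stmt_JPD := by
  intro L _ _ _ F f1 f2 l w0 C0 k P ν c hk hFF hPN hFc hw0 hw0P htI h2
  obtain ⟨lam, hlam⟩ := htI
  have hB : (wr f1 f2).eval c = 0 := by
    rw [hPN.hw, eval_mul, hFc, zero_mul]
  by_cases hne : f1.eval c ≠ 0 ∨ f2.eval c ≠ 0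
  · rcases hne with hf | hf
    · obtain ⟨kf, hkf⟩ : ∃ kf : L, ∀ ω ∈ P, (wr f1 (ν ω)).eval c = kf * ω.eval c :=
        ⟨_, fun ω hω => gval f1 w0 C0 (ν ω) ω c lam hw0 (hlam ω hω) (h2 ω hω).1⟩
      exact ⟨_, _, fun ω hω => fin (wr f1 f2) f1 _ _ c _ _ hB hf (key1 f1 f2 (ν ω)) (hkf ω hω)⟩
    · obtain ⟨kf, hkf⟩ : ∃ kf : L, ∀ ω ∈ P, (wr f2 (ν ω)).eval c = kf * ω.eval c :=
        ⟨_, fun ω hω => gval f2 w0 C0 (ν ω) ω c lam hw0 (hlam ω hω) (h2 ω hω).2⟩
      exact ⟨_, _, fun ω hω => fin (wr f1 f2) f2 _ _ c _ _ hB hf (key2 f1 f2 (ν ω)) (hkf ω hω)⟩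
  · push Not at hne
    obtain ⟨e1, e2⟩ := hne
    obtain ⟨-, hlc, hd, hW2⟩ := (hPNX L F f1 f2 l k hk hFF hPN).2.1 c e1 e2
    have hB' : (derivative (wr f1 f2)).eval c = 0 := by
      rw [hPN.hw, derivative_mul, eval_add, eval_mul, eval_mul, hFc, hlc]
      ring
    rw [← hPN.hw] at hW2
    have hp : ∀ ω ∈ P, (ν ω).eval c = (-(C0.eval c) / w0.eval c) * ω.eval c := by
      intro ω hω
      obtain ⟨j1, j2⟩ := h2 ω hω
      simp only [wr, eval_sub, eval_mul, eval_add, e1, e2, zero_mul, zero_sub, sub_zero] at j1 j2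
      have hw : w0.eval c * (ν ω).eval c + C0.eval c * ω.eval c = 0 := by
        rcases hd with hd | hd
        · have : w0.eval c * (derivative f1).eval c ≠ 0 := mul_ne_zero hw0 hd
          have h3 : (w0.eval c * (derivative f1).eval c) *
              (w0.eval c * (ν ω).eval c + C0.eval c * ω.eval c) = 0 := by
            linear_combination -j1
          exact (mul_eq_zero.1 h3).resolve_left this
        · have : w0.eval c * (derivative f2).eval c ≠ 0 := mul_ne_zero hw0 hd
          have h3 : (w0.eval c * (derivative f2).eval c) *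
              (w0.eval c * (ν ω).eval c + C0.eval c * ω.eval c) = 0 := by
            linear_combination -j2
          exact (mul_eq_zero.1 h3).resolve_left this
      rw [div_mul_eq_mul_div, eq_div_iff hw0]
      linear_combination hw
    refine ⟨(wr (derivative f1) (derivative f2)).eval c * (-(C0.eval c) / w0.eval c),
      (derivative (wr (derivative f1) (derivative f2))).eval c * (-(C0.eval c) / w0.eval c),
      fun ω hω => ⟨?_, ?_⟩⟩
    · simp only [Dh, eval_add, eval_sub, eval_mul, hB, hB']
      rw [hp ω hω]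
      ring
    · simp only [Dh, derivative_add, derivative_sub, derivative_mul, eval_add, eval_sub, eval_mul,
        hB, hB', hW2]
      rw [hp ω hω]
      ring

end Pool.Agent.RTB
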