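import Pool.Agent.RTB.SStmts

/-!
# RTB, module KER: kernel of `Dh` on polynomials
-/

set_option autoImplicit false

open Polynomial

namespace Pool.Agent.RTB

theorem ker_proof (hWZR : Stmt_WZR) : Stmt_KER := by
  intro L _ _ f1 f2 v hW hv
  have hf1 : f1 ≠ 0 := by
    rintro rfl
    apply hW
    simp [wr]
  have h1 : wr (wr f1 f2) (wr f1 v) = 0 := by
    rw [← key1, hv, mul_zero]
  obtain ⟨b, hb⟩ := hWZR L (wr f1 f2) (wr f1 v) h1 hW
  have h2 : wr f1 (v - C b * f2) = 0 := by
    have h3 : wr f1 (v - C b * f2) = wr f1 v - C b * wr f1 f2 := by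
      simp only [wr, derivative_sub, derivative_mul, derivative_C, zero_mul, zero_add]
      ring
    rw [h3, hb, sub_self]
  obtain ⟨a, ha⟩ := hWZR L f1 (v - C b * f2) h2 hf1
  exact ⟨a, b, by rw [← ha]; ring⟩

end Pool.Agent.RTB
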