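import Pool.Agent.RTB.KStmts

/-!
# squad RTB: module KIN
-/

set_option autoImplicit false

namespace Pool.Agent.RTB

open Module

namespace KIN_

variable {Kf Lf : Type} [Field Kf] [Field Lf] [Algebra Kf Lf]

/-- the Kf-linear map `x ↦ f * det2 x t` -/
def phi (Kf : Type) [Field Kf] [Algebra Kf Lf] (f : Lf) (t : Fin 2 → Lf) :
    (Fin 2 → Lf) →ₗ[Kf] Lf where
  toFun := fun x => f * det2 x t
  map_add' := fun v w => by simp only [det2, Pi.add_apply]; ring
  map_smul' := fun z v => by
    simp only [det2, Pi.smul_apply, RingHom.id_apply, Algebra.smul_def]; ring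

/-- the Kf-linear map `x ↦ f * det2 e x` -/
def psi (Kf : Type) [Field Kf] [Algebra Kf Lf] (f : Lf) (e : Fin 2 → Lf) :
    (Fin 2 → Lf) →ₗ[Kf] Lf where
  toFun := fun x => f * det2 e x
  map_add' := fun v w => by simp only [det2, Pi.add_apply]; ring
  map_smul' := fun z v => by
    simp only [det2, Pi.smul_apply, RingHom.id_apply, Algebra.smul_def]; ring

theorem phi_apply (f : Lf) (t x : Fin 2 → Lf) : phi Kf f t x = f * det2 x t := rfl
theorem psi_apply (f : Lf) (e x : Fin 2 → Lf) : psi Kf f e x = f * det2 e x := rfl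

theorem phi_smul (f : Lf) (t : Fin 2 → Lf) (r : Lf) (x : Fin 2 → Lf) :
    phi Kf f t (r • x) = r * phi Kf f t x := by
  simp only [phi_apply, det2, Pi.smul_apply, smul_eq_mul]; ring

theorem psi_smul (f : Lf) (e : Fin 2 → Lf) (r : Lf) (x : Fin 2 → Lf) :
    psi Kf f e (r • x) = r * psi Kf f e x := by
  simp only [psi_apply, det2, Pi.smul_apply, smul_eq_mul]; ring

/-- images of `smSp` -/
theorem map_smSp (R : Submodule Kf Lf) (U : Submodule Kf (Fin 2 → Lf))
    (F : (Fin 2 → Lf) →ₗ[Kf] Lf) (hF : ∀ (r : Lf) (x : Fin 2 → Lf), F (r • x) = r * F x) :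
    (smSp R U).map F = R * U.map F := by
  apply le_antisymm
  · rw [Submodule.map_le_iff_le_comap, smSp, Submodule.span_le]
    rintro x ⟨r, hr, u, hu, rfl⟩
    show F (r • u) ∈ R * U.map F
    rw [hF]
    exact Submodule.mul_mem_mul hr (Submodule.mem_map_of_mem hu)
  · rw [Submodule.mul_le]
    rintro r hr _ ⟨u, hu, rfl⟩
    rw [← hF]
    exact Submodule.mem_map_of_mem (Submodule.subset_span ⟨r, hr, u, hu, rfl⟩)

theorem smSp_mono (R : Submodule Kf Lf) {U U' : Submodule Kf (Fin 2 → Lf)} (h : U ≤ U') :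
    smSp R U ≤ smSp R U' := by
  rw [smSp, Submodule.span_le]
  rintro x ⟨r, hr, u, hu, rfl⟩
  exact Submodule.subset_span ⟨r, hr, u, h hu, rfl⟩

/-- the bilinear map `r, u ↦ r • u` -/
def bil (Kf Lf : Type) [Field Kf] [Field Lf] [Algebra Kf Lf] :
    Lf →ₗ[Kf] (Fin 2 → Lf) →ₗ[Kf] (Fin 2 → Lf) :=
  LinearMap.mk₂ Kf (fun r u => r • u) (fun a b u => add_smul a b u)
    (fun c a u => by rw [smul_assoc]) (fun a u v => smul_add a u v)
    (fun c a u => by rw [smul_comm])

theorem fd_smSp (R : Submodule Kf Lf) (U : Submodule Kf (Fin 2 → Lf))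
    (hR : FiniteDimensional Kf R) (hU : FiniteDimensional Kf U) :
    FiniteDimensional Kf (smSp R U) := by
  have h1 : (Submodule.map₂ (bil Kf Lf) R U).FG := by
    apply Submodule.FG.map₂
    · exact Module.Finite.iff_fg.mp hR
    · exact Module.Finite.iff_fg.mp hU
  have h2 : smSp R U ≤ Submodule.map₂ (bil Kf Lf) R U := by
    rw [smSp, Submodule.span_le]
    rintro x ⟨r, hr, u, hu, rfl⟩
    exact Submodule.apply_mem_map₂ (bil Kf Lf) hr hu
  have h3 : FiniteDimensional Kf (Submodule.map₂ (bil Kf Lf) R U) := Module.Finite.iff_fg.mpr h1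
  exact Submodule.finiteDimensional_of_le h2

theorem cramer (e t x : Fin 2 → Lf) :
    det2 e t • x = det2 x t • e + det2 e x • t := by
  funext i
  fin_cases i <;> simp [det2] <;> ring

end KIN_

open KIN_ in
theorem kin_proof : Stmt_KIN := by
  intro Kf Lf _ _ _ h h' f e t i0 j0 R hR hf hpar h0
  -- spaces
  have hfdE : FiniteDimensional Kf (Submodule.span Kf (Set.range e)) :=
    FiniteDimensional.span_of_finite Kf (Set.finite_range e)
  have hfdT : FiniteDimensional Kf (Submodule.span Kf (Set.range e ∪ Set.range t)) :=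
    FiniteDimensional.span_of_finite Kf ((Set.finite_range e).union (Set.finite_range t))
  have hfdSE := fd_smSp R _ hR hfdE
  have hfdST := fd_smSp R _ hR hfdT
  have hET : smSp R (Submodule.span Kf (Set.range e)) ≤
      smSp R (Submodule.span Kf (Set.range e ∪ Set.range t)) :=
    smSp_mono R (Submodule.span_mono Set.subset_union_left)
  -- images
  have hN : (Submodule.span Kf (Set.range e)).map (phi Kf f (t j0)) = Nsp Kf f e t j0 := by
    rw [Submodule.map_span, Nsp, ← Set.range_comp]
    rfl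
  have hP : (Submodule.span Kf (Set.range e ∪ Set.range t)).map (psi Kf f (e i0)) =
      Psp Kf f e t i0 := by
    rw [Submodule.map_span, Psp]
    apply le_antisymm
    · rw [Submodule.span_le]
      rintro _ ⟨x, hx, rfl⟩
      rcases hx with ⟨i, rfl⟩ | ⟨j, rfl⟩
      · rw [psi_apply, hpar i0 i, mul_zero]
        exact Submodule.zero_mem _
      · exact Submodule.subset_span ⟨j, rfl⟩
    · rw [Submodule.span_le]
      rintro _ ⟨j, rfl⟩
      exact Submodule.subset_span ⟨t j, Or.inr ⟨j, rfl⟩, rfl⟩
  have hmN : (smSp R (Submodule.span Kf (Set.range e))).map (phi Kf f (t j0)) =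
      R * Nsp Kf f e t j0 := by
    rw [map_smSp R _ _ (phi_smul f (t j0)), hN]
  have hmP : (smSp R (Submodule.span Kf (Set.range e ∪ Set.range t))).map (psi Kf f (e i0)) =
      R * Psp Kf f e t i0 := by
    rw [map_smSp R _ _ (psi_smul f (e i0)), hP]
  -- the kernel of psi
  have hker : ∀ x ∈ smSp R (Submodule.span Kf (Set.range e)), det2 (e i0) x = 0 := by
    have : smSp R (Submodule.span Kf (Set.range e)) ≤ LinearMap.ker (psi Kf (1 : Lf) (e i0)) := by
      rw [smSp, Submodule.span_le]
      rintro x ⟨r, hr, u, hu, rfl⟩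
      show psi Kf (1 : Lf) (e i0) (r • u) = 0
      rw [psi_smul]
      have h2 : Submodule.span Kf (Set.range e) ≤ LinearMap.ker (psi Kf (1 : Lf) (e i0)) := by
        rw [Submodule.span_le]
        rintro _ ⟨i, rfl⟩
        show psi Kf (1 : Lf) (e i0) (e i) = 0
        rw [psi_apply, hpar i0 i, mul_zero]
      have h3 : psi Kf (1 : Lf) (e i0) u = 0 := h2 hu
      rw [h3, mul_zero]
    intro x hx
    have h3 : psi Kf (1 : Lf) (e i0) x = 0 := this hx
    rw [psi_apply, one_mul] at h3
    exact h3
  -- injectivity of phi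
  have hinj : Function.Injective
      ((phi Kf f (t j0)).domRestrict (smSp R (Submodule.span Kf (Set.range e)))) := by
    intro x y hxy
    have h1 : phi Kf f (t j0) ((x : Fin 2 → Lf) - (y : Fin 2 → Lf)) = 0 := by
      rw [map_sub]
      exact sub_eq_zero.mpr hxy
    have h2 : det2 (e i0) ((x : Fin 2 → Lf) - (y : Fin 2 → Lf)) = 0 :=
      hker _ (Submodule.sub_mem _ x.2 y.2)
    have h3 : det2 ((x : Fin 2 → Lf) - (y : Fin 2 → Lf)) (t j0) = 0 := by
      rw [phi_apply] at h1
      rcases mul_eq_zero.mp h1 with h | h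
      · exact absurd h hf
      · exact h
    have h4 := cramer (e i0) (t j0) ((x : Fin 2 → Lf) - (y : Fin 2 → Lf))
    rw [h2, h3, zero_smul, zero_smul, add_zero] at h4
    rcases smul_eq_zero.mp h4 with h | h
    · exact absurd h h0
    · exact Subtype.ext (sub_eq_zero.mp h)
  have hdim1 : finrank Kf (smSp R (Submodule.span Kf (Set.range e))) =
      finrank Kf (R * Nsp Kf f e t j0 : Submodule Kf Lf) := by
    rw [← hmN, ← LinearMap.range_domRestrict]
    exact (LinearMap.finrank_range_of_inj hinj).symm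
  -- rank nullity for psi
  have hrn := LinearMap.finrank_range_add_finrank_ker
    ((psi Kf f (e i0)).domRestrict (smSp R (Submodule.span Kf (Set.range e ∪ Set.range t))))
  rw [LinearMap.range_domRestrict, hmP] at hrn
  have hle : (smSp R (Submodule.span Kf (Set.range e))).comap
      (smSp R (Submodule.span Kf (Set.range e ∪ Set.range t))).subtype ≤
      LinearMap.ker ((psi Kf f (e i0)).domRestrict
        (smSp R (Submodule.span Kf (Set.range e ∪ Set.range t)))) := by
    intro x hx
    have h1 : det2 (e i0) (x : Fin 2 → Lf) = 0 := hker _ hx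
    show psi Kf f (e i0) (x : Fin 2 → Lf) = 0
    rw [psi_apply, h1, mul_zero]
  have hcm : finrank Kf ((smSp R (Submodule.span Kf (Set.range e))).comap
      (smSp R (Submodule.span Kf (Set.range e ∪ Set.range t))).subtype) =
      finrank Kf (smSp R (Submodule.span Kf (Set.range e))) :=
    LinearEquiv.finrank_eq (Submodule.comapSubtypeEquivOfLe hET)
  have hmono := Submodule.finrank_mono hle
  refine ⟨hdim1, by omega, ?_⟩
  intro heq x hx hx0
  have heqk := Submodule.eq_of_le_of_finrank_eq hle (by omega)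
  have hxk : (⟨x, hx⟩ : smSp R (Submodule.span Kf (Set.range e ∪ Set.range t))) ∈
      LinearMap.ker ((psi Kf f (e i0)).domRestrict
        (smSp R (Submodule.span Kf (Set.range e ∪ Set.range t)))) := by
    show psi Kf f (e i0) x = 0
    rw [psi_apply, hx0, mul_zero]
  rw [← heqk] at hxk
  have hxE : x ∈ smSp R (Submodule.span Kf (Set.range e)) := hxk
  rw [← hmN]
  exact Submodule.mem_map_of_mem hxE

end Pool.Agent.RTB
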