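import Pool.Agent.RTB.KStmts

/-!
# squad RTB, module KNT: the extension datum is not trivial
-/

set_option autoImplicit false

open Polynomial

namespace Pool.Agent.RTB

namespace KNT_

section
variable {Kf Lf : Type} [Field Kf] [Field Lf] [Algebra Kf Lf]

/-- the linear map `x ↦ f * det2 v x` -/
noncomputable def om (Kf : Type) [Field Kf] [Algebra Kf Lf] (f : Lf) (v : Fin 2 → Lf) :
    (Fin 2 → Lf) →ₗ[Kf] Lf where
  toFun x := f * det2 v x
  map_add' x y := by simp only [det2, Pi.add_apply]; ring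
  map_smul' c x := by
    simp only [det2, Pi.smul_apply, RingHom.id_apply, Algebra.smul_def]; ring

/-- the linear map `x ↦ f * det2 x w` -/
noncomputable def om' (Kf : Type) [Field Kf] [Algebra Kf Lf] (f : Lf) (w : Fin 2 → Lf) :
    (Fin 2 → Lf) →ₗ[Kf] Lf where
  toFun x := f * det2 x w
  map_add' x y := by simp only [det2, Pi.add_apply]; ring
  map_smul' c x := by
    simp only [det2, Pi.smul_apply, RingHom.id_apply, Algebra.smul_def]; ring

theorem om_apply (f : Lf) (v x : Fin 2 → Lf) : om Kf f v x = f * det2 v x := rfl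

theorem om'_apply (f : Lf) (w x : Fin 2 → Lf) : om' Kf f w x = f * det2 x w := rfl

theorem mem_of_span {k : ℕ} {s : Fin k → Fin 2 → Lf} {f : Lf} {R : Submodule Kf Lf}
    (h : ∀ i j, f * det2 (s i) (s j) ∈ R) (x y : Fin 2 → Lf)
    (hx : x ∈ Submodule.span Kf (Set.range s)) (hy : y ∈ Submodule.span Kf (Set.range s)) :
    f * det2 x y ∈ R := by
  have h1 : ∀ i, f * det2 (s i) y ∈ R := by
    intro i
    have : Submodule.span Kf (Set.range s) ≤ R.comap (om Kf f (s i)) := by
      rw [Submodule.span_le]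
      rintro _ ⟨j, rfl⟩
      exact h i j
    exact this hy
  have : Submodule.span Kf (Set.range s) ≤ R.comap (om' Kf f y) := by
    rw [Submodule.span_le]
    rintro _ ⟨j, rfl⟩
    exact h1 j
  exact this hx

theorem smSp_fd (R : Submodule Kf Lf) (U : Submodule Kf (Fin 2 → Lf)) (hR : R.FG) (hU : U.FG) :
    (smSp R U).FG := by
  have h := Submodule.FG.map₂ ((Algebra.lsmul Kf Kf (Fin 2 → Lf)).toLinearMap :
    Lf →ₗ[Kf] Module.End Kf (Fin 2 → Lf)) hR hU
  have he : smSp R U = Submodule.map₂ ((Algebra.lsmul Kf Kf (Fin 2 → Lf)).toLinearMap :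
    Lf →ₗ[Kf] Module.End Kf (Fin 2 → Lf)) R U := by
    rw [Submodule.map₂_eq_span_image2, smSp]
    congr 1
    ext x
    constructor
    · rintro ⟨r, hr, u, hu, rfl⟩
      exact ⟨r, hr, u, hu, rfl⟩
    · rintro ⟨r, hr, u, hu, rfl⟩
      exact ⟨r, hr, u, hu, rfl⟩
  rw [he]; exact h

theorem det2_self (v : Fin 2 → Lf) : det2 v v = 0 := by simp only [det2]; ring

theorem plucker (f : Lf) (e t u v : Fin 2 → Lf) :
    (f * det2 e t) * (f * det2 u v)
      = (f * det2 u t) * (f * det2 e v) - (f * det2 v t) * (f * det2 e u) := by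
  simp only [det2]; ring

/-- the core of the argument -/
theorem core {h' : ℕ} (f : Lf) (e : Fin 2 → Fin 2 → Lf) (t : Fin h' → Fin 2 → Lf) (j0 : Fin h')
    (R : Submodule Kf Lf) (V : Submodule Kf (Fin 2 → Lf)) (hR : R.FG)
    (heV : ∀ i, e i ∈ V) (htV : ∀ j, t j ∈ V) (par : det2 (e 0) (e 1) = 0)
    (hf : f ≠ 0) (hd : det2 (e 0) (t j0) ≠ 0)
    (hω : ∀ j, f * det2 (e 0) (t j) ∈ R) (τ : Fin h' → Lf)
    (hτ : ∀ j, τ j ∈ Nsp Kf f e t j0)
    (hr : ∀ r : Fin h' → Lf, (∀ j, r j ∈ R) → ∑ j, r j * (f * det2 (e 0) (t j)) = 0 →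
      ∑ j, r j * (f * det2 (t j) (t j0)) = ∑ j, r j * τ j) :
    ∃ U : Submodule Kf (Fin 2 → Lf), U ≤ V ∧ (∀ u ∈ U, ∀ v ∈ U, det2 u v = 0) ∧
      Module.finrank Kf (R * Psp Kf f e t 0 : Submodule Kf Lf)
        ≤ Module.finrank Kf (smSp R U) := by
  classical
  -- the two term relations
  have key : ∀ i j, (f * det2 (e 0) (t j)) * (f * det2 (t i) (t j0) - τ i)
      = (f * det2 (e 0) (t i)) * (f * det2 (t j) (t j0) - τ j) := by
    intro i j
    by_cases hij : i = j
    · subst hij; rfl
    have h1 := hr (fun l => if l = i then f * det2 (e 0) (t j) else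
      if l = j then -(f * det2 (e 0) (t i)) else 0) (by
        intro l
        split_ifs
        · exact hω j
        · exact R.neg_mem (hω i)
        · exact R.zero_mem)
    have hs : ∀ x : Fin h' → Lf, ∑ l, (if l = i then f * det2 (e 0) (t j) else
        if l = j then -(f * det2 (e 0) (t i)) else 0) * x l
        = (f * det2 (e 0) (t j)) * x i - (f * det2 (e 0) (t i)) * x j := by
      intro x
      rw [Finset.sum_eq_add_of_mem i j (Finset.mem_univ _) (Finset.mem_univ _) hij]
      · rw [if_pos rfl, if_neg (Ne.symm hij), if_pos rfl]; ring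
      · rintro l - ⟨hl1, hl2⟩
        rw [if_neg hl1, if_neg hl2, zero_mul]
    rw [hs, hs, hs] at h1
    have h2 := h1 (by ring)
    linear_combination h2
  -- the correction
  have hv : ∀ j, ∃ v ∈ Submodule.span Kf (Set.range e), f * det2 v (t j0) = τ j := by
    intro j
    have h1 := hτ j
    have h2 : Nsp Kf f e t j0 = (Submodule.span Kf (Set.range e)).map (om' Kf f (t j0)) := by
      rw [Submodule.map_span, Nsp]
      congr 1
      ext x
      constructor
      · rintro ⟨i, rfl⟩
        exact ⟨e i, ⟨i, rfl⟩, rfl⟩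
      · rintro ⟨_, ⟨i, rfl⟩, rfl⟩
        exact ⟨i, rfl⟩
    rw [h2] at h1
    obtain ⟨v, hv, hv2⟩ := h1
    exact ⟨v, hv, hv2⟩
  choose v hvs hv using hv
  have hve : ∀ x ∈ Submodule.span Kf (Set.range e), f * det2 (e 0) x = 0 := by
    intro x hx
    have : Submodule.span Kf (Set.range e) ≤ LinearMap.ker (om Kf f (e 0)) := by
      rw [Submodule.span_le]
      rintro _ ⟨i, rfl⟩
      simp only [SetLike.mem_coe, LinearMap.mem_ker, om_apply]
      fin_cases i
      · simp [det2_self]
      · simp [par]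
    exact this hx
  set u : Fin h' → Fin 2 → Lf := fun j => t j - v j with hu
  have hn : ∀ j, f * det2 (u j) (t j0) = f * det2 (t j) (t j0) - τ j := by
    intro j
    have := (om' Kf f (t j0)).map_sub (t j) (v j)
    simp only [om'_apply] at this
    rw [hu]; dsimp only
    rw [this, hv]
  have ho : ∀ j, f * det2 (e 0) (u j) = f * det2 (e 0) (t j) := by
    intro j
    have := (om Kf f (e 0)).map_sub (t j) (v j)
    simp only [om_apply] at this
    rw [hu]; dsimp only
    rw [this, hve _ (hvs j), sub_zero]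
  have hpi : f * det2 (e 0) (t j0) ≠ 0 := mul_ne_zero hf hd
  have hdet : ∀ i j, det2 (u i) (u j) = 0 := by
    intro i j
    have h1 := plucker f (e 0) (t j0) (u i) (u j)
    rw [hn, hn, ho, ho] at h1
    have h2 := key i j
    have h3 : (f * det2 (e 0) (t j0)) * (f * det2 (u i) (u j)) = 0 := by
      rw [h1]; linear_combination h2
    rcases mul_eq_zero.1 h3 with h4 | h4
    · exact absurd h4 hpi
    · exact (mul_eq_zero.1 h4).resolve_left hf
  refine ⟨Submodule.span Kf (Set.range u), ?_, ?_, ?_⟩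
  · rw [Submodule.span_le]
    rintro _ ⟨j, rfl⟩
    refine V.sub_mem (htV j) ?_
    have : Submodule.span Kf (Set.range e) ≤ V := by
      rw [Submodule.span_le]
      rintro _ ⟨i, rfl⟩
      exact heV i
    exact this (hvs j)
  · intro x hx y hy
    have := mem_of_span (R := (⊥ : Submodule Kf Lf)) (f := 1) (s := u) (by
      intro i j; rw [hdet]; simp) x y hx hy
    simpa using this
  · have hle : (R * Psp Kf f e t 0 : Submodule Kf Lf)
        ≤ (smSp R (Submodule.span Kf (Set.range u))).map (om Kf f (e 0)) := by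
      rw [Submodule.mul_le]
      intro r hrR p hp
      have : Psp Kf f e t 0 ≤ ((smSp R (Submodule.span Kf (Set.range u))).map
          (om Kf f (e 0))).comap (LinearMap.mulLeft Kf r) := by
        rw [Psp, Submodule.span_le]
        rintro _ ⟨j, rfl⟩
        refine ⟨r • u j, Submodule.subset_span ⟨r, hrR, u j, Submodule.subset_span ⟨j, rfl⟩, rfl⟩,
          ?_⟩
        rw [om_apply, LinearMap.mulLeft_apply]
        show f * det2 (e 0) (r • u j) = r * (f * det2 (e 0) (t j))
        rw [← ho j]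
        simp only [det2, Pi.smul_apply, smul_eq_mul]
        ring
      exact this hp
    have hfg : (smSp R (Submodule.span Kf (Set.range u))).FG :=
      smSp_fd _ _ hR (Submodule.fg_span (Set.finite_range u))
    haveI : FiniteDimensional Kf (smSp R (Submodule.span Kf (Set.range u))) :=
      Module.Finite.iff_fg.2 hfg
    exact (Submodule.finrank_mono hle).trans (Submodule.finrank_map_le _ _)

end

end KNT_

open KNT_ in
theorem knt_proof (hRPK : Stmt_RPK) (hRDB : Stmt_RDB) (_hRVD : Stmt_RVD) : Stmt_KNT := by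
  intro Kf Lf κ _ _ _ _ _ _ k O red β F βF hk hctx s f hdat e t j0 γN γP a b n0 hadp n hn hn3
  rintro ⟨τ, hτ, hrel⟩
  obtain ⟨hd, -⟩ := hRPK Kf Lf κ k O red β F βF hk hctx s f hdat e t j0 γN γP a b n0 hadp
  obtain ⟨-, -, -, -, -, -, -, -, -, hfin, hmono, -⟩ :=
    hRDB Kf Lf κ (2 * k - 3) O red β F βF (by omega) inferInstance hctx
  have heV : ∀ i, e i ∈ Submodule.span Kf (Set.range s) := by
    intro i
    rw [← hadp.spanV]
    exact Submodule.subset_span (Or.inl ⟨i, rfl⟩)
  have htV : ∀ j, t j ∈ Submodule.span Kf (Set.range s) := by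
    intro i
    rw [← hadp.spanV]
    exact Submodule.subset_span (Or.inr ⟨i, rfl⟩)
  haveI := (hfin n).2
  obtain ⟨U, hUV, hUU, hU⟩ := core f e t j0 (Rn Kf (2 * k - 3) β n)
    (Submodule.span Kf (Set.range s)) (Module.Finite.iff_fg.1 inferInstance) heV htV hadp.par
    hdat.f0 hd (fun j => hmono _ _ hn3 (mem_of_span hdat.mem _ _ (heV 0) (htV j))) τ hτ hrel
  have h1 := hdat.db U hUV hUU n (by omega)
  have h2 := hadp.eqP' n hn
  omega

end Pool.Agent.RTB
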