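import Pool.Agent.RTB.KStmts

/-!
# squad RTB, module KNU: the adapted data exist
-/

set_option autoImplicit false

open Polynomial

namespace Pool.Agent.RTB
namespace KNU_

section
variable {Kf Lf κ : Type} [Field Kf] [Field Lf] [Algebra Kf Lf] [Field κ]

/-- `x ↦ f * det2 x y` -/
def dL (Kf : Type) [Field Kf] [Algebra Kf Lf] (f : Lf) (y : Fin 2 → Lf) :
    (Fin 2 → Lf) →ₗ[Kf] Lf where
  toFun x := f * det2 x y
  map_add' := by intro a b; simp only [det2, Pi.add_apply]; ring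
  map_smul' := by
    intro c a
    simp only [det2, Pi.smul_apply, Algebra.smul_def, RingHom.id_apply]; ring

/-- `y ↦ f * det2 x y` -/
def dR (Kf : Type) [Field Kf] [Algebra Kf Lf] (f : Lf) (x : Fin 2 → Lf) :
    (Fin 2 → Lf) →ₗ[Kf] Lf where
  toFun y := f * det2 x y
  map_add' := by intro a b; simp only [det2, Pi.add_apply]; ring
  map_smul' := by
    intro c a
    simp only [det2, Pi.smul_apply, Algebra.smul_def, RingHom.id_apply]; ring

theorem dL_apply (f : Lf) (y x : Fin 2 → Lf) : dL Kf f y x = f * det2 x y := rfl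
theorem dR_apply (f : Lf) (y x : Fin 2 → Lf) : dR Kf f x y = f * det2 x y := rfl

theorem Nsp_eq {h h' : ℕ} (f : Lf) (e : Fin h → Fin 2 → Lf) (t : Fin h' → Fin 2 → Lf)
    (j0 : Fin h') :
    Nsp Kf f e t j0 = (Submodule.span Kf (Set.range e)).map (dL Kf f (t j0)) := by
  rw [Submodule.map_span, ← Set.range_comp]; rfl

theorem Psp_eq {h h' : ℕ} (f : Lf) (e : Fin h → Fin 2 → Lf) (t : Fin h' → Fin 2 → Lf)
    (i0 : Fin h) :
    Psp Kf f e t i0 = (Submodule.span Kf (Set.range t)).map (dR Kf f (e i0)) := by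
  rw [Submodule.map_span, ← Set.range_comp]; rfl

theorem plucker (u x y : Fin 2 → Lf) (i : Fin 2) :
    x i * det2 u y = det2 x y * u i + det2 u x * y i := by
  fin_cases i <;> simp [det2] <;> ring

theorem det2_self (u : Fin 2 → Lf) : det2 u u = 0 := by simp [det2]; ring

theorem det2_swap (u v : Fin 2 → Lf) : det2 u v = - det2 v u := by simp [det2]; ring

/-- bilinear induction -/
theorem det2_span (S : Set (Fin 2 → Lf)) (f : Lf) (P : Submodule Kf Lf)
    (h : ∀ u ∈ S, ∀ v ∈ S, f * det2 u v ∈ P) :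
    ∀ u ∈ Submodule.span Kf S, ∀ v ∈ Submodule.span Kf S, f * det2 u v ∈ P := by
  have h1 : ∀ u ∈ S, ∀ v ∈ Submodule.span Kf S, f * det2 u v ∈ P := by
    intro u hu v hv
    have : Submodule.span Kf S ≤ P.comap (dR Kf f u) := by
      rw [Submodule.span_le]; intro v hv; exact h u hu v hv
    exact this hv
  intro u hu v hv
  have : Submodule.span Kf S ≤ P.comap (dL Kf f v) := by
    rw [Submodule.span_le]; intro u hu; exact h1 u hu v hv
  exact this hu

theorem iso_span {h : ℕ} (e : Fin h → Fin 2 → Lf) (hiso : ∀ i i', det2 (e i) (e i') = 0) :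
    ∀ u ∈ Submodule.span Kf (Set.range e), ∀ v ∈ Submodule.span Kf (Set.range e),
      det2 u v = 0 := by
  have := det2_span (Kf := Kf) (Set.range e) (1 : Lf) ⊥ (by
    rintro _ ⟨i, rfl⟩ _ ⟨i', rfl⟩
    rw [hiso]; simp)
  intro u hu v hv
  have h := this u hu v hv
  simpa using h

/-- `x ↦ f * det2 x y` is injective on an isotropic space -/
theorem dL_inj {h : ℕ} (e : Fin h → Fin 2 → Lf) (hiso : ∀ i i', det2 (e i) (e i') = 0)
    (f : Lf) (hf : f ≠ 0) (i0 : Fin h) (y : Fin 2 → Lf) (hy : det2 (e i0) y ≠ 0)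
    (x : Fin 2 → Lf) (hx : x ∈ Submodule.span Kf (Set.range e)) (h0 : f * det2 x y = 0) :
    x = 0 := by
  have h1 : det2 x y = 0 := by
    rcases mul_eq_zero.mp h0 with h | h
    · exact absurd h hf
    · exact h
  have h2 : det2 (e i0) x = 0 :=
    iso_span (Kf := Kf) e hiso _ (Submodule.subset_span ⟨i0, rfl⟩) _ hx
  funext i
  have := plucker (e i0) x y i
  rw [h1, h2, zero_mul, zero_mul, add_zero] at this
  rcases mul_eq_zero.mp this with h | h
  · exact h
  · exact absurd h hy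

theorem Nsp_ind {h : ℕ} (e : Fin h → Fin 2 → Lf) (hiso : ∀ i i', det2 (e i) (e i') = 0)
    (he : LinearIndependent Kf e)
    (f : Lf) (hf : f ≠ 0) (i0 : Fin h) (y : Fin 2 → Lf) (hy : det2 (e i0) y ≠ 0) :
    LinearIndependent Kf (fun i => f * det2 (e i) y) := by
  have : LinearIndependent Kf (dL Kf f y ∘ e) := by
    refine he.map ?_
    rw [Submodule.disjoint_def]
    intro x hx hk
    exact dL_inj e hiso f hf i0 y hy x hx hk
  exact this

theorem smul_ind {h' : ℕ} (w : Fin h' → Lf) (f : Lf) (hf : f ≠ 0)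
    (hw : LinearIndependent Kf w) : LinearIndependent Kf (fun j => f * w j) := by
  have : LinearIndependent Kf ((LinearMap.mulLeft Kf f) ∘ w) := by
    refine hw.map' _ ?_
    rw [LinearMap.ker_eq_bot]
    exact mul_right_injective₀ hf
  exact this

theorem mulC_ind {h' : ℕ} (w : Fin h' → κ[X]) (f : κ[X]) (hf : f ≠ 0)
    (hw : LinearIndependent κ w) : LinearIndependent κ (fun j => f * w j) := by
  have : LinearIndependent κ ((LinearMap.mulLeft κ f) ∘ w) := by
    refine hw.map' _ ?_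
    rw [LinearMap.ker_eq_bot]
    exact mul_right_injective₀ hf
  exact this

/-- the conclusion of `Stmt_R1T` -/
def R1C (g : ℕ) (O : ValuationSubring Kf) (red : O →+* κ) (β : ℕ → Lf)
    (F : κ[X]) (βF : ℕ → κ[X]) (U : Submodule Kf Lf) (h : ℕ)
    (γ : κ[X]) (U1 : Submodule κ κ[X]) (D : ℕ) : Prop :=
  γ ≠ 0 ∧ coprimeFam U1 ∧
    red1 O red β βF U = U1.map (LinearMap.mulLeft κ γ) ∧ Module.finrank κ U1 = h ∧
    FiniteDimensional κ U1 ∧ (∀ u ∈ U1, u.natDegree ≤ D) ∧ (∃ u ∈ U1, u.natDegree = D) ∧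
    (h - 1) * g + h * h ≤ h * (D + 1) + (h - 1) * (sig F U1).card ∧
    ∃ N0 : ℕ, ∀ n, N0 ≤ n →
      n + D + (sig F U1).card + 1
        ≤ Module.finrank κ (RF F n * red1 O red β βF U : Submodule κ κ[X]) + g ∧
      Module.finrank κ (RF F n * red1 O red β βF U : Submodule κ κ[X])
        ≤ Module.finrank Kf (Rn Kf g β n * U : Submodule Kf Lf)

/-- all inequalities between dimensions are equalities -/
theorem dims (hKIN : Stmt_KIN) (hNUM : Stmt_NUM) {k : ℕ}
    {O : ValuationSubring Kf} {red : O →+* κ} {β : ℕ → Lf} {F : κ[X]} {βF : ℕ → κ[X]}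
    (hk : 9 ≤ k)
    (hfd : ∀ n, FiniteDimensional Kf (Rn Kf (2 * k - 3) β n))
    {s : Fin k → Fin 2 → Lf} {f : Lf} (hD : Dat Kf (2 * k - 3) k (Rn Kf (2 * k - 3) β) s f)
    {h h' : ℕ} (hh : h + h' = k) (h2 : 2 ≤ h) (h1 : 1 ≤ h')
    (e : Fin h → Fin 2 → Lf) (t : Fin h' → Fin 2 → Lf) (i0 : Fin h) (j0 : Fin h')
    (hspan : Submodule.span Kf (Set.range e ∪ Set.range t) = Submodule.span Kf (Set.range s))
    (hiso : ∀ i i', det2 (e i) (e i') = 0) (hne : det2 (e i0) (t j0) ≠ 0)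
    {γN : κ[X]} {Λ : Submodule κ κ[X]} {DN : ℕ}
    (hN : R1C (2 * k - 3) O red β F βF (Nsp Kf f e t j0) h γN Λ DN)
    {γP : κ[X]} {P0 : Submodule κ κ[X]} {DP : ℕ}
    (hP : R1C (2 * k - 3) O red β F βF (Psp Kf f e t i0) h' γP P0 DP) :
    h = 2 ∧ h' = k - 2 ∧ DN + (sig F Λ).card = k ∧ DP + (sig F P0).card = 3 * k - 8 ∧
    (sig F Λ).card ≤ 1 ∧ (sig F P0).card ≤ 1 ∧
    ∃ n0 : ℕ, ∀ n, n0 ≤ n →
      Module.finrank Kf (smSp (Rn Kf (2 * k - 3) β n)
        (Submodule.span Kf (Set.range s))) = 2 * n ∧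
      Module.finrank Kf (Rn Kf (2 * k - 3) β n * Nsp Kf f e t j0 : Submodule Kf Lf)
        = Module.finrank κ (RF F n * red1 O red β βF (Nsp Kf f e t j0) :
          Submodule κ κ[X]) ∧
      Module.finrank Kf (Rn Kf (2 * k - 3) β n * Psp Kf f e t i0 : Submodule Kf Lf)
        = Module.finrank κ (RF F n * red1 O red β βF (Psp Kf f e t i0) :
          Submodule κ κ[X]) ∧
      Module.finrank Kf (Rn Kf (2 * k - 3) β n * Psp Kf f e t i0 : Submodule Kf Lf)
        + 2 * k - 3 = n + 3 * k - 7 ∧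
      Module.finrank Kf (Rn Kf (2 * k - 3) β n * Nsp Kf f e t j0 : Submodule Kf Lf)
        + Module.finrank Kf (Rn Kf (2 * k - 3) β n * Psp Kf f e t i0 : Submodule Kf Lf)
        = 2 * n := by
  obtain ⟨-, -, -, -, -, -, -, hbN, N1, hN1⟩ := hN
  obtain ⟨-, -, -, -, -, -, -, hbP, N2, hN2⟩ := hP
  have hK : ∀ n, Module.finrank Kf (smSp (Rn Kf (2 * k - 3) β n)
        (Submodule.span Kf (Set.range e)))
        = Module.finrank Kf (Rn Kf (2 * k - 3) β n * Nsp Kf f e t j0 : Submodule Kf Lf) ∧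
      Module.finrank Kf (Rn Kf (2 * k - 3) β n * Nsp Kf f e t j0 : Submodule Kf Lf)
        + Module.finrank Kf (Rn Kf (2 * k - 3) β n * Psp Kf f e t i0 : Submodule Kf Lf)
        ≤ Module.finrank Kf (smSp (Rn Kf (2 * k - 3) β n)
          (Submodule.span Kf (Set.range s))) := by
    intro n
    have := hKIN Kf Lf h h' f e t i0 j0 (Rn Kf (2 * k - 3) β n) (hfd n) hD.f0 hiso hne
    rw [hspan] at this
    exact ⟨this.1, this.2.1⟩
  have hle : Submodule.span Kf (Set.range e) ≤ Submodule.span Kf (Set.range s) := by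
    rw [← hspan]; exact Submodule.span_mono Set.subset_union_left
  have hdb : ∀ n, 2 * (2 * k - 3) ≤ n →
      Module.finrank Kf (Rn Kf (2 * k - 3) β n * Nsp Kf f e t j0 : Submodule Kf Lf) ≤ n := by
    intro n hn
    rw [← (hK n).1]
    exact hD.db _ hle (iso_span e hiso) n hn
  have hda : ∀ n, 2 * (2 * k - 3) ≤ n →
      Module.finrank Kf (smSp (Rn Kf (2 * k - 3) β n)
          (Submodule.span Kf (Set.range s))) ≤ 2 * n := fun n hn => hD.da n hn
  set n1 := max (max N1 N2) (2 * (2 * k - 3)) with hn1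
  have hle1 : N1 ≤ n1 := le_trans (le_max_left _ _) (le_max_left _ _)
  have hle2 : N2 ≤ n1 := le_trans (le_max_right _ _) (le_max_left _ _)
  have hle3 : 2 * (2 * k - 3) ≤ n1 := le_max_right _ _
  have hnum := hNUM k h h' DN DP (sig F Λ).card (sig F P0).card hk hh h2 h1 hbN hbP
    (by
      have a1 := (hN1 n1 hle1).1
      have a2 := (hN1 n1 hle1).2
      have a3 := hdb n1 hle3
      omega)
    (by
      have a1 := (hN1 n1 hle1).1
      have a2 := (hN1 n1 hle1).2
      have a3 := (hN2 n1 hle2).1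
      have a4 := (hN2 n1 hle2).2
      have a5 := (hK n1).2
      have a6 := hda n1 hle3
      omega)
  obtain ⟨c1, c2, c3, c4, c5, c6⟩ := hnum
  refine ⟨c1, c2, c3, c4, c5, c6, n1, fun n hn => ?_⟩
  have a1 := (hN1 n (le_trans hle1 hn)).1
  have a2 := (hN1 n (le_trans hle1 hn)).2
  have a3 := (hN2 n (le_trans hle2 hn)).1
  have a4 := (hN2 n (le_trans hle2 hn)).2
  have a5 := (hK n).2
  have a6 := hda n (le_trans hle3 hn)
  refine ⟨?_, ?_, ?_, ?_, ?_⟩ <;> omega

/-- a basis of a finite dimensional space with a given nonzero member at a given index -/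
theorem exists_fam {V : Type} [AddCommGroup V] [Module κ V] (U : Submodule κ V) (m : ℕ)
    [FiniteDimensional κ U] (hU : Module.finrank κ U = m) (j0 : Fin m) (w : V) (hw : w ∈ U)
    (hw0 : w ≠ 0) :
    ∃ b : Fin m → V, LinearIndependent κ b ∧ Submodule.span κ (Set.range b) = U ∧
      b j0 = w := by
  classical
  set w' : U := ⟨w, hw⟩ with hw'
  have hw'0 : w' ≠ 0 := by
    intro h; exact hw0 (congrArg Subtype.val h)
  have hli : LinearIndepOn κ id ({w'} : Set U) := LinearIndepOn.singleton (v := id) hw'0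
  set B := Module.Basis.extend hli with hB
  have hfin : Fintype (hli.extend (Set.subset_univ _)) :=
    FiniteDimensional.fintypeBasisIndex B
  have hcard : Fintype.card (hli.extend (Set.subset_univ _)) = m := by
    rw [← Module.finrank_eq_card_basis B, hU]
  have hmem : w' ∈ hli.extend (Set.subset_univ _) :=
    hli.subset_extend _ (Set.mem_singleton _)
  obtain ⟨eq0⟩ : Nonempty (hli.extend (Set.subset_univ _) ≃ Fin m) :=
    ⟨Fintype.equivFinOfCardEq hcard⟩
  set eq1 := eq0.trans (Equiv.swap (eq0 ⟨w', hmem⟩) j0) with heq1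
  set B' := B.reindex eq1 with hB'
  have hj : B' j0 = w' := by
    rw [hB', Module.Basis.reindex_apply]
    have : eq1.symm j0 = ⟨w', hmem⟩ := by
      rw [Equiv.symm_apply_eq, heq1]
      simp
    rw [this, hB]
    simp [Module.Basis.extend_apply_self]
  refine ⟨fun j => (B' j : V), ?_, ?_, ?_⟩
  · have := B'.linearIndependent.map' U.subtype (Submodule.ker_subtype U)
    exact this
  · have h1 : Set.range (fun j => (B' j : V)) = U.subtype '' Set.range B' := by
      rw [← Set.range_comp]; rfl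
    rw [h1, ← Submodule.map_span, B'.span_eq, Submodule.map_top, Submodule.range_subtype]
  · show (B' j0 : V) = w
    rw [hj]

/-- independent families of the right size in the span of a family span the same space -/
theorem span_eq_of_ind {V : Type} [AddCommGroup V] [Module Kf V] {m : ℕ} (t t' : Fin m → V)
    (ht' : LinearIndependent Kf t') (hsub : ∀ j, t' j ∈ Submodule.span Kf (Set.range t)) :
    Submodule.span Kf (Set.range t') = Submodule.span Kf (Set.range t) := by
  have hle : Submodule.span Kf (Set.range t') ≤ Submodule.span Kf (Set.range t) := by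
    rw [Submodule.span_le]; rintro _ ⟨j, rfl⟩; exact hsub j
  have : FiniteDimensional Kf (Submodule.span Kf (Set.range t)) :=
    FiniteDimensional.span_of_finite Kf (Set.finite_range t)
  refine Submodule.eq_of_le_of_finrank_le hle ?_
  rw [finrank_span_eq_card ht', Fintype.card_fin]
  have := finrank_range_le_card (R := Kf) t
  simpa [Set.finrank] using this

end

end KNU_

open KNU_ in
theorem knu_proof (hPEN : Stmt_PEN) (hKIN : Stmt_KIN) (hR1T : Stmt_R1T) (hGPO : Stmt_GPO)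
    (hNUM : Stmt_NUM) (hR1D : Stmt_R1D) (hRDB : Stmt_RDB) : Stmt_KNU := by
  intro Kf Lf κ _ _ _ _ _ _ _ _ k O red β F βF hk hctx s f hD
  have hg : 1 ≤ 2 * k - 3 := by omega
  have hrdb := hRDB Kf Lf κ (2 * k - 3) O red β F βF hg inferInstance hctx
  obtain ⟨-, -, -, -, -, -, -, -, -, hfd0, -, -⟩ := hrdb
  have hfd : ∀ n, FiniteDimensional Kf (Rn Kf (2 * k - 3) β n) := fun n => (hfd0 n).2
  obtain ⟨h, h', hh, h2, h1, e, t, i0, hspan, hiso, he, hPi⟩ :=
    hPEN Kf Lf k (Rn Kf (2 * k - 3) β) s f hk hD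
  set j0 : Fin h' := ⟨0, h1⟩ with hj0
  have hmem : ∀ u ∈ Submodule.span Kf (Set.range s), ∀ v ∈ Submodule.span Kf (Set.range s),
      f * det2 u v ∈ Rn Kf (2 * k - 3) β (3 * (2 * k - 3)) :=
    det2_span (Set.range s) f _ (by rintro _ ⟨i, rfl⟩ _ ⟨j, rfl⟩; exact hD.mem i j)
  have hseV : Submodule.span Kf (Set.range e) ≤ Submodule.span Kf (Set.range s) := by
    rw [← hspan]; exact Submodule.span_mono Set.subset_union_left
  have hstV : Submodule.span Kf (Set.range t) ≤ Submodule.span Kf (Set.range s) := by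
    rw [← hspan]; exact Submodule.span_mono Set.subset_union_right
  have heV : ∀ i, e i ∈ Submodule.span Kf (Set.range s) :=
    fun i => hseV (Submodule.subset_span ⟨i, rfl⟩)
  have htV : ∀ j, t j ∈ Submodule.span Kf (Set.range s) :=
    fun j => hstV (Submodule.subset_span ⟨j, rfl⟩)
  have hne : det2 (e i0) (t j0) ≠ 0 := hPi.ne_zero j0
  have hNfin : Module.finrank Kf (Nsp Kf f e t j0) = h := by
    unfold Nsp
    rw [finrank_span_eq_card (Nsp_ind e hiso he f hD.f0 i0 _ hne), Fintype.card_fin]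
  have hPfin : Module.finrank Kf (Psp Kf f e t i0) = h' := by
    unfold Psp
    rw [finrank_span_eq_card (smul_ind _ f hD.f0 hPi), Fintype.card_fin]
  have hNle : Nsp Kf f e t j0 ≤ Rn Kf (2 * k - 3) β (3 * (2 * k - 3)) := by
    unfold Nsp
    rw [Submodule.span_le]; rintro _ ⟨i, rfl⟩; exact hmem _ (heV i) _ (htV j0)
  have hPle : Psp Kf f e t i0 ≤ Rn Kf (2 * k - 3) β (3 * (2 * k - 3)) := by
    unfold Psp
    rw [Submodule.span_le]; rintro _ ⟨j, rfl⟩; exact hmem _ (heV i0) _ (htV j)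
  obtain ⟨γN, Λ, DN, hNC⟩ := hR1T Kf Lf κ (2 * k - 3) O red β F βF hg hctx
    (3 * (2 * k - 3)) h (Nsp Kf f e t j0) hNle hNfin (by omega)
  obtain ⟨γP, P0, DP, hPC⟩ := hR1T Kf Lf κ (2 * k - 3) O red β F βF hg hctx
    (3 * (2 * k - 3)) h' (Psp Kf f e t i0) hPle hPfin h1
  obtain ⟨c1, c2, -, cP0, -, -, -⟩ :=
    dims hKIN hNUM hk hfd hD hh h2 h1 e t i0 j0 hspan hiso hne hNC hPC
  subst c1
  subst c2
  have hγP := hPC.1
  have hcop := hPC.2.1
  have hred := hPC.2.2.1
  have hfinP := hPC.2.2.2.1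
  have hfdP := hPC.2.2.2.2.1
  have hdegP := hPC.2.2.2.2.2.1
  have hexP := hPC.2.2.2.2.2.2.1
  obtain ⟨w0, hw0, hw0d, hw0n, hw0r⟩ := hGPO κ F DP P0 hctx.ff.mon.ne_zero hcop hdegP hexP
  obtain ⟨b, hbi, hbs, hbj⟩ := exists_fam P0 (k - 2) hfinP j0 w0 hw0 hw0n
  have hr1 := hR1D Kf Lf κ (2 * k - 3) O red β F βF hg inferInstance hctx
    (3 * (2 * k - 3)) (Psp Kf f e t i0) hPle
  have hlift : ∀ j, ∃ x ∈ Submodule.span Kf (Set.range t),
      Red O red β βF (f * det2 (e i0) x) (γP * b j) := by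
    intro j
    have h3 : γP * b j ∈ red1 O red β βF (Psp Kf f e t i0) := by
      rw [hred]
      exact ⟨b j, by rw [← hbs]; exact Submodule.subset_span ⟨j, rfl⟩, rfl⟩
    obtain ⟨y, hy, hyr⟩ := hr1.2.2.2.1 _ h3
    rw [Psp_eq] at hy
    obtain ⟨x, hx, rfl⟩ := hy
    exact ⟨x, hx, hyr⟩
  choose t' ht't ht'r using hlift
  have hωi : LinearIndependent Kf (fun j => f * det2 (e i0) (t' j)) :=
    hr1.2.2.2.2.2 (k - 2) _ _ ht'r (mulC_ind b γP hγP hbi)
  have ht'i : LinearIndependent Kf t' := LinearIndependent.of_comp (dR Kf f (e i0)) hωi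
  have hst : Submodule.span Kf (Set.range t') = Submodule.span Kf (Set.range t) :=
    span_eq_of_ind t t' ht'i ht't
  have hPsp : Psp Kf f e t' i0 = Psp Kf f e t i0 := by rw [Psp_eq, Psp_eq, hst]
  have hspan' : Submodule.span Kf (Set.range e ∪ Set.range t')
      = Submodule.span Kf (Set.range s) := by
    rw [Submodule.span_union, hst, ← Submodule.span_union, hspan]
  have hne' : det2 (e i0) (t' j0) ≠ 0 := right_ne_zero_of_mul (hωi.ne_zero j0)
  have ht'V : ∀ j, t' j ∈ Submodule.span Kf (Set.range s) := fun j => hstV (ht't j)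
  have hN'fin : Module.finrank Kf (Nsp Kf f e t' j0) = 2 := by
    unfold Nsp
    rw [finrank_span_eq_card (Nsp_ind e hiso he f hD.f0 i0 _ hne'), Fintype.card_fin]
  have hN'le : Nsp Kf f e t' j0 ≤ Rn Kf (2 * k - 3) β (3 * (2 * k - 3)) := by
    unfold Nsp
    rw [Submodule.span_le]; rintro _ ⟨i, rfl⟩; exact hmem _ (heV i) _ (ht'V j0)
  obtain ⟨γN', Λ', DN', hNC'⟩ := hR1T Kf Lf κ (2 * k - 3) O red β F βF hg hctx
    (3 * (2 * k - 3)) 2 (Nsp Kf f e t' j0) hN'le hN'fin (by omega)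
  obtain ⟨-, -, cN, cP, cN1, cP1, n0, hn0⟩ :=
    dims hKIN hNUM hk hfd hD hh h2 h1 e t' i0 j0 hspan' hiso hne' hNC'
      (by rw [hPsp]; exact hPC : R1C (2 * k - 3) O red β F βF (Psp Kf f e t' i0) (k - 2) γP P0 DP)
  have hγN := hNC'.1
  have hredN := hNC'.2.2.1
  have hfdN := hNC'.2.2.2.2.1
  have hr1N := hR1D Kf Lf κ (2 * k - 3) O red β F βF hg inferInstance hctx
    (3 * (2 * k - 3)) (Nsp Kf f e t' j0) hN'le
  have hmemN : f * det2 (e i0) (t' j0) ∈ Nsp Kf f e t' j0 := Submodule.subset_span ⟨i0, rfl⟩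
  have hmr : γP * b j0 ∈ red1 O red β βF (Nsp Kf f e t' j0) :=
    Submodule.subset_span ⟨_, hmemN, ht'r j0⟩
  rw [hredN] at hmr
  obtain ⟨a0, ha0, ha0e⟩ := hmr
  have ha0e' : γN' * a0 = γP * b j0 := ha0e
  have ha00 : a0 ≠ 0 := by
    rintro rfl
    rw [mul_zero] at ha0e'
    exact mul_ne_zero hγP (hbi.ne_zero j0) ha0e'.symm
  obtain ⟨a, hai, has, haj⟩ := exists_fam Λ' 2 hNC'.2.2.2.1 0 a0 ha0 ha00
  have hlN : ∃ x ∈ Submodule.span Kf (Set.range e),
      Red O red β βF (f * det2 x (t' j0)) (γN' * a 1) := by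
    have h3 : γN' * a 1 ∈ red1 O red β βF (Nsp Kf f e t' j0) := by
      rw [hredN]
      exact ⟨a 1, by rw [← has]; exact Submodule.subset_span ⟨1, rfl⟩, rfl⟩
    obtain ⟨y, hy, hyr⟩ := hr1N.2.2.2.1 _ h3
    rw [Nsp_eq] at hy
    obtain ⟨x, hx, rfl⟩ := hy
    exact ⟨x, hx, hyr⟩
  obtain ⟨x1, hx1, hx1r⟩ := hlN
  have he'r : ∀ i, Red O red β βF (f * det2 ((![e i0, x1] : Fin 2 → Fin 2 → Lf) i) (t' j0))
      (γN' * a i) := by
    intro i
    fin_cases i
    · show Red O red β βF (f * det2 (e i0) (t' j0)) (γN' * a 0)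
      rw [haj, ha0e']; exact ht'r j0
    · exact hx1r
  have he'i : LinearIndependent Kf (![e i0, x1] : Fin 2 → Fin 2 → Lf) :=
    LinearIndependent.of_comp (dL Kf f (t' j0))
      (hr1N.2.2.2.2.2 2 _ _ he'r (mulC_ind a γN' hγN hai))
  have he's : Submodule.span Kf (Set.range (![e i0, x1] : Fin 2 → Fin 2 → Lf))
      = Submodule.span Kf (Set.range e) := by
    refine span_eq_of_ind e _ he'i ?_
    intro i
    fin_cases i
    · exact Submodule.subset_span ⟨i0, rfl⟩
    · exact hx1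
  have hNsp' : Nsp Kf f (![e i0, x1] : Fin 2 → Fin 2 → Lf) t' j0 = Nsp Kf f e t' j0 := by
    rw [Nsp_eq, Nsp_eq, he's]
  have hPsp' : Psp Kf f (![e i0, x1] : Fin 2 → Fin 2 → Lf) t' 0 = Psp Kf f e t' i0 := rfl
  have hspN : Submodule.span κ (Set.range fun i => γN' * a i)
      = red1 O red β βF (Nsp Kf f e t' j0) := by
    rw [hredN, ← has, Submodule.map_span, ← Set.range_comp]; rfl
  have hspP : Submodule.span κ (Set.range fun j => γP * b j)
      = red1 O red β βF (Psp Kf f e t' i0) := by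
    rw [hPsp, hred, ← hbs, Submodule.map_span, ← Set.range_comp]; rfl
  refine ⟨![e i0, x1], t', j0, γN', γP, a, b, n0, ?_⟩
  exact
    { spanV := by rw [Submodule.span_union, he's, ← Submodule.span_union, hspan']
      par := iso_span (Kf := Kf) e hiso _ (Submodule.subset_span ⟨i0, rfl⟩) _ hx1
      γN0 := hγN
      γP0 := hγP
      redN := he'r
      redP := ht'r
      inda := hai
      indb := hbi
      cpa := by rw [has]; exact hNC'.2.1
      cpb := by rw [hbs]; exact hcop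
      sga := by rw [has]; exact cN1
      sgb := by rw [hbs]; exact cP1
      dga := by
        rw [has]
        intro u hu
        have := hNC'.2.2.2.2.2.1 u hu
        omega
      dgb := by
        rw [hbs]
        intro u hu
        have := hdegP u hu
        omega
      w0d := by rw [hbj, hbs, hw0d]; omega
      w0r := by rw [hbj]; exact hw0r
      eqV := fun n hn => (hn0 n hn).1
      eqN := fun n hn => by rw [hNsp', hspN]; exact (hn0 n hn).2.1
      eqP := fun n hn => by rw [hPsp', hspP]; exact (hn0 n hn).2.2.1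
      eqP' := fun n hn => by rw [hPsp']; exact (hn0 n hn).2.2.2.1
      eqS := fun n hn => by rw [hNsp', hPsp']; exact (hn0 n hn).2.2.2.2 }

end Pool.Agent.RTB
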