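import Pool.Agent.RTB.KStmts

/-!
# squad RTB, module LB2: lower bounds in outcome II
-/

set_option autoImplicit false

open Polynomial

namespace Pool.Agent.RTB

namespace LB2_

variable {L : Type} [Field L]

theorem PL_eq (n : ℕ) : PL L n = Polynomial.degreeLT L (n + 1) := by
  ext p
  rw [mem_PL, Polynomial.mem_degreeLT, natDegree_le_iff_coeff_eq_zero, degree_lt_iff_coeff_zero]
  exact ⟨fun h m hm => h m (by omega), fun h m hm => h m (by omega)⟩

theorem PL_fin (n : ℕ) : FiniteDimensional L (PL L n) := by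
  rw [PL_eq]
  exact Module.Finite.equiv (degreeLTEquiv L (n + 1)).symm

theorem PL_rank (n : ℕ) : Module.finrank L (PL L n) = n + 1 := by
  rw [PL_eq, (degreeLTEquiv L (n + 1)).finrank_eq]; simp

theorem PL_le_of_X (n : ℕ) (W : Submodule L L[X]) (h : ∀ m, m ≤ n → (X : L[X]) ^ m ∈ W) :
    PL L n ≤ W := by
  intro p hp
  rw [mem_PL] at hp
  rw [as_sum_range' p (n + 1) (by omega)]
  refine Submodule.sum_mem _ fun i hi => ?_
  rw [← C_mul_X_pow_eq_monomial, ← smul_eq_C_mul]
  exact W.smul_mem _ (h i (by have := Finset.mem_range.1 hi; omega))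

theorem muX_eq (f1 f2 : L[X]) (i j : ℕ) :
    muX f1 f2 i j = wr (wr f1 f2) (wr (X ^ i) (X ^ j)) := by
  unfold muX; exact key_uv f1 f2 (X ^ j) (X ^ i)

theorem wr_X (i j : ℕ) : wr (X ^ i : L[X]) (X ^ (j + 1)) = C ((j : L) + 1 - i) * X ^ (i + j) := by
  cases i with
  | zero => simp [wr, derivative_X_pow]
  | succ i =>
    simp only [wr, derivative_X_pow, Nat.add_sub_cancel]
    push_cast
    simp only [C_add, C_sub, C_1, map_natCast]
    ring

/-- the linear map `G ↦ Γ * wr A G` -/
noncomputable def psi (Γ A : L[X]) : L[X] →ₗ[L] L[X] where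
  toFun := fun G => Γ * wr A G
  map_add' := fun a b => by simp only [wr, derivative_add]; ring
  map_smul' := fun c a => by
    simp only [wr, smul_eq_C_mul, derivative_C_mul, RingHom.id_apply]; ring

/-- the linear map `v ↦ (r v, r Dh v)` -/
noncomputable def chi (r f1 f2 : L[X]) : L[X] →ₗ[L] L[X] × L[X] where
  toFun := fun v => (r * v, r * Dh f1 f2 v)
  map_add' := fun a b => by
    refine Prod.ext ?_ ?_
    · show r * (a + b) = r * a + r * b
      ring
    · show r * Dh f1 f2 (a + b) = r * Dh f1 f2 a + r * Dh f1 f2 b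
      simp only [Dh, derivative_add]; ring
  map_smul' := fun c a => by
    refine Prod.ext ?_ ?_
    · show r * (c • a) = c • (r * a)
      simp only [smul_eq_C_mul]; ring
    · show r * Dh f1 f2 (c • a) = c • (r * Dh f1 f2 a)
      simp only [Dh, smul_eq_C_mul, derivative_C_mul]; ring

theorem chi_apply (r f1 f2 v : L[X]) : chi r f1 f2 v = (r * v, r * Dh f1 f2 v) := rfl

/-- the linear map `(x, y) ↦ (Γ (x Dh X^j - X^j y))_j` -/
noncomputable def Phi (k : ℕ) (Γ f1 f2 : L[X]) : L[X] × L[X] →ₗ[L] (Fin k → L[X]) where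
  toFun := fun z j => Γ * (z.1 * Dh f1 f2 (X ^ (j : ℕ)) - X ^ (j : ℕ) * z.2)
  map_add' := fun a b => by
    funext j
    show Γ * ((a.1 + b.1) * Dh f1 f2 (X ^ (j : ℕ)) - X ^ (j : ℕ) * (a.2 + b.2))
      = Γ * (a.1 * Dh f1 f2 (X ^ (j : ℕ)) - X ^ (j : ℕ) * a.2)
        + Γ * (b.1 * Dh f1 f2 (X ^ (j : ℕ)) - X ^ (j : ℕ) * b.2)
    ring
  map_smul' := fun c a => by
    funext j
    show Γ * ((c • a.1) * Dh f1 f2 (X ^ (j : ℕ)) - X ^ (j : ℕ) * (c • a.2))
      = c • (Γ * (a.1 * Dh f1 f2 (X ^ (j : ℕ)) - X ^ (j : ℕ) * a.2))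
    simp only [smul_eq_C_mul]; ring

theorem Phi_apply (k : ℕ) (Γ f1 f2 : L[X]) (x y : L[X]) (j : Fin k) :
    Phi k Γ f1 f2 (x, y) j = Γ * (x * Dh f1 f2 (X ^ (j : ℕ)) - X ^ (j : ℕ) * y) := rfl

theorem part1 [CharZero L] (hWZR : Stmt_WZR) (A f1 f2 : L[X]) (k : ℕ) (hk : 9 ≤ k)
    (hA0 : A ≠ 0) (hAd : A.natDegree = 2 * k - 4) (hw : wr f1 f2 = A) (Γ : L[X]) (hΓ : Γ ≠ 0) :
    2 * k - 4 ≤ Module.finrank L (Submodule.span L {z : L[X] |
      ∃ i j : Fin k, z = Γ * muX f1 f2 i j}) := by
  set Z : Submodule L L[X] := Submodule.span L {z : L[X] |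
      ∃ i j : Fin k, z = Γ * muX f1 f2 i j} with hZ
  have hfin : ({z : L[X] | ∃ i j : Fin k, z = Γ * muX f1 f2 i j}).Finite := by
    refine Set.Finite.subset (Set.finite_range
      (fun p : Fin k × Fin k => Γ * muX f1 f2 p.1 p.2)) ?_
    rintro z ⟨i, j, rfl⟩
    exact ⟨(i, j), rfl⟩
  have hZfd : FiniteDimensional L Z := FiniteDimensional.span_of_finite L hfin
  have hXm : ∀ m, m ≤ 2 * k - 4 → (X : L[X]) ^ m ∈ Z.comap (psi Γ A) := by
    intro m hm
    -- find i, j
    have : ∃ (i j : ℕ), i < k ∧ j + 1 < k ∧ i ≠ j + 1 ∧ i + j = m := by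
      rcases Nat.lt_or_ge (m + 1) k with h | h
      · exact ⟨0, m, by omega, h, by omega, by omega⟩
      · exact ⟨m + 2 - k, k - 2, by omega, by omega, by omega, by omega⟩
    obtain ⟨i, j, hi, hj, hij, hm'⟩ := this
    have hc : (j : L) + 1 - i ≠ 0 := by
      intro h
      apply hij
      have : (i : L) = ((j + 1 : ℕ) : L) := by push_cast; linear_combination -h
      exact_mod_cast this
    have hmem : Γ * muX f1 f2 i (j + 1) ∈ Z := by
      apply Submodule.subset_span
      exact ⟨⟨i, hi⟩, ⟨j + 1, hj⟩, rfl⟩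
    rw [Submodule.mem_comap]
    have e : psi Γ A (X ^ m) = ((j : L) + 1 - i)⁻¹ • (Γ * muX f1 f2 i (j + 1)) := by
      have h1 : psi Γ A (wr (X ^ i) (X ^ (j + 1))) = Γ * muX f1 f2 i (j + 1) := by
        rw [muX_eq, hw]; rfl
      rw [← h1, wr_X, hm', ← smul_eq_C_mul, map_smul, smul_smul, inv_mul_cancel₀ hc, one_smul]
    rw [e]
    exact Z.smul_mem _ hmem
  have hle : PL L (2 * k - 4) ≤ Z.comap (psi Γ A) := PL_le_of_X _ _ hXm
  haveI := PL_fin (L := L) (2 * k - 4)
  let T : PL L (2 * k - 4) →ₗ[L] L[X] := (psi Γ A).comp (PL L (2 * k - 4)).subtype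
  have hrn := LinearMap.finrank_range_add_finrank_ker T
  rw [PL_rank] at hrn
  have hker : Module.finrank L (LinearMap.ker T) ≤ 1 := by
    have hAm : A ∈ PL L (2 * k - 4) := by rw [mem_PL]; exact hAd.le
    have hAk : (⟨A, hAm⟩ : PL L (2 * k - 4)) ∈ LinearMap.ker T := by
      rw [LinearMap.mem_ker]
      show Γ * wr A A = 0
      have : wr A A = 0 := by simp only [wr]; ring
      rw [this, mul_zero]
    refine finrank_le_one (⟨⟨A, hAm⟩, hAk⟩ : LinearMap.ker T) ?_
    rintro ⟨⟨G, hG⟩, hGk⟩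
    rw [LinearMap.mem_ker] at hGk
    have h1 : Γ * wr A G = 0 := hGk
    have h2 : wr A G = 0 := by
      rcases mul_eq_zero.1 h1 with h | h
      · exact absurd h hΓ
      · exact h
    obtain ⟨c, hc⟩ := hWZR L A G h2 hA0
    refine ⟨c, ?_⟩
    apply Subtype.ext
    apply Subtype.ext
    show c • A = G
    rw [hc, smul_eq_C_mul]
  have hran : Module.finrank L (LinearMap.range T) ≤ Module.finrank L Z := by
    apply Submodule.finrank_mono
    rintro _ ⟨⟨p, hp⟩, rfl⟩
    exact hle hp
  omega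

/-- values of `Dh` -/
theorem Dh_eval (f1 f2 v : L[X]) (c : L) : (Dh f1 f2 v).eval c
    = (wr f1 f2).eval c * (derivative (derivative v)).eval c
      - (derivative (wr f1 f2)).eval c * (derivative v).eval c
      + (wr (derivative f1) (derivative f2)).eval c * v.eval c := by
  simp only [Dh, eval_add, eval_sub, eval_mul]

theorem natDegree_wr [CharZero L] {p q : L[X]} {m n : ℕ} (hp : p ≠ 0) (hq : q ≠ 0)
    (hm : p.natDegree = m) (hn : q.natDegree = n) (hmn : m ≠ n) :
    wr p q ≠ 0 ∧ (wr p q).natDegree = m + n - 1 := by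
  have hco : (wr p q).coeff (m + n - 1) = ((n : L) - m) * (p.leadingCoeff * q.leadingCoeff) := by
    have hd1 : ∀ (u v : L[X]) (a b : ℕ), u.natDegree = a → v.natDegree = b → 1 ≤ b →
        (u * derivative v).coeff (a + b - 1) = b * (u.leadingCoeff * v.leadingCoeff) := by
      intro u v a b ha hb hb1
      have e : a + b - 1 = a + (b - 1) := by omega
      rw [e, coeff_mul_add_eq_of_natDegree_le (le_of_eq ha)
        (le_trans (natDegree_derivative_le v) (by omega)), coeff_derivative]
      have : b - 1 + 1 = b := by omega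
      rw [this, leadingCoeff, leadingCoeff, ha, hb]
      have e2 : ((b - 1 : ℕ) : L) + 1 = (b : L) := by
        have : ((b - 1 + 1 : ℕ) : L) = (b : L) := by rw [this]
        rw [← this]; push_cast; ring
      rw [e2]; ring
    have hd0 : ∀ (u v : L[X]), v.natDegree = 0 → derivative v = 0 := by
      intro u v hv
      obtain ⟨x, rfl⟩ := natDegree_eq_zero.1 hv
      simp
    rw [wr, coeff_sub]
    rcases Nat.eq_zero_or_pos n with hn0 | hn0
    · have hm1 : 1 ≤ m := by omega
      rw [hd0 p q (by omega), mul_zero, coeff_zero, mul_comm (derivative p) q]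
      have := hd1 q p n m hn hm hm1
      rw [show m + n - 1 = n + m - 1 by omega, this, hn0]
      push_cast; ring
    · rcases Nat.eq_zero_or_pos m with hm0 | hm0
      · rw [hd0 q p (by omega), zero_mul, coeff_zero, hd1 p q m n hm hn hn0, hm0]
        push_cast; ring
      · rw [hd1 p q m n hm hn hn0, mul_comm (derivative p) q,
          show m + n - 1 = n + m - 1 by omega, hd1 q p n m hn hm hm0]
        ring
  have hne : (wr p q).coeff (m + n - 1) ≠ 0 := by
    rw [hco]
    refine mul_ne_zero ?_ (mul_ne_zero (leadingCoeff_ne_zero.2 hp) (leadingCoeff_ne_zero.2 hq))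
    intro h
    apply hmn
    have : (m : L) = n := by linear_combination -h
    exact_mod_cast this
  refine ⟨fun h => hne (by rw [h]; simp), ?_⟩
  apply le_antisymm
  · have h1 : ∀ u v : L[X], u.natDegree + v.natDegree = m + n → 1 ≤ m + n →
        (u * derivative v).natDegree ≤ m + n - 1 := by
      intro u v h1 h2
      rcases Nat.eq_zero_or_pos v.natDegree with h0 | h0
      · obtain ⟨x, rfl⟩ := natDegree_eq_zero.1 h0
        simp
      · refine le_trans natDegree_mul_le ?_
        have := natDegree_derivative_le v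
        omega
    have h2 : 1 ≤ m + n := by omega
    rw [wr]
    refine le_trans (natDegree_sub_le _ _) (max_le ?_ ?_)
    · exact h1 p q (by omega) h2
    · rw [mul_comm]; exact h1 q p (by omega) h2
  · exact le_natDegree_of_ne_zero hne

end LB2_

open LB2_ in
theorem lb2_proof (hLBD : Stmt_LBD) (hWDG : Stmt_WDG) (hHIN : Stmt_HIN) (hWZR : Stmt_WZR)
    (_hKER : Stmt_KER) : Stmt_LB2 := by
  classical
  intro L _ _ _ A f1 f2 a k hk hA hAa d1 d2 hw
  have hA0 : A ≠ 0 := hA.mon.ne_zero
  have hAd := hA.deg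
  refine ⟨fun Γ hΓ => part1 hWZR A f1 f2 k hk hA0 hAd hw Γ hΓ, ?_⟩
  obtain ⟨-, hA', -, -, -, -⟩ := hHIN L A (2 * k - 4) hA
  have hwne : wr f1 f2 ≠ 0 := by rw [hw]; exact hA0
  have hf10 : f1 ≠ 0 := by
    rintro rfl; apply hwne; simp [wr]
  have hf20 : f2 ≠ 0 := by
    rintro rfl; apply hwne; simp [wr]
  -- the curve
  set F : L[X] := (X - C a) * A with hFdef
  have hFF : FF F (2 * k - 3) := by
    refine ⟨(monic_X_sub_C a).mul hA.mon, ?_, ?_⟩
    · refine (separable_X_sub_C (x := a)).mul hA.sep ?_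
      have hirr : Irreducible (X - C a : L[X]) := irreducible_X_sub_C a
      refine (hirr.coprime_iff_not_dvd).2 ?_
      intro h
      exact hAa (dvd_iff_isRoot.1 h)
    · rw [hFdef, (monic_X_sub_C a).natDegree_mul hA.mon, natDegree_X_sub_C, hAd]; omega
  have hF0 : F ≠ 0 := hFF.mon.ne_zero
  have hFa : a ∈ F.roots.toFinset := by
    rw [Multiset.mem_toFinset, mem_roots hF0]
    show F.eval a = 0
    rw [hFdef]; simp
  -- first family
  set U1 : Submodule L L[X] := Submodule.span L {f1, f2} with hU1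
  have hU1fd : FiniteDimensional L U1 := FiniteDimensional.span_of_finite L (Set.toFinite _)
  have hf1m : f1 ∈ U1 := Submodule.subset_span (by simp)
  have hf2m : f2 ∈ U1 := Submodule.subset_span (by simp)
  have hU1c : coprimeFam U1 := by
    intro c
    by_contra hcon
    push_neg at hcon
    have e1 := hcon f1 hf1m
    have e2 := hcon f2 hf2m
    have hc : A.eval c = 0 := by rw [← hw]; simp [wr, e1, e2]
    apply hA' c hc
    rw [← hw]
    simp [wr, derivative_mul, e1, e2]
  have hU1d : ∀ u ∈ U1, u.natDegree ≤ k - 1 := by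
    intro u hu
    have hle : U1 ≤ PL L (k - 1) := by
      rw [hU1, Submodule.span_le]
      intro x hx
      simp only [Set.mem_insert_iff, Set.mem_singleton_iff] at hx
      rcases hx with hx | hx
      · rw [hx]; exact d1
      · rw [hx]; exact d2
    exact hle hu
  have hexd : ∃ f, (f = f1 ∨ f = f2) ∧ f.natDegree = k - 1 := by
    by_contra hcon
    push_neg at hcon
    have h1 := hcon f1 (Or.inl rfl)
    have h2 := hcon f2 (Or.inr rfl)
    have := (hWDG L (k - 2) f1 f2 0 (by omega) (by omega) (by simp)).1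
    rw [hw, hAd] at this
    omega
  have hU1e : ∃ u ∈ U1, u.natDegree = k - 1 := by
    obtain ⟨f, hf, hfd⟩ := hexd
    rcases hf with rfl | rfl
    · exact ⟨f, hf1m, hfd⟩
    · exact ⟨f, hf2m, hfd⟩
  have hsig1 : 1 ≤ (sig F U1).card := by
    apply Finset.card_pos.2
    refine ⟨a, ?_⟩
    rw [sig, Finset.mem_filter]
    refine ⟨by convert hFa, ?_⟩
    rintro ⟨lam, hlam⟩
    apply hAa
    rw [← hw]
    have e1 := hlam f1 hf1m
    have e2 := hlam f2 hf2m
    simp only [wr, eval_sub, eval_mul, e1, e2]; ring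
  -- second family
  set U2 : Submodule L L[X] := DhSp f1 f2 (k - 1) with hU2
  have hU2fd : FiniteDimensional L U2 := by
    haveI := PL_fin (L := L) (k - 1)
    rw [hU2, DhSp]; infer_instance
  have hmem2 : ∀ v : L[X], v.natDegree ≤ k - 1 → Dh f1 f2 v ∈ U2 := by
    intro v hv
    rw [hU2, mem_DhSp]; exact ⟨v, hv, rfl⟩
  have hU2c : coprimeFam U2 := by
    intro c
    by_cases hc : A.eval c = 0
    · refine ⟨Dh f1 f2 (X - C c), hmem2 _ (by rw [natDegree_X_sub_C]; omega), ?_⟩
      rw [Dh_eval, hw]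
      simp [hc, hA' c hc]
    · refine ⟨Dh f1 f2 ((X - C c) ^ 2), hmem2 _ (by
        refine le_trans natDegree_pow_le ?_
        rw [natDegree_X_sub_C]; omega), ?_⟩
      rw [Dh_eval, hw]
      simp [hc, derivative_pow, derivative_mul]
  have hU2d : ∀ u ∈ U2, u.natDegree ≤ 3 * k - 9 := by
    intro u hu
    rw [hU2, mem_DhSp] at hu
    obtain ⟨v, hv, rfl⟩ := hu
    have := (hWDG L (k - 1) f1 f2 v d1 d2 hv).2
    omega
  have hU2e : ∃ u ∈ U2, u.natDegree = 3 * k - 9 := by
    refine ⟨Dh f1 f2 (X ^ (k - 3)), hmem2 _ (by rw [natDegree_X_pow]; omega), ?_⟩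
    obtain ⟨f, hf, hfd⟩ := hexd
    have hf0 : f ≠ 0 := by rcases hf with rfl | rfl <;> assumption
    have hkey : f * Dh f1 f2 (X ^ (k - 3)) = wr A (wr f (X ^ (k - 3))) := by
      rw [← hw]
      rcases hf with rfl | rfl
      · exact key1 _ _ _
      · exact key2 _ _ _
    obtain ⟨n1, n2⟩ := natDegree_wr (p := f) (q := X ^ (k - 3)) (m := k - 1) (n := k - 3) hf0
      (pow_ne_zero _ X_ne_zero) hfd (natDegree_X_pow _) (by omega)
    obtain ⟨n3, n4⟩ := natDegree_wr (p := A) (q := wr f (X ^ (k - 3))) (m := 2 * k - 4)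
      (n := k - 1 + (k - 3) - 1) hA0 n1 hAd n2 (by omega)
    rw [← hkey] at n3 n4
    have hD0 : Dh f1 f2 (X ^ (k - 3)) ≠ 0 := by
      intro h; apply n3; rw [h, mul_zero]
    rw [natDegree_mul hf0 hD0, hfd] at n4
    omega
  have hsig2 : 1 ≤ (sig F U2).card := by
    apply Finset.card_pos.2
    refine ⟨a, ?_⟩
    rw [sig, Finset.mem_filter]
    refine ⟨by convert hFa, ?_⟩
    rintro ⟨lam, hlam⟩
    have h := hlam _ (hmem2 ((X - C a) ^ 3) (by
        refine le_trans natDegree_pow_le ?_
        rw [natDegree_X_sub_C]; omega))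
    have e1 : (Dh f1 f2 ((X - C a) ^ 3)).eval a = 0 := by
      rw [Dh_eval]
      simp [derivative_pow, derivative_mul]
    have e2 : (derivative (Dh f1 f2 ((X - C a) ^ 3))).eval a = 6 * A.eval a := by
      rw [Dh, hw]
      simp [derivative_pow, derivative_mul]
      ring
    rw [e1, e2, mul_zero] at h
    rcases mul_eq_zero.1 h with h | h
    · norm_num at h
    · exact hAa h
  obtain ⟨N1, hN1⟩ := hLBD L F (2 * k - 3) (k - 1) U1 hFF (by omega) hU1fd hU1c hU1d hU1e
  obtain ⟨N2, hN2⟩ := hLBD L F (2 * k - 3) (3 * k - 9) U2 hFF (by omega) hU2fd hU2c hU2d hU2e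
  refine ⟨max N1 N2, fun n hn Γ hΓ => ?_⟩
  have b1 := hN1 n (le_trans (le_max_left _ _) hn)
  have b2 := hN2 n (le_trans (le_max_right _ _) hn)
  -- the intermediate space
  set S : Set (L[X] × L[X]) := {z | ∃ r ∈ RF F n, ∃ i : Fin k,
    z = (r * X ^ (i : ℕ), r * Dh f1 f2 (X ^ (i : ℕ)))} with hS
  set Y : Submodule L (L[X] × L[X]) := Submodule.span L S with hY
  have hRPL : RF F n ≤ PL L n := fun p hp => hp.1
  haveI := PL_fin (L := L) n
  have hYle : Y ≤ (PL L (n + (k - 1))).prod (PL L (n + (3 * (k - 1) - 6))) := by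
    rw [hY, Submodule.span_le]
    rintro z ⟨r, hr, i, rfl⟩
    refine ⟨?_, ?_⟩
    · show (r * X ^ (i : ℕ)).natDegree ≤ n + (k - 1)
      refine le_trans natDegree_mul_le ?_
      have h1 := hr.1
      rw [natDegree_X_pow]
      have := i.2
      omega
    · show (r * Dh f1 f2 (X ^ (i : ℕ))).natDegree ≤ n + (3 * (k - 1) - 6)
      refine le_trans natDegree_mul_le ?_
      have h1 := hr.1
      have h2 := (hWDG L (k - 1) f1 f2 (X ^ (i : ℕ)) d1 d2 (by
        rw [natDegree_X_pow]; have := i.2; omega)).2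
      omega
  have hYfd : FiniteDimensional L Y := by
    have g1 := PL_fin (L := L) (n + (k - 1))
    have g2 := PL_fin (L := L) (n + (3 * (k - 1) - 6))
    haveI : FiniteDimensional L
        ((PL L (n + (k - 1))).prod (PL L (n + (3 * (k - 1) - 6)))) :=
      (Submodule.fg_iff_finiteDimensional _).1
        (Submodule.FG.prod ((Submodule.fg_iff_finiteDimensional _).2 g1)
          ((Submodule.fg_iff_finiteDimensional _).2 g2))
    exact Submodule.finiteDimensional_of_le hYle
  have gmem : ∀ r ∈ RF F n, ∀ v : L[X], v.natDegree ≤ k - 1 → chi r f1 f2 v ∈ Y := by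
    intro r hr v hv
    have hle : PL L (k - 1) ≤ Y.comap (chi r f1 f2) := by
      apply PL_le_of_X
      intro m hm
      rw [Submodule.mem_comap]
      apply Submodule.subset_span
      exact ⟨r, hr, ⟨m, by omega⟩, rfl⟩
    exact hle hv
  let p : Y →ₗ[L] L[X] := (LinearMap.snd L L[X] L[X]).comp Y.subtype
  have hrn := LinearMap.finrank_range_add_finrank_ker p
  have hran : RF F n * U2 ≤ LinearMap.range p := by
    rw [Submodule.mul_le]
    intro r hr ω hω
    rw [hU2, mem_DhSp] at hω
    obtain ⟨v, hv, rfl⟩ := hω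
    exact ⟨⟨chi r f1 f2 v, gmem r hr v hv⟩, rfl⟩
  have hran' := Submodule.finrank_mono hran
  have hin : RF F n * U1 ≤ Y.comap (LinearMap.inl L L[X] L[X]) := by
    rw [Submodule.mul_le]
    intro r hr u hu
    have hud := hU1d u hu
    have hDu : Dh f1 f2 u = 0 := by
      rw [hU1] at hu
      obtain ⟨α, β, rfl⟩ := Submodule.mem_span_pair.1 hu
      have : Dh f1 f2 (α • f1 + β • f2) = C α * Dh f1 f2 f1 + C β * Dh f1 f2 f2 := by
        simp only [Dh, smul_eq_C_mul, derivative_add, derivative_C_mul]; ring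
      rw [this, Dh_self1, Dh_self2]; simp
    have h1 := gmem r hr u hud
    rw [chi_apply, hDu, mul_zero] at h1
    exact h1
  have hker : Module.finrank L (RF F n * U1 : Submodule L L[X])
      ≤ Module.finrank L (LinearMap.ker p) := by
    let q0 : (RF F n * U1 : Submodule L L[X]) →ₗ[L] Y :=
      ((LinearMap.inl L L[X] L[X]).comp (RF F n * U1).subtype).codRestrict Y
        (fun x => hin x.2)
    let q1 : (RF F n * U1 : Submodule L L[X]) →ₗ[L] LinearMap.ker p :=
      q0.codRestrict (LinearMap.ker p) (fun x => by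
        rw [LinearMap.mem_ker]; rfl)
    refine LinearMap.finrank_le_finrank_of_injective (f := q1) ?_
    intro x y hxy
    have h1 : ((q1 x : Y) : L[X] × L[X]).1 = ((q1 y : Y) : L[X] × L[X]).1 := by rw [hxy]
    exact Subtype.ext h1
  have hinj : Function.Injective (Phi k Γ f1 f2) := by
    rw [injective_iff_map_eq_zero]
    rintro ⟨x, y⟩ hxy
    have e0 := congrFun hxy (⟨0, by omega⟩ : Fin k)
    have e1 := congrFun hxy (⟨1, by omega⟩ : Fin k)
    rw [Phi_apply] at e0 e1
    have e0' : x * Dh f1 f2 1 - y = 0 := by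
      rcases mul_eq_zero.1 e0 with h | h
      · exact absurd h hΓ
      · simpa using h
    have e1' : x * Dh f1 f2 X - X * y = 0 := by
      rcases mul_eq_zero.1 e1 with h | h
      · exact absurd h hΓ
      · simpa using h
    have hy : y = x * Dh f1 f2 1 := by linear_combination -e0'
    have hk2 := key_uv f1 f2 X 1
    have hwA : wr (wr f1 f2) (wr 1 X) = - derivative A := by
      rw [hw]; simp [wr]
    rw [hwA, one_mul] at hk2
    have hx : x * derivative A = 0 := by
      have : x * (Dh f1 f2 X - X * Dh f1 f2 1) = 0 := by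
        rw [hy] at e1'; linear_combination e1'
      rw [hk2] at this
      linear_combination -this
    have hdA : derivative A ≠ 0 := by
      intro h
      have := natDegree_eq_zero_of_derivative_eq_zero h
      omega
    have hx0 : x = 0 := by
      rcases mul_eq_zero.1 hx with h | h
      · exact h
      · exact absurd h hdA
    rw [hx0] at hy
    rw [hx0, hy]; simp
  have hmap : Y.map (Phi k Γ f1 f2) = Submodule.span L {z : Fin k → L[X] |
      ∃ r ∈ RF F n, ∃ i : Fin k, z = r • fun j : Fin k => Γ * muX f1 f2 i j} := by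
    rw [hY, Submodule.map_span]
    congr 1
    ext z
    constructor
    · rintro ⟨_, ⟨r, hr, i, rfl⟩, rfl⟩
      refine ⟨r, hr, i, ?_⟩
      funext j
      rw [Phi_apply, Pi.smul_apply, smul_eq_mul, muX]
      ring
    · rintro ⟨r, hr, i, rfl⟩
      refine ⟨_, ⟨r, hr, i, rfl⟩, ?_⟩
      funext j
      rw [Phi_apply, Pi.smul_apply, smul_eq_mul, muX]
      ring
  have hfr : Module.finrank L Y = Module.finrank L (Submodule.span L {z : Fin k → L[X] |
      ∃ r ∈ RF F n, ∃ i : Fin k, z = r • fun j : Fin k => Γ * muX f1 f2 i j}) := by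
    rw [← hmap]
    exact (Submodule.equivMapOfInjective (Phi k Γ f1 f2) hinj Y).finrank_eq
  rw [← hfr]
  omega

end Pool.Agent.RTB
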