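import Pool.Agent.RTB.SStmts

set_option autoImplicit false

open Polynomial

namespace Pool.Agent.RTB

namespace LBD_

variable {L : Type} [Field L]

theorem PL_eq (n : ℕ) : PL L n = degreeLT L (n + 1) := by
  ext p
  rw [mem_PL, mem_degreeLT]
  by_cases hp : p = 0
  · subst hp
    simp
  · rw [degree_eq_natDegree hp]
    constructor
    · intro h; exact_mod_cast Nat.lt_succ_of_le h
    · intro h; exact Nat.le_of_lt_succ (by exact_mod_cast h)

theorem fin_degreeLT (n : ℕ) : Module.Finite L (degreeLT L n) :=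
  Module.Finite.equiv (degreeLTEquiv L n).symm

theorem finrank_degreeLT (n : ℕ) : Module.finrank L (degreeLT L n) = n := by
  rw [LinearEquiv.finrank_eq (degreeLTEquiv L n), Module.finrank_fin_fun]

theorem fin_PL (n : ℕ) : Module.Finite L (PL L n) := by
  rw [PL_eq]; exact fin_degreeLT _

theorem fin_RF (F : L[X]) (n : ℕ) : Module.Finite L (RF F n) := by
  have := fin_PL (L := L) n
  exact Submodule.finiteDimensional_of_le (S₂ := PL L n) (fun p hp => hp.1)

theorem fin_mul (F : L[X]) (n : ℕ) (U : Submodule L L[X]) (hU : FiniteDimensional L U) :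
    Module.Finite L (RF F n * U : Submodule L L[X]) := by
  have := fin_RF F n
  have h1 : (RF F n).FG := Module.Finite.iff_fg.mp inferInstance
  have h2 : U.FG := Module.Finite.iff_fg.mp hU
  exact Module.Finite.iff_fg.mpr (h1.mul h2)

/-- `F^2 * p` belongs to the ring -/
theorem F2_mem (F p : L[X]) (g n m : ℕ) (hF : F.natDegree = g) (hp : p.natDegree ≤ m)
    (hm : m + 2 * g ≤ n) : F ^ 2 * p ∈ RF F n := by
  rw [mem_RF]
  constructor
  · refine le_trans natDegree_mul_le ?_
    have : (F ^ 2).natDegree ≤ 2 * g := by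
      refine le_trans natDegree_pow_le ?_
      rw [hF]
    omega
  · rw [derivative_mul, pow_two, derivative_mul]
    exact ⟨(derivative F + derivative F) * p + F * derivative p, by ring⟩

theorem F2_PL (F : L[X]) (g n m : ℕ) (U : Submodule L L[X]) (hF : F.natDegree = g)
    (hm : m + 2 * g ≤ n) (x : L[X]) (hx : x ∈ PL L m * U) : F ^ 2 * x ∈ RF F n * U := by
  induction hx using Submodule.mul_induction_on' with
  | mem_mul_mem a ha b hb =>
    rw [← mul_assoc]
    exact Submodule.mul_mem_mul (F2_mem F a g n m hF ha hm) hb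
  | add a ha b hb h1 h2 =>
    rw [mul_add]
    exact Submodule.add_mem _ h1 h2

end LBD_

open LBD_ in
theorem lbd_proof (hLBE : Stmt_LBE) (hHIN : Stmt_HIN) : Stmt_LBD := by
  classical
  intro L _ _ _ F g D U hFF hg hU hcop hdeg hdegD
  obtain ⟨hcard, hsimple, hdvd1, hdvd2, hint, hint0⟩ := hHIN L F g hFF
  obtain ⟨m0, hm0⟩ := hLBE L D U hU hcop hdeg hdegD
  refine ⟨m0 + 2 * g, fun n hn => ?_⟩
  have hF0 : F ≠ 0 := hFF.mon.ne_zero
  have hroot : ∀ c, c ∈ F.roots.toFinset ↔ F.eval c = 0 := by
    intro c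
    rw [Multiset.mem_toFinset, mem_roots hF0]
    rfl
  have hsig : ∀ c : L, c ∈ sig F U → c ∈ F.roots.toFinset ∧ ¬ tI U c := by
    intro c hc
    unfold sig at hc
    exact Finset.mem_filter.1 hc
  -- the functions `χ c`
  have hchi : ∀ c : L, F.eval c = 0 → ∃ p : L[X], p ∈ RF F n ∧ p.eval c = 1 ∧
      (derivative p).eval c = 0 ∧
      ∀ e, F.eval e = 0 → e ≠ c → p.eval e = 0 ∧ (derivative p).eval e = 0 := by
    intro c hc
    obtain ⟨p, hp1, hp2⟩ := hint hg (fun e => if e = c then 1 else 0) (fun _ => 0)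
    refine ⟨p, ⟨by omega, hdvd1 _ (fun e he => (hp2 e he).2)⟩, ?_, (hp2 c hc).2, ?_⟩
    · have := (hp2 c hc).1
      simpa using this
    · intro e he hec
      have := (hp2 e he).1
      rw [if_neg hec] at this
      exact ⟨this, (hp2 e he).2⟩
  have hA : ∀ c : {x // x ∈ F.roots.toFinset}, ∃ a : L[X], a ∈ RF F n * U ∧ a.eval (c : L) ≠ 0 ∧
      ∀ e, F.eval e = 0 → e ≠ c → a.eval e = 0 ∧ (derivative a).eval e = 0 := by
    intro c
    have hc : F.eval (c : L) = 0 := (hroot c).1 c.2
    obtain ⟨p, hp, hp1, hp2, hp3⟩ := hchi c hc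
    obtain ⟨u, hu, hu1⟩ := hcop c
    refine ⟨p * u, Submodule.mul_mem_mul hp hu, ?_, ?_⟩
    · rw [eval_mul, hp1, one_mul]; exact hu1
    · intro e he hec
      obtain ⟨h1, h2⟩ := hp3 e he hec
      refine ⟨by rw [eval_mul, h1, zero_mul], ?_⟩
      rw [derivative_mul, eval_add, eval_mul, eval_mul, h1, h2, zero_mul, zero_mul, add_zero]
  have hB : ∀ c : {x // x ∈ sig F U}, ∃ b : L[X], b ∈ RF F n * U ∧ b.eval (c : L) = 0 ∧
      (derivative b).eval (c : L) ≠ 0 ∧
      ∀ e, F.eval e = 0 → e ≠ c → b.eval e = 0 ∧ (derivative b).eval e = 0 := by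
    intro c
    have hc0 := hsig c c.2
    have hc : F.eval (c : L) = 0 := (hroot c).1 hc0.1
    obtain ⟨p, hp, hp1, hp2, hp3⟩ := hchi c hc
    obtain ⟨u, hu, hu1⟩ := hcop c
    have hnt : ¬ ∀ w ∈ U, (derivative w).eval (c : L)
        = ((derivative u).eval (c : L) / u.eval (c : L)) * w.eval (c : L) := by
      intro h
      exact hc0.2 ⟨_, h⟩
    push Not at hnt
    obtain ⟨w, hw, hw1⟩ := hnt
    have hv : w - C (w.eval (c : L) / u.eval (c : L)) * u ∈ U := by
      refine Submodule.sub_mem _ hw ?_
      rw [← smul_eq_C_mul]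
      exact Submodule.smul_mem _ _ hu
    have hv0 : (w - C (w.eval (c : L) / u.eval (c : L)) * u).eval (c : L) = 0 := by
      rw [eval_sub, eval_mul, eval_C, div_mul_cancel₀ _ hu1, sub_self]
    have hv1 : (derivative (w - C (w.eval (c : L) / u.eval (c : L)) * u)).eval (c : L) ≠ 0 := by
      rw [derivative_sub, derivative_mul, derivative_C, zero_mul, zero_add, eval_sub, eval_mul,
        eval_C]
      intro h
      apply hw1
      rw [sub_eq_zero] at h
      rw [h]
      field_simp
    generalize w - C (w.eval (c : L) / u.eval (c : L)) * u = v at hv hv0 hv1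
    refine ⟨p * v, Submodule.mul_mem_mul hp hv, ?_, ?_, ?_⟩
    · rw [eval_mul, hv0, mul_zero]
    · rw [derivative_mul, eval_add, eval_mul, eval_mul, hp1, hp2, zero_mul, zero_add, one_mul]
      exact hv1
    · intro e he hec
      obtain ⟨h1, h2⟩ := hp3 e he hec
      refine ⟨by rw [eval_mul, h1, zero_mul], ?_⟩
      rw [derivative_mul, eval_add, eval_mul, eval_mul, h1, h2, zero_mul, zero_mul, add_zero]
  choose a ha ha1 ha2 using hA
  choose b hb hb1 hb2 hb3 using hB
  obtain ⟨k, hk⟩ : ∃ k, n = k + 2 * g := ⟨n - 2 * g, by omega⟩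
  have hkm : m0 ≤ k := by omega
  let Φ : (degreeLT L (k + D + 1)) ×
      (({x // x ∈ F.roots.toFinset} → L) × ({x // x ∈ sig F U} → L)) →ₗ[L] L[X] :=
    { toFun := fun x => F ^ 2 * (x.1 : L[X]) + ∑ c, x.2.1 c • a c + ∑ c, x.2.2 c • b c
      map_add' := fun x y => by
        simp only [Prod.fst_add, Prod.snd_add, Submodule.coe_add, Pi.add_apply, mul_add, add_smul,
          Finset.sum_add_distrib]
        abel
      map_smul' := fun s x => by
        simp only [Prod.smul_fst, Prod.smul_snd, Submodule.coe_smul, Pi.smul_apply, smul_eq_mul,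
          mul_smul_comm, RingHom.id_apply, smul_add, Finset.smul_sum, smul_smul] }
  have hΦ : ∀ x, Φ x = F ^ 2 * (x.1 : L[X]) + ∑ c, x.2.1 c • a c + ∑ c, x.2.2 c • b c :=
    fun x => rfl
  have hrange : LinearMap.range Φ ≤ RF F n * U := by
    rintro _ ⟨x, rfl⟩
    rw [hΦ]
    refine Submodule.add_mem _ (Submodule.add_mem _ ?_ ?_) ?_
    · refine F2_PL F g n k U hFF.deg (by omega) _ (hm0 k hkm ?_)
      rw [PL_eq]
      exact x.1.2
    · exact Submodule.sum_mem _ (fun c _ => Submodule.smul_mem _ _ (ha c))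
    · exact Submodule.sum_mem _ (fun c _ => Submodule.smul_mem _ _ (hb c))
  have hF2 : ∀ (q : L[X]) (c : L), F.eval c = 0 → (F ^ 2 * q).eval c = 0 ∧
      (derivative (F ^ 2 * q)).eval c = 0 := by
    intro q c hc
    refine ⟨by rw [eval_mul, eval_pow, hc]; ring, ?_⟩
    rw [derivative_mul, pow_two, derivative_mul]
    simp only [eval_add, eval_mul, hc]
    ring
  have hinj : Function.Injective Φ := by
    rw [← LinearMap.ker_eq_bot, LinearMap.ker_eq_bot']
    intro x hx
    rw [hΦ] at hx
    have hα : x.2.1 = 0 := by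
      funext c
      have hc : F.eval (c : L) = 0 := (hroot c).1 c.2
      have h1 := congrArg (Polynomial.eval (c : L)) hx
      rw [eval_add, eval_add, (hF2 _ _ hc).1, eval_finsetSum, eval_finsetSum, eval_zero,
        zero_add] at h1
      rw [Finset.sum_eq_single c] at h1
      · rw [Finset.sum_eq_zero] at h1
        · rw [eval_smul, smul_eq_mul, add_zero] at h1
          exact (mul_eq_zero.1 h1).resolve_right (ha1 c)
        · intro e _
          rw [eval_smul, smul_eq_mul]
          by_cases hec : (c : L) = e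
          · rw [hec, hb1 e, mul_zero]
          · rw [(hb3 e c hc hec).1, mul_zero]
      · intro e _ hec
        rw [eval_smul, smul_eq_mul, (ha2 e c hc (fun h => hec (Subtype.ext h.symm))).1, mul_zero]
      · intro h; exact absurd (Finset.mem_univ c) h
    have hβ : x.2.2 = 0 := by
      funext c
      have hc0 := hsig c c.2
      have hc : F.eval (c : L) = 0 := (hroot c).1 hc0.1
      have h1 := congrArg (fun q => Polynomial.eval (c : L) (derivative q)) hx
      simp only [hα, Pi.zero_apply, zero_smul, Finset.sum_const_zero, add_zero, derivative_add,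
        derivative_sum, eval_add, (hF2 _ _ hc).2, derivative_zero, eval_zero, zero_add,
        eval_finsetSum, derivative_smul, eval_smul, smul_eq_mul] at h1
      rw [Finset.sum_eq_single c] at h1
      · exact (mul_eq_zero.1 h1).resolve_right (hb2 c)
      · intro e _ hec
        rw [(hb3 e c hc (fun h => hec (Subtype.ext h.symm))).2, mul_zero]
      · intro h; exact absurd (Finset.mem_univ c) h
    simp only [hα, hβ, Pi.zero_apply, zero_smul, Finset.sum_const_zero, add_zero] at hx
    have hx1 : (x.1 : L[X]) = 0 := (mul_eq_zero.1 hx).resolve_left (pow_ne_zero 2 hF0)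
    exact Prod.ext (Subtype.ext hx1) (Prod.ext hα hβ)
  have : Module.Finite L (degreeLT L (k + D + 1)) := fin_degreeLT _
  have : Module.Finite L (RF F n * U : Submodule L L[X]) := fin_mul F n U hU
  have h1 := LinearMap.finrank_range_of_inj hinj
  have h2 := Submodule.finrank_mono hrange
  rw [h1, Module.finrank_prod, Module.finrank_prod, finrank_degreeLT, Module.finrank_fintype_fun_eq_card,
    Module.finrank_fintype_fun_eq_card, Fintype.card_coe, Fintype.card_coe, hcard] at h2
  omega

end Pool.Agent.RTB
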