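import Pool.Agent.RTB.SStmts

/-!
# RTB, module LBE: polynomials generated by a coprime family
-/

set_option autoImplicit false

open Polynomial

namespace Pool.Agent.RTB

namespace LBE_

variable {L : Type} [Field L]

theorem exists_coeff {D : ℕ} {U : Submodule L L[X]} (hcop : coprimeFam U)
    (hdeg : ∀ u ∈ U, u.natDegree ≤ D) (hex : ∃ u ∈ U, u.natDegree = D) :
    ∃ u ∈ U, u.coeff D ≠ 0 := by
  obtain ⟨u, hu, hud⟩ := hex
  by_cases hu0 : u = 0
  · rw [hu0, natDegree_zero] at hud
    obtain ⟨v, hv, hv0⟩ := hcop 0
    have hv1 : v ≠ 0 := by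
      rintro rfl
      exact hv0 (by simp)
    refine ⟨v, hv, ?_⟩
    have h1 : v.natDegree = D := by
      have := hdeg v hv
      omega
    rw [← h1, coeff_natDegree]
    exact leadingCoeff_ne_zero.mpr hv1
  · refine ⟨u, hu, ?_⟩
    rw [← hud, coeff_natDegree]
    exact leadingCoeff_ne_zero.mpr hu0

theorem bezout [IsAlgClosed L] {U : Submodule L L[X]} (hcop : coprimeFam U) :
    Ideal.span (U : Set L[X]) = ⊤ := by
  have hpr : (Ideal.span (U : Set L[X])).IsPrincipal := IsPrincipalIdealRing.principal _
  obtain ⟨γ, hγ⟩ := hpr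
  have hγ' : Ideal.span (U : Set L[X]) = Ideal.span {γ} := hγ
  have hdvd : ∀ u ∈ U, γ ∣ u := by
    intro u hu
    rw [← Ideal.mem_span_singleton, ← hγ']
    exact Ideal.subset_span hu
  have hunit : IsUnit γ := by
    by_contra hnu
    by_cases h0 : γ = 0
    · obtain ⟨u, hu, hu0⟩ := hcop 0
      have h1 := hdvd u hu
      rw [h0, zero_dvd_iff] at h1
      rw [h1] at hu0
      exact hu0 (by simp)
    · obtain ⟨c, hc⟩ := IsAlgClosed.exists_root γ (fun h => hnu (isUnit_iff_degree_eq_zero.mpr h))
      obtain ⟨u, hu, hu0⟩ := hcop c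
      obtain ⟨w, hw⟩ := hdvd u hu
      apply hu0
      rw [hw, eval_mul, hc, zero_mul]
  rw [hγ', Ideal.span_singleton_eq_top]
  exact hunit

end LBE_

open LBE_ in
theorem lbe_proof : Stmt_LBE := by
  intro L _ _ D U hfd hcop hdeg hex
  obtain ⟨uD, huD, hcoeff⟩ := exists_coeff hcop hdeg hex
  have h1 : (1 : L[X]) ∈ Ideal.span (U : Set L[X]) := by
    rw [bezout hcop]; trivial
  rw [Ideal.span, Submodule.mem_span_set'] at h1
  obtain ⟨n, h, u, hsum⟩ := h1
  let m1 : ℕ := Finset.univ.sup fun i : Fin n => (h i).natDegree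
  have hm1 : ∀ i, (h i).natDegree ≤ m1 := fun i =>
    Finset.le_sup (f := fun i : Fin n => (h i).natDegree) (Finset.mem_univ i)
  refine ⟨m1 + D, fun m hm => ?_⟩
  have hlow : ∀ p : L[X], p.natDegree ≤ m - m1 → p ∈ (PL L m * U : Submodule L L[X]) := by
    intro p hp
    have e1 : p = ∑ i, (p * h i) * (u i : L[X]) := by
      calc p = p * 1 := (mul_one p).symm
        _ = p * ∑ i, h i • (u i : L[X]) := by rw [hsum]
        _ = ∑ i, (p * h i) * (u i : L[X]) := by
          rw [Finset.mul_sum]
          exact Finset.sum_congr rfl (fun i _ => by rw [smul_eq_mul, mul_assoc])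
    rw [e1]
    refine Submodule.sum_mem _ (fun i _ => ?_)
    refine Submodule.mul_mem_mul ?_ (u i).2
    rw [mem_PL]
    refine le_trans natDegree_mul_le ?_
    have := hm1 i
    omega
  have hall : ∀ e, e ≤ m + D → ∀ p : L[X], p.natDegree ≤ e →
      p ∈ (PL L m * U : Submodule L L[X]) := by
    intro e
    induction e with
    | zero =>
      intro _ p hp
      exact hlow p (by omega)
    | succ e ih =>
      intro he p hp
      by_cases hle : e + 1 ≤ m - m1
      · exact hlow p (by omega)
      · have hDe : D ≤ e + 1 := by omega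
        have h2 : (C (p.coeff (e + 1) / uD.coeff D) * X ^ (e + 1 - D)) * uD
            ∈ (PL L m * U : Submodule L L[X]) := by
          refine Submodule.mul_mem_mul ?_ huD
          rw [mem_PL]
          refine le_trans (natDegree_C_mul_X_pow_le _ _) ?_
          omega
        have h3 : p - (C (p.coeff (e + 1) / uD.coeff D) * X ^ (e + 1 - D)) * uD
            ∈ (PL L m * U : Submodule L L[X]) := by
          apply ih (by omega)
          rw [natDegree_le_iff_coeff_eq_zero]
          intro N hN
          rw [coeff_sub]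
          rcases Nat.eq_or_lt_of_le (show e + 1 ≤ N from hN) with h4 | h4
          · have h5 : ((C (p.coeff (e + 1) / uD.coeff D) * X ^ (e + 1 - D)) * uD).coeff N
                = p.coeff (e + 1) / uD.coeff D * uD.coeff D := by
              rw [mul_assoc, coeff_C_mul]
              congr 1
              obtain ⟨d, hd⟩ : ∃ d, N = D + d := ⟨N - D, by omega⟩
              rw [show e + 1 - D = d by omega, hd, coeff_X_pow_mul]
            rw [h5, div_mul_cancel₀ _ hcoeff, ← h4, sub_self]
          · have h5 : p.coeff N = 0 := coeff_eq_zero_of_natDegree_lt (by omega)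
            have h6 : ((C (p.coeff (e + 1) / uD.coeff D) * X ^ (e + 1 - D)) * uD).coeff N = 0 := by
              apply coeff_eq_zero_of_natDegree_lt
              refine lt_of_le_of_lt natDegree_mul_le ?_
              have h7 := natDegree_C_mul_X_pow_le (p.coeff (e + 1) / uD.coeff D) (e + 1 - D)
              have h8 := hdeg uD huD
              omega
            rw [h5, h6, sub_self]
        have h9 := Submodule.add_mem _ h3 h2
        rwa [sub_add_cancel] at h9
  intro p hp
  exact hall (m + D) le_rfl p hp

end Pool.Agent.RTB
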