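import Pool.Agent.RTB.SStmts

set_option autoImplicit false

open Polynomial

namespace Pool.Agent.RTB

namespace LIF_

variable {L : Type} [Field L]

theorem ff_mul {A : L[X]} {a : L} {g : ℕ} (h : FF A g) (ha : A.eval a ≠ 0) :
    FF ((X - C a) * A) (g + 1) := by
  refine ⟨(monic_X_sub_C a).mul h.mon, ?_, ?_⟩
  · refine (separable_X_sub_C).mul h.sep ?_
    refine ((irreducible_X_sub_C a).coprime_iff_not_dvd).2 ?_
    rw [dvd_iff_isRoot]
    exact ha
  · rw [(monic_X_sub_C a).natDegree_mul h.mon, natDegree_X_sub_C, h.deg, add_comm]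

theorem double_of_sq_dvd {c : L} {p : L[X]} (h : (X - C c) ^ 2 ∣ p) :
    p.eval c = 0 ∧ (derivative p).eval c = 0 := by
  obtain ⟨q, rfl⟩ := h
  constructor
  · simp
  · rw [derivative_mul, pow_two, derivative_mul]
    simp

theorem natDegree_der (f : L[X]) : (derivative f).natDegree ≤ f.natDegree - 1 :=
  natDegree_derivative_le f

/-- crude degree bound -/
theorem Dh_crude (f1 f2 p : L[X]) (k : ℕ) (hf1 : f1.natDegree ≤ k - 1)
    (hf2 : f2.natDegree ≤ k - 1) (hp : p.natDegree ≤ k - 1) :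
    (Dh f1 f2 p).natDegree ≤ 3 * (k - 1) := by
  have hd : ∀ f : L[X], f.natDegree ≤ k - 1 → (derivative f).natDegree ≤ k - 1 := fun f hf =>
    le_trans (natDegree_der f) (by omega)
  have hw : ∀ f g : L[X], f.natDegree ≤ k - 1 → g.natDegree ≤ k - 1 →
      (wr f g).natDegree ≤ 2 * (k - 1) := by
    intro f g hf hg
    refine le_trans (natDegree_sub_le _ _) (max_le ?_ ?_)
    · refine le_trans natDegree_mul_le ?_
      have := hd g hg
      omega
    · refine le_trans natDegree_mul_le ?_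
      have := hd f hf
      omega
  refine le_trans (natDegree_add_le _ _) (max_le (le_trans (natDegree_sub_le _ _) (max_le ?_ ?_))
    ?_)
  · refine le_trans natDegree_mul_le ?_
    have h1 := hw f1 f2 hf1 hf2
    have h2 := hd _ (hd p hp)
    omega
  · refine le_trans natDegree_mul_le ?_
    have h1 := hw f1 f2 hf1 hf2
    have h2 := natDegree_der (wr f1 f2)
    have h3 := hd p hp
    omega
  · refine le_trans natDegree_mul_le ?_
    have h1 := hw _ _ (hd f1 hf1) (hd f2 hf2)
    omega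

theorem sum_Dh {k : ℕ} (f1 f2 : L[X]) (s : Fin k → L) :
    Dh f1 f2 (∑ i, C (s i) * X ^ (i : ℕ)) = ∑ i, C (s i) * Dh f1 f2 (X ^ (i : ℕ)) := by
  have h : ∀ v, Dh f1 f2 v = DhLin f1 f2 v := fun _ => rfl
  rw [h, map_sum]
  refine Finset.sum_congr rfl (fun i _ => ?_)
  rw [← smul_eq_C_mul, map_smul, smul_eq_C_mul, h]

end LIF_

open LIF_ in
theorem lif_proof (hSUR : Stmt_SUR) (hHIN : Stmt_HIN) : Stmt_LIF := by
  classical
  intro L _ _ _ A f1 f2 a c k hk hA ha hf1 hf2 hw hc
  obtain ⟨m0, hm0⟩ := hSUR L A f1 f2 k hk hA hf1 hf2 hw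
  have hF := ff_mul hA ha
  set F : L[X] := (X - C a) * A with hFdef
  set g : ℕ := 2 * k - 4 + 1 with hg
  obtain ⟨-, -, hdvd, hdvd2, hint, -⟩ := hHIN L F g hF
  obtain ⟨χ, hχd, hχ⟩ := hint (by omega) (fun x => if x = c then 1 else 0) (fun _ => 0)
  have hF0 : F ≠ 0 := hF.mon.ne_zero
  have hχc : χ.eval c = 1 := by
    have := (hχ c hc).1
    simpa using this
  refine ⟨m0 + 3 * k + 2 * g, ?_⟩
  intro n hn s hs1 hs2
  -- products with χ are divisible by F^2
  have hprod : ∀ p : L[X], (X - C c) ^ 2 ∣ p → F ^ 2 ∣ χ * p := by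
    intro p hp
    obtain ⟨h1, h2⟩ := double_of_sq_dvd hp
    apply hdvd2
    intro c' hc'
    by_cases h : c' = c
    · subst h
      rw [derivative_mul]
      simp [h1, h2]
    · have h3 := hχ c' hc'
      simp only [if_neg h] at h3
      rw [derivative_mul]
      simp [h3.1, h3.2]
  obtain ⟨u0, hu0⟩ := hprod _ hs1
  obtain ⟨u1, hu1⟩ := hprod _ hs2
  set p : L[X] := ∑ i, C (s i) * X ^ (i : ℕ) with hp
  have hpd : p.natDegree ≤ k - 1 := by
    rw [hp]
    apply natDegree_sum_le_of_forall_le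
    intro i _
    refine le_trans (natDegree_C_mul_X_pow_le _ _) ?_
    have := i.2
    omega
  have hdeg : ∀ u q : L[X], χ * q = F ^ 2 * u → u.natDegree ≤ q.natDegree := by
    intro u q h
    by_cases hu : u = 0
    · rw [hu]; simp
    · have h1 : (F ^ 2 * u).natDegree = 2 * g + u.natDegree := by
        rw [(hF.mon.pow 2).natDegree_mul' hu, hF.mon.natDegree_pow, hF.deg]
      have h2 : (χ * q).natDegree ≤ 2 * g - 1 + q.natDegree :=
        le_trans natDegree_mul_le (Nat.add_le_add_right hχd _)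
      rw [h, h1] at h2
      omega
  have hd0 := hdeg u0 p hu0
  have hd1 := hdeg u1 _ hu1
  have hd1' := Dh_crude f1 f2 p k hf1 hf2 hpd
  obtain ⟨x, hxd, hx0, hx1⟩ := hm0 (n - 2 * g) (by omega) (-u0) (-u1)
    (by rw [natDegree_neg]; omega) (by rw [natDegree_neg]; omega)
  have hFc : ∀ c', F.eval c' = 0 → ∀ q : L[X], (F ^ 2 * q).eval c' = 0 := by
    intro c' hc' q
    simp [hc']
  refine ⟨fun i => C (s i) * χ + F ^ 2 * x i, ?_, ?_, ?_, ?_, ?_⟩
  · intro i
    refine mem_RF.2 ⟨?_, ?_⟩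
    · refine le_trans (natDegree_add_le _ _) (max_le ?_ ?_)
      · refine le_trans (natDegree_C_mul_le _ _) ?_
        omega
      · refine le_trans natDegree_mul_le ?_
        rw [hF.mon.natDegree_pow, hF.deg]
        have := hxd i
        omega
    · have h1 : F ∣ derivative χ := by
        apply hdvd
        intro c' hc'
        exact (hχ c' hc').2
      have h2 : derivative (C (s i) * χ + F ^ 2 * x i) = C (s i) * derivative χ
          + F * (2 * derivative F * x i + F * derivative (x i)) := by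
        rw [derivative_add, derivative_mul, derivative_mul, pow_two, derivative_mul, derivative_C]
        ring
      rw [h2]
      exact dvd_add (h1.mul_left _) (dvd_mul_right _ _)
  · intro i
    show (C (s i) * χ + F ^ 2 * x i).eval c = s i
    rw [eval_add, hFc c hc, eval_mul, eval_C, hχc]
    ring
  · intro i c' hc' hne
    show (C (s i) * χ + F ^ 2 * x i).eval c' = 0
    have h3 := (hχ c' hc').1
    simp only [if_neg hne] at h3
    rw [eval_add, hFc c' hc', eval_mul, eval_C, h3]
    ring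
  · have h1 : ∑ i : Fin k, (C (s i) * χ + F ^ 2 * x i) * X ^ (i : ℕ)
        = χ * p + F ^ 2 * ∑ i : Fin k, x i * X ^ (i : ℕ) := by
      rw [hp, Finset.mul_sum, Finset.mul_sum, ← Finset.sum_add_distrib]
      exact Finset.sum_congr rfl (fun i _ => by ring)
    rw [h1, hx0, hu0]
    ring
  · have h1 : ∑ i : Fin k, (C (s i) * χ + F ^ 2 * x i) * Dh f1 f2 (X ^ (i : ℕ))
        = χ * Dh f1 f2 p + F ^ 2 * ∑ i : Fin k, x i * Dh f1 f2 (X ^ (i : ℕ)) := by
      rw [hp, sum_Dh, Finset.mul_sum, Finset.mul_sum, ← Finset.sum_add_distrib]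
      exact Finset.sum_congr rfl (fun i _ => by ring)
    rw [h1, hx1, hu1]
    ring

end Pool.Agent.RTB
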