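import Pool.Agent.RTB.SStmts

/-!
# squad RTB, module LSA: structure of the pencil, first form
-/

set_option autoImplicit false

open Polynomial

namespace Pool.Agent.RTB

theorem LSA_.basis_of {L : Type} [Field L] (Lam : Submodule L L[X])
    (h : Module.finrank L Lam = 2) :
    ∃ f1 f2 : L[X], f1 ∈ Lam ∧ f2 ∈ Lam ∧ Lam = Submodule.span L {f1, f2} ∧
      f1 ≠ 0 ∧ ∀ c : L, f2 ≠ C c * f1 := by
  have : Module.Finite L Lam := Module.finite_of_finrank_pos (by omega)
  let b := Module.finBasisOfFinrankEq L Lam h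
  have hli := b.linearIndependent
  have hsp : Submodule.span L (Set.range b) = ⊤ := b.span_eq
  have hr : Set.range (fun i : Fin 2 => ((b i : Lam) : L[X])) = {((b 0 : Lam) : L[X]), ((b 1 : Lam) : L[X])} := by
    ext x
    simp only [Set.mem_range, Fin.exists_fin_two, Set.mem_insert_iff, Set.mem_singleton_iff]
    constructor
    · rintro (h | h)
      · exact Or.inl h.symm
      · exact Or.inr h.symm
    · rintro (h | h)
      · exact Or.inl h.symm
      · exact Or.inr h.symm
  refine ⟨(b 0 : Lam), (b 1 : Lam), (b 0).2, (b 1).2, ?_, ?_, ?_⟩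
  · rw [← hr]
    have h1 : Set.range (fun i : Fin 2 => ((b i : Lam) : L[X])) = Lam.subtype '' (Set.range b) := by
      rw [← Set.range_comp]; rfl
    rw [h1, Submodule.span_image, hsp, Submodule.map_subtype_top]
  · intro h0
    have : b 0 = 0 := Subtype.ext h0
    exact hli.ne_zero 0 this
  · intro c hc
    have h2 : b 1 = c • b 0 := by
      apply Subtype.ext
      rw [hc, Submodule.coe_smul, smul_eq_C_mul]
    have h3 := (LinearIndependent.pair_iff (R := L) (x := b 0) (y := b 1)).1 (by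
      have := hli
      have e : (b : Fin 2 → Lam) = ![b 0, b 1] := by
        funext i; fin_cases i <;> rfl
      rw [← e]; exact this)
    have h4 := h3 c (-1) (by rw [h2]; simp)
    exact absurd h4.2 (by simp)

theorem lsa_proof (hHIN : Stmt_HIN) (hWDG : Stmt_WDG) (hWZR : Stmt_WZR) : Stmt_LSA := by
  intro L _ _ _ F k Lam hk hF hfin hdeg htl
  obtain ⟨f1, f2, h1, h2, hsp, h10, h20⟩ := LSA_.basis_of Lam hfin
  have hw : wr f1 f2 ≠ 0 := by
    intro h0
    obtain ⟨c, hc⟩ := hWZR L f1 f2 h0 h10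
    exact h20 c hc
  obtain ⟨-, -, hdvd, -⟩ := hHIN L F (2 * k - 3) hF
  have hd : F ∣ wr f1 f2 := by
    apply hdvd
    intro c hc
    have := htl c hc f1 h1 f2 h2
    simp only [wr, eval_sub, eval_mul]
    rw [this, sub_self]
  obtain ⟨l, hl⟩ := hd
  have hl0 : l ≠ 0 := by
    rintro rfl
    rw [mul_zero] at hl
    exact hw hl
  have hF0 : F ≠ 0 := hF.mon.ne_zero
  have hdw := (hWDG L k f1 f2 0 (hdeg f1 h1) (hdeg f2 h2) (by simp)).1
  rw [hl, natDegree_mul hF0 hl0, hF.deg] at hdw
  exact ⟨f1, f2, l, ⟨hdeg f1 h1, hdeg f2 h2, hl, hl0, by omega⟩, hsp⟩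

end Pool.Agent.RTB
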