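import Pool.Agent.RTB.SStmts

/-!
# MP_7b271a_ag, squad RTB: LSB, structure of a two dimensional space, second form
-/

set_option autoImplicit false

open Polynomial

namespace Pool.Agent.RTB

namespace LSB_

theorem wr_smul_left {L : Type} [Field L] (c : L) (a b : L[X]) :
    wr (C c * a) b = C c * wr a b := by
  simp only [wr, derivative_mul, derivative_C, zero_mul, zero_add]
  ring

theorem exists_pair {L : Type} [Field L] (Lam : Submodule L L[X])
    (h : Module.finrank L Lam = 2) :
    ∃ f1 f2 : L[X], LinearIndependent L ![f1, f2] ∧ Lam = Submodule.span L {f1, f2} := by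
  have hfin : Module.Finite L Lam := Module.finite_of_finrank_pos (by omega)
  let b := Module.finBasisOfFinrankEq L Lam h
  refine ⟨(b 0 : L[X]), (b 1 : L[X]), ?_, ?_⟩
  · have h1 : LinearIndependent L (fun i => ((b i : Lam) : L[X])) :=
      b.linearIndependent.map' Lam.subtype (Submodule.ker_subtype Lam)
    have h2 : (fun i => ((b i : Lam) : L[X])) = ![(b 0 : L[X]), (b 1 : L[X])] := by
      funext i
      fin_cases i <;> rfl
    rw [← h2]
    exact h1
  · apply le_antisymm
    · intro x hx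
      have h3 := b.sum_repr ⟨x, hx⟩
      rw [Fin.sum_univ_two] at h3
      have h4 : x = b.repr ⟨x, hx⟩ 0 • (b 0 : L[X]) + b.repr ⟨x, hx⟩ 1 • (b 1 : L[X]) := by
        have h5 := congrArg (Subtype.val) h3
        simpa using h5.symm
      rw [h4]
      exact Submodule.mem_span_pair.2 ⟨_, _, rfl⟩
    · rw [Submodule.span_le]
      intro x hx
      rcases hx with rfl | hx
      · exact (b 0).2
      · rw [Set.mem_singleton_iff] at hx
        rw [hx]
        exact (b 1).2

end LSB_

open LSB_ in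
theorem lsb_proof (hHIN : Stmt_HIN) (hWDG : Stmt_WDG) (hWZR : Stmt_WZR) : Stmt_LSB := by
  intro L _ _ _ A k Lam hk hA hrk hdeg htl
  obtain ⟨f1, f2, hli, hspan⟩ := exists_pair Lam hrk
  have hm1 : f1 ∈ Lam := by
    rw [hspan]; exact Submodule.subset_span (Set.mem_insert _ _)
  have hm2 : f2 ∈ Lam := by
    rw [hspan]; exact Submodule.subset_span (Set.mem_insert_of_mem _ rfl)
  have hf1 : f1 ≠ 0 := by
    have := hli.ne_zero 0
    simpa using this
  have hw0 : wr f1 f2 ≠ 0 := by
    intro hw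
    obtain ⟨c, hc⟩ := hWZR L f1 f2 hw hf1
    rw [LinearIndependent.pair_iff] at hli
    have h1 := hli c (-1) (by rw [hc, smul_eq_C_mul]; simp)
    have h2 := h1.2
    simp at h2
  have hdvd : A ∣ wr f1 f2 := by
    refine (hHIN L A (2 * k - 4) hA).2.2.1 _ fun c hc => ?_
    have h1 := htl c hc f1 hm1 f2 hm2
    rw [wr, eval_sub, eval_mul, eval_mul, h1, sub_self]
  have hdw := (hWDG L (k - 1) f1 f2 f1 (hdeg f1 hm1) (hdeg f2 hm2) (hdeg f1 hm1)).1
  obtain ⟨q, hq⟩ := hdvd
  have hq0 : q ≠ 0 := by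
    rintro rfl
    exact hw0 (by rw [hq, mul_zero])
  have hA0 : A ≠ 0 := hA.mon.ne_zero
  have hqd : q.natDegree = 0 := by
    rw [hq, natDegree_mul hA0 hq0, hA.deg] at hdw
    omega
  obtain ⟨κ, hκ⟩ : ∃ κ : L, q = C κ := ⟨q.coeff 0, eq_C_of_natDegree_eq_zero hqd⟩
  have hκ0 : κ ≠ 0 := by
    rintro rfl
    exact hq0 (by rw [hκ, C_0])
  refine ⟨C κ⁻¹ * f1, f2, ?_, hdeg f2 hm2, ?_, ?_⟩
  · exact le_trans (natDegree_C_mul_le _ _) (hdeg f1 hm1)
  · rw [wr_smul_left, hq, hκ, mul_comm A, ← mul_assoc, ← C_mul, inv_mul_cancel₀ hκ0, C_1, one_mul]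
  · rw [hspan]
    apply le_antisymm
    · rw [Submodule.span_le]
      intro x hx
      rcases hx with rfl | hx
      · refine Submodule.mem_span_pair.2 ⟨κ, 0, ?_⟩
        rw [zero_smul, add_zero, smul_eq_C_mul, ← mul_assoc, ← C_mul, mul_inv_cancel₀ hκ0, C_1,
          one_mul]
      · rw [Set.mem_singleton_iff] at hx
        rw [hx]
        exact Submodule.subset_span (Set.mem_insert_of_mem _ rfl)
    · rw [Submodule.span_le]
      intro x hx
      rcases hx with rfl | hx
      · refine Submodule.mem_span_pair.2 ⟨κ⁻¹, 0, ?_⟩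
        rw [zero_smul, add_zero, smul_eq_C_mul]
      · rw [Set.mem_singleton_iff] at hx
        rw [hx]
        exact Submodule.subset_span (Set.mem_insert_of_mem _ rfl)

end Pool.Agent.RTB
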