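import Pool.Agent.RTB.SStmts

/-!
# squad RTB, module NUM
-/

set_option autoImplicit false

open Polynomial

namespace Pool.Agent.RTB

namespace NUM_

theorem main (k h h' δ δ' s s' : ℤ) (hk : 9 ≤ k) (hs : h + h' = k) (h2 : 2 ≤ h) (h1 : 1 ≤ h')
    (e1 : (h - 1) * (2 * k - 3 + h) + s ≤ h * δ)
    (e2 : (h' - 1) * (2 * k - 3 + h') + s' ≤ h' * δ')
    (hs0 : 0 ≤ s) (hs0' : 0 ≤ s') (d1 : δ ≤ 2 * k - 4) (d2 : δ + δ' ≤ 4 * k - 8) :
    h = 2 ∧ h' = k - 2 ∧ δ = k ∧ δ' = 3 * k - 8 ∧ s ≤ 1 ∧ s' ≤ 1 := by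
  have hp : h * h' ≤ 2 * k - 3 := by
    have a1 : h' * ((h - 1) * (2 * k - 3 + h)) ≤ h' * (h * δ) :=
      mul_le_mul_of_nonneg_left (by linarith) (by linarith)
    have a2 : h * ((h' - 1) * (2 * k - 3 + h')) ≤ h * (h' * δ') :=
      mul_le_mul_of_nonneg_left (by linarith) (by linarith)
    have a3 : h * h' * (δ + δ') ≤ h * h' * (4 * k - 8) :=
      mul_le_mul_of_nonneg_left d2 (by positivity)
    have a4 : k * (h * h') ≤ k * (2 * k - 3) := by
      subst hs
      nlinarith
    exact le_of_mul_le_mul_left a4 (by linarith)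
  have hh2 : h = 2 := by
    by_contra hne
    have h3 : 3 ≤ h := by omega
    have h4 : (h - 2) * (h' - 2) ≤ 1 := by nlinarith
    have e3 : (h - 1) * (2 * k - 3 + h) ≤ h * (2 * k - 4) := by
      have := mul_le_mul_of_nonneg_left d1 (show (0 : ℤ) ≤ h by linarith)
      linarith
    have h5 : h' ≤ 3 := by
      by_contra hc
      push Not at hc
      nlinarith
    have hh' : h' = 1 ∨ h' = 2 ∨ h' = 3 := by omega
    rcases hh' with rfl | rfl | rfl
    · obtain rfl : h = k - 1 := by linarith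
      nlinarith
    · obtain rfl : h = k - 2 := by linarith
      nlinarith
    · have : h ≤ 3 := by nlinarith
      omega
  subst hh2
  obtain rfl : h' = k - 2 := by linarith
  have b1 : k ≤ δ := by nlinarith
  have b2 : 3 * k - 8 ≤ δ' := by
    by_contra hc
    push Not at hc
    have : (k - 2) * δ' ≤ (k - 2) * (3 * k - 9) :=
      mul_le_mul_of_nonneg_left (by linarith) (by linarith)
    nlinarith
  have c1 : δ = k := by linarith
  have c2 : δ' = 3 * k - 8 := by linarith
  subst c1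
  subst c2
  refine ⟨rfl, rfl, rfl, rfl, ?_, ?_⟩
  · nlinarith
  · nlinarith

end NUM_

theorem num_proof : Stmt_NUM := by
  intro k h h' D D' s s' hk hs h2 h1 e1 e2 d1 d2
  have h1' : (1 : ℤ) ≤ h' := by exact_mod_cast h1
  zify [show 3 ≤ 2 * k by omega, show 1 ≤ h by omega, h1, show 4 ≤ 2 * k by omega,
    show 8 ≤ 4 * k by omega] at hk hs h2 e1 e2 d1 d2
  have := NUM_.main (k : ℤ) h h' (D + s) (D' + s') s s' hk hs h2 h1' (by nlinarith) (by nlinarith)
    (by positivity) (by positivity) d1 d2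
  obtain ⟨r1, r2, r3, r4, r5, r6⟩ := this
  refine ⟨by omega, by omega, by omega, by omega, by omega, by omega⟩

end Pool.Agent.RTB
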