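import Pool.Agent.RTB.SStmts

set_option autoImplicit false

open Polynomial

namespace Pool.Agent.RTB

namespace PLN_

variable {L : Type} [Field L]

/-- shift of a sequence -/
noncomputable def sh : (ℕ → L[X]) →ₗ[L] (ℕ → L[X]) where
  toFun W n := match n with
    | 0 => 0
    | n + 1 => W n
  map_add' x y := by funext n; cases n <;> simp
  map_smul' c x := by funext n; cases n <;> simp

@[simp] theorem sh_zero (W : ℕ → L[X]) : sh W 0 = 0 := rfl
@[simp] theorem sh_succ (W : ℕ → L[X]) (n : ℕ) : sh W (n + 1) = W n := rfl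

/-- coefficient sequence of `(x - t)^2 * u(x) * t^0` -/
noncomputable def V0 : L[X] →ₗ[L] (ℕ → L[X]) where
  toFun u n := if n = 0 then X ^ 2 * u else if n = 1 then -2 * X * u else if n = 2 then u else 0
  map_add' x y := by
    funext n
    simp only [Pi.add_apply]
    split_ifs <;> ring
  map_smul' c x := by
    funext n
    simp only [Pi.smul_apply, RingHom.id_apply, smul_eq_C_mul]
    split_ifs <;> ring

/-- coefficient sequence of `(x - t)^2 * u(x) * t^e` -/
noncomputable def VL (e : ℕ) : L[X] →ₗ[L] (ℕ → L[X]) := (sh ^ e) ∘ₗ V0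

theorem VL_zero (u : L[X]) : VL 0 u = V0 u := by simp [VL]

theorem VL_succ (e : ℕ) (u : L[X]) : VL (e + 1) u = sh (VL e u) := by
  simp only [VL, LinearMap.comp_apply, pow_succ', Module.End.mul_apply]

theorem lemD (m : ℕ) : ∀ (N : ℕ) (T : Submodule L (ℕ → L[X])) (W : ℕ → L[X]),
    (∀ e u, e + 2 ≤ N → u.natDegree + 2 ≤ m → VL e u ∈ T) →
    (∀ n, N < n → W n = 0) → (∀ n, (W n).natDegree ≤ m) →
    ∑ n ∈ Finset.range (N + 1), W n * X ^ n = 0 →
    ∑ n ∈ Finset.range (N + 1), (n : L[X]) * W n * X ^ n = 0 → W ∈ T := by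
  intro N
  induction N with
  | zero =>
    intro T W _ h0 _ h1 _
    have hW : W = 0 := by
      funext n
      rcases Nat.eq_zero_or_pos n with rfl | hn
      · simpa using h1
      · exact h0 n hn
    rw [hW]; exact T.zero_mem
  | succ N ih =>
    intro T W hT h0 hd h1 h2
    set U : L[X] := ∑ n ∈ Finset.range N, ((n + 1 : ℕ) : L[X]) * W (n + 2) * X ^ n with hU
    have e1 : ∑ n ∈ Finset.range (N + 1 + 1), W n * X ^ n
        = (∑ n ∈ Finset.range N, W (n + 2) * X ^ (n + 2)) + W 1 * X + W 0 := by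
      rw [Finset.sum_range_succ', Finset.sum_range_succ']; simp
    have e2 : ∑ n ∈ Finset.range (N + 1 + 1), (n : L[X]) * W n * X ^ n
        = (∑ n ∈ Finset.range N, ((n + 2 : ℕ) : L[X]) * W (n + 2) * X ^ (n + 2)) + W 1 * X := by
      rw [Finset.sum_range_succ', Finset.sum_range_succ']
      simp only [Nat.cast_zero, zero_mul, add_zero, zero_add, Nat.cast_one, one_mul, pow_one]
    rw [e1] at h1
    rw [e2] at h2
    have e3 : X ^ 2 * U = (∑ n ∈ Finset.range N, ((n + 2 : ℕ) : L[X]) * W (n + 2) * X ^ (n + 2))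
        - ∑ n ∈ Finset.range N, W (n + 2) * X ^ (n + 2) := by
      rw [hU, Finset.mul_sum, ← Finset.sum_sub_distrib]
      refine Finset.sum_congr rfl fun n _ => ?_
      push_cast
      ring
    have hW0 : W 0 = X ^ 2 * U := by
      rw [e3]
      linear_combination h1 - h2
    have hUd : U = 0 ∨ U.natDegree + 2 ≤ m := by
      by_cases hz : U = 0
      · exact Or.inl hz
      · right
        have := hd 0
        rw [hW0, mul_comm, natDegree_mul_X_pow 2 hz] at this
        exact this
    have hXU : (2 * X * U).natDegree ≤ m := by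
      rcases hUd with h | h
      · simp [h]
      · refine (natDegree_mul_le).trans ?_
        have : (2 * X : L[X]).natDegree ≤ 1 := by
          have h3 : (2 : L[X]) * X = C 2 * X := by rw [map_ofNat]
          rw [h3]; exact (natDegree_C_mul_le _ _).trans natDegree_X_le
        omega
    have hUd' : U.natDegree ≤ m := by
      rcases hUd with h | h
      · simp [h]
      · omega
    set W' : ℕ → L[X] := fun n => if n = 0 then W 1 + 2 * X * U else if n = 1 then W 2 - U
      else W (n + 1) with hW'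
    have hN0 : N = 0 → U = 0 := by
      rintro rfl; simp [hU]
    have key : W = V0 U + sh W' := by
      funext n
      rcases n with _ | _ | _ | n
      · simp [V0, hW0]
      · simp [V0, hW']
      · simp [V0, hW']
      · simp [V0, hW']
    have hsh : W' ∈ T.comap sh := by
      apply ih
      · intro e u he hu
        rw [Submodule.mem_comap, ← VL_succ]
        exact hT _ _ (by omega) hu
      · intro n hn
        rcases n with _ | _ | n
        · omega
        · have : N = 0 := by omega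
          simp [hW', hN0 this, h0 2 (by omega)]
        · simp only [hW']
          simpa using h0 (n + 3) (by omega)
      · intro n
        rcases n with _ | _ | n
        · simp only [hW', if_true]
          exact (natDegree_add_le _ _).trans (max_le (hd 1) hXU)
        · simp only [hW']
          simpa using (natDegree_sub_le _ _).trans (max_le (hd 2) hUd')
        · simp only [hW']
          simpa using hd (n + 3)
      · have hx : X * ∑ n ∈ Finset.range (N + 1), W' n * X ^ n = 0 := by
          have : X * ∑ n ∈ Finset.range (N + 1), W' n * X ^ n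
            = (∑ n ∈ Finset.range N, W (n + 2) * X ^ (n + 2)) + W 1 * X + 2 * X ^ 2 * U - X ^ 2 * U := by
            rcases N with _ | N
            · simp [hW', hN0 rfl]; ring
            · rw [Finset.sum_range_succ', Finset.sum_range_succ', Finset.sum_range_succ' _ N]
              simp only [hW']
              simp [mul_add, Finset.mul_sum]
              have : ∀ n ∈ Finset.range N, X * (W (n + 1 + 1 + 1) * X ^ (n + 1 + 1))
                = W (n + 1 + 2) * X ^ (n + 1 + 2) := by
                intro n _; ring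
              rw [Finset.sum_congr rfl this]
              ring
          rw [this]
          linear_combination h1 - hW0
        exact (mul_eq_zero.mp hx).resolve_left X_ne_zero
      · have hx : X * ∑ n ∈ Finset.range (N + 1), (n : L[X]) * W' n * X ^ n = 0 := by
          have : X * ∑ n ∈ Finset.range (N + 1), (n : L[X]) * W' n * X ^ n
            = (∑ n ∈ Finset.range N, ((n + 2 : ℕ) : L[X]) * W (n + 2) * X ^ (n + 2))
              - (∑ n ∈ Finset.range N, W (n + 2) * X ^ (n + 2)) - X ^ 2 * U := by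
            rcases N with _ | N
            · simp [hN0 rfl]
            · rw [Finset.sum_range_succ', Finset.sum_range_succ', Finset.sum_range_succ' _ N,
                Finset.sum_range_succ' _ N]
              simp only [hW']
              simp [mul_add, Finset.mul_sum]
              have : ∀ n ∈ Finset.range N, X * (((n : L[X]) + 1 + 1) * W (n + 1 + 1 + 1) * X ^ (n + 1 + 1))
                = ((n : L[X]) + 1 + 2) * W (n + 1 + 2) * X ^ (n + 1 + 2)
                  - W (n + 1 + 2) * X ^ (n + 1 + 2) := by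
                intro n _; ring
              rw [Finset.sum_congr rfl this, Finset.sum_sub_distrib]
              ring
          rw [this, ← e3]; ring
        exact (mul_eq_zero.mp hx).resolve_left X_ne_zero
    rw [key]
    refine T.add_mem ?_ hsh
    rcases hUd with h | h
    · rw [h, map_zero]; exact T.zero_mem
    · rcases Nat.eq_zero_or_pos N with h' | h'
      · rw [hN0 h', map_zero]; exact T.zero_mem
      · rw [← VL_zero]; exact hT 0 U (by omega) h


/-- sums of the entries of `ρ` with weights `j - i` on the antidiagonals -/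
noncomputable def Psi (k : ℕ) : (Fin k → Fin k → L[X]) →ₗ[L] (ℕ → L[X]) where
  toFun ρ n := ∑ i : Fin k, ∑ j : Fin k,
    if (i : ℕ) + j = n + 1 then C (((j : ℕ) : L) - ((i : ℕ) : L)) * ρ i j else 0
  map_add' x y := by
    funext n
    simp only [Pi.add_apply, ← Finset.sum_add_distrib]
    refine Finset.sum_congr rfl fun i _ => Finset.sum_congr rfl fun j _ => ?_
    split_ifs <;> ring
  map_smul' c x := by
    funext n
    simp only [Pi.smul_apply, RingHom.id_apply, Finset.smul_sum]
    refine Finset.sum_congr rfl fun i _ => Finset.sum_congr rfl fun j _ => ?_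
    split_ifs
    · simp only [smul_eq_C_mul]; ring
    · simp

theorem Psi_apply (k : ℕ) (ρ : Fin k → Fin k → L[X]) (n : ℕ) :
    Psi k ρ n = ∑ i : Fin k, ∑ j : Fin k,
      if (i : ℕ) + j = n + 1 then C (((j : ℕ) : L) - ((i : ℕ) : L)) * ρ i j else 0 := rfl

theorem wr_X_pow (i j n : ℕ) (h : i + j = n + 1) :
    wr (X ^ i : L[X]) (X ^ j) = C ((j : L) - (i : L)) * X ^ n := by
  rcases i with _ | i
  · have : j = n + 1 := by omega
    subst this
    simp [wr]
  · rcases j with _ | j
    · have : i = n := by omega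
      subst this
      simp [wr]
      ring
    · have : n = i + j + 1 := by omega
      subst this
      simp only [wr, derivative_X_pow, Nat.add_sub_cancel, map_sub, Nat.cast_add, Nat.cast_one,
        map_add, map_natCast, map_one]
      ring

theorem muX_eq (f1 f2 : L[X]) (i j n : ℕ) (h : i + j = n + 1) :
    muX f1 f2 i j = C ((j : L) - (i : L)) * wr (wr f1 f2) (X ^ n) := by
  rw [muX, key_uv, wr_X_pow i j n h]
  simp only [wr, derivative_mul, derivative_C]
  ring

theorem muX_self (f1 f2 : L[X]) (i : ℕ) : muX f1 f2 i i = 0 := by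
  rw [muX]; ring

theorem sum_muX (f1 f2 : L[X]) (k : ℕ) (hk : 2 ≤ k) (ρ : Fin k → Fin k → L[X]) :
    ∑ i, ∑ j, ρ i j * muX f1 f2 i j
      = ∑ n ∈ Finset.range (2 * k - 3), Psi k ρ n * wr (wr f1 f2) (X ^ n) := by
  have h1 : ∀ n ∈ Finset.range (2 * k - 3), Psi k ρ n * wr (wr f1 f2) (X ^ n)
      = ∑ i : Fin k, ∑ j : Fin k, (if (i : ℕ) + j = n + 1 then
        C (((j : ℕ) : L) - ((i : ℕ) : L)) * ρ i j * wr (wr f1 f2) (X ^ n) else 0) := by
    intro n _
    rw [Psi_apply, Finset.sum_mul]
    refine Finset.sum_congr rfl fun i _ => ?_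
    rw [Finset.sum_mul]
    refine Finset.sum_congr rfl fun j _ => ?_
    split_ifs <;> simp
  rw [Finset.sum_congr rfl h1]
  conv_rhs => rw [Finset.sum_comm]
  refine Finset.sum_congr rfl fun i _ => ?_
  conv_rhs => rw [Finset.sum_comm]
  refine Finset.sum_congr rfl fun j _ => ?_
  by_cases hij : (i : ℕ) = j
  · have hij' : i = j := Fin.ext hij
    subst hij'
    rw [muX_self, mul_zero]
    symm
    apply Finset.sum_eq_zero
    intro n _
    split_ifs <;> simp
  · have hi := i.2
    have hj := j.2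
    rw [Finset.sum_eq_single ((i : ℕ) + j - 1)]
    · rw [if_pos (by omega), muX_eq f1 f2 i j ((i : ℕ) + j - 1) (by omega)]
      ring
    · intro n _ hn
      rw [if_neg (by omega)]
    · intro hn
      exfalso
      apply hn
      rw [Finset.mem_range]
      omega

theorem Psi_C (k : ℕ) (κ : Fin k → Fin k → L) (q : L[X]) (n : ℕ) :
    Psi k (fun i j => C (κ i j) * q) n = C (∑ i : Fin k, ∑ j : Fin k,
      if (i : ℕ) + j = n + 1 then (((j : ℕ) : L) - ((i : ℕ) : L)) * κ i j else 0) * q := by
  rw [Psi_apply, map_sum, Finset.sum_mul]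
  refine Finset.sum_congr rfl fun i _ => ?_
  rw [map_sum, Finset.sum_mul]
  refine Finset.sum_congr rfl fun j _ => ?_
  split_ifs
  · rw [map_mul]; ring
  · simp

theorem Psi_coeff (k : ℕ) (ρ : Fin k → Fin k → L[X]) (n p : ℕ) :
    (Psi k ρ n).coeff p = ∑ i : Fin k, ∑ j : Fin k,
      if (i : ℕ) + j = n + 1 then (((j : ℕ) : L) - ((i : ℕ) : L)) * (ρ i j).coeff p else 0 := by
  rw [Psi_apply, finsetSum_coeff]
  refine Finset.sum_congr rfl fun i _ => ?_
  rw [finsetSum_coeff]
  refine Finset.sum_congr rfl fun j _ => ?_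
  split_ifs
  · rw [coeff_C_mul]
  · simp

/-- the first kind of generators -/
def G1 (f1 f2 : L[X]) (k m : ℕ) : Set (Fin k → Fin k → L[X]) :=
  {M : Fin k → Fin k → L[X] | ∃ p : L[X], p.natDegree ≤ m ∧ ∃ κ : Fin k → Fin k → L,
      ∑ i, ∑ j, C (κ i j) * muX f1 f2 i j = 0 ∧ M = fun i j => C (κ i j) * p}

/-- the second kind of generators -/
def G2 (f1 f2 : L[X]) (k m : ℕ) : Set (Fin k → Fin k → L[X]) :=
  {M | ∃ s : Fin k → L[X], (∀ i, (s i).natDegree ≤ m) ∧ ∑ i, s i * X ^ (i : ℕ) = 0 ∧
      ∑ i, s i * Dh f1 f2 (X ^ (i : ℕ)) = 0 ∧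
      ∃ j0 : Fin k, M = fun i j => if j = j0 then s i else 0}

theorem deg_span (f1 f2 : L[X]) (k m : ℕ) (ρ : Fin k → Fin k → L[X])
    (h : ρ ∈ Submodule.span L (G1 f1 f2 k m ∪ G2 f1 f2 k m)) (i j : Fin k) :
    (ρ i j).natDegree ≤ m := by
  induction h using Submodule.span_induction with
  | mem x hx =>
    rcases hx with ⟨p, hp, κ, _, rfl⟩ | ⟨s, hs, _, _, j0, rfl⟩
    · exact (natDegree_C_mul_le _ _).trans hp
    · simp only
      split_ifs
      · exact hs i
      · simp
  | zero => simp
  | add x y _ _ hx hy => exact (natDegree_add_le _ _).trans (max_le hx hy)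
  | smul a x _ hx => exact (natDegree_smul_le _ _).trans hx

theorem ker_mem (f1 f2 : L[X]) (k m : ℕ) (hk : 2 ≤ k) (ρ : Fin k → Fin k → L[X])
    (hd : ∀ i j, (ρ i j).natDegree ≤ m) (h : Psi k ρ = 0) :
    ρ ∈ Submodule.span L (G1 f1 f2 k m ∪ G2 f1 f2 k m) := by
  have h1 : ρ = ∑ p ∈ Finset.range (m + 1), (fun i j => C ((ρ i j).coeff p) * X ^ p) := by
    funext i j
    rw [Finset.sum_apply, Finset.sum_apply]
    exact (ρ i j).as_sum_range_C_mul_X_pow' (Nat.lt_succ_of_le (hd i j))
  rw [h1]
  refine Submodule.sum_mem _ fun p hp => Submodule.subset_span (Or.inl ?_)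
  refine ⟨X ^ p, ?_, fun i j => (ρ i j).coeff p, ?_, rfl⟩
  · rw [natDegree_X_pow]
    exact Nat.lt_succ_iff.mp (Finset.mem_range.mp hp)
  · rw [sum_muX f1 f2 k hk (fun i j => C ((ρ i j).coeff p))]
    apply Finset.sum_eq_zero
    intro n _
    have h2 : Psi k (fun i j => C ((ρ i j).coeff p)) n = 0 := by
      have := Psi_C k (fun i j => (ρ i j).coeff p) 1 n
      simp only [mul_one] at this
      rw [this, ← Psi_coeff, h]
      simp
    rw [h2, zero_mul]

/-- reduction to sequences -/
theorem mem_of_Psi (f1 f2 : L[X]) (k m : ℕ) (hk : 2 ≤ k) (ρ : Fin k → Fin k → L[X])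
    (hd : ∀ i j, (ρ i j).natDegree ≤ m)
    (h : Psi k ρ ∈ (Submodule.span L (G1 f1 f2 k m ∪ G2 f1 f2 k m)).map (Psi k)) :
    ρ ∈ Submodule.span L (G1 f1 f2 k m ∪ G2 f1 f2 k m) := by
  obtain ⟨σ, hσ, he⟩ := h
  have h1 : ρ - σ ∈ Submodule.span L (G1 f1 f2 k m ∪ G2 f1 f2 k m) := by
    apply ker_mem f1 f2 k m hk
    · intro i j
      exact (natDegree_sub_le _ _).trans (max_le (hd i j) (deg_span f1 f2 k m σ hσ i j))
    · rw [map_sub, he, sub_self]
  have := Submodule.add_mem _ h1 hσ
  rwa [sub_add_cancel] at this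

theorem VL_apply (e : ℕ) (u : L[X]) (n : ℕ) :
    VL e u n = if n = e then X ^ 2 * u else if n = e + 1 then -2 * X * u
      else if n = e + 2 then u else 0 := by
  induction e generalizing n with
  | zero => rw [VL_zero]; rfl
  | succ e ih =>
    rw [VL_succ]
    rcases n with _ | n
    · simp
    · rw [sh_succ, ih]
      simp only [Nat.add_right_cancel_iff, show e + 1 + 2 = e + 2 + 1 from rfl]

theorem sum_single {k : ℕ} (a : ℕ) (ha : a < k) (c : L[X]) (g : ℕ → L[X]) :
    ∑ l : Fin k, (if (l : ℕ) = a then c else 0) * g l = c * g a := by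
  rw [Finset.sum_eq_single (⟨a, ha⟩ : Fin k)]
  · simp
  · intro b _ hb
    rw [if_neg, zero_mul]
    intro h
    exact hb (Fin.ext h)
  · intro h
    exact absurd (Finset.mem_univ _) h

theorem comm3 (f1 f2 v : L[X]) :
    X ^ 3 * Dh f1 f2 v - 3 * X ^ 2 * Dh f1 f2 (X * v) + 3 * X * Dh f1 f2 (X ^ 2 * v)
      - Dh f1 f2 (X ^ 3 * v) = 0 := by
  have d1 : ∀ a : L[X], derivative (X * a) = a + X * derivative a := fun a => by
    rw [derivative_mul, derivative_X]; ring
  have d2 : ∀ a : L[X], derivative (X ^ 2 * a) = 2 * (X * a) + X ^ 2 * derivative a := fun a => by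
    rw [pow_two, mul_assoc, d1, d1]; ring
  have d3 : ∀ a : L[X], derivative (X ^ 3 * a) = 3 * (X ^ 2 * a) + X ^ 3 * derivative a :=
    fun a => by rw [pow_succ', mul_assoc, d1, d2]; ring
  have e2 : derivative (2 : L[X]) = 0 := by simp
  have e3 : derivative (3 : L[X]) = 0 := by simp
  have dd1 : ∀ a : L[X], derivative (derivative (X * a))
      = 2 * derivative a + X * derivative (derivative a) := fun a => by
    rw [d1, derivative_add, d1]; ring
  have dd2 : ∀ a : L[X], derivative (derivative (X ^ 2 * a))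
      = 2 * a + 4 * (X * derivative a) + X ^ 2 * derivative (derivative a) := fun a => by
    rw [d2, derivative_add, derivative_mul, e2, d1, d2]; ring
  have dd3 : ∀ a : L[X], derivative (derivative (X ^ 3 * a))
      = 6 * (X * a) + 6 * (X ^ 2 * derivative a) + X ^ 3 * derivative (derivative a) :=
    fun a => by rw [d3, derivative_add, derivative_mul, e3, d2, d3]; ring
  simp only [Dh, dd1, dd2, dd3]
  simp only [d1, d2, d3]
  ring

/-- the coefficients of `(x - t)^3 x^p t^i0` -/
noncomputable def sc (k i0 p : ℕ) : Fin k → L[X] := fun l =>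
  (if (l : ℕ) = i0 then X ^ (p + 3) else 0) + (if (l : ℕ) = i0 + 1 then -3 * X ^ (p + 2) else 0)
  + (if (l : ℕ) = i0 + 2 then 3 * X ^ (p + 1) else 0) + (if (l : ℕ) = i0 + 3 then -X ^ p else 0)

theorem sum_sc {k i0 p : ℕ} (h : i0 + 4 ≤ k) (g : ℕ → L[X]) :
    ∑ l : Fin k, sc k i0 p l * g l = X ^ (p + 3) * g i0 + (-3 * X ^ (p + 2)) * g (i0 + 1)
      + (3 * X ^ (p + 1)) * g (i0 + 2) + (-X ^ p) * g (i0 + 3) := by
  simp only [sc, add_mul, Finset.sum_add_distrib]
  rw [sum_single i0 (by omega), sum_single (i0 + 1) (by omega), sum_single (i0 + 2) (by omega),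
    sum_single (i0 + 3) (by omega)]

theorem second_mem (f1 f2 : L[X]) {k m i0 j0 p : ℕ} (h : i0 + 4 ≤ k) (hj : j0 < k)
    (hp : p + 3 ≤ m) :
    (fun n => (if i0 + j0 = n + 1 then C ((j0 : L) - (i0 : L)) * X ^ (p + 3) else 0)
      + (if i0 + 1 + j0 = n + 1 then C ((j0 : L) - ((i0 + 1 : ℕ) : L)) * (-3 * X ^ (p + 2)) else 0)
      + (if i0 + 2 + j0 = n + 1 then C ((j0 : L) - ((i0 + 2 : ℕ) : L)) * (3 * X ^ (p + 1)) else 0)
      + (if i0 + 3 + j0 = n + 1 then C ((j0 : L) - ((i0 + 3 : ℕ) : L)) * (-X ^ p) else 0))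
      ∈ (Submodule.span L (G1 f1 f2 k m ∪ G2 f1 f2 k m)).map (Psi k) := by
  have hdeg : ∀ (q : L[X]) (a : L) (r : ℕ), r ≤ m → q = C a * X ^ r → q.natDegree ≤ m := by
    rintro q a r hr rfl
    exact (natDegree_C_mul_X_pow_le a r).trans hr
  refine ⟨fun i j => if j = ⟨j0, hj⟩ then sc k i0 p i else 0,
    Submodule.subset_span (Or.inr ⟨sc k i0 p, ?_, ?_, ?_, ⟨j0, hj⟩, rfl⟩), ?_⟩
  · intro i
    simp only [sc]
    have h0 : (0 : L[X]).natDegree ≤ m := by simp
    refine (natDegree_add_le _ _).trans (max_le ((natDegree_add_le _ _).trans (max_le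
      ((natDegree_add_le _ _).trans (max_le ?_ ?_)) ?_)) ?_)
    · split_ifs
      · exact hdeg _ 1 (p + 3) hp (by simp)
      · exact h0
    · split_ifs
      · exact hdeg _ (-3) (p + 2) (by omega) (by rw [map_neg, map_ofNat])
      · exact h0
    · split_ifs
      · exact hdeg _ 3 (p + 1) (by omega) (by rw [map_ofNat])
      · exact h0
    · split_ifs
      · exact hdeg _ (-1) p (by omega) (by simp)
      · exact h0
  · rw [sum_sc h (fun l => X ^ l)]
    ring
  · rw [sum_sc h (fun l => Dh f1 f2 (X ^ l))]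
    have := comm3 f1 f2 (X ^ i0 : L[X])
    rw [show (X : L[X]) * X ^ i0 = X ^ (i0 + 1) by ring, show (X : L[X]) ^ 2 * X ^ i0 = X ^ (i0 + 2) by ring,
      show (X : L[X]) ^ 3 * X ^ i0 = X ^ (i0 + 3) by ring] at this
    linear_combination X ^ p * this
  · funext n
    rw [Psi_apply]
    have h1 : ∀ i : Fin k, ∑ j : Fin k, (if (i : ℕ) + j = n + 1 then
        C (((j : ℕ) : L) - ((i : ℕ) : L)) * (if j = ⟨j0, hj⟩ then sc k i0 p i else 0) else 0)
        = sc k i0 p i * (fun l : ℕ => if l + j0 = n + 1 then C ((j0 : L) - (l : L)) else 0) i := by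
      intro i
      rw [Finset.sum_eq_single (⟨j0, hj⟩ : Fin k)]
      · simp only [if_true]
        split_ifs
        · ring
        · ring
      · intro b _ hb
        rw [if_neg hb]; simp
      · intro h; exact absurd (Finset.mem_univ _) h
    rw [Finset.sum_congr rfl fun i _ => h1 i, sum_sc h
      (fun l : ℕ => if l + j0 = n + 1 then C ((j0 : L) - (l : L)) else 0)]
    simp only [mul_ite, mul_zero]
    congr 1
    · congr 1
      · congr 1
        · split_ifs
          · ring
          · rfl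
        · split_ifs
          · ring
          · rfl
      · split_ifs
        · ring
        · rfl
    · split_ifs
      · ring
      · rfl

theorem second_mem_pos (f1 f2 : L[X]) {k m i0 j0 p n0 : ℕ} (h : i0 + 4 ≤ k) (hj : j0 < k)
    (hp : p + 3 ≤ m) (hn : i0 + j0 = n0 + 1) (d : L) (hd : d = (j0 : L) - (i0 : L)) :
    d • VL n0 (X ^ (p + 1)) + (3 - d) • VL (n0 + 1) (X ^ p)
      ∈ (Submodule.span L (G1 f1 f2 k m ∪ G2 f1 f2 k m)).map (Psi k) := by
  have h1 := second_mem f1 f2 h hj hp
  convert h1 using 1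
  funext n
  simp only [Pi.add_apply, Pi.smul_apply, VL_apply, smul_eq_C_mul]
  have e0 : (i0 + j0 = n + 1) ↔ n = n0 := by omega
  have e1 : (i0 + 1 + j0 = n + 1) ↔ n = n0 + 1 := by omega
  have e2 : (i0 + 2 + j0 = n + 1) ↔ n = n0 + 2 := by omega
  have e3 : (i0 + 3 + j0 = n + 1) ↔ n = n0 + 3 := by omega
  simp only [e0, e1, e2, e3, show n0 + 1 + 1 = n0 + 2 from rfl, show n0 + 1 + 2 = n0 + 3 from rfl]
  have c3 : (C (3 : L) : L[X]) = 3 := by rw [map_ofNat]
  have c2 : (C (2 : L) : L[X]) = 2 := by rw [map_ofNat]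
  have c1 : (C (1 : L) : L[X]) = 1 := C_1
  rw [← hd]
  have f1' : (j0 : L) - ((i0 + 1 : ℕ) : L) = d - 1 := by rw [hd]; push_cast; ring
  have f2' : (j0 : L) - ((i0 + 2 : ℕ) : L) = d - 2 := by rw [hd]; push_cast; ring
  have f3' : (j0 : L) - ((i0 + 3 : ℕ) : L) = d - 3 := by rw [hd]; push_cast; ring
  rw [f1', f2', f3']
  simp only [map_sub, c1, c2, c3]
  by_cases h0 : n = n0
  · subst h0
    have n1 : ¬ (n = n + 1) := by omega
    have n2 : ¬ (n = n + 2) := by omega
    have n3 : ¬ (n = n + 3) := by omega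
    simp only [if_true, n1, n2, n3, if_false]
    ring
  · by_cases h1 : n = n0 + 1
    · subst h1
      simp
      ring
    · by_cases h2 : n = n0 + 2
      · subst h2
        simp
        ring
      · by_cases h3 : n = n0 + 3
        · subst h3
          simp
          ring
        · simp [h0, h1, h2, h3]

theorem second_mem_zero (f1 f2 : L[X]) {k m p : ℕ} (h : 4 ≤ k) (hp : p + 3 ≤ m) :
    (3 : L) • VL 0 (X ^ p)
      ∈ (Submodule.span L (G1 f1 f2 k m ∪ G2 f1 f2 k m)).map (Psi k) := by
  have h1 := second_mem f1 f2 (k := k) (i0 := 0) (j0 := 0) (p := p) (m := m) (by omega) (by omega) hp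
  convert h1 using 1
  funext n
  simp only [Pi.smul_apply, VL_apply, smul_eq_C_mul]
  have e0 : ¬ (0 + 0 = n + 1) := by omega
  have e1 : (0 + 1 + 0 = n + 1) ↔ n = 0 := by omega
  have e2 : (0 + 2 + 0 = n + 1) ↔ n = 1 := by omega
  have e3 : (0 + 3 + 0 = n + 1) ↔ n = 2 := by omega
  simp only [e0, e1, e2, e3, if_false]
  have c3 : (C (3 : L) : L[X]) = 3 := by rw [map_ofNat]
  have c2 : (C (2 : L) : L[X]) = 2 := by rw [map_ofNat]
  rcases n with _ | _ | _ | n
  · have n1 : ¬ (0 = 1) := by omega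
    have n2 : ¬ (0 = 2) := by omega
    simp only [if_true, n1, n2, if_false, c3]
    simp only [Nat.cast_zero, Nat.cast_one, zero_add, zero_sub, map_neg, map_one]
    ring
  · simp [c3, c2]
    ring
  · simp
  · simp

theorem VL_mem [CharZero L] (f1 f2 : L[X]) {k m p e : ℕ} (hk : 9 ≤ k) (hm : 3 ≤ m) (hp : p + 2 ≤ m)
    (he : e + 6 ≤ 2 * k) :
    VL e (X ^ p) ∈ (Submodule.span L (G1 f1 f2 k m ∪ G2 f1 f2 k m)).map (Psi k) := by
  set T := (Submodule.span L (G1 f1 f2 k m ∪ G2 f1 f2 k m)).map (Psi k) with hT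
  have three : (3 : L) ≠ 0 := by norm_num
  have two : (2 : L) ≠ 0 := by norm_num
  -- the step with two different pairs
  have step : ∀ n0 p' : ℕ, p' + 3 ≤ m → n0 + 1 + 6 ≤ 2 * k →
      VL n0 (X ^ (p' + 1)) ∈ T ∧ VL (n0 + 1) (X ^ p') ∈ T := by
    intro n0 p' hp' hn0
    obtain ⟨i0, j0, hi, hj, hs⟩ : ∃ i0 j0, i0 + 1 + 4 ≤ k ∧ j0 + 1 < k ∧ i0 + (j0 + 1) = n0 + 1 := by
      by_cases hc : n0 + 1 < k
      · exact ⟨0, n0, by omega, by omega, by omega⟩
      · exact ⟨n0 + 2 - k, k - 2, by omega, by omega, by omega⟩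
    set d : L := ((j0 + 1 : ℕ) : L) - (i0 : L) with hd
    have m1 := second_mem_pos f1 f2 (k := k) (m := m) (i0 := i0) (j0 := j0 + 1) (p := p')
      (n0 := n0) (by omega) (by omega) hp' hs d hd
    have m2 := second_mem_pos f1 f2 (k := k) (m := m) (i0 := i0 + 1) (j0 := j0) (p := p')
      (n0 := n0) (by omega) (by omega) hp' (by omega) (d - 2) (by rw [hd]; push_cast; ring)
    set v := VL n0 (X ^ (p' + 1) : L[X])
    set v' := VL (n0 + 1) (X ^ p' : L[X])
    have m3 : v - v' ∈ T := by
      have := T.smul_mem (2 : L)⁻¹ (T.sub_mem m1 m2)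
      have e : (2 : L)⁻¹ • (d • v + (3 - d) • v' - ((d - 2) • v + (3 - (d - 2)) • v')) = v - v' := by
        have : d • v + (3 - d) • v' - ((d - 2) • v + (3 - (d - 2)) • v') = (2 : L) • (v - v') := by
          module
        rw [this, smul_smul, inv_mul_cancel₀ two, one_smul]
      rwa [e] at this
    have m4 : v' ∈ T := by
      have := T.smul_mem (3 : L)⁻¹ (T.sub_mem m1 (T.smul_mem d m3))
      have e : (3 : L)⁻¹ • (d • v + (3 - d) • v' - d • (v - v')) = v' := by
        have : d • v + (3 - d) • v' - d • (v - v') = (3 : L) • v' := by module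
        rw [this, smul_smul, inv_mul_cancel₀ three, one_smul]
      rwa [e] at this
    refine ⟨?_, m4⟩
    have := T.add_mem m3 m4
    rwa [sub_add_cancel] at this
  by_cases hp3 : p + 3 ≤ m
  · rcases e with _ | e
    · have := T.smul_mem (3 : L)⁻¹ (second_mem_zero f1 f2 (k := k) (m := m) (p := p) (by omega) hp3)
      rwa [smul_smul, inv_mul_cancel₀ three, one_smul] at this
    · exact (step e p hp3 (by omega)).2
  · obtain ⟨p', rfl⟩ : ∃ p', p = p' + 1 := ⟨p - 1, by omega⟩
    by_cases hee : e + 1 + 6 ≤ 2 * k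
    · exact (step e p' (by omega) hee).1
    · have := second_mem_pos f1 f2 (k := k) (m := m) (i0 := k - 4) (j0 := k - 1) (p := p')
        (n0 := e) (by omega) (by omega) (by omega) (by omega) 3 (by
          rw [Nat.cast_sub (by omega), Nat.cast_sub (by omega)]; push_cast; ring)
      rw [sub_self, zero_smul, add_zero] at this
      have := T.smul_mem (3 : L)⁻¹ this
      rwa [smul_smul, inv_mul_cancel₀ three, one_smul] at this

theorem VL_mem' [CharZero L] (f1 f2 : L[X]) {k m e : ℕ} (hk : 9 ≤ k) (hm : 3 ≤ m)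
    (he : e + 6 ≤ 2 * k) (u : L[X]) (hu : u.natDegree + 2 ≤ m) :
    VL e u ∈ (Submodule.span L (G1 f1 f2 k m ∪ G2 f1 f2 k m)).map (Psi k) := by
  rw [u.as_sum_range_C_mul_X_pow, map_sum]
  refine Submodule.sum_mem _ fun p hp => ?_
  rw [← smul_eq_C_mul, map_smul]
  refine Submodule.smul_mem _ _ (VL_mem f1 f2 hk hm ?_ he)
  have := Finset.mem_range.mp hp
  omega

theorem Psi_top {k n : ℕ} (hk : 2 ≤ k) (ρ : Fin k → Fin k → L[X]) (hn : 2 * k - 3 ≤ n) :
    Psi k ρ n = 0 := by
  rw [Psi_apply]
  apply Finset.sum_eq_zero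
  intro i _
  apply Finset.sum_eq_zero
  intro j _
  have hi := i.2
  have hj := j.2
  split_ifs with h
  · have : (i : ℕ) = j := by omega
    rw [this]
    simp
  · rfl

theorem exists_kappa [CharZero L] (k : ℕ) (hk : 3 ≤ k) (α : ℕ → L) :
    ∃ κ : Fin k → Fin k → L, ∀ n, n + 4 ≤ 2 * k → ∑ i : Fin k, ∑ j : Fin k,
      (if (i : ℕ) + j = n + 1 then (((j : ℕ) : L) - ((i : ℕ) : L)) * κ i j else 0) = α n := by
  refine ⟨fun i j => if (i : ℕ) = 0 ∨ (j : ℕ) + 1 = k then
    (((j : ℕ) : L) - ((i : ℕ) : L))⁻¹ * α ((i : ℕ) + j - 1) else 0, fun n hn => ?_⟩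
  obtain ⟨i0, j0, hi0, hj0, hs, hc, hlt⟩ : ∃ i0 j0, i0 < k ∧ j0 < k ∧ i0 + j0 = n + 1 ∧
      (i0 = 0 ∨ j0 + 1 = k) ∧ i0 < j0 := by
    by_cases hc : n + 1 < k
    · exact ⟨0, n + 1, by omega, by omega, by omega, by omega, by omega⟩
    · exact ⟨n + 2 - k, k - 1, by omega, by omega, by omega, by omega, by omega⟩
  rw [Finset.sum_eq_single (⟨i0, hi0⟩ : Fin k), Finset.sum_eq_single (⟨j0, hj0⟩ : Fin k)]
  · simp only
    rw [if_pos hs, if_pos hc, ← mul_assoc, mul_inv_cancel₀, one_mul]
    · congr 1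
      omega
    · intro h
      have : ((j0 : ℕ) : L) = (i0 : L) := sub_eq_zero.mp h
      have := Nat.cast_injective this
      omega
  · intro b _ hb
    rw [if_neg]
    intro h
    apply hb
    apply Fin.ext
    simp only at h ⊢
    omega
  · intro h; exact absurd (Finset.mem_univ _) h
  · intro b _ hb
    apply Finset.sum_eq_zero
    intro j _
    have hj := j.2
    have hb' : (b : ℕ) ≠ i0 := fun h => hb (Fin.ext h)
    by_cases h1 : (b : ℕ) + j = n + 1
    · rw [if_pos h1]
      beta_reduce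
      rw [if_neg, mul_zero]
      intro h2
      rcases h2 with h2 | h2
      · rcases hc with hc | hc <;> omega
      · rcases hc with hc | hc <;> omega
    · rw [if_neg h1]
  · intro h; exact absurd (Finset.mem_univ _) h

end PLN_

theorem pln_proof (_hWDG : Stmt_WDG) (_hHIN : Stmt_HIN) (_hWZR : Stmt_WZR) : Stmt_PLN := by
  intro L _ _ _ A f1 f2 k m hk hA h1d h2d hw hm ρ hρ hrel
  change ρ ∈ Submodule.span L (PLN_.G1 f1 f2 k m ∪ PLN_.G2 f1 f2 k m)
  apply PLN_.mem_of_Psi f1 f2 k m (by omega) ρ hρ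
  set T := (Submodule.span L (PLN_.G1 f1 f2 k m ∪ PLN_.G2 f1 f2 k m)).map (PLN_.Psi k) with hT
  rw [PLN_.sum_muX f1 f2 k (by omega), hw] at hrel
  set W := PLN_.Psi k ρ with hW
  have hA0 : A ≠ 0 := hA.mon.ne_zero
  have hWd : ∀ n, (W n).natDegree ≤ m := by
    intro n
    rw [hW, PLN_.Psi_apply]
    refine natDegree_sum_le_of_forall_le _ _ fun i _ => natDegree_sum_le_of_forall_le _ _ fun j _ => ?_
    split_ifs
    · exact (natDegree_C_mul_le _ _).trans (hρ i j)
    · simp
  set a : L[X] := ∑ n ∈ Finset.range (2 * k - 3), W n * X ^ n with ha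
  set b : L[X] := ∑ n ∈ Finset.range (2 * k - 3), W n * derivative (X ^ n) with hb
  have hab : A * b = derivative A * a := by
    have : ∑ n ∈ Finset.range (2 * k - 3), W n * wr A (X ^ n) = A * b - derivative A * a := by
      rw [ha, hb, Finset.mul_sum, Finset.mul_sum, ← Finset.sum_sub_distrib]
      refine Finset.sum_congr rfl fun n _ => ?_
      rw [wr]; ring
    rw [this] at hrel
    exact sub_eq_zero.mp hrel
  have hcop : IsCoprime A (derivative A) := hA.sep
  obtain ⟨q, hq⟩ : A ∣ a := hcop.dvd_of_dvd_mul_left ⟨b, hab.symm⟩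
  have hbq : b = derivative A * q := by
    have : A * b = A * (derivative A * q) := by rw [hab, hq]; ring
    exact mul_left_cancel₀ hA0 this
  have hqd : q.natDegree ≤ m := by
    by_cases hq0 : q = 0
    · simp [hq0]
    · have h1 : a.natDegree ≤ m + (2 * k - 4) := by
        rw [ha]
        refine natDegree_sum_le_of_forall_le _ _ fun n hn => ?_
        refine natDegree_mul_le.trans ?_
        rw [natDegree_X_pow]
        have := Finset.mem_range.mp hn
        have := hWd n
        omega
      rw [hq, natDegree_mul hA0 hq0, hA.deg] at h1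
      omega
  obtain ⟨κ, hκ⟩ := PLN_.exists_kappa k (by omega) (fun n => A.coeff n)
  set M : Fin k → Fin k → L[X] := fun i j => C (κ i j) * q with hM
  have hsumA : ∑ n ∈ Finset.range (2 * k - 3), C (A.coeff n) * X ^ n = A := by
    symm
    apply as_sum_range_C_mul_X_pow'
    rw [hA.deg]; omega
  have hPM : ∀ n ∈ Finset.range (2 * k - 3), ∀ q : L[X],
      PLN_.Psi k (fun i j => C (κ i j) * q) n = C (A.coeff n) * q := by
    intro n hn q
    rw [PLN_.Psi_C, hκ n]
    have := Finset.mem_range.mp hn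
    omega
  have hMs : M ∈ Submodule.span L (PLN_.G1 f1 f2 k m ∪ PLN_.G2 f1 f2 k m) := by
    apply Submodule.subset_span
    left
    refine ⟨q, hqd, κ, ?_, rfl⟩
    rw [PLN_.sum_muX f1 f2 k (by omega) (fun i j => C (κ i j)), hw]
    have h1 : ∀ n ∈ Finset.range (2 * k - 3),
        PLN_.Psi k (fun i j => C (κ i j)) n * wr A (X ^ n)
          = A * derivative (C (A.coeff n) * X ^ n) - derivative A * (C (A.coeff n) * X ^ n) := by
      intro n hn
      have := hPM n hn 1
      simp only [mul_one] at this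
      rw [this, wr, derivative_mul, derivative_C]
      ring
    rw [Finset.sum_congr rfl h1, Finset.sum_sub_distrib, ← Finset.mul_sum, ← Finset.mul_sum,
      ← derivative_sum, hsumA]
    ring
  have hdiff : PLN_.Psi k (ρ - M) ∈ T := by
    apply PLN_.lemD m (2 * k - 4) T
    · intro e u he hu
      exact PLN_.VL_mem' f1 f2 hk hm (by omega) u hu
    · intro n hn
      exact PLN_.Psi_top (by omega) _ (by omega)
    · intro n
      rw [map_sub, Pi.sub_apply]
      refine (natDegree_sub_le _ _).trans (max_le (hWd n) ?_)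
      rw [hM, PLN_.Psi_C]
      exact (natDegree_C_mul_le _ _).trans hqd
    · rw [show 2 * k - 4 + 1 = 2 * k - 3 by omega]
      have h1 : ∀ n ∈ Finset.range (2 * k - 3), PLN_.Psi k (ρ - M) n * X ^ n
          = W n * X ^ n - q * (C (A.coeff n) * X ^ n) := by
        intro n hn
        rw [map_sub, Pi.sub_apply, hM, hPM n hn q]
        ring
      rw [Finset.sum_congr rfl h1, Finset.sum_sub_distrib, ← Finset.mul_sum, hsumA, ← ha, hq]
      ring
    · rw [show 2 * k - 4 + 1 = 2 * k - 3 by omega]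
      have hX : ∀ n : ℕ, X * derivative (X ^ n : L[X]) = (n : L[X]) * X ^ n := by
        intro n
        rcases n with _ | n
        · simp
        · rw [derivative_X_pow, Nat.add_sub_cancel, map_natCast]
          ring
      have h1 : ∀ n ∈ Finset.range (2 * k - 3), (n : L[X]) * PLN_.Psi k (ρ - M) n * X ^ n
          = X * (W n * derivative (X ^ n)) - X * q * derivative (C (A.coeff n) * X ^ n) := by
        intro n hn
        rw [map_sub, Pi.sub_apply, hM, hPM n hn q, derivative_mul, derivative_C]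
        linear_combination (q * C (A.coeff n) - W n) * hX n
      rw [Finset.sum_congr rfl h1, Finset.sum_sub_distrib, ← Finset.mul_sum, ← Finset.mul_sum,
        ← derivative_sum, hsumA, ← hb, hbq]
      ring
  have hfin : W = PLN_.Psi k (ρ - M) + PLN_.Psi k M := by
    rw [← map_add, sub_add_cancel]
  rw [hfin]
  exact T.add_mem hdiff ⟨M, hMs, rfl⟩

end Pool.Agent.RTB
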