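import Pool.Agent.RTB.SStmts

/-! Facts on pencils of type N. -/

set_option autoImplicit false

open Polynomial

namespace Pool.Agent.RTB

namespace PNX_

variable {L : Type} [Field L]

/-- a polynomial of degree at most one with a double root is zero -/
theorem lin_zero {l : L[X]} (h : l.natDegree ≤ 1) {c : L} (h0 : l.eval c = 0)
    (h1 : (derivative l).eval c = 0) : l = 0 := by
  rw [eq_X_add_C_of_natDegree_le_one h] at h0 h1 ⊢
  simp only [eval_add, eval_mul, eval_C, eval_X, derivative_add, derivative_mul, derivative_C,
    derivative_X, zero_mul, mul_one, add_zero, zero_add] at h0 h1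
  rw [h1] at h0 ⊢
  simp only [zero_mul, zero_add] at h0
  rw [h0]
  simp

theorem der_ne {F : L[X]} (hs : F.Separable) {c : L} (h : F.eval c = 0) :
    (derivative F).eval c ≠ 0 := by
  intro h'
  obtain ⟨a, b, hab⟩ := hs
  have := congrArg (eval c) hab
  rw [eval_add, eval_mul, eval_mul, h, h', mul_zero, mul_zero, add_zero, eval_one] at this
  exact zero_ne_one this

theorem W1 (f1 f2 : L[X]) : derivative (wr f1 f2) =
    f1 * derivative (derivative f2) - derivative (derivative f1) * f2 := by
  simp only [wr, derivative_sub, derivative_mul]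
  ring

theorem W2 (f1 f2 : L[X]) : derivative (derivative (wr f1 f2)) =
    wr (derivative f1) (derivative f2) + (f1 * derivative (derivative (derivative f2))
      - derivative (derivative (derivative f1)) * f2) := by
  rw [W1]
  simp only [wr, derivative_sub, derivative_mul]
  ring

/-- the facts at a common root -/
theorem common {F f1 f2 l : L[X]} (h2 : (2 : L) ≠ 0) (hs : F.Separable) (hw : wr f1 f2 = F * l)
    (l0 : l ≠ 0) (dl : l.natDegree ≤ 1) {c : L} (e1 : f1.eval c = 0) (e2 : f2.eval c = 0) :
    F.eval c = 0 ∧ l.eval c = 0 ∧
    ((derivative f1).eval c ≠ 0 ∨ (derivative f2).eval c ≠ 0) ∧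
    (wr (derivative f1) (derivative f2)).eval c = (derivative (derivative (F * l))).eval c := by
  have hW0 : (F * l).eval c = 0 := by
    rw [← hw, wr, eval_sub, eval_mul, eval_mul, e1, e2]
    ring
  have hW1 : (derivative (F * l)).eval c = 0 := by
    rw [← hw, W1, eval_sub, eval_mul, eval_mul, e1, e2]
    ring
  have hW2 : (wr (derivative f1) (derivative f2)).eval c =
      (derivative (derivative (F * l))).eval c := by
    rw [← hw, W2, eval_add, eval_sub, eval_mul, eval_mul, e1, e2]
    ring
  rw [eval_mul] at hW0
  rw [derivative_mul, eval_add, eval_mul, eval_mul] at hW1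
  have hF : F.eval c = 0 := by
    by_contra hF
    have hl : l.eval c = 0 := (mul_eq_zero.1 hW0).resolve_left hF
    rw [hl, mul_zero, zero_add] at hW1
    exact l0 (lin_zero dl hl ((mul_eq_zero.1 hW1).resolve_left hF))
  have hF' := der_ne hs hF
  have hl : l.eval c = 0 := by
    rw [hF, zero_mul, add_zero] at hW1
    exact (mul_eq_zero.1 hW1).resolve_left hF'
  refine ⟨hF, hl, ?_, hW2⟩
  by_contra hn
  push Not at hn
  have h3 : (derivative (derivative (F * l))).eval c = 2 * ((derivative F).eval c *
      (derivative l).eval c) := by
    have h4 : derivative (derivative l) = 0 := der2_of_natDegree_le_one dl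
    simp only [derivative_mul, derivative_add, h4, eval_add, eval_mul, hF, hl, eval_zero]
    ring
  rw [h3] at hW2
  have h5 : (wr (derivative f1) (derivative f2)).eval c = 0 := by
    rw [wr, eval_sub, eval_mul, eval_mul, hn.1, hn.2]
    ring
  rw [h5] at hW2
  have h6 := (mul_eq_zero.1 hW2.symm).resolve_left h2
  exact l0 (lin_zero dl hl ((mul_eq_zero.1 h6).resolve_left hF'))

end PNX_

open PNX_ in
theorem pnx_proof (hW : Stmt_WDG) : Stmt_PNX := by
  intro L _ _ _ F f1 f2 l k hk hF hP
  have h2 : (2 : L) ≠ 0 := two_ne_zero
  have hF0 : F ≠ 0 := hF.mon.ne_zero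
  have hdd := der2_of_natDegree_le_one hP.dl
  have hdeg : (F * l).natDegree = 2 * k - 3 + l.natDegree := by
    rw [natDegree_mul hF0 hP.l0, hF.deg]
  have hone : f1.natDegree = k ∨ f2.natDegree = k := by
    by_contra hn
    push Not at hn
    have h1 : f1.natDegree ≤ k - 1 := by have := hP.d1; omega
    have h3 : f2.natDegree ≤ k - 1 := by have := hP.d2; omega
    have h4 := (hW L (k - 1) f1 f2 0 h1 h3 (by simp)).1
    rw [hP.hw, hdeg] at h4
    omega
  have hab : ∃ a b : L, (C a * f1 + C b * f2).natDegree = k := by
    rcases hone with h | h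
    · exact ⟨1, 0, by simpa using h⟩
    · exact ⟨0, 1, by simpa using h⟩
  refine ⟨hab, ?_, ?_, ?_, ?_⟩
  · intro c e1 e2
    exact common h2 hF.sep hP.hw hP.l0 hP.dl e1 e2
  · intro m hm
    obtain ⟨a, b, hd⟩ := hab
    have hG := Dl_G hP.hw hdd hP.l0 m a b
    generalize hf : C a * f1 + C b * f2 = f at hG hd
    set G := f * (2 * derivative l * m + l * derivative m) - derivative f * (l * m) with hGdef
    have hlG : l * G = wr f (l ^ 2 * m) := by
      have h3 : derivative (l ^ 2 * m) = 2 * l * derivative l * m + l ^ 2 * derivative m := by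
        rw [pow_two, derivative_mul, derivative_mul]; ring
      rw [wr, h3, hGdef]
      ring
    have hGd : G.natDegree ≤ 2 * k - 3 := by
      by_cases hG0 : G = 0
      · rw [hG0]
        simp
      have h5 : (l * G).natDegree = l.natDegree + G.natDegree := natDegree_mul hP.l0 hG0
      have hl1 := hP.dl
      by_cases hl : l.natDegree = 1
      · have h6 : (l ^ 2 * m).natDegree ≤ k := by
          refine natDegree_mul_le.trans ?_
          have : (l ^ 2).natDegree ≤ 2 := by
            refine natDegree_pow_le.trans ?_
            omega
          omega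
        have h7 := (hW L k f (l ^ 2 * m) 0 hd.le h6 (by simp)).1
        rw [← hlG, h5] at h7
        omega
      · have hl0 : l.natDegree = 0 := by omega
        have h6 : (l ^ 2 * m).natDegree ≤ k - 2 := by
          refine natDegree_mul_le.trans ?_
          have : (l ^ 2).natDegree ≤ 0 := by
            refine natDegree_pow_le.trans ?_
            omega
          omega
        have h7 : (wr f (l ^ 2 * m)).natDegree ≤ 2 * k - 3 := by
          rw [wr]
          refine (natDegree_sub_le _ _).trans (max_le ?_ ?_)
          · refine natDegree_mul_le.trans ?_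
            have := natDegree_derivative_le (l ^ 2 * m)
            omega
          · refine natDegree_mul_le.trans ?_
            have := natDegree_derivative_le f
            omega
        rw [← hlG, h5] at h7
        omega
    have h8 := (hW L (2 * k - 3) F G 0 hF.deg.le hGd (by simp)).1
    rw [← hG] at h8
    by_cases h0 : Dl F l f1 f2 m = 0
    · rw [h0]
      simp
    · have hf0 : f ≠ 0 := by
        rintro rfl
        simp only [natDegree_zero] at hd
        omega
      rw [natDegree_mul hf0 h0, hd] at h8
      omega
  · intro m c hc f hf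
    have key : ∀ a b : L, (derivative ((C a * f1 + C b * f2) * Dl F l f1 f2 m)).eval c *
        (derivative F).eval c =
        (derivative (derivative F)).eval c * ((C a * f1 + C b * f2) * Dl F l f1 f2 m).eval c := by
      intro a b
      rw [Dl_G hP.hw hdd hP.l0 m a b, W1]
      simp only [wr, eval_sub, eval_mul, hc]
      ring
    rcases hf with rfl | rfl
    · have := key 1 0
      simpa using this
    · have := key 0 1
      simpa using this
  · intro m c e1 e2
    obtain ⟨hFc, hlc, -, hww⟩ := common h2 hF.sep hP.hw hP.l0 hP.dl e1 e2
    have h3 : (derivative (derivative (F * l))).eval c = 2 * ((derivative F).eval c *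
        (derivative l).eval c) := by
      simp only [derivative_mul, derivative_add, hdd, eval_add, eval_mul, hFc, hlc, eval_zero]
      ring
    rw [h3] at hww
    simp only [Dl, eval_add, eval_sub, eval_mul, hFc, hlc, hww, eval_ofNat]
    ring

end Pool.Agent.RTB
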