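import Pool.Agent.RTB.SStmts

set_option autoImplicit false

open Polynomial

namespace Pool.Agent.RTB

namespace PSA_

variable {L : Type} [Field L]

theorem PL_eq (n : ℕ) : PL L n = degreeLT L (n + 1) := by
  ext p
  rw [mem_PL, mem_degreeLT]
  by_cases hp : p = 0
  · subst hp
    simp only [natDegree_zero, Nat.zero_le, true_iff, degree_zero]
    exact WithBot.bot_lt_coe _
  · rw [degree_eq_natDegree hp]
    constructor
    · intro h
      exact_mod_cast Nat.lt_succ_of_le h
    · intro h
      exact Nat.lt_succ_iff.mp (by exact_mod_cast h)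

theorem fd_PL (n : ℕ) : FiniteDimensional L (PL L n) := by
  rw [PL_eq]
  exact (degreeLTEquiv L (n + 1)).symm.finiteDimensional

theorem finrank_PL (n : ℕ) : Module.finrank L (PL L n) = n + 1 := by
  rw [PL_eq, (degreeLTEquiv L (n + 1)).finrank_eq, Module.finrank_fin_fun]

theorem QF_le (F : L[X]) (lam : L → L) (M : ℕ) : QF F lam M ≤ PL L M := by
  intro p hp
  exact hp.1

theorem fd_QF (F : L[X]) (lam : L → L) (M : ℕ) : FiniteDimensional L (QF F lam M) := by
  haveI := fd_PL (L := L) M
  exact Submodule.finiteDimensional_of_le (QF_le F lam M)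

theorem natDegree_wr_le (a b : L[X]) (n : ℕ) (ha : a.natDegree ≤ n) (hb : b.natDegree ≤ n) :
    (wr a b).natDegree ≤ n + (n - 1) := by
  rw [wr]
  refine (natDegree_sub_le _ _).trans (max_le ?_ ?_)
  · refine natDegree_mul_le.trans ?_
    have := natDegree_derivative_le b
    omega
  · refine natDegree_mul_le.trans ?_
    have := natDegree_derivative_le a
    omega

end PSA_

open PSA_ in
theorem psa_proof (hDUA : Stmt_DUA) (hBN3 : Stmt_BN3) (hLSA : Stmt_LSA) (hPNX : Stmt_PNX)
    (hKER : Stmt_KER) (hHIN : Stmt_HIN) : Stmt_PSA := by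
  classical
  intro L _ _ _ F k P hk hF hP hdeg htI
  obtain ⟨hcard, hd, -, -, -, -⟩ := hHIN L F (2 * k - 3) hF
  have hF0 : F ≠ 0 := hF.mon.ne_zero
  choose! lam hlam using htI
  set mu : L → L := fun c =>
    (derivative (derivative F)).eval c / (derivative F).eval c - lam c with hmu
  have hlm : ∀ c, F.eval c = 0 → (lam c + mu c) * (derivative F).eval c
      = (derivative (derivative F)).eval c := by
    intro c hc
    have := hd c hc
    rw [hmu]
    field_simp
    ring
  have hPle : P ≤ QF F lam (3 * k - 8) := by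
    intro u hu
    exact ⟨hdeg u hu, fun c hc => hlam c hc u hu⟩
  haveI fd1 := fd_QF F lam (3 * k - 8)
  haveI fd2 := fd_QF F mu k
  have hge : k - 2 ≤ Module.finrank L (QF F lam (3 * k - 8)) := by
    rw [← hP]
    exact Submodule.finrank_mono hPle
  have hdua := hDUA L F (2 * k - 3) hF (by omega) lam mu (3 * k - 8) k hlm (by omega)
  have hle2 : Module.finrank L (QF F mu k) ≤ 2 := by
    apply hBN3 L (QF F mu k) k F.roots.toFinset fd2 (fun u hu => hu.1)
    · intro c hc u hu v hv
      have hc0 : F.eval c = 0 := by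
        rw [Multiset.mem_toFinset, mem_roots hF0] at hc
        exact hc
      rw [hu.2 c hc0, hv.2 c hc0]
      ring
    · rw [hcard]; omega
  have h2 : Module.finrank L (QF F mu k) = 2 := by omega
  have hq : Module.finrank L (QF F lam (3 * k - 8)) = k - 2 := by omega
  have hPeq : P = QF F lam (3 * k - 8) :=
    Submodule.eq_of_le_of_finrank_eq hPle (by rw [hP, hq])
  obtain ⟨g1, g2, l, hPN, hspan⟩ := hLSA L F k (QF F mu k) (by omega) hF h2
    (fun u hu => hu.1) (by
      intro c hc u hu v hv
      rw [hu.2 c hc, hv.2 c hc]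
      ring)
  have hm1 : g1 ∈ QF F mu k := by
    rw [hspan]; exact Submodule.subset_span (by simp)
  have hm2 : g2 ∈ QF F mu k := by
    rw [hspan]; exact Submodule.subset_span (by simp)
  obtain ⟨-, hp2, hp3, hp4, -⟩ := hPNX L F g1 g2 l k (by omega) hF hPN
  have hw := hPN.hw
  have hl0 := hPN.l0
  have hwne : wr g1 g2 ≠ 0 := by rw [hw]; exact mul_ne_zero hF0 hl0
  -- not both vanish at a root
  have hnv : ∀ c, F.eval c = 0 → g1.eval c ≠ 0 ∨ g2.eval c ≠ 0 := by
    intro c hc
    by_contra hcon
    push Not at hcon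
    obtain ⟨e1, e2⟩ := hcon
    rcases (hp2 c e1 e2).2.2.1 with h | h
    · apply h
      rw [hm1.2 c hc, e1, mul_zero]
    · apply h
      rw [hm2.2 c hc, e2, mul_zero]
  refine ⟨g1, g2, l, hPN, hnv, ?_⟩
  -- the condition at the roots
  have hcond : ∀ (f m : L[X]) (c : L), F.eval c = 0 → f.eval c ≠ 0 →
      (derivative f).eval c = mu c * f.eval c → (f = g1 ∨ f = g2) →
      (derivative (Dl F l g1 g2 m)).eval c = lam c * (Dl F l g1 g2 m).eval c := by
    intro f m c hc hfc hf' hf
    have e2 := hp4 m c hc f hf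
    simp only [derivative_mul, eval_add, eval_mul] at e2
    have h5 := hlm c hc
    have h6 := hd c hc
    generalize (Dl F l g1 g2 m) = W at e2 ⊢
    have h7 : (derivative F).eval c * f.eval c *
        ((derivative W).eval c - lam c * W.eval c) = 0 := by
      linear_combination e2 - (derivative F).eval c * W.eval c * hf' - f.eval c * W.eval c * h5
    rcases mul_eq_zero.mp h7 with h8 | h8
    · rcases mul_eq_zero.mp h8 with h9 | h9
      · exact absurd h9 h6
      · exact absurd h9 hfc
    · linear_combination h8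
  have hle : DlSp F l g1 g2 (k - 2) ≤ P := by
    intro p hp
    rw [hPeq]
    rw [mem_DlSp] at hp
    obtain ⟨m, hm, rfl⟩ := hp
    refine ⟨hp3 m hm, ?_⟩
    intro c hc
    rcases hnv c hc with h | h
    · exact hcond g1 m c hc h (hm1.2 c hc) (Or.inl rfl)
    · exact hcond g2 m c hc h (hm2.2 c hc) (Or.inr rfl)
  -- the dimension of `DlSp`
  haveI fd3 := fd_PL (L := L) (k - 2)
  have hrn := LinearMap.finrank_range_add_finrank_ker
    ((DlLin F l g1 g2).domRestrict (PL L (k - 2)))
  rw [LinearMap.range_domRestrict, finrank_PL] at hrn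
  have hkd : Module.finrank L
      (LinearMap.ker ((DlLin F l g1 g2).domRestrict (PL L (k - 2)))) ≤ 1 := by
    by_contra hcon
    set K := LinearMap.ker ((DlLin F l g1 g2).domRestrict (PL L (k - 2))) with hK
    set K' := K.map (PL L (k - 2)).subtype with hK'
    have hfK' : Module.finrank L K' = Module.finrank L K := Submodule.finrank_map_subtype_eq _ _
    have hinj : Function.Injective (LinearMap.mulLeft L (l ^ 2)) := by
      intro a b hab
      have : l ^ 2 * a = l ^ 2 * b := hab
      exact mul_left_cancel₀ (pow_ne_zero 2 hl0) this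
    have hfN : Module.finrank L (K'.map (LinearMap.mulLeft L (l ^ 2))) = Module.finrank L K' :=
      ((Submodule.equivMapOfInjective _ hinj K').finrank_eq).symm
    have hNle : K'.map (LinearMap.mulLeft L (l ^ 2)) ≤ QF F mu k := by
      rintro p hp
      rw [Submodule.mem_map] at hp
      obtain ⟨q, hq1, rfl⟩ := hp
      rw [hK', Submodule.mem_map] at hq1
      obtain ⟨q, hq1, rfl⟩ := hq1
      rw [hK, LinearMap.mem_ker] at hq1
      have hq2 : Dl F l g1 g2 (q : L[X]) = 0 := hq1
      have hq3 : Dh g1 g2 (l ^ 2 * (q : L[X])) = 0 := by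
        rw [Dh_eq_Dl hw (der2_of_natDegree_le_one hPN.dl), hq2, mul_zero]
      obtain ⟨a, b, hab⟩ := hKER L g1 g2 _ hwne hq3
      show l ^ 2 * (q : L[X]) ∈ QF F mu k
      rw [hab, ← smul_eq_C_mul, ← smul_eq_C_mul]
      exact Submodule.add_mem _ (Submodule.smul_mem _ _ hm1) (Submodule.smul_mem _ _ hm2)
    have hNeq : K'.map (LinearMap.mulLeft L (l ^ 2)) = QF F mu k :=
      Submodule.eq_of_le_of_finrank_le hNle (by rw [h2, hfN, hfK']; omega)
    have hmem : ∀ g ∈ QF F mu k, ∃ m : L[X], m.natDegree ≤ k - 2 ∧ g = l ^ 2 * m := by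
      intro g hg
      rw [← hNeq, Submodule.mem_map] at hg
      obtain ⟨q, hq1, rfl⟩ := hg
      rw [hK', Submodule.mem_map] at hq1
      obtain ⟨q, hq1, rfl⟩ := hq1
      exact ⟨q, q.2, rfl⟩
    obtain ⟨m1, hd1, he1⟩ := hmem g1 hm1
    obtain ⟨m2, hd2, he2⟩ := hmem g2 hm2
    have hFl : F = l ^ 3 * wr m1 m2 := by
      have h : l * F = l * (l ^ 3 * wr m1 m2) := by
        calc l * F = wr g1 g2 := by rw [hw]; ring
          _ = (l ^ 2) ^ 2 * wr m1 m2 := by rw [he1, he2, wr_l_cancel]
          _ = l * (l ^ 3 * wr m1 m2) := by ring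
      exact mul_left_cancel₀ hl0 h
    have hsq : Squarefree F := hF.sep.squarefree
    have hu : IsUnit l := hsq l ⟨l * wr m1 m2, by rw [hFl]; ring⟩
    have hnd : l.natDegree = 0 := natDegree_eq_zero_of_isUnit hu
    have h10 := natDegree_wr_le m1 m2 (k - 2) hd1 hd2
    have h11 : F.natDegree ≤ (l ^ 3).natDegree + (wr m1 m2).natDegree := by
      conv_lhs => rw [hFl]
      exact natDegree_mul_le
    rw [hF.deg, natDegree_pow, hnd] at h11
    omega
  have hDS : k - 2 ≤ Module.finrank L (DlSp F l g1 g2 (k - 2)) := by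
    have : DlSp F l g1 g2 (k - 2) = Submodule.map (DlLin F l g1 g2) (PL L (k - 2)) := rfl
    rw [this]
    omega
  haveI fdP : FiniteDimensional L P := by rw [hPeq]; exact fd1
  exact (Submodule.eq_of_le_of_finrank_le hle (by rw [hP]; exact hDS)).symm

end Pool.Agent.RTB
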