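import Pool.Agent.RTB.SStmts

set_option autoImplicit false

open Polynomial

namespace Pool.Agent.RTB

namespace PSB_

variable {L : Type} [Field L]

theorem PL_eq (n : ℕ) : PL L n = degreeLT L (n + 1) := by
  ext p
  rw [mem_PL, mem_degreeLT]
  by_cases hp : p = 0
  · subst hp
    simp only [natDegree_zero, Nat.zero_le, true_iff, degree_zero]
    exact WithBot.bot_lt_coe _
  · rw [degree_eq_natDegree hp]
    constructor
    · intro h
      exact_mod_cast Nat.lt_succ_of_le h
    · intro h
      exact Nat.lt_succ_iff.mp (by exact_mod_cast h)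

theorem fd_PL (n : ℕ) : FiniteDimensional L (PL L n) := by
  rw [PL_eq]
  exact (degreeLTEquiv L (n + 1)).symm.finiteDimensional

theorem finrank_PL (n : ℕ) : Module.finrank L (PL L n) = n + 1 := by
  rw [PL_eq, (degreeLTEquiv L (n + 1)).finrank_eq, Module.finrank_fin_fun]

theorem QF_le (F : L[X]) (lam : L → L) (M : ℕ) : QF F lam M ≤ PL L M := by
  intro p hp
  exact hp.1

theorem fd_QF (F : L[X]) (lam : L → L) (M : ℕ) : FiniteDimensional L (QF F lam M) := by
  haveI := fd_PL (L := L) M
  exact Submodule.finiteDimensional_of_le (QF_le F lam M)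

end PSB_

open PSB_ in
theorem psb_proof (hDUA : Stmt_DUA) (hBN3 : Stmt_BN3) (hLSB : Stmt_LSB) (hWDG : Stmt_WDG)
    (hKER : Stmt_KER) (hHIN : Stmt_HIN) : Stmt_PSB := by
  classical
  intro L _ _ _ A k P hk hA hP hdeg htI
  obtain ⟨hcard, hd, -, -, -, -⟩ := hHIN L A (2 * k - 4) hA
  have hA0 : A ≠ 0 := hA.mon.ne_zero
  choose! lam hlam using htI
  set mu : L → L := fun c =>
    (derivative (derivative A)).eval c / (derivative A).eval c - lam c with hmu
  have hlm : ∀ c, A.eval c = 0 → (lam c + mu c) * (derivative A).eval c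
      = (derivative (derivative A)).eval c := by
    intro c hc
    have := hd c hc
    rw [hmu]
    field_simp
    ring
  have hPle : P ≤ QF A lam (3 * k - 9) := by
    intro u hu
    exact ⟨hdeg u hu, fun c hc => hlam c hc u hu⟩
  haveI fd1 := fd_QF A lam (3 * k - 9)
  haveI fd2 := fd_QF A mu (k - 1)
  have hge : k - 2 ≤ Module.finrank L (QF A lam (3 * k - 9)) := by
    rw [← hP]
    exact Submodule.finrank_mono hPle
  have hdua := hDUA L A (2 * k - 4) hA (by omega) lam mu (3 * k - 9) (k - 1) hlm (by omega)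
  have hle2 : Module.finrank L (QF A mu (k - 1)) ≤ 2 := by
    apply hBN3 L (QF A mu (k - 1)) (k - 1) A.roots.toFinset fd2 (fun u hu => hu.1)
    · intro c hc u hu v hv
      have hc0 : A.eval c = 0 := by
        rw [Multiset.mem_toFinset, mem_roots hA0] at hc
        exact hc
      rw [hu.2 c hc0, hv.2 c hc0]
      ring
    · rw [hcard]; omega
  have h2 : Module.finrank L (QF A mu (k - 1)) = 2 := by omega
  have hq : Module.finrank L (QF A lam (3 * k - 9)) = k - 2 := by omega
  have hPeq : P = QF A lam (3 * k - 9) :=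
    Submodule.eq_of_le_of_finrank_eq hPle (by rw [hP, hq])
  obtain ⟨g1, g2, hg1, hg2, hw, hspan⟩ := hLSB L A k (QF A mu (k - 1)) (by omega) hA h2
    (fun u hu => hu.1) (by
      intro c hc u hu v hv
      rw [hu.2 c hc, hv.2 c hc]
      ring)
  have hm1 : g1 ∈ QF A mu (k - 1) := by
    rw [hspan]; exact Submodule.subset_span (by simp)
  have hm2 : g2 ∈ QF A mu (k - 1) := by
    rw [hspan]; exact Submodule.subset_span (by simp)
  refine ⟨g1, g2, hg1, hg2, hw, ?_⟩
  have hwne : wr g1 g2 ≠ 0 := by rw [hw]; exact hA0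
  -- not both vanish at a root
  have hnv : ∀ c, A.eval c = 0 → g1.eval c ≠ 0 ∨ g2.eval c ≠ 0 := by
    intro c hc
    by_contra hcon
    push Not at hcon
    obtain ⟨e1, e2⟩ := hcon
    have h3 : derivative A = g1 * derivative (derivative g2)
        - derivative (derivative g1) * g2 := by
      rw [← hw, wr, derivative_sub, derivative_mul, derivative_mul]; ring
    apply hd c hc
    rw [h3, eval_sub, eval_mul, eval_mul, e1, e2]
    ring
  -- the condition at the roots
  have hcond : ∀ (f v : L[X]) (c : L), A.eval c = 0 → f.eval c ≠ 0 →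
      (derivative f).eval c = mu c * f.eval c →
      f * Dh g1 g2 v = wr A (wr f v) →
      (derivative (Dh g1 g2 v)).eval c = lam c * (Dh g1 g2 v).eval c := by
    intro f v c hc hfc hf' hid
    have e1 := congrArg (eval c) hid
    have e2 := congrArg (fun q => eval c (derivative q)) hid
    simp only [derivative_mul] at e2
    rw [wr] at e1 e2
    simp only [derivative_sub, derivative_mul, eval_add, eval_sub, eval_mul] at e1 e2
    rw [hc] at e1 e2
    have h5 := hlm c hc
    have h6 := hd c hc
    generalize (wr f v) = G at e1 e2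
    generalize (Dh g1 g2 v) = W at e1 e2 ⊢
    have h7 : (derivative A).eval c * f.eval c *
        ((derivative W).eval c - lam c * W.eval c) = 0 := by
      linear_combination ((derivative A).eval c) * e2 - ((derivative (derivative A)).eval c) * e1
        - (derivative A).eval c * W.eval c * hf' - f.eval c * W.eval c * h5
    rcases mul_eq_zero.mp h7 with h8 | h8
    · rcases mul_eq_zero.mp h8 with h9 | h9
      · exact absurd h9 h6
      · exact absurd h9 hfc
    · linear_combination h8
  have hle : DhSp g1 g2 (k - 1) ≤ P := by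
    intro p hp
    rw [hPeq]
    rw [mem_DhSp] at hp
    obtain ⟨m, hm, rfl⟩ := hp
    refine ⟨?_, ?_⟩
    · have := (hWDG L (k - 1) g1 g2 m hg1 hg2 hm).2
      omega
    · intro c hc
      rcases hnv c hc with h | h
      · exact hcond g1 m c hc h (hm1.2 c hc) (by rw [key1, hw])
      · exact hcond g2 m c hc h (hm2.2 c hc) (by rw [key2, hw])
  -- the dimension of `DhSp`
  haveI fd3 := fd_PL (L := L) (k - 1)
  have hrn := LinearMap.finrank_range_add_finrank_ker
    ((DhLin g1 g2).domRestrict (PL L (k - 1)))
  rw [LinearMap.range_domRestrict, finrank_PL] at hrn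
  have hker : (LinearMap.ker ((DhLin g1 g2).domRestrict (PL L (k - 1)))).map
      (PL L (k - 1)).subtype = QF A mu (k - 1) := by
    apply le_antisymm
    · rintro p hp
      rw [Submodule.mem_map] at hp
      obtain ⟨q, hq1, rfl⟩ := hp
      rw [LinearMap.mem_ker] at hq1
      have hq2 : Dh g1 g2 (q : L[X]) = 0 := hq1
      obtain ⟨a, b, hab⟩ := hKER L g1 g2 q hwne hq2
      show (q : L[X]) ∈ QF A mu (k - 1)
      rw [hab, ← smul_eq_C_mul, ← smul_eq_C_mul]
      exact Submodule.add_mem _ (Submodule.smul_mem _ _ hm1) (Submodule.smul_mem _ _ hm2)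
    · intro p hp
      rw [hspan] at hp
      rw [Submodule.mem_span_pair] at hp
      obtain ⟨a, b, rfl⟩ := hp
      have hin : a • g1 + b • g2 ∈ PL L (k - 1) :=
        Submodule.add_mem _ (Submodule.smul_mem _ _ hg1) (Submodule.smul_mem _ _ hg2)
      rw [Submodule.mem_map]
      refine ⟨⟨a • g1 + b • g2, hin⟩, ?_, rfl⟩
      rw [LinearMap.mem_ker]
      show DhLin g1 g2 (a • g1 + b • g2) = 0
      rw [map_add, map_smul, map_smul]
      have e1 : DhLin g1 g2 g1 = 0 := Dh_self1 g1 g2
      have e2 : DhLin g1 g2 g2 = 0 := Dh_self2 g1 g2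
      rw [e1, e2]
      simp
  have hkd : Module.finrank L (LinearMap.ker ((DhLin g1 g2).domRestrict (PL L (k - 1)))) = 2 := by
    rw [← h2, ← hker]
    exact (Submodule.finrank_map_subtype_eq _ _).symm
  rw [hkd] at hrn
  have hDS : Module.finrank L (DhSp g1 g2 (k - 1)) = k - 2 := by
    have : DhSp g1 g2 (k - 1) = Submodule.map (DhLin g1 g2) (PL L (k - 1)) := rfl
    rw [this]
    omega
  haveI fdP : FiniteDimensional L P := by rw [hPeq]; exact fd1
  exact (Submodule.eq_of_le_of_finrank_eq hle (by rw [hDS, hP])).symm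

end Pool.Agent.RTB
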