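import Pool.Agent.RTB.KStmts

/-!
# squad RTB, module R1D: the dimension of the reduction of a space of functions
-/

set_option autoImplicit false

open Polynomial

namespace Pool.Agent.RTB

namespace R1D_

section
variable {Kf Lf κ : Type} [Field Kf] [Field Lf] [Algebra Kf Lf] [Field κ]

/-- the space of vectors of length one given by a space of functions -/
noncomputable def vec (U : Submodule Kf Lf) : Submodule Kf (Fin 1 → Lf) :=
  U.map ((LinearEquiv.funUnique (Fin 1) Kf Lf).symm : Lf →ₗ[Kf] (Fin 1 → Lf))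

lemma mem_vec (U : Submodule Kf Lf) (x : Fin 1 → Lf) : x ∈ vec U ↔ x 0 ∈ U := by
  unfold vec
  constructor
  · rintro ⟨y, hy, rfl⟩
    simpa using hy
  · intro h
    refine ⟨x 0, h, ?_⟩
    funext i
    have : i = 0 := Subsingleton.elim _ _
    subst this
    simp

lemma finrank_vec (U : Submodule Kf Lf) : Module.finrank Kf (vec U) = Module.finrank Kf U :=
  LinearEquiv.finrank_map_eq (LinearEquiv.funUnique (Fin 1) Kf Lf).symm U

lemma redV_vec (O : ValuationSubring Kf) (red : O →+* κ) (β : ℕ → Lf) (βF : ℕ → κ[X])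
    (U : Submodule Kf Lf) : redV O red β βF (vec U) =
      (red1 O red β βF U).map
        ((LinearEquiv.funUnique (Fin 1) κ κ[X]).symm : κ[X] →ₗ[κ] (Fin 1 → κ[X])) := by
  unfold redV red1
  rw [Submodule.map_span]
  congr 1
  ext p
  constructor
  · rintro ⟨x, hx, hp⟩
    refine ⟨p 0, ⟨x 0, (mem_vec U x).1 hx, hp 0⟩, ?_⟩
    funext i
    have : i = 0 := Subsingleton.elim _ _
    subst this
    simp
  · rintro ⟨q, ⟨x, hx, hq⟩, rfl⟩
    refine ⟨fun _ => x, (mem_vec U _).2 hx, fun i => ?_⟩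
    simpa using hq

end

end R1D_

open R1D_ in
theorem r1d_proof (hRVD : Stmt_RVD) (hRDB : Stmt_RDB) (_hRFB : Stmt_RFB) : Stmt_R1D := by
  intro Kf Lf κ _ _ _ _ g O red β F βF hg h0 hctx
  have key : ∀ (N : ℕ) (U : Submodule Kf Lf), U ≤ Rn Kf g β N →
      Module.finrank κ (red1 O red β βF U) = Module.finrank Kf U ∧
      FiniteDimensional κ (red1 O red β βF U) ∧ FiniteDimensional Kf U ∧
      (∀ p ∈ red1 O red β βF U, ∃ x ∈ U, Red O red β βF x p) ∧
      (∀ (m : ℕ) (x : Fin m → Lf) (p : Fin m → κ[X]),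
        (∀ a, Red O red β βF (x a) (p a)) → LinearIndependent κ p → LinearIndependent Kf x) := by
    intro N U hU
    obtain ⟨h1, h2, h3, h4, h5⟩ := hRVD Kf Lf κ g O red β F βF hg h0 hctx 1 N (vec U)
      (fun x hx i => by
        have : i = 0 := Subsingleton.elim _ _
        subst this
        exact hU ((mem_vec U x).1 hx))
    have e1 : Module.finrank κ (red1 O red β βF U) =
        Module.finrank κ (redV O red β βF (vec U)) := by
      rw [redV_vec]
      exact (LinearEquiv.finrank_map_eq (LinearEquiv.funUnique (Fin 1) κ κ[X]).symm _).symm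
    refine ⟨?_, ?_, ?_, ?_, ?_⟩
    · rw [e1, h1, finrank_vec]
    · rw [redV_vec] at h2
      exact Module.Finite.equiv
        ((LinearEquiv.funUnique (Fin 1) κ κ[X]).symm.submoduleMap
          (red1 O red β βF U)).symm
    · unfold vec at h3
      exact Module.Finite.equiv
        ((LinearEquiv.funUnique (Fin 1) Kf Lf).symm.submoduleMap U).symm
    · intro p hp
      obtain ⟨x, hx, hxp⟩ := h4 (fun _ => p) (by
        rw [redV_vec]
        refine ⟨p, hp, ?_⟩
        funext i
        have : i = 0 := Subsingleton.elim _ _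
        subst this
        simp)
      exact ⟨x 0, (mem_vec U x).1 hx, hxp 0⟩
    · intro m x p hxp hp
      have := h5 m (fun a _ => x a) (fun a _ => p a) (fun a _ => hxp a)
        (hp.map' ((LinearEquiv.funUnique (Fin 1) κ κ[X]).symm :
            κ[X] →ₗ[κ] (Fin 1 → κ[X])) (LinearEquiv.ker _))
      have h := this.map' ((LinearEquiv.funUnique (Fin 1) Kf Lf) :
            (Fin 1 → Lf) →ₗ[Kf] Lf) (LinearEquiv.ker _)
      exact h
  obtain ⟨r1, r2, r3, r4, r5, r6, r7, r8, r9, r10, r11, r12⟩ :=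
    hRDB Kf Lf κ g O red β F βF hg h0 hctx
  intro N U hU
  obtain ⟨k1, k2, k3, k4, k5⟩ := key N U hU
  refine ⟨k1, k2, k3, k4, ?_, k5⟩
  intro n
  have hle : Rn Kf g β n * U ≤ Rn Kf g β (n + N) :=
    (mul_le_mul' le_rfl hU).trans (r9 n N)
  obtain ⟨l1, l2, l3, l4, l5⟩ := key (n + N) _ hle
  rw [← l1]
  have : RF F n * red1 O red β βF U ≤ red1 O red β βF (Rn Kf g β n * U) := by
    rw [Submodule.mul_le]
    intro p hp q hq
    obtain ⟨r, hr, hrp⟩ := r7 n p hp
    obtain ⟨x, hx, hxq⟩ := k4 q hq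
    exact Submodule.subset_span ⟨r * x, Submodule.mul_mem_mul hr hx, r4 _ _ _ _ hrp hxq⟩
  exact Submodule.finrank_mono this

end Pool.Agent.RTB
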