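import Pool.Agent.RTB.KStmts

/-!
# squad RTB, module R1T: rank one theory over the reduction context
-/

set_option autoImplicit false

open Polynomial

namespace Pool.Agent.RTB

namespace R1T_

lemma exists_maxdeg {L : Type} [Field L] (U : Submodule L L[X]) (hU : FiniteDimensional L U) :
    ∃ D : ℕ, (∀ u ∈ U, u.natDegree ≤ D) ∧ ∃ u ∈ U, u.natDegree = D := by
  classical
  have hb : ∃ D : ℕ, ∀ u ∈ U, u.natDegree ≤ D := by
    obtain ⟨s, hs⟩ := (Submodule.fg_iff_finiteDimensional U).2 hU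
    refine ⟨s.sup natDegree, fun u hu => ?_⟩
    rw [← hs] at hu
    induction hu using Submodule.span_induction with
    | mem x hx => exact Finset.le_sup (f := natDegree) hx
    | zero => simp
    | add x y _ _ hx hy => exact le_trans (natDegree_add_le x y) (max_le hx hy)
    | smul a x _ hx => exact le_trans (natDegree_smul_le a x) hx
  refine ⟨Nat.find hb, Nat.find_spec hb, ?_⟩
  by_cases h0 : Nat.find hb = 0
  · exact ⟨0, U.zero_mem, by rw [h0]; simp⟩
  · have hm := Nat.find_min hb (m := Nat.find hb - 1) (by omega)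
    push Not at hm
    obtain ⟨u, hu, hlt⟩ := hm
    exact ⟨u, hu, le_antisymm (Nat.find_spec hb u hu) (by omega)⟩

lemma mulLeft_inj {L : Type} [Field L] {γ : L[X]} (hγ : γ ≠ 0) :
    Function.Injective (LinearMap.mulLeft L γ) := by
  intro a b h
  simpa [hγ] using h

lemma mul_map {L : Type} [Field L] (γ : L[X]) (R U : Submodule L L[X]) :
    R * U.map (LinearMap.mulLeft L γ) = (R * U).map (LinearMap.mulLeft L γ) := by
  apply le_antisymm
  · rw [Submodule.mul_le]
    rintro r hr _ ⟨u, hu, rfl⟩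
    refine ⟨r * u, Submodule.mul_mem_mul hr hu, ?_⟩
    simp only [LinearMap.mulLeft_apply]
    ring
  · rw [Submodule.map_le_iff_le_comap, Submodule.mul_le]
    intro r hr u hu
    rw [Submodule.mem_comap, LinearMap.mulLeft_apply]
    have : γ * (r * u) = r * (LinearMap.mulLeft L γ u) := by
      rw [LinearMap.mulLeft_apply]; ring
    rw [this]
    exact Submodule.mul_mem_mul hr ⟨u, hu, rfl⟩

lemma finrank_map_mulLeft {L : Type} [Field L] {γ : L[X]} (hγ : γ ≠ 0) (U : Submodule L L[X]) :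
    Module.finrank L (U.map (LinearMap.mulLeft L γ)) = Module.finrank L U :=
  (LinearEquiv.finrank_eq (Submodule.equivMapOfInjective _ (mulLeft_inj hγ) U)).symm

end R1T_

open R1T_ in
theorem r1t_proof (hGCD : Stmt_GCD) (hLBD : Stmt_LBD) (hBNS : Stmt_BNS) (hR1D : Stmt_R1D) :
    Stmt_R1T := by
  intro Kf Lf κ _ _ _ _ h0 _ g O red β F βF hg hctx N h U hU hUh h1
  obtain ⟨k1, k2, k3, k4, k5, k6⟩ := hR1D Kf Lf κ g O red β F βF hg h0 hctx N U hU
  have hne : red1 O red β βF U ≠ ⊥ := by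
    intro hbot
    rw [hbot, finrank_bot] at k1
    omega
  obtain ⟨γ, U1, hγ, hcop, hmap⟩ := hGCD κ (red1 O red β βF U) k2 hne
  have hfin1 : Module.finrank κ U1 = h := by
    rw [← hUh, ← k1, hmap, finrank_map_mulLeft hγ]
  have hfd1 : FiniteDimensional κ U1 := by
    rw [hmap] at k2
    exact Module.Finite.equiv (Submodule.equivMapOfInjective _ (mulLeft_inj hγ) U1).symm
  obtain ⟨D, hD, hD'⟩ := exists_maxdeg U1 hfd1
  obtain ⟨N0, hN0⟩ := hLBD κ F g D U1 hctx.ff hg hfd1 hcop hD hD'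
  refine ⟨γ, U1, D, hγ, hcop, hmap, hfin1, hfd1, hD, hD',
    hBNS κ F g D h U1 hctx.ff hfd1 hfin1 h1 hD, N0, fun n hn => ⟨?_, k5 n⟩⟩
  have := hN0 n hn
  rw [hmap, mul_map, finrank_map_mulLeft hγ]
  exact this

end Pool.Agent.RTB
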