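import Pool.Agent.RTB.KStmts

/-!
# squad RTB, module RDB: basic facts on the reduction relation
-/

set_option autoImplicit false

open Polynomial

namespace Pool.Agent.RTB

namespace RDB_

variable {Kf Lf κ : Type} [Field Kf] [Field Lf] [Algebra Kf Lf] [Field κ]
  {O : ValuationSubring Kf} {red : O →+* κ} {β : ℕ → Lf} {βF : ℕ → κ[X]}

theorem red_zero : Red O red β βF 0 0 := ⟨0, fun _ => 0, by simp, by simp⟩

theorem pad1 (a : ℕ → O) {N M : ℕ} (h : N ≤ M) :
    ∑ j ∈ Finset.range M, (((if j < N then a j else 0 : O)) : Kf) • β j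
      = ∑ j ∈ Finset.range N, (a j : Kf) • β j := by
  rw [← Finset.sum_subset (Finset.range_mono h)]
  · refine Finset.sum_congr rfl fun j hj => ?_
    rw [if_pos (Finset.mem_range.1 hj)]
  · intro j _ hj
    rw [if_neg (fun h' => hj (Finset.mem_range.2 h'))]
    simp

theorem pad2 (a : ℕ → O) {N M : ℕ} (h : N ≤ M) :
    ∑ j ∈ Finset.range M, C (red (if j < N then a j else 0 : O)) * βF j
      = ∑ j ∈ Finset.range N, C (red (a j)) * βF j := by
  rw [← Finset.sum_subset (Finset.range_mono h)]
  · refine Finset.sum_congr rfl fun j hj => ?_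
    rw [if_pos (Finset.mem_range.1 hj)]
  · intro j _ hj
    rw [if_neg (fun h' => hj (Finset.mem_range.2 h'))]
    simp

theorem red_add {x y : Lf} {p q : κ[X]} (hx : Red O red β βF x p) (hy : Red O red β βF y q) :
    Red O red β βF (x + y) (p + q) := by
  obtain ⟨N, a, rfl, rfl⟩ := hx
  obtain ⟨M, b, rfl, rfl⟩ := hy
  refine ⟨max N M, fun j => (if j < N then a j else 0) + (if j < M then b j else 0), ?_, ?_⟩
  · rw [← pad1 (β := β) a (le_max_left N M), ← pad1 (β := β) b (le_max_right N M),
      ← Finset.sum_add_distrib]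
    refine Finset.sum_congr rfl fun j _ => ?_
    rw [← add_smul]
    push_cast
    rfl
  · rw [← pad2 (red := red) (βF := βF) a (le_max_left N M),
      ← pad2 (red := red) (βF := βF) b (le_max_right N M), ← Finset.sum_add_distrib]
    refine Finset.sum_congr rfl fun j _ => ?_
    rw [map_add, C_add, add_mul]

theorem red_smul (r : O) {x : Lf} {p : κ[X]} (hx : Red O red β βF x p) :
    Red O red β βF ((r : Kf) • x) (C (red r) * p) := by
  obtain ⟨N, a, rfl, rfl⟩ := hx
  refine ⟨N, fun j => r * a j, ?_, ?_⟩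
  · rw [Finset.smul_sum]
    refine Finset.sum_congr rfl fun j _ => ?_
    rw [smul_smul]
    push_cast
    rfl
  · rw [Finset.mul_sum]
    refine Finset.sum_congr rfl fun j _ => ?_
    rw [map_mul, C_mul]; ring

theorem red_sum {ι : Type} (s : Finset ι) (x : ι → Lf) (p : ι → κ[X])
    (h : ∀ i ∈ s, Red O red β βF (x i) (p i)) :
    Red O red β βF (∑ i ∈ s, x i) (∑ i ∈ s, p i) := by
  classical
  induction s using Finset.induction_on with
  | empty => simpa using red_zero
  | insert i s hi ih =>
    rw [Finset.sum_insert hi, Finset.sum_insert hi]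
    exact red_add (h i (Finset.mem_insert_self i s))
      (ih fun j hj => h j (Finset.mem_insert_of_mem hj))

theorem red_beta (j : ℕ) : Red O red β βF (β j) (βF j) := by
  refine ⟨j + 1, fun i => if i = j then 1 else 0, ?_, ?_⟩
  · rw [Finset.sum_eq_single j]
    · simp
    · intro i _ hi
      simp [hi]
    · intro h
      exact absurd (Finset.mem_range.2 (Nat.lt_succ_self j)) h
  · rw [Finset.sum_eq_single j]
    · simp
    · intro i _ hi
      simp [hi]
    · intro h
      exact absurd (Finset.mem_range.2 (Nat.lt_succ_self j)) h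

theorem red_mul {g : ℕ} {F : κ[X]} (hc : IsCtx g O red β F βF) {x y : Lf} {p q : κ[X]}
    (hx : Red O red β βF x p) (hy : Red O red β βF y q) :
    Red O red β βF (x * y) (p * q) := by
  obtain ⟨N, a, rfl, rfl⟩ := hx
  obtain ⟨M, b, rfl, rfl⟩ := hy
  rw [Finset.sum_mul_sum, Finset.sum_mul_sum]
  refine red_sum _ _ _ fun i _ => red_sum _ _ _ fun j _ => ?_
  have h1 : Red O red β βF (β i * β j) (βF i * βF j) := by
    obtain ⟨c, h1, h2⟩ := hc.mul i j
    exact ⟨_, c, h1, h2⟩
  have h2 := red_smul (a i * b j) h1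
  have e1 : ((a i : Kf) • β i) * ((b j : Kf) • β j) = ((a i * b j : O) : Kf) • (β i * β j) := by
    push_cast
    rw [smul_mul_smul_comm]
  have e2 : C (red (a i)) * βF i * (C (red (b j)) * βF j)
      = C (red (a i * b j)) * (βF i * βF j) := by
    rw [map_mul, C_mul]; ring
  rw [e1, e2]
  exact h2

theorem red_unique {g : ℕ} {F : κ[X]} (hc : IsCtx g O red β F βF) {x : Lf} {p p' : κ[X]}
    (hx : Red O red β βF x p) (hy : Red O red β βF x p') : p = p' := by
  have h := red_add hx (red_smul (-1) hy)
  have e1 : x + ((-1 : O) : Kf) • x = 0 := by push_cast; rw [neg_smul, one_smul]; ring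
  have e2 : p + C (red (-1)) * p' = p - p' := by
    rw [map_neg, map_one, C_neg, C_1]; ring
  rw [e1, e2] at h
  obtain ⟨N, a, h1, h2⟩ := h
  have h3 := linearIndependent_iff'.1 hc.ind (Finset.range N) (fun j => (a j : Kf)) h1.symm
  have h4 : p - p' = 0 := by
    rw [h2]
    refine Finset.sum_eq_zero fun j hj => ?_
    have h5 : a j = 0 := by
      have := h3 j hj
      exact_mod_cast this
    rw [h5]; simp
  exact sub_eq_zero.1 h4

theorem mem_span_Iic {R M : Type} [Field R] [AddCommGroup M] [Module R M] (v : ℕ → M) (d : ℕ)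
    (x : M) : x ∈ Submodule.span R (v '' Set.Iic d) ↔
      ∃ c : ℕ → R, x = ∑ j ∈ Finset.range (d + 1), c j • v j := by
  constructor
  · intro hx
    obtain ⟨l, hl, rfl⟩ := (Finsupp.mem_span_image_iff_linearCombination R).1 hx
    refine ⟨l, ?_⟩
    rw [Finsupp.linearCombination_apply]
    refine Finsupp.sum_of_support_subset _ ?_ _ (fun i _ => zero_smul _ _)
    intro j hj
    have := (Finsupp.mem_supported R l).1 hl hj
    exact Finset.mem_range.2 (Nat.lt_succ_of_le this)
  · rintro ⟨c, rfl⟩
    refine Submodule.sum_mem _ fun j hj => Submodule.smul_mem _ _ (Submodule.subset_span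
      ⟨j, Nat.le_of_lt_succ (Finset.mem_range.1 hj), rfl⟩)

theorem mem_Rn {g n : ℕ} {x : Lf} : x ∈ Rn Kf g β n ↔
    ∃ c : ℕ → Kf, x = ∑ j ∈ Finset.range (n - g + 1), c j • β j :=
  mem_span_Iic β (n - g) x

theorem beta_mem {g n j : ℕ} (h : j ≤ n - g) : β j ∈ Rn Kf g β n :=
  Submodule.subset_span ⟨j, h, rfl⟩

theorem bF_zero {g : ℕ} {F : κ[X]} (hg : 1 ≤ g) (hc : IsCtx g O red β F βF) (N : ℕ)
    (c : ℕ → κ) (h : ∑ j ∈ Finset.range N, C (c j) * βF j = 0) : ∀ j < N, c j = 0 := by
  induction N with
  | zero => intro j hj; omega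
  | succ N ih =>
    have hN0 : βF N ≠ 0 := by
      rcases Nat.eq_zero_or_pos N with h0 | h0
      · rw [h0, hc.bF0]; exact one_ne_zero
      · intro h1
        have := hc.bFdeg N h0
        rw [h1] at this
        simp at this
        omega
    have hlow : ∀ j < N, (βF j).natDegree < (βF N).natDegree := by
      intro j hj
      rw [hc.bFdeg N (by omega)]
      rcases Nat.eq_zero_or_pos j with h0 | h0
      · rw [h0, hc.bF0]; simp; omega
      · rw [hc.bFdeg j h0]; omega
    have h1 : (∑ j ∈ Finset.range (N + 1), C (c j) * βF j).coeff (βF N).natDegree = 0 := by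
      rw [h, coeff_zero]
    rw [Finset.sum_range_succ, coeff_add, finsetSum_coeff, coeff_C_mul, coeff_natDegree] at h1
    rw [Finset.sum_eq_zero (fun j hj => by
      rw [coeff_C_mul, coeff_eq_zero_of_natDegree_lt (hlow j (Finset.mem_range.1 hj)), mul_zero]),
      zero_add] at h1
    have hcN : c N = 0 := by
      rcases mul_eq_zero.1 h1 with h2 | h2
      · exact h2
      · exact absurd (leadingCoeff_eq_zero.1 h2) hN0
    rw [Finset.sum_range_succ, hcN, C_0, zero_mul, add_zero] at h
    intro j hj
    rcases Nat.lt_succ_iff_lt_or_eq.1 hj with h2 | h2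
    · exact ih h j h2
    · rw [h2]; exact hcN

end RDB_

open RDB_ in
theorem rdb_proof (hRFB : Stmt_RFB) : Stmt_RDB := by
  intro Kf Lf κ _ _ _ _ g O red β F βF hg hchar hc
  have hR := hRFB Kf Lf κ g O red β F βF hg hchar hc
  have hbRF : ∀ n j, j ≤ n - g → βF j ∈ RF F n := fun n j hj => by
    rw [(hR n).1]; exact Submodule.subset_span ⟨j, hj, rfl⟩
  have hind : ∀ (N : ℕ) (c : ℕ → Kf), ∑ j ∈ Finset.range N, c j • β j = 0 → ∀ j < N, c j = 0 :=
    fun N c h j hj => linearIndependent_iff'.1 hc.ind (Finset.range N) c h j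
      (Finset.mem_range.2 hj)
  refine ⟨fun x p p' h1 h2 => red_unique hc h1 h2, fun x y p q h1 h2 => red_add h1 h2,
    fun x p r h => red_smul r h, fun x y p q h1 h2 => red_mul hc h1 h2, fun j => red_beta j,
    ?_, ?_, ?_, ?_, ?_, ?_, ?_⟩
  · -- (6)
    intro n x hx hx0
    obtain ⟨c, rfl⟩ := mem_Rn.1 hx
    obtain ⟨j0, hj0, hmax⟩ := Finset.exists_max_image (Finset.range (n - g + 1))
      (fun j => O.valuation (c j)) ⟨0, Finset.mem_range.2 (by omega)⟩
    have hc0 : c j0 ≠ 0 := by
      intro h0
      apply hx0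
      refine Finset.sum_eq_zero fun j hj => ?_
      have h1 := hmax j hj
      rw [h0, map_zero] at h1
      have h2 : O.valuation (c j) = 0 := le_antisymm h1 zero_le'
      rw [(map_eq_zero O.valuation).1 h2, zero_smul]
    have hO : ∀ j ∈ Finset.range (n - g + 1), (c j0)⁻¹ * c j ∈ O := by
      intro j hj
      rw [← O.valuation_le_one_iff, map_mul, map_inv₀]
      have h1 := hmax j hj
      have h2 : O.valuation (c j0) ≠ 0 := (Valuation.ne_zero_iff _).2 hc0
      calc (O.valuation (c j0))⁻¹ * O.valuation (c j)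
          ≤ (O.valuation (c j0))⁻¹ * O.valuation (c j0) := by gcongr
        _ = 1 := inv_mul_cancel₀ h2
    classical
    let a : ℕ → O := fun j => if h : j ∈ Finset.range (n - g + 1) then ⟨_, hO j h⟩ else 0
    have ha : ∀ j ∈ Finset.range (n - g + 1), ((a j : O) : Kf) = (c j0)⁻¹ * c j := by
      intro j hj
      simp only [a, dif_pos hj]
    have ha0 : a j0 = 1 := by
      apply Subtype.ext
      rw [ha j0 hj0, inv_mul_cancel₀ hc0]; rfl
    refine ⟨(c j0)⁻¹, ∑ j ∈ Finset.range (n - g + 1), C (red (a j)) * βF j, inv_ne_zero hc0, ?_,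
      n - g + 1, a, ?_, rfl⟩
    · intro h
      have := bF_zero hg hc _ _ h j0 (Finset.mem_range.1 hj0)
      rw [ha0, map_one] at this
      exact one_ne_zero this
    · rw [Finset.smul_sum]
      refine Finset.sum_congr rfl fun j hj => ?_
      rw [ha j hj, smul_smul]
  · -- (7)
    intro n p hp
    rw [(hR n).1, mem_span_Iic] at hp
    obtain ⟨c, rfl⟩ := hp
    choose r hr using fun j => hc.surj (c j)
    refine ⟨∑ j ∈ Finset.range (n - g + 1), (r j : Kf) • β j, mem_Rn.2 ⟨_, rfl⟩,
      n - g + 1, r, rfl, ?_⟩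
    refine Finset.sum_congr rfl fun j _ => ?_
    rw [hr, smul_eq_C_mul]
  · -- (8)
    intro n x p hx hp
    obtain ⟨N, a, h1, rfl⟩ := hp
    obtain ⟨c, hcx⟩ := mem_Rn.1 hx
    refine Submodule.sum_mem _ fun j hj => ?_
    rcases le_or_gt j (n - g) with hjn | hjn
    · rw [← smul_eq_C_mul]
      exact Submodule.smul_mem _ _ (hbRF n j hjn)
    · have h2 : ∑ i ∈ Finset.range (max N (n - g + 1)),
          (((if i < N then (a i : Kf) else 0)) - (if i < n - g + 1 then c i else 0)) • β i = 0 := by
        simp only [sub_smul, Finset.sum_sub_distrib]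
        have e1 : ∑ i ∈ Finset.range (max N (n - g + 1)), (if i < N then (a i : Kf) else 0) • β i
            = ∑ i ∈ Finset.range N, (a i : Kf) • β i := by
          rw [← Finset.sum_subset (Finset.range_mono (le_max_left N (n - g + 1)))]
          · refine Finset.sum_congr rfl fun i hi => ?_
            rw [if_pos (Finset.mem_range.1 hi)]
          · intro i _ hi
            rw [if_neg (fun h' => hi (Finset.mem_range.2 h')), zero_smul]
        have e2 : ∑ i ∈ Finset.range (max N (n - g + 1)), (if i < n - g + 1 then c i else 0) • β i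
            = ∑ i ∈ Finset.range (n - g + 1), c i • β i := by
          rw [← Finset.sum_subset (Finset.range_mono (le_max_right N (n - g + 1)))]
          · refine Finset.sum_congr rfl fun i hi => ?_
            rw [if_pos (Finset.mem_range.1 hi)]
          · intro i _ hi
            rw [if_neg (fun h' => hi (Finset.mem_range.2 h')), zero_smul]
        rw [e1, e2, ← h1, ← hcx, sub_self]
      have h3 := hind _ _ h2 j (lt_of_lt_of_le (Finset.mem_range.1 hj) (le_max_left _ _))
      rw [if_pos (Finset.mem_range.1 hj), if_neg (by omega), sub_zero] at h3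
      have h4 : a j = 0 := by exact_mod_cast h3
      rw [h4]; simp
  · -- (9)
    intro n m
    unfold Rn
    rw [Submodule.span_mul_span, Submodule.span_le]
    rintro z ⟨x, ⟨i, hi, rfl⟩, y, ⟨j, hj, rfl⟩, rfl⟩
    have hi' : i ≤ n - g := hi
    have hj' : j ≤ m - g := hj
    show β i * β j ∈ Rn Kf g β (n + m)
    rcases Nat.eq_zero_or_pos i with h0 | h0
    · rw [h0, hc.b0, one_mul]
      exact beta_mem (by omega)
    · rcases Nat.eq_zero_or_pos j with h1 | h1
      · rw [h1, hc.b0, mul_one]
        exact beta_mem (by omega)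
      · obtain ⟨a, h2, -⟩ := hc.mul i j
        rw [h2]
        refine Submodule.sum_mem _ fun l hl => Submodule.smul_mem _ _ (beta_mem ?_)
        have := Finset.mem_range.1 hl
        omega
  · -- (10)
    intro n
    have e : β '' Set.Iic (n - g) = Set.range (fun j : Fin (n - g + 1) => β j) := by
      ext z
      constructor
      · rintro ⟨j, hj, rfl⟩
        exact ⟨⟨j, Nat.lt_succ_of_le hj⟩, rfl⟩
      · rintro ⟨j, rfl⟩
        exact ⟨j, Nat.le_of_lt_succ j.2, rfl⟩
    have hli : LinearIndependent Kf (fun j : Fin (n - g + 1) => β j) :=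
      hc.ind.comp _ Fin.val_injective
    unfold Rn
    rw [e]
    refine ⟨?_, ?_⟩
    · rw [finrank_span_eq_card hli, Fintype.card_fin]
    · exact FiniteDimensional.span_of_finite Kf (Set.finite_range _)
  · intro n m hnm
    exact Submodule.span_mono (Set.image_mono (Set.Iic_subset_Iic.2 (by omega)))
  · intro n
    rw [← hc.b0]
    exact beta_mem (Nat.zero_le _)

end Pool.Agent.RTB
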