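import Pool.Agent.RTB.SStmts

/-!
# squad RTB, module RES: the residue theorem argument
-/

set_option autoImplicit false

open Polynomial

namespace Pool.Agent.RTB

namespace RES_

variable {L : Type} [Field L]

/-- the local condition on `T` at `c` -/
def Loc (F w0 T : L[X]) (c : L) : Prop :=
  (w0.eval c * (derivative T).eval c - (derivative w0).eval c * T.eval c) *
      (derivative F).eval c
    = (derivative (derivative F)).eval c * w0.eval c * T.eval c

theorem Loc_add {F w0 T T' : L[X]} {c : L} (h : Loc F w0 T c) (h' : Loc F w0 T' c) :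
    Loc F w0 (T + T') c := by
  simp only [Loc, derivative_add, eval_add] at *
  linear_combination h + h'

theorem Loc_zero (F w0 : L[X]) (c : L) : Loc F w0 0 c := by
  simp [Loc]

theorem loc_of_J {F w0 f w m : L[X]} {c : L} (hf : f.eval c ≠ 0)
    (hJ : (w0 * wr f w - f * w * derivative w0).eval c = 0)
    (hm : (derivative (f * m)).eval c * (derivative F).eval c
      = (derivative (derivative F)).eval c * (f * m).eval c) : Loc F w0 (w * m) c := by
  simp only [Loc, wr, derivative_mul, eval_add, eval_sub, eval_mul] at *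
  apply mul_left_cancel₀ hf
  linear_combination (m.eval c * (derivative F).eval c) * hJ + (w0.eval c * w.eval c) * hm

theorem loc_double {F w0 T : L[X]} {c : L} (h0 : T.eval c = 0)
    (h1 : (derivative T).eval c = 0) : Loc F w0 T c := by
  simp [Loc, h0, h1]

/-- a functional which vanishes on the elements with zero 1-jet is a combination of the value and
the derivative -/
theorem factor_jet (P : Submodule L L[X]) (c : L) (Φ : L[X] →ₗ[L] L)
    (h : ∀ ω ∈ P, ω.eval c = 0 → (derivative ω).eval c = 0 → Φ ω = 0) :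
    ∃ α β : L, ∀ ω ∈ P, Φ ω = α * ω.eval c + β * (derivative ω).eval c := by
  let L0 : P →ₗ[L] L := (leval c).comp P.subtype
  let L1 : P →ₗ[L] L := ((leval c).comp (derivative : L[X] →ₗ[L] L[X])).comp P.subtype
  let K : P →ₗ[L] L := Φ.comp P.subtype
  have hk : ⨅ i, LinearMap.ker ((![L0, L1] : Fin 2 → P →ₗ[L] L) i) ≤ LinearMap.ker K := by
    intro x hx
    rw [Submodule.mem_iInf] at hx
    have h0 := hx 0
    have h1 := hx 1
    simp only [LinearMap.mem_ker] at h0 h1 ⊢
    exact h x x.2 h0 h1
  have hK := mem_span_of_iInf_ker_le_ker hk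
  have hr : Set.range (![L0, L1] : Fin 2 → P →ₗ[L] L) = {L0, L1} := by
    ext z
    simp only [Set.mem_range, Set.mem_insert_iff, Set.mem_singleton_iff]
    constructor
    · rintro ⟨i, rfl⟩
      fin_cases i
      · left; rfl
      · right; rfl
    · rintro (rfl | rfl)
      · exact ⟨0, rfl⟩
      · exact ⟨1, rfl⟩
  rw [hr, Submodule.mem_span_pair] at hK
  obtain ⟨α, β, hab⟩ := hK
  refine ⟨α, β, fun ω hω => ?_⟩
  have := congrArg (fun (M : P →ₗ[L] L) => M ⟨ω, hω⟩) hab
  simp only [LinearMap.add_apply, LinearMap.smul_apply, smul_eq_mul] at this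
  exact this.symm

/-- the functional of the local condition -/
noncomputable def Phi (f w0 : L[X]) (W : L[X] →ₗ[L] L[X]) (c : L) : L[X] →ₗ[L] L where
  toFun := fun ω => (w0 * wr f (W ω) - f * W ω * derivative w0).eval c
  map_add' := fun a b => by
    simp only [wr, map_add, eval_add, eval_sub, eval_mul]; ring
  map_smul' := fun r a => by
    rw [LinearMap.map_smul]
    simp only [wr, smul_eq_C_mul, derivative_mul, derivative_C, eval_sub,
      eval_mul, eval_C, zero_mul, zero_add, RingHom.id_apply]; ring

theorem exists_rho {f w0 : L[X]} {W : L[X] →ₗ[L] L[X]} {c : L} (P : Submodule L L[X])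
    (hf : f.eval c ≠ 0) (hw : w0.eval c ≠ 0)
    (h : ∀ ω ∈ P, ω.eval c = 0 → (derivative ω).eval c = 0 →
      (w0 * wr f (W ω) - f * W ω * derivative w0).eval c = 0) :
    ∃ ρ : L[X], ∀ ω ∈ P, (w0 * wr f (W ω - ρ * w0 * ω)
      - f * (W ω - ρ * w0 * ω) * derivative w0).eval c = 0 := by
  obtain ⟨α, β, hab⟩ := factor_jet P c (Phi f w0 W c) h
  set p0 : L := β / (f.eval c * w0.eval c ^ 2) with hp0
  set p1 : L := (α / w0.eval c ^ 2 + (derivative f).eval c * p0) / f.eval c with hp1
  have e0 : f.eval c * w0.eval c ^ 2 * p0 = β := by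
    rw [hp0]; field_simp
  have e1 : w0.eval c ^ 2 * (f.eval c * p1 - (derivative f).eval c * p0) = α := by
    rw [hp1]; field_simp; ring
  refine ⟨C p0 + C p1 * (X - C c), fun ω hω => ?_⟩
  have h1 : (w0 * wr f (W ω) - f * W ω * derivative w0).eval c
      = α * ω.eval c + β * (derivative ω).eval c := hab ω hω
  simp only [wr, derivative_sub, derivative_add, derivative_mul, derivative_C, derivative_X,
    eval_add, eval_sub, eval_mul, eval_C, eval_X, sub_self, mul_zero, zero_mul, add_zero,
    zero_add, sub_zero, mul_one, eval_one] at h1 ⊢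
  linear_combination h1 - ω.eval c * e1 - (derivative ω).eval c * e0

end RES_

open RES_

theorem res_proof (hHIN : Stmt_HIN) (hRSL : Stmt_RSL) : Stmt_RES := by
  intro L _ _ _ F f1 f2 w0 C0 g K e D P Q W hF hg hKe hD hD1 hw0 hQ hbase hW hJ u hu
  obtain ⟨-, hF1, -, -, -, -⟩ := hHIN L F g hF
  have hw0ne : w0 ≠ 0 := by
    rintro rfl
    rw [natDegree_zero] at hD
    omega
  -- the local polynomials
  have hloc : ∀ c : L, ∃ ρ : L[X], F.eval c = 0 → ∀ ω ∈ P, ∀ m ∈ Q,
      Loc F w0 ((W ω - ρ * w0 * ω) * m) c := by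
    intro c
    by_cases hc : F.eval c = 0
    swap
    · exact ⟨0, fun h => absurd h hc⟩
    by_cases h12 : f1.eval c = 0 ∧ f2.eval c = 0
    · obtain ⟨hd, hm0⟩ := hbase c hc h12.1 h12.2
      refine ⟨0, fun _ ω hω m hm => ?_⟩
      have hJc : Jc f1 f2 w0 (W ω) c := by
        rcases hJ c hc with h | h
        · exact h ω hω
        · rcases h.1 with h' | h'
          · exact absurd h12.1 h'
          · exact absurd h12.2 h'
      have hz : (W ω).eval c = 0 := by
        have h1 := hJc.1
        have h2 := hJc.2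
        simp only [wr, eval_sub, eval_mul, h12.1, h12.2, zero_mul, zero_sub, mul_neg,
          sub_zero, neg_eq_zero, mul_eq_zero, hw0 c hc, false_or] at h1 h2
        rcases hd with hd | hd
        · exact h1.resolve_left hd
        · exact h2.resolve_left hd
      rw [zero_mul, zero_mul, sub_zero]
      apply loc_double
      · rw [eval_mul, hz, zero_mul]
      · rw [derivative_mul, eval_add, eval_mul, eval_mul, hz, hm0 m hm, mul_zero, zero_mul,
          add_zero]
    · -- some `f` does not vanish
      have hex : ∃ f : L[X], (f = f1 ∨ f = f2) ∧ f.eval c ≠ 0 := by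
        by_cases h1 : f1.eval c = 0
        · exact ⟨f2, Or.inr rfl, fun h => h12 ⟨h1, h⟩⟩
        · exact ⟨f1, Or.inl rfl, h1⟩
      obtain ⟨f, hf, hfc⟩ := hex
      have hJf : ∀ w : L[X], Jc f1 f2 w0 w c →
          (w0 * wr f w - f * w * derivative w0).eval c = 0 := by
        intro w hw
        rcases hf with rfl | rfl
        · exact hw.1
        · exact hw.2
      have hρ : ∃ ρ : L[X], ∀ ω ∈ P, (w0 * wr f (W ω - ρ * w0 * ω)
          - f * (W ω - ρ * w0 * ω) * derivative w0).eval c = 0 := by
        apply exists_rho P hfc (hw0 c hc)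
        intro ω hω h0 h1
        rcases hJ c hc with h | h
        · exact hJf _ (h ω hω)
        · exact hJf _ (h.2.2 ω hω h0 h1)
      obtain ⟨ρ, hρ⟩ := hρ
      exact ⟨ρ, fun _ ω hω m hm => loc_of_J hfc (hρ ω hω) ((hQ m hm).2 c hc f hf)⟩
  choose R hR using hloc
  -- the polynomial `T`
  have hT : ∀ z ∈ Q * P, ∃ T : L[X], T.natDegree ≤ 2 * g - 2 + D ∧ w0 ∣ T - C0 * z ∧
      ∀ c, F.eval c = 0 → Loc F w0 (T - R c * w0 * z) c := by
    intro z hz
    refine Submodule.mul_induction_on hz ?_ ?_
    · intro m hm ω hω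
      refine ⟨W ω * m, ?_, ?_, fun c hc => ?_⟩
      · refine le_trans natDegree_mul_le ?_
        have h1 := (hW ω hω).1
        have h2 := (hQ m hm).1
        omega
      · have h1 := (hW ω hω).2
        have h2 : W ω * m - C0 * (m * ω) = m * (W ω - C0 * ω) := by ring
        rw [h2]
        exact Dvd.dvd.mul_left h1 m
      · have h2 : W ω * m - R c * w0 * (m * ω) = (W ω - R c * w0 * ω) * m := by ring
        rw [h2]
        exact hR c hc ω hω m hm
    · rintro x y ⟨T, hT1, hT2, hT3⟩ ⟨T', hT1', hT2', hT3'⟩
      refine ⟨T + T', le_trans (natDegree_add_le _ _) (max_le hT1 hT1'), ?_, fun c hc => ?_⟩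
      · have h2 : T + T' - C0 * (x + y) = (T - C0 * x) + (T' - C0 * y) := by ring
        rw [h2]
        exact dvd_add hT2 hT2'
      · have h2 : T + T' - R c * w0 * (x + y)
            = (T - R c * w0 * x) + (T' - R c * w0 * y) := by ring
        rw [h2]
        exact Loc_add (hT3 c hc) (hT3' c hc)
  obtain ⟨T, hT1, hT2, hT3⟩ := hT _ hu
  set ρ := (C0 * u) % w0 with hρ
  have hρdeg : ρ.natDegree ≤ D - 1 := by
    have h1 : ρ.degree < w0.degree := by
      rw [hρ]; exact EuclideanDomain.mod_lt _ hw0ne
    by_cases h0 : ρ = 0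
    · rw [h0, natDegree_zero]; omega
    · have := natDegree_lt_natDegree h0 h1
      omega
  have hdvd : w0 ∣ T - ρ * F ^ 2 := by
    have h1 : w0 ∣ C0 * u - ρ := by
      refine ⟨(C0 * u) / w0, ?_⟩
      have := EuclideanDomain.div_add_mod (C0 * u) w0
      rw [hρ]
      linear_combination -this
    have h2 : T - ρ * F ^ 2 = (T - C0 * (F ^ 2 * u)) + F ^ 2 * (C0 * u - ρ) := by ring
    rw [h2]
    exact dvd_add hT2 (Dvd.dvd.mul_left h1 _)
  obtain ⟨y, hy⟩ := hdvd
  have hF2 : (F ^ 2).natDegree = 2 * g := by
    rw [hF.mon.natDegree_pow, hF.deg]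
  have hρF : (ρ * F ^ 2).natDegree ≤ D - 1 + 2 * g := by
    refine le_trans natDegree_mul_le ?_
    rw [hF2]; omega
  have hydeg : y.natDegree ≤ 2 * g - 1 := by
    by_cases h0 : y = 0
    · rw [h0, natDegree_zero]; omega
    · have h1 : (w0 * y).natDegree = D + y.natDegree := by
        rw [natDegree_mul hw0ne h0, hD]
      have h2 : (T - ρ * F ^ 2).natDegree ≤ D - 1 + 2 * g := by
        refine le_trans (natDegree_sub_le _ _) (max_le ?_ hρF)
        omega
      rw [hy, h1] at h2
      omega
  -- local conditions for `y`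
  have hyloc : ∀ c, F.eval c = 0 → (derivative y).eval c * (derivative F).eval c
      = (derivative (derivative F)).eval c * y.eval c := by
    intro c hc
    have h3 := hT3 c hc
    have hw := hw0 c hc
    have e0 : T.eval c = w0.eval c * y.eval c := by
      have := congrArg (eval c) hy
      simp only [eval_sub, eval_mul, eval_pow, hc] at this
      linear_combination this
    have e1 : (derivative T).eval c
        = (derivative w0).eval c * y.eval c + w0.eval c * (derivative y).eval c := by
      have := congrArg (fun p : L[X] => (derivative p).eval c) hy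
      simp only [derivative_sub, derivative_mul, pow_two, eval_sub, eval_add, eval_mul, hc]
        at this
      linear_combination this
    simp only [Loc, derivative_sub, derivative_mul, pow_two, eval_sub, eval_add, eval_mul,
      hc, e0, e1] at h3
    apply mul_left_cancel₀ (pow_ne_zero 2 hw)
    linear_combination h3
  obtain ⟨h, hh, hyh⟩ := hRSL L F g hF hg y hydeg hyloc
  have hFc : F.coeff g = 1 := by
    have := hF.mon.coeff_natDegree
    rwa [hF.deg] at this
  -- degree of `y`
  have hydeg2 : y.natDegree ≤ 2 * g - 2 := by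
    rw [natDegree_le_iff_coeff_eq_zero]
    intro N hN
    by_cases hN2 : 2 * g - 1 < N
    · exact coeff_eq_zero_of_natDegree_lt (lt_of_le_of_lt hydeg hN2)
    · have hNe : N = 2 * g - 1 := by omega
      rw [hyh, wr, coeff_sub]
      have hd1 : (derivative h).natDegree ≤ g - 2 :=
        le_trans (natDegree_derivative_le h) (by omega)
      have hd2 : (derivative F).natDegree ≤ g - 1 :=
        le_trans (natDegree_derivative_le F) (by rw [hF.deg])
      have h2 : (derivative F * h).coeff N = 0 := by
        apply coeff_eq_zero_of_natDegree_lt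
        refine lt_of_le_of_lt natDegree_mul_le ?_
        omega
      have h1 : (F * derivative h).coeff N = 0 := by
        by_cases hg1 : g = 1
        · have : derivative h = 0 := by
            have hh0 : h.natDegree ≤ 0 := by omega
            rw [eq_C_of_natDegree_le_zero hh0, derivative_C]
          rw [this, mul_zero, coeff_zero]
        · apply coeff_eq_zero_of_natDegree_lt
          refine lt_of_le_of_lt natDegree_mul_le ?_
          rw [hF.deg]
          omega
      rw [h1, h2, sub_zero]
  -- conclusion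
  have hfin : (ρ * F ^ 2).natDegree ≤ D - 1 + (2 * g - 1) := by
    have h1 : ρ * F ^ 2 = T - w0 * y := by rw [← hy]; ring
    rw [h1]
    refine le_trans (natDegree_sub_le _ _) (max_le (by omega) ?_)
    refine le_trans natDegree_mul_le ?_
    rw [hD]; omega
  have hc1 : (ρ * F ^ 2).coeff (D - 1 + 2 * g) = 0 :=
    coeff_eq_zero_of_natDegree_lt (lt_of_le_of_lt hfin (by omega))
  have hc2 : (ρ * F ^ 2).coeff (D - 1 + 2 * g) = ρ.coeff (D - 1) * (F ^ 2).coeff (2 * g) := by
    exact coeff_mul_add_eq_of_natDegree_le hρdeg (by rw [hF2])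
  have hc3 : (F ^ 2).coeff (2 * g) = 1 := by
    have := (hF.mon.pow 2).coeff_natDegree
    rwa [hF2] at this
  rw [hc2, hc3, mul_one] at hc1
  exact hc1

end Pool.Agent.RTB
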