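import Pool.Agent.RTB.KStmts

/-!
# squad RTB, module RFB: the filtration on the cuspidal curve
-/

set_option autoImplicit false

open Polynomial

namespace Pool.Agent.RTB

namespace RFB_

variable {κ : Type} [Field κ]

theorem linInd {g : ℕ} {b : ℕ → κ[X]} (h0 : b 0 = 1)
    (hdeg : ∀ j, 1 ≤ j → (b j).natDegree = g + j) :
    ∀ n, LinearIndependent κ (fun i : Fin (n + 1) => b i) := by
  intro n
  induction n with
  | zero =>
    rw [linearIndependent_finSucc']
    refine ⟨linearIndependent_empty_type, ?_⟩
    have : (Set.range (Fin.init fun i : Fin (0 + 1) => b i)) = ∅ := by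
      simp
    rw [this, Submodule.span_empty]
    simp [h0]
  | succ n ih =>
    rw [linearIndependent_finSucc']
    refine ⟨ih, ?_⟩
    intro hmem
    have hle : Submodule.span κ (Set.range (Fin.init fun i : Fin (n + 1 + 1) => b i))
        ≤ PL κ (g + n) := by
      rw [Submodule.span_le]
      rintro _ ⟨i, rfl⟩
      show (b _).natDegree ≤ g + n
      rcases Nat.eq_zero_or_pos (i : ℕ) with h | h
      · have : ((Fin.castSucc i : Fin (n + 1 + 1)) : ℕ) = 0 := by simpa using h
        rw [this, h0]; simp
      · have h1 : ((Fin.castSucc i : Fin (n + 1 + 1)) : ℕ) = i := by simp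
        rw [h1, hdeg i h]
        have := i.isLt
        omega
    have h2 := hle hmem
    rw [mem_PL, Fin.val_last, hdeg (n + 1) (by omega)] at h2
    omega

end RFB_

open RFB_

theorem rfb_proof : Stmt_RFB := by
  intro Kf Lf κ _ _ _ _ g O red β F βF hg hchar hctx n
  have hF0 : F ≠ 0 := hctx.ff.mon.ne_zero
  have hFd : F.natDegree = g := hctx.ff.deg
  have hmemb : ∀ j, j ≤ n - g → βF j ∈ RF F n := by
    intro j hj
    rw [mem_RF]
    refine ⟨?_, hctx.bFdvd j⟩
    rcases Nat.eq_zero_or_pos j with h | h
    · rw [h, hctx.bF0]; simp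
    · rw [hctx.bFdeg j h]; omega
  have hsub : ∀ d (p : κ[X]), p.natDegree ≤ d → p ∈ RF F n →
      p ∈ Submodule.span κ (βF '' Set.Iic (n - g)) := by
    have hconst : ∀ p : κ[X], p.natDegree = 0 →
        p ∈ Submodule.span κ (βF '' Set.Iic (n - g)) := by
      intro p hp
      rw [eq_C_of_natDegree_eq_zero hp]
      have h1 : (C (p.coeff 0) : κ[X]) = p.coeff 0 • βF 0 := by
        rw [hctx.bF0, smul_eq_C_mul, mul_one]
      rw [h1]
      exact Submodule.smul_mem _ _ (Submodule.subset_span ⟨0, by simp, rfl⟩)
    intro d
    induction d with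
    | zero =>
      intro p hp _
      exact hconst p (by omega)
    | succ d ih =>
      intro p hp hpm
      by_cases hd : p.natDegree ≤ d
      · exact ih p hd hpm
      have hd' : p.natDegree = d + 1 := by omega
      have hp0 : p ≠ 0 := by rintro rfl; simp at hd'
      obtain ⟨hpn, hpF⟩ := mem_RF.mp hpm
      have hder : (derivative p).natDegree ≤ d := by
        have := natDegree_derivative_le p
        omega
      have hder0 : derivative p ≠ 0 := by
        intro h0
        have := derivative_eq_zero.mp h0
        omega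
      have hgd : g ≤ d := by
        have := natDegree_le_of_dvd hpF hder0
        omega
      set j := d + 1 - g with hj
      have hj1 : 1 ≤ j := by omega
      have hjn : j ≤ n - g := by omega
      have hbj : (βF j).natDegree = d + 1 := by rw [hctx.bFdeg j hj1]; omega
      have hbj0 : βF j ≠ 0 := by intro h0; rw [h0] at hbj; simp at hbj
      set s : κ := p.leadingCoeff / (βF j).leadingCoeff with hs
      have hlc : (βF j).leadingCoeff ≠ 0 := leadingCoeff_ne_zero.mpr hbj0
      have hq : (p - s • βF j).natDegree ≤ d := by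
        rw [natDegree_le_iff_coeff_eq_zero]
        intro m hm
        rw [coeff_sub, coeff_smul, smul_eq_mul]
        rcases Nat.lt_or_ge (d + 1) m with h | h
        · rw [coeff_eq_zero_of_natDegree_lt (by omega), coeff_eq_zero_of_natDegree_lt (by omega)]
          ring
        · have hm' : m = d + 1 := by omega
          subst hm'
          have e1 : p.coeff (d + 1) = p.leadingCoeff := by rw [leadingCoeff, hd']
          have e2 : (βF j).coeff (d + 1) = (βF j).leadingCoeff := by rw [leadingCoeff, hbj]
          rw [e1, e2, hs, div_mul_cancel₀ _ hlc, sub_self]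
      have hqm : p - s • βF j ∈ RF F n :=
        Submodule.sub_mem _ hpm (Submodule.smul_mem _ _ (hmemb j hjn))
      have h1 := ih _ hq hqm
      have h2 : p = (p - s • βF j) + s • βF j := by ring
      rw [h2]
      exact Submodule.add_mem _ h1
        (Submodule.smul_mem _ _ (Submodule.subset_span ⟨j, hjn, rfl⟩))
  have heq : RF F n = Submodule.span κ (βF '' Set.Iic (n - g)) := by
    apply le_antisymm
    · intro p hp
      exact hsub p.natDegree p le_rfl hp
    · rw [Submodule.span_le]
      rintro _ ⟨j, hj, rfl⟩
      exact hmemb j hj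
  have hrange : βF '' Set.Iic (n - g) = Set.range (fun i : Fin (n - g + 1) => βF i) := by
    ext p
    constructor
    · rintro ⟨j, hj, rfl⟩
      exact ⟨⟨j, Nat.lt_succ_of_le hj⟩, rfl⟩
    · rintro ⟨i, rfl⟩
      exact ⟨i, Nat.lt_succ_iff.mp i.isLt, rfl⟩
  refine ⟨heq, ?_, ?_⟩
  · rw [heq, hrange, finrank_span_eq_card (linInd hctx.bF0 hctx.bFdeg (n - g)),
      Fintype.card_fin]
  · rw [heq, hrange]
    exact FiniteDimensional.span_of_finite κ (Set.finite_range _)

end Pool.Agent.RTB
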