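import Pool.Agent.RTB.KStmts

set_option autoImplicit false

open Polynomial

namespace Pool.Agent.RTB

namespace RLF_

/-- relations with coefficients in `R` -/
def Rel {k A : Type} [Field k] [CommRing A] [Algebra k A] {h q : ℕ} (R : Submodule k A)
    (y : Fin h → Fin q → A) : Submodule k (Fin h → A) where
  carrier := {r | (∀ i, r i ∈ R) ∧ ∀ j, ∑ i, r i * y i j = 0}
  zero_mem' := ⟨fun _ => R.zero_mem, fun j => by simp⟩
  add_mem' := fun {a b} ha hb => by
    refine ⟨fun i => R.add_mem (ha.1 i) (hb.1 i), fun j => ?_⟩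
    simp only [Pi.add_apply, add_mul, Finset.sum_add_distrib]
    rw [ha.2 j, hb.2 j, add_zero]
  smul_mem' := fun c a ha => by
    refine ⟨fun i => R.smul_mem c (ha.1 i), fun j => ?_⟩
    simp only [Pi.smul_apply, smul_mul_assoc]
    rw [← Finset.smul_sum, ha.2 j, smul_zero]

/-- the map `r ↦ ∑ r_i y_i` -/
def phi {k A : Type} [Field k] [CommRing A] [Algebra k A] {h q : ℕ} (R : Submodule k A)
    (y : Fin h → Fin q → A) : (Fin h → R) →ₗ[k] (Fin q → A) where
  toFun := fun r j => ∑ i, (r i : A) * y i j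
  map_add' := fun a b => by
    funext j
    simp only [Pi.add_apply, Submodule.coe_add, add_mul, Finset.sum_add_distrib]
  map_smul' := fun c a => by
    funext j
    simp only [Pi.smul_apply, Submodule.coe_smul, smul_mul_assoc, RingHom.id_apply,
      Finset.smul_sum]

/-- the inclusion -/
def inc {k A : Type} [Field k] [CommRing A] [Algebra k A] (h : ℕ) (R : Submodule k A) :
    (Fin h → R) →ₗ[k] (Fin h → A) where
  toFun := fun r i => (r i : A)
  map_add' := fun a b => rfl
  map_smul' := fun c a => rfl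

theorem inc_inj {k A : Type} [Field k] [CommRing A] [Algebra k A] (h : ℕ) (R : Submodule k A) :
    Function.Injective (inc h R) := by
  intro a b hab
  funext i
  exact Subtype.ext (congrFun hab i)

theorem rel_eq {k A : Type} [Field k] [CommRing A] [Algebra k A] {h q : ℕ} (R : Submodule k A)
    (y : Fin h → Fin q → A) : (LinearMap.ker (phi R y)).map (inc h R) = Rel R y := by
  ext r
  constructor
  · rintro ⟨s, hs, rfl⟩
    refine ⟨fun i => (s i).2, fun j => ?_⟩
    exact congrFun (LinearMap.mem_ker.mp hs) j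
  · rintro ⟨h1, h2⟩
    refine ⟨fun i => ⟨r i, h1 i⟩, ?_, rfl⟩
    rw [SetLike.mem_coe, LinearMap.mem_ker]
    funext j
    exact h2 j

theorem range_eq {k A : Type} [Field k] [CommRing A] [Algebra k A] {h q : ℕ}
    (R : Submodule k A) (y : Fin h → Fin q → A) :
    LinearMap.range (phi R y) =
      Submodule.span k {z : Fin q → A | ∃ r ∈ R, ∃ i, z = r • y i} := by
  classical
  apply le_antisymm
  · rintro _ ⟨r, rfl⟩
    have : phi R y r = ∑ i, (r i : A) • y i := by
      funext j
      simp [phi, Finset.sum_apply]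
    rw [this]
    exact Submodule.sum_mem _ (fun i _ => Submodule.subset_span ⟨r i, (r i).2, i, rfl⟩)
  · rw [Submodule.span_le]
    rintro _ ⟨r, hr, i, rfl⟩
    refine ⟨Pi.single i ⟨r, hr⟩, ?_⟩
    funext j
    show ∑ i', ((Pi.single i (⟨r, hr⟩ : R) : Fin h → R) i' : A) * y i' j = r * y i j
    rw [Finset.sum_eq_single i]
    · simp
    · intro b _ hb
      simp [Pi.single_eq_of_ne hb]
    · simp

theorem rel_dim {k A : Type} [Field k] [CommRing A] [Algebra k A] {h q : ℕ}
    (R : Submodule k A) (hR : FiniteDimensional k R) (y : Fin h → Fin q → A) :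
    Module.finrank k (Submodule.span k {z : Fin q → A | ∃ r ∈ R, ∃ i, z = r • y i})
      + Module.finrank k (Rel R y) = h * Module.finrank k R ∧
    FiniteDimensional k (Rel R y) := by
  have e := Submodule.equivMapOfInjective (inc h R) (inc_inj h R) (LinearMap.ker (phi R y))
  rw [rel_eq] at e
  constructor
  · rw [← range_eq, ← e.finrank_eq, LinearMap.finrank_range_add_finrank_ker,
      Module.finrank_pi_fintype]
    simp
  · exact Module.Finite.equiv e

end RLF_

open RLF_ in
theorem rlf_proof (hRVD : Stmt_RVD) (hRDB : Stmt_RDB) (hRFB : Stmt_RFB) : Stmt_RLF := by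
  intro Kf Lf κ _ _ _ _ g O red β F βF hg hc hctx h q n N y p hy
  obtain ⟨huniq, hadd, hsmul, hmul, -, -, hlift, hdown, hmulR, hfin, hmono, hone⟩ :=
    hRDB Kf Lf κ g O red β F βF hg hc hctx
  have hV := hRVD Kf Lf κ g O red β F βF hg hc hctx
  have hB := hRFB Kf Lf κ g O red β F βF hg hc hctx
  have hz : Red O red β βF (0 : Lf) (0 : κ[X]) := ⟨0, fun _ => 0, by simp, by simp⟩
  have hsum : ∀ (m : ℕ) (x : Fin m → Lf) (u : Fin m → κ[X]),
      (∀ i, Red O red β βF (x i) (u i)) → Red O red β βF (∑ i, x i) (∑ i, u i) := by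
    intro m
    induction m with
    | zero => intro x u _; simpa using hz
    | succ m ih =>
      intro x u hxu
      rw [Fin.sum_univ_succ, Fin.sum_univ_succ]
      exact hadd _ _ _ _ (hxu 0) (ih _ _ (fun i => hxu i.succ))
  constructor
  · -- first claim
    set S : Submodule Kf (Fin q → Lf) := Submodule.span Kf
      {z : Fin q → Lf | ∃ r ∈ Rn Kf g β n, ∃ i, z = r • y i} with hS
    have hSN : ∀ x ∈ S, ∀ i, x i ∈ Rn Kf g β (n + N) := by
      intro x hx i
      induction hx using Submodule.span_induction with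
      | mem x hx =>
        obtain ⟨r, hr, i', rfl⟩ := hx
        exact hmulR n N (Submodule.mul_mem_mul hr (hy i' i).1)
      | zero => exact Submodule.zero_mem _
      | add a b _ _ ha hb => exact Submodule.add_mem _ ha hb
      | smul c a _ ha => exact Submodule.smul_mem _ c ha
    obtain ⟨h1, h2, -, -, -⟩ := hV q (n + N) S hSN
    rw [← h1]
    haveI := h2
    apply Submodule.finrank_mono
    rw [Submodule.span_le]
    rintro _ ⟨r, hr, i, rfl⟩
    obtain ⟨x, hx, hxr⟩ := hlift n r hr
    refine Submodule.subset_span ⟨x • y i, Submodule.subset_span ⟨x, hx, i, rfl⟩, fun j => ?_⟩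
    exact hmul _ _ _ _ hxr (hy i j).2
  · intro hle r' hr' hr0
    obtain ⟨hfR, hfdR⟩ := hfin n
    obtain ⟨-, hfF, hfdF⟩ := hB n
    obtain ⟨d1, f1⟩ := rel_dim (Rn Kf g β n) hfdR y
    obtain ⟨d2, f2⟩ := rel_dim (RF F n) hfdF p
    rw [hfR] at d1
    rw [hfF] at d2
    have hle2 : Module.finrank κ (Rel (RF F n) p) ≤ Module.finrank Kf (Rel (Rn Kf g β n) y) := by
      omega
    obtain ⟨h1, h2, -, h4, -⟩ := hV h n (Rel (Rn Kf g β n) y) (fun x hx i => hx.1 i)
    have hsub : redV O red β βF (Rel (Rn Kf g β n) y) ≤ Rel (RF F n) p := by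
      unfold redV
      rw [Submodule.span_le]
      rintro u ⟨x, hx, hxu⟩
      refine ⟨fun i => hdown n (x i) (u i) (hx.1 i) (hxu i), fun j => ?_⟩
      have hh := hsum h (fun i => x i * y i j) (fun i => u i * p i j)
        (fun i => hmul _ _ _ _ (hxu i) (hy i j).2)
      rw [hx.2 j] at hh
      exact huniq 0 _ _ hh hz
    haveI := f2
    have heq : redV O red β βF (Rel (Rn Kf g β n) y) = Rel (RF F n) p := by
      apply Submodule.eq_of_le_of_finrank_le hsub
      rw [h1]; exact hle2
    have hmem : r' ∈ redV O red β βF (Rel (Rn Kf g β n) y) := by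
      rw [heq]; exact ⟨hr', hr0⟩
    obtain ⟨x, hx, hxr⟩ := h4 r' hmem
    exact ⟨x, fun i => ⟨hx.1 i, hxr i⟩, hx.2⟩

end Pool.Agent.RTB
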