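import Pool.Agent.RTB.KStmts

/-!
# RTB, module RPK: the relation property over `Kf`
-/

set_option autoImplicit false

open Polynomial

namespace Pool.Agent.RTB

namespace RPK_

theorem det2_sum {K : Type} [Field K] {m : ℕ} (v : Fin 2 → K) (r : Fin m → K)
    (t : Fin m → Fin 2 → K) : det2 v (∑ j, r j • t j) = ∑ j, r j * det2 v (t j) := by
  simp only [det2, Finset.sum_apply, Pi.smul_apply, smul_eq_mul, Finset.mul_sum,
    ← Finset.sum_sub_distrib]
  refine Finset.sum_congr rfl fun j _ => ?_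
  ring

theorem det2_sum' {K : Type} [Field K] {m : ℕ} (v : Fin 2 → K) (r : Fin m → K)
    (t : Fin m → Fin 2 → K) : det2 (∑ j, r j • t j) v = ∑ j, r j * det2 (t j) v := by
  simp only [det2, Finset.sum_apply, Pi.smul_apply, smul_eq_mul, Finset.sum_mul,
    ← Finset.sum_sub_distrib]
  refine Finset.sum_congr rfl fun j _ => ?_
  ring

end RPK_

open RPK_

theorem rpk_proof (hKIN : Stmt_KIN) (hRDB : Stmt_RDB) : Stmt_RPK := by
  intro Kf Lf κ _ _ _ _ _ _ k O red β F βF hk hctx s f hDat e t j0 γN γP a b n0 hA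
  obtain ⟨huniq, -, -, -, -, -, -, -, -, hfin, -, -⟩ :=
    hRDB Kf Lf κ (2 * k - 3) O red β F βF (by omega) inferInstance hctx
  have hdet : det2 (e 0) (t j0) ≠ 0 := by
    intro h0
    have h1 := hA.redP j0
    rw [h0, mul_zero] at h1
    have h2 : Red O red β βF (0 : Lf) (0 : κ[X]) := ⟨0, fun _ => 0, by simp, by simp⟩
    have h3 := huniq _ _ _ h1 h2
    exact mul_ne_zero hA.γP0 (hA.indb.ne_zero j0) h3
  refine ⟨hdet, fun n hn r hr hsum => ?_⟩
  have hdd : ∀ v : Fin 2 → Lf, det2 v v = 0 := fun v => by simp [det2, mul_comm]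
  have hee : ∀ i i', det2 (e i) (e i') = 0 := by
    have h10 : det2 (e 1) (e 0) = 0 := by
      have h := hA.par
      simp only [det2] at h ⊢
      linear_combination - h
    intro i i'
    fin_cases i <;> fin_cases i'
    · exact hdd _
    · exact hA.par
    · exact h10
    · exact hdd _
  obtain ⟨-, -, hiii⟩ := hKIN Kf Lf 2 (k - 2) f e t 0 j0 (Rn Kf (2 * k - 3) β n) (hfin n).2
    hDat.f0 hee hdet
  have hx : ∑ j, r j • t j ∈ smSp (Rn Kf (2 * k - 3) β n)
      (Submodule.span Kf (Set.range e ∪ Set.range t)) := by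
    refine Submodule.sum_mem _ fun j _ => ?_
    exact Submodule.subset_span ⟨r j, hr j, t j,
      Submodule.subset_span (Or.inr ⟨j, rfl⟩), rfl⟩
  have hx0 : det2 (e 0) (∑ j, r j • t j) = 0 := by
    rw [det2_sum]
    apply mul_left_cancel₀ hDat.f0
    rw [mul_zero, ← hsum, Finset.mul_sum]
    refine Finset.sum_congr rfl fun j _ => ?_
    ring
  have h := hiii (by rw [hA.eqS n hn, hA.spanV, hA.eqV n hn]) _ hx hx0
  rw [det2_sum', Finset.mul_sum] at h
  convert h using 1
  refine Finset.sum_congr rfl fun j _ => ?_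
  ring

end Pool.Agent.RTB
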