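import Pool.Agent.RTB.SStmts

set_option autoImplicit false

open Polynomial

namespace Pool.Agent.RTB

theorem rsl_proof (hHIN : Stmt_HIN) : Stmt_RSL := by
  intro L _ _ _ F g hF hg f hf hroot
  obtain ⟨-, hd, hdiv, -, -, hint⟩ := hHIN L F g hF
  obtain ⟨h, hh, hval⟩ := hint hg (fun c => - f.eval c / (derivative F).eval c)
  refine ⟨h, hh, ?_⟩
  have hFdeg : F.natDegree = g := hF.deg
  have hF0 : F ≠ 0 := hF.mon.ne_zero
  have h1 : F ∣ f + h * derivative F := by
    apply hdiv
    intro c hc
    have h2 := hval c hc
    have h3 := hd c hc
    rw [eval_add, eval_mul, h2]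
    field_simp
    ring
  obtain ⟨r, hr⟩ := h1
  have hdF : (derivative F).natDegree ≤ g - 1 := by
    have := natDegree_derivative_le F
    rw [hFdeg] at this
    exact this
  have hrdeg : r.natDegree ≤ g - 1 := by
    by_cases hr0 : r = 0
    · rw [hr0]; simp
    · have h4 : (F * r).natDegree = g + r.natDegree := by
        rw [natDegree_mul hF0 hr0, hFdeg]
      have h5 : (F * r).natDegree ≤ 2 * g - 1 := by
        rw [← hr]
        refine le_trans (natDegree_add_le _ _) (max_le hf ?_)
        refine le_trans natDegree_mul_le ?_
        omega
      omega
  have hdh : (derivative h).natDegree ≤ g - 1 := by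
    have := natDegree_derivative_le h
    omega
  have hrh : F ∣ r - derivative h := by
    apply hdiv
    intro c hc
    have h3 := hd c hc
    have h6 : derivative f + (derivative h * derivative F + h * derivative (derivative F))
        = derivative F * r + F * derivative r := by
      have h7 := congrArg derivative hr
      rw [derivative_add, derivative_mul, derivative_mul] at h7
      exact h7
    have h8 := congrArg (eval c) h6
    simp only [eval_add, eval_mul] at h8
    rw [hc] at h8
    have h9 := hval c hc
    have h10 : h.eval c * (derivative F).eval c = - f.eval c := by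
      rw [h9]; field_simp
    have h11 := hroot c hc
    rw [eval_sub]
    have h12 : (derivative F).eval c * (derivative F).eval c * (r.eval c - (derivative h).eval c) = 0 := by
      linear_combination (-(derivative F).eval c) * h8 + h11 + (derivative (derivative F)).eval c * h10
    rcases mul_eq_zero.mp h12 with h13 | h13
    · rcases mul_eq_zero.mp h13 with h14 | h14 <;> exact absurd h14 h3
    · exact h13
  have h0 : r - derivative h = 0 := by
    apply Polynomial.eq_zero_of_dvd_of_natDegree_lt hrh
    rw [hFdeg]
    refine lt_of_le_of_lt (natDegree_sub_le _ _) ?_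
    rw [max_lt_iff]
    constructor <;> omega
  have h15 : r = derivative h := sub_eq_zero.mp h0
  rw [h15] at hr
  rw [wr]
  linear_combination hr

end Pool.Agent.RTB
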