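import Pool.Agent.RTB.KStmts

set_option autoImplicit false

open Polynomial

namespace Pool.Agent.RTB

namespace RVD_

section
variable {Kf κ ι : Type} [Field Kf] [Field κ] [Fintype ι]

/-- scaling a nonzero vector -/
theorem scale (O : ValuationSubring Kf) (w : ι → Kf) (hw : w ≠ 0) :
    ∃ (i0 : ι) (r : Kf), r ≠ 0 ∧ r * w i0 = 1 ∧ ∀ i, r * w i ∈ O := by
  have hne : ∃ i, w i ≠ 0 := by
    by_contra h
    push Not at h
    exact hw (funext h)
  obtain ⟨i1, hi1⟩ := hne
  have : Nonempty ι := ⟨i1⟩
  obtain ⟨i0, hi0⟩ := Finite.exists_max (fun i => O.valuation (w i))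
  have h0 : w i0 ≠ 0 := by
    intro h
    have := hi0 i1
    simp only [h, map_zero] at this
    have h2 : O.valuation (w i1) = 0 := le_antisymm this zero_le
    exact hi1 ((map_eq_zero _).1 h2)
  refine ⟨i0, (w i0)⁻¹, inv_ne_zero h0, inv_mul_cancel₀ h0, fun i => ?_⟩
  rw [← O.valuation_le_one_iff, map_mul, map_inv₀]
  have hv : O.valuation (w i0) ≠ 0 := (_root_.map_ne_zero _).2 h0
  calc (O.valuation (w i0))⁻¹ * O.valuation (w i)
      ≤ (O.valuation (w i0))⁻¹ * O.valuation (w i0) := by
        gcongr
        exact hi0 i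
    _ = 1 := inv_mul_cancel₀ hv

theorem ech (O : ValuationSubring Kf) (red : O →+* κ) (h : ℕ) :
    ∀ W : Submodule Kf (ι → Kf), Module.finrank Kf W = h →
    ∃ a : Fin h → ι → O, (∀ t, (fun i => (a t i : Kf)) ∈ W) ∧
      LinearIndependent κ (fun t i => red (a t i)) ∧
      ∀ y : ι → O, (fun i => (y i : Kf)) ∈ W →
        (fun i => red (y i)) ∈ Submodule.span κ (Set.range (fun t i => red (a t i))) := by
  induction h with
  | zero =>
    intro W hW
    have hW0 : W = ⊥ := Submodule.finrank_eq_zero.1 hW
    refine ⟨Fin.elim0, fun t => t.elim0, linearIndependent_empty_type, ?_⟩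
    intro y hy
    rw [hW0, Submodule.mem_bot] at hy
    have : (fun i => red (y i)) = 0 := by
      funext i
      have h1 : (y i : Kf) = 0 := congrFun hy i
      have h2 : y i = 0 := by exact_mod_cast h1
      simp [h2]
    rw [this]
    exact Submodule.zero_mem _
  | succ h ih =>
    intro W hW
    have hWne : W ≠ ⊥ := by
      intro h0
      rw [h0, finrank_bot] at hW
      omega
    obtain ⟨w, hwW, hw0⟩ := W.ne_bot_iff.1 hWne
    obtain ⟨i0, r, hr0, hri, hrO⟩ := scale O w hw0
    let e : ι → O := fun i => ⟨r * w i, hrO i⟩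
    have heW : (fun i => (e i : Kf)) ∈ W := by
      have : (fun i => (e i : Kf)) = r • w := by
        funext i
        simp [e]
      rw [this]
      exact W.smul_mem _ hwW
    have he1 : e i0 = 1 := Subtype.ext hri
    let φ : W →ₗ[Kf] Kf := (LinearMap.proj i0).comp W.subtype
    have hφ : Function.Surjective φ := by
      intro z
      refine ⟨z • ⟨_, heW⟩, ?_⟩
      rw [map_smul]
      show z • ((e i0 : O) : Kf) = z
      rw [he1]
      simp
    let W' : Submodule Kf (ι → Kf) := W ⊓ LinearMap.ker (LinearMap.proj i0 : (ι → Kf) →ₗ[Kf] Kf)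
    have hW' : Module.finrank Kf W' = h := by
      have h1 := φ.finrank_range_add_finrank_ker
      rw [LinearMap.range_eq_top.2 hφ, finrank_top, Module.finrank_self, hW] at h1
      have h2 : W' = (LinearMap.ker φ).map W.subtype := by
        ext x
        simp only [W', φ, Submodule.mem_inf, LinearMap.mem_ker, Submodule.mem_map,
          Submodule.subtype_apply, LinearMap.comp_apply, LinearMap.proj_apply, Subtype.exists,
          exists_and_right, exists_eq_right]
        constructor
        · rintro ⟨a, b⟩; exact ⟨a, b⟩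
        · rintro ⟨a, b⟩; exact ⟨a, b⟩
      rw [h2, ← (Submodule.equivMapOfInjective W.subtype W.injective_subtype
        (LinearMap.ker φ)).finrank_eq]
      omega
    obtain ⟨a, ha, hai, hay⟩ := ih W' hW'
    have ha0 : ∀ t, a t i0 = 0 := by
      intro t
      have h1 : ((a t i0 : O) : Kf) = 0 := (Submodule.mem_inf.1 (ha t)).2
      exact_mod_cast h1
    have hcons : (fun (t : Fin (h + 1)) (i : ι) => red ((Fin.cons e a : Fin (h + 1) → ι → O) t i))
        = Fin.cons (fun i => red (e i)) (fun t i => red (a t i)) := by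
      funext t
      refine Fin.cases ?_ (fun t => ?_) t
      · simp
      · simp
    refine ⟨Fin.cons e a, ?_, ?_, ?_⟩
    · intro t
      refine Fin.cases ?_ (fun t => ?_) t
      · simpa using heW
      · simpa using (Submodule.mem_inf.1 (ha t)).1
    · rw [hcons, linearIndependent_finCons]
      refine ⟨hai, ?_⟩
      intro hmem
      have hle : Submodule.span κ (Set.range (fun t i => red (a t i)))
          ≤ LinearMap.ker (LinearMap.proj i0 : (ι → κ) →ₗ[κ] κ) := by
        rw [Submodule.span_le]
        rintro _ ⟨t, rfl⟩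
        show red (a t i0) = 0
        rw [ha0 t, map_zero]
      have h2 : red (e i0) = 0 := hle hmem
      rw [he1, map_one] at h2
      exact one_ne_zero h2
    · intro y hy
      rw [hcons]
      let y' : ι → O := fun i => y i - y i0 * e i
      have hy' : (fun i => (y' i : Kf)) ∈ W' := by
        have : (fun i => (y' i : Kf)) = (fun i => (y i : Kf)) - (y i0 : Kf) • fun i => (e i : Kf) := by
          funext i
          simp [y']
        refine Submodule.mem_inf.2 ⟨?_, ?_⟩
        · rw [this]
          exact W.sub_mem hy (W.smul_mem _ heW)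
        · show ((y' i0 : O) : Kf) = 0
          simp [y', he1]
      have h1 := hay y' hy'
      have h2 : (fun i => red (y i)) = red (y i0) • (fun i => red (e i)) + fun i => red (y' i) := by
        funext i
        simp [y', map_sub, map_mul]
      rw [h2]
      refine Submodule.add_mem _ (Submodule.smul_mem _ _ (Submodule.subset_span ⟨0, by simp⟩)) ?_
      refine Submodule.span_mono ?_ h1
      rintro _ ⟨t, rfl⟩
      exact ⟨t.succ, by simp⟩

end

section
variable {Kf Lf κ : Type} [Field Kf] [Field Lf] [Algebra Kf Lf] [Field κ]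

/-- the coordinates of an element of `Rn` -/
theorem coords (g N : ℕ) (β : ℕ → Lf) (x : Lf) (hx : x ∈ Rn Kf g β N) :
    ∃ b : Fin (N - g + 1) → Kf, x = ∑ j, b j • β j := by
  unfold Rn at hx
  rw [Finsupp.mem_span_image_iff_linearCombination] at hx
  obtain ⟨l, hl, rfl⟩ := hx
  refine ⟨fun j => l j, ?_⟩
  rw [Fin.sum_univ_eq_sum_range (fun j => l j • β j)]
  rw [Finsupp.linearCombination_apply, Finsupp.sum]
  apply Finset.sum_subset
  · intro j hj
    have := (Finsupp.mem_supported _ _).1 hl hj
    simp only [Set.mem_Iic] at this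
    rw [Finset.mem_range]; omega
  · intro j _ hj
    rw [Finsupp.notMem_support_iff.1 hj, zero_smul]

theorem red_of_coords (O : ValuationSubring Kf) (red : O →+* κ) (β : ℕ → Lf) (βF : ℕ → κ[X])
    (M : ℕ) (a : Fin M → O) :
    Red O red β βF (∑ j, (a j : Kf) • β j) (∑ j, C (red (a j)) * βF j) := by
  refine ⟨M, fun j => if h : j < M then a ⟨j, h⟩ else 0, ?_, ?_⟩
  · rw [← Fin.sum_univ_eq_sum_range (fun j => (((if h : j < M then a ⟨j, h⟩ else 0 : O) : O) : Kf)
      • β j)]
    refine Finset.sum_congr rfl (fun j _ => ?_)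
    simp
  · rw [← Fin.sum_univ_eq_sum_range (fun j => C (red (if h : j < M then a ⟨j, h⟩ else 0 : O))
      * βF j)]
    refine Finset.sum_congr rfl (fun j _ => ?_)
    simp

/-- coordinates of an element with a reduction -/
theorem coords_of_red (O : ValuationSubring Kf) (red : O →+* κ) (β : ℕ → Lf) (βF : ℕ → κ[X])
    (hβ : LinearIndependent Kf β) (M : ℕ) (b : Fin M → Kf) (p : κ[X])
    (h : Red O red β βF (∑ j, b j • β j) p) :
    ∃ a : Fin M → O, (∀ j, (a j : Kf) = b j) ∧ p = ∑ j, C (red (a j)) * βF j := by
  obtain ⟨N, a, hx, hp⟩ := h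
  let b' : ℕ → Kf := fun j => if h : j < M then b ⟨j, h⟩ else 0
  let a' : ℕ → O := fun j => if j < N then a j else 0
  have hb' : ∑ j, b j • β j = ∑ j ∈ Finset.range (max M N), b' j • β j := by
    have h1 : ∑ j, b j • β j = ∑ j ∈ Finset.range M, b' j • β j := by
      rw [← Fin.sum_univ_eq_sum_range (fun j => b' j • β j)]
      refine Finset.sum_congr rfl (fun j _ => ?_)
      simp [b']
    rw [h1]
    apply Finset.sum_subset
    · exact Finset.range_mono (le_max_left _ _)
    · intro j _ hj
      rw [Finset.mem_range] at hj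
      simp [b', hj]
  have ha' : ∑ j ∈ Finset.range N, (a j : Kf) • β j
      = ∑ j ∈ Finset.range (max M N), (a' j : Kf) • β j := by
    have h1 : ∑ j ∈ Finset.range N, (a j : Kf) • β j
        = ∑ j ∈ Finset.range N, (a' j : Kf) • β j := by
      refine Finset.sum_congr rfl (fun j hj => ?_)
      rw [Finset.mem_range] at hj
      simp [a', hj]
    rw [h1]
    apply Finset.sum_subset
    · exact Finset.range_mono (le_max_right _ _)
    · intro j _ hj
      rw [Finset.mem_range] at hj
      simp [a', hj]
  have hpa : ∑ j ∈ Finset.range N, C (red (a j)) * βF j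
      = ∑ j ∈ Finset.range (max M N), C (red (a' j)) * βF j := by
    have h1 : ∑ j ∈ Finset.range N, C (red (a j)) * βF j
        = ∑ j ∈ Finset.range N, C (red (a' j)) * βF j := by
      refine Finset.sum_congr rfl (fun j hj => ?_)
      rw [Finset.mem_range] at hj
      simp [a', hj]
    rw [h1]
    apply Finset.sum_subset
    · exact Finset.range_mono (le_max_right _ _)
    · intro j _ hj
      rw [Finset.mem_range] at hj
      simp [a', hj]
  have hz : ∑ j ∈ Finset.range (max M N), ((a' j : Kf) - b' j) • β j = 0 := by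
    simp only [sub_smul, Finset.sum_sub_distrib]
    rw [← ha', ← hb', ← hx, sub_self]
  have hco := linearIndependent_iff'.1 hβ _ _ hz
  refine ⟨fun j => a' j, ?_, ?_⟩
  · intro j
    have := hco j (Finset.mem_range.2 (lt_of_lt_of_le j.2 (le_max_left _ _)))
    rw [sub_eq_zero] at this
    rw [this]
    simp [b']
  · rw [hp, hpa, Fin.sum_univ_eq_sum_range (fun j => C (red (a' j)) * βF j)]
    symm
    apply Finset.sum_subset
    · exact Finset.range_mono (le_max_left _ _)
    · intro j hj hj'
      have := hco j hj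
      rw [Finset.mem_range] at hj'
      have hb0 : b' j = 0 := by simp [b', hj']
      rw [hb0, sub_zero] at this
      have h2 : a' j = 0 := by exact_mod_cast this
      simp [h2]

/-- the polynomials `βF j` are linearly independent -/
theorem indF (g : ℕ) (βF : ℕ → κ[X]) (h0 : βF 0 = 1)
    (hd : ∀ j, 1 ≤ j → (βF j).natDegree = g + j) (M : ℕ) (c : Fin M → κ)
    (hc : ∑ j, C (c j) * βF j = 0) : c = 0 := by
  classical
  by_contra hne
  have hex : (Finset.univ.filter fun j => c j ≠ 0).Nonempty := by
    by_contra h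
    rw [Finset.not_nonempty_iff_eq_empty, Finset.filter_eq_empty_iff] at h
    apply hne
    funext j
    simpa using h (Finset.mem_univ j)
  obtain ⟨j0, hj0, hmax⟩ := Finset.exists_max_image _ (fun j : Fin M => j) hex
  rw [Finset.mem_filter] at hj0
  have hne0 : βF j0 ≠ 0 := by
    by_cases h : (j0 : ℕ) = 0
    · rw [h, h0]; exact one_ne_zero
    · intro h1
      have := hd j0 (by omega)
      rw [h1, natDegree_zero] at this
      omega
  have hdeg : ∀ j : Fin M, j < j0 → (βF j).natDegree < (βF j0).natDegree := by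
    intro j hj
    have h1 : (j : ℕ) < (j0 : ℕ) := hj
    rw [hd j0 (by omega)]
    by_cases h : (j : ℕ) = 0
    · rw [h, h0, natDegree_one]; omega
    · rw [hd j (by omega)]; omega
  have h1 := congrArg (fun p => p.coeff (βF j0).natDegree) hc
  simp only [finsetSum_coeff, coeff_C_mul, coeff_zero] at h1
  rw [Finset.sum_eq_single j0] at h1
  · rcases mul_eq_zero.1 h1 with h2 | h2
    · exact hj0.2 h2
    · exact hne0 (leadingCoeff_eq_zero.1 h2)
  · intro j _ hjne
    by_cases hj : j < j0
    · rw [coeff_eq_zero_of_natDegree_lt (hdeg j hj), mul_zero]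
    · have : c j = 0 := by
        by_contra hcj
        have := hmax j (Finset.mem_filter.2 ⟨Finset.mem_univ _, hcj⟩)
        exact hjne (le_antisymm this (not_lt.1 hj))
      rw [this, zero_mul]
  · intro h
    exact absurd (Finset.mem_univ _) h

/-- the vector with coordinates `a` -/
def Phi (β : ℕ → Lf) (q M : ℕ) : (Fin q × Fin M → Kf) →ₗ[Kf] (Fin q → Lf) where
  toFun := fun a i => ∑ j, a (i, j) • β j
  map_add' := fun a b => by
    funext i
    simp [add_smul, Finset.sum_add_distrib]
  map_smul' := fun c a => by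
    funext i
    simp [Finset.smul_sum, mul_smul]

/-- the vector of polynomials with coordinates `a` -/
noncomputable def PhiF (βF : ℕ → κ[X]) (q M : ℕ) : (Fin q × Fin M → κ) →ₗ[κ] (Fin q → κ[X]) where
  toFun := fun a i => ∑ j, C (a (i, j)) * βF j
  map_add' := fun a b => by
    funext i
    simp [add_mul, Finset.sum_add_distrib]
  map_smul' := fun c a => by
    funext i
    simp [Finset.mul_sum, mul_assoc, smul_eq_C_mul]

theorem Phi_inj (β : ℕ → Lf) (hβ : LinearIndependent Kf β) (q M : ℕ) :
    Function.Injective (Phi (Kf := Kf) β q M) := by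
  rw [← LinearMap.ker_eq_bot, LinearMap.ker_eq_bot']
  intro a ha
  funext ij
  obtain ⟨i, j⟩ := ij
  have h1 : ∑ j, a (i, j) • β j = 0 := congrFun ha i
  have h2 : LinearIndependent Kf (fun j : Fin M => β j) := hβ.comp _ Fin.val_injective
  exact Fintype.linearIndependent_iff.1 h2 (fun j => a (i, j)) h1 j

theorem PhiF_inj (g : ℕ) (βF : ℕ → κ[X]) (h0 : βF 0 = 1)
    (hd : ∀ j, 1 ≤ j → (βF j).natDegree = g + j) (q M : ℕ) :
    Function.Injective (PhiF βF q M) := by
  rw [← LinearMap.ker_eq_bot, LinearMap.ker_eq_bot']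
  intro a ha
  funext ij
  obtain ⟨i, j⟩ := ij
  have h1 : ∑ j, C (a (i, j)) * βF j = 0 := congrFun ha i
  exact congrFun (indF g βF h0 hd M (fun j => a (i, j)) h1) j

end

end RVD_

open RVD_ in
theorem rvd_proof (hRDB : Stmt_RDB) : Stmt_RVD := by
  classical
  intro Kf Lf κ _ _ _ _ g O red β F βF hg hch hctx q N U hU
  obtain ⟨huniq, hadd, hsmul, -⟩ := hRDB Kf Lf κ g O red β F βF hg hch hctx
  set M : ℕ := N - g + 1 with hM
  -- coordinates
  have hrange : ∀ x ∈ U, ∃ a : Fin q × Fin M → Kf, Phi β q M a = x := by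
    intro x hx
    choose b hb using fun i => coords g N β (x i) (hU x hx i)
    refine ⟨fun ij => b ij.1 ij.2, ?_⟩
    funext i
    exact (hb i).symm
  have hinj := Phi_inj (Kf := Kf) β hctx.ind q M
  have hinjF := PhiF_inj g βF hctx.bF0 hctx.bFdeg q M
  set W : Submodule Kf (Fin q × Fin M → Kf) := U.comap (Phi β q M) with hW
  have hUW : U = W.map (Phi β q M) := by
    apply le_antisymm
    · intro x hx
      obtain ⟨a, rfl⟩ := hrange x hx
      exact ⟨a, hx, rfl⟩
    · rintro _ ⟨a, ha, rfl⟩
      exact ha
  have hfin : FiniteDimensional Kf U := by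
    rw [hUW]
    infer_instance
  have hfr : Module.finrank Kf U = Module.finrank Kf W := by
    rw [hUW]
    exact ((Submodule.equivMapOfInjective (Phi β q M) hinj W).finrank_eq).symm
  obtain ⟨a, haW, hai, hay⟩ := ech O red (Module.finrank Kf W) W rfl
  set x : Fin (Module.finrank Kf W) → Fin q → Lf :=
    fun t => Phi β q M (fun i => (a t i : Kf)) with hx
  set p : Fin (Module.finrank Kf W) → Fin q → κ[X] :=
    fun t => PhiF βF q M (fun i => red (a t i)) with hp
  have hxU : ∀ t, x t ∈ U := fun t => haW t
  have hxp : ∀ t i, Red O red β βF (x t i) (p t i) := by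
    intro t i
    exact red_of_coords O red β βF M (fun j => a t (i, j))
  have hpi : LinearIndependent κ p := by
    exact hai.map' (PhiF βF q M) (LinearMap.ker_eq_bot.2 hinjF)
  -- every reduction is in the span
  have hspan : redV O red β βF U = Submodule.span κ (Set.range p) := by
    apply le_antisymm
    · unfold redV
      rw [Submodule.span_le]
      rintro p' ⟨y, hyU, hyp⟩
      obtain ⟨b, rfl⟩ := hrange y hyU
      choose c hc1 hc2 using fun i => coords_of_red O red β βF hctx.ind M
        (fun j => b (i, j)) (p' i) (hyp i)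
      have hb : b = fun ij => ((c ij.1 ij.2 : O) : Kf) := by
        funext ij
        exact (hc1 ij.1 ij.2).symm
      have h1 := hay (fun ij => c ij.1 ij.2) (by rw [← hb]; exact hyU)
      have h2 : p' = PhiF βF q M (fun ij => red (c ij.1 ij.2)) := by
        funext i
        exact hc2 i
      have h3 : PhiF βF q M (fun ij => red (c ij.1 ij.2))
          ∈ (Submodule.span κ (Set.range (fun t i => red (a t i)))).map (PhiF βF q M) :=
        ⟨_, h1, rfl⟩
      rw [Submodule.map_span] at h3
      rw [SetLike.mem_coe, h2]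
      refine Submodule.span_mono ?_ h3
      rintro _ ⟨_, ⟨t, rfl⟩, rfl⟩
      exact ⟨t, rfl⟩
    · rw [Submodule.span_le]
      rintro _ ⟨t, rfl⟩
      exact Submodule.subset_span ⟨x t, hxU t, hxp t⟩
  have hz : Red O red β βF 0 0 := ⟨0, fun _ => 0, by simp, by simp⟩
  have hsumred : ∀ (m : ℕ) (c : Fin m → O) (y : Fin m → Lf) (r : Fin m → κ[X]),
      (∀ t, Red O red β βF (y t) (r t)) →
      Red O red β βF (∑ t, (c t : Kf) • y t) (∑ t, C (red (c t)) * r t) := by
    intro m c y r hyr
    have : ∀ s : Finset (Fin m), Red O red β βF (∑ t ∈ s, (c t : Kf) • y t)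
        (∑ t ∈ s, C (red (c t)) * r t) := by
      intro s
      induction s using Finset.induction_on with
      | empty => simpa using hz
      | insert t s hts ih =>
        rw [Finset.sum_insert hts, Finset.sum_insert hts]
        exact hadd _ _ _ _ (hsmul _ _ _ (hyr t)) ih
    exact this Finset.univ
  refine ⟨?_, ?_, hfin, ?_, ?_⟩
  · rw [hspan, finrank_span_eq_card hpi, Fintype.card_fin, hfr]
  · rw [hspan]
    exact FiniteDimensional.span_of_finite κ (Set.finite_range p)
  · intro p' hp'
    rw [hspan, Submodule.mem_span_range_iff_exists_fun] at hp'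
    obtain ⟨c, rfl⟩ := hp'
    choose c' hc' using fun t => hctx.surj (c t)
    refine ⟨∑ t, (c' t : Kf) • x t, Submodule.sum_mem _ (fun t _ => U.smul_mem _ (hxU t)), ?_⟩
    intro i
    have h1 := hsumred _ c' (fun t => x t i) (fun t => p t i) (fun t => hxp t i)
    have h2 : (∑ t, (c' t : Kf) • x t) i = ∑ t, (c' t : Kf) • x t i := by
      simp [Finset.sum_apply]
    have h3 : (∑ t, c t • p t) i = ∑ t, C (red (c' t)) * p t i := by
      rw [Finset.sum_apply]
      refine Finset.sum_congr rfl (fun t _ => ?_)
      rw [Pi.smul_apply, smul_eq_C_mul, hc' t]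
    rw [h2, h3]
    exact h1
  · intro m y r hyr hr
    rw [Fintype.linearIndependent_iff]
    intro c hc
    by_contra hne
    push Not at hne
    have hc0 : c ≠ 0 := by
      rintro rfl
      obtain ⟨t, ht⟩ := hne
      exact ht rfl
    obtain ⟨t0, s, hs0, hs1, hsO⟩ := scale O c hc0
    let c' : Fin m → O := fun t => ⟨s * c t, hsO t⟩
    have h1 : ∀ i, ∑ t, C (red (c' t)) * r t i = 0 := by
      intro i
      have h2 := hsumred m c' (fun t => y t i) (fun t => r t i) (fun t => hyr t i)
      have h3 : ∑ t, ((c' t : O) : Kf) • y t i = 0 := by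
        have h4 : ∑ t, c t • y t i = 0 := by
          have := congrFun hc i
          simpa [Finset.sum_apply] using this
        have h5 : ∑ t, ((c' t : O) : Kf) • y t i = s • ∑ t, c t • y t i := by
          rw [Finset.smul_sum]
          exact Finset.sum_congr rfl (fun t _ => by simp [c', mul_smul])
        rw [h5, h4, smul_zero]
      rw [h3] at h2
      exact huniq _ _ _ h2 hz
    have h6 : ∑ t, red (c' t) • r t = 0 := by
      funext i
      rw [Finset.sum_apply]
      have := h1 i
      simpa [smul_eq_C_mul] using this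
    have h7 := Fintype.linearIndependent_iff.1 hr _ h6 t0
    have h8 : c' t0 = 1 := Subtype.ext hs1
    rw [h8, map_one] at h7
    exact one_ne_zero h7

end Pool.Agent.RTB
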