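import Pool.Agent.RTB.SStmts

/-!
# squad RTB, module S1C: step 1 in case C
-/

set_option autoImplicit false

open Polynomial

namespace Pool.Agent.RTB

namespace S1C_

variable {L : Type} [Field L]

theorem PL_finite (n : ℕ) : FiniteDimensional L (PL L n) := by
  have h : PL L n ≤ degreeLT L (n + 1) := by
    intro p hp
    rw [mem_degreeLT]
    have hp' : p.natDegree ≤ n := hp
    exact lt_of_le_of_lt (degree_le_of_natDegree_le hp') (by exact_mod_cast Nat.lt_succ_self n)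
  have hf : FiniteDimensional L (degreeLT L (n + 1)) :=
    Module.Finite.equiv (degreeLTEquiv L (n + 1)).symm
  exact Submodule.finiteDimensional_of_le h

theorem DhSp_finite (f1 f2 : L[X]) (n : ℕ) : FiniteDimensional L (DhSp f1 f2 n) := by
  have := PL_finite (L := L) n
  unfold DhSp
  infer_instance

/-- division of a linear map by a nonzero polynomial -/
theorem lin_div (Q : Submodule L L[X]) (u : L[X] →ₗ[L] L[X]) (γ : L[X]) (hγ : γ ≠ 0)
    (h : ∀ ω ∈ Q, ∃ w : L[X], u ω = γ * w) :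
    ∃ W : L[X] →ₗ[L] L[X], ∀ ω ∈ Q, u ω = γ * W ω := by
  choose! w hw using h
  let W0 : Q →ₗ[L] L[X] :=
    { toFun := fun x => w x.1
      map_add' := fun x y => by
        apply mul_left_cancel₀ hγ
        rw [mul_add, ← hw _ x.2, ← hw _ y.2, ← hw _ (x + y).2]
        simp
      map_smul' := fun c x => by
        apply mul_left_cancel₀ hγ
        rw [← hw _ (c • x).2]
        simp only [RingHom.id_apply, mul_smul_comm]
        rw [← hw _ x.2]
        simp }
  obtain ⟨W, hW⟩ := LinearMap.exists_extend W0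
  refine ⟨W, fun ω hω => ?_⟩
  have h2 : W ω = W0 ⟨ω, hω⟩ := by
    have := congrArg (fun f => f ⟨ω, hω⟩) hW
    simpa using this
  have h3 : W0 ⟨ω, hω⟩ = w ω := rfl
  rw [h2, h3, hw ω hω]

/-- 1-jets of the products at the roots of the Wronskian -/
theorem jet (A f1 f2 v f : L[X]) (c : L) (hw : wr f1 f2 = A) (hc : A.eval c = 0)
    (hf : f = f1 ∨ f = f2) :
    (derivative (f * Dh f1 f2 v)).eval c * (derivative A).eval c
      = (derivative (derivative A)).eval c * (f * Dh f1 f2 v).eval c := by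
  have key : f * Dh f1 f2 v = wr A (wr f v) := by
    rcases hf with rfl | rfl
    · rw [key1, hw]
    · rw [key2, hw]
  rw [key]
  generalize wr f v = G
  have h1 : derivative (wr A G) = A * derivative (derivative G) - derivative (derivative A) * G := by
    simp only [wr, derivative_sub, derivative_mul]; ring
  rw [h1]
  simp only [wr, eval_sub, eval_mul, hc]
  ring

theorem not_both (A f1 f2 : L[X]) (c : L) (hw : wr f1 f2 = A)
    (hA' : (derivative A).eval c ≠ 0) : f1.eval c ≠ 0 ∨ f2.eval c ≠ 0 := by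
  by_contra hcon
  push Not at hcon
  apply hA'
  rw [← hw]
  simp only [wr, derivative_sub, derivative_mul, eval_sub, eval_add, eval_mul, hcon.1, hcon.2]
  ring

theorem tI_DhSp (A g1 g2 : L[X]) (c : L) (n : ℕ) (hw : wr g1 g2 = A) (hc : A.eval c = 0)
    (hA' : (derivative A).eval c ≠ 0) : tI (DhSp g1 g2 n) c := by
  obtain ⟨f, hf, hfc⟩ : ∃ f : L[X], (f = g1 ∨ f = g2) ∧ f.eval c ≠ 0 := by
    rcases not_both A g1 g2 c hw hA' with h | h
    · exact ⟨g1, Or.inl rfl, h⟩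
    · exact ⟨g2, Or.inr rfl, h⟩
  refine ⟨((derivative (derivative A)).eval c / (derivative A).eval c)
    - (derivative f).eval c / f.eval c, fun u hu => ?_⟩
  obtain ⟨v, -, rfl⟩ := mem_DhSp.1 hu
  have h := jet A g1 g2 v f c hw hc hf
  rw [derivative_mul, eval_add, eval_mul, eval_mul, eval_mul] at h
  field_simp
  linear_combination h

theorem Dh_T4 (g1 g2 T q : L[X]) (hq : T ^ 4 ∣ q) : T ^ 2 ∣ Dh g1 g2 q := by
  obtain ⟨r, rfl⟩ := hq
  have h1 : T ^ 3 ∣ derivative (T ^ 4 * r) := by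
    rw [show T ^ 4 = T * T * T * T by ring]
    simp only [derivative_mul]
    exact ⟨4 * derivative T * r + T * derivative r, by ring⟩
  have h2 : T ^ 2 ∣ derivative (derivative (T ^ 4 * r)) := by
    obtain ⟨s, hs⟩ := h1
    rw [hs, show T ^ 3 = T * T * T by ring]
    simp only [derivative_mul]
    exact ⟨3 * derivative T * s + T * derivative s, by ring⟩
  unfold Dh
  refine dvd_add (dvd_sub (h2.mul_left _) ?_) ?_
  · exact Dvd.dvd.mul_left (dvd_trans (pow_dvd_pow T (by norm_num)) h1) _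
  · exact Dvd.dvd.mul_left (dvd_mul_of_dvd_left (pow_dvd_pow T (by norm_num)) _) _

theorem smul_mod' (c : L) (p w : L[X]) : (c • p) % w = c • (p % w) := by
  rw [Polynomial.mod_def, Polynomial.mod_def, Polynomial.smul_modByMonic]

theorem sum_coeff_mod (w : L[X]) (n d : ℕ) (p : Fin n → L[X])
    (h : ∀ i, ((p i) % w).coeff d = 0) : ((∑ i, p i) % w).coeff d = 0 := by
  induction n with
  | zero => simp
  | succ n ih =>
    rw [Fin.sum_univ_succ, Polynomial.add_mod, coeff_add, h 0, ih _ (fun i => h _)]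
    simp

end S1C_

open S1C_ in
theorem s1c_proof (hSPC : Stmt_SPC) (hBEZ : Stmt_BEZ) (hRES : Stmt_RES) (hDGC : Stmt_DGC)
    (hJPC : Stmt_JPC) (hTNC : Stmt_TNC) (hHIN : Stmt_HIN) (hWDG : Stmt_WDG) : Stmt_S1C := by
  intro L _ _ _ A f1 f2 g1 g2 w0 a k hk hFA hAa hf1 hf2 hwf hg1 hg2 hwg hcop hw0P hw0d hw0c hw0a
  obtain ⟨-, hA', -⟩ := hHIN L A (2 * k - 4) hFA
  set T : L[X] := X - C a with hT
  set P := DhSp g1 g2 (k - 1) with hP
  have hTd : derivative T = 1 := by simp [hT]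
  have hTne : T ≠ 0 := X_sub_C_ne_zero a
  have hw0 : w0 ≠ 0 := by rintro rfl; simp at hw0a
  have htI : ∀ c, A.eval c = 0 → tI P c := fun c hc => tI_DhSp A g1 g2 c _ hwg hc (hA' c hc)
  have hPdeg : ∀ ω ∈ P, ω.natDegree ≤ 3 * k - 9 := by
    intro ω hω
    obtain ⟨v, hv, rfl⟩ := mem_DhSp.1 hω
    have := (hWDG L (k - 1) g1 g2 v hg1 hg2 hv).2
    omega
  have hQdeg : ∀ ω ∈ DhSp f1 f2 (k - 1), ω.natDegree ≤ 3 * k - 9 := by
    intro ω hω
    obtain ⟨v, hv, rfl⟩ := mem_DhSp.1 hω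
    have := (hWDG L (k - 1) f1 f2 v hf1 hf2 hv).2
    omega
  have hA0 : A ≠ 0 := hFA.mon.ne_zero
  have hTw : IsCoprime T w0 := by
    have h1 : ¬ T ∣ w0 := fun h => hw0a (dvd_iff_isRoot.1 h)
    exact ((irreducible_X_sub_C a).coprime_iff_not_dvd).2 h1
  obtain ⟨N1, hN1⟩ := hSPC L A f1 f2 w0 a (k - 1) (3 * k - 9) (2 * k - 4) P hFA hAa hw0P hw0d hw0
    hPdeg hw0c hw0a htI
  have hPfin : FiniteDimensional L P := DhSp_finite g1 g2 (k - 1)
  obtain ⟨N2, hN2⟩ := hBEZ L (T * A) A f1 f2 w0 (T ^ 2) (k - 1) (3 * k - 9) P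
    (mul_ne_zero hTne hA0) hcop hPfin hw0P hw0d (by omega)
    (fun c hc => by
      rw [eval_mul, mul_eq_zero] at hc
      rcases hc with hc | hc
      · have : c = a := by
          rw [hT] at hc
          simpa [sub_eq_zero] using hc
        rw [this]; exact hw0a
      · exact hw0c c hc)
    (hTw.pow_left)
  refine ⟨max N1 N2, fun N hN γ wh hγ hwh0 hRP => ?_⟩
  have hS := hN1 N (le_trans (le_max_left _ _) hN) γ wh hγ hwh0 hRP
  have hw2ex : ∀ ω ∈ P, ∃ w : L[X], T ^ 2 * wh ω = γ * w := fun ω hω => by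
    obtain ⟨⟨w2, h1, -, -⟩, -⟩ := hS ω hω
    exact ⟨w2, h1⟩
  obtain ⟨C0, hC0d, hC0⟩ := hN2 N (le_trans (le_max_right _ _) hN) γ wh hγ hRP hw2ex
  -- the linear map `w2`
  obtain ⟨w2, hw2⟩ := lin_div P ((LinearMap.mulLeft L (T ^ 2)) ∘ₗ wh) γ hγ
    (fun ω hω => by simpa using hw2ex ω hω)
  have hw2 : ∀ ω ∈ P, T ^ 2 * wh ω = γ * w2 ω := fun ω hω => by simpa using hw2 ω hω
  have hw2' : ∀ ω ∈ P, (w2 ω).natDegree ≤ k - 1 + (3 * k - 9) + 2 ∧
      ∀ c, A.eval c = 0 → JcT T f1 f2 w0 (w2 ω) c := fun ω hω => by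
    obtain ⟨⟨w, h1, h2, h3⟩, -⟩ := hS ω hω
    have : w2 ω = w := mul_left_cancel₀ hγ ((hw2 ω hω).symm.trans h1)
    rw [this]; exact ⟨h2, h3⟩
  -- the subspace `Pa`
  let Pa : Submodule L L[X] :=
    { carrier := {ω | ω ∈ P ∧ ω.eval a = 0 ∧ (derivative ω).eval a = 0}
      zero_mem' := by simp
      add_mem' := fun {x y} hx hy => ⟨P.add_mem hx.1 hy.1, by rw [eval_add, hx.2.1, hy.2.1, add_zero],
        by rw [derivative_add, eval_add, hx.2.2, hy.2.2, add_zero]⟩
      smul_mem' := fun c x hx => ⟨P.smul_mem c hx.1, by rw [eval_smul, hx.2.1, smul_zero],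
        by rw [derivative_smul, eval_smul, hx.2.2, smul_zero]⟩ }
  have hPa : ∀ ω, ω ∈ Pa ↔ ω ∈ P ∧ ω.eval a = 0 ∧ (derivative ω).eval a = 0 := fun ω => Iff.rfl
  obtain ⟨W, hW⟩ := lin_div Pa wh γ hγ (fun ω hω => by
    obtain ⟨w, h1, -, -⟩ := (hS ω hω.1).2 hω.2.1 hω.2.2
    exact ⟨w, h1⟩)
  have hW' : ∀ ω ∈ Pa, (W ω).natDegree ≤ k - 1 + (3 * k - 9) ∧
      ∀ c, A.eval c = 0 → Jc f1 f2 w0 (W ω) c := fun ω hω => by
    obtain ⟨w, h1, h2, h3⟩ := (hS ω hω.1).2 hω.2.1 hω.2.2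
    have : W ω = w := mul_left_cancel₀ hγ ((hW ω hω).symm.trans h1)
    rw [this]; exact ⟨h2, h3⟩
  have hW2 : ∀ ω ∈ Pa, w2 ω = T ^ 2 * W ω := fun ω hω => by
    apply mul_left_cancel₀ hγ
    rw [← hw2 ω hω.1, hW ω hω]; ring
  -- the residue theorem
  have hres := hRES L A f1 f2 w0 C0 (2 * k - 4) (k - 1) (3 * k - 9) (3 * k - 9) Pa
    (DhSp f1 f2 (k - 1)) W hFA (by omega) (by omega) hw0d (by omega) hw0c
    (fun m hm => ⟨hQdeg m hm, fun c hc f hf => by
      obtain ⟨v, -, rfl⟩ := mem_DhSp.1 hm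
      exact jet A f1 f2 v f c hwf hc hf⟩)
    (fun c hc h1 h2 => by
      rcases not_both A f1 f2 c hwf (hA' c hc) with h | h
      · exact absurd h1 h
      · exact absurd h2 h)
    (fun ω hω => ⟨(hW' ω hω).1, by
      have h1 := hC0 ω hω.1 (T ^ 2 * W ω) (by rw [hW ω hω]; ring)
      have h2 : T ^ 2 * W ω - T ^ 2 * C0 * ω = T ^ 2 * (W ω - C0 * ω) := by ring
      rw [h2] at h1
      exact (hTw.symm.pow_right).dvd_of_dvd_mul_left h1⟩)
    (fun c hc => Or.inl fun ω hω => (hW' ω hω).2 c hc)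
  have hcoef : ∀ s, 3 ≤ s → s ≤ 2 * k - 10 → ((C0 * T ^ s) % w0).coeff (3 * k - 9 - 1) = 0 := by
    intro s hs1 hs2
    apply hres
    obtain ⟨n, p, q, hpq, hsum⟩ := hTNC L A f1 f2 g1 g2 a k hk hwf hwg s hs1 hs2
    rw [← hsum]
    refine Submodule.sum_mem _ fun i _ => Submodule.mul_mem_mul (mem_DhSp.2 ⟨p i, (hpq i).1, rfl⟩) ?_
    have hd : T ^ 2 ∣ Dh g1 g2 (q i) := Dh_T4 g1 g2 T (q i) (hpq i).2.2
    obtain ⟨r, hr⟩ := hd
    refine (hPa _).2 ⟨mem_DhSp.2 ⟨q i, (hpq i).2.1, rfl⟩, ?_, ?_⟩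
    · rw [hr]; simp [hT]
    · rw [hr, pow_two]; simp [derivative_mul, hT]
  -- the class `C3`
  set C3 : L[X] := (C0 * T ^ 3) % w0 with hC3
  have hC3lt : C3.natDegree < 3 * k - 9 := by
    by_cases h0 : C3 = 0
    · rw [h0]; simp; omega
    · have h1 : C3.degree < w0.degree := by rw [hC3]; exact degree_mod_lt _ hw0
      have h2 := natDegree_lt_natDegree h0 h1
      omega
  have hC3dvd : w0 ∣ C0 * T ^ 3 - C3 := by
    rw [hC3]
    exact ⟨(C0 * T ^ 3) / w0, by
      have := EuclideanDomain.div_add_mod (C0 * T ^ 3) w0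
      linear_combination -this⟩
  have hC3deg : C3.natDegree ≤ k + 2 := by
    have h := hDGC L w0 C3 (3 * k - 9) (2 * k - 13) hw0d hC3lt (by omega) (fun j hj => by
      have e1 : (C3 * X ^ j) % w0 = (C0 * T ^ 3 * X ^ j) % w0 := by
        obtain ⟨z, hz⟩ := hC3dvd
        have : C0 * T ^ 3 * X ^ j = C3 * X ^ j + w0 * (z * X ^ j) := by
          linear_combination (X ^ j) * hz
        rw [this, Polynomial.add_mod]
        simp
      have e2 : (X : L[X]) ^ j = ∑ i : Fin (j + 1), C (a ^ (j - i) * (j.choose i : L)) * T ^ (i : ℕ) := by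
        have hX : (X : L[X]) = T + C a := by rw [hT]; ring
        rw [hX, add_pow, Finset.sum_range]
        refine Finset.sum_congr rfl fun i _ => ?_
        rw [C_mul, C_pow]
        simp
        ring
      rw [e1, e2, Finset.mul_sum]
      apply sum_coeff_mod
      intro i
      have e3 : C0 * T ^ 3 * (C (a ^ (j - i) * (j.choose i : L)) * T ^ (i : ℕ))
          = (a ^ (j - i) * (j.choose i : L)) • (C0 * T ^ (3 + (i : ℕ))) := by
        rw [smul_eq_C_mul, pow_add]; ring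
      rw [e3, smul_mod', coeff_smul, hcoef (3 + i) (by omega) (by have := i.2; omega),
        smul_zero])
    omega
  -- the map `ν3`
  obtain ⟨ν3, hν3⟩ := lin_div P ((LinearMap.mulLeft L T) ∘ₗ w2 - LinearMap.mulLeft L C3) w0 hw0
    (fun ω hω => by
      have h1 := hC0 ω hω (w2 ω) (hw2 ω hω)
      obtain ⟨z1, hz1⟩ := h1
      obtain ⟨z2, hz2⟩ := hC3dvd
      refine ⟨T * z1 + z2 * ω, ?_⟩
      simp only [LinearMap.sub_apply, LinearMap.comp_apply, LinearMap.mulLeft_apply]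
      linear_combination T * hz1 + ω * hz2)
  have hν : ∀ ω ∈ P, T * w2 ω = w0 * ν3 ω + C3 * ω := fun ω hω => by
    have h1 := hν3 ω hω
    simp only [LinearMap.sub_apply, LinearMap.comp_apply, LinearMap.mulLeft_apply] at h1
    linear_combination h1
  have hw20 : w2 w0 = 0 := by
    have h1 := hw2 w0 hw0P
    rw [hwh0, mul_zero] at h1
    rcases mul_eq_zero.1 h1.symm with h | h
    · exact absurd h hγ
    · exact h
  have hν0 : ν3 w0 = - C3 := by
    apply mul_left_cancel₀ hw0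
    have h1 := hν w0 hw0P
    rw [hw20, mul_zero] at h1
    linear_combination -h1
  refine ⟨ν3, fun ω hω => ⟨?_, ?_, ?_⟩, fun c hc => ?_⟩
  · by_cases h0 : ν3 ω = 0
    · rw [h0]; simp
    · have h1 : (w0 * ν3 ω).natDegree = 3 * k - 9 + (ν3 ω).natDegree := by
        rw [natDegree_mul hw0 h0, hw0d]
      have h2 : w0 * ν3 ω = T * w2 ω - C3 * ω := by linear_combination -(hν ω hω)
      have h3 : (T * w2 ω - C3 * ω).natDegree ≤ 3 * k - 9 + (k + 2) := by
        refine (natDegree_sub_le _ _).trans (max_le ?_ ?_)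
        · refine le_trans natDegree_mul_le ?_
          have : T.natDegree = 1 := natDegree_X_sub_C a
          have := (hw2' ω hω).1
          omega
        · refine le_trans natDegree_mul_le ?_
          have := hPdeg ω hω
          omega
      rw [← h2, h1] at h3
      omega
  · rw [hν0]
    have h1 := hw2 ω hω
    have h2 := hν ω hω
    linear_combination T * h1 + γ * h2
  · intro ha1 ha2
    have h2 := hν ω hω
    have h3 := hW2 ω ⟨hω, ha1, ha2⟩
    refine ⟨W ω, ?_⟩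
    rw [hν0]
    linear_combination -h2 + T * h3
  · have hca : c ≠ a := by rintro rfl; exact hAa hc
    exact hJPC L A f1 f2 w0 C3 a c (2 * k - 4) P ν3 w2 hFA hwf hc hca (hw0c c hc) hw0P (htI c hc)
      (fun ω hω => hν ω hω) (fun ω hω => (hw2' ω hω).2 c hc)

end Pool.Agent.RTB
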