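import Pool.Agent.RTB.SStmts

/-!
# RTB, module S2A: step 2, case A
-/

set_option autoImplicit false

open Polynomial

namespace Pool.Agent.RTB

namespace S2A_

variable {L : Type} [Field L]

/-- `l^4 * (B2 D^2 + B1 D + B0) (g / l^2)` -/
noncomputable def Phi (l B2 B1 B0 g : L[X]) : L[X] :=
  B2 * (l ^ 2 * derivative (derivative g) - 4 * (l * derivative l * derivative g)
      + 6 * (derivative l * derivative l * g))
    + B1 * (l ^ 2 * derivative g - 2 * (l * derivative l * g)) + B0 * (l ^ 2 * g)

theorem Phi_A {F l g1 g2 : L[X]} (hw : wr g1 g2 = F * l) (g : L[X]) :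
    Phi l (F * l) (3 * (F * derivative l) - derivative F * l)
      (wr (derivative g1) (derivative g2) - 2 * (derivative F * derivative l)) g
      = l ^ 2 * Dh g1 g2 g := by
  simp only [Phi, Dh]
  rw [hw, derivative_mul]
  ring

theorem der_Phi {l : L[X]} (hl : derivative (derivative l) = 0) (B2 B1 B0 g : L[X]) :
    derivative (Phi l B2 B1 B0 g)
      = derivative B2 * (l ^ 2 * derivative (derivative g) - 4 * (l * derivative l * derivative g)
          + 6 * (derivative l * derivative l * g))
        + B2 * derivative (l ^ 2 * derivative (derivative g)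
          - 4 * (l * derivative l * derivative g) + 6 * (derivative l * derivative l * g))
        + derivative B1 * (l ^ 2 * derivative g - 2 * (l * derivative l * g))
        + B1 * (l ^ 2 * derivative (derivative g) - 2 * (derivative l * derivative l * g))
        + derivative B0 * (l ^ 2 * g)
        + B0 * (l ^ 2 * derivative g + 2 * (l * derivative l * g)) := by
  have e2 : derivative (2 : L[X]) = 0 := by simp
  have h1 : derivative (l ^ 2 * derivative g - 2 * (l * derivative l * g))
      = l ^ 2 * derivative (derivative g) - 2 * (derivative l * derivative l * g) := by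
    simp only [pow_two, derivative_sub, derivative_mul, hl, e2]
    ring
  have h0 : derivative (l ^ 2 * g) = l ^ 2 * derivative g + 2 * (l * derivative l * g) := by
    simp only [pow_two, derivative_mul]
    ring
  simp only [Phi]
  rw [derivative_add, derivative_add, derivative_mul, derivative_mul (f := B1),
    derivative_mul (f := B0), h1, h0]
  ring

theorem Phi_double {l A2 A1 A0 B2 B1 B0 g : L[X]} {c κ κ' : L}
    (hl : derivative (derivative l) = 0) (hlc : l.eval c ≠ 0)
    (hA : Phi l A2 A1 A0 g = 0) (hA2 : A2.eval c = 0)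
    (h2 : B2.eval c = 0) (h1 : B1.eval c = κ * A1.eval c) (h0 : B0.eval c = κ * A0.eval c)
    (h21 : (derivative B2).eval c + B1.eval c = 0)
    (h10 : (derivative B1).eval c + B0.eval c = κ' * A1.eval c)
    (h00 : (derivative B0).eval c = κ' * A0.eval c) :
    (Phi l B2 B1 B0 g).eval c = 0 ∧ (derivative (Phi l B2 B1 B0 g)).eval c = 0 := by
  have hE : (Phi l A2 A1 A0 g).eval c = 0 := by rw [hA, eval_zero]
  simp only [Phi, eval_add, eval_sub, eval_mul, eval_pow, eval_ofNat, hA2, zero_mul,
    zero_add] at hE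
  have hE' : A1.eval c * (l.eval c * (derivative g).eval c
      - 2 * ((derivative l).eval c * g.eval c)) + A0.eval c * (l.eval c * g.eval c) = 0 := by
    have h3 : l.eval c * (A1.eval c * (l.eval c * (derivative g).eval c
      - 2 * ((derivative l).eval c * g.eval c)) + A0.eval c * (l.eval c * g.eval c)) = 0 := by
      linear_combination hE
    exact (mul_eq_zero.mp h3).resolve_left hlc
  constructor
  · simp only [Phi, eval_add, eval_sub, eval_mul, eval_pow, eval_ofNat, h2, h1, h0, zero_mul,
      zero_add]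
    linear_combination κ * hE
  · rw [der_Phi hl]
    have e1 : (derivative B2).eval c = - B1.eval c := by linear_combination h21
    have e2 : (derivative B1).eval c = κ' * A1.eval c - B0.eval c := by linear_combination h10
    simp only [eval_add, eval_sub, eval_mul, eval_pow, eval_ofNat, h2, e1, e2, h00, zero_mul,
      add_zero]
    rw [h1, h0]
    linear_combination κ' * hE + 4 * (derivative l).eval c * κ * hE'

theorem natDegree_Phi {l B2 B1 B0 g : L[X]} {k : ℕ} (hk : 5 ≤ k) (hl : l.natDegree ≤ 1)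
    (hg : g.natDegree ≤ k) (h2 : B2.natDegree ≤ 2 * k) (h1 : B1.natDegree ≤ 2 * k - 1)
    (h0 : B0.natDegree ≤ 2 * k - 2) : (Phi l B2 B1 B0 g).natDegree ≤ 3 * k := by
  have hl' : (derivative l).natDegree ≤ 0 := le_trans (natDegree_derivative_le l) (by omega)
  have hg1 : (derivative g).natDegree ≤ k - 1 := le_trans (natDegree_derivative_le g) (by omega)
  have hg2 : (derivative (derivative g)).natDegree ≤ k - 2 :=
    le_trans (natDegree_derivative_le _) (by omega)
  have hll : (l ^ 2).natDegree ≤ 2 := le_trans natDegree_pow_le (by omega)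
  have hn : ∀ n : ℕ, ∀ p : L[X], ((OfNat.ofNat (n + 2) : L[X]) * p).natDegree ≤ p.natDegree := by
    intro n p
    have := natDegree_mul_le (p := (OfNat.ofNat (n + 2) : L[X])) (q := p)
    rw [natDegree_ofNat] at this
    omega
  have hm : ∀ (p q : L[X]) (a b c : ℕ), p.natDegree ≤ a → q.natDegree ≤ b → a + b ≤ c →
      (p * q).natDegree ≤ c := fun p q a b c hp hq hc =>
    le_trans natDegree_mul_le (le_trans (add_le_add hp hq) hc)
  have ha : ∀ (p q : L[X]) (c : ℕ), p.natDegree ≤ c → q.natDegree ≤ c →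
      (p + q).natDegree ≤ c := fun p q c hp hq => natDegree_add_le_of_degree_le hp hq
  have hs : ∀ (p q : L[X]) (c : ℕ), p.natDegree ≤ c → q.natDegree ≤ c →
      (p - q).natDegree ≤ c := fun p q c hp hq =>
    le_trans (natDegree_sub_le_of_le hp hq) (by simp)
  have k4 := hn 2 (l * derivative l * derivative g)
  have k6 := hn 4 (derivative l * derivative l * g)
  have k2 := hn 0 (l * derivative l * g)
  have u1 : (l * derivative l * derivative g).natDegree ≤ k :=
    hm _ _ 1 (k - 1) k (hm _ _ 1 0 1 hl hl' (by omega)) hg1 (by omega)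
  have u2 : (derivative l * derivative l * g).natDegree ≤ k :=
    hm _ _ 0 k k (hm _ _ 0 0 0 hl' hl' (by omega)) hg (by omega)
  have u3 : (l * derivative l * g).natDegree ≤ k + 1 :=
    hm _ _ 1 k (k + 1) (hm _ _ 1 0 1 hl hl' (by omega)) hg (by omega)
  unfold Phi
  refine ha _ _ _ (ha _ _ _ ?_ ?_) ?_
  · refine hm _ _ (2 * k) k _ h2 (ha _ _ _ (hs _ _ _ ?_ ?_) ?_) (by omega)
    · exact hm _ _ 2 (k - 2) _ hll hg2 (by omega)
    · exact le_trans k4 u1
    · exact le_trans k6 u2
  · refine hm _ _ (2 * k - 1) (k + 1) _ h1 (hs _ _ _ ?_ ?_) (by omega)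
    · exact hm _ _ 2 (k - 1) _ hll hg1 (by omega)
    · exact le_trans k2 u3
  · exact hm _ _ (2 * k - 2) (k + 2) _ h0 (hm _ _ 2 k _ hll hg (by omega)) (by omega)

end S2A_

open S2A_

open Classical in
theorem s2a_proof (hCOM : Stmt_COM) (hDG9 : Stmt_DG9) (hWDG : Stmt_WDG) (_hPNX : Stmt_PNX)
    (hHIN : Stmt_HIN) (_hWZR : Stmt_WZR) : Stmt_S2A := by
  intro L _ _ _ F f1 f2 l g1 g2 l' w0 k ν hk hF hPf hPg _hg hco hw0 hw0d hν hloc
  have hl2 : derivative (derivative l') = 0 := der2_of_natDegree_le_one hPg.dl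
  obtain ⟨hcard, _, hdvd, hdvd2, _, _⟩ := hHIN L F (2 * k - 3) hF
  set A2 : L[X] := F * l' with hA2
  set A1 : L[X] := 3 * (F * derivative l') - derivative F * l' with hA1
  set A0 : L[X] := wr (derivative g1) (derivative g2) - 2 * (derivative F * derivative l') with hA0
  have hDl : ∀ m, Dl F l' g1 g2 m
      = A2 * derivative (derivative m) + A1 * derivative m + A0 * m := fun m => rfl
  have hmem : ∀ m : L[X], m.natDegree ≤ k - 2 → Dl F l' g1 g2 m ∈ DlSp F l' g1 g2 (k - 2) :=
    fun m hm => mem_DlSp.mpr ⟨m, hm, rfl⟩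
  let G : L[X] →ₗ[L] L[X] := (DhLin f1 f2).comp (ν.comp (DlLin F l' g1 g2))
  have hG : ∀ m, G m = Dh f1 f2 (ν (Dl F l' g1 g2 m)) := fun m => rfl
  have hGd : ∀ m : L[X], m.natDegree ≤ k - 2 → (G m).natDegree ≤ 3 * k - 6 := fun m hm =>
    (hWDG L k f1 f2 (ν (Dl F l' g1 g2 m)) hPf.d1 hPf.d2 (hν _ (hmem m hm))).2
  -- local conditions
  have hGc : ∀ c, F.eval c = 0 → ∃ κ κ' : L, ∀ m : L[X], m.natDegree ≤ k - 2 →
      (G m).eval c = κ * (A0.eval c * m.eval c + A1.eval c * (derivative m).eval c) ∧
      (derivative (G m)).eval c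
        = κ' * (A0.eval c * m.eval c + A1.eval c * (derivative m).eval c) := by
    intro c hc
    obtain ⟨κ, κ', h⟩ := hloc c hc
    refine ⟨κ, κ', fun m hm => ?_⟩
    have h2 := h _ (hmem m hm)
    have h3 : (Dl F l' g1 g2 m).eval c
        = A0.eval c * m.eval c + A1.eval c * (derivative m).eval c := by
      rw [hDl]
      have : A2.eval c = 0 := by rw [hA2, eval_mul, hc, zero_mul]
      simp only [eval_add, eval_mul, this]
      ring
    rw [h3] at h2
    exact h2
  obtain ⟨β0, β1, β2, hβ⟩ := hCOM L F.roots.toFinset (k - 2) (3 * k - 6) G (by omega) hGd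
    (by
      intro c hc
      have hc' : F.eval c = 0 := by
        rw [Multiset.mem_toFinset, mem_roots'] at hc
        exact hc.2
      obtain ⟨κ, κ', h⟩ := hGc c hc'
      exact ⟨A0.eval c, A1.eval c, κ, κ', h⟩)
    (by rw [hcard]; omega)
  obtain ⟨hd2, hd1, hd0⟩ := hDG9 L β0 β1 β2 k (by omega) (fun m hm => by
    rw [← hβ m hm]; exact hGd m hm)
  -- values of the coefficients at the roots of `F`
  have hval : ∀ c, F.eval c = 0 → ∃ κ κ' : L, β2.eval c = 0 ∧ β1.eval c = κ * A1.eval c ∧
      β0.eval c = κ * A0.eval c ∧ (derivative β2).eval c + β1.eval c = 0 ∧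
      (derivative β1).eval c + β0.eval c = κ' * A1.eval c ∧
      (derivative β0).eval c = κ' * A0.eval c := by
    intro c hc
    obtain ⟨κ, κ', h⟩ := hGc c hc
    have hX : (X - C c : L[X]).natDegree = 1 := natDegree_X_sub_C c
    have t0 := h 1 (by simp)
    have t1 := h (X - C c) (by rw [hX]; omega)
    have t2 := h ((X - C c) ^ 2) (by rw [natDegree_pow, hX]; omega)
    rw [hβ 1 (by simp)] at t0
    rw [hβ (X - C c) (by rw [hX]; omega)] at t1
    rw [hβ ((X - C c) ^ 2) (by rw [natDegree_pow, hX]; omega)] at t2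
    have e1 : derivative (X - C c : L[X]) = 1 := by simp
    have e2 : derivative ((X - C c : L[X]) ^ 2) = 2 * (X - C c) := by
      rw [pow_two, derivative_mul, e1]; ring
    have e3 : derivative (2 * (X - C c : L[X])) = 2 := by
      rw [derivative_mul, e1]; simp
    have e4 : derivative (2 : L[X]) = 0 := by simp
    simp only [derivative_one, derivative_zero, mul_zero, mul_one, zero_add, eval_one,
      eval_zero, add_zero] at t0
    simp only [e1, derivative_one, mul_zero, mul_one, zero_add, eval_one,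
      eval_add, eval_mul, eval_sub, eval_X, eval_C, sub_self, derivative_add, derivative_mul,
      add_zero] at t1
    simp only [e2, e3, e4, derivative_add, derivative_mul, eval_add, eval_mul, eval_sub,
      eval_X, eval_C, sub_self, eval_pow, eval_ofNat, mul_zero, add_zero, ne_eq,
      OfNat.ofNat_ne_zero, not_false_eq_true, zero_pow, zero_add] at t2
    have two : (2 : L) ≠ 0 := two_ne_zero
    refine ⟨κ, κ', ?_, t1.1, t0.1, ?_, ?_, t0.2⟩
    · exact (mul_eq_zero.mp t2.1).resolve_right two
    · have h5 : ((derivative β2).eval c + β1.eval c) * 2 = 0 := by linear_combination t2.2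
      exact (mul_eq_zero.mp h5).resolve_right two
    · exact t1.2
  -- both generators are killed
  have hPhi : ∀ g : L[X], g.natDegree ≤ k → Dh g1 g2 g = 0 →
      Phi l' A2 A1 A0 g = 0 ∧ Phi l' β2 β1 β0 g = 0 := by
    intro g hgd hgD
    have hAg : Phi l' A2 A1 A0 g = 0 := by
      rw [hA2, hA1, hA0, Phi_A hPg.hw, hgD, mul_zero]
    refine ⟨hAg, ?_⟩
    by_contra hne
    have hY : F ^ 2 ∣ Phi l' β2 β1 β0 g * l' ^ 2 := by
      apply hdvd2
      intro c hc
      by_cases hlc : l'.eval c = 0
      · constructor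
        · simp [hlc]
        · rw [pow_two, derivative_mul, derivative_mul]
          simp [hlc]
      · obtain ⟨κ, κ', v2, v1, v0, v21, v10, v00⟩ := hval c hc
        have hz : A2.eval c = 0 := by rw [hA2, eval_mul, hc, zero_mul]
        obtain ⟨y0, y1⟩ := Phi_double hl2 hlc hAg hz v2 v1 v0 v21 v10 v00
        constructor
        · rw [eval_mul, y0, zero_mul]
        · rw [derivative_mul, eval_add, eval_mul, eval_mul, y0, y1, zero_mul, zero_mul, add_zero]
    have hne2 : Phi l' β2 β1 β0 g * l' ^ 2 ≠ 0 := mul_ne_zero hne (pow_ne_zero 2 hPg.l0)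
    have hdeg := natDegree_le_of_dvd hY hne2
    rw [natDegree_pow, hF.deg] at hdeg
    have hdeg2 : (Phi l' β2 β1 β0 g * l' ^ 2).natDegree ≤ 3 * k + 2 := by
      refine le_trans natDegree_mul_le (add_le_add
        (natDegree_Phi (by omega) hPg.dl hgd hd2 hd1 hd0) ?_)
      refine le_trans natDegree_pow_le ?_
      have := hPg.dl
      omega
    omega
  obtain ⟨hA_1, hβ_1⟩ := hPhi g1 hPg.d1 (Dh_self1 g1 g2)
  obtain ⟨hA_2, hβ_2⟩ := hPhi g2 hPg.d2 (Dh_self2 g1 g2)
  have hW : wr g1 g2 ≠ 0 := by
    rw [hPg.hw]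
    exact mul_ne_zero hF.mon.ne_zero hPg.l0
  have hl0 := hPg.l0
  -- Cramer
  have hP1 : A2 * β1 - β2 * A1 = 0 := by
    have h3 : l' ^ 2 * wr g1 g2 * l' ^ 2 * (A2 * β1 - β2 * A1) = 0 := by
      simp only [Phi] at hA_1 hA_2 hβ_1 hβ_2
      simp only [wr]
      linear_combination (l' ^ 2 * g1) * (A2 * hβ_2 - β2 * hA_2)
        - (l' ^ 2 * g2) * (A2 * hβ_1 - β2 * hA_1)
    exact (mul_eq_zero.mp h3).resolve_left
      (mul_ne_zero (mul_ne_zero (pow_ne_zero 2 hl0) hW) (pow_ne_zero 2 hl0))
  have hP0 : A2 * β0 - β2 * A0 = 0 := by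
    have hgen : ∀ g, Phi l' A2 A1 A0 g = 0 → Phi l' β2 β1 β0 g = 0 →
        (A2 * β0 - β2 * A0) * (l' ^ 2 * g) = 0 := by
      intro g ha hb
      simp only [Phi] at ha hb
      linear_combination A2 * hb - β2 * ha
        - (l' ^ 2 * derivative g - 2 * (l' * derivative l' * g)) * hP1
    by_contra hne
    have z1 := (mul_eq_zero.mp ((mul_eq_zero.mp (hgen g1 hA_1 hβ_1)).resolve_left hne)).resolve_left
      (pow_ne_zero 2 hl0)
    apply hW
    rw [z1]
    simp [wr]
  -- `F` divides `β2`
  obtain ⟨β, hβF⟩ := hdvd β2 (fun c hc => by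
    obtain ⟨κ, κ', v2, _⟩ := hval c hc
    exact v2)
  have hlG : ∀ m : L[X], m.natDegree ≤ k - 2 → l' * G m = β * Dl F l' g1 g2 m := by
    intro m hm
    have h3 : F * (l' * G m) = F * (β * Dl F l' g1 g2 m) := by
      rw [hβ m hm, hDl]
      have p1 : F * l' * β1 = F * β * A1 := by
        rw [← hβF]; linear_combination hP1
      have p0 : F * l' * β0 = F * β * A0 := by
        rw [← hβF]; linear_combination hP0
      rw [hβF, hA2]
      linear_combination derivative m * p1 + m * p0
    exact mul_left_cancel₀ hF.mon.ne_zero h3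
  -- `l'` divides `β`
  have hdv : l' ∣ β := by
    have hldeg := hPg.dl
    rcases Nat.lt_or_ge l'.natDegree 1 with h0 | h1
    · have h3 : l' = C (l'.coeff 0) := eq_C_of_natDegree_eq_zero (by omega)
      have h4 : l'.coeff 0 ≠ 0 := by
        intro h5; apply hl0; rw [h3, h5, C_0]
      have h6 : IsUnit l' := by
        rw [h3]; exact isUnit_C.mpr (isUnit_iff_ne_zero.mpr h4)
      exact h6.dvd
    · obtain ⟨q, hq⟩ := IsAlgClosed.exists_root l' (by
        intro h7
        rw [degree_eq_natDegree hl0] at h7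
        have : l'.natDegree = 0 := by exact_mod_cast h7
        omega)
      have hq' : l'.eval q = 0 := hq
      obtain ⟨ω, hω, hωq⟩ := hco q
      obtain ⟨m, hm, rfl⟩ := mem_DlSp.mp hω
      have h3 := congrArg (eval q) (hlG m hm)
      rw [eval_mul, eval_mul, hq', zero_mul] at h3
      have h4 : β.eval q = 0 := (mul_eq_zero.mp h3.symm).resolve_right hωq
      have h5 : X - C q ∣ β := dvd_iff_isRoot.mpr h4
      obtain ⟨s, hs⟩ := dvd_iff_isRoot.mpr hq
      have hs0 : s ≠ 0 := by rintro rfl; apply hl0; rw [hs, mul_zero]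
      have hsd : s.natDegree = 0 := by
        have := congrArg natDegree hs
        rw [natDegree_mul (X_sub_C_ne_zero q) hs0, natDegree_X_sub_C] at this
        omega
      have h6 : s = C (s.coeff 0) := eq_C_of_natDegree_eq_zero hsd
      have h7 : s.coeff 0 ≠ 0 := by
        intro h8; apply hs0; rw [h6, h8, C_0]
      have h8 : IsUnit s := by
        rw [h6]; exact isUnit_C.mpr (isUnit_iff_ne_zero.mpr h7)
      rw [hs]
      exact (h8.mul_right_dvd).mpr h5
  obtain ⟨a0, ha0⟩ := hdv
  have hfin : ∀ m : L[X], m.natDegree ≤ k - 2 → G m = a0 * Dl F l' g1 g2 m := by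
    intro m hm
    have h3 := hlG m hm
    rw [ha0, mul_assoc] at h3
    exact mul_left_cancel₀ hl0 h3
  refine ⟨a0, ?_, ?_⟩
  · obtain ⟨m0, hm0, hw⟩ := mem_DlSp.mp hw0
    by_cases ha : a0 = 0
    · rw [ha]; simp
    · have h3 := hfin m0 hm0
      have h4 := hGd m0 hm0
      have hw0ne : w0 ≠ 0 := by
        intro h5; rw [h5] at hw0d; simp at hw0d; omega
      rw [h3, hw, natDegree_mul ha hw0ne, hw0d] at h4
      omega
  · intro ω hω
    obtain ⟨m, hm, rfl⟩ := mem_DlSp.mp hω
    exact hfin m hm

end Pool.Agent.RTB
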