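import Pool.Agent.RTB.SStmts

/-!
# squad RTB, module S2B (Step 2, case B)
-/

set_option autoImplicit false

open Polynomial

namespace Pool.Agent.RTB

theorem S2B_Dh_zero {L : Type} [Field L] (f1 f2 : L[X]) : Dh f1 f2 0 = 0 := by
  simp [Dh]

theorem s2b_proof (hCOM : Stmt_COM) (hWDG : Stmt_WDG) (hHIN : Stmt_HIN) (_hWZR : Stmt_WZR) :
    Stmt_S2B := by
  intro L _ _ _ A f1 f2 l g1 g2 w0 b k ν hk hA _hAb hPN hg1 hg2 hwr hw0 hw0d hν hloc
  obtain ⟨hcard, _, hdvd, _, _, _⟩ := hHIN L A (2 * k - 4) hA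
  classical
  have hA0 : A ≠ 0 := hA.mon.ne_zero
  let G : L[X] →ₗ[L] L[X] := (DhLin f1 f2).comp (ν.comp (DhLin g1 g2))
  have hG : ∀ m, G m = Dh f1 f2 (ν (Dh g1 g2 m)) := fun m => rfl
  have hmem : ∀ m : L[X], m.natDegree ≤ k - 1 → Dh g1 g2 m ∈ DhSp g1 g2 (k - 1) :=
    fun m hm => mem_DhSp.2 ⟨m, hm, rfl⟩
  have hval : ∀ (m : L[X]) (c : L), A.eval c = 0 → (Dh g1 g2 m).eval c =
      (wr (derivative g1) (derivative g2)).eval c * m.eval c
        + (-(derivative A).eval c) * (derivative m).eval c := by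
    intro m c hc
    simp only [Dh, hwr, eval_add, eval_sub, eval_mul, hc]
    ring
  obtain ⟨β0, β1, β2, hβ⟩ := hCOM L A.roots.toFinset (k - 1) (3 * k - 6) G (by omega)
    (fun m hm => (hWDG L k f1 f2 (ν (Dh g1 g2 m)) hPN.d1 hPN.d2 (hν _ (hmem m hm))).2)
    (by
      intro c hc
      have hc0 : A.eval c = 0 := by
        rw [Multiset.mem_toFinset, mem_roots hA0] at hc
        exact hc
      obtain ⟨κ, κ', hκ⟩ := hloc c hc0
      refine ⟨(wr (derivative g1) (derivative g2)).eval c, -(derivative A).eval c, κ, κ', ?_⟩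
      intro m hm
      have h := hκ _ (hmem m hm)
      rw [hval m c hc0] at h
      exact h)
    (by rw [hcard]; omega)
  have e1 : β2 * derivative (derivative g1) + β1 * derivative g1 + β0 * g1 = 0 := by
    rw [← hβ g1 hg1, hG, Dh_self1, map_zero, S2B_Dh_zero]
  have e2 : β2 * derivative (derivative g2) + β1 * derivative g2 + β0 * g2 = 0 := by
    rw [← hβ g2 hg2, hG, Dh_self2, map_zero, S2B_Dh_zero]
  have hA1 : g1 * derivative g2 - derivative g1 * g2 = A := hwr
  have hA2 : derivative A = g1 * derivative (derivative g2) - derivative (derivative g1) * g2 := by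
    rw [← hA1]
    simp only [derivative_sub, derivative_mul]
    ring
  have c1 : A * β1 = -(β2 * derivative A) := by
    rw [hA2, ← hA1]
    linear_combination g1 * e2 - g2 * e1
  have c0 : A * β0 = β2 * wr (derivative g1) (derivative g2) := by
    rw [wr, ← hA1]
    linear_combination derivative g2 * e1 - derivative g1 * e2
  have hAG : ∀ m : L[X], m.natDegree ≤ k - 1 → A * G m = β2 * Dh g1 g2 m := by
    intro m hm
    rw [hβ m hm, Dh, hwr]
    linear_combination derivative m * c1 + m * c0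
  have hβ2 : A ∣ β2 := by
    apply hdvd
    intro c hc
    obtain ⟨κ, κ', hκ⟩ := hloc c hc
    have hd : ((X - C c) ^ 2 : L[X]).natDegree ≤ k - 1 := by
      rw [natDegree_pow, natDegree_X_sub_C]
      omega
    have h := (hκ _ (hmem _ hd)).1
    have hm0 : ((X - C c) ^ 2 : L[X]).eval c = 0 := by simp
    have hm1 : (derivative ((X - C c) ^ 2 : L[X])).eval c = 0 := by
      rw [pow_two, derivative_mul]
      simp
    have hm2 : (derivative (derivative ((X - C c) ^ 2 : L[X]))).eval c = 2 := by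
      rw [pow_two, derivative_mul]
      simp
      norm_num
    rw [hval _ c hc, hm0, hm1, mul_zero, mul_zero, add_zero, mul_zero, ← hG, hβ _ hd] at h
    simp only [eval_add, eval_mul, hm0, hm1, hm2, mul_zero, add_zero] at h
    exact (mul_eq_zero.1 h).resolve_right two_ne_zero
  obtain ⟨a0, ha0⟩ := hβ2
  have hGa : ∀ ω ∈ DhSp g1 g2 (k - 1), Dh f1 f2 (ν ω) = a0 * ω := by
    intro ω hω
    obtain ⟨m, hm, rfl⟩ := mem_DhSp.1 hω
    have h := hAG m hm
    rw [ha0, hG, mul_assoc] at h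
    exact mul_left_cancel₀ hA0 h
  refine ⟨a0, ?_, hGa⟩
  by_cases h0 : a0 = 0
  · rw [h0]
    simp
  · have hw00 : w0 ≠ 0 := by
      rintro rfl
      rw [natDegree_zero] at hw0d
      omega
    have h1 := (hWDG L k f1 f2 (ν w0) hPN.d1 hPN.d2 (hν _ hw0)).2
    rw [hGa w0 hw0, natDegree_mul h0 hw00, hw0d] at h1
    omega

end Pool.Agent.RTB
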