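import Pool.Agent.RTB.SStmts

set_option autoImplicit false

open Polynomial

namespace Pool.Agent.RTB

namespace S2C_

variable {L : Type} [Field L]

/-- `D3` as a linear map -/
noncomputable def D3Lin (T f1 f2 : L[X]) : L[X] →ₗ[L] L[X] where
  toFun := D3 T f1 f2
  map_add' := fun a b => by simp only [D3, derivative_add]; ring
  map_smul' := fun c a => by
    simp only [D3, smul_eq_C_mul, derivative_mul, derivative_C, zero_mul, zero_add,
      RingHom.id_apply]; ring

theorem D3_eq (T f1 f2 p : L[X]) (hT : derivative T = 1) :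
    T ^ 4 * D3 T f1 f2 p = Dh (T ^ 3 * f1) (T ^ 3 * f2) p := by
  have d3 : ∀ a : L[X], derivative (T ^ 3 * a) = 3 * (T ^ 2 * a) + T ^ 3 * derivative a :=
    fun a => by
      rw [show T ^ 3 = T * T * T by ring, derivative_mul, derivative_mul, derivative_mul, hT]
      ring
  have d2 : ∀ a : L[X], derivative (T ^ 2 * a) = 2 * (T * a) + T ^ 2 * derivative a := fun a => by
    rw [pow_two, derivative_mul, derivative_mul, hT]; ring
  have e3 : derivative (3 : L[X]) = 0 := by simp
  have dd3 : ∀ v : L[X], derivative (derivative (T ^ 3 * v))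
      = 6 * (T * v) + 6 * (T ^ 2 * derivative v) + T ^ 3 * derivative (derivative v) := fun v => by
    rw [d3, derivative_add, derivative_mul, e3, d2, d3]; ring
  have hw : wr (T ^ 3 * f1) (T ^ 3 * f2) = T ^ 3 * (T ^ 3 * wr f1 f2) := by
    simp only [wr, d3]; ring
  have hw2 : wr (derivative (T ^ 3 * f1)) (derivative (T ^ 3 * f2))
      = T ^ 6 * wr (derivative f1) (derivative f2) + 3 * T ^ 5 * derivative (wr f1 f2)
        + 12 * T ^ 4 * wr f1 f2 := by
    simp only [wr, dd3]
    simp only [d3, derivative_sub, derivative_mul]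
    ring
  have hdw : derivative (T ^ 3 * (T ^ 3 * wr f1 f2)) = 6 * T ^ 5 * wr f1 f2
      + T ^ 6 * derivative (wr f1 f2) := by
    rw [d3, d3]; ring
  rw [Dh, hw, hw2, hdw, D3]
  ring

theorem natDegree_pow_mul {T q : L[X]} (hT : T.Monic) (h1 : T.natDegree = 1) (n : ℕ) (m : ℕ)
    (h : (T ^ n * q).natDegree ≤ m) : q.natDegree ≤ m - n := by
  by_cases hq : q = 0
  · subst hq; simp
  · rw [(hT.pow n).natDegree_mul' hq, hT.natDegree_pow, h1] at h
    omega

end S2C_

open S2C_ in
theorem s2c_proof (hCOM : Stmt_COM) (hWDG : Stmt_WDG) (hHIN : Stmt_HIN) (_hWZR : Stmt_WZR) :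
    Stmt_S2C := by
  classical
  intro L _ _ _ A f1 f2 g1 g2 w0 a k ν3 hk hA _ha hf1 hf2 hf hg1 hg2 hg hw0 hw0d hν hloc
  obtain ⟨hcard, hder, hdvd, -, -, -⟩ := hHIN L A (2 * k - 4) hA
  have hA0 : A ≠ 0 := hA.mon.ne_zero
  have hT : derivative (X - C a) = 1 := by simp
  have hTm : (X - C a).Monic := monic_X_sub_C a
  have hTd : (X - C a).natDegree = 1 := natDegree_X_sub_C a
  set T : L[X] := X - C a with hTdef
  -- degree bound for D3
  have hD3 : ∀ p : L[X], p.natDegree ≤ k + 2 → (D3 T f1 f2 p).natDegree ≤ 3 * k - 4 := by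
    intro p hp
    have h3 : ∀ f : L[X], f.natDegree ≤ k - 1 → (T ^ 3 * f).natDegree ≤ k + 2 := by
      intro f hf
      refine le_trans natDegree_mul_le ?_
      rw [hTm.natDegree_pow, hTd]; omega
    have h := (hWDG L (k + 2) (T ^ 3 * f1) (T ^ 3 * f2) p (h3 _ hf1) (h3 _ hf2) hp).2
    rw [← D3_eq T f1 f2 p hT] at h
    have := natDegree_pow_mul hTm hTd 4 _ h
    omega
  let G : L[X] →ₗ[L] L[X] := (D3Lin T f1 f2) ∘ₗ ν3 ∘ₗ (DhLin g1 g2)
  have hG : ∀ v, G v = D3 T f1 f2 (ν3 (Dh g1 g2 v)) := fun v => rfl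
  have hmem : ∀ v : L[X], v.natDegree ≤ k - 1 → Dh g1 g2 v ∈ DhSp g1 g2 (k - 1) :=
    fun v hv => mem_DhSp.2 ⟨v, hv, rfl⟩
  have hroot : ∀ c, c ∈ A.roots.toFinset ↔ A.eval c = 0 := by
    intro c
    rw [Multiset.mem_toFinset, mem_roots hA0, IsRoot.def]
  have hval : ∀ c, A.eval c = 0 → ∀ v : L[X], (Dh g1 g2 v).eval c
      = (wr (derivative g1) (derivative g2)).eval c * v.eval c
        + (-(derivative A).eval c) * (derivative v).eval c := by
    intro c hc v
    rw [Dh, hg]
    simp only [eval_add, eval_sub, eval_mul, hc]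
    ring
  obtain ⟨β0, β1, β2, hβ⟩ := hCOM L A.roots.toFinset (k - 1) (3 * k - 4) G (by omega)
    (fun v hv => hD3 _ (hν _ (hmem v hv)))
    (fun c hc => by
      rw [hroot] at hc
      obtain ⟨κ, κ', h⟩ := hloc c hc
      refine ⟨(wr (derivative g1) (derivative g2)).eval c, -(derivative A).eval c, κ, κ', ?_⟩
      intro v hv
      have := h _ (hmem v hv)
      rw [hval c hc v] at this
      exact this)
    (by rw [hcard]; omega)
  -- the two pencil relations
  have hG1 : β2 * derivative (derivative g1) + β1 * derivative g1 + β0 * g1 = 0 := by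
    rw [← hβ g1 hg1, hG, Dh_self1]
    simp [D3]
  have hG2 : β2 * derivative (derivative g2) + β1 * derivative g2 + β0 * g2 = 0 := by
    rw [← hβ g2 hg2, hG, Dh_self2]
    simp [D3]
  have hdA : derivative A = g1 * derivative (derivative g2) - derivative (derivative g1) * g2 := by
    rw [← hg, wr]
    simp only [derivative_sub, derivative_mul]
    ring
  have hAw : A = g1 * derivative g2 - derivative g1 * g2 := by rw [← hg, wr]
  have hr1 : β2 * derivative A + β1 * A = 0 := by
    rw [hdA, hAw]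
    linear_combination g1 * hG2 - g2 * hG1
  have hr0 : β2 * wr (derivative g1) (derivative g2) - β0 * A = 0 := by
    rw [hAw, wr]
    linear_combination derivative g1 * hG2 - derivative g2 * hG1
  have hAG : ∀ v : L[X], v.natDegree ≤ k - 1 → A * G v = β2 * Dh g1 g2 v := by
    intro v hv
    rw [hβ v hv, Dh, hg]
    linear_combination (derivative v) * hr1 - v * hr0
  -- `A` divides `β2`
  have hβ2 : ∀ c, A.eval c = 0 → β2.eval c = 0 := by
    intro c hc
    obtain ⟨κ, κ', h⟩ := hloc c hc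
    have hv : ((X - C c) ^ 2 : L[X]).natDegree ≤ k - 1 := by
      rw [(monic_X_sub_C c).natDegree_pow, natDegree_X_sub_C]; omega
    have h1 := (h _ (hmem _ hv)).1
    have e1 : derivative ((X - C c) ^ 2 : L[X]) = 2 * (X - C c) := by
      rw [pow_two, derivative_mul]; simp; ring
    have e2 : derivative (2 * (X - C c) : L[X]) = 2 := by
      rw [derivative_mul]; simp
    rw [hval c hc, ← hG, hβ _ hv, e1, e2] at h1
    simp only [eval_add, eval_mul, eval_pow, eval_sub, eval_X, eval_C, eval_ofNat, sub_self,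
      mul_zero, add_zero, zero_pow two_ne_zero] at h1
    rcases mul_eq_zero.1 h1 with h2 | h2
    · exact h2
    · exact absurd h2 two_ne_zero
  obtain ⟨b5, hb5⟩ := hdvd β2 hβ2
  have hfin : ∀ v : L[X], v.natDegree ≤ k - 1 → G v = b5 * Dh g1 g2 v := by
    intro v hv
    have := hAG v hv
    rw [hb5, mul_assoc] at this
    exact mul_left_cancel₀ hA0 this
  refine ⟨b5, ?_, ?_⟩
  · obtain ⟨v0, hv0, hv0w⟩ := mem_DhSp.1 hw0
    have h1 := hfin v0 hv0
    have h2 : (G v0).natDegree ≤ 3 * k - 4 := hD3 _ (hν _ (hmem v0 hv0))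
    have hw0n : w0 ≠ 0 := by
      intro h
      rw [h, natDegree_zero] at hw0d
      omega
    by_cases hb : b5 = 0
    · rw [hb]; simp
    · rw [h1, hv0w, natDegree_mul hb hw0n, hw0d] at h2
      omega
  · intro ω hω
    obtain ⟨v, hv, rfl⟩ := mem_DhSp.1 hω
    exact hfin v hv

end Pool.Agent.RTB
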