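import Pool.Agent.RTB.SStmts

set_option autoImplicit false

open Polynomial

namespace Pool.Agent.RTB
namespace S3B_

variable {L : Type} [Field L]

theorem wr_add_left (a b c : L[X]) : wr (a + b) c = wr a c + wr b c := by
  simp only [wr, derivative_add]; ring

theorem wr_add_right (a b c : L[X]) : wr a (b + c) = wr a b + wr a c := by
  simp only [wr, derivative_add]; ring

theorem wr_C_mul_left (s : L) (a b : L[X]) : wr (C s * a) b = C s * wr a b := by
  simp only [wr, derivative_mul, derivative_C]; ring

theorem wr_C_mul_right (s : L) (a b : L[X]) : wr a (C s * b) = C s * wr a b := by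
  simp only [wr, derivative_mul, derivative_C]; ring

theorem wr_self (a : L[X]) : wr a a = 0 := by
  simp only [wr]; ring

theorem wr_anti (a b : L[X]) : wr a b = - wr b a := by
  simp only [wr]; ring

theorem jet_rel (W G : L[X]) (c : L) (hW : W.eval c = 0) :
    (derivative (wr W G)).eval c * (derivative W).eval c =
      (wr W G).eval c * (derivative (derivative W)).eval c := by
  simp only [wr, derivative_sub, derivative_mul, eval_sub, eval_add, eval_mul, hW]
  ring

theorem wr_smul_left (s : L) (a b : L[X]) : wr (s • a) b = C s * wr a b := by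
  rw [smul_eq_C_mul, wr_C_mul_left]

theorem wr_smul_right (s : L) (a b : L[X]) : wr a (s • b) = C s * wr a b := by
  rw [smul_eq_C_mul, wr_C_mul_right]

theorem tline_span (S : Set L[X]) (c : L) (h : ∀ x ∈ S, ∀ y ∈ S, (wr x y).eval c = 0) :
    tline (Submodule.span L S) c := by
  have key : ∀ u ∈ Submodule.span L S, ∀ v ∈ Submodule.span L S, (wr u v).eval c = 0 := by
    intro u hu
    induction hu using Submodule.span_induction with
    | mem x hx =>
      intro v hv
      induction hv using Submodule.span_induction with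
      | mem y hy => exact h x hx y hy
      | zero => simp [wr]
      | add y z _ _ hy hz => rw [wr_add_right, eval_add, hy, hz, add_zero]
      | smul s y _ hy => rw [wr_smul_right, eval_mul, hy, mul_zero]
    | zero => intro v _; simp [wr]
    | add x y _ _ hx hy => intro v hv; rw [wr_add_left, eval_add, hx v hv, hy v hv, add_zero]
    | smul s x _ hx => intro v hv; rw [wr_smul_left, eval_mul, hx v hv, mul_zero]
  intro u hu v hv
  have h1 := key u hu v hv
  simp only [wr, eval_sub, eval_mul] at h1
  exact sub_eq_zero.1 h1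

end S3B_

open S3B_ in
theorem s3b_proof (hBN : Stmt_BN3) (_hWD : Stmt_WDG) (hH : Stmt_HIN) (_hWZ : Stmt_WZR)
    (_hPX : Stmt_PNX) : Stmt_S3B := by
  classical
  intro L _ _ _ A f1 f2 l g1 g2 a0 b k hk hA hAb hPN hfb hg1 hg2 hwg ha0 hda0 hP
  obtain ⟨hcard, hsimple, -, -, -, -⟩ := hH L A (2 * k - 4) hA
  have hA0 : A ≠ 0 := hA.mon.ne_zero
  set W : L[X] := wr f1 f2 with hWdef
  have hW : W = (X - C b) * A * l := hPN.hw
  have hl0 : l ≠ 0 := hPN.l0
  -- the two basic identities
  have hkey : ∀ f : L[X], (f = f1 ∨ f = f2) → ∀ v : L[X], f * Dh f1 f2 v = wr W (wr f v) := by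
    rintro f (rfl | rfl) v
    · exact key1 _ _ v
    · exact key2 _ _ v
  have hkeyg : ∀ g : L[X], (g = g1 ∨ g = g2) → ∀ v : L[X], g * Dh g1 g2 v = wr A (wr g v) := by
    rintro g (rfl | rfl) v
    · rw [← hwg]; exact key1 _ _ v
    · rw [← hwg]; exact key2 _ _ v
  -- values of `Dh g1 g2`
  have hmem : ∀ u : L[X], u.natDegree ≤ k - 1 → Dh g1 g2 u ∈ DhSp g1 g2 (k - 1) :=
    fun u hu => mem_DhSp.2 ⟨u, hu, rfl⟩
  -- (1) `a0` vanishes at `b`
  have ha0b : a0.eval b = 0 := by
    by_contra hne
    obtain ⟨f, hf, hfb'⟩ : ∃ f : L[X], (f = f1 ∨ f = f2) ∧ f.eval b ≠ 0 := by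
      rcases hfb with h | h
      · exact ⟨f1, Or.inl rfl, h⟩
      · exact ⟨f2, Or.inr rfl, h⟩
    have hWb : W.eval b = 0 := by rw [hW]; simp
    have hd : ∀ n : ℕ, ((X - C b) ^ n : L[X]).natDegree = n := by
      intro n; rw [natDegree_pow, natDegree_X_sub_C, mul_one]
    have d1 : derivative (X - C b : L[X]) = 1 := by simp
    have dT2 : derivative ((X - C b) ^ 2 : L[X]) = 2 * (X - C b) := by
      rw [pow_two, derivative_mul, d1]; ring
    have dT3 : derivative ((X - C b) ^ 3 : L[X]) = 3 * (X - C b) ^ 2 := by
      rw [pow_succ, derivative_mul, dT2, d1]; ring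
    have e2 : derivative (2 : L[X]) = 0 := by simp
    have e3 : derivative (3 : L[X]) = 0 := by simp
    obtain ⟨v3, -, hv3⟩ := hP _ (hmem ((X - C b) ^ 3) (by rw [hd]; omega))
    obtain ⟨v2, -, hv2⟩ := hP _ (hmem ((X - C b) ^ 2) (by rw [hd]; omega))
    have k3 := hkey f hf v3
    have k2 := hkey f hf v2
    have w3 : Dh g1 g2 ((X - C b) ^ 3) = (X - C b) * (6 * A - 3 * (X - C b) * derivative A +
        (X - C b) ^ 2 * wr (derivative g1) (derivative g2)) := by
      rw [Dh, hwg, dT3, derivative_mul, e3, dT2]; ring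
    have w2 : Dh g1 g2 ((X - C b) ^ 2) = 2 * A - 2 * (X - C b) * derivative A +
        (X - C b) ^ 2 * wr (derivative g1) (derivative g2) := by
      rw [Dh, hwg, dT2, derivative_mul, e2, d1]; ring
    rw [hv3, w3] at k3
    rw [hv2, w2] at k2
    have ev1 : ∀ G : L[X], (wr W G).eval b = -((derivative W).eval b * G.eval b) := by
      intro G
      simp only [wr, eval_sub, eval_mul, hWb]; ring
    have ev2 : ∀ G : L[X], (derivative (wr W G)).eval b =
        -((derivative (derivative W)).eval b * G.eval b) := by
      intro G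
      simp only [wr, derivative_sub, derivative_mul, eval_sub, eval_add, eval_mul, hWb]; ring
    have h3d : (derivative (f * (a0 * ((X - C b) * (6 * A - 3 * (X - C b) * derivative A +
        (X - C b) ^ 2 * wr (derivative g1) (derivative g2)))))).eval b =
        f.eval b * (a0.eval b * (6 * A.eval b)) := by
      simp only [derivative_mul, d1, eval_add, eval_mul, eval_sub, eval_X, eval_C, sub_self,
        eval_one, eval_pow, eval_ofNat]
      ring
    have h2v : (f * (a0 * (2 * A - 2 * (X - C b) * derivative A +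
        (X - C b) ^ 2 * wr (derivative g1) (derivative g2)))).eval b =
        f.eval b * (a0.eval b * (2 * A.eval b)) := by
      simp only [eval_add, eval_mul, eval_sub, eval_X, eval_C, sub_self, eval_pow, eval_ofNat]
      ring
    have h3v : (f * (a0 * ((X - C b) * (6 * A - 3 * (X - C b) * derivative A +
        (X - C b) ^ 2 * wr (derivative g1) (derivative g2))))).eval b = 0 := by
      simp only [eval_mul, eval_sub, eval_X, eval_C, sub_self]
      ring
    have hprod : f.eval b * (a0.eval b * (6 * A.eval b)) ≠ 0 :=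
      mul_ne_zero hfb' (mul_ne_zero hne (mul_ne_zero (by norm_num) hAb))
    have hprod2 : f.eval b * (a0.eval b * (2 * A.eval b)) ≠ 0 :=
      mul_ne_zero hfb' (mul_ne_zero hne (mul_ne_zero (by norm_num) hAb))
    rw [k3, ev2] at h3d
    rw [k3, ev1] at h3v
    rw [k2, ev1] at h2v
    have hG3 : (wr f v3).eval b ≠ 0 := by
      intro h0
      rw [h0, mul_zero, neg_zero] at h3d
      exact hprod h3d.symm
    have hW' : (derivative W).eval b = 0 := by
      rcases mul_eq_zero.1 (neg_eq_zero.1 h3v) with h | h
      · exact h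
      · exact absurd h hG3
    rw [hW', zero_mul, neg_zero] at h2v
    exact hprod2 h2v.symm
  obtain ⟨a1, ha1⟩ := dvd_iff_isRoot.2 ha0b
  have ha10 : a1 ≠ 0 := by
    rintro rfl
    rw [mul_zero] at ha1
    exact ha0 ha1
  have hda1 : a1.natDegree ≤ 2 := by
    have := hda0
    rw [ha1, natDegree_mul (X_sub_C_ne_zero b) ha10, natDegree_X_sub_C] at this
    omega
  obtain ⟨y0, hy0⟩ : ∃ y0 : L[X], y0 = l ^ 2 * (X - C b) := ⟨_, rfl⟩
  have hy00 : y0 ≠ 0 := by
    rw [hy0]; exact mul_ne_zero (pow_ne_zero 2 hl0) (X_sub_C_ne_zero b)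
  -- (2) proportional jets at the roots of `A`
  have hjet : ∀ c : L, A.eval c = 0 → ∀ f : L[X], (f = f1 ∨ f = f2) → ∀ g : L[X],
      (g = g1 ∨ g = g2) → (wr (y0 * g) (a1 * f)).eval c = 0 := by
    intro c hc f hf g hg
    have hcb : c - b ≠ 0 := by
      intro h
      rw [sub_eq_zero] at h
      rw [h] at hc
      exact hAb hc
    obtain ⟨v, -, hv⟩ := hP _ (hmem (X - C c) (by rw [natDegree_X_sub_C]; omega))
    have e1 := hkey f hf v
    have e2 := hkeyg g hg (X - C c)
    rw [hv] at e1
    have hWc : W.eval c = 0 := by rw [hW]; simp [hc]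
    have j1 := jet_rel W (wr f v) c hWc
    have j2 := jet_rel A (wr g (X - C c)) c hc
    rw [← e1] at j1
    rw [← e2] at j2
    have hω : (Dh g1 g2 (X - C c)).eval c ≠ 0 := by
      have : (Dh g1 g2 (X - C c)).eval c = -(derivative A).eval c := by
        have d1 : derivative (X - C c : L[X]) = 1 := by simp
        rw [Dh, hwg, d1]
        simp only [derivative_one, mul_zero, mul_one, eval_add, eval_sub, eval_mul, eval_zero,
          eval_X, eval_C, sub_self]
        ring
      rw [this]
      exact neg_ne_zero.2 (hsimple c hc)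
    generalize Dh g1 g2 (X - C c) = ω at j1 j2 hω e1 e2 hv
    have hA1 := hsimple c hc
    -- derivatives of `W`
    have dW : (derivative W).eval c = (c - b) * l.eval c * (derivative A).eval c := by
      rw [hW]
      simp only [derivative_mul, derivative_sub, derivative_X, derivative_C, eval_add, eval_mul,
        eval_sub, eval_X, eval_C, eval_one, eval_zero, hc]
      ring
    have ddW : (derivative (derivative W)).eval c =
        2 * (l.eval c + (c - b) * (derivative l).eval c) * (derivative A).eval c +
          (c - b) * l.eval c * (derivative (derivative A)).eval c := by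
      rw [hW]
      simp only [derivative_mul, derivative_add, derivative_sub, derivative_X, derivative_C,
        derivative_one, eval_add, eval_mul, eval_sub, eval_X, eval_C, eval_one, eval_zero, hc]
      ring
    rw [dW, ddW] at j1
    simp only [derivative_mul, eval_add, eval_mul] at j1 j2
    -- the elimination
    have key : ((c - b) * l.eval c) * ((derivative A).eval c * ω.eval c) *
        ((c - b) * l.eval c * (g.eval c * ((derivative f).eval c * a0.eval c + f.eval c * (derivative a0).eval c)
          - f.eval c * a0.eval c * (derivative g).eval c)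
          - 2 * (l.eval c + (c - b) * (derivative l).eval c) * (g.eval c * (f.eval c * a0.eval c))) = 0 := by
      linear_combination (((c - b) * l.eval c) * g.eval c) * j1 -
        (((c - b) * l.eval c) ^ 2 * (f.eval c * a0.eval c)) * j2
    have hne : (derivative A).eval c * ω.eval c ≠ 0 := mul_ne_zero hA1 hω
    have key2' : ((c - b) * l.eval c) *
        ((c - b) * l.eval c * (g.eval c * ((derivative f).eval c * a0.eval c + f.eval c * (derivative a0).eval c)
          - f.eval c * a0.eval c * (derivative g).eval c)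
          - 2 * (l.eval c + (c - b) * (derivative l).eval c) * (g.eval c * (f.eval c * a0.eval c))) = 0 := by
      have h := key
      rw [mul_assoc ((c - b) * l.eval c), mul_comm ((derivative A).eval c * ω.eval c), ← mul_assoc] at h
      rcases mul_eq_zero.1 h with h | h
      · exact h
      · exact absurd h hne
    have hfin : (wr ((X - C b) * (y0 * g)) ((X - C b) * (a1 * f))).eval c = 0 := by
      have e3 : (X - C b) * (y0 * g) = ((X - C b) * l) ^ 2 * g := by rw [hy0]; ring
      have e4 : (X - C b) * (a1 * f) = f * a0 := by rw [ha1]; ring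
      rw [e3, e4]
      have d2 : derivative (((X - C b) * l) ^ 2 : L[X]) =
          2 * ((X - C b) * l) * (l + (X - C b) * derivative l) := by
        rw [pow_two, derivative_mul, derivative_mul, derivative_sub, derivative_X, derivative_C]
        ring
      simp only [wr, derivative_mul, d2, eval_sub, eval_add, eval_mul, eval_pow, eval_X, eval_C,
        eval_ofNat]
      linear_combination key2'
    rw [wr_l_cancel, eval_mul, eval_pow, eval_sub, eval_X, eval_C] at hfin
    rcases mul_eq_zero.1 hfin with h | h
    · exact absurd h (pow_ne_zero 2 hcb)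
    · exact h
  -- the space `U`
  obtain ⟨S, hS⟩ : ∃ S : Set L[X], S = {a1 * f1, a1 * f2, y0 * g1, y0 * g2} := ⟨_, rfl⟩
  have hSfin : S.Finite := by rw [hS]; exact Set.toFinite _
  have hUfd : FiniteDimensional L (Submodule.span L S) := FiniteDimensional.span_of_finite L hSfin
  have hdeg : ∀ u ∈ Submodule.span L S, u.natDegree ≤ k + 2 := by
    have hle : Submodule.span L S ≤ PL L (k + 2) := by
      rw [Submodule.span_le, hS]
      have hy0d : y0.natDegree ≤ 3 := by
        rw [hy0]
        refine natDegree_mul_le.trans ?_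
        have h1 : (l ^ 2).natDegree ≤ 2 := by
          refine natDegree_pow_le.trans ?_
          have := hPN.dl
          omega
        rw [natDegree_X_sub_C]
        omega
      intro u hu
      simp only [Set.mem_insert_iff, Set.mem_singleton_iff] at hu
      change u.natDegree ≤ k + 2
      rcases hu with rfl | rfl | rfl | rfl
      · refine natDegree_mul_le.trans ?_
        have := hPN.d1
        omega
      · refine natDegree_mul_le.trans ?_
        have := hPN.d2
        omega
      · refine natDegree_mul_le.trans ?_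
        omega
      · refine natDegree_mul_le.trans ?_
        omega
    exact fun u hu => hle hu
  have htl : ∀ c ∈ A.roots.toFinset, tline (Submodule.span L S) c := by
    intro c hc
    rw [Multiset.mem_toFinset, mem_roots hA0] at hc
    have hc' : A.eval c = 0 := hc
    have hWc : W.eval c = 0 := by rw [hW]; simp [hc']
    have x12 : (wr (a1 * f1) (a1 * f2)).eval c = 0 := by
      rw [wr_l_cancel, ← hWdef, eval_mul, hWc, mul_zero]
    have y12 : (wr (y0 * g1) (y0 * g2)).eval c = 0 := by
      rw [wr_l_cancel, hwg, eval_mul, hc', mul_zero]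
    have hanti : ∀ u v : L[X], (wr u v).eval c = 0 → (wr v u).eval c = 0 := by
      intro u v h
      rw [wr_anti, eval_neg, h, neg_zero]
    have m11 := hjet c hc' f1 (Or.inl rfl) g1 (Or.inl rfl)
    have m12 := hjet c hc' f1 (Or.inl rfl) g2 (Or.inr rfl)
    have m21 := hjet c hc' f2 (Or.inr rfl) g1 (Or.inl rfl)
    have m22 := hjet c hc' f2 (Or.inr rfl) g2 (Or.inr rfl)
    apply tline_span
    rw [hS]
    intro x hx y hy
    simp only [Set.mem_insert_iff, Set.mem_singleton_iff] at hx hy
    rcases hx with rfl | rfl | rfl | rfl <;> rcases hy with rfl | rfl | rfl | rfl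
    · rw [wr_self, eval_zero]
    · exact x12
    · exact hanti _ _ m11
    · exact hanti _ _ m12
    · exact hanti _ _ x12
    · rw [wr_self, eval_zero]
    · exact hanti _ _ m21
    · exact hanti _ _ m22
    · exact m11
    · exact m21
    · rw [wr_self, eval_zero]
    · exact y12
    · exact m12
    · exact m22
    · exact hanti _ _ y12
    · rw [wr_self, eval_zero]
  have hrank := hBN L (Submodule.span L S) (k + 2) A.roots.toFinset hUfd hdeg htl
    (by rw [hcard]; omega)
  -- `U` is spanned by `y0 g1, y0 g2`
  have hind : LinearIndependent L ![y0 * g1, y0 * g2] := by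
    rw [LinearIndependent.pair_iff]
    intro s t hst
    have h1 : y0 * (C s * g1 + C t * g2) = 0 := by
      rw [← hst, smul_eq_C_mul, smul_eq_C_mul]; ring
    have h2 : C s * g1 + C t * g2 = 0 := (mul_eq_zero.1 h1).resolve_left hy00
    have h3 : C s * A = 0 := by
      have : wr (C s * g1 + C t * g2) g2 = C s * A := by
        rw [wr_add_left, wr_C_mul_left, wr_C_mul_left, hwg, wr_self, mul_zero, add_zero]
      rw [← this, h2]; simp [wr]
    have h4 : C t * A = 0 := by
      have : wr g1 (C s * g1 + C t * g2) = C t * A := by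
        rw [wr_add_right, wr_C_mul_right, wr_C_mul_right, hwg, wr_self, mul_zero, zero_add]
      rw [← this, h2]; simp [wr]
    exact ⟨C_eq_zero.1 ((mul_eq_zero.1 h3).resolve_right hA0),
      C_eq_zero.1 ((mul_eq_zero.1 h4).resolve_right hA0)⟩
  have hVfin : Module.finrank L (Submodule.span L (Set.range ![y0 * g1, y0 * g2])) = 2 := by
    have := finrank_span_eq_card hind
    simpa using this
  have hVle : Submodule.span L (Set.range ![y0 * g1, y0 * g2]) ≤ Submodule.span L S := by
    apply Submodule.span_mono
    rw [hS]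
    rintro x ⟨i, rfl⟩
    fin_cases i <;> simp
  have hVU : Submodule.span L (Set.range ![y0 * g1, y0 * g2]) = Submodule.span L S :=
    Submodule.eq_of_le_of_finrank_le hVle (by rw [hVfin]; exact hrank)
  have hrep : ∀ x ∈ S, ∃ α β : L, x = y0 * (C α * g1 + C β * g2) := by
    intro x hx
    have h1 : x ∈ Submodule.span L (Set.range ![y0 * g1, y0 * g2]) := by
      rw [hVU]; exact Submodule.subset_span hx
    have h2 : Set.range ![y0 * g1, y0 * g2] = {y0 * g1, y0 * g2} := by
      simp [Matrix.range_cons, Matrix.range_empty, Set.pair_comm]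
    rw [h2, Submodule.mem_span_pair] at h1
    obtain ⟨α, β, h⟩ := h1
    refine ⟨α, β, ?_⟩
    rw [← h, smul_eq_C_mul, smul_eq_C_mul]; ring
  obtain ⟨α1, β1, r1⟩ := hrep (a1 * f1) (by rw [hS]; simp)
  obtain ⟨α2, β2, r2⟩ := hrep (a1 * f2) (by rw [hS]; simp)
  -- Wronskians
  have hwr : a1 ^ 2 * ((X - C b) * A * l) = C (α1 * β2 - α2 * β1) * (y0 ^ 2 * A) := by
    have h1 : wr (a1 * f1) (a1 * f2) = a1 ^ 2 * ((X - C b) * A * l) := by
      rw [wr_l_cancel, ← hWdef, hW]
    rw [← h1, r1, r2, wr_l_cancel, wr_add_left, wr_add_right, wr_add_right, wr_C_mul_left,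
      wr_C_mul_left, wr_C_mul_left, wr_C_mul_left, wr_C_mul_right, wr_C_mul_right, wr_C_mul_right,
      wr_C_mul_right, wr_self, wr_self, hwg, wr_anti g2 g1, hwg]
    simp only [C_sub, C_mul]
    ring
  have hκ : a1 ^ 2 = C (α1 * β2 - α2 * β1) * (l ^ 3 * (X - C b)) := by
    have h1 : ((X - C b) * A * l) ≠ 0 :=
      mul_ne_zero (mul_ne_zero (X_sub_C_ne_zero b) hA0) hl0
    refine mul_right_cancel₀ h1 ?_
    rw [hwr, hy0]
    ring
  have hκ0 : α1 * β2 - α2 * β1 ≠ 0 := by
    intro h
    rw [h, C_0, zero_mul] at hκ
    exact pow_ne_zero 2 ha10 hκ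
  have hend : ∀ f : L[X], f.eval b ≠ 0 → (∃ α β : L, a1 * f = y0 * (C α * g1 + C β * g2)) →
      False := by
    rintro f hfb' ⟨α, β, h⟩
    have h1 : a1 ^ 2 * f ^ 2 = y0 ^ 2 * (C α * g1 + C β * g2) ^ 2 := by
      rw [← mul_pow, h, mul_pow]
    rw [hκ, hy0] at h1
    have h2 : l ^ 3 * (X - C b) * (C (α1 * β2 - α2 * β1) * f ^ 2) =
        l ^ 3 * (X - C b) * (l * (X - C b) * (C α * g1 + C β * g2) ^ 2) := by
      linear_combination h1
    have h3 := mul_left_cancel₀ (mul_ne_zero (pow_ne_zero 3 hl0) (X_sub_C_ne_zero b)) h2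
    have h4 := congrArg (fun p : L[X] => p.eval b) h3
    simp only [eval_mul, eval_C, eval_pow, eval_sub, eval_X, sub_self, mul_zero, zero_mul] at h4
    exact mul_ne_zero hκ0 (pow_ne_zero 2 hfb') h4
  rcases hfb with h | h
  · exact hend f1 h ⟨α1, β1, r1⟩
  · exact hend f2 h ⟨α2, β2, r2⟩

end Pool.Agent.RTB
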