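import Pool.Agent.RTB.SStmts

set_option autoImplicit false

open Polynomial

namespace Pool.Agent.RTB

namespace S3C_

variable {L : Type} [Field L]

theorem id0 (T f1 f2 p : L[X]) : D3 T f1 f2 p =
    12 * (wr f1 f2 * p) + T * (wr f1 f2 * (T * derivative (derivative p) - 6 * derivative p)
      - derivative (wr f1 f2) * (T * derivative p - 3 * p)
      + wr (derivative f1) (derivative f2) * (T * p)) := by
  simp only [D3]
  ring

theorem id1 (T f1 f2 p : L[X]) (hT : derivative T = 1) : D3 T f1 f2 (T * p) =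
    T * (6 * (wr f1 f2 * p) + T * (wr f1 f2 * (T * derivative (derivative p) - 4 * derivative p)
      - derivative (wr f1 f2) * (T * derivative p - 2 * p)
      + wr (derivative f1) (derivative f2) * (T * p))) := by
  simp only [D3, derivative_add, derivative_mul, hT, derivative_one]
  ring

theorem id2 (T f1 f2 p : L[X]) (hT : derivative T = 1) : D3 T f1 f2 (T ^ 2 * p) =
    T ^ 2 * (2 * (wr f1 f2 * p) + T * (wr f1 f2 * (T * derivative (derivative p)
      - 2 * derivative p)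
      - derivative (wr f1 f2) * (T * derivative p - p)
      + wr (derivative f1) (derivative f2) * (T * p))) := by
  simp only [D3, pow_two, derivative_add, derivative_mul, hT, derivative_one]
  ring

theorem dh4 (T g1 g2 : L[X]) (hT : derivative T = 1) : Dh g1 g2 (T ^ 4) =
    T ^ 2 * (12 * wr g1 g2 + T * (-4 * derivative (wr g1 g2)
      + wr (derivative g1) (derivative g2) * T)) := by
  have h4 : T ^ 4 = T * T * T * T := by ring
  simp only [Dh, h4, derivative_add, derivative_mul, hT, derivative_one]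
  ring

/-- if `T^3` divides `D3 p` then it divides `p` -/
theorem claim3 [CharZero L] (f1 f2 p : L[X]) (a : L) (hA : (wr f1 f2).eval a ≠ 0)
    (h : (X - C a) ^ 3 ∣ D3 (X - C a) f1 f2 p) : (X - C a) ^ 3 ∣ p := by
  have hT : derivative (X - C a : L[X]) = 1 := by simp
  have hTa : (X - C a : L[X]).eval a = 0 := by simp
  have hT0 : (X - C a : L[X]) ≠ 0 := X_sub_C_ne_zero a
  -- first step
  have s0 : p.eval a = 0 := by
    have h1 : (X - C a) ∣ D3 (X - C a) f1 f2 p := dvd_trans (dvd_pow_self _ (by norm_num)) h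
    rw [dvd_iff_isRoot, IsRoot.def, id0] at h1
    simp only [eval_add, eval_mul, hTa, zero_mul, add_zero, eval_ofNat] at h1
    rcases mul_eq_zero.1 h1 with h2 | h2
    · exact absurd h2 (by norm_num)
    · exact (mul_eq_zero.1 h2).resolve_left hA
  obtain ⟨q, rfl⟩ := dvd_iff_isRoot.2 s0
  have s1 : q.eval a = 0 := by
    rw [id1 _ _ _ _ hT, show (X - C a : L[X]) ^ 3 = (X - C a) * ((X - C a) * (X - C a)) by ring]
      at h
    have h1 := dvd_trans (Dvd.intro _ rfl) ((mul_dvd_mul_iff_left hT0).1 h)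
    rw [dvd_iff_isRoot, IsRoot.def] at h1
    simp only [eval_add, eval_mul, hTa, zero_mul, add_zero, eval_ofNat] at h1
    rcases mul_eq_zero.1 h1 with h2 | h2
    · exact absurd h2 (by norm_num)
    · exact (mul_eq_zero.1 h2).resolve_left hA
  obtain ⟨r, rfl⟩ := dvd_iff_isRoot.2 s1
  have s2 : r.eval a = 0 := by
    rw [show (X - C a) * ((X - C a) * r) = (X - C a) ^ 2 * r by ring, id2 _ _ _ _ hT,
      show (X - C a : L[X]) ^ 3 = (X - C a) ^ 2 * (X - C a) by ring] at h
    have h1 := (mul_dvd_mul_iff_left (pow_ne_zero 2 hT0)).1 h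
    rw [dvd_iff_isRoot, IsRoot.def] at h1
    simp only [eval_add, eval_mul, hTa, zero_mul, add_zero, eval_ofNat] at h1
    rcases mul_eq_zero.1 h1 with h2 | h2
    · exact absurd h2 (by norm_num)
    · exact (mul_eq_zero.1 h2).resolve_left hA
  obtain ⟨s, rfl⟩ := dvd_iff_isRoot.2 s2
  exact ⟨s, by ring⟩

end S3C_

open S3C_ in
theorem s3c_proof (_hWDG : Stmt_WDG) : Stmt_S3C := by
  intro L _ _ _ A f1 f2 g1 g2 w0 b5 a k ν3 hk hFF hAa _ _ hwf _ _ hwg hw0P hw0a h3 hb5 h5
  have hT : derivative (X - C a : L[X]) = 1 := by simp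
  have hTa : (X - C a : L[X]).eval a = 0 := by simp
  have hT0 : (X - C a : L[X]) ≠ 0 := X_sub_C_ne_zero a
  have hTp : Prime (X - C a : L[X]) := prime_X_sub_C a
  have hAf : (wr f1 f2).eval a ≠ 0 := by rw [hwf]; exact hAa
  have hndvd : ∀ p : L[X], p.eval a ≠ 0 → ¬ (X - C a) ∣ p := by
    intro p hp h
    exact hp (dvd_iff_isRoot.1 h)
  -- the element `ω2`
  obtain ⟨u, hu, hua⟩ : ∃ u : L[X], Dh g1 g2 ((X - C a) ^ 4) = (X - C a) ^ 2 * u ∧
      u.eval a ≠ 0 := by
    refine ⟨_, dh4 (X - C a) g1 g2 hT, ?_⟩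
    simp only [eval_add, eval_mul, hTa, zero_mul, add_zero, eval_ofNat, hwg]
    exact mul_ne_zero (by norm_num) hAa
  have hω2 : Dh g1 g2 ((X - C a) ^ 4) ∈ DhSp g1 g2 (k - 1) := by
    rw [mem_DhSp]
    refine ⟨_, ?_, rfl⟩
    rw [natDegree_pow, natDegree_X_sub_C]
    omega
  set ω2 := Dh g1 g2 ((X - C a) ^ 4) with hω2def
  have e1 : ω2.eval a = 0 := by
    rw [hu, eval_mul, eval_pow, hTa]
    ring
  have e2 : (derivative ω2).eval a = 0 := by
    rw [hu, pow_two, derivative_mul, derivative_mul, hT]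
    simp only [eval_add, eval_mul, hTa, eval_one]
    ring
  have hdv := h3 ω2 hω2 e1 e2
  have hD0 := h5 w0 hw0P
  have hD2 := h5 ω2 hω2
  -- step A
  have hp0 : (ν3 w0).eval a = 0 := by
    have h6 : (X - C a) ^ 2 ∣ w0 * ν3 ω2 := by
      have h7 : (X - C a) ^ 2 ∣ w0 * ν3 ω2 - ν3 w0 * ω2 := dvd_trans (pow_dvd_pow _ (by norm_num)) hdv
      have h8 : (X - C a) ^ 2 ∣ ν3 w0 * ω2 := by rw [hu]; exact ⟨ν3 w0 * u, by ring⟩
      have := dvd_add h7 h8
      rwa [sub_add_cancel] at this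
    obtain ⟨q, hq⟩ := hTp.pow_dvd_of_dvd_mul_left 2 (hndvd w0 hw0a) h6
    have h9 : w0.eval a * q.eval a = (ν3 w0).eval a * u.eval a := by
      rw [hq, hu, show w0 * ((X - C a) ^ 2 * q) - ν3 w0 * ((X - C a) ^ 2 * u)
        = (X - C a) ^ 2 * (w0 * q - ν3 w0 * u) by ring,
        show (X - C a : L[X]) ^ 3 = (X - C a) ^ 2 * (X - C a) by ring] at hdv
      have := (mul_dvd_mul_iff_left (pow_ne_zero 2 hT0)).1 hdv
      rw [dvd_iff_isRoot, IsRoot.def, eval_sub, eval_mul, eval_mul] at this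
      linear_combination this
    have h10 : 2 * (A.eval a * q.eval a) = b5.eval a * u.eval a := by
      rw [hq, id2 _ _ _ _ hT, hwf, hu, show b5 * ((X - C a) ^ 2 * u) = (X - C a) ^ 2 * (b5 * u)
        by ring] at hD2
      have := congrArg (eval a) (mul_left_cancel₀ (pow_ne_zero 2 hT0) hD2)
      simp only [eval_add, eval_mul, hTa, zero_mul, add_zero, eval_ofNat] at this
      exact this
    have h11 : 12 * (A.eval a * (ν3 w0).eval a) = b5.eval a * w0.eval a := by
      rw [id0, hwf] at hD0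
      have := congrArg (eval a) hD0
      simp only [eval_add, eval_mul, hTa, zero_mul, add_zero, eval_ofNat] at this
      exact this
    have h12 : (10 * (A.eval a * u.eval a)) * (ν3 w0).eval a = 0 := by
      linear_combination ((2 : L) * A.eval a) * h9 - w0.eval a * h10 + u.eval a * h11
    have h13 : (10 * (A.eval a * u.eval a)) ≠ 0 :=
      mul_ne_zero (by norm_num) (mul_ne_zero hAa hua)
    exact (mul_eq_zero.1 h12).resolve_left h13
  -- step B
  obtain ⟨p1, hp1⟩ := dvd_iff_isRoot.2 hp0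
  have h14 : (X - C a) ^ 3 ∣ ν3 ω2 := by
    have h8 : (X - C a) ^ 3 ∣ ν3 w0 * ω2 := by rw [hu, hp1]; exact ⟨p1 * u, by ring⟩
    have := dvd_add hdv h8
    rw [sub_add_cancel] at this
    exact hTp.pow_dvd_of_dvd_mul_left 3 (hndvd w0 hw0a) this
  have h15 : (X - C a) ^ 3 ∣ b5 := by
    obtain ⟨v, hv⟩ := h14
    rw [hv, D3_mul _ _ _ _ hT, hu, show b5 * ((X - C a) ^ 2 * u) = (X - C a) ^ 2 * (b5 * u)
      by ring, show (X - C a) ^ 5 * Dh f1 f2 v = (X - C a) ^ 2 * ((X - C a) ^ 3 * Dh f1 f2 v)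
      by ring] at hD2
    have := mul_left_cancel₀ (pow_ne_zero 2 hT0) hD2
    exact hTp.pow_dvd_of_dvd_mul_right 3 (hndvd u hua) ⟨_, this.symm⟩
  have h16 : (X - C a) ^ 3 ∣ ν3 w0 := by
    apply claim3 f1 f2 _ a hAf
    rw [hD0]
    exact Dvd.dvd.mul_right h15 _
  have h17 : (X - C a) ^ 5 ∣ b5 := by
    obtain ⟨v, hv⟩ := h16
    rw [hv, D3_mul _ _ _ _ hT] at hD0
    exact hTp.pow_dvd_of_dvd_mul_right 5 (hndvd w0 hw0a) ⟨_, hD0.symm⟩
  constructor
  · intro ω hω
    apply claim3 f1 f2 _ a hAf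
    rw [h5 ω hω]
    exact Dvd.dvd.mul_right (dvd_trans (pow_dvd_pow _ (by norm_num)) h17) _
  · obtain ⟨q, hq⟩ := h17
    by_cases hq0 : q = 0
    · exact ⟨0, by rw [hq, hq0]; simp⟩
    · have hdeg : q.natDegree = 0 := by
        have h18 := natDegree_mul (pow_ne_zero 5 hT0) hq0
        rw [← hq, natDegree_pow, natDegree_X_sub_C] at h18
        omega
      obtain ⟨b0, hb0⟩ := natDegree_eq_zero.1 hdeg
      exact ⟨b0, by rw [hq, ← hb0]; ring⟩

end Pool.Agent.RTB
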