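import Pool.Agent.RTB.SStmts

set_option autoImplicit false

open Polynomial

namespace Pool.Agent.RTB

namespace SC4_

variable {L : Type} [Field L]

theorem PL_eq (n : ℕ) : PL L n = degreeLT L (n + 1) := by
  ext p
  rw [mem_PL, mem_degreeLT]
  by_cases hp : p = 0
  · subst hp
    simp only [natDegree_zero, Nat.zero_le, true_iff, degree_zero]
    exact WithBot.bot_lt_coe _
  · rw [degree_eq_natDegree hp]
    constructor
    · intro h
      exact_mod_cast Nat.lt_succ_of_le h
    · intro h
      exact Nat.lt_succ_iff.mp (by exact_mod_cast h)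

theorem fd_PL (n : ℕ) : FiniteDimensional L (PL L n) := by
  rw [PL_eq]
  exact (degreeLTEquiv L (n + 1)).symm.finiteDimensional

theorem finrank_PL (n : ℕ) : Module.finrank L (PL L n) = n + 1 := by
  rw [PL_eq, (degreeLTEquiv L (n + 1)).finrank_eq, Module.finrank_fin_fun]

theorem finrank_pair (h1 h2 : L[X]) (hw : wr h1 h2 ≠ 0) :
    Module.finrank L (Submodule.span L {h1, h2}) = 2 := by
  have hli : LinearIndependent L ![h1, h2] := by
    rw [LinearIndependent.pair_iff]
    intro s t hst
    rw [smul_eq_C_mul, smul_eq_C_mul] at hst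
    have hd : C s * derivative h1 + C t * derivative h2 = 0 := by
      have := congrArg derivative hst
      simpa using this
    have h3 : C s * wr h1 h2 = 0 := by
      rw [wr]
      linear_combination derivative h2 * hst - h2 * hd
    have h4 : C t * wr h1 h2 = 0 := by
      rw [wr]
      linear_combination h1 * hd - derivative h1 * hst
    constructor
    · rcases mul_eq_zero.mp h3 with h | h
      · exact C_eq_zero.mp h
      · exact absurd h hw
    · rcases mul_eq_zero.mp h4 with h | h
      · exact C_eq_zero.mp h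
      · exact absurd h hw
  have h := finrank_span_eq_card hli
  rw [Matrix.range_cons, Matrix.range_cons, Matrix.range_empty, Set.union_empty,
    Set.singleton_union] at h
  rw [h]
  simp

theorem finrank_DhSp [CharZero L] (hKER : Stmt_KER) (h1 h2 : L[X]) (n : ℕ) (hw : wr h1 h2 ≠ 0)
    (d1 : h1.natDegree ≤ n) (d2 : h2.natDegree ≤ n) :
    Module.finrank L (DhSp h1 h2 n) + 2 = n + 1 := by
  haveI fd3 := fd_PL (L := L) n
  have hrn := LinearMap.finrank_range_add_finrank_ker
    ((DhLin h1 h2).domRestrict (PL L n))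
  rw [LinearMap.range_domRestrict, finrank_PL] at hrn
  have hker : (LinearMap.ker ((DhLin h1 h2).domRestrict (PL L n))).map
      (PL L n).subtype = Submodule.span L {h1, h2} := by
    apply le_antisymm
    · rintro p hp
      rw [Submodule.mem_map] at hp
      obtain ⟨q, hq1, rfl⟩ := hp
      rw [LinearMap.mem_ker] at hq1
      have hq2 : Dh h1 h2 (q : L[X]) = 0 := hq1
      obtain ⟨a, b, hab⟩ := hKER L h1 h2 q hw hq2
      show (q : L[X]) ∈ Submodule.span L {h1, h2}
      rw [Submodule.mem_span_pair]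
      refine ⟨a, b, ?_⟩
      rw [hab, smul_eq_C_mul, smul_eq_C_mul]
    · intro p hp
      rw [Submodule.mem_span_pair] at hp
      obtain ⟨a, b, rfl⟩ := hp
      have hin : a • h1 + b • h2 ∈ PL L n :=
        Submodule.add_mem _ (Submodule.smul_mem _ _ d1) (Submodule.smul_mem _ _ d2)
      rw [Submodule.mem_map]
      refine ⟨⟨a • h1 + b • h2, hin⟩, ?_, rfl⟩
      rw [LinearMap.mem_ker]
      show DhLin h1 h2 (a • h1 + b • h2) = 0
      rw [map_add, map_smul, map_smul]
      have e1 : DhLin h1 h2 h1 = 0 := Dh_self1 h1 h2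
      have e2 : DhLin h1 h2 h2 = 0 := Dh_self2 h1 h2
      rw [e1, e2]
      simp
  have hkd : Module.finrank L (LinearMap.ker ((DhLin h1 h2).domRestrict (PL L n))) = 2 := by
    rw [← finrank_pair h1 h2 hw, ← hker]
    exact (Submodule.finrank_map_subtype_eq _ _).symm
  rw [hkd] at hrn
  exact hrn

end SC4_

open SC4_ in
theorem sc4_proof (hKER : Stmt_KER) : Stmt_SC4 := by
  intro L _ _ _ A f1 f2 g1 g2 b0 k hk hA df1 df2 hwf dg1 dg2 hwg _ hb0 hall
  have hA0 : A ≠ 0 := hA.mon.ne_zero
  have hle : DhSp g1 g2 (k - 1) ≤ DhSp f1 f2 (k - 1) := by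
    intro w hw
    obtain ⟨v, hv, hvw⟩ := hall w hw
    have h1 : b0⁻¹ • Dh f1 f2 v ∈ DhSp f1 f2 (k - 1) :=
      Submodule.smul_mem _ _ (mem_DhSp.mpr ⟨v, hv, rfl⟩)
    have h2 : b0⁻¹ • Dh f1 f2 v = w := by
      rw [hvw, smul_eq_C_mul, ← mul_assoc, ← C_mul, inv_mul_cancel₀ hb0, C_1, one_mul]
    rw [h2] at h1
    exact h1
  have e1 := finrank_DhSp hKER f1 f2 (k - 1) (by rw [hwf]; exact hA0) df1 df2
  have e2 := finrank_DhSp hKER g1 g2 (k - 1) (by rw [hwg]; exact hA0) dg1 dg2
  haveI fd : FiniteDimensional L (DhSp f1 f2 (k - 1)) := by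
    haveI := fd_PL (L := L) (k - 1)
    exact Module.Finite.map (PL L (k - 1)) (DhLin f1 f2)
  exact Submodule.eq_of_le_of_finrank_eq hle (by omega)

end Pool.Agent.RTB
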