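import Pool.Agent.RTB.SStmts

/-!
# squad RTB: module SFT (assembly of the special fibre theorem)
-/

set_option autoImplicit false

open Polynomial

namespace Pool.Agent.RTB

namespace SFT_

section
variable {L : Type} [Field L]

theorem mem_sig {F : L[X]} (hF : F ≠ 0) (U : Submodule L L[X]) (c : L) :
    c ∈ sig F U ↔ F.eval c = 0 ∧ ¬ tI U c := by
  classical
  simp only [sig, Finset.mem_filter, Multiset.mem_toFinset, mem_roots hF, IsRoot.def]

theorem tI_of_card_zero {F : L[X]} (hF : F ≠ 0) {U : Submodule L L[X]}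
    (h : (sig F U).card = 0) (c : L) (hc : F.eval c = 0) : tI U c := by
  by_contra h1
  have h2 : c ∈ sig F U := (mem_sig hF U c).2 ⟨hc, h1⟩
  rw [Finset.card_eq_zero.1 h] at h2
  exact absurd h2 (Finset.notMem_empty c)

theorem exists_of_card_one {F : L[X]} (hF : F ≠ 0) {U : Submodule L L[X]}
    (h : (sig F U).card = 1) : ∃ a, F.eval a = 0 ∧ ¬ tI U a ∧
      ∀ c, F.eval c = 0 → c ≠ a → tI U c := by
  obtain ⟨a, ha⟩ := Finset.card_eq_one.1 h
  have h1 : a ∈ sig F U := by rw [ha]; exact Finset.mem_singleton_self a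
  have h2 := (mem_sig hF U a).1 h1
  refine ⟨a, h2.1, h2.2, fun c hc hca => ?_⟩
  by_contra h3
  have h4 : c ∈ sig F U := (mem_sig hF U c).2 ⟨hc, h3⟩
  rw [ha] at h4
  exact hca (Finset.mem_singleton.1 h4)

theorem tline_of_tI {U : Submodule L L[X]} {c : L} (h : tI U c) : tline U c := by
  obtain ⟨lam, hl⟩ := h
  intro u hu v hv
  rw [hl u hu, hl v hv]; ring

theorem split {F : L[X]} {k : ℕ} (hk : 2 ≤ k) (hF : FF F (2 * k - 3)) {a : L}
    (ha : F.eval a = 0) :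
    ∃ A : L[X], F = (X - C a) * A ∧ FF A (2 * k - 4) ∧ A.eval a ≠ 0 := by
  obtain ⟨A, hA⟩ := dvd_iff_isRoot.2 ha
  have hm : A.Monic := (monic_X_sub_C a).of_mul_monic_left (by rw [← hA]; exact hF.mon)
  refine ⟨A, hA, ⟨hm, ?_, ?_⟩, ?_⟩
  · have h1 := hF.sep
    rw [hA] at h1
    exact h1.of_mul_right
  · have h1 := hF.deg
    rw [hA, (monic_X_sub_C a).natDegree_mul hm, natDegree_X_sub_C] at h1
    omega
  · intro h1
    obtain ⟨B, hB⟩ := dvd_iff_isRoot.2 (show A.IsRoot a from h1)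
    have h2 : ¬ IsUnit (X - C a) := not_isUnit_X_sub_C a
    apply h2
    have h3 := hF.sep.squarefree
    apply h3
    exact ⟨B, by rw [hA, hB]; ring⟩

/-- elements of `RF F N * Lam` satisfy the conditions at the roots of `A` -/
theorem mul_cond [CharZero L] [IsAlgClosed L] (hHIN : Stmt_HIN) {F A f1 f2 : L[X]} {g K N : ℕ}
    {Lam : Submodule L L[X]} (hA : FF A g) (hAF : A ∣ F)
    (hf1 : f1 ∈ Lam) (hf2 : f2 ∈ Lam) (hd : ∀ u ∈ Lam, u.natDegree ≤ K)
    (ht : ∀ c, A.eval c = 0 → tline Lam c) {q : L[X]} (hq : q ∈ RF F N * Lam) :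
    q.natDegree ≤ N + K ∧ A ∣ wr f1 q ∧ A ∣ wr f2 q := by
  have key : q.natDegree ≤ N + K ∧ ∀ f ∈ Lam, ∀ c, A.eval c = 0 → (wr f q).eval c = 0 := by
    refine Submodule.mul_induction_on hq ?_ ?_
    · intro r hr u hu
      refine ⟨natDegree_mul_le.trans (add_le_add hr.1 (hd u hu)), fun f hf c hc => ?_⟩
      have h1 : (derivative r).eval c = 0 := by
        obtain ⟨s, hs⟩ := hAF.trans hr.2
        rw [hs, eval_mul, hc, zero_mul]
      have h2 := ht c hc f hf u hu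
      simp only [wr, derivative_mul, eval_sub, eval_mul, eval_add, h1]
      linear_combination (r.eval c) * h2
    · intro x y hx hy
      refine ⟨(natDegree_add_le x y).trans (max_le hx.1 hy.1), fun f hf c hc => ?_⟩
      have h1 : wr f (x + y) = wr f x + wr f y := by
        simp only [wr, derivative_add]; ring
      rw [h1, eval_add, hx.2 f hf c hc, hy.2 f hf c hc, add_zero]
  have h3 := (hHIN L A g hA).2.2.1
  exact ⟨key.1, h3 _ (key.2 f1 hf1), h3 _ (key.2 f2 hf2)⟩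

theorem rph_of_rps [CharZero L] [IsAlgClosed L] (hHIN : Stmt_HIN) {F A f1 f2 : L[X]}
    {g K N : ℕ} {Lam P : Submodule L L[X]} {w0 γ : L[X]} {wh : L[X] →ₗ[L] L[X]}
    (hA : FF A g) (hAF : A ∣ F)
    (hf1 : f1 ∈ Lam) (hf2 : f2 ∈ Lam) (hd : ∀ u ∈ Lam, u.natDegree ≤ K)
    (ht : ∀ c, A.eval c = 0 → tline Lam c) (h : RPs F Lam P w0 γ wh N) :
    RPh F A f1 f2 K P w0 γ wh N := by
  intro m r ω hr hω hs
  obtain ⟨q, hq, hq2⟩ := h m r ω hr hω hs
  obtain ⟨h1, h2, h3⟩ := mul_cond hHIN hA hAF hf1 hf2 hd ht hq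
  exact ⟨q, h1, h2, h3, hq2⟩

/-- the unified form -/
theorem rph_unified [CharZero L] [IsAlgClosed L] (hHIN : Stmt_HIN) {A f1 f2 : L[X]} {a : L}
    {g k N : ℕ} {Lam P : Submodule L L[X]} {w0 γ : L[X]} {wh : L[X] →ₗ[L] L[X]}
    (hk : 1 ≤ k) (hA : FF A g)
    (hf1 : f1 ∈ Lam) (hf2 : f2 ∈ Lam) (hd : ∀ u ∈ Lam, u.natDegree ≤ k - 1)
    (ht : ∀ c, A.eval c = 0 → tline Lam c) (h : RPs ((X - C a) * A) Lam P w0 γ wh N) :
    RPh ((X - C a) * A) ((X - C a) * A) ((X - C a) * f1) ((X - C a) * f2) k P w0 γ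
      ((LinearMap.mulLeft L (X - C a)).comp wh) N := by
  intro m r ω hr hω hs
  obtain ⟨q, hq, hq2⟩ := h m r ω hr hω hs
  obtain ⟨h1, h2, h3⟩ := mul_cond hHIN hA (Dvd.intro_left _ rfl) hf1 hf2 hd ht hq
  refine ⟨(X - C a) * q, ?_, ?_, ?_, ?_⟩
  · refine natDegree_mul_le.trans ?_
    rw [natDegree_X_sub_C]; omega
  · rw [wr_l_cancel, pow_two]
    exact mul_dvd_mul (Dvd.intro _ rfl) h2
  · rw [wr_l_cancel, pow_two]
    exact mul_dvd_mul (Dvd.intro _ rfl) h3
  · have h4 : ∑ i, r i * ((LinearMap.mulLeft L (X - C a)).comp wh) (ω i)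
        = (X - C a) * ∑ i, r i * wh (ω i) := by
      rw [Finset.mul_sum]
      refine Finset.sum_congr rfl fun i _ => ?_
      simp only [LinearMap.comp_apply, LinearMap.mulLeft_apply]; ring
    rw [h4, hq2]; ring

theorem mem_span_pair_comb {f1 f2 v : L[X]} {α β : L} (h : v = C α * f1 + C β * f2) :
    v ∈ Submodule.span L {f1, f2} := by
  rw [h, Submodule.mem_span_pair]
  exact ⟨α, β, by simp only [smul_eq_C_mul]⟩

/-- a left inverse of the multiplication by `T ≠ 0` -/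
theorem exists_div (T : L[X]) (hT : T ≠ 0) :
    ∃ s : L[X] →ₗ[L] L[X], ∀ u, s (T * u) = u := by
  obtain ⟨s, hs⟩ := LinearMap.exists_leftInverse_of_injective (LinearMap.mulLeft L T)
    (LinearMap.ker_eq_bot.2 (fun x y h => mul_left_cancel₀ hT h))
  exact ⟨s, fun u => by
    have := congrArg (fun φ => φ u) hs
    simpa using this⟩

end

end SFT_

open SFT_

theorem sft_proof (hPSA : Stmt_PSA) (hPSB : Stmt_PSB) (hLSA : Stmt_LSA) (hLSB : Stmt_LSB)
    (hST1 : Stmt_ST1) (hTNA : Stmt_TNA) (hTNB : Stmt_TNB) (hS2A : Stmt_S2A) (hS2B : Stmt_S2B)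
    (hS3A : Stmt_S3A) (hS3B : Stmt_S3B) (hS1C : Stmt_S1C) (hS2C : Stmt_S2C) (hS3C : Stmt_S3C)
    (hSC4 : Stmt_SC4) (hKER : Stmt_KER) (hHIN : Stmt_HIN) (hPNX : Stmt_PNX) : Stmt_SFT := by
  intro L _ _ _ F w0 k Lam P hk hF hLam hP cL cP sL sP dL dP hw0 dw0 rw0
  have hF0 : F ≠ 0 := hF.mon.ne_zero
  have hPfd : FiniteDimensional L P :=
    FiniteDimensional.of_finrank_pos (by rw [hP]; omega)
  -- the pencil in unified form
  have hUNI : ∃ f1 f2 l T : L[X], PN F k f1 f2 l ∧ T ≠ 0 ∧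
      (∀ N w0' γ (wh : L[X] →ₗ[L] L[X]), RPs F Lam P w0' γ wh N →
        RPh F F f1 f2 k P w0' γ ((LinearMap.mulLeft L T).comp wh) N) ∧
      (∀ u ∈ Submodule.span L {f1, f2}, ∃ v ∈ Lam, u = T * v) ∧
      (∀ c, f1.eval c ≠ 0 ∨ f2.eval c ≠ 0 ∨ (F.eval c = 0 ∧ ¬ tI Lam c)) ∧
      ((T = 1 ∧ Lam = Submodule.span L {f1, f2}) ∨
        ∃ a, F.eval a = 0 ∧ ¬ tI Lam a ∧ f1.eval a = 0 ∧ f2.eval a = 0) := by
    rcases Nat.lt_or_ge (sig F Lam).card 1 with h0 | h1
    · have h0' : (sig F Lam).card = 0 := by omega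
      have ht : ∀ c, F.eval c = 0 → tline Lam c := fun c hc =>
        tline_of_tI (tI_of_card_zero hF0 h0' c hc)
      have hd : ∀ u ∈ Lam, u.natDegree ≤ k := fun u hu => by
        have := dL u hu; omega
      obtain ⟨f1, f2, l, hPN, hsp⟩ := hLSA L F k Lam (by omega) hF hLam hd ht
      have hf1 : f1 ∈ Lam := by rw [hsp]; exact Submodule.subset_span (by simp)
      have hf2 : f2 ∈ Lam := by rw [hsp]; exact Submodule.subset_span (by simp)
      refine ⟨f1, f2, l, 1, hPN, one_ne_zero, ?_, ?_, ?_, Or.inl ⟨rfl, hsp⟩⟩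
      · intro N w0' γ wh hr
        have h1 : (LinearMap.mulLeft L (1 : L[X])).comp wh = wh := by
          ext x; simp
        rw [h1]
        exact rph_of_rps hHIN hF dvd_rfl hf1 hf2 hd ht hr
      · intro u hu
        exact ⟨u, by rw [hsp]; exact hu, by rw [one_mul]⟩
      · intro c
        obtain ⟨u, hu, hu0⟩ := cL c
        rw [hsp, Submodule.mem_span_pair] at hu
        obtain ⟨α, β, rfl⟩ := hu
        by_contra h2
        push Not at h2
        apply hu0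
        simp [h2.1, h2.2.1]
    · have h1' : (sig F Lam).card = 1 := by omega
      obtain ⟨a, ha, hna, hta⟩ := exists_of_card_one hF0 h1'
      obtain ⟨A, hFA, hA, hAa⟩ := split (by omega) hF ha
      have ht : ∀ c, A.eval c = 0 → tline Lam c := fun c hc => by
        refine tline_of_tI (hta c ?_ ?_)
        · rw [hFA, eval_mul, hc, mul_zero]
        · rintro rfl; exact hAa hc
      have hd : ∀ u ∈ Lam, u.natDegree ≤ k - 1 := fun u hu => by
        have := dL u hu; omega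
      obtain ⟨f1, f2, hd1, hd2, hw, hsp⟩ := hLSB L A k Lam (by omega) hA hLam hd ht
      have hf1 : f1 ∈ Lam := by rw [hsp]; exact Submodule.subset_span (by simp)
      have hf2 : f2 ∈ Lam := by rw [hsp]; exact Submodule.subset_span (by simp)
      refine ⟨(X - C a) * f1, (X - C a) * f2, X - C a, X - C a, ?_, X_sub_C_ne_zero a,
        ?_, ?_, ?_, Or.inr ⟨a, ha, hna, by simp, by simp⟩⟩
      · refine ⟨?_, ?_, ?_, X_sub_C_ne_zero a, (natDegree_X_sub_C a).le⟩
        · refine natDegree_mul_le.trans ?_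
          rw [natDegree_X_sub_C]; omega
        · refine natDegree_mul_le.trans ?_
          rw [natDegree_X_sub_C]; omega
        · rw [wr_l_cancel, hw, hFA]; ring
      · intro N w0' γ wh hr
        rw [hFA] at hr ⊢
        exact rph_unified hHIN (by omega) hA hf1 hf2 hd ht hr
      · intro u hu
        rw [Submodule.mem_span_pair] at hu
        obtain ⟨α, β, rfl⟩ := hu
        refine ⟨α • f1 + β • f2, Lam.add_mem (Lam.smul_mem _ hf1) (Lam.smul_mem _ hf2), ?_⟩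
        simp only [smul_eq_C_mul]; ring
      · intro c
        by_cases hca : c = a
        · subst hca; exact Or.inr (Or.inr ⟨ha, hna⟩)
        · obtain ⟨u, hu, hu0⟩ := cL c
          rw [hsp, Submodule.mem_span_pair] at hu
          obtain ⟨α, β, rfl⟩ := hu
          by_contra h2
          push Not at h2
          apply hu0
          have h3 : c - a ≠ 0 := sub_ne_zero.2 hca
          have h4 := h2.1
          have h5 := h2.2.1
          simp only [eval_mul, eval_sub, eval_X, eval_C, mul_eq_zero, h3, false_or] at h4 h5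
          simp [h4, h5]
  obtain ⟨f1, f2, l, T, hPN, hT0, hrph, hTv, hval, htyp⟩ := hUNI
  have hwr0 : wr f1 f2 ≠ 0 := by rw [hPN.hw]; exact mul_ne_zero hF0 hPN.l0
  -- the trivial case
  have hTRIV : ∀ (N : ℕ) (γ : L[X]) (wh ν : L[X] →ₗ[L] L[X]), γ ≠ 0 →
      (∀ ω ∈ P, T * wh ω = γ * (w0 * ν ω - ν w0 * ω)) →
      (∀ ω ∈ P, Dh f1 f2 (ν ω) = 0) →
      ∃ τ : L[X] →ₗ[L] L[X], (∀ ω ∈ P, τ ω ∈ Lam) ∧
        ∀ ω ∈ P, wh ω = γ * (w0 * τ ω - τ w0 * ω) := by
    intro N γ wh ν hγ h1 h2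
    obtain ⟨sdiv, hs⟩ := exists_div T hT0
    have h3 : ∀ ω ∈ P, ∃ v ∈ Lam, ν ω = T * v := fun ω hω => by
      obtain ⟨α, β, hαβ⟩ := hKER L f1 f2 (ν ω) hwr0 (h2 ω hω)
      exact hTv _ (mem_span_pair_comb hαβ)
    have h4 : ∀ ω ∈ P, ν ω = T * sdiv (ν ω) ∧ sdiv (ν ω) ∈ Lam := fun ω hω => by
      obtain ⟨v, hv, hv2⟩ := h3 ω hω
      rw [hv2, hs]; exact ⟨rfl, hv⟩
    refine ⟨sdiv.comp ν, fun ω hω => (h4 ω hω).2, fun ω hω => ?_⟩
    have h5 := h1 ω hω
    have h6 : T * wh ω = T * (γ * (w0 * sdiv (ν ω) - sdiv (ν w0) * ω)) := by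
      rw [h5]
      nth_rewrite 1 [(h4 ω hω).1]
      nth_rewrite 1 [(h4 w0 hw0).1]
      ring
    exact mul_left_cancel₀ hT0 h6
  rcases Nat.lt_or_ge (sig F P).card 1 with h0 | h1
  · -- case A
    have h0' : (sig F P).card = 0 := by omega
    rw [h0'] at dP dw0
    have htP : ∀ c, F.eval c = 0 → tI P c := fun c hc => tI_of_card_zero hF0 h0' c hc
    obtain ⟨g1, g2, l', hPN', hty, hPeq⟩ := hPSA L F k P hk hF hP
      (fun u hu => by have := dP u hu; omega) htP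
    have htens : ∀ u : L[X], u.natDegree ≤ (3 * k - 8) - 2 - k →
        F ^ 2 * u ∈ DlSp F l f1 f2 (k - 2) * P := fun u hu => by
      rw [hPeq]
      exact hTNA L F f1 f2 l g1 g2 l' k hk hF hPN hPN' hty u (by omega)
    obtain ⟨N0, hN0⟩ := hST1 L F f1 f2 l w0 k (3 * k - 8) P hk hF hPN hPfd cP hw0
      (by omega) (by omega) (fun ω hω => by have := dP ω hω; omega) rw0
      (fun c hc => Or.inl (htP c hc)) htens
    refine ⟨N0, fun N hN γ wh hγ hwh0 hrps hnt => ?_⟩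
    have hrph' := hrph N w0 γ wh hrps
    obtain ⟨ν, hν, hJ⟩ := hN0 N hN γ _ hγ (by simp [hwh0]) hrph'
    have hν' : ∀ ω ∈ P, T * wh ω = γ * (w0 * ν ω - ν w0 * ω) := fun ω hω => (hν ω hω).2
    obtain ⟨a0, ha0, ha0'⟩ := hS2A L F f1 f2 l g1 g2 l' w0 k ν hk hF hPN hPN' hty
      (hPeq ▸ cP) (hPeq ▸ hw0) (by omega) (fun ω hω => (hν ω (hPeq ▸ hω)).1)
      (fun c hc => by
        obtain ⟨κ, κ', h⟩ := hJ c hc (htP c hc)
        exact ⟨κ, κ', fun ω hω => h ω (hPeq ▸ hω)⟩)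
    by_cases ha00 : a0 = 0
    · exfalso
      apply hnt
      exact hTRIV N γ wh ν hγ hν' (fun ω hω => by
        rw [ha0' ω (hPeq ▸ hω), ha00, zero_mul])
    · obtain ⟨⟨b0, hb0, hab⟩, hsp, hty'⟩ := hS3A L F f1 f2 l g1 g2 l' a0 k hk hF hPN hPN' hty
        (hPeq ▸ cP) ha00 ha0 (fun ω hω => ⟨ν ω, (hν ω (hPeq ▸ hω)).1, ha0' ω hω⟩)
      rcases htyp with ⟨hT1, hLs⟩ | ⟨a, haF, _, ha1, ha2⟩
      · left
        refine ⟨f1, f2, l, ν, b0, hPN, hLs, by rw [hPeq, hsp], hty', hb0, fun ω hω => ?_⟩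
        refine ⟨(hν ω hω).1, ?_, ?_⟩
        · have := hν' ω hω
          rwa [hT1, one_mul] at this
        · rw [ha0' ω (hPeq ▸ hω), hab]
      · exfalso
        rcases hty' a haF with h | h
        · exact h ha1
        · exact h ha2
  · -- cases B and C
    have h1' : (sig F P).card = 1 := by omega
    rw [h1'] at dP dw0
    obtain ⟨b, hb, hnb, htb⟩ := exists_of_card_one hF0 h1'
    obtain ⟨A, hFA, hA, hAb⟩ := split (by omega) hF hb
    have htP : ∀ c, A.eval c = 0 → tI P c := fun c hc => by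
      refine htb c ?_ ?_
      · rw [hFA, eval_mul, hc, mul_zero]
      · rintro rfl; exact hAb hc
    obtain ⟨g1, g2, hg1, hg2, hwg, hPeq⟩ := hPSB L A k P hk hA hP
      (fun u hu => by have := dP u hu; omega) htP
    by_cases hLb : tI Lam b
    · -- case B
      have hfb : f1.eval b ≠ 0 ∨ f2.eval b ≠ 0 := by
        rcases hval b with h | h | h
        · exact Or.inl h
        · exact Or.inr h
        · exact absurd hLb h.2
      have hPN2 : PN ((X - C b) * A) k f1 f2 l := hFA ▸ hPN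
      have htens : ∀ u : L[X], u.natDegree ≤ (3 * k - 9) - 2 - k →
          F ^ 2 * u ∈ DlSp F l f1 f2 (k - 2) * P := fun u hu => by
        rw [hPeq, hFA]
        exact hTNB L A f1 f2 l g1 g2 b k hk hA hAb hPN2 hfb hg1 hg2 hwg u (by omega)
      obtain ⟨N0, hN0⟩ := hST1 L F f1 f2 l w0 k (3 * k - 9) P hk hF hPN hPfd cP hw0
        (by omega) (by omega) (fun ω hω => by have := dP ω hω; omega) rw0
        (fun c hc => by
          by_cases hcb : c = b
          · subst hcb; exact Or.inr hfb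
          · exact Or.inl (htb c hc hcb)) htens
      refine ⟨N0, fun N hN γ wh hγ hwh0 hrps hnt => ?_⟩
      have hrph' := hrph N w0 γ wh hrps
      obtain ⟨ν, hν, hJ⟩ := hN0 N hN γ _ hγ (by simp [hwh0]) hrph'
      have hν' : ∀ ω ∈ P, T * wh ω = γ * (w0 * ν ω - ν w0 * ω) := fun ω hω => (hν ω hω).2
      obtain ⟨a0, ha0, ha0'⟩ := hS2B L A f1 f2 l g1 g2 w0 b k ν hk hA hAb hPN2 hg1 hg2 hwg
        (hPeq ▸ hw0) (by omega) (fun ω hω => (hν ω (hPeq ▸ hω)).1)
        (fun c hc => by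
          obtain ⟨κ, κ', h⟩ := hJ c (by rw [hFA, eval_mul, hc, mul_zero]) (htP c hc)
          exact ⟨κ, κ', fun ω hω => h ω (hPeq ▸ hω)⟩)
      exfalso
      by_cases ha00 : a0 = 0
      · apply hnt
        exact hTRIV N γ wh ν hγ hν' (fun ω hω => by
          rw [ha0' ω (hPeq ▸ hω), ha00, zero_mul])
      · exact hS3B L A f1 f2 l g1 g2 a0 b k hk hA hAb hPN2 hfb hg1 hg2 hwg ha00 ha0
          (fun ω hω => ⟨ν ω, (hν ω (hPeq ▸ hω)).1, ha0' ω hω⟩)
    · -- case C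
      have hsL : (sig F Lam).card = 1 := by
        have : b ∈ sig F Lam := (mem_sig hF0 Lam b).2 ⟨hb, hLb⟩
        have := Finset.card_pos.2 ⟨b, this⟩
        omega
      obtain ⟨a, ha, hna, hta⟩ := exists_of_card_one hF0 hsL
      have hab : b = a := by
        by_contra h; exact hLb (hta b hb h)
      subst hab
      have htL : ∀ c, A.eval c = 0 → tline Lam c := fun c hc => by
        refine tline_of_tI (hta c ?_ ?_)
        · rw [hFA, eval_mul, hc, mul_zero]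
        · rintro rfl; exact hAb hc
      have hdL : ∀ u ∈ Lam, u.natDegree ≤ k - 1 := fun u hu => by
        have := dL u hu; omega
      obtain ⟨e1, e2, hd1, hd2, hw, hsp⟩ := hLSB L A k Lam (by omega) hA hLam hdL htL
      have he1 : e1 ∈ Lam := by rw [hsp]; exact Submodule.subset_span (by simp)
      have he2 : e2 ∈ Lam := by rw [hsp]; exact Submodule.subset_span (by simp)
      have hwe0 : wr e1 e2 ≠ 0 := by rw [hw]; exact hA.mon.ne_zero
      obtain ⟨N0, hN0⟩ := hS1C L A e1 e2 g1 g2 w0 b k hk hA hAb hd1 hd2 hw hg1 hg2 hwg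
        (hPeq ▸ cP) (hPeq ▸ hw0) (by omega)
        (fun c hc => rw0 c (by rw [hFA, eval_mul, hc, mul_zero])) (rw0 b hb)
      refine ⟨N0, fun N hN γ wh hγ hwh0 hrps hnt => ?_⟩
      have hrph' : RPh ((X - C b) * A) A e1 e2 (k - 1) (DhSp g1 g2 (k - 1)) w0 γ wh N := by
        rw [hFA] at hrps
        rw [← hPeq]
        exact rph_of_rps hHIN hA (Dvd.intro_left _ rfl) he1 he2 hdL htL hrps
      obtain ⟨ν3, hν3, hJ⟩ := hN0 N hN γ wh hγ hwh0 hrph'
      obtain ⟨b5, hb5, hb5'⟩ := hS2C L A e1 e2 g1 g2 w0 b k ν3 hk hA hAb hd1 hd2 hw hg1 hg2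
        hwg (hPeq ▸ hw0) (by omega) (fun ω hω => (hν3 ω hω).1) hJ
      obtain ⟨hdiv, b0, hb0⟩ := hS3C L A e1 e2 g1 g2 w0 b5 b k ν3 hk hA hAb hd1 hd2 hw hg1 hg2
        hwg (hPeq ▸ hw0) (rw0 b hb) (fun ω hω => (hν3 ω hω).2.2) hb5 hb5'
      have hTT : (X - C b : L[X]) ^ 3 ≠ 0 := pow_ne_zero 3 (X_sub_C_ne_zero b)
      obtain ⟨sdiv, hs⟩ := exists_div ((X - C b) ^ 3) hTT
      have hν : ∀ ω ∈ P, ν3 ω = (X - C b) ^ 3 * sdiv (ν3 ω) := fun ω hω => by
        obtain ⟨u, hu⟩ := hdiv ω (hPeq ▸ hω)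
        rw [hu, hs]
      have hwhν : ∀ ω ∈ P, wh ω = γ * (w0 * (sdiv.comp ν3) ω - (sdiv.comp ν3) w0 * ω) := by
        intro ω hω
        have h5 := (hν3 ω (hPeq ▸ hω)).2.1
        apply mul_left_cancel₀ hTT
        rw [h5]
        nth_rewrite 1 [hν ω hω]
        nth_rewrite 1 [hν w0 hw0]
        simp only [LinearMap.comp_apply]
        ring
      have hDh : ∀ ω ∈ P, Dh e1 e2 ((sdiv.comp ν3) ω) = C b0 * ω := by
        intro ω hω
        have h5 := hb5' ω (hPeq ▸ hω)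
        rw [hν ω hω, D3_mul _ _ _ _ (by simp), hb0] at h5
        have hT5 : (X - C b : L[X]) ^ 5 ≠ 0 := pow_ne_zero 5 (X_sub_C_ne_zero b)
        apply mul_left_cancel₀ hT5
        simp only [LinearMap.comp_apply]
        rw [h5]; ring
      have hdeg : ∀ ω ∈ P, ((sdiv.comp ν3) ω).natDegree ≤ k - 1 := by
        intro ω hω
        have h5 := (hν3 ω (hPeq ▸ hω)).1
        by_cases h6 : sdiv (ν3 ω) = 0
        · simp [h6]
        · rw [hν ω hω, natDegree_mul hTT h6, natDegree_pow, natDegree_X_sub_C] at h5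
          simp only [LinearMap.comp_apply]
          omega
      by_cases hb00 : b0 = 0
      · exfalso
        apply hnt
        refine ⟨sdiv.comp ν3, fun ω hω => ?_, hwhν⟩
        obtain ⟨α, β, hαβ⟩ := hKER L e1 e2 _ hwe0 (by
          rw [hDh ω hω, hb00, C_0, zero_mul])
        rw [hsp]
        exact mem_span_pair_comb hαβ
      · right
        have hPe : DhSp g1 g2 (k - 1) = DhSp e1 e2 (k - 1) :=
          hSC4 L A e1 e2 g1 g2 b0 k hk hA hd1 hd2 hw hg1 hg2 hwg (hPeq ▸ cP) hb00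
            (fun ω hω => ⟨_, hdeg ω (hPeq ▸ hω), hDh ω (hPeq ▸ hω)⟩)
        exact ⟨b, A, e1, e2, sdiv.comp ν3, b0, hFA, hd1, hd2, hw, hsp, by rw [hPeq, hPe], hb00,
          fun ω hω => ⟨hdeg ω hω, hwhν ω hω, hDh ω hω⟩⟩

end Pool.Agent.RTB
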