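import Pool.Agent.RTB.SStmts

/-!
# squad RTB, module SP1
-/

set_option autoImplicit false

open Polynomial

namespace Pool.Agent.RTB

namespace SP1_

variable {L : Type} [Field L]

theorem eval_wr (a b : L[X]) (c : L) : (wr a b).eval c
    = a.eval c * (derivative b).eval c - (derivative a).eval c * b.eval c := by
  simp only [wr, eval_sub, eval_mul]

/-- a multiplier gives an element `q` -/
theorem mult {F A f1 f2 w0 γ ω h : L[X]} {k N : ℕ} {P : Submodule L L[X]}
    {wh : L[X] →ₗ[L] L[X]} (hR : RPh F A f1 f2 k P w0 γ wh N) (hw0 : w0 ∈ P) (hne : w0 ≠ 0)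
    (hω : ω ∈ P) (hz : wh w0 = 0) (h1 : h * w0 ∈ RF F N) (h2 : h * ω ∈ RF F N) :
    ∃ q : L[X], q.natDegree ≤ N + k ∧ A ∣ wr f1 q ∧ A ∣ wr f2 q ∧ h * wh ω = γ * q := by
  obtain ⟨q, hq, ha, hb, hs⟩ := hR 2 ![h * w0, -(h * ω)] ![ω, w0]
    (by
      intro i
      fin_cases i
      · exact h1
      · exact Submodule.neg_mem _ h2)
    (by
      intro i
      fin_cases i
      · exact hω
      · exact hw0)
    (by
      simp only [Fin.sum_univ_two, Matrix.cons_val_zero, Matrix.cons_val_one]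
      ring)
  refine ⟨q, hq, ha, hb, ?_⟩
  simp only [Fin.sum_univ_two, Matrix.cons_val_zero, Matrix.cons_val_one, hz, mul_zero,
    add_zero] at hs
  apply mul_left_cancel₀ hne
  calc w0 * (h * wh ω) = h * w0 * wh ω := by ring
    _ = γ * w0 * q := hs
    _ = w0 * (γ * q) := by ring

theorem F2_mem {F u v : L[X]} {N : ℕ} (hd : (F ^ 2 * u * v).natDegree ≤ N) :
    F ^ 2 * u * v ∈ RF F N := by
  refine ⟨hd, ?_⟩
  rw [mul_assoc, derivative_mul, derivative_pow]
  refine dvd_add ?_ ?_
  · refine Dvd.dvd.mul_right ?_ _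
    refine Dvd.dvd.mul_right ?_ _
    refine Dvd.dvd.mul_left ?_ _
    simp
  · exact Dvd.dvd.mul_right (dvd_pow_self F two_ne_zero) _

theorem dvd_sq_of {p : L[X]} {c : L} (h0 : p.eval c = 0) (h1 : (derivative p).eval c = 0) :
    (X - C c) ^ 2 ∣ p := by
  obtain ⟨q, rfl⟩ := dvd_iff_isRoot.2 (show p.IsRoot c from h0)
  rw [derivative_mul, derivative_sub, derivative_X, derivative_C, sub_zero, one_mul, eval_add,
    eval_mul, eval_sub, eval_X, eval_C, sub_self, zero_mul, add_zero] at h1
  obtain ⟨r, rfl⟩ := dvd_iff_isRoot.2 (show q.IsRoot c from h1)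
  exact ⟨r, by ring⟩

theorem eval_of_dvd_sq {p : L[X]} {c : L} (h : (X - C c) ^ 2 ∣ p) :
    p.eval c = 0 ∧ (derivative p).eval c = 0 := by
  obtain ⟨r, rfl⟩ := h
  constructor
  · simp
  · rw [derivative_mul, pow_two, derivative_mul, derivative_sub, derivative_X, derivative_C]
    simp

theorem main [CharZero L] [IsAlgClosed L] (hHIN : Stmt_HIN) {F f1 f2 w0 : L[X]}
    {k D g : ℕ} {P : Submodule L L[X]} (hF : FF F g) (hw0 : w0 ∈ P) (hD : w0.natDegree = D)
    (hne : w0 ≠ 0) (hPD : ∀ ω ∈ P, ω.natDegree ≤ D) (hwc : ∀ c, F.eval c = 0 → w0.eval c ≠ 0)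
    (hc : ∀ c, F.eval c = 0 → tI P c ∨ f1.eval c ≠ 0 ∨ f2.eval c ≠ 0)
    {N : ℕ} (hN : 2 * g + D + 1 ≤ N) {γ : L[X]} {wh : L[X] →ₗ[L] L[X]} (hγ : γ ≠ 0)
    (hz : wh w0 = 0) (hR : RPh F F f1 f2 k P w0 γ wh N) {ω : L[X]} (hω : ω ∈ P) :
    ∃ w : L[X], wh ω = γ * w ∧ w.natDegree ≤ k + D ∧
    ∀ c, F.eval c = 0 → (tI P c ∨ (ω.eval c = 0 ∧ (derivative ω).eval c = 0)) →
      Jc f1 f2 w0 w c := by
  obtain ⟨_, hsep, hF1, hF2, hint, _⟩ := hHIN L F g hF
  have hF0 : F ≠ 0 := hF.mon.ne_zero
  have hωD := hPD ω hω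
  -- interpolating multipliers
  have hmul : ∀ c, F.eval c = 0 →
      ω.eval c * (derivative w0).eval c = (derivative ω).eval c * w0.eval c →
      ∃ h q : L[X], h.eval c = 1 ∧ (derivative h).eval c * w0.eval c = - (derivative w0).eval c ∧
        F ∣ wr f1 q ∧ F ∣ wr f2 q ∧ h * wh ω = γ * q := by
    intro c hFc hcc
    classical
    have hg1 : 1 ≤ g := by
      by_contra hg
      have hg0 : g = 0 := by omega
      have : F = 1 := by
        have := hF.mon
        exact this.natDegree_eq_zero.1 (by rw [hF.deg, hg0])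
      rw [this] at hFc
      simp at hFc
    obtain ⟨h, hhd, hh⟩ := hint hg1 (fun x => if x = c then 1 else 0)
      (fun x => if x = c then - (derivative w0).eval c / w0.eval c else 0)
    have hhc := hh c hFc
    rw [if_pos rfl, if_pos rfl] at hhc
    have hw0c := hwc c hFc
    have hh' : (derivative h).eval c * w0.eval c = - (derivative w0).eval c := by
      rw [hhc.2]; field_simp
    have hmem : ∀ v : L[X], v.natDegree ≤ D →
        v.eval c * (derivative w0).eval c = (derivative v).eval c * w0.eval c →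
        h * v ∈ RF F N := by
      intro v hvD hv
      refine ⟨?_, ?_⟩
      · refine le_trans natDegree_mul_le ?_
        omega
      · apply hF1
        intro x hx
        rw [derivative_mul, eval_add, eval_mul, eval_mul]
        by_cases hxc : x = c
        · subst hxc
          apply mul_right_cancel₀ hw0c
          rw [hhc.1]
          linear_combination (v.eval x) * hh' - hv
        · have := hh x hx
          rw [if_neg hxc, if_neg hxc] at this
          rw [this.1, this.2]; ring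
    obtain ⟨q, _, h1, h2, h3⟩ := mult hR hw0 hne hω hz (hmem w0 (le_of_eq hD) (mul_comm _ _))
      (hmem ω hωD hcc)
    exact ⟨h, q, hhc.1, hh', h1, h2, h3⟩
  have htI : ∀ c, F.eval c = 0 → (tI P c ∨ (ω.eval c = 0 ∧ (derivative ω).eval c = 0)) →
      ω.eval c * (derivative w0).eval c = (derivative ω).eval c * w0.eval c := by
    intro c hFc h
    rcases h with ⟨lam, hl⟩ | ⟨h1, h2⟩
    · rw [hl ω hω, hl w0 hw0]; ring
    · rw [h1, h2]; ring
  -- F^2 multipliers
  have hF2m : ∀ u : L[X], u.natDegree + 2 * g + D ≤ N →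
      ∃ q : L[X], q.natDegree ≤ N + k ∧ F ∣ wr f1 q ∧ F ∣ wr f2 q ∧
        F ^ 2 * u * wh ω = γ * q := by
    intro u hu
    have hd : ∀ v : L[X], v.natDegree ≤ D → (F ^ 2 * u * v).natDegree ≤ N := by
      intro v hv
      have h1 := natDegree_mul_le (p := F ^ 2 * u) (q := v)
      have h2 := natDegree_mul_le (p := F ^ 2) (q := u)
      have h3 := natDegree_pow_le (p := F) (n := 2)
      rw [hF.deg] at h3
      omega
    exact mult hR hw0 hne hω hz (F2_mem (hd w0 (le_of_eq hD))) (F2_mem (hd ω hωD))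
  obtain ⟨q1, _, hq1a, hq1b, hq1⟩ := hF2m 1 (by simp; omega)
  rw [mul_one] at hq1
  have hdv : F ^ 2 ∣ q1 := by
    apply hF2
    intro c hFc
    by_cases hcI : tI P c
    · obtain ⟨h, q, hh1, _, _, _, hq⟩ := hmul c hFc (htI c hFc (Or.inl hcI))
      have h2 : F ^ 2 * q = h * q1 := by
        apply mul_left_cancel₀ hγ
        calc γ * (F ^ 2 * q) = F ^ 2 * (γ * q) := by ring
          _ = F ^ 2 * (h * wh ω) := by rw [hq]
          _ = h * (F ^ 2 * wh ω) := by ring
          _ = γ * (h * q1) := by rw [hq1]; ring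
      apply eval_of_dvd_sq
      have h3 : (X - C c) ^ 2 ∣ h * q1 := by
        rw [← h2]
        exact Dvd.dvd.mul_right (pow_dvd_pow_of_dvd (dvd_iff_isRoot.2 hFc) 2) _
      refine IsCoprime.dvd_of_dvd_mul_left ?_ h3
      apply IsCoprime.pow_left
      rw [(irreducible_X_sub_C c).coprime_iff_not_dvd, dvd_iff_isRoot]
      intro h4
      rw [IsRoot, hh1] at h4
      exact one_ne_zero h4
    · have hff : f1.eval c ≠ 0 ∨ f2.eval c ≠ 0 := (hc c hFc).resolve_left hcI
      obtain ⟨q2, _, hq2a, hq2b, hq2⟩ := hF2m (X - C c) (by rw [natDegree_X_sub_C]; omega)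
      have h2 : q2 = (X - C c) * q1 := by
        apply mul_left_cancel₀ hγ
        calc γ * q2 = F ^ 2 * (X - C c) * wh ω := hq2.symm
          _ = (X - C c) * (F ^ 2 * wh ω) := by ring
          _ = γ * ((X - C c) * q1) := by rw [hq1]; ring
      have hgen : ∀ f : L[X], f.eval c ≠ 0 → F ∣ wr f q1 → F ∣ wr f q2 →
          q1.eval c = 0 ∧ (derivative q1).eval c = 0 := by
        intro f hf ha hb
        have ea : (wr f q1).eval c = 0 := by
          obtain ⟨r, hr⟩ := ha
          rw [hr, eval_mul, hFc, zero_mul]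
        have eb : (wr f q2).eval c = 0 := by
          obtain ⟨r, hr⟩ := hb
          rw [hr, eval_mul, hFc, zero_mul]
        rw [eval_wr] at ea eb
        rw [h2, derivative_mul, derivative_sub, derivative_X, derivative_C, sub_zero, one_mul,
          eval_add, eval_mul, eval_mul, eval_sub, eval_X, eval_C, sub_self, zero_mul, zero_mul,
          mul_zero, add_zero, sub_zero] at eb
        have h5 : q1.eval c = 0 := by
          rcases mul_eq_zero.1 eb with h | h
          · exact absurd h hf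
          · exact h
        refine ⟨h5, ?_⟩
        rw [h5, mul_zero, sub_zero] at ea
        rcases mul_eq_zero.1 ea with h | h
        · exact absurd h hf
        · exact h
      rcases hff with h | h
      · exact hgen f1 h hq1a hq2a
      · exact hgen f2 h hq1b hq2b
  obtain ⟨w, hw⟩ := hdv
  have hwh : wh ω = γ * w := by
    apply mul_left_cancel₀ (pow_ne_zero 2 hF0)
    rw [hq1, hw]; ring
  refine ⟨w, hwh, ?_, ?_⟩
  · by_cases hw0' : w = 0
    · rw [hw0']; simp
    obtain ⟨q, hqd, _, _, hq⟩ := hF2m (X ^ (N - D - 2 * g)) (by rw [natDegree_X_pow]; omega)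
    have h2 : q = F ^ 2 * X ^ (N - D - 2 * g) * w := by
      apply mul_left_cancel₀ hγ
      rw [← hq, hwh]; ring
    rw [h2, natDegree_mul (mul_ne_zero (pow_ne_zero 2 hF0) (pow_ne_zero _ X_ne_zero)) hw0',
      natDegree_mul (pow_ne_zero 2 hF0) (pow_ne_zero _ X_ne_zero), natDegree_pow,
      natDegree_X_pow, hF.deg] at hqd
    omega
  · intro c hFc hcc
    obtain ⟨h, q, hh1, hh2, hqa, hqb, hq⟩ := hmul c hFc (htI c hFc hcc)
    have hqw : q = h * w := by
      apply mul_left_cancel₀ hγ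
      rw [← hq, hwh]; ring
    have hgen : ∀ f : L[X], F ∣ wr f q →
        (w0 * wr f w - f * w * derivative w0).eval c = 0 := by
      intro f ha
      have ea : (wr f q).eval c = 0 := by
        obtain ⟨r, hr⟩ := ha
        rw [hr, eval_mul, hFc, zero_mul]
      rw [eval_wr, hqw, derivative_mul, eval_add, eval_mul, eval_mul, eval_mul, hh1] at ea
      rw [eval_sub, eval_mul, eval_wr, eval_mul, eval_mul]
      linear_combination (w0.eval c) * ea - (f.eval c * w.eval c) * hh2
    exact ⟨hgen f1 hqa, hgen f2 hqb⟩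

end SP1_

theorem sp1_proof (hHIN : Stmt_HIN) : Stmt_SP1 := by
  intro L _ _ _ F f1 f2 w0 k D g P hF hw0 hD hne hPD hwc hc
  refine ⟨2 * g + D + 1, ?_⟩
  intro N hN γ wh hγ hz hR ω hω
  exact SP1_.main hHIN hF hw0 hD hne hPD hwc hc hN hγ hz hR hω

end Pool.Agent.RTB
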