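import Pool.Agent.RTB.SStmts

/-!
# RTB, module SPC: from the relation property to polynomials, double pole at `a`
-/

set_option autoImplicit false

open Polynomial

namespace Pool.Agent.RTB

namespace SPCaux

/-- a polynomial with a double zero -/
theorem sq_dvd {L : Type} [Field L] (p : L[X]) (a : L) (h0 : p.eval a = 0)
    (h1 : (derivative p).eval a = 0) : (X - C a) ^ 2 ∣ p := by
  obtain ⟨p1, rfl⟩ := (dvd_iff_isRoot.mpr h0 : (X - C a) ∣ p)
  have h2 : p1.eval a = 0 := by
    rw [derivative_mul] at h1
    simpa using h1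
  obtain ⟨p2, rfl⟩ := (dvd_iff_isRoot.mpr h2 : (X - C a) ∣ p1)
  exact ⟨p2, by ring⟩

/-- `γ` divides `p` if it divides `u * p` and `v * p` with `u, v` coprime -/
theorem dvd_of_coprime {L : Type} [Field L] {γ u v p : L[X]} (h : IsCoprime u v)
    (hu : γ ∣ u * p) (hv : γ ∣ v * p) : γ ∣ p := by
  obtain ⟨x, y, hxy⟩ := h
  have h1 : p = x * (u * p) + y * (v * p) := by
    calc p = (x * u + y * v) * p := by rw [hxy, one_mul]
      _ = _ := by ring
  rw [h1]
  exact dvd_add (Dvd.dvd.mul_left hu x) (Dvd.dvd.mul_left hv y)

end SPCaux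

open SPCaux

theorem spc_proof (hHIN : Stmt_HIN) : Stmt_SPC := by
  intro L _ _ _ A f1 f2 w0 a K D g P hA hAa hw0 hD hw00 hdeg hw0c hw0a htI
  classical
  -- the polynomial `F`
  obtain ⟨F, hF⟩ : ∃ F : L[X], F = (X - C a) * A := ⟨_, rfl⟩
  have hcop : IsCoprime (X - C a) A := by
    rw [isCoprime_iff_aeval_ne_zero_of_isAlgClosed L L]
    intro c
    by_cases hc : c = a
    · right
      rw [hc]
      simpa using hAa
    · left
      simpa [sub_eq_zero] using hc
  have hFF : FF F (g + 1) := by
    refine ⟨?_, ?_, ?_⟩
    · rw [hF]; exact (monic_X_sub_C a).mul hA.mon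
    · rw [hF]; exact (separable_X_sub_C).mul hA.sep hcop
    · rw [hF, (monic_X_sub_C a).natDegree_mul hA.mon, natDegree_X_sub_C, hA.deg, add_comm]
  obtain ⟨-, -, hdv, -, hherm, -⟩ := hHIN L F (g + 1) hFF
  have hherm := hherm (by omega)
  have hFc : ∀ c, F.eval c = 0 ↔ c = a ∨ A.eval c = 0 := by
    intro c
    rw [hF, eval_mul]
    simp [sub_eq_zero]
  have hA0 : A ≠ 0 := hA.mon.ne_zero
  have hF0 : F ≠ 0 := hFF.mon.ne_zero
  refine ⟨D + 2 * g + 2, fun N hN γ wh hγ hwhw0 hR ω hω => ?_⟩
  rw [← hF] at hR
  -- Koszul relation with a multiplier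
  have key : ∀ h : L[X], h.natDegree + D ≤ N →
      (∀ c, F.eval c = 0 → (derivative (h * w0)).eval c = 0) →
      (∀ c, F.eval c = 0 → (derivative (h * ω)).eval c = 0) →
      ∃ q : L[X], q.natDegree ≤ N + K ∧ A ∣ wr f1 q ∧ A ∣ wr f2 q ∧ h * wh ω = γ * q := by
    intro h hhd hh1 hh2
    obtain ⟨q, hq1, hq2, hq3, hq4⟩ := hR 2 ![h * w0, - (h * ω)] ![ω, w0] (by
      intro i
      fin_cases i
      · refine ⟨?_, hdv _ hh1⟩
        exact le_trans natDegree_mul_le (by rw [hD]; exact hhd)
      · show -(h * ω) ∈ RF F N
        refine (RF F N).neg_mem ⟨?_, hdv _ hh2⟩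
        exact le_trans natDegree_mul_le (le_trans (Nat.add_le_add_left (hdeg ω hω) _) hhd))
      (by
        intro i
        fin_cases i
        · exact hω
        · exact hw0) (by
        simp [Fin.sum_univ_two]; ring)
    refine ⟨q, hq1, hq2, hq3, ?_⟩
    have h5 : w0 * (h * wh ω) = w0 * (γ * q) := by
      have : h * w0 * wh ω + -(h * ω) * wh w0 = γ * w0 * q := by
        simpa [Fin.sum_univ_two] using hq4
      rw [hwhw0] at this
      linear_combination this
    exact mul_left_cancel₀ hw00 h5
  -- the logarithmic derivatives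
  have hlam : ∀ c, A.eval c = 0 → ∀ u ∈ P,
      (derivative u).eval c * w0.eval c = (derivative w0).eval c * u.eval c := by
    intro c hc u hu
    obtain ⟨lam, hl⟩ := htI c hc
    rw [hl u hu, hl w0 hw0]; ring
  -- multiplier of exact degree
  have hj : ∃ j, N = D + 2 * g + 2 + j := ⟨N - (D + 2 * g + 2), by omega⟩
  obtain ⟨j, hj⟩ := hj
  have hh1deg : (F ^ 2 * X ^ j).natDegree = 2 * g + 2 + j := by
    rw [((hFF.mon).pow 2).natDegree_mul (monic_X_pow j), (hFF.mon).natDegree_pow, hFF.deg,
      natDegree_X_pow]
    ring
  have hder : ∀ u c, F.eval c = 0 → (derivative (F ^ 2 * X ^ j * u)).eval c = 0 := by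
    intro u c hc
    have : F ^ 2 * X ^ j * u = F * (F * X ^ j * u) := by ring
    rw [this, derivative_mul, eval_add, eval_mul, eval_mul, eval_mul, eval_mul, hc]
    ring
  obtain ⟨q1, hq1d, -, -, hq1e⟩ := key (F ^ 2 * X ^ j) (by rw [hh1deg, hj]; omega)
    (fun c hc => hder w0 c hc) (fun c hc => hder ω c hc)
  -- multiplier with `X ^ 0`
  have hderF : ∀ u c, F.eval c = 0 → (derivative (F ^ 2 * u)).eval c = 0 := by
    intro u c hc
    have : F ^ 2 * u = F * (F * u) := by ring
    rw [this, derivative_mul, eval_add, eval_mul, eval_mul, eval_mul, hc]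
    ring
  obtain ⟨q0, -, -, -, hq0e⟩ := key (F ^ 2) (by
      rw [(hFF.mon).natDegree_pow, hFF.deg, hj]; omega)
    (fun c hc => hderF w0 c hc) (fun c hc => hderF ω c hc)
  constructor
  · -- first part
    obtain ⟨h2, hh2d, hh2⟩ := hherm (fun c => if c = a then 0 else 1)
      (fun c => if c = a then 0 else - ((derivative w0).eval c / w0.eval c))
    have hh2a := hh2 a ((hFc a).mpr (Or.inl rfl))
    simp only [if_true] at hh2a
    have hh2c : ∀ c, A.eval c = 0 → h2.eval c = 1 ∧
        (derivative h2).eval c * w0.eval c = - (derivative w0).eval c := by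
      intro c hc
      have hca : c ≠ a := by
        rintro rfl; exact hAa hc
      have := hh2 c ((hFc c).mpr (Or.inr hc))
      simp only [if_neg hca] at this
      refine ⟨this.1, ?_⟩
      rw [this.2]
      field_simp [hw0c c hc]
    obtain ⟨ht, hht⟩ := sq_dvd h2 a hh2a.1 hh2a.2
    obtain ⟨q2, -, hq2a, hq2b, hq2e⟩ := key h2 (by omega)
      (by
        intro c hc
        rw [derivative_mul, eval_add, eval_mul, eval_mul]
        rcases (hFc c).mp hc with rfl | hc
        · rw [hh2a.1, hh2a.2]; ring
        · rw [(hh2c c hc).1, (hh2c c hc).2]; ring)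
      (by
        intro c hc
        rw [derivative_mul, eval_add, eval_mul, eval_mul]
        rcases (hFc c).mp hc with rfl | hc
        · rw [hh2a.1, hh2a.2]; ring
        · have h1 := hlam c hc ω hω
          have h2' := (hh2c c hc).2
          have h3 := hw0c c hc
          rw [(hh2c c hc).1]
          apply mul_right_cancel₀ h3
          linear_combination (ω.eval c) * h2' + h1)
    -- divisibility
    have hcop2 : IsCoprime ht (A ^ 2) := by
      apply IsCoprime.pow_right
      rw [isCoprime_iff_aeval_ne_zero_of_isAlgClosed L L]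
      intro c
      by_cases hc : A.eval c = 0
      · left
        intro h0
        have h1 := (hh2c c hc).1
        rw [hht, eval_mul] at h1
        rw [coe_aeval_eq_eval] at h0
        rw [h0, mul_zero] at h1
        exact zero_ne_one h1
      · right
        rw [coe_aeval_eq_eval]
        exact hc
    have hdvd : γ ∣ (X - C a) ^ 2 * wh ω := by
      refine dvd_of_coprime hcop2 ⟨q2, ?_⟩ ⟨q0, ?_⟩
      · rw [← hq2e, hht]; ring
      · rw [← hq0e, hF]; ring
    obtain ⟨w2, hw2⟩ := hdvd
    refine ⟨w2, hw2, ?_, ?_⟩
    · -- degree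
      by_cases hw20 : w2 = 0
      · rw [hw20]; simp
      have h6 : q1 = A ^ 2 * X ^ j * w2 := by
        apply mul_left_cancel₀ hγ
        rw [← hq1e, hF]
        linear_combination (A ^ 2 * X ^ j) * hw2
      have h7 : q1.natDegree = 2 * g + j + w2.natDegree := by
        rw [h6, (((hA.mon).pow 2).mul (monic_X_pow j)).natDegree_mul' hw20,
          ((hA.mon).pow 2).natDegree_mul (monic_X_pow j), (hA.mon).natDegree_pow, hA.deg,
          natDegree_X_pow]
      omega
    · intro c hc
      have hq2w : q2 = ht * w2 := by
        apply mul_left_cancel₀ hγ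
        rw [← hq2e, hht]
        linear_combination ht * hw2
      have e1 := (hh2c c hc).1
      have e2 := (hh2c c hc).2
      have hca : c - a ≠ 0 := by
        intro h0
        rw [sub_eq_zero] at h0
        rw [h0] at hc
        exact hAa hc
      have d1 : (c - a) ^ 2 * ht.eval c = 1 := by
        rw [hht] at e1
        simpa using e1
      have d2 : (2 * (c - a) * ht.eval c + (c - a) ^ 2 * (derivative ht).eval c) * w0.eval c
          = - (derivative w0).eval c := by
        rw [hht, derivative_mul, pow_two, derivative_mul] at e2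
        rw [← e2]
        simp only [eval_add, eval_mul, eval_sub, eval_X, eval_C, derivative_sub, derivative_X,
          derivative_C, sub_zero, eval_one]
        ring
      have hgen : ∀ f : L[X], A ∣ wr f q2 →
          (w0 * (f * (derivative w2 * (X - C a) - 2 * w2) - derivative f * w2 * (X - C a))
            - f * w2 * derivative w0 * (X - C a)).eval c = 0 := by
        intro f hf
        have e3 : (wr f q2).eval c = 0 := by
          obtain ⟨s, hs⟩ := hf
          rw [hs, eval_mul, hc, zero_mul]
        rw [hq2w] at e3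
        simp only [wr, derivative_mul, eval_sub, eval_add, eval_mul] at e3
        simp only [eval_sub, eval_mul, eval_X, eval_C, eval_ofNat]
        generalize ht.eval c = t at *
        generalize (derivative ht).eval c = t' at *
        generalize w2.eval c = u at *
        generalize (derivative w2).eval c = u' at *
        generalize f.eval c = p at *
        generalize (derivative f).eval c = p' at *
        generalize w0.eval c = z at *
        generalize (derivative w0).eval c = z' at *
        generalize c - a = T at *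
        -- multiply by `T ^ 2 * t = 1`
        have e4 : z * (p * (u' * T - 2 * u) - p' * u * T) - p * u * z' * T
            = T ^ 3 * z * (p * (t' * u + t * u') - p' * (t * u)) := by
          linear_combination (-(p * u * T)) * d2 + (- z * p * u' * T + z * p' * u * T + 2 * z * p * u) * d1
        rw [e4, e3, mul_zero]
      exact ⟨hgen f1 hq2a, hgen f2 hq2b⟩
  · -- second part
    intro hωa hωa'
    obtain ⟨h3, hh3d, hh3⟩ := hherm (fun _ => 1)
      (fun c => - ((derivative w0).eval c / w0.eval c))
    have hw0F : ∀ c, F.eval c = 0 → w0.eval c ≠ 0 := by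
      intro c hc
      rcases (hFc c).mp hc with rfl | hc
      · exact hw0a
      · exact hw0c c hc
    have hh3c : ∀ c, F.eval c = 0 → h3.eval c = 1 ∧
        (derivative h3).eval c * w0.eval c = - (derivative w0).eval c := by
      intro c hc
      have := hh3 c hc
      refine ⟨this.1, ?_⟩
      rw [this.2]
      field_simp [hw0F c hc]
    obtain ⟨q3, -, hq3a, hq3b, hq3e⟩ := key h3 (by omega)
      (by
        intro c hc
        rw [derivative_mul, eval_add, eval_mul, eval_mul]
        rw [(hh3c c hc).1, (hh3c c hc).2]; ring)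
      (by
        intro c hc
        rw [derivative_mul, eval_add, eval_mul, eval_mul]
        rcases (hFc c).mp hc with rfl | hc'
        · rw [hωa, hωa']; ring
        · have h1 := hlam c hc' ω hω
          have h2' := (hh3c c hc).2
          have h3 := hw0c c hc'
          rw [(hh3c c hc).1]
          apply mul_right_cancel₀ h3
          linear_combination (ω.eval c) * h2' + h1)
    have hcop3 : IsCoprime h3 (F ^ 2) := by
      apply IsCoprime.pow_right
      rw [isCoprime_iff_aeval_ne_zero_of_isAlgClosed L L]
      intro c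
      by_cases hc : F.eval c = 0
      · left
        rw [coe_aeval_eq_eval, (hh3c c hc).1]
        exact one_ne_zero
      · right
        rw [coe_aeval_eq_eval]
        exact hc
    have hdvd : γ ∣ wh ω := dvd_of_coprime hcop3 ⟨q3, hq3e⟩ ⟨q0, hq0e⟩
    obtain ⟨w, hw⟩ := hdvd
    refine ⟨w, hw, ?_, ?_⟩
    · by_cases hw20 : w = 0
      · rw [hw20]; simp
      have h6 : q1 = F ^ 2 * X ^ j * w := by
        apply mul_left_cancel₀ hγ
        rw [← hq1e, hw]
        ring
      have h7 : q1.natDegree = 2 * g + 2 + j + w.natDegree := by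
        rw [h6, (((hFF.mon).pow 2).mul (monic_X_pow j)).natDegree_mul' hw20, hh1deg]
      omega
    · intro c hc
      have hq3w : q3 = h3 * w := by
        apply mul_left_cancel₀ hγ
        rw [← hq3e, hw]
        ring
      have e1 := (hh3c c ((hFc c).mpr (Or.inr hc))).1
      have e2 := (hh3c c ((hFc c).mpr (Or.inr hc))).2
      have hgen : ∀ f : L[X], A ∣ wr f q3 →
          (w0 * wr f w - f * w * derivative w0).eval c = 0 := by
        intro f hf
        have e3 : (wr f q3).eval c = 0 := by
          obtain ⟨s, hs⟩ := hf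
          rw [hs, eval_mul, hc, zero_mul]
        rw [hq3w] at e3
        simp only [wr, derivative_mul, eval_sub, eval_add, eval_mul] at e3
        simp only [wr, eval_sub, eval_mul]
        rw [e1] at e3
        linear_combination (w0.eval c) * e3 - (f.eval c * w.eval c) * e2
      exact ⟨hgen f1 hq3a, hgen f2 hq3b⟩

end Pool.Agent.RTB
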