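import Pool.Agent.RTB.SStmts

/-!
# squad RTB, module SSX
-/

set_option autoImplicit false

open Polynomial

namespace Pool.Agent.RTB

namespace SSX_

variable {L : Type} [Field L]

theorem col_rel {f1 f2 : L[X]} {k : ℕ} (s : Fin k → L[X]) (j0 : Fin k)
    (h1 : ∑ i, s i * X ^ (i : ℕ) = 0) (h2 : ∑ i, s i * Dh f1 f2 (X ^ (i : ℕ)) = 0) :
    ∑ i : Fin k, ∑ j : Fin k, (if j = j0 then s i else 0) * muX f1 f2 i j = 0 := by
  have h3 : ∀ i : Fin k, ∑ j : Fin k, (if j = j0 then s i else 0) * muX f1 f2 i j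
      = Dh f1 f2 (X ^ (j0 : ℕ)) * (s i * X ^ (i : ℕ))
        - X ^ (j0 : ℕ) * (s i * Dh f1 f2 (X ^ (i : ℕ))) := by
    intro i
    rw [Finset.sum_eq_single j0]
    · simp only [if_true, muX]
      ring
    · intro j _ hj
      rw [if_neg hj, zero_mul]
    · intro h
      exact absurd (Finset.mem_univ _) h
  rw [Finset.sum_congr rfl (fun i _ => h3 i), Finset.sum_sub_distrib, ← Finset.mul_sum,
    ← Finset.mul_sum, h1, h2, mul_zero, mul_zero, sub_zero]

theorem const_rel {f1 f2 ρ : L[X]} {k : ℕ} (κ : Fin k → Fin k → L)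
    (h : ∑ i, ∑ j, C (κ i j) * muX f1 f2 i j = 0) :
    ∑ i, ∑ j, (C (κ i j) * ρ) * muX f1 f2 i j = 0 := by
  have h3 : ∑ i, ∑ j, (C (κ i j) * ρ) * muX f1 f2 i j
      = ρ * ∑ i, ∑ j, C (κ i j) * muX f1 f2 i j := by
    simp only [Finset.mul_sum]
    refine Finset.sum_congr rfl (fun i _ => Finset.sum_congr rfl (fun j _ => ?_))
    ring
  rw [h3, h, mul_zero]

theorem ffF {A : L[X]} {a : L} {k : ℕ} (hk : 9 ≤ k) (hA : FF A (2 * k - 4)) (ha : A.eval a ≠ 0) :
    FF ((X - C a) * A) (2 * k - 3) where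
  mon := (monic_X_sub_C a).mul hA.mon
  sep := by
    refine (separable_X_sub_C).mul hA.sep ?_
    refine (irreducible_X_sub_C a).coprime_iff_not_dvd.2 ?_
    rw [dvd_iff_isRoot]
    exact ha
  deg := by
    rw [(monic_X_sub_C a).natDegree_mul hA.mon, natDegree_X_sub_C, hA.deg]
    omega

/-- a polynomial with vanishing derivative at `c` is constant modulo `(X - c)^2` -/
theorem sq_dvd (p : L[X]) (c : L) (h0 : p.eval c = 0) (h1 : (derivative p).eval c = 0) :
    (X - C c) ^ 2 ∣ p := by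
  obtain ⟨q, hq⟩ := (dvd_iff_isRoot.2 h0 : X - C c ∣ p)
  have h2 : q.eval c = 0 := by
    rw [hq, derivative_mul, derivative_sub, derivative_X, derivative_C] at h1
    simpa using h1
  obtain ⟨q', hq'⟩ := (dvd_iff_isRoot.2 h2 : X - C c ∣ q)
  exact ⟨q', by rw [hq, hq', pow_two, mul_assoc]⟩

theorem mem_RF_mul_sq {F p : L[X]} {g n : ℕ} (hF : FF F g) (hn : 2 * g ≤ n)
    (hp : p.natDegree ≤ n - 2 * g) : F ^ 2 * p ∈ RF F n := by
  refine mem_RF.2 ⟨?_, ?_⟩
  · refine le_trans natDegree_mul_le ?_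
    rw [natDegree_pow, hF.deg]
    omega
  · rw [derivative_mul, pow_two, derivative_mul]
    exact ⟨(derivative F + derivative F) * p + F * derivative p, by ring⟩

theorem deg_of_mul_sq {F p : L[X]} {g n : ℕ} (hF : FF F g)
    (hp : (F ^ 2 * p).natDegree ≤ n) : p.natDegree ≤ n - 2 * g := by
  by_cases h0 : p = 0
  · rw [h0, natDegree_zero]
    exact Nat.zero_le _
  · rw [natDegree_mul (hF.mon.pow 2).ne_zero h0, natDegree_pow, hF.deg] at hp
    omega

/-- the map `M ↦ F^2 M` on matrices -/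
noncomputable def mulSq (F : L[X]) (k : ℕ) : (Fin k → Fin k → L[X]) →ₗ[L] (Fin k → Fin k → L[X]) where
  toFun := fun M i j => F ^ 2 * M i j
  map_add' := fun M N => by
    funext i j
    simp only [Pi.add_apply, mul_add]
  map_smul' := fun c M => by
    funext i j
    simp only [Pi.smul_apply, RingHom.id_apply, mul_smul_comm]

theorem mulSq_apply (F : L[X]) (k : ℕ) (M : Fin k → Fin k → L[X]) (i j : Fin k) :
    mulSq F k M i j = F ^ 2 * M i j := rfl

/-- every element of the span is a relation with coefficients in `RF F n` -/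
theorem span_rel {F f1 f2 : L[X]} {k n : ℕ} {M : Fin k → Fin k → L[X]}
    (hM : M ∈ Submodule.span L (KS F f1 f2 k n)) :
    (∑ i, ∑ j, M i j * muX f1 f2 i j = 0) ∧ ∀ i j, M i j ∈ RF F n := by
  induction hM using Submodule.span_induction with
  | mem M hM =>
    rcases hM with ⟨ρ, hρ, κ, hκ, rfl⟩ | ⟨s, hs, h1, h2, j0, rfl⟩
    · refine ⟨const_rel κ hκ, fun i j => ?_⟩
      show C (κ i j) * ρ ∈ RF F n
      rw [← smul_eq_C_mul]
      exact (RF F n).smul_mem _ hρ
    · refine ⟨col_rel s j0 h1 h2, fun i j => ?_⟩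
      by_cases hj : j = j0
      · simp only [hj, if_true]
        exact hs i
      · simp only [hj, if_false]
        exact (RF F n).zero_mem
  | zero => exact ⟨by simp, fun i j => (RF F n).zero_mem⟩
  | add M N _ _ hM hN =>
    refine ⟨?_, fun i j => (RF F n).add_mem (hM.2 i j) (hN.2 i j)⟩
    simp only [Pi.add_apply, add_mul, Finset.sum_add_distrib]
    rw [hM.1, hN.1, add_zero]
  | smul c M _ hM =>
    refine ⟨?_, fun i j => (RF F n).smul_mem _ (hM.2 i j)⟩
    simp only [Pi.smul_apply, smul_mul_assoc, ← Finset.smul_sum]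
    rw [hM.1, smul_zero]

end SSX_

theorem ssx_proof (hVAL : Stmt_VAL) (hLIF : Stmt_LIF) (hPLN : Stmt_PLN) (hHIN : Stmt_HIN) :
    Stmt_SSX := by
  classical
  intro L _ _ _ A f1 f2 a k hk hA ha hd1 hd2 hw
  have hF := SSX_.ffF hk hA ha
  have hVAL' := fun c hc => hVAL L A f1 f2 a c k hk hA ha hd1 hd2 hw hc
  have hLIF' := fun c hc => hLIF L A f1 f2 a c k hk hA ha hd1 hd2 hw hc
  generalize hFdef : (X - C a) * A = F at hF hVAL' hLIF' ⊢
  obtain ⟨-, -, hdv1, hdv2, hint, -⟩ := hHIN L F (2 * k - 3) hF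
  have hint := hint (by omega)
  have hF0 : F ≠ 0 := hF.mon.ne_zero
  -- the functions chi
  have hchi : ∀ c : L, ∃ χ : L[X], χ.natDegree ≤ 2 * (2 * k - 3) - 1 ∧ F ∣ derivative χ ∧
      (F.eval c = 0 → χ.eval c = 1) ∧ ∀ c', F.eval c' = 0 → c' ≠ c → χ.eval c' = 0 := by
    intro c
    obtain ⟨p, hp1, hp2⟩ := hint (fun x => if x = c then 1 else 0) (fun _ => 0)
    refine ⟨p, hp1, hdv1 _ (fun c' hc' => (hp2 c' hc').2), fun hc => ?_, fun c' hc' hne => ?_⟩
    · rw [(hp2 c hc).1, if_pos rfl]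
    · rw [(hp2 c' hc').1, if_neg hne]
  choose χ hχ1 hχ2 hχ3 hχ4 using hchi
  -- the bounds of LIF
  have hL : ∀ c : L, ∃ N1 : ℕ, F.eval c = 0 → ∀ n, N1 ≤ n → ∀ s : Fin k → L,
      (X - C c) ^ 2 ∣ ∑ i, C (s i) * X ^ (i : ℕ) →
      (X - C c) ^ 2 ∣ Dh f1 f2 (∑ i, C (s i) * X ^ (i : ℕ)) →
      ∃ S : Fin k → L[X], (∀ i, S i ∈ RF F n) ∧ (∀ i, (S i).eval c = s i) ∧
        (∀ i c', F.eval c' = 0 → c' ≠ c → (S i).eval c' = 0) ∧
        ∑ i, S i * X ^ (i : ℕ) = 0 ∧ ∑ i, S i * Dh f1 f2 (X ^ (i : ℕ)) = 0 := by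
    intro c
    by_cases hc : F.eval c = 0
    · obtain ⟨N1, hN1⟩ := hLIF' c hc
      exact ⟨N1, fun _ => hN1⟩
    · exact ⟨0, fun h => absurd h hc⟩
  choose NL hNL using hL
  refine ⟨max (F.roots.toFinset.sup NL) (2 * (2 * k - 3) + 3), fun n hn r hr hr0 => ?_⟩
  have hn1 : ∀ c, F.eval c = 0 → NL c ≤ n := by
    intro c hc
    refine le_trans (Finset.le_sup (f := NL) ?_) (le_trans (le_max_left _ _) hn)
    rw [Multiset.mem_toFinset, mem_roots hF0]
    exact hc
  have hn2 : 2 * (2 * k - 3) + 3 ≤ n := le_trans (le_max_right _ _) hn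
  -- value at the roots
  have hder : ∀ p : L[X], p ∈ RF F n → ∀ c, F.eval c = 0 → (derivative p).eval c = 0 := by
    intro p hp c hc
    obtain ⟨q, hq⟩ := (mem_RF.1 hp).2
    rw [hq, eval_mul, hc, zero_mul]
  have hval : ∀ c, F.eval c = 0 →
      (X - C c) ^ 2 ∣ ∑ i, ∑ j, C ((r i j).eval c) * muX f1 f2 i j := by
    intro c hc
    have h1 : ∑ i, ∑ j, C ((r i j).eval c) * muX f1 f2 i j
        = ∑ i, ∑ j, (C ((r i j).eval c) - r i j) * muX f1 f2 i j := by
      simp only [sub_mul, Finset.sum_sub_distrib]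
      rw [hr0, sub_zero]
    rw [h1]
    refine Finset.dvd_sum (fun i _ => Finset.dvd_sum (fun j _ => Dvd.dvd.mul_right ?_ _))
    refine SSX_.sq_dvd _ _ ?_ ?_
    · rw [eval_sub, eval_C, sub_self]
    · rw [derivative_sub, derivative_C, zero_sub, eval_neg, hder _ (hr i j) c hc, neg_zero]
  -- for every root a correction
  have hcor : ∀ c : L, ∃ M : Fin k → Fin k → L[X],
      M ∈ Submodule.span L (KS F f1 f2 k n) ∧ (F.eval c = 0 →
        (∀ i j, (M i j).eval c = (r i j).eval c) ∧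
        ∀ i j c', F.eval c' = 0 → c' ≠ c → (M i j).eval c' = 0) := by
    intro c
    by_cases hc : F.eval c = 0
    · obtain ⟨κ0, s, h1, h2, h3, h4⟩ := hVAL' c hc (fun i j => (r i j).eval c) (hval c hc)
      have h5 := fun j => hNL c hc n (hn1 c hc) (fun i => s i j) (h2 j) (h3 j)
      choose S hS1 hS2 hS3 hS4 hS5 using h5
      refine ⟨(fun i j => C (κ0 i j) * χ c) + ∑ j0 : Fin k, (fun i j => if j = j0 then S j0 i else 0),
        ?_, fun _ => ⟨fun i j => ?_, fun i j c' hc' hne => ?_⟩⟩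
      · refine Submodule.add_mem _ (Submodule.subset_span (Or.inl ?_))
          (Submodule.sum_mem _ (fun j0 _ => Submodule.subset_span (Or.inr ?_)))
        · exact ⟨χ c, mem_RF.2 ⟨by have := hχ1 c; omega, hχ2 c⟩, κ0, h1, rfl⟩
        · exact ⟨S j0, hS1 j0, hS4 j0, hS5 j0, j0, rfl⟩
      · have h6 := congrFun (congrFun h4 i) j
        rw [h6]
        simp only [Pi.add_apply, Finset.sum_apply, eval_add, eval_mul, eval_C]
        rw [Finset.sum_ite_eq Finset.univ j (fun j0 => S j0 i), if_pos (Finset.mem_univ _),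
          hχ3 c hc, mul_one, hS2 j i]
      · simp only [Pi.add_apply, Finset.sum_apply, eval_add, eval_mul, eval_C]
        rw [Finset.sum_ite_eq Finset.univ j (fun j0 => S j0 i), if_pos (Finset.mem_univ _),
          hχ4 c c' hc' hne, mul_zero, hS3 j i c' hc' hne, add_zero]
    · exact ⟨0, Submodule.zero_mem _, fun h => absurd h hc⟩
  choose M hM1 hM2 using hcor
  -- the remainder
  have hMs : (∑ c ∈ F.roots.toFinset, M c) ∈ Submodule.span L (KS F f1 f2 k n) :=
    Submodule.sum_mem _ (fun c _ => hM1 c)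
  obtain ⟨hs0, hs1⟩ := SSX_.span_rel hMs
  have hrem : ∀ i j, F ^ 2 ∣ (r - ∑ c ∈ F.roots.toFinset, M c) i j := by
    intro i j
    refine hdv2 _ (fun c hc => ⟨?_, ?_⟩)
    · rw [Pi.sub_apply, Pi.sub_apply, eval_sub, Finset.sum_apply, Finset.sum_apply,
        eval_finsetSum, Finset.sum_eq_single c, (hM2 c hc).1 i j, sub_self]
      · intro c' hc' hne
        rw [Multiset.mem_toFinset, mem_roots hF0] at hc'
        exact (hM2 c' hc').2 i j c hc (Ne.symm hne)
      · intro h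
        refine absurd ?_ h
        rw [Multiset.mem_toFinset, mem_roots hF0]
        exact hc
    · exact hder _ ((RF F n).sub_mem (hr i j) (hs1 i j)) c hc
  choose ρ hρ using hrem
  have hρd : ∀ i j, (ρ i j).natDegree ≤ n - 2 * (2 * k - 3) := by
    intro i j
    refine SSX_.deg_of_mul_sq hF ?_
    rw [← hρ i j]
    exact (mem_RF.1 ((RF F n).sub_mem (hr i j) (hs1 i j))).1
  have hρ0 : ∑ i, ∑ j, ρ i j * muX f1 f2 i j = 0 := by
    have h1 : F ^ 2 * ∑ i, ∑ j, ρ i j * muX f1 f2 i j = 0 := by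
      simp only [Finset.mul_sum, ← mul_assoc]
      simp only [← hρ, Pi.sub_apply, sub_mul, Finset.sum_sub_distrib]
      rw [hr0, hs0, sub_zero]
    exact (mul_eq_zero.1 h1).resolve_left (pow_ne_zero 2 hF0)
  have hspan := hPLN L A f1 f2 k (n - 2 * (2 * k - 3)) hk hA hd1 hd2 hw (by omega) ρ hρd hρ0
  have hmap : SSX_.mulSq F k ρ ∈ Submodule.span L (KS F f1 f2 k n) := by
    have h1 := Submodule.mem_map_of_mem (f := SSX_.mulSq F k) hspan
    rw [Submodule.map_span] at h1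
    refine Submodule.span_mono ?_ h1
    rintro _ ⟨N, hN | hN, rfl⟩
    · obtain ⟨p, hp, κ, hκ, rfl⟩ := hN
      refine Or.inl ⟨F ^ 2 * p, SSX_.mem_RF_mul_sq hF (by omega) hp, κ, hκ, ?_⟩
      funext i j
      rw [SSX_.mulSq_apply]
      ring
    · obtain ⟨s, hs, h2, h3, j0, rfl⟩ := hN
      refine Or.inr ⟨fun i => F ^ 2 * s i, fun i => SSX_.mem_RF_mul_sq hF (by omega) (hs i), ?_, ?_,
        j0, ?_⟩
      · simp only [mul_assoc, ← Finset.mul_sum]
        rw [h2, mul_zero]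
      · simp only [mul_assoc, ← Finset.mul_sum]
        rw [h3, mul_zero]
      · funext i j
        rw [SSX_.mulSq_apply]
        simp only [mul_ite, mul_zero]
  have hfin : r = SSX_.mulSq F k ρ + ∑ c ∈ F.roots.toFinset, M c := by
    funext i j
    rw [Pi.add_apply, Pi.add_apply, SSX_.mulSq_apply, ← hρ i j, Pi.sub_apply, Pi.sub_apply,
      sub_add_cancel]
  rw [hfin]
  exact Submodule.add_mem _ hmap hMs

end Pool.Agent.RTB
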