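import Pool.Agent.RTB.SStmts

/-! Step 1 (cases A and B). -/

set_option autoImplicit false

open Polynomial

namespace Pool.Agent.RTB

namespace ST1_

variable {L : Type} [Field L]

theorem exists_lin (P : Submodule L L[X]) (T : L[X] →ₗ[L] L[X]) (q : L[X]) (hq : q ≠ 0)
    (h : ∀ ω ∈ P, ∃ w : L[X], T ω = q * w) :
    ∃ S : L[X] →ₗ[L] L[X], ∀ ω ∈ P, T ω = q * S ω := by
  choose s hs using h
  let S0 : P →ₗ[L] L[X] :=
    { toFun := fun ω => s ω.1 ω.2
      map_add' := fun a b => by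
        apply mul_left_cancel₀ hq
        rw [mul_add, ← hs, ← hs, ← hs, Submodule.coe_add, map_add]
      map_smul' := fun c a => by
        apply mul_left_cancel₀ hq
        rw [RingHom.id_apply, mul_smul_comm, ← hs, ← hs, Submodule.coe_smul, map_smul] }
  obtain ⟨S, hS⟩ := LinearMap.exists_extend S0
  refine ⟨S, fun ω hω => ?_⟩
  have h1 : S ω = S0 ⟨ω, hω⟩ := by
    rw [← hS]
    rfl
  rw [h1]
  exact hs ω hω

end ST1_

open ST1_ in
theorem st1_proof (hSP1 : Stmt_SP1) (hBEZ : Stmt_BEZ) (hRES : Stmt_RES) (hDGC : Stmt_DGC)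
    (hJPD : Stmt_JPD) (hPNX : Stmt_PNX) (_hHIN : Stmt_HIN) : Stmt_ST1 := by
  intro L _ _ _ F f1 f2 l w0 k D P hk hF hP hfd hcop hw0 hD hkD hdeg hw0c htI hT
  have hw00 : w0 ≠ 0 := by
    rintro rfl
    simp only [natDegree_zero] at hD
    omega
  obtain ⟨-, hX2, hX3, hX4, hX5⟩ := hPNX L F f1 f2 l k (by omega) hF hP
  obtain ⟨N1, hN1⟩ := hSP1 L F f1 f2 w0 k D (2 * k - 3) P hF hw0 hD hw00 hdeg hw0c htI
  obtain ⟨N2, hN2⟩ := hBEZ L F F f1 f2 w0 1 k D P hF.mon.ne_zero hcop hfd hw0 hD (by omega) hw0c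
    isCoprime_one_left
  refine ⟨max N1 N2, fun N hN γ wh hγ hwh hR => ?_⟩
  have h1 := hN1 N (le_trans (le_max_left _ _) hN) γ wh hγ hwh hR
  obtain ⟨W, hW⟩ := exists_lin P wh γ hγ (fun ω hω => by
    obtain ⟨w, hw, -⟩ := h1 ω hω
    exact ⟨w, hw⟩)
  have hWp : ∀ ω ∈ P, (W ω).natDegree ≤ k + D ∧
      ∀ c, F.eval c = 0 → (tI P c ∨ (ω.eval c = 0 ∧ (derivative ω).eval c = 0)) →
        Jc f1 f2 w0 (W ω) c := by
    intro ω hω
    obtain ⟨w, hw, hd, hJ⟩ := h1 ω hω
    have : w = W ω := by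
      apply mul_left_cancel₀ hγ
      rw [← hw, hW ω hω]
    rw [← this]
    exact ⟨hd, hJ⟩
  obtain ⟨C0, hC0, hC0'⟩ := hN2 N (le_trans (le_max_right _ _) hN) γ wh hγ hR (fun ω hω =>
    ⟨W ω, by rw [one_mul]; exact hW ω hω⟩)
  have hdiv : ∀ ω ∈ P, w0 ∣ W ω - C0 * ω := by
    intro ω hω
    have := hC0' ω hω (W ω) (by rw [one_mul]; exact hW ω hω)
    rwa [one_mul] at this
  have hres := hRES L F f1 f2 w0 C0 (2 * k - 3) k (3 * k - 8) D P (DlSp F l f1 f2 (k - 2)) W hF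
    (by omega) (by omega) hD (by omega) hw0c
    (by
      intro m hm
      obtain ⟨v, hv, rfl⟩ := mem_DlSp.1 hm
      exact ⟨hX3 v hv, fun c hc f hf => hX4 v c hc f hf⟩)
    (by
      intro c hc e1 e2
      refine ⟨(hX2 c e1 e2).2.2.1, ?_⟩
      intro m hm
      obtain ⟨v, hv, rfl⟩ := mem_DlSp.1 hm
      exact hX5 v c e1 e2)
    (fun ω hω => ⟨(hWp ω hω).1, hdiv ω hω⟩)
    (by
      intro c hc
      by_cases ht : tI P c
      · exact Or.inl fun ω hω => (hWp ω hω).2 c hc (Or.inl ht)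
      · refine Or.inr ⟨(htI c hc).resolve_left ht, ?_, ?_⟩
        · rw [hP.hw, eval_mul, hc, zero_mul]
        · intro ω hω e1 e2
          exact (hWp ω hω).2 c hc (Or.inr ⟨e1, e2⟩))
  have hC0k : C0.natDegree ≤ k := by
    have h2 := hDGC L w0 C0 D (D - 2 - k) hD hC0 (by omega) (by
      intro j hj
      exact hres (X ^ j) (hT (X ^ j) (by rw [natDegree_X_pow]; exact hj)))
    omega
  -- the map ν
  obtain ⟨ν, hν⟩ := exists_lin P (W - LinearMap.mulLeft L C0) w0 hw00 (fun ω hω => by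
    obtain ⟨w, hw⟩ := hdiv ω hω
    exact ⟨w, by rw [LinearMap.sub_apply, LinearMap.mulLeft_apply]; exact hw⟩)
  have hν' : ∀ ω ∈ P, W ω = w0 * ν ω + C0 * ω := by
    intro ω hω
    have := hν ω hω
    rw [LinearMap.sub_apply, LinearMap.mulLeft_apply] at this
    rw [← this]
    ring
  have hW0 : W w0 = 0 := by
    have := hW w0 hw0
    rw [hwh] at this
    exact (mul_eq_zero.1 this.symm).resolve_left hγ
  have hνw0 : ν w0 = -C0 := by
    have h2 := hν' w0 hw0
    rw [hW0] at h2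
    apply mul_left_cancel₀ hw00
    linear_combination -h2
  refine ⟨ν, ?_, ?_⟩
  · intro ω hω
    constructor
    · by_cases h0 : ν ω = 0
      · rw [h0]
        simp
      · have h2 : (w0 * ν ω).natDegree ≤ k + D := by
          have h3 : w0 * ν ω = W ω - C0 * ω := by
            rw [hν' ω hω]
            ring
          rw [h3]
          refine (natDegree_sub_le _ _).trans (max_le (hWp ω hω).1 ?_)
          refine natDegree_mul_le.trans ?_
          have := hdeg ω hω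
          omega
        rw [natDegree_mul hw00 h0, hD] at h2
        omega
    · rw [hνw0, hW ω hω, hν' ω hω]
      ring
  · intro c hc ht
    exact hJPD L F f1 f2 l w0 C0 k P ν c (by omega) hF hP hc (hw0c c hc) hw0 ht (fun ω hω => by
      rw [← hν' ω hω]
      exact (hWp ω hω).2 c hc (Or.inl ht))

end Pool.Agent.RTB
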