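import Pool.Agent.RTB.SStmts

/-!
# squad RTB, module SUR: surjectivity with degree control
-/

set_option autoImplicit false

open Polynomial

namespace Pool.Agent.RTB

namespace SUR_

variable {L : Type} [Field L]

theorem wr_natDegree [CharZero L] {a b : L[X]} (ha : 1 ≤ a.natDegree) (hb : 1 ≤ b.natDegree)
    (h : a.natDegree ≠ b.natDegree) : (wr a b).natDegree + 1 = a.natDegree + b.natDegree := by
  have ha0 : a ≠ 0 := by rintro rfl; simp at ha
  have hb0 : b ≠ 0 := by rintro rfl; simp at hb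
  obtain ⟨α, hα⟩ : ∃ α, a.natDegree = α + 1 := ⟨a.natDegree - 1, by omega⟩
  obtain ⟨β, hβ⟩ : ∃ β, b.natDegree = β + 1 := ⟨b.natDegree - 1, by omega⟩
  have hda : (derivative a).natDegree ≤ α := by
    have := natDegree_derivative_le a
    omega
  have hdb : (derivative b).natDegree ≤ β := by
    have := natDegree_derivative_le b
    omega
  have c1 : (a * derivative b).coeff (α + 1 + β) = a.leadingCoeff * (b.leadingCoeff * (β + 1)) := by
    rw [coeff_mul_add_eq_of_natDegree_le (by omega) hdb, coeff_derivative]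
    simp only [leadingCoeff, hα, hβ]
  have c2 : (derivative a * b).coeff (α + (β + 1)) = a.leadingCoeff * (α + 1) * b.leadingCoeff := by
    rw [coeff_mul_add_eq_of_natDegree_le hda (by omega), coeff_derivative]
    simp only [leadingCoeff, hα, hβ]
  have c3 : (wr a b).coeff (α + β + 1) = (a.leadingCoeff * b.leadingCoeff) * ((β : L) - α) := by
    rw [wr, coeff_sub, show α + β + 1 = α + 1 + β by ring, c1,
      show α + 1 + β = α + (β + 1) by ring, c2]
    ring
  have hne : (wr a b).coeff (α + β + 1) ≠ 0 := by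
    rw [c3]
    refine mul_ne_zero (mul_ne_zero (leadingCoeff_ne_zero.mpr ha0) (leadingCoeff_ne_zero.mpr hb0))
      (sub_ne_zero.mpr ?_)
    intro hh
    have : β = α := by exact_mod_cast hh
    omega
  have h1 := le_natDegree_of_ne_zero hne
  have h2 : (wr a b).natDegree ≤ α + β + 1 := by
    rw [wr]
    refine le_trans (natDegree_sub_le _ _) (max_le ?_ ?_)
    · exact le_trans natDegree_mul_le (by omega)
    · exact le_trans natDegree_mul_le (by omega)
  omega

theorem sum_repr {k : ℕ} {v : L[X]} (hk : 1 ≤ k) (hv : v.natDegree ≤ k - 1) :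
    ∑ i : Fin k, C (v.coeff i) * X ^ (i : ℕ) = v := by
  rw [Fin.sum_univ_eq_sum_range (fun i => C (v.coeff i) * X ^ i) k]
  exact (as_sum_range_C_mul_X_pow' v (by omega)).symm

theorem Dh_sum {f1 f2 : L[X]} {k : ℕ} {v : L[X]} (hk : 1 ≤ k) (hv : v.natDegree ≤ k - 1) :
    ∑ i : Fin k, C (v.coeff i) * Dh f1 f2 (X ^ (i : ℕ)) = Dh f1 f2 v := by
  have h : DhLin f1 f2 v = DhLin f1 f2 (∑ i : Fin k, C (v.coeff i) * X ^ (i : ℕ)) := by
    rw [sum_repr hk hv]
  have h2 : DhLin f1 f2 v = Dh f1 f2 v := rfl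
  rw [← h2, h, map_sum]
  refine Finset.sum_congr rfl fun i _ => ?_
  rw [← smul_eq_C_mul, ← smul_eq_C_mul, map_smul]
  rfl

end SUR_

open SUR_

theorem sur_proof (hLBE : Stmt_LBE) (hWDG : Stmt_WDG) (hHIN : Stmt_HIN) (_hWZR : Stmt_WZR) :
    Stmt_SUR := by
  intro L _ _ _ A f1 f2 k hk hA hd1 hd2 hw
  obtain ⟨-, hsep, -⟩ := hHIN L A (2 * k - 4) hA
  have hk1 : 1 ≤ k := by omega
  have hAdeg : A.natDegree = 2 * k - 4 := hA.deg
  have hA0 : A ≠ 0 := hA.mon.ne_zero
  -- no common root
  have hcop : ∀ c : L, f1.eval c ≠ 0 ∨ f2.eval c ≠ 0 := by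
    intro c
    by_contra hcon
    push Not at hcon
    have h1 : A.eval c = 0 := by
      rw [← hw, wr, eval_sub, eval_mul, eval_mul, hcon.1, hcon.2]; ring
    have h2 : (derivative A).eval c = 0 := by
      rw [← hw, wr, derivative_sub, derivative_mul, derivative_mul]
      simp only [eval_sub, eval_add, eval_mul, hcon.1, hcon.2]; ring
    exact hsep c h1 h2
  -- one of them has degree `k - 1`
  have htop : f1.natDegree = k - 1 ∨ f2.natDegree = k - 1 := by
    by_contra hcon
    push Not at hcon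
    have h := (hWDG L (k - 2) f1 f2 0 (by omega) (by omega) (by simp)).1
    rw [hw, hAdeg] at h
    omega
  -- first module
  have hfin1 : FiniteDimensional L (Submodule.span L {f1, f2} : Submodule L L[X]) :=
    FiniteDimensional.span_of_finite L (Set.toFinite _)
  have hspan : ∀ u ∈ (Submodule.span L {f1, f2} : Submodule L L[X]), ∃ a b : L,
      u = C a * f1 + C b * f2 := by
    intro u hu
    rw [Submodule.mem_span_pair] at hu
    obtain ⟨a, b, rfl⟩ := hu
    exact ⟨a, b, by rw [smul_eq_C_mul, smul_eq_C_mul]⟩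
  have hm1 : f1 ∈ (Submodule.span L {f1, f2} : Submodule L L[X]) :=
    Submodule.subset_span (by simp)
  have hm2 : f2 ∈ (Submodule.span L {f1, f2} : Submodule L L[X]) :=
    Submodule.subset_span (by simp)
  obtain ⟨m1, hm1'⟩ := hLBE L (k - 1) (Submodule.span L {f1, f2}) hfin1
    (by
      intro c
      rcases hcop c with h | h
      · exact ⟨f1, hm1, h⟩
      · exact ⟨f2, hm2, h⟩)
    (by
      intro u hu
      obtain ⟨a, b, rfl⟩ := hspan u hu
      refine le_trans (natDegree_add_le _ _) (max_le ?_ ?_)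
      · exact le_trans (natDegree_C_mul_le _ _) hd1
      · exact le_trans (natDegree_C_mul_le _ _) hd2)
    (by
      rcases htop with h | h
      · exact ⟨f1, hm1, h⟩
      · exact ⟨f2, hm2, h⟩)
  -- second module
  have hfinPL : FiniteDimensional L (PL L (k - 1)) := by
    have : PL L (k - 1) ≤ degreeLT L k := by
      intro p hp
      rw [mem_degreeLT]
      rw [mem_PL] at hp
      exact lt_of_le_of_lt (degree_le_of_natDegree_le hp) (by exact_mod_cast (by omega))
    have hf : FiniteDimensional L (degreeLT L k) :=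
      Module.Finite.equiv (degreeLTEquiv L k).symm
    exact Submodule.finiteDimensional_of_le this
  have hfin2 : FiniteDimensional L (DhSp f1 f2 (k - 1)) := by
    unfold DhSp
    infer_instance
  have hcop2 : coprimeFam (DhSp f1 f2 (k - 1)) := by
    intro c
    by_cases hc : A.eval c = 0
    · have key : ∀ f : L[X], f * Dh f1 f2 (X - C c) = wr (wr f1 f2) (wr f (X - C c)) →
          f.eval c ≠ 0 → (Dh f1 f2 (X - C c)).eval c ≠ 0 := by
        intro f hf hfc h0
        have h1 := congrArg (eval c) hf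
        rw [eval_mul, h0, mul_zero, hw] at h1
        have h2 : (wr A (wr f (X - C c))).eval c = - ((derivative A).eval c * f.eval c) := by
          rw [wr, eval_sub, eval_mul, hc, zero_mul, eval_mul, wr, eval_sub, eval_mul, eval_mul]
          simp
        rw [h2] at h1
        have h3 : (derivative A).eval c * f.eval c = 0 := by
          have := h1.symm
          rwa [neg_eq_zero] at this
        rcases mul_eq_zero.mp h3 with h | h
        · exact hsep c hc h
        · exact hfc h
      refine ⟨Dh f1 f2 (X - C c), mem_DhSp.mpr ⟨X - C c, ?_, rfl⟩, ?_⟩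
      · rw [natDegree_X_sub_C]; omega
      · rcases hcop c with h | h
        · exact key f1 (key1 f1 f2 _) h
        · exact key f2 (key2 f1 f2 _) h
    · refine ⟨Dh f1 f2 ((X - C c) ^ 2), mem_DhSp.mpr ⟨(X - C c) ^ 2, ?_, rfl⟩, ?_⟩
      · refine le_trans (natDegree_pow_le) ?_
        rw [natDegree_X_sub_C]; omega
      · have e2 : derivative (2 : L[X]) = 0 := by simp
        have h1 : derivative ((X - C c) ^ 2) = 2 * (X - C c) := by
          rw [pow_two, derivative_mul, derivative_sub, derivative_X, derivative_C]; ring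
        have h2 : derivative (derivative ((X - C c) ^ 2)) = (2 : L[X]) := by
          rw [h1, derivative_mul, derivative_sub, derivative_X, derivative_C, e2]; ring
        have h3 : (Dh f1 f2 ((X - C c) ^ 2)).eval c = 2 * A.eval c := by
          rw [Dh, hw, h2, h1]
          simp only [eval_add, eval_sub, eval_mul, eval_pow, eval_X, eval_C, sub_self]
          simp
          ring
        rw [h3]
        exact mul_ne_zero two_ne_zero hc
  have hdeg2 : ∀ u ∈ DhSp f1 f2 (k - 1), u.natDegree ≤ 3 * k - 9 := by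
    intro u hu
    obtain ⟨m, hm, rfl⟩ := mem_DhSp.mp hu
    have := (hWDG L (k - 1) f1 f2 m hd1 hd2 hm).2
    omega
  have hatt2 : ∃ u ∈ DhSp f1 f2 (k - 1), u.natDegree = 3 * k - 9 := by
    have key : ∀ f : L[X], f * Dh f1 f2 (X ^ (k - 3)) = wr (wr f1 f2) (wr f (X ^ (k - 3))) →
        f.natDegree = k - 1 → (Dh f1 f2 (X ^ (k - 3))).natDegree = 3 * k - 9 := by
      intro f hf hfd
      have hX : (X ^ (k - 3) : L[X]).natDegree = k - 3 := natDegree_X_pow _
      have h1 := wr_natDegree (a := f) (b := X ^ (k - 3)) (by omega) (by omega) (by omega)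
      rw [hw] at hf
      have h2 := wr_natDegree (a := A) (b := wr f (X ^ (k - 3))) (by omega) (by omega) (by omega)
      rw [← hf] at h2
      have hf0 : f ≠ 0 := by rintro rfl; simp at hfd; omega
      have hD0 : Dh f1 f2 (X ^ (k - 3)) ≠ 0 := by
        intro h0
        rw [h0, mul_zero, natDegree_zero] at h2
        omega
      rw [natDegree_mul hf0 hD0] at h2
      omega
    refine ⟨Dh f1 f2 (X ^ (k - 3)), mem_DhSp.mpr ⟨X ^ (k - 3), ?_, rfl⟩, ?_⟩
    · rw [natDegree_X_pow]; omega
    · rcases htop with h | h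
      · exact key f1 (key1 f1 f2 _) h
      · exact key f2 (key2 f1 f2 _) h
  obtain ⟨m2, hm2'⟩ := hLBE L (3 * k - 9) (DhSp f1 f2 (k - 1)) hfin2 hcop2 hdeg2 hatt2
  refine ⟨max m1 m2, fun m hm x0 x1 hx0 hx1 => ?_⟩
  have e2 : x1 ∈ PL L m * DhSp f1 f2 (k - 1) := by
    apply hm2' m (le_trans (le_max_right _ _) hm)
    rw [mem_PL]
    omega
  have e2' : ∃ x : Fin k → L[X], (∀ i, (x i).natDegree ≤ m) ∧
      ∑ i, x i * Dh f1 f2 (X ^ (i : ℕ)) = x1 := by
    refine Submodule.mul_induction_on e2 ?_ ?_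
    · intro p hp u hu
      obtain ⟨v, hv, rfl⟩ := mem_DhSp.mp hu
      refine ⟨fun i => p * C (v.coeff i), fun i => ?_, ?_⟩
      · exact le_trans (natDegree_mul_C_le _ _) (mem_PL.mp hp)
      · rw [← Dh_sum hk1 hv, Finset.mul_sum]
        exact Finset.sum_congr rfl fun i _ => by ring
    · rintro a b ⟨x, hx, rfl⟩ ⟨y, hy, rfl⟩
      refine ⟨fun i => x i + y i, fun i => ?_, ?_⟩
      · exact le_trans (natDegree_add_le _ _) (max_le (hx i) (hy i))
      · rw [← Finset.sum_add_distrib]
        exact Finset.sum_congr rfl fun i _ => by ring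
  obtain ⟨x, hxd, hxs⟩ := e2'
  have e1 : x0 - ∑ i, x i * X ^ (i : ℕ) ∈ PL L m * Submodule.span L {f1, f2} := by
    apply hm1' m (le_trans (le_max_left _ _) hm)
    rw [mem_PL]
    refine le_trans (natDegree_sub_le _ _) (max_le (by omega) ?_)
    refine natDegree_sum_le_of_forall_le _ _ fun i _ => ?_
    refine le_trans natDegree_mul_le ?_
    rw [natDegree_X_pow]
    have := hxd i
    have := i.isLt
    omega
  have e1' : ∃ p q : L[X], p.natDegree ≤ m ∧ q.natDegree ≤ m ∧
      p * f1 + q * f2 = x0 - ∑ i, x i * X ^ (i : ℕ) := by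
    refine Submodule.mul_induction_on e1 ?_ ?_
    · intro p hp u hu
      obtain ⟨a, b, rfl⟩ := hspan u hu
      refine ⟨p * C a, p * C b, ?_, ?_, by ring⟩
      · exact le_trans (natDegree_mul_C_le _ _) (mem_PL.mp hp)
      · exact le_trans (natDegree_mul_C_le _ _) (mem_PL.mp hp)
    · rintro a b ⟨p, q, hp, hq, rfl⟩ ⟨p', q', hp', hq', rfl⟩
      exact ⟨p + p', q + q', le_trans (natDegree_add_le _ _) (max_le hp hp'),
        le_trans (natDegree_add_le _ _) (max_le hq hq'), by ring⟩
  obtain ⟨p, q, hp, hq, hpq⟩ := e1'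
  refine ⟨fun i => x i + p * C (f1.coeff i) + q * C (f2.coeff i), fun i => ?_, ?_, ?_⟩
  · refine le_trans (natDegree_add_le _ _) (max_le (le_trans (natDegree_add_le _ _)
      (max_le (hxd i) ?_)) ?_)
    · exact le_trans (natDegree_mul_C_le _ _) hp
    · exact le_trans (natDegree_mul_C_le _ _) hq
  · have h1 : ∑ i : Fin k, (x i + p * C (f1.coeff i) + q * C (f2.coeff i)) * X ^ (i : ℕ)
        = ∑ i : Fin k, x i * X ^ (i : ℕ) + p * ∑ i : Fin k, C (f1.coeff i) * X ^ (i : ℕ)
          + q * ∑ i : Fin k, C (f2.coeff i) * X ^ (i : ℕ) := by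
      rw [Finset.mul_sum, Finset.mul_sum, ← Finset.sum_add_distrib, ← Finset.sum_add_distrib]
      exact Finset.sum_congr rfl fun i _ => by ring
    rw [h1, sum_repr hk1 hd1, sum_repr hk1 hd2, add_assoc, hpq]
    ring
  · have h1 : ∑ i : Fin k, (x i + p * C (f1.coeff i) + q * C (f2.coeff i))
          * Dh f1 f2 (X ^ (i : ℕ))
        = ∑ i : Fin k, x i * Dh f1 f2 (X ^ (i : ℕ))
          + p * ∑ i : Fin k, C (f1.coeff i) * Dh f1 f2 (X ^ (i : ℕ))
          + q * ∑ i : Fin k, C (f2.coeff i) * Dh f1 f2 (X ^ (i : ℕ)) := by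
      rw [Finset.mul_sum, Finset.mul_sum, ← Finset.sum_add_distrib, ← Finset.sum_add_distrib]
      exact Finset.sum_congr rfl fun i _ => by ring
    rw [h1, Dh_sum hk1 hd1, Dh_sum hk1 hd2, Dh_self1, Dh_self2, hxs]
    ring

end Pool.Agent.RTB
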