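import Pool.Agent.RTB.KStmts

/-!
# squad RTB, module THA: Theorem K, rank 1 alternative
-/

set_option autoImplicit false

open Polynomial

namespace Pool.Agent.RTB

theorem tha_proof (hR1T : Stmt_R1T) : Stmt_THA := by
  intro Kf Lf κ _ _ _ _ _ _ _ _ k O red β F βF hk hctx hD
  obtain ⟨U, hU, hfr, hle⟩ := hD
  obtain ⟨γ, U1, D, _, _, _, _, _, _, _, hBN, N0, hN0⟩ :=
    hR1T Kf Lf κ (2 * k - 3) O red β F βF (by omega) hctx (3 * (2 * k - 3)) k U hU hfr (by omega)
  obtain ⟨h1, h2⟩ := hN0 (max N0 (2 * (2 * k - 3))) (le_max_left _ _)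
  have h3 := hle (max N0 (2 * (2 * k - 3))) (le_max_right _ _)
  generalize (sig F U1).card = s at h1 hBN
  have h4 : D + s + 1 ≤ 2 * k - 3 := by omega
  have h5 : (k - 1) * s ≤ k * s := Nat.mul_le_mul_right _ (by omega)
  have h6 : k * (D + 1) + k * s ≤ k * (2 * k - 3) := by
    rw [← mul_add]; exact Nat.mul_le_mul_left _ (by omega)
  have h7 : (k - 1) * (2 * k - 3) + (2 * k - 3) = k * (2 * k - 3) := by
    have : k - 1 + 1 = k := by omega
    calc (k - 1) * (2 * k - 3) + (2 * k - 3) = (k - 1 + 1) * (2 * k - 3) := by ring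
      _ = k * (2 * k - 3) := by rw [this]
  have h8 : 9 * k ≤ k * k := Nat.mul_le_mul_right _ hk
  omega

end Pool.Agent.RTB
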