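import Pool.Agent.RTB.KStmts

/-!
# squad RTB: Theorem K (assembly of part K)
-/

set_option autoImplicit false

open Polynomial

namespace Pool.Agent.RTB

theorem thk_proof (hKNU : Stmt_KNU) (hSFT : Stmt_SFT) (hEXT : Stmt_EXT) (hFI1 : Stmt_FI1)
    (hFI2 : Stmt_FI2) : Stmt_THK := by
  intro Kf Lf κ _ _ _ _ _ _ _ _ k O red β F βF hk hctx s f hD
  obtain ⟨e, t, j0, γN, γP, a, b, n0, hA⟩ := hKNU Kf Lf κ k O red β F βF hk hctx s f hD
  have hLam : Module.finrank κ (Submodule.span κ (Set.range a)) = 2 := by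
    rw [finrank_span_eq_card hA.inda, Fintype.card_fin]
  have hP : Module.finrank κ (Submodule.span κ (Set.range b)) = k - 2 := by
    rw [finrank_span_eq_card hA.indb, Fintype.card_fin]
  have hw0 : b j0 ∈ Submodule.span κ (Set.range b) := Submodule.subset_span ⟨j0, rfl⟩
  obtain ⟨N0, hN0⟩ := hSFT κ F (b j0) k (Submodule.span κ (Set.range a))
    (Submodule.span κ (Set.range b)) hk hctx.ff hLam hP hA.cpa hA.cpb hA.sga hA.sgb
    hA.dga hA.dgb hw0 hA.w0d hA.w0r
  obtain ⟨c, τ, q, wh, hE⟩ := hEXT Kf Lf κ k O red β F βF hk hctx s f hD e t j0 γN γP a b n0 hA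
    (max N0 (max n0 (3 * (2 * k - 3))))
    (le_trans (le_max_left n0 (3 * (2 * k - 3))) (le_max_right _ _))
    (le_trans (le_max_right n0 (3 * (2 * k - 3))) (le_max_right _ _))
  have hwh0 : wh (b j0) = 0 := by
    have h1 := hE.cyc j0 j0
    rw [sub_self] at h1
    rcases mul_eq_zero.mp h1 with h | h
    · exact absurd h (hA.indb.ne_zero j0)
    · rw [hE.whq, h]
  rcases hN0 _ (le_max_left _ _) (γN * γP) wh (mul_ne_zero hA.γN0 hA.γP0) hwh0 hE.rps hE.nt
    with h | h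
  · exact hFI1 Kf Lf κ k O red β F βF hk hctx s f hD e t j0 γN γP a b n0 hA _ c τ q wh hE h
  · exact hFI2 Kf Lf κ k O red β F βF hk hctx s f hD e t j0 γN γP a b n0 hA _ c τ q wh hE h

end Pool.Agent.RTB
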