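import Pool.Agent.RTB.SStmts

set_option autoImplicit false

open Polynomial

namespace Pool.Agent.RTB

namespace TNA_

section
variable {L : Type} [Field L]

theorem Dh_add (f1 f2 a b : L[X]) : Dh f1 f2 (a + b) = Dh f1 f2 a + Dh f1 f2 b :=
  (DhLin f1 f2).map_add a b

theorem Dh_C_mul (f1 f2 : L[X]) (c : L) (a : L[X]) : Dh f1 f2 (C c * a) = C c * Dh f1 f2 a := by
  have := (DhLin f1 f2).map_smul c a
  simpa only [smul_eq_C_mul, DhLin, LinearMap.coe_mk, AddHom.coe_mk] using this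

theorem Dl_C_mul (F l f1 f2 : L[X]) (c : L) (a : L[X]) :
    Dl F l f1 f2 (C c * a) = C c * Dl F l f1 f2 a := by
  have := (DlLin F l f1 f2).map_smul c a
  simpa only [smul_eq_C_mul, DlLin, LinearMap.coe_mk, AddHom.coe_mk] using this

theorem Dh_neg (f1 f2 a : L[X]) : Dh f1 f2 (-a) = - Dh f1 f2 a :=
  (DhLin f1 f2).map_neg a

theorem Dh_sub (f1 f2 a b : L[X]) : Dh f1 f2 (a - b) = Dh f1 f2 a - Dh f1 f2 b :=
  (DhLin f1 f2).map_sub a b

/-- products of values -/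
theorem mul_mem_DD {F l f1 f2 l' g1 g2 : L[X]} {n : ℕ} {p q : L[X]}
    (hp : p.natDegree ≤ n) (hq : q.natDegree ≤ n) :
    Dl F l f1 f2 p * Dl F l' g1 g2 q ∈ DlSp F l f1 f2 n * DlSp F l' g1 g2 n :=
  Submodule.mul_mem_mul (mem_DlSp.2 ⟨p, hp, rfl⟩) (mem_DlSp.2 ⟨q, hq, rfl⟩)

theorem nat_mul_mem {V : Submodule L L[X]} {p : L[X]} (n : L) (h : p ∈ V) : C n * p ∈ V := by
  rw [← smul_eq_C_mul]; exact V.smul_mem n h

theorem mem_of_C_mul_mem {V : Submodule L L[X]} {p : L[X]} {c : L} (hc : c ≠ 0)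
    (h : C c * p ∈ V) : p ∈ V := by
  have := nat_mul_mem c⁻¹ h
  rwa [← mul_assoc, ← C_mul, inv_mul_cancel₀ hc, C_1, one_mul] at this

/-- monomials in a monic `T` of degree 1 span -/
theorem span_of_pow {V : Submodule L L[X]} {G T : L[X]} (hT : T.Monic) (hT1 : T.natDegree = 1) :
    ∀ N : ℕ, (∀ s ≤ N, G * T ^ s ∈ V) → ∀ u : L[X], u.natDegree ≤ N → G * u ∈ V := by
  intro N
  induction N with
  | zero =>
    intro h u hu
    rw [eq_C_of_natDegree_le_zero hu, mul_comm, ← mul_one G]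
    have := nat_mul_mem (u.coeff 0) (h 0 le_rfl)
    simpa using this
  | succ N ih =>
    intro h u hu
    have hmon : (T ^ (N + 1)).Monic := hT.pow _
    have hdeg : (T ^ (N + 1)).natDegree = N + 1 := by
      rw [hT.natDegree_pow, hT1, mul_one]
    have h1 : (u - C (u.coeff (N + 1)) * T ^ (N + 1)).natDegree ≤ N := by
      rw [natDegree_le_iff_coeff_eq_zero]
      intro m hm
      rw [coeff_sub, coeff_C_mul]
      rcases Nat.lt_or_ge (N + 1) m with h2 | h2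
      · have h6 : u.coeff m = 0 := coeff_eq_zero_of_natDegree_lt (lt_of_le_of_lt hu h2)
        have h7 : (T ^ (N + 1)).coeff m = 0 :=
          coeff_eq_zero_of_natDegree_lt (by rw [hdeg]; exact h2)
        rw [h6, h7, mul_zero, sub_zero]
      · have : m = N + 1 := by omega
        subst this
        have h3 : (T ^ (N + 1)).coeff (N + 1) = 1 := by
          have := hmon.coeff_natDegree
          rwa [hdeg] at this
        rw [h3, mul_one, sub_self]
    have h2 := ih (fun s hs => h s (by omega)) _ h1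
    have h3 := nat_mul_mem (u.coeff (N + 1)) (h (N + 1) le_rfl)
    have h4 := V.add_mem h2 h3
    have h5 : G * (u - C (u.coeff (N + 1)) * T ^ (N + 1))
        + C (u.coeff (N + 1)) * (G * T ^ (N + 1)) = G * u := by ring
    rwa [h5] at h4

/-- the basic membership -/
theorem basic {F f1 f2 l g1 g2 l' T : L[X]} {k : ℕ} (hk : 9 ≤ k)
    (hf : PN F k f1 f2 l) (hg : PN F k g1 g2 l') (hT : derivative T = 1) (hT1 : T.natDegree ≤ 1)
    (m1 m2 : L[X]) (h1 : m1.natDegree ≤ k - 5) (h2 : m2.natDegree ≤ k - 5) :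
    F ^ 2 * (18 * (derivative l * l' - l * derivative l') * (m1 * m2)
      + 12 * (l * l') * (derivative m1 * m2 - m1 * derivative m2))
      ∈ DlSp F l f1 f2 (k - 2) * DlSp F l' g1 g2 (k - 2) := by
  have hl := der2_of_natDegree_le_one hf.dl
  have hl' := der2_of_natDegree_le_one hg.dl
  have hd : ∀ (j : ℕ) (m : L[X]), j ≤ 3 → m.natDegree ≤ k - 5 →
      (T ^ j * m).natDegree ≤ k - 2 := by
    intro j m hj hm
    refine (natDegree_mul_le).trans ?_
    have : (T ^ j).natDegree ≤ j := by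
      refine natDegree_pow_le.trans ?_
      calc j * T.natDegree ≤ j * 1 := Nat.mul_le_mul_left _ hT1
        _ = j := mul_one _
    omega
  have key := T3_identity f1 f2 g1 g2 T (l ^ 2 * m1) (l' ^ 2 * m2) hT
  have e1 : ∀ (j : ℕ), Dh f1 f2 (T ^ j * (l ^ 2 * m1)) = l ^ 2 * Dl F l f1 f2 (T ^ j * m1) := by
    intro j
    rw [← Dh_eq_Dl hf.hw hl]; congr 1; ring
  have e2 : ∀ (j : ℕ), Dh g1 g2 (T ^ j * (l' ^ 2 * m2)) = l' ^ 2 * Dl F l' g1 g2 (T ^ j * m2) := by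
    intro j
    rw [← Dh_eq_Dl hg.hw hl']; congr 1; ring
  have e10 := e1 0
  have e11 := e1 1
  have e12 := e1 2
  have e13 := e1 3
  have e20 := e2 0
  have e21 := e2 1
  have e22 := e2 2
  have e23 := e2 3
  simp only [pow_zero, one_mul, pow_one] at e10 e11 e20 e21
  rw [e10, e11, e12, e13, e20, e21, e22, e23] at key
  have d1 : derivative (l ^ 2 * m1) = 2 * (l * derivative l) * m1 + l ^ 2 * derivative m1 := by
    rw [pow_two, derivative_mul, derivative_mul]; ring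
  have d2 : derivative (l' ^ 2 * m2) = 2 * (l' * derivative l') * m2 + l' ^ 2 * derivative m2 := by
    rw [pow_two, derivative_mul, derivative_mul]; ring
  rw [d1, d2, hf.hw, hg.hw] at key
  have d3 : derivative (F * l) = derivative F * l + F * derivative l := derivative_mul
  have d4 : derivative (F * l') = derivative F * l' + F * derivative l' := derivative_mul
  rw [d3, d4] at key
  have hne : l ^ 2 * l' ^ 2 ≠ 0 := mul_ne_zero (pow_ne_zero 2 hf.l0) (pow_ne_zero 2 hg.l0)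
  have key2 : F ^ 2 * (18 * (derivative l * l' - l * derivative l') * (m1 * m2)
      + 12 * (l * l') * (derivative m1 * m2 - m1 * derivative m2))
      = Dl F l f1 f2 (T ^ 3 * m1) * Dl F l' g1 g2 m2
        - 3 * (Dl F l f1 f2 (T ^ 2 * m1) * Dl F l' g1 g2 (T * m2))
        + 3 * (Dl F l f1 f2 (T * m1) * Dl F l' g1 g2 (T ^ 2 * m2))
        - Dl F l f1 f2 m1 * Dl F l' g1 g2 (T ^ 3 * m2) := by
    apply mul_left_cancel₀ hne
    linear_combination -key
  rw [key2]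
  have c3 : (3 : L[X]) = C 3 := (map_ofNat C 3).symm
  have hT2 := hd 1 m2 (by norm_num) h2
  have hT1' := hd 1 m1 (by norm_num) h1
  rw [pow_one] at hT2 hT1'
  rw [c3]
  refine Submodule.sub_mem _ (Submodule.add_mem _ (Submodule.sub_mem _ ?_ ?_) ?_) ?_
  · exact mul_mem_DD (hd 3 m1 le_rfl h1) (by omega)
  · exact nat_mul_mem _ (mul_mem_DD (hd 2 m1 (by norm_num) h1) hT2)
  · exact nat_mul_mem _ (mul_mem_DD hT1' (hd 2 m2 (by norm_num) h2))
  · exact mul_mem_DD (by omega) (hd 3 m2 le_rfl h2)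

/-- divisibility by `(X - q)^2` -/
theorem sq_dvd {p : L[X]} {q : L} (h0 : p.eval q = 0) (h1 : (derivative p).eval q = 0) :
    (X - C q) ^ 2 ∣ p := by
  obtain ⟨r, rfl⟩ := dvd_iff_isRoot.2 h0
  rw [derivative_mul, eval_add, eval_mul, eval_mul] at h1
  simp only [derivative_sub, derivative_X, derivative_C, sub_zero, eval_one, one_mul, eval_sub,
    eval_X, eval_C, sub_self, zero_mul, add_zero] at h1
  obtain ⟨t, rfl⟩ := dvd_iff_isRoot.2 h1
  exact ⟨t, by ring⟩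

variable [CharZero L]

/-- case `κ ≠ 0` -/
theorem case1 {F f1 f2 l g1 g2 l' : L[X]} {k : ℕ} (hk : 9 ≤ k)
    (hf : PN F k f1 f2 l) (hg : PN F k g1 g2 l') {κ : L} (hκ : κ ≠ 0)
    (hκ' : derivative l * l' - l * derivative l' = C κ)
    (u : L[X]) (hu : u.natDegree ≤ 2 * k - 10) :
    F ^ 2 * u ∈ DlSp F l f1 f2 (k - 2) * DlSp F l' g1 g2 (k - 2) := by
  refine span_of_pow (T := X) monic_X natDegree_X (2 * k - 10) ?_ u hu
  intro s hs
  obtain ⟨i, j, hi, hj, hij⟩ : ∃ i j : ℕ, i ≤ k - 5 ∧ j ≤ k - 5 ∧ i + j = s := by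
    rcases Nat.lt_or_ge s (k - 5) with h | h
    · exact ⟨s, 0, by omega, by omega, by omega⟩
    · exact ⟨k - 5, s - (k - 5), by omega, by omega, by omega⟩
  have hdi : (X ^ i : L[X]).natDegree ≤ k - 5 := by rw [natDegree_X_pow]; exact hi
  have hdj : (X ^ j : L[X]).natDegree ≤ k - 5 := by rw [natDegree_X_pow]; exact hj
  have h1 := basic hk hf hg derivative_X natDegree_X_le (X ^ i) (X ^ j) hdi hdj
  have h2 := basic hk hf hg derivative_X natDegree_X_le (X ^ j) (X ^ i) hdj hdi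
  have h3 := Submodule.add_mem _ h1 h2
  rw [hκ'] at h3
  have c36 : C (36 * κ) = 36 * C κ := by rw [C_mul, map_ofNat]
  have h4 : F ^ 2 * (18 * C κ * (X ^ i * X ^ j) + 12 * (l * l') *
        (derivative (X ^ i) * X ^ j - X ^ i * derivative (X ^ j)))
      + F ^ 2 * (18 * C κ * (X ^ j * X ^ i) + 12 * (l * l') *
        (derivative (X ^ j) * X ^ i - X ^ j * derivative (X ^ i)))
      = C (36 * κ) * (F ^ 2 * X ^ s) := by
    rw [c36, ← hij]; ring
  rw [h4] at h3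
  exact mem_of_C_mul_mem (mul_ne_zero (by norm_num) hκ) h3

theorem der_pow {T : L[X]} (hT : derivative T = 1) (i : ℕ) :
    T * derivative (T ^ i) = C (i : L) * T ^ i := by
  rcases Nat.eq_zero_or_pos i with h | h
  · subst h; simp
  · obtain ⟨m, rfl⟩ := Nat.exists_eq_succ_of_ne_zero h.ne'
    rw [derivative_pow, hT, Nat.succ_sub_one, pow_succ]
    ring

/-- the bracket for two powers -/
theorem bracket {T : L[X]} (hT : derivative T = 1) (i j : ℕ) :
    T * (derivative (T ^ i) * T ^ j - T ^ i * derivative (T ^ j))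
      = C ((i : L) - j) * T ^ (i + j) := by
  have h1 := der_pow hT i
  have h2 := der_pow hT j
  rw [C_sub, pow_add]
  linear_combination T ^ j * h1 - T ^ i * h2

theorem exists_ij (s M : ℕ) (hs : 1 ≤ s) (hM : s ≤ 2 * M - 1) (hM1 : 1 ≤ M) :
    ∃ i j : ℕ, i ≤ M ∧ j ≤ M ∧ i + j = s ∧ i ≠ j := by
  rcases Nat.lt_or_ge M s with h | h
  · exact ⟨M, s - M, le_rfl, by omega, by omega, by omega⟩
  · exact ⟨s, 0, h, by omega, by omega, by omega⟩

omit [CharZero L] in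
theorem der_pow_succ {T : L[X]} (hT : derivative T = 1) (i : ℕ) :
    derivative (T ^ (i + 1)) = C ((i : L) + 1) * T ^ i := by
  rw [derivative_pow, hT, Nat.succ_sub_one, mul_one]
  push_cast
  rfl

/-- second case, the two remaining products -/
theorem case2a {F f1 f2 l g1 g2 l' : L[X]} {k : ℕ} (hk : 9 ≤ k)
    (hf : PN F k f1 f2 l) (hg : PN F k g1 g2 l') {a c q : L} (ha : a ≠ 0) (hc : c ≠ 0)
    (hl : l = C a * (X - C q)) (hl' : l' = C c * (X - C q))
    (hgF : F.eval q = 0 → g1.eval q ≠ 0 ∨ g2.eval q ≠ 0) (j : ℕ) (hj : j ≤ 1) :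
    ∃ κ : L, F ^ 2 * (C (6 + 4 * (j : L)) * (X - C q) ^ j + C (κ * (2 + j)) * (X - C q) ^ (j + 1)) ∈
      DlSp F l f1 f2 (k - 2) * DlSp F l' g1 g2 (k - 2) := by
  have hdT : derivative (X - C q : L[X]) = 1 := by simp
  have hl2 := der2_of_natDegree_le_one hf.dl
  have hl2' := der2_of_natDegree_le_one hg.dl
  -- a combination of `g1, g2` with value 1 at `q`
  obtain ⟨α, β, hαβ⟩ : ∃ α β : L, α * g1.eval q + β * g2.eval q = 1 := by
    by_cases h1 : g1.eval q = 0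
    · by_cases h2 : g2.eval q = 0
      · exfalso
        obtain ⟨h, hh⟩ := dvd_iff_isRoot.2 h1
        obtain ⟨h', hh'⟩ := dvd_iff_isRoot.2 h2
        have h3 := hg.hw
        rw [hh, hh', wr_l_cancel, hl'] at h3
        have h4 : (X - C q) * (C c * F) = (X - C q) * ((X - C q) * wr h h') := by
          linear_combination -h3
        have h5 := mul_left_cancel₀ (X_sub_C_ne_zero q) h4
        have h6 := congrArg (eval q) h5
        simp only [eval_mul, eval_C, eval_sub, eval_X, sub_self, zero_mul] at h6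
        rcases hgF ((mul_eq_zero.1 h6).resolve_left hc) with h7 | h7
        · exact h7 h1
        · exact h7 h2
      · exact ⟨0, (g2.eval q)⁻¹, by rw [zero_mul, zero_add, inv_mul_cancel₀ h2]⟩
    · exact ⟨(g1.eval q)⁻¹, 0, by rw [zero_mul, add_zero, inv_mul_cancel₀ h1]⟩
  obtain ⟨g, hg0⟩ : ∃ g : L[X], g = C α * g1 + C β * g2 := ⟨_, rfl⟩
  have hgq : g.eval q = 1 := by
    rw [hg0, eval_add, eval_mul, eval_mul, eval_C, eval_C]; exact hαβ
  have hgd : g.natDegree ≤ k := by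
    rw [hg0]
    refine (natDegree_add_le _ _).trans (max_le ?_ ?_)
    · exact (natDegree_C_mul_le _ _).trans hg.d1
    · exact (natDegree_C_mul_le _ _).trans hg.d2
  have hDg : Dh g1 g2 g = 0 := by
    rw [hg0, Dh_add, Dh_C_mul, Dh_C_mul, Dh_self1, Dh_self2]; ring
  obtain ⟨κ, hκ⟩ : ∃ κ : L, κ = (derivative g).eval q := ⟨_, rfl⟩
  -- `1 + κ T - g = T^2 m`
  obtain ⟨m, hm⟩ : (X - C q) ^ 2 ∣ 1 + C κ * (X - C q) - g := by
    apply sq_dvd
    · simp [hgq]
    · simp [hκ]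
  have hmd : m.natDegree ≤ k - 2 := by
    by_cases hm0 : m = 0
    · rw [hm0]; simp
    · have h1 : ((X - C q) ^ 2 * m).natDegree = 2 + m.natDegree := by
        rw [((monic_X_sub_C q).pow 2).natDegree_mul' hm0, (monic_X_sub_C q).natDegree_pow,
          natDegree_X_sub_C]
      have h2 : (1 + C κ * (X - C q) - g).natDegree ≤ k := by
        refine (natDegree_sub_le _ _).trans (max_le ?_ hgd)
        refine (natDegree_add_le _ _).trans (max_le ?_ ?_)
        · rw [natDegree_one]; omega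
        · refine (natDegree_C_mul_le _ _).trans ?_
          rw [natDegree_X_sub_C]; omega
      rw [hm, h1] at h2
      omega
  refine ⟨κ, ?_⟩
  obtain ⟨T, hTT⟩ : ∃ T : L[X], T = X - C q := ⟨_, rfl⟩
  have hT0 : T ≠ 0 := by rw [hTT]; exact X_sub_C_ne_zero q
  have hTd : T.natDegree = 1 := by rw [hTT]; exact natDegree_X_sub_C q
  rw [← hTT] at hl hl' hdT hm ⊢
  -- values on multiples of `T^2`
  have hD : ∀ p : L[X], Dh f1 f2 (T ^ 2 * p) = T ^ 2 * Dl F l f1 f2 p := by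
    intro p
    have h1 := Dh_eq_Dl hf.hw hl2 p
    have h2 : l ^ 2 = C (a ^ 2) * T ^ 2 := by rw [hl, C_pow]; ring
    rw [h2, mul_assoc, Dh_C_mul, mul_assoc] at h1
    exact mul_left_cancel₀ (C_ne_zero.2 (pow_ne_zero 2 ha)) h1
  have hD' : ∀ p : L[X], Dh g1 g2 (T ^ 2 * p) = T ^ 2 * Dl F l' g1 g2 p := by
    intro p
    have h1 := Dh_eq_Dl hg.hw hl2' p
    have h2 : l' ^ 2 = C (c ^ 2) * T ^ 2 := by rw [hl', C_pow]; ring
    rw [h2, mul_assoc, Dh_C_mul, mul_assoc] at h1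
    exact mul_left_cancel₀ (C_ne_zero.2 (pow_ne_zero 2 hc)) h1
  obtain ⟨A2, hA2⟩ : ∃ A2 : L[X], A2 = C (-3) * T ^ j + C (-κ) * T ^ (j + 1) := ⟨_, rfl⟩
  have I1 := T3_identity f1 f2 g1 g2 T (T ^ (j + 3)) (-1) hdT
  have I2 := T3_identity f1 f2 g1 g2 T (T ^ 2 * A2) T hdT
  have r1 : Dh f1 f2 (T ^ 3 * T ^ (j + 3)) = T ^ 2 * Dl F l f1 f2 (T ^ (j + 4)) := by
    rw [← hD]; congr 1; ring
  have r2 : Dh f1 f2 (T ^ 2 * T ^ (j + 3)) = T ^ 2 * Dl F l f1 f2 (T ^ (j + 3)) := by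
    rw [← hD]
  have r3 : Dh f1 f2 (T * T ^ (j + 3)) = T ^ 2 * Dl F l f1 f2 (T ^ (j + 2)) := by
    rw [← hD]; congr 1; ring
  have r4 : Dh f1 f2 (T ^ (j + 3)) = T ^ 2 * Dl F l f1 f2 (T ^ (j + 1)) := by
    rw [← hD]; congr 1; ring
  have r5 : Dh f1 f2 (T ^ 3 * (T ^ 2 * A2)) = T ^ 2 * (C (-3) * Dl F l f1 f2 (T ^ (j + 3))
      + C (-κ) * Dl F l f1 f2 (T ^ (j + 4))) := by
    have : T ^ 3 * (T ^ 2 * A2) = C (-3) * (T ^ 2 * T ^ (j + 3)) + C (-κ) * (T ^ 2 * T ^ (j + 4)) := by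
      rw [hA2]; ring
    rw [this, Dh_add, Dh_C_mul, Dh_C_mul, hD, hD]; ring
  have r6 : Dh f1 f2 (T ^ 2 * (T ^ 2 * A2)) = T ^ 2 * Dl F l f1 f2 (T ^ 2 * A2) := hD _
  have r7 : Dh f1 f2 (T * (T ^ 2 * A2)) = T ^ 2 * Dl F l f1 f2 (T * A2) := by
    rw [← hD]; congr 1; ring
  have r8 : Dh f1 f2 (T ^ 2 * A2) = T ^ 2 * Dl F l f1 f2 A2 := hD _
  have s1 : Dh g1 g2 (-1) = - Dh g1 g2 1 := Dh_neg _ _ _
  have s2 : Dh g1 g2 (T * (-1)) = - Dh g1 g2 T := by rw [← Dh_neg]; congr 1; ring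
  have s3 : Dh g1 g2 (T ^ 2 * (-1)) = - (T ^ 2 * Dl F l' g1 g2 1) := by
    rw [← hD', ← Dh_neg]; congr 1; ring
  have s4 : Dh g1 g2 (T ^ 3 * (-1)) = - (T ^ 2 * Dl F l' g1 g2 T) := by
    rw [← hD', ← Dh_neg]; congr 1; ring
  have s5 : Dh g1 g2 (T * T) = T ^ 2 * Dl F l' g1 g2 1 := by
    rw [← hD']; congr 1; ring
  have s6 : Dh g1 g2 (T ^ 2 * T) = T ^ 2 * Dl F l' g1 g2 T := hD' _
  have s7 : Dh g1 g2 (T ^ 3 * T) = T ^ 2 * Dl F l' g1 g2 (T ^ 2) := by
    rw [← hD']; congr 1; ring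
  have s8 : Dh g1 g2 1 + C κ * Dh g1 g2 T = T ^ 2 * Dl F l' g1 g2 m := by
    rw [← hD', ← hm, Dh_sub, hDg, Dh_add, Dh_C_mul, sub_zero]
  rw [r1, r2, r3, r4, s1, s2, s3, s4] at I1
  rw [r5, r6, r7, r8, s5, s6, s7] at I2
  have d1 : derivative (T ^ (j + 3)) = C ((j : L) + 3) * T ^ (j + 2) := by
    have := der_pow_succ hdT (j + 2)
    rw [this]; push_cast
    congr 2; ring_nf
  have d2 : derivative (T ^ 2 * A2) = C (-3 * ((j : L) + 2)) * T ^ (j + 1)
      + C (-κ * ((j : L) + 3)) * T ^ (j + 2) := by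
    have h1 : T ^ 2 * A2 = C (-3) * T ^ (j + 2) + C (-κ) * T ^ (j + 3) := by
      rw [hA2]; ring
    have h2 : derivative (T ^ (j + 2)) = C ((j : L) + 2) * T ^ (j + 1) := by
      have := der_pow_succ hdT (j + 1)
      rw [this]; push_cast
      congr 2; ring_nf
    rw [h1, derivative_add, derivative_C_mul, derivative_C_mul, d1, h2]
    simp only [C_mul]
    ring
  have dl : derivative l = C a := by rw [hl, derivative_C_mul, hdT, mul_one]
  have dl' : derivative l' = C c := by rw [hl', derivative_C_mul, hdT, mul_one]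
  have d3 : derivative (F * l) = derivative F * l + F * C a := by rw [derivative_mul, dl]
  have d4 : derivative (F * l') = derivative F * l' + F * C c := by rw [derivative_mul, dl']
  rw [hf.hw, hg.hw, d3, d4, d1, hl, hl'] at I1
  rw [hf.hw, hg.hw, d3, d4, d2, hdT, hl, hl'] at I2
  simp only [derivative_neg, derivative_one] at I1
  have key : C (-(12 * a * c)) * (F ^ 2 * (C (6 + 4 * (j : L)) * T ^ j
        + C (κ * (2 + j)) * T ^ (j + 1)))
      = - (Dl F l f1 f2 (T ^ (j + 4)) * Dl F l' g1 g2 m)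
        - C 3 * (Dl F l f1 f2 (T ^ (j + 2)) * Dl F l' g1 g2 1)
        + Dl F l f1 f2 (T ^ (j + 1)) * Dl F l' g1 g2 T
        - C 3 * (Dl F l f1 f2 (T ^ 2 * A2) * Dl F l' g1 g2 1)
        + C 3 * (Dl F l f1 f2 (T * A2) * Dl F l' g1 g2 T)
        - Dl F l f1 f2 A2 * Dl F l' g1 g2 (T ^ 2) := by
    apply mul_left_cancel₀ (pow_ne_zero 4 hT0)
    rw [hl, hl']
    rw [hl'] at s8
    generalize Dl F (C a * T) f1 f2 (T ^ (j + 4)) = u4 at I1 I2 ⊢
    generalize Dl F (C a * T) f1 f2 (T ^ (j + 3)) = u3 at I1 I2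
    generalize Dl F (C a * T) f1 f2 (T ^ (j + 2)) = u2 at I1 ⊢
    generalize Dl F (C a * T) f1 f2 (T ^ (j + 1)) = u1 at I1 ⊢
    generalize Dl F (C a * T) f1 f2 (T ^ 2 * A2) = v2 at I2 ⊢
    generalize Dl F (C a * T) f1 f2 (T * A2) = v1 at I2 ⊢
    generalize Dl F (C a * T) f1 f2 A2 = v0 at I2 ⊢
    generalize Dl F (C c * T) g1 g2 1 = w0 at I1 I2 ⊢
    generalize Dl F (C c * T) g1 g2 T = w1 at I1 I2 ⊢
    generalize Dl F (C c * T) g1 g2 (T ^ 2) = w2 at I2 ⊢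
    generalize Dl F (C c * T) g1 g2 m = wm at s8 ⊢
    generalize Dh g1 g2 1 = x0 at I1 s8
    generalize Dh g1 g2 T = x1 at I1 I2 s8
    rw [hA2] at I2
    simp only [C_mul, C_neg, C_add, map_ofNat] at I1 I2 ⊢
    linear_combination -I1 - I2 - T ^ 2 * u4 * s8
  have hTn : ∀ n : ℕ, (T ^ n).natDegree ≤ n := fun n => by
    refine natDegree_pow_le.trans ?_
    rw [hTd, mul_one]
  have hA2d : A2.natDegree ≤ 2 := by
    rw [hA2]
    refine (natDegree_add_le _ _).trans (max_le ?_ ?_)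
    · exact (natDegree_C_mul_le _ _).trans ((hTn _).trans (by omega))
    · exact (natDegree_C_mul_le _ _).trans ((hTn _).trans (by omega))
  apply mem_of_C_mul_mem (c := -(12 * a * c))
    (neg_ne_zero.2 (mul_ne_zero (mul_ne_zero (by norm_num) ha) hc))
  rw [key]
  have n1 : (1 : L[X]).natDegree ≤ k - 2 := by rw [natDegree_one]; omega
  have n2 : T.natDegree ≤ k - 2 := by rw [hTd]; omega
  refine Submodule.sub_mem _ (Submodule.add_mem _ (Submodule.sub_mem _ (Submodule.add_mem _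
    (Submodule.sub_mem _ (Submodule.neg_mem _ ?_) ?_) ?_) ?_) ?_) ?_
  · exact mul_mem_DD ((hTn _).trans (by omega)) hmd
  · exact nat_mul_mem _ (mul_mem_DD ((hTn _).trans (by omega)) n1)
  · exact mul_mem_DD ((hTn _).trans (by omega)) n2
  · refine nat_mul_mem _ (mul_mem_DD (natDegree_mul_le.trans ?_) n1)
    have := hTn 2
    omega
  · refine nat_mul_mem _ (mul_mem_DD (natDegree_mul_le.trans ?_) n2)
    omega
  · exact mul_mem_DD (by omega) ((hTn _).trans (by omega))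

/-- case `κ = 0`, `l` of degree 1 -/
theorem case2 {F f1 f2 l g1 g2 l' : L[X]} {k : ℕ} (hk : 9 ≤ k)
    (hf : PN F k f1 f2 l) (hg : PN F k g1 g2 l') {a c q : L} (ha : a ≠ 0) (hc : c ≠ 0)
    (hl : l = C a * (X - C q)) (hl' : l' = C c * (X - C q))
    (hgF : F.eval q = 0 → g1.eval q ≠ 0 ∨ g2.eval q ≠ 0)
    (u : L[X]) (hu : u.natDegree ≤ 2 * k - 10) :
    F ^ 2 * u ∈ DlSp F l f1 f2 (k - 2) * DlSp F l' g1 g2 (k - 2) := by
  have hdT : derivative (X - C q : L[X]) = 1 := by simp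
  have hmon : (X - C q : L[X]).Monic := monic_X_sub_C q
  have hdeg : (X - C q : L[X]).natDegree = 1 := natDegree_X_sub_C q
  have hbig : ∀ s : ℕ, 2 ≤ s → s ≤ 2 * k - 10 → F ^ 2 * (X - C q) ^ s ∈
      DlSp F l f1 f2 (k - 2) * DlSp F l' g1 g2 (k - 2) := by
    intro s hs2 hs
    obtain ⟨i, j, hi, hj, hij, hne⟩ := exists_ij (s - 1) (k - 5) (by omega) (by omega) (by omega)
    have hdp : ∀ n : ℕ, n ≤ k - 5 → ((X - C q : L[X]) ^ n).natDegree ≤ k - 5 := by
      intro n hn; rw [hmon.natDegree_pow, hdeg, mul_one]; exact hn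
    have h1 := basic hk hf hg hdT hdeg.le ((X - C q) ^ i) ((X - C q) ^ j) (hdp i hi) (hdp j hj)
    have h2 := bracket hdT i j
    obtain ⟨T, hTT⟩ : ∃ T : L[X], T = X - C q := ⟨_, rfl⟩
    rw [← hTT] at hl hl' hdT h1 h2 ⊢
    have dl : derivative l = C a := by rw [hl, derivative_C_mul, hdT, mul_one]
    have dl' : derivative l' = C c := by rw [hl', derivative_C_mul, hdT, mul_one]
    have h3 : F ^ 2 * (18 * (derivative l * l' - l * derivative l') * (T ^ i * T ^ j)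
      + 12 * (l * l') * (derivative (T ^ i) * T ^ j - T ^ i * derivative (T ^ j)))
      = C (12 * a * c * ((i : L) - j)) * (F ^ 2 * T ^ s) := by
      rw [dl, dl']
      have h4 : T ^ s = T * T ^ (i + j) := by
        rw [← pow_succ']; congr 1; omega
      rw [h4, hl, hl']
      simp only [C_mul, map_ofNat]
      linear_combination 12 * F ^ 2 * C a * C c * T * h2
    rw [h3] at h1
    refine mem_of_C_mul_mem (mul_ne_zero (mul_ne_zero (mul_ne_zero (by norm_num) ha) hc) ?_) h1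
    rw [sub_ne_zero]
    exact_mod_cast hne
  refine span_of_pow hmon hdeg (2 * k - 10) ?_ u hu
  have hs1 : F ^ 2 * (X - C q) ^ 1 ∈ DlSp F l f1 f2 (k - 2) * DlSp F l' g1 g2 (k - 2) := by
    obtain ⟨κ, h1⟩ := case2a hk hf hg ha hc hl hl' hgF 1 le_rfl
    have h2 := nat_mul_mem (κ * (2 + 1)) (hbig 2 le_rfl (by omega))
    have h3 := Submodule.sub_mem _ h1 h2
    have h4 : F ^ 2 * (C (6 + 4 * ((1 : ℕ) : L)) * (X - C q) ^ 1
        + C (κ * (2 + ((1 : ℕ) : L))) * (X - C q) ^ (1 + 1))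
        - C (κ * (2 + 1)) * (F ^ 2 * (X - C q) ^ 2) = C (6 + 4) * (F ^ 2 * (X - C q) ^ 1) := by
      rw [Nat.cast_one, mul_one]; ring
    rw [h4] at h3
    exact mem_of_C_mul_mem (by norm_num) h3
  have hs0 : F ^ 2 * (X - C q) ^ 0 ∈ DlSp F l f1 f2 (k - 2) * DlSp F l' g1 g2 (k - 2) := by
    obtain ⟨κ, h1⟩ := case2a hk hf hg ha hc hl hl' hgF 0 (by norm_num)
    have h2 := nat_mul_mem (κ * (2 + 0)) hs1
    have h3 := Submodule.sub_mem _ h1 h2
    have h4 : F ^ 2 * (C (6 + 4 * ((0 : ℕ) : L)) * (X - C q) ^ 0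
        + C (κ * (2 + ((0 : ℕ) : L))) * (X - C q) ^ (0 + 1))
        - C (κ * (2 + 0)) * (F ^ 2 * (X - C q) ^ 1) = C 6 * (F ^ 2 * (X - C q) ^ 0) := by
      rw [Nat.cast_zero, mul_zero, add_zero]; ring
    rw [h4] at h3
    exact mem_of_C_mul_mem (by norm_num) h3
  intro s hs
  rcases s with _ | _ | s
  · exact hs0
  · exact hs1
  · exact hbig (s + 2) (by omega) hs

/-- third case, the two remaining products -/
theorem case3a {F f1 f2 l g1 g2 l' : L[X]} {k e j : ℕ} (hj : j ≤ 1) (hkj : k = e + 7 + j)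
    (hf : PN F k f1 f2 l) (hg : PN F k g1 g2 l') {b d : L} (hb : b ≠ 0) (hd : d ≠ 0)
    (hl : l = C b) (hl' : l' = C d)
    (hPN : ∃ α β : L, (C α * g1 + C β * g2).natDegree = k) :
    ∃ κ : L, F ^ 2 * (C (6 + 4 * (j : L)) * X ^ (2 * e + 4 + j)
        + C (κ * (2 + j)) * X ^ (2 * e + 3 + j)) ∈
      DlSp F l f1 f2 (k - 2) * DlSp F l' g1 g2 (k - 2) := by
  have hl2 := der2_of_natDegree_le_one hf.dl
  have hl2' := der2_of_natDegree_le_one hg.dl
  have hD : ∀ p : L[X], Dh f1 f2 p = Dl F l f1 f2 p := by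
    intro p
    have h1 := Dh_eq_Dl hf.hw hl2 p
    have h2 : l ^ 2 = C (b ^ 2) := by rw [hl, C_pow]
    rw [h2, Dh_C_mul] at h1
    exact mul_left_cancel₀ (C_ne_zero.2 (pow_ne_zero 2 hb)) h1
  have hD' : ∀ p : L[X], Dh g1 g2 p = Dl F l' g1 g2 p := by
    intro p
    have h1 := Dh_eq_Dl hg.hw hl2' p
    have h2 : l' ^ 2 = C (d ^ 2) := by rw [hl', C_pow]
    rw [h2, Dh_C_mul] at h1
    exact mul_left_cancel₀ (C_ne_zero.2 (pow_ne_zero 2 hd)) h1
  -- a monic combination of degree `k`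
  obtain ⟨α, β, hαβ⟩ := hPN
  obtain ⟨g, hg0⟩ : ∃ g : L[X], g = C α * g1 + C β * g2 := ⟨_, rfl⟩
  rw [← hg0] at hαβ
  have hgne : g.leadingCoeff ≠ 0 := by
    rw [Ne, leadingCoeff_eq_zero]; intro h; rw [h, natDegree_zero] at hαβ; omega
  obtain ⟨r, hr⟩ : ∃ r : L, r = g.leadingCoeff⁻¹ := ⟨_, rfl⟩
  obtain ⟨κ, hκ⟩ : ∃ κ : L, κ = r * g.coeff (k - 1) := ⟨_, rfl⟩
  have hDg : Dh g1 g2 (C r * g) = 0 := by
    rw [Dh_C_mul, hg0, Dh_add, Dh_C_mul, Dh_C_mul, Dh_self1, Dh_self2]; ring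
  obtain ⟨m, hm⟩ : ∃ m : L[X], m = X ^ (e + 7 + j) + C κ * X ^ (e + 6 + j) - C r * g := ⟨_, rfl⟩
  have hmd : m.natDegree ≤ k - 2 := by
    rw [natDegree_le_iff_coeff_eq_zero]
    intro N hN
    rw [hm, coeff_sub, coeff_add, coeff_C_mul, coeff_C_mul, coeff_X_pow, coeff_X_pow]
    rcases Nat.lt_or_ge k N with h | h
    · have h1 : g.coeff N = 0 := coeff_eq_zero_of_natDegree_lt (by omega)
      rw [h1, if_neg (by omega), if_neg (by omega)]; ring
    · rcases Nat.eq_or_lt_of_le h with h' | h'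
      · have h1 : g.coeff N = g.leadingCoeff := by rw [h', leadingCoeff, hαβ]
        rw [h1, if_pos (by omega), if_neg (by omega), hr, inv_mul_cancel₀ hgne]; ring
      · have hN1 : N = k - 1 := by omega
        rw [if_neg (by omega), if_pos (by omega), hN1, hκ]; ring
  refine ⟨κ, ?_⟩
  have hdX : derivative (X : L[X]) = 1 := derivative_X
  obtain ⟨B, hB⟩ : ∃ B : L[X], B = C (-3) * X ^ (e + 2) + C (-κ) * X ^ (e + 1) := ⟨_, rfl⟩
  have I1 := T3_identity f1 f2 g1 g2 X (-X ^ (e + 1)) (X ^ (e + 4 + j)) hdX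
  have I2 := T3_identity f1 f2 g1 g2 X B (X ^ (e + 3 + j)) hdX
  have r1 : Dh f1 f2 (X ^ 3 * (-X ^ (e + 1))) = - Dl F l f1 f2 (X ^ (e + 4)) := by
    rw [← hD, ← Dh_neg]; congr 1; ring
  have r2 : Dh f1 f2 (X ^ 2 * (-X ^ (e + 1))) = - Dl F l f1 f2 (X ^ (e + 3)) := by
    rw [← hD, ← Dh_neg]; congr 1; ring
  have r3 : Dh f1 f2 (X * (-X ^ (e + 1))) = - Dl F l f1 f2 (X ^ (e + 2)) := by
    rw [← hD, ← Dh_neg]; congr 1; ring
  have r4 : Dh f1 f2 (-X ^ (e + 1)) = - Dl F l f1 f2 (X ^ (e + 1)) := by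
    rw [← hD, ← Dh_neg]
  have r8 : Dh f1 f2 B = C (-3) * Dl F l f1 f2 (X ^ (e + 2)) + C (-κ) * Dl F l f1 f2 (X ^ (e + 1)) := by
    rw [hB, Dh_add, Dh_C_mul, Dh_C_mul, hD, hD]
  have s1 : Dh g1 g2 (X * X ^ (e + 4 + j)) = Dh g1 g2 (X ^ (e + 5 + j)) := by
    congr 1; ring
  have s2 : Dh g1 g2 (X ^ 2 * X ^ (e + 4 + j)) = Dh g1 g2 (X ^ (e + 6 + j)) := by
    congr 1; ring
  have s3 : Dh g1 g2 (X ^ 3 * X ^ (e + 4 + j)) = Dh g1 g2 (X ^ (e + 7 + j)) := by
    congr 1; ring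
  have s4 : Dh g1 g2 (X * X ^ (e + 3 + j)) = Dh g1 g2 (X ^ (e + 4 + j)) := by
    congr 1; ring
  have s5 : Dh g1 g2 (X ^ 2 * X ^ (e + 3 + j)) = Dh g1 g2 (X ^ (e + 5 + j)) := by
    congr 1; ring
  have s6 : Dh g1 g2 (X ^ 3 * X ^ (e + 3 + j)) = Dh g1 g2 (X ^ (e + 6 + j)) := by
    congr 1; ring
  have s8 : Dh g1 g2 (X ^ (e + 7 + j)) + C κ * Dh g1 g2 (X ^ (e + 6 + j)) = Dl F l' g1 g2 m := by
    rw [← hD', hm, Dh_sub, hDg, Dh_add, Dh_C_mul, sub_zero]
  rw [r1, r2, r3, r4, s1, s2, s3] at I1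
  rw [r8, s4, s5, s6] at I2
  have d1 : derivative (X ^ (e + 1) : L[X]) = C ((e : L) + 1) * X ^ e := der_pow_succ hdX e
  have d2 : derivative (X ^ (e + 2) : L[X]) = C ((e : L) + 2) * X ^ (e + 1) := by
    have := der_pow_succ hdX (e + 1)
    rw [this]; push_cast
    congr 2; ring_nf
  have d3 : derivative (X ^ (e + 4 + j) : L[X]) = C ((e : L) + 4 + j) * X ^ (e + 3 + j) := by
    have := der_pow_succ hdX (e + 3 + j)
    rw [show e + 4 + j = e + 3 + j + 1 by ring, this]; push_cast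
    congr 2; ring_nf
  have d4 : derivative (X ^ (e + 3 + j) : L[X]) = C ((e : L) + 3 + j) * X ^ (e + 2 + j) := by
    have := der_pow_succ hdX (e + 2 + j)
    rw [show e + 3 + j = e + 2 + j + 1 by ring, this]; push_cast
    congr 2; ring_nf
  have d5 : derivative (F * l) = derivative F * C b := by
    rw [hl, mul_comm, derivative_C_mul, mul_comm]
  have d6 : derivative (F * l') = derivative F * C d := by
    rw [hl', mul_comm, derivative_C_mul, mul_comm]
  have d7 : derivative B = C (-3 * ((e : L) + 2)) * X ^ (e + 1) + C (-κ * ((e : L) + 1)) * X ^ e := by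
    rw [hB, derivative_add, derivative_C_mul, derivative_C_mul, d1, d2]
    simp only [C_mul]; ring
  rw [hf.hw, hg.hw, d5, d6, derivative_neg, d1, d3, hl, hl'] at I1
  rw [hf.hw, hg.hw, d5, d6, d7, d4, hl, hl'] at I2
  have key : C (12 * b * d) * (F ^ 2 * (C (6 + 4 * (j : L)) * X ^ (2 * e + 4 + j)
        + C (κ * (2 + j)) * X ^ (2 * e + 3 + j)))
      = (Dl F l f1 f2 (X ^ (e + 1)) * Dl F l' g1 g2 m)
        + (3 * Dl F l f1 f2 (X ^ (e + 3)) + 3 * Dh f1 f2 (X * B)) * Dh g1 g2 (X ^ (e + 5 + j))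
        + (- Dl F l f1 f2 (X ^ (e + 4)) - 3 * Dh f1 f2 (X ^ 2 * B)) * Dh g1 g2 (X ^ (e + 4 + j))
        + Dh f1 f2 (X ^ 3 * B) * Dh g1 g2 (X ^ (e + 3 + j)) := by
    rw [hl, hl']
    rw [hl'] at s8
    generalize Dl F (C b) f1 f2 (X ^ (e + 4)) = u4 at I1 I2 ⊢
    generalize Dl F (C b) f1 f2 (X ^ (e + 3)) = u3 at I1 I2 ⊢
    generalize Dl F (C b) f1 f2 (X ^ (e + 2)) = u2 at I1 I2 ⊢
    generalize Dl F (C b) f1 f2 (X ^ (e + 1)) = u1 at I1 I2 ⊢
    generalize Dh f1 f2 (X ^ 3 * B) = v3 at I2 ⊢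
    generalize Dh f1 f2 (X ^ 2 * B) = v2 at I2 ⊢
    generalize Dh f1 f2 (X * B) = v1 at I2 ⊢
    generalize Dl F (C d) g1 g2 m = wm at s8 ⊢
    generalize Dh g1 g2 (X ^ (e + 3 + j)) = x3 at I1 I2 ⊢
    generalize Dh g1 g2 (X ^ (e + 4 + j)) = x4 at I1 I2 ⊢
    generalize Dh g1 g2 (X ^ (e + 5 + j)) = x5 at I1 I2 ⊢
    generalize Dh g1 g2 (X ^ (e + 6 + j)) = x6 at I1 I2 s8 ⊢
    generalize Dh g1 g2 (X ^ (e + 7 + j)) = x7 at I1 I2 s8 ⊢
    rw [hB] at I2
    simp only [C_mul, C_neg, C_add, map_ofNat, C_1] at I1 I2 ⊢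
    linear_combination - I1 - I2 + u1 * s8
  apply mem_of_C_mul_mem (c := 12 * b * d) (mul_ne_zero (mul_ne_zero (by norm_num) hb) hd)
  rw [key]
  have hXn : ∀ n : ℕ, (X ^ n : L[X]).natDegree ≤ n := fun n => natDegree_X_pow_le n
  have hBd : B.natDegree ≤ e + 2 := by
    rw [hB]
    refine (natDegree_add_le _ _).trans (max_le ?_ ?_)
    · exact (natDegree_C_mul_le _ _).trans (hXn _)
    · exact (natDegree_C_mul_le _ _).trans ((hXn _).trans (by omega))
  have hV : ∀ (i : ℕ) (p : L[X]), i + 3 + j ≤ k - 2 - e → p.natDegree ≤ e + 4 →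
      e + 4 ≤ k - 2 →
      Dl F l f1 f2 p * Dh g1 g2 (X ^ (e + (i + 3) + j)) ∈
        DlSp F l f1 f2 (k - 2) * DlSp F l' g1 g2 (k - 2) := by
    intro i p hi hp he
    rw [hD']
    exact mul_mem_DD (hp.trans he) ((hXn _).trans (by omega))
  have c3 : (3 : L[X]) = C 3 := (map_ofNat C 3).symm
  have t0 : Dl F l f1 f2 (X ^ (e + 1)) * Dl F l' g1 g2 m ∈
      DlSp F l f1 f2 (k - 2) * DlSp F l' g1 g2 (k - 2) :=
    mul_mem_DD ((hXn _).trans (by omega)) hmd
  have hXB : ∀ i : ℕ, i ≤ 2 → (X ^ i * B).natDegree ≤ e + 4 := by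
    intro i hi
    refine natDegree_mul_le.trans ?_
    have := hXn i
    omega
  have hX3B : (X ^ 3 * B).natDegree ≤ e + 5 := by
    refine natDegree_mul_le.trans ?_
    have := hXn 3
    omega
  have hX1B := hXB 1 (by norm_num)
  rw [pow_one] at hX1B
  refine Submodule.add_mem _ (Submodule.add_mem _ (Submodule.add_mem _ t0 ?_) ?_) ?_
  · rw [add_mul, c3, mul_assoc, mul_assoc, hD]
    refine Submodule.add_mem _ (nat_mul_mem _ ?_) (nat_mul_mem _ ?_)
    · exact hV 2 _ (by omega) ((hXn _).trans (by omega)) (by omega)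
    · exact hV 2 _ (by omega) hX1B (by omega)
  · rw [sub_mul, neg_mul, c3, mul_assoc, hD]
    refine Submodule.sub_mem _ (Submodule.neg_mem _ ?_) (nat_mul_mem _ ?_)
    · exact hV 1 _ (by omega) (hXn _) (by omega)
    · exact hV 1 _ (by omega) (hXB 2 le_rfl) (by omega)
  · rw [hD, hD']
    exact mul_mem_DD (hX3B.trans (by omega)) ((hXn _).trans (by omega))

/-- third case -/
theorem case3 {F f1 f2 l g1 g2 l' : L[X]} {k : ℕ} (hk : 9 ≤ k)
    (hf : PN F k f1 f2 l) (hg : PN F k g1 g2 l') {b d : L} (hb : b ≠ 0) (hd : d ≠ 0)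
    (hl : l = C b) (hl' : l' = C d)
    (hPN : ∃ α β : L, (C α * g1 + C β * g2).natDegree = k)
    (u : L[X]) (hu : u.natDegree ≤ 2 * k - 10) :
    F ^ 2 * u ∈ DlSp F l f1 f2 (k - 2) * DlSp F l' g1 g2 (k - 2) := by
  have hbig : ∀ s : ℕ, s ≤ 2 * k - 12 → F ^ 2 * X ^ s ∈
      DlSp F l f1 f2 (k - 2) * DlSp F l' g1 g2 (k - 2) := by
    intro s hs
    obtain ⟨i, j, hi, hj, hij, hne⟩ := exists_ij (s + 1) (k - 5) (by omega) (by omega) (by omega)
    have h1 := basic hk hf hg derivative_X natDegree_X_le (X ^ i) (X ^ j)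
      ((natDegree_X_pow_le i).trans hi) ((natDegree_X_pow_le j).trans hj)
    have h2 := bracket (L := L) (T := X) derivative_X i j
    have h3 : F ^ 2 * (18 * (derivative l * l' - l * derivative l') * (X ^ i * X ^ j)
      + 12 * (l * l') * (derivative (X ^ i) * X ^ j - X ^ i * derivative (X ^ j)))
      = C (12 * b * d * ((i : L) - j)) * (F ^ 2 * X ^ s) := by
      apply mul_left_cancel₀ (X_ne_zero (R := L))
      have h4 : (X ^ (i + j) : L[X]) = X * X ^ s := by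
        rw [← pow_succ']; congr 1
      rw [h4] at h2
      rw [hl, hl', derivative_C, derivative_C]
      simp only [C_mul, map_ofNat]
      linear_combination 12 * F ^ 2 * C b * C d * h2
    rw [h3] at h1
    refine mem_of_C_mul_mem (mul_ne_zero (mul_ne_zero (mul_ne_zero (by norm_num) hb) hd) ?_) h1
    rw [sub_ne_zero]
    exact_mod_cast hne
  refine span_of_pow (T := X) monic_X natDegree_X (2 * k - 10) ?_ u hu
  have hs1 : F ^ 2 * X ^ (2 * k - 11) ∈
      DlSp F l f1 f2 (k - 2) * DlSp F l' g1 g2 (k - 2) := by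
    obtain ⟨e, he⟩ : ∃ e, k = e + 7 + 1 := ⟨k - 8, by omega⟩
    obtain ⟨κ, h1⟩ := case3a (e := e) (j := 1) le_rfl he hf hg hb hd hl hl' hPN
    have h2 := nat_mul_mem (κ * (2 + 1)) (hbig (2 * e + 3 + 1) (by omega))
    have h3 := Submodule.sub_mem _ h1 h2
    have h4 : F ^ 2 * (C (6 + 4 * ((1 : ℕ) : L)) * X ^ (2 * e + 4 + 1)
        + C (κ * (2 + ((1 : ℕ) : L))) * X ^ (2 * e + 3 + 1))
        - C (κ * (2 + 1)) * (F ^ 2 * X ^ (2 * e + 3 + 1))
        = C (6 + 4) * (F ^ 2 * X ^ (2 * k - 11)) := by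
      rw [Nat.cast_one, mul_one, show 2 * k - 11 = 2 * e + 4 + 1 by omega]; ring
    rw [h4] at h3
    exact mem_of_C_mul_mem (by norm_num) h3
  have hs0 : F ^ 2 * X ^ (2 * k - 10) ∈
      DlSp F l f1 f2 (k - 2) * DlSp F l' g1 g2 (k - 2) := by
    obtain ⟨e, he⟩ : ∃ e, k = e + 7 + 0 := ⟨k - 7, by omega⟩
    obtain ⟨κ, h1⟩ := case3a (e := e) (j := 0) (by norm_num) he hf hg hb hd hl hl' hPN
    have h2 := nat_mul_mem (κ * (2 + 0)) hs1
    have h3 := Submodule.sub_mem _ h1 h2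
    have h4 : F ^ 2 * (C (6 + 4 * ((0 : ℕ) : L)) * X ^ (2 * e + 4 + 0)
        + C (κ * (2 + ((0 : ℕ) : L))) * X ^ (2 * e + 3 + 0))
        - C (κ * (2 + 0)) * (F ^ 2 * X ^ (2 * k - 11))
        = C 6 * (F ^ 2 * X ^ (2 * k - 10)) := by
      rw [Nat.cast_zero, mul_zero, add_zero, show 2 * k - 11 = 2 * e + 3 + 0 by omega,
        show 2 * k - 10 = 2 * e + 4 + 0 by omega]; ring
    rw [h4] at h3
    exact mem_of_C_mul_mem (by norm_num) h3
  intro s hs
  rcases Nat.lt_or_ge (2 * k - 12) s with h | h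
  · rcases Nat.eq_or_lt_of_le hs with h' | h'
    · rw [h']; exact hs0
    · have : s = 2 * k - 11 := by omega
      rw [this]; exact hs1
  · exact hbig s h

end

end TNA_

theorem tna_proof (hPNX : Stmt_PNX) (_hWDG : Stmt_WDG) : Stmt_TNA := by
  intro L _ _ _ F f1 f2 l g1 g2 l' k hk hF hf hg hgF u hu
  obtain ⟨a, b, hl⟩ : ∃ a b : L, l = C a * X + C b :=
    ⟨_, _, eq_X_add_C_of_natDegree_le_one hf.dl⟩
  obtain ⟨c, d, hl'⟩ : ∃ c d : L, l' = C c * X + C d :=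
    ⟨_, _, eq_X_add_C_of_natDegree_le_one hg.dl⟩
  have dl : derivative l = C a := by rw [hl]; simp
  have dl' : derivative l' = C c := by rw [hl']; simp
  by_cases hκ : a * d - b * c = 0
  · by_cases ha : a = 0
    · have hb : b ≠ 0 := by
        rintro rfl
        apply hf.l0
        rw [hl, ha]; simp
      have hc : c = 0 := by
        rw [ha, zero_mul, zero_sub, neg_eq_zero] at hκ
        exact (mul_eq_zero.1 hκ).resolve_left hb
      have hd : d ≠ 0 := by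
        rintro rfl
        apply hg.l0
        rw [hl', hc]; simp
      refine TNA_.case3 hk hf hg hb hd (by rw [hl, ha]; simp) (by rw [hl', hc]; simp) ?_ u hu
      exact (hPNX L F g1 g2 l' k (by omega) hF hg).1
    · obtain ⟨q, hq⟩ : ∃ q : L, q = -b / a := ⟨_, rfl⟩
      have hb : b = -(a * q) := by rw [hq]; field_simp
      have hd : d = -(c * q) := by
        apply mul_left_cancel₀ ha
        rw [hb] at hκ
        linear_combination hκ
      have hl1 : l = C a * (X - C q) := by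
        rw [hl, hb, C_neg, C_mul]; ring
      have hl1' : l' = C c * (X - C q) := by
        rw [hl', hd, C_neg, C_mul]; ring
      have hc : c ≠ 0 := by
        rintro rfl
        apply hg.l0
        rw [hl1']; simp
      exact TNA_.case2 hk hf hg ha hc hl1 hl1' (hgF q) u hu
  · refine TNA_.case1 (κ := a * d - b * c) hk hf hg hκ ?_ u hu
    rw [dl, dl', hl, hl']
    simp only [C_sub, C_mul]
    ring

end Pool.Agent.RTB
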