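import Pool.Agent.RTB.SStmts

/-!
# (TNB) products `Dl m * Dh m'` and multiples of `F^2`, second form
-/

set_option autoImplicit false

open Polynomial

namespace Pool.Agent.RTB

namespace TNB_

variable {L : Type} [Field L]

/-- the polynomials `u` with `F^2 * u` in the product -/
noncomputable def VV (F l f1 f2 g1 g2 : L[X]) (k : ℕ) : Submodule L L[X] :=
  (DlSp F l f1 f2 (k - 2) * DhSp g1 g2 (k - 1)).comap (LinearMap.mulLeft L (F ^ 2))

lemma mem_VV {F l f1 f2 g1 g2 : L[X]} {k : ℕ} {u : L[X]} :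
    u ∈ VV F l f1 f2 g1 g2 k ↔ F ^ 2 * u ∈ DlSp F l f1 f2 (k - 2) * DhSp g1 g2 (k - 1) := Iff.rfl

lemma three_mul_mem (M : Submodule L L[X]) {p : L[X]} (hp : p ∈ M) : 3 * p ∈ M := by
  have := M.smul_mem (3 : L) hp
  rwa [smul_eq_C_mul, map_ofNat] at this

/-- a basic tensor -/
lemma prod_mem {F l f1 f2 g1 g2 : L[X]} {k : ℕ} {m n : L[X]} (hm : m.natDegree ≤ k - 2)
    (hn : n.natDegree ≤ k - 1) :
    Dl F l f1 f2 m * Dh g1 g2 n ∈ DlSp F l f1 f2 (k - 2) * DhSp g1 g2 (k - 1) :=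
  Submodule.mul_mem_mul (mem_DlSp.2 ⟨m, hm, rfl⟩) (mem_DhSp.2 ⟨n, hn, rfl⟩)

lemma deg_mul {p q : L[X]} {m n N : ℕ} (hp : p.natDegree ≤ m) (hq : q.natDegree ≤ n)
    (h : m + n ≤ N) : (p * q).natDegree ≤ N :=
  natDegree_mul_le.trans ((Nat.add_le_add hp hq).trans h)

lemma deg_Xpow (n : ℕ) : (X ^ n : L[X]).natDegree ≤ n := natDegree_X_pow_le n

lemma tens {A f1 f2 l g1 g2 : L[X]} {b : L} {k : ℕ} (hk : 9 ≤ k)
    (hw : wr f1 f2 = ((X - C b) * A) * l) (hl0 : l ≠ 0) (hl : l.natDegree ≤ 1)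
    (hg : wr g1 g2 = A) {m1 m3 : L[X]} (h1 : m1.natDegree ≤ k - 5) (h3 : m3.natDegree ≤ k - 6) :
    (18 * (derivative l * (X - C b)) - 30 * l) * (m1 * m3)
      + 12 * (l * (X - C b)) * (derivative m1 * m3 - m1 * derivative m3)
      ∈ VV ((X - C b) * A) l f1 f2 g1 g2 k := by
  have hll := der2_of_natDegree_le_one hl
  set lb : L[X] := X - C b with hlb
  have hlbd : derivative lb = 1 := by simp [hlb]
  have hlbn : lb.natDegree ≤ 1 := by simp [hlb]
  have hlb2 : (lb ^ 2).natDegree ≤ 2 := by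
    rw [pow_two]; exact deg_mul hlbn hlbn (by norm_num)
  have hn : (lb ^ 2 * m3).natDegree ≤ k - 4 := deg_mul hlb2 h3 (by omega)
  set F : L[X] := lb * A with hF
  have key : F ^ 2 * ((18 * (derivative l * lb) - 30 * l) * (m1 * m3)
      + 12 * (l * lb) * (derivative m1 * m3 - m1 * derivative m3)) =
      Dl F l f1 f2 (X ^ 3 * m1) * Dh g1 g2 (lb ^ 2 * m3)
        - 3 * (Dl F l f1 f2 (X ^ 2 * m1) * Dh g1 g2 (X * (lb ^ 2 * m3)))
        + 3 * (Dl F l f1 f2 (X * m1) * Dh g1 g2 (X ^ 2 * (lb ^ 2 * m3)))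
        - Dl F l f1 f2 m1 * Dh g1 g2 (X ^ 3 * (lb ^ 2 * m3)) := by
    have hT := T3_identity f1 f2 g1 g2 X (l ^ 2 * m1) (lb ^ 2 * m3) derivative_X
    have e3 : Dh f1 f2 (X ^ 3 * (l ^ 2 * m1)) = l ^ 2 * Dl F l f1 f2 (X ^ 3 * m1) := by
      rw [← Dh_eq_Dl hw hll]; congr 1; ring
    have e2 : Dh f1 f2 (X ^ 2 * (l ^ 2 * m1)) = l ^ 2 * Dl F l f1 f2 (X ^ 2 * m1) := by
      rw [← Dh_eq_Dl hw hll]; congr 1; ring
    have e1 : Dh f1 f2 (X * (l ^ 2 * m1)) = l ^ 2 * Dl F l f1 f2 (X * m1) := by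
      rw [← Dh_eq_Dl hw hll]; congr 1; ring
    have e0 : Dh f1 f2 (l ^ 2 * m1) = l ^ 2 * Dl F l f1 f2 m1 := Dh_eq_Dl hw hll m1
    rw [e3, e2, e1, e0, hw, hg] at hT
    have hda : derivative (l ^ 2 * m1) = 2 * (l * derivative l) * m1 + l ^ 2 * derivative m1 := by
      rw [pow_two, derivative_mul, derivative_mul]; ring
    have hdb : derivative (lb ^ 2 * m3) = 2 * lb * m3 + lb ^ 2 * derivative m3 := by
      rw [pow_two, derivative_mul, derivative_mul, hlbd]; ring
    have hdF : derivative (F * l) = (A + lb * derivative A) * l + lb * A * derivative l := by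
      rw [hF, derivative_mul, derivative_mul, hlbd]; ring
    rw [hda, hdb, hdF] at hT
    have hl2 : l ^ 2 ≠ 0 := pow_ne_zero 2 hl0
    refine mul_left_cancel₀ hl2 ?_
    calc l ^ 2 * (F ^ 2 * ((18 * (derivative l * lb) - 30 * l) * (m1 * m3)
          + 12 * (l * lb) * (derivative m1 * m3 - m1 * derivative m3)))
        = 12 * (F * l * A) * ((2 * (l * derivative l) * m1 + l ^ 2 * derivative m1)
            * (lb ^ 2 * m3) - l ^ 2 * m1 * (2 * lb * m3 + lb ^ 2 * derivative m3))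
          + 6 * (F * l * derivative A - ((A + lb * derivative A) * l + lb * A * derivative l) * A)
            * (l ^ 2 * m1 * (lb ^ 2 * m3)) := by
          rw [hF]; ring
      _ = _ := by rw [← hT]; ring
  rw [mem_VV, key]
  have hX3 : (X ^ 3 * m1).natDegree ≤ k - 2 := deg_mul (deg_Xpow 3) h1 (by omega)
  have hX2 : (X ^ 2 * m1).natDegree ≤ k - 2 := deg_mul (deg_Xpow 2) h1 (by omega)
  have hX1 : (X * m1).natDegree ≤ k - 2 := deg_mul natDegree_X_le h1 (by omega)
  have hX0 : m1.natDegree ≤ k - 2 := h1.trans (by omega)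
  have hY3 : (X ^ 3 * (lb ^ 2 * m3)).natDegree ≤ k - 1 := deg_mul (deg_Xpow 3) hn (by omega)
  have hY2 : (X ^ 2 * (lb ^ 2 * m3)).natDegree ≤ k - 1 := deg_mul (deg_Xpow 2) hn (by omega)
  have hY1 : (X * (lb ^ 2 * m3)).natDegree ≤ k - 1 := deg_mul natDegree_X_le hn (by omega)
  have hY0 : (lb ^ 2 * m3).natDegree ≤ k - 1 := hn.trans (by omega)
  exact Submodule.sub_mem _ (Submodule.add_mem _ (Submodule.sub_mem _ (prod_mem hX3 hY0)
    (three_mul_mem _ (prod_mem hX2 hY1))) (three_mul_mem _ (prod_mem hX1 hY2)))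
    (prod_mem hX0 hY3)

/-- from monomials to polynomials -/
lemma mul_mem_of_pow (V : Submodule L L[X]) (Q : L[X]) (N : ℕ)
    (h : ∀ t ≤ N, Q * X ^ t ∈ V) (w : L[X]) (hw : w.natDegree ≤ N) : Q * w ∈ V := by
  rw [as_sum_range_C_mul_X_pow' w (Nat.lt_succ_of_le hw), Finset.mul_sum]
  refine Submodule.sum_mem _ fun t ht => ?_
  have : Q * (C (w.coeff t) * X ^ t) = (w.coeff t) • (Q * X ^ t) := by
    rw [smul_eq_C_mul]; ring
  rw [this]
  exact V.smul_mem _ (h t (by simpa using Nat.lt_succ_iff.1 (Finset.mem_range.1 ht)))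

lemma C_mul_mem (V : Submodule L L[X]) {p : L[X]} (c : L) (hp : p ∈ V) : C c * p ∈ V := by
  rw [← smul_eq_C_mul]; exact V.smul_mem c hp

lemma mem_of_C_mul_mem (V : Submodule L L[X]) {p : L[X]} {c : L} (hc : c ≠ 0)
    (hp : C c * p ∈ V) : p ∈ V := by
  have := C_mul_mem V c⁻¹ hp
  rwa [← mul_assoc, ← C_mul, inv_mul_cancel₀ hc, C_1, one_mul] at this

lemma twelve_ne [CharZero L] : (12 : L) ≠ 0 := by norm_num

section
variable [CharZero L] {A f1 f2 l g1 g2 : L[X]} {b : L} {k : ℕ}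

lemma llb_mem (hk : 9 ≤ k)
    (hw : wr f1 f2 = ((X - C b) * A) * l) (hl0 : l ≠ 0) (hl : l.natDegree ≤ 1)
    (hg : wr g1 g2 = A) (t : ℕ) (ht : t ≤ 2 * k - 13) :
    l * (X - C b) * X ^ t ∈ VV ((X - C b) * A) l f1 f2 g1 g2 k := by
  obtain ⟨i, j, hi, hj, rfl⟩ : ∃ i j, i ≤ k - 6 ∧ j ≤ k - 7 ∧ t = i + j := by
    by_cases h : t ≤ k - 6
    · exact ⟨t, 0, h, by omega, by omega⟩
    · exact ⟨k - 6, t - (k - 6), le_rfl, by omega, by omega⟩
  have h1 := tens (m1 := X * X ^ i) (m3 := X ^ j) hk hw hl0 hl hg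
    (deg_mul natDegree_X_le (deg_Xpow i) (by omega)) ((deg_Xpow j).trans (by omega))
  have h2 := tens (m1 := X ^ i) (m3 := X * X ^ j) hk hw hl0 hl hg
    ((deg_Xpow i).trans (by omega)) (deg_mul natDegree_X_le (deg_Xpow j) (by omega))
  have h3 := Submodule.sub_mem _ h1 h2
  refine mem_of_C_mul_mem _ (c := (24 : L)) (by norm_num) ?_
  have e : C (24 : L) * (l * (X - C b) * X ^ (i + j)) = ((18 * (derivative l * (X - C b)) - 30 * l)
      * (X * X ^ i * X ^ j) + 12 * (l * (X - C b)) * (derivative (X * X ^ i) * X ^ j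
        - X * X ^ i * derivative (X ^ j))) - ((18 * (derivative l * (X - C b)) - 30 * l)
      * (X ^ i * (X * X ^ j)) + 12 * (l * (X - C b)) * (derivative (X ^ i) * (X * X ^ j)
        - X ^ i * derivative (X * X ^ j))) := by
    have h24 : C (24 : L) = 24 := map_ofNat C 24
    rw [derivative_mul, derivative_mul, derivative_X, h24, pow_add]
    ring
  rw [e]
  exact h3

lemma P0_mem (hk : 9 ≤ k)
    (hw : wr f1 f2 = ((X - C b) * A) * l) (hl0 : l ≠ 0) (hl : l.natDegree ≤ 1)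
    (hg : wr g1 g2 = A) (t : ℕ) (ht : t ≤ 2 * k - 12) :
    (18 * (derivative l * (X - C b)) - 30 * l) * X ^ t
      ∈ VV ((X - C b) * A) l f1 f2 g1 g2 k := by
  obtain ⟨i, j, hi, hj, rfl⟩ : ∃ i j, i ≤ k - 6 ∧ j ≤ k - 6 ∧ t = i + j := by
    by_cases h : t ≤ k - 6
    · exact ⟨t, 0, h, by omega, by omega⟩
    · exact ⟨k - 6, t - (k - 6), le_rfl, by omega, by omega⟩
  have h1 := tens (m1 := X ^ i) (m3 := X ^ j) hk hw hl0 hl hg
    ((deg_Xpow i).trans (by omega)) ((deg_Xpow j).trans (by omega))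
  have h2 := tens (m1 := X ^ j) (m3 := X ^ i) hk hw hl0 hl hg
    ((deg_Xpow j).trans (by omega)) ((deg_Xpow i).trans (by omega))
  have h3 := Submodule.add_mem _ h1 h2
  refine mem_of_C_mul_mem _ (c := (2 : L)) (by norm_num) ?_
  have e : C (2 : L) * ((18 * (derivative l * (X - C b)) - 30 * l) * X ^ (i + j)) =
      ((18 * (derivative l * (X - C b)) - 30 * l)
      * (X ^ i * X ^ j) + 12 * (l * (X - C b)) * (derivative (X ^ i) * X ^ j
        - X ^ i * derivative (X ^ j))) + ((18 * (derivative l * (X - C b)) - 30 * l)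
      * (X ^ j * X ^ i) + 12 * (l * (X - C b)) * (derivative (X ^ j) * X ^ i
        - X ^ j * derivative (X ^ i))) := by
    have h24 : C (2 : L) = 2 := map_ofNat C 2
    rw [h24, pow_add]
    ring
  rw [e]
  exact h3

lemma top_mem (hk : 9 ≤ k)
    (hw : wr f1 f2 = ((X - C b) * A) * l) (hl0 : l ≠ 0) (hl : l.natDegree ≤ 1)
    (hg : wr g1 g2 = A) :
    ((18 * (derivative l * (X - C b)) - 30 * l) * X + 12 * (l * (X - C b))) * X ^ (2 * k - 12)
      ∈ VV ((X - C b) * A) l f1 f2 g1 g2 k := by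
  have h1 := tens (m1 := X * X ^ (k - 6)) (m3 := X ^ (k - 6)) hk hw hl0 hl hg
    (deg_mul natDegree_X_le (deg_Xpow (k - 6)) (by omega)) (deg_Xpow (k - 6))
  have e : ((18 * (derivative l * (X - C b)) - 30 * l) * X + 12 * (l * (X - C b)))
      * X ^ (2 * k - 12) = (18 * (derivative l * (X - C b)) - 30 * l)
      * (X * X ^ (k - 6) * X ^ (k - 6)) + 12 * (l * (X - C b)) * (derivative (X * X ^ (k - 6))
        * X ^ (k - 6) - X * X ^ (k - 6) * derivative (X ^ (k - 6))) := by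
    rw [show 2 * k - 12 = (k - 6) + (k - 6) by omega, pow_add, derivative_mul, derivative_X]
    ring
  rw [e]
  exact h1

lemma wr_self (a : L[X]) : wr a a = 0 := by simp only [wr]; ring

/-- the special element in the case where `l` is proportional to `X - b` -/
lemma special {c : L} (hc : c ≠ 0) (hk : 9 ≤ k) (hd1 : f1.natDegree ≤ k) (hd2 : f2.natDegree ≤ k)
    (hw : wr f1 f2 = ((X - C b) * A) * (C c * (X - C b)))
    (hg : wr g1 g2 = A) (hb : f1.eval b ≠ 0 ∨ f2.eval b ≠ 0) :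
    ∃ κ : L, 12 * C c * (10 - 3 * C κ * (X - C b))
      ∈ VV ((X - C b) * A) (C c * (X - C b)) f1 f2 g1 g2 k := by
  obtain ⟨α, β, hf⟩ : ∃ α β : L, (C α * f1 + C β * f2).eval b = 1 := by
    rcases hb with h | h
    · exact ⟨(f1.eval b)⁻¹, 0, by simp [h]⟩
    · exact ⟨0, (f2.eval b)⁻¹, by simp [h]⟩
  set f : L[X] := C α * f1 + C β * f2 with hfdef
  have hfd : f.natDegree ≤ k := by
    refine (natDegree_add_le _ _).trans (max_le ?_ ?_)
    · exact (natDegree_C_mul_le _ _).trans hd1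
    · exact (natDegree_C_mul_le _ _).trans hd2
  set T : L[X] := X - C b with hTdef
  have hTd : derivative T = 1 := by simp [hTdef]
  have hT0 : T ≠ 0 := X_sub_C_ne_zero b
  have hTb : T.eval b = 0 := by simp [hTdef]
  have hTn : T.natDegree ≤ 1 := by simp [hTdef]
  have hTn1 : T.natDegree = 1 := by simp [hTdef]
  obtain ⟨κ, hκ⟩ : ∃ κ : L, κ = -(derivative f).eval b := ⟨_, rfl⟩
  refine ⟨κ, ?_⟩
  obtain ⟨m, hm⟩ : ∃ m : L[X], 1 - C κ * T - f = T ^ 2 * m := by
    have h1 : (1 - C κ * T - f).eval b = 0 := by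
      rw [eval_sub, eval_sub, eval_mul, hTb, hf]; simp
    obtain ⟨p, hp0⟩ := (dvd_iff_isRoot.2 h1 : T ∣ 1 - C κ * T - f)
    have hp : 1 - C κ * T - f = T * p := hp0
    have h2 : p.eval b = 0 := by
      have h3 := congrArg (fun q => (derivative q).eval b) hp
      simp only [derivative_sub, derivative_mul, derivative_one, derivative_C, hTd, eval_sub,
        eval_add, eval_mul, hTb, eval_one, eval_C, zero_mul, eval_zero, mul_one, one_mul,
        add_zero, zero_add, zero_sub] at h3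
      rw [← h3, eval_neg, eval_C, hκ]; ring
    obtain ⟨m, hm0⟩ := (dvd_iff_isRoot.2 h2 : T ∣ p)
    have hm : p = T * m := hm0
    exact ⟨m, by rw [hp, hm]; ring⟩
  have hmd : m.natDegree ≤ k - 2 := by
    rcases eq_or_ne m 0 with rfl | hm0
    · simp
    have h1 : (1 - C κ * T - f).natDegree ≤ k := by
      refine (natDegree_sub_le _ _).trans (max_le ?_ hfd)
      refine (natDegree_sub_le _ _).trans (max_le (by simp) ?_)
      exact ((natDegree_C_mul_le _ _).trans hTn).trans (by omega)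
    rw [hm, natDegree_mul (pow_ne_zero 2 hT0) hm0, natDegree_pow, hTn1] at h1
    omega
  have hl : derivative (derivative (C c * T)) = 0 := by
    rw [derivative_C_mul, hTd]; simp
  set F : L[X] := T * A with hF
  have hDlin : ∀ (s : L) (v : L[X]), Dh f1 f2 (C s * v) = C s * Dh f1 f2 v := fun s v => by
    have := (DhLin f1 f2).map_smul s v
    simpa [DhLin, smul_eq_C_mul] using this
  have hc2 : C (c ^ 2) ≠ 0 := by simpa using hc
  have hD2 : ∀ v : L[X], Dh f1 f2 (T ^ 2 * v) = T ^ 2 * Dl F (C c * T) f1 f2 v := by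
    intro v
    have h1 := Dh_eq_Dl hw hl v
    have h2 : (C c * T) ^ 2 * v = C (c ^ 2) * (T ^ 2 * v) := by rw [C_pow]; ring
    rw [h2, hDlin] at h1
    have h3 : C (c ^ 2) * Dh f1 f2 (T ^ 2 * v) = C (c ^ 2) * (T ^ 2 * Dl F (C c * T) f1 f2 v) := by
      rw [h1, C_pow]; ring
    exact mul_left_cancel₀ hc2 h3
  have hDadd : ∀ v w : L[X], Dh f1 f2 (v + w) = Dh f1 f2 v + Dh f1 f2 w :=
    fun v w => (DhLin f1 f2).map_add v w
  have hDf : Dh f1 f2 f = 0 := by
    rw [hfdef, hDadd, hDlin, hDlin, Dh_self1, Dh_self2]; ring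
  have hDm : T ^ 2 * Dl F (C c * T) f1 f2 m = Dh f1 f2 1 - C κ * Dh f1 f2 T := by
    rw [← hD2, ← hm]
    have h1 : (1 : L[X]) - C κ * T - f = 1 + (C (-κ) * T + C (-1) * f) := by
      rw [C_neg, C_neg, C_1]; ring
    rw [h1, hDadd, hDadd, hDlin, hDlin, hDf, C_neg]; ring
  have hGlin : ∀ (s : L) (v : L[X]), Dh g1 g2 (C s * v) = C s * Dh g1 g2 v := fun s v => by
    have := (DhLin g1 g2).map_smul s v
    simpa [DhLin, smul_eq_C_mul] using this
  have hGadd : ∀ v w : L[X], Dh g1 g2 (v + w) = Dh g1 g2 v + Dh g1 g2 w :=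
    fun v w => (DhLin g1 g2).map_add v w
  have h1 := T3_identity f1 f2 g1 g2 T 1 (T ^ 3) hTd
  have h2 := T3_identity f1 f2 g1 g2 T T (T ^ 2) hTd
  have h3 := T3_identity f1 f2 g1 g2 T T (T ^ 3) hTd
  have p1 : derivative (T ^ 2) = 2 * T := by rw [pow_two, derivative_mul, hTd]; ring
  have p2 : derivative (T ^ 3) = 3 * T ^ 2 := by
    rw [pow_succ', derivative_mul, p1, hTd]; ring
  have q1 : T * T ^ 2 = T ^ 3 := by ring
  have q2 : T * T ^ 3 = T ^ 4 := by ring
  have q3 : T ^ 2 * T ^ 2 = T ^ 4 := by ring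
  have q4 : T ^ 2 * T ^ 3 = T ^ 5 := by ring
  have q5 : T ^ 3 * T ^ 3 = T ^ 6 := by ring
  have q6 : T ^ 3 * T ^ 2 = T ^ 5 := by ring
  have q7 : T ^ 3 * T = T ^ 4 := by ring
  have q8 : T ^ 2 * T = T ^ 3 := by ring
  have q9 : T * T = T ^ 2 := by ring
  have hdF : derivative (F * (C c * T)) = 2 * C c * T * A + C c * T ^ 2 * derivative A := by
    rw [hF, derivative_mul, derivative_mul, derivative_C_mul, hTd]; ring
  rw [hw, hg, hdF, p2, mul_one, mul_one, mul_one, q2, q4, q5, derivative_one] at h1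
  rw [hw, hg, hdF, p1, hTd, q1, q3, q6, q7, q8, q9] at h2
  rw [hw, hg, hdF, p2, hTd, q2, q4, q5, q7, q8, q9] at h3
  have r2 := hD2 1
  have r3 := hD2 T
  have r4 := hD2 (T ^ 2)
  rw [mul_one] at r2
  rw [q8] at r3
  rw [q3] at r4
  have s1 : Dh g1 g2 (C (-6) * T ^ 4 + C (3 * κ) * T ^ 5)
      = -6 * Dh g1 g2 (T ^ 4) + 3 * C κ * Dh g1 g2 (T ^ 5) := by
    rw [hGadd, hGlin, hGlin, C_mul, C_neg, map_ofNat, map_ofNat]
  have s2 : Dh g1 g2 (C 8 * T ^ 3 + C (-3 * κ) * T ^ 4)
      = 8 * Dh g1 g2 (T ^ 3) - 3 * C κ * Dh g1 g2 (T ^ 4) := by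
    rw [hGadd, hGlin, hGlin, C_mul, C_neg, map_ofNat, map_ofNat]; ring
  have s3 : Dh g1 g2 (C (-3) * T ^ 2 + C κ * T ^ 3)
      = -3 * Dh g1 g2 (T ^ 2) + C κ * Dh g1 g2 (T ^ 3) := by
    rw [hGadd, hGlin, hGlin, C_neg, map_ofNat]
  have key : F ^ 2 * (12 * C c * (10 - 3 * C κ * T)) =
      Dl F (C c * T) f1 f2 m * Dh g1 g2 (T ^ 6)
      + Dl F (C c * T) f1 f2 1 * Dh g1 g2 (C (-6) * T ^ 4 + C (3 * κ) * T ^ 5)
      + Dl F (C c * T) f1 f2 T * Dh g1 g2 (C 8 * T ^ 3 + C (-3 * κ) * T ^ 4)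
      + Dl F (C c * T) f1 f2 (T ^ 2) * Dh g1 g2 (C (-3) * T ^ 2 + C κ * T ^ 3) := by
    refine mul_left_cancel₀ (pow_ne_zero 2 hT0) ?_
    rw [s1, s2, s3]
    calc T ^ 2 * (F ^ 2 * (12 * C c * (10 - 3 * C κ * T)))
        = -(12 * (F * (C c * T) * A) * (0 * T ^ 3 - 1 * (3 * T ^ 2))
            + 6 * (F * (C c * T) * derivative A
              - (2 * C c * T * A + C c * T ^ 2 * derivative A) * A) * (1 * T ^ 3))
          - 3 * (12 * (F * (C c * T) * A) * (1 * T ^ 2 - T * (2 * T))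
            + 6 * (F * (C c * T) * derivative A
              - (2 * C c * T * A + C c * T ^ 2 * derivative A) * A) * (T * T ^ 2))
          + C κ * (12 * (F * (C c * T) * A) * (1 * T ^ 3 - T * (3 * T ^ 2))
            + 6 * (F * (C c * T) * derivative A
              - (2 * C c * T * A + C c * T ^ 2 * derivative A) * A) * (T * T ^ 3)) := by
          rw [hF]; ring
      _ = (T ^ 2 * Dl F (C c * T) f1 f2 m) * Dh g1 g2 (T ^ 6)
          + (T ^ 2 * Dl F (C c * T) f1 f2 1) * (-6 * Dh g1 g2 (T ^ 4) + 3 * C κ * Dh g1 g2 (T ^ 5))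
          + (T ^ 2 * Dl F (C c * T) f1 f2 T) * (8 * Dh g1 g2 (T ^ 3) - 3 * C κ * Dh g1 g2 (T ^ 4))
          + (T ^ 2 * Dl F (C c * T) f1 f2 (T ^ 2)) * (-3 * Dh g1 g2 (T ^ 2)
            + C κ * Dh g1 g2 (T ^ 3)) := by
          rw [hDm, ← r2, ← r3, ← r4]
          linear_combination h1 + 3 * h2 - C κ * h3
      _ = _ := by ring
  rw [mem_VV, key]
  have hdeg : ∀ (s t : L) (i j : ℕ), i ≤ 6 → j ≤ 6 → (C s * T ^ i + C t * T ^ j).natDegree ≤ k - 1 := by
    intro s t i j hi hj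
    refine (natDegree_add_le _ _).trans (max_le ?_ ?_)
    · refine (natDegree_C_mul_le _ _).trans ?_
      rw [natDegree_pow, hTn1]; omega
    · refine (natDegree_C_mul_le _ _).trans ?_
      rw [natDegree_pow, hTn1]; omega
  refine Submodule.add_mem _ (Submodule.add_mem _ (Submodule.add_mem _ (prod_mem hmd ?_)
    (prod_mem (by simp) (hdeg _ _ _ _ (by norm_num) (by norm_num))))
    (prod_mem (by rw [hTn1]; omega) (hdeg _ _ _ _ (by norm_num) (by norm_num))))
    (prod_mem ?_ (hdeg _ _ _ _ (by norm_num) (by norm_num)))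
  · rw [natDegree_pow, hTn1]; omega
  · rw [natDegree_pow, hTn1]; omega

end

end TNB_

open TNB_ in
theorem tnb_proof (_hPNX : Stmt_PNX) (_hWDG : Stmt_WDG) : Stmt_TNB := by
  intro L _ _ _ A f1 f2 l g1 g2 b k hk hA hAb hPN hb hg1 hg2 hg u hu
  obtain ⟨hd1, hd2, hw, hl0, hl⟩ := hPN
  rw [← mem_VV]
  have hleq := eq_X_add_C_of_natDegree_le_one hl
  set c1 := l.coeff 1 with hc1
  set c0 := l.coeff 0 with hc0
  have hdl : derivative l = C c1 := by rw [hleq]; simp
  have hP := P0_mem hk hw hl0 hl hg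
  have hLL := llb_mem hk hw hl0 hl hg
  have hTop := top_mem hk hw hl0 hl hg
  set V := VV ((X - C b) * A) l f1 f2 g1 g2 k with hV
  rw [hdl] at hTop
  simp only [hdl] at hP
  by_cases h1 : c1 = 0
  · -- `l` is constant
    have hlc : l = C c0 := by rw [hleq, h1]; simp
    have hc0' : c0 ≠ 0 := by
      intro h
      exact hl0 (by rw [hlc, h, C_0])
    have hX : ∀ t ≤ 2 * k - 12, X ^ t ∈ V := by
      intro t ht
      refine mem_of_C_mul_mem V (c := -30 * c0) (by simpa using hc0') ?_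
      have := hP t ht
      have e : C (-30 * c0) * X ^ t = (18 * (C c1 * (X - C b)) - 30 * l) * X ^ t := by
        rw [h1, hlc, C_mul, C_neg, map_ofNat, C_0]; ring
      rw [e]; exact this
    have hXt : X ^ (2 * k - 11) ∈ V := by
      refine mem_of_C_mul_mem V (c := -18 * c0) (by simpa using hc0') ?_
      have h2 := Submodule.add_mem V hTop (C_mul_mem V (12 * b * c0) (hX _ le_rfl))
      have e : C (-18 * c0) * X ^ (2 * k - 11) = ((18 * (C c1 * (X - C b)) - 30 * l) * X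
          + 12 * (l * (X - C b))) * X ^ (2 * k - 12) + C (12 * b * c0) * X ^ (2 * k - 12) := by
        rw [show 2 * k - 11 = (2 * k - 12) + 1 by omega, pow_succ, h1, hlc]
        simp only [C_mul, C_neg, C_0, map_ofNat]
        ring
      rw [e]; exact h2
    have := mul_mem_of_pow V 1 (2 * k - 11) (fun t ht => by
      rw [one_mul]
      rcases Nat.lt_or_ge (2 * k - 12) t with h | h
      · rw [show t = 2 * k - 11 by omega]; exact hXt
      · exact hX t h) u hu
    rwa [one_mul] at this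
  · -- `l` has a root
    set q : L := -c0 / c1 with hq
    have hlq : l = C c1 * (X - C q) := by
      rw [hleq, mul_sub, ← C_mul, hq, mul_div_cancel₀ _ h1, C_neg, sub_neg_eq_add]
    by_cases hqb : q = b
    · -- the root is `b`
      have hlb : l = C c1 * (X - C b) := by rw [hlq, hqb]
      have hT : ∀ w : L[X], w.natDegree ≤ 2 * k - 12 → (X - C b) * w ∈ V := by
        refine mul_mem_of_pow V (X - C b) (2 * k - 12) (fun t ht => ?_)
        refine mem_of_C_mul_mem V (c := -12 * c1) (by simpa using h1) ?_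
        have e : C (-12 * c1) * ((X - C b) * X ^ t)
            = (18 * (C c1 * (X - C b)) - 30 * l) * X ^ t := by
          rw [hlb, C_mul, C_neg, map_ofNat]; ring
        rw [e]; exact hP t ht
      obtain ⟨κ, hκ⟩ := special (g1 := g1) (g2 := g2) h1 hk hd1 hd2 (by rw [← hlb]; exact hw) hg hb
      rw [← hlb, ← hV] at hκ
      set u0 : L[X] := 12 * C c1 * (10 - 3 * C κ * (X - C b)) with hu0
      have hu0b : u0.eval b = 120 * c1 := by
        simp [hu0]; ring
      have h120 : (120 : L) * c1 ≠ 0 := mul_ne_zero (by norm_num) h1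
      set s : L := u.eval b / (120 * c1) with hs
      have hroot : (u - C s * u0).eval b = 0 := by
        rw [eval_sub, eval_mul, eval_C, hu0b, hs, div_mul_cancel₀ _ h120, sub_self]
      obtain ⟨w, hw'⟩ := (dvd_iff_isRoot.2 hroot : X - C b ∣ u - C s * u0)
      have hu0d : u0.natDegree ≤ 1 := by
        have : u0 = C (12 * c1 * (10 + 3 * κ * b)) + C (-36 * c1 * κ) * X := by
          rw [hu0]
          simp only [C_mul, C_add, C_neg, map_ofNat]
          ring
        rw [this]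
        refine (natDegree_add_le _ _).trans (max_le (by rw [natDegree_C]; exact Nat.zero_le _) ?_)
        exact (natDegree_C_mul_le _ _).trans natDegree_X_le
      have hwd : w.natDegree ≤ 2 * k - 12 := by
        rcases eq_or_ne w 0 with rfl | hw0
        · simp
        have h2 : (u - C s * u0).natDegree ≤ 2 * k - 11 := by
          refine (natDegree_sub_le _ _).trans (max_le hu ?_)
          exact ((natDegree_C_mul_le _ _).trans hu0d).trans (by omega)
        rw [hw', natDegree_mul (X_sub_C_ne_zero b) hw0, natDegree_X_sub_C] at h2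
        omega
      have h3 := Submodule.add_mem V (hT w hwd) (C_mul_mem V s hκ)
      have e : u = (X - C b) * w + C s * u0 := by rw [← hw']; ring
      rw [e]; exact h3
    · -- the root is not `b`
      have hPm : ∀ w : L[X], w.natDegree ≤ 2 * k - 12 →
          (18 * (C c1 * (X - C b)) - 30 * l) * w ∈ V :=
        mul_mem_of_pow V _ (2 * k - 12) hP
      have hLm : ∀ w : L[X], w.natDegree ≤ 2 * k - 13 → l * (X - C b) * w ∈ V :=
        mul_mem_of_pow V _ (2 * k - 13) hLL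
      set P0 : L[X] := 18 * (C c1 * (X - C b)) - 30 * l with hP0
      have hP0q : P0.eval q = 18 * c1 * (q - b) := by
        rw [hP0, hlq]; simp; ring
      have hP0b : P0.eval b = 30 * c1 * (q - b) := by
        rw [hP0, hlq]; simp; ring
      have hqb' : q - b ≠ 0 := sub_ne_zero.2 hqb
      have hbq' : b - q ≠ 0 := sub_ne_zero.2 (Ne.symm hqb)
      have hP0q' : P0.eval q ≠ 0 := by
        rw [hP0q]; exact mul_ne_zero (mul_ne_zero (by norm_num) h1) hqb'
      have hP0b' : P0.eval b ≠ 0 := by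
        rw [hP0b]; exact mul_ne_zero (mul_ne_zero (by norm_num) h1) hqb'
      set β : L[X] := C (u.eval q / P0.eval q / (q - b)) * (X - C b)
        + C (u.eval b / P0.eval b / (b - q)) * (X - C q) with hβ
      have hβq : β.eval q = u.eval q / P0.eval q := by
        rw [hβ]
        simp only [eval_add, eval_mul, eval_C, eval_sub, eval_X, sub_self, mul_zero, add_zero]
        rw [div_mul_cancel₀ _ hqb']
      have hβb : β.eval b = u.eval b / P0.eval b := by
        rw [hβ]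
        simp only [eval_add, eval_mul, eval_C, eval_sub, eval_X, sub_self, mul_zero, zero_add]
        rw [div_mul_cancel₀ _ hbq']
      have hβd : β.natDegree ≤ 1 := by
        refine (natDegree_add_le _ _).trans (max_le ?_ ?_)
        · exact (natDegree_C_mul_le _ _).trans (natDegree_X_sub_C b).le
        · exact (natDegree_C_mul_le _ _).trans (natDegree_X_sub_C q).le
      have hP0d : P0.natDegree ≤ 1 := by
        rw [hP0]
        refine (natDegree_sub_le _ _).trans (max_le ?_ ?_)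
        · rw [show (18 : L[X]) * (C c1 * (X - C b)) = C (18 * c1) * (X - C b) by
            rw [C_mul, map_ofNat]; ring]
          exact (natDegree_C_mul_le _ _).trans (natDegree_X_sub_C b).le
        · rw [show (30 : L[X]) * l = C 30 * l by rw [map_ofNat]]
          exact (natDegree_C_mul_le _ _).trans hl
      have r1 : (u - P0 * β).eval q = 0 := by
        rw [eval_sub, eval_mul, hβq, mul_div_cancel₀ _ hP0q', sub_self]
      have r2 : (u - P0 * β).eval b = 0 := by
        rw [eval_sub, eval_mul, hβb, mul_div_cancel₀ _ hP0b', sub_self]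
      obtain ⟨p, hp⟩ := (dvd_iff_isRoot.2 r1 : X - C q ∣ u - P0 * β)
      have r3 : p.eval b = 0 := by
        rw [hp, eval_mul, eval_sub, eval_X, eval_C] at r2
        exact (mul_eq_zero.1 r2).resolve_left hbq'
      obtain ⟨w, hw'⟩ := (dvd_iff_isRoot.2 r3 : X - C b ∣ p)
      have hwd : w.natDegree ≤ 2 * k - 13 := by
        rcases eq_or_ne w 0 with rfl | hw0
        · simp
        have h2 : (u - P0 * β).natDegree ≤ 2 * k - 11 := by
          refine (natDegree_sub_le _ _).trans (max_le hu ?_)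
          exact deg_mul hP0d hβd (by omega)
        rw [hp, hw', natDegree_mul (X_sub_C_ne_zero q) (mul_ne_zero (X_sub_C_ne_zero b) hw0),
          natDegree_mul (X_sub_C_ne_zero b) hw0, natDegree_X_sub_C, natDegree_X_sub_C] at h2
        omega
      have h3 := Submodule.add_mem V (C_mul_mem V c1⁻¹ (hLm w hwd))
        (hPm β (hβd.trans (by omega)))
      have e : u = C c1⁻¹ * (l * (X - C b) * w) + P0 * β := by
        have : C c1⁻¹ * (l * (X - C b) * w) = (X - C q) * ((X - C b) * w) := by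
          have hcc : C c1⁻¹ * C c1 = 1 := by rw [← C_mul, inv_mul_cancel₀ h1, C_1]
          calc C c1⁻¹ * (l * (X - C b) * w) = (C c1⁻¹ * C c1) * ((X - C q) * ((X - C b) * w)) := by
                rw [hlq]; ring
            _ = _ := by rw [hcc, one_mul]
        rw [this, ← hw', ← hp]; ring
      rw [e]; exact h3

end Pool.Agent.RTB
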