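import Pool.Agent.RTB.SStmts

set_option autoImplicit false

open Polynomial

namespace Pool.Agent.RTB

namespace TNC_

variable {L : Type} [Field L]

theorem Dh_C (f1 f2 v : L[X]) (c : L) : Dh f1 f2 (C c * v) = C c * Dh f1 f2 v := by
  simp only [Dh, derivative_mul, derivative_C, zero_mul, zero_add]
  ring

theorem dT (a : L) : derivative (X - C a : L[X]) = 1 := by simp

theorem dpow (a : L) (n : ℕ) :
    (X - C a : L[X]) * derivative ((X - C a : L[X]) ^ n) = C (n : L) * (X - C a : L[X]) ^ n := by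
  cases n with
  | zero => simp
  | succ m =>
    rw [derivative_pow, dT, Nat.add_sub_cancel]
    rw [pow_succ]
    ring

theorem deg_le (a c : L) (n m : ℕ) (h : n ≤ m) :
    (C c * (X - C a : L[X]) ^ n).natDegree ≤ m := by
  refine le_trans (natDegree_C_mul_le _ _) ?_
  rw [natDegree_pow, natDegree_X_sub_C]
  omega

theorem deg_le' (a : L) (n m : ℕ) (h : n ≤ m) :
    ((X - C a : L[X]) ^ n).natDegree ≤ m := by
  rw [natDegree_pow, natDegree_X_sub_C]
  omega

theorem core [CharZero L] (A f1 f2 g1 g2 : L[X]) (a : L) (k i j : ℕ)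
    (hf : wr f1 f2 = A) (hg : wr g1 g2 = A) (hi : i + 3 ≤ k - 1) (hj : j + 7 ≤ k - 1)
    (hij : i ≠ j + 4) :
    ∃ (n : ℕ) (p q : Fin n → L[X]), (∀ i, (p i).natDegree ≤ k - 1 ∧ (q i).natDegree ≤ k - 1 ∧
      (X - C a) ^ 4 ∣ q i) ∧
    ∑ i, Dh f1 f2 (p i) * Dh g1 g2 (q i) = A ^ 2 * (X - C a) ^ (i + j + 3) := by
  have hne : (12 * ((i : L) - (4 + j))) ≠ 0 := by
    apply mul_ne_zero
    · norm_num
    · intro h
      apply hij
      have h2 : (i : L) = ((j + 4 : ℕ) : L) := by
        push_cast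
        linear_combination h
      exact_mod_cast h2
  set e : L := (12 * ((i : L) - (4 + j)))⁻¹ with he
  refine ⟨4, ![C e * (X - C a) ^ (i + 3), C (-3 * e) * (X - C a) ^ (i + 2),
    C (3 * e) * (X - C a) ^ (i + 1), C (-e) * (X - C a) ^ i],
    ![(X - C a) ^ (j + 4), (X - C a) ^ (j + 5), (X - C a) ^ (j + 6), (X - C a) ^ (j + 7)],
    ?_, ?_⟩
  · intro t
    fin_cases t
    · refine ⟨deg_le _ _ _ _ (by omega), deg_le' _ _ _ (by omega), ?_⟩
      exact pow_dvd_pow _ (by omega)
    · refine ⟨deg_le _ _ _ _ (by omega), deg_le' _ _ _ (by omega), ?_⟩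
      exact pow_dvd_pow _ (by omega)
    · refine ⟨deg_le _ _ _ _ (by omega), deg_le' _ _ _ (by omega), ?_⟩
      exact pow_dvd_pow _ (by omega)
    · refine ⟨deg_le _ _ _ _ (by omega), deg_le' _ _ _ (by omega), ?_⟩
      exact pow_dvd_pow _ (by omega)
  · have h1 := T3_identity f1 f2 g1 g2 (X - C a) ((X - C a) ^ i) ((X - C a) ^ (j + 4)) (dT a)
    rw [hf, hg] at h1
    have h2 : derivative ((X - C a : L[X]) ^ i) * (X - C a) ^ (j + 4)
        - (X - C a) ^ i * derivative ((X - C a : L[X]) ^ (j + 4))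
        = C ((i : L) - (4 + j)) * (X - C a) ^ (i + j + 3) := by
      have e1 := dpow a i
      have e2 := dpow a (j + 4)
      have e3 : derivative ((X - C a : L[X]) ^ (j + 4))
          = C ((j + 4 : ℕ) : L) * (X - C a) ^ (j + 3) := by
        have hT0 : (X - C a : L[X]) ≠ 0 := X_sub_C_ne_zero a
        apply mul_left_cancel₀ hT0
        rw [e2]; ring
      rw [e3]
      have e4 : derivative ((X - C a : L[X]) ^ i) * (X - C a) ^ (j + 4)
          = ((X - C a : L[X]) * derivative ((X - C a : L[X]) ^ i)) * (X - C a) ^ (j + 3) := by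
        ring
      rw [e4, e1]
      have e5 : (C ((j + 4 : ℕ) : L) : L[X]) = C ((4 : L) + j) := by
        congr 1
        push_cast
        ring
      rw [e5, C_sub]
      ring
    rw [h2] at h1
    have h3 : (C e : L[X]) * (12 * C ((i : L) - (4 + j))) = 1 := by
      have : (12 : L[X]) = C (12 : L) := (map_ofNat (C : L →+* L[X]) 12).symm
      rw [this, ← C_mul, ← C_mul, he, inv_mul_cancel₀ hne, C_1]
    rw [Fin.sum_univ_four]
    simp only [Matrix.cons_val_zero, Matrix.cons_val_one, Matrix.cons_val_two,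
      Matrix.cons_val_three, Matrix.head_cons, Matrix.tail_cons, Matrix.cons_val]
    rw [Dh_C, Dh_C, Dh_C, Dh_C]
    have h4 : (C (-3 * e) : L[X]) = -3 * C e := by
      rw [C_mul, C_neg, map_ofNat (C : L →+* L[X]) 3]
    have h5 : (C (3 * e) : L[X]) = 3 * C e := by
      rw [C_mul, map_ofNat (C : L →+* L[X]) 3]
    have h6 : (C (-e) : L[X]) = - C e := by rw [C_neg]
    rw [h4, h5, h6]
    have p3 : (X - C a : L[X]) ^ (i + 3) = (X - C a) ^ 3 * (X - C a) ^ i := by ring
    have p2 : (X - C a : L[X]) ^ (i + 2) = (X - C a) ^ 2 * (X - C a) ^ i := by ring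
    have p1 : (X - C a : L[X]) ^ (i + 1) = (X - C a) * (X - C a) ^ i := by ring
    have q1 : (X - C a : L[X]) ^ (j + 5) = (X - C a) * (X - C a) ^ (j + 4) := by ring
    have q2 : (X - C a : L[X]) ^ (j + 6) = (X - C a) ^ 2 * (X - C a) ^ (j + 4) := by ring
    have q3 : (X - C a : L[X]) ^ (j + 7) = (X - C a) ^ 3 * (X - C a) ^ (j + 4) := by ring
    rw [p3, p2, p1, q1, q2, q3]
    linear_combination (C e) * h1 + (A ^ 2 * (X - C a) ^ (i + j + 3)) * h3

end TNC_

open TNC_ in
theorem tnc_proof : Stmt_TNC := by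
  intro L _ _ A f1 f2 g1 g2 a k hk hf hg s hs1 hs2
  by_cases h1 : s - 3 ≤ k - 4
  · by_cases h2 : s - 3 = 4
    · have h3 := core A f1 f2 g1 g2 a k 3 1 hf hg (by omega) (by omega) (by omega)
      have h4 : s = 3 + 1 + 3 := by omega
      rw [h4]; exact h3
    · have h3 := core A f1 f2 g1 g2 a k (s - 3) 0 hf hg (by omega) (by omega) (by omega)
      have h4 : s = (s - 3) + 0 + 3 := by omega
      rw [h4]; exact h3
  · have h3 := core A f1 f2 g1 g2 a k (k - 4) (s + 1 - k) hf hg (by omega) (by omega) (by omega)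
    have h4 : s = (k - 4) + (s + 1 - k) + 3 := by omega
    rw [h4]
    have h5 : (k - 4) + (s + 1 - k) + 3 + 1 - k = s + 1 - k := by omega
    exact h3

end Pool.Agent.RTB
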