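import Mathlib

/-!
# squad RTB, part U: a valuation ring of an algebraically closed field dominating a specialisation
of finitely many elements to rational numbers
-/

set_option autoImplicit false

open Polynomial

namespace Pool.Agent.RTB

/-- the residue field of a valuation ring of an algebraically closed field is algebraically
closed -/
theorem residue_algClosed {Kf : Type} [Field Kf] [IsAlgClosed Kf] (B : ValuationSubring Kf) :
    IsAlgClosed (IsLocalRing.ResidueField B) := by
  refine IsAlgClosed.of_exists_root _ fun p hp hirr => ?_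
  obtain ⟨q, hq, hqd, hqm⟩ := Polynomial.lifts_and_natDegree_eq_and_monic
    (f := IsLocalRing.residue B) (p := p) (by
      rw [Polynomial.lifts_iff_coeff_lifts]
      intro n
      exact IsLocalRing.residue_surjective _) hp
  have hd : (q.map (algebraMap B Kf)).degree ≠ 0 := by
    rw [hqm.degree_map, Polynomial.degree_eq_natDegree hqm.ne_zero, hqd]
    have := hirr.natDegree_pos
    intro h
    have h2 : p.natDegree = 0 := by exact_mod_cast h
    omega
  obtain ⟨x, hx⟩ := IsAlgClosed.exists_root _ hd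
  have hxi : IsIntegral B x := by
    refine ⟨q, hqm, ?_⟩
    rwa [IsRoot, eval_map] at hx
  obtain ⟨y, rfl⟩ := IsIntegrallyClosed.isIntegral_iff.1 hxi
  have hy : q.eval y = 0 := by
    have h1 : algebraMap B Kf (q.eval y) = 0 := by
      rw [IsRoot, eval_map, eval₂_at_apply] at hx
      exact hx
    exact (map_eq_zero_iff _ (IsFractionRing.injective B Kf)).1 h1
  refine ⟨IsLocalRing.residue B y, ?_⟩
  rw [← hq, eval_map, eval₂_at_apply, hy, map_zero]

theorem exists_val {σ Kf : Type} [Field Kf] [CharZero Kf] [IsAlgClosed Kf] (c : σ → Kf)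
    (cF : σ → ℚ)
    (h : ∀ Ψ : MvPolynomial σ ℚ, MvPolynomial.aeval c Ψ = 0 → MvPolynomial.aeval cF Ψ = 0) :
    ∃ (O : ValuationSubring Kf) (κ : Type) (_ : Field κ) (_ : CharZero κ) (_ : IsAlgClosed κ)
      (red : O →+* κ) (cO : σ → O), Function.Surjective red ∧ (∀ x, red x = 0 ↔ ¬ IsUnit x) ∧
      (∀ x, (cO x : Kf) = c x) ∧ ∀ x, red (cO x) = algebraMap ℚ κ (cF x) := by
  classical
  let A : Subalgebra ℚ Kf := (MvPolynomial.aeval (R := ℚ) c).range
  let f : MvPolynomial σ ℚ →ₐ[ℚ] A := (MvPolynomial.aeval (R := ℚ) c).rangeRestrict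
  have hf : Function.Surjective f := (MvPolynomial.aeval (R := ℚ) c).rangeRestrict_surjective
  let I : Ideal A.toSubring :=
    (RingHom.ker (MvPolynomial.aeval (R := ℚ) cF)).map (f : MvPolynomial σ ℚ →+* A)
  have hI : I ≠ ⊤ := by
    intro hI
    have h1 : (1 : A) ∈ (RingHom.ker (MvPolynomial.aeval (R := ℚ) cF)).map
        (f : MvPolynomial σ ℚ →+* A) := by
      have : (1 : A.toSubring) ∈ I := by rw [hI]; trivial
      exact this
    obtain ⟨Ψ, hΨ, hΨ1⟩ := (Ideal.mem_map_iff_of_surjective
      (f : MvPolynomial σ ℚ →+* A) hf).1 h1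
    have h2 : MvPolynomial.aeval c Ψ = 1 := congrArg Subtype.val hΨ1
    have h3 := h (Ψ - 1) (by rw [map_sub, h2, map_one, sub_self])
    rw [RingHom.mem_ker] at hΨ
    rw [map_sub, hΨ, map_one] at h3
    norm_num at h3
  obtain ⟨B, hAB, hIB⟩ := Ideal.image_subset_nonunits_valuationSubring I hI
  have hmem : ∀ x, c x ∈ B := fun x => hAB ⟨MvPolynomial.X x, by simp⟩
  have hrat : ∀ r : ℚ, algebraMap ℚ Kf r ∈ B := fun r => hAB (A.algebraMap_mem r)
  let ι : ℚ →+* B := (algebraMap ℚ Kf).codRestrict B.toSubring hrat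
  have hres : ∀ x : B, IsLocalRing.residue B x = 0 ↔ ¬ IsUnit x := by
    intro x
    rw [IsLocalRing.residue_eq_zero_iff, IsLocalRing.mem_maximalIdeal]
    rfl
  have hch : CharZero (IsLocalRing.ResidueField B) :=
    charZero_of_injective_ringHom ((IsLocalRing.residue B).comp ι).injective
  refine ⟨B, IsLocalRing.ResidueField B, inferInstance, hch, residue_algClosed B,
    IsLocalRing.residue B, fun x => ⟨c x, hmem x⟩, IsLocalRing.residue_surjective, hres,
    fun x => rfl, fun x => ?_⟩
  have h1 : (c x - algebraMap ℚ Kf (cF x)) ∈ B.nonunits := by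
    refine hIB ⟨f (MvPolynomial.X x - MvPolynomial.C (cF x)), ?_, ?_⟩
    · refine Ideal.mem_map_of_mem (f : MvPolynomial σ ℚ →+* A) ?_
      rw [RingHom.mem_ker]
      simp
    · show MvPolynomial.aeval c (MvPolynomial.X x - MvPolynomial.C (cF x)) = _
      simp
  have h2 : (((⟨c x, hmem x⟩ : B) - ι (cF x) : B) : Kf) ∈ B.nonunits := h1
  rw [ValuationSubring.coe_mem_nonunits_iff] at h2
  have h3 : IsLocalRing.residue B ((⟨c x, hmem x⟩ : B) - ι (cF x)) = 0 := by
    rw [IsLocalRing.residue_eq_zero_iff]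
    exact h2
  rw [map_sub, sub_eq_zero] at h3
  rw [h3]
  have h4 : ((IsLocalRing.residue B).comp ι) = algebraMap ℚ (IsLocalRing.ResidueField B) :=
    Subsingleton.elim _ _
  exact congrArg (fun φ : ℚ →+* _ => φ (cF x)) h4

end Pool.Agent.RTB
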