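import Pool.Agent.RTB.UTrans
import Pool.Agent.RTB.UVal

/-!
# squad RTB, part U: the ultraproduct argument
-/

set_option autoImplicit false

open Filter Polynomial

namespace Pool.Agent.RTB

namespace U_

/-! ### the structure constants -/

theorem gam_map (g : ℕ) {A B : Type} [CommRing A] [CommRing B] (φ : A →+* B) (c : Idx g → A)
    (i j l : ℕ) : φ (gam g c i j l) = gam g (fun x => φ (c x)) i j l := by
  unfold gam
  by_cases hi : i = 0
  · simp only [if_pos hi]; split_ifs <;> simp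
  · by_cases hj : j = 0
    · simp only [if_neg hi, if_pos hj]; split_ifs <;> simp
    · simp only [if_neg hi, if_neg hj, map_sum]
      refine Finset.sum_congr rfl fun e _ => Finset.sum_congr rfl fun m _ => ?_
      split_ifs <;> simp

/-! ### the polynomials on the cuspidal curve -/

section
variable (g : ℕ) (A : Type) [Field A] [CharZero A]

theorem natDegree_yF (hg : 1 ≤ g) (i : ℕ) : (yF g A i).natDegree = g + i + 1 := by
  unfold yF
  have h1 : ((g + i + 1 : A)⁻¹) ≠ 0 := by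
    apply inv_ne_zero
    exact_mod_cast Nat.succ_ne_zero (g + i)
  rw [natDegree_sub_eq_left_of_natDegree_lt]
  · exact natDegree_C_mul_X_pow _ _ h1
  · rw [natDegree_C_mul_X_pow _ _ h1]
    refine lt_of_le_of_lt (natDegree_C_mul_X_pow_le _ _) ?_
    omega

theorem derivative_yF (i : ℕ) : derivative (yF g A i) = (X ^ g - 1) * X ^ i := by
  unfold yF
  have h1 : ((g + i + 1 : A)) ≠ 0 := by exact_mod_cast Nat.succ_ne_zero (g + i)
  have h2 : ((i + 1 : A)) ≠ 0 := by exact_mod_cast Nat.succ_ne_zero i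
  rw [derivative_sub, derivative_C_mul_X_pow, derivative_C_mul_X_pow]
  push_cast
  rw [inv_mul_cancel₀ h1, inv_mul_cancel₀ h2]
  simp only [map_one, one_mul]
  ring

theorem natDegree_bF (hg : 1 ≤ g) (j : ℕ) (hj : 1 ≤ j) : (bF g A j).natDegree = g + j := by
  unfold bF
  rw [if_neg (by omega)]
  have h0 : ∀ i, yF g A i ≠ 0 := by
    intro i h
    have := natDegree_yF g A hg i
    rw [h, natDegree_zero] at this
    omega
  rw [natDegree_mul (pow_ne_zero _ (h0 _)) (h0 _), natDegree_pow, natDegree_yF g A hg,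
    natDegree_yF g A hg]
  have h1 : 1 ≤ (g + j) / (g + 1) := by
    rw [Nat.one_le_div_iff (by omega)]; omega
  have h2 := Nat.div_add_mod (g + j) (g + 1)
  obtain ⟨q, hq⟩ : ∃ q, (g + j) / (g + 1) = q + 1 := ⟨(g + j) / (g + 1) - 1, by omega⟩
  rw [hq] at h2 ⊢
  rw [Nat.add_sub_cancel]
  nlinarith

theorem dvd_bF (j : ℕ) : (X ^ g - 1 : A[X]) ∣ derivative (bF g A j) := by
  unfold bF
  split_ifs
  · simp
  · rw [derivative_mul, derivative_pow, derivative_yF, derivative_yF]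
    refine dvd_add ?_ ?_
    · refine Dvd.dvd.mul_right (Dvd.dvd.mul_left (Dvd.intro _ rfl) _) _
    · exact Dvd.dvd.mul_left (Dvd.intro _ rfl) _

theorem ff (hg : 1 ≤ g) : FF (X ^ g - 1 : A[X]) g where
  mon := by
    have := monic_X_pow_sub_C (1 : A) (n := g) (by omega)
    simpa using this
  sep := by
    have h1 : ((g : ℕ) : A) ≠ 0 := by exact_mod_cast (by omega : g ≠ 0)
    have := separable_X_pow_sub_C (1 : A) h1 one_ne_zero
    simpa using this
  deg := by
    have := natDegree_X_pow_sub_C (n := g) (r := (1 : A))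
    simpa using this

end

/-! ### denominators -/

theorem exists_int {σ : Type} (Ψ : MvPolynomial σ ℚ) :
    ∃ (n : ℕ) (P : MvPolynomial σ ℤ), n ≠ 0 ∧
      MvPolynomial.map (Int.castRingHom ℚ) P = (n : MvPolynomial σ ℚ) * Ψ := by
  induction Ψ using MvPolynomial.induction_on with
  | C a =>
    refine ⟨a.den, MvPolynomial.C a.num, a.den_ne_zero, ?_⟩
    rw [MvPolynomial.map_C]
    have h1 : ((a.den : ℕ) : MvPolynomial σ ℚ) = MvPolynomial.C ((a.den : ℕ) : ℚ) := by simp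
    rw [h1, ← MvPolynomial.C_mul]
    congr 1
    have := Rat.mul_den_eq_num a
    rw [mul_comm]
    simpa using this.symm
  | add p q hp hq =>
    obtain ⟨n, P, hn, hP⟩ := hp
    obtain ⟨m, Q, hm, hQ⟩ := hq
    refine ⟨n * m, (m : MvPolynomial σ ℤ) * P + (n : MvPolynomial σ ℤ) * Q,
      Nat.mul_ne_zero hn hm, ?_⟩
    rw [map_add, map_mul, map_mul, hP, hQ, map_natCast, map_natCast]
    push_cast
    ring
  | mul_X p i hp =>
    obtain ⟨n, P, hn, hP⟩ := hp
    refine ⟨n, P * MvPolynomial.X i, hn, ?_⟩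
    rw [map_mul, hP, MvPolynomial.map_X]
    ring

/-- a rational polynomial which does not vanish at the reduction does not vanish -/
theorem aeval_ne_zero {σ κ : Type} [Field κ] [CharZero κ] (O : ValuationSubring ℂ) (red : O →+* κ)
    (c : σ → ℂ) (cF : σ → ℚ) (cO : σ → O) (h1 : ∀ x, (cO x : ℂ) = c x)
    (h2 : ∀ x, red (cO x) = algebraMap ℚ κ (cF x)) (Ψ : MvPolynomial σ ℚ)
    (h : MvPolynomial.aeval cF Ψ ≠ 0) : MvPolynomial.aeval c Ψ ≠ 0 := by
  intro h0
  apply h
  obtain ⟨n, P, hn, hP⟩ := exists_int Ψ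
  have e1 : MvPolynomial.eval₂ (Int.castRingHom ℂ) c P = 0 := by
    have h3 : MvPolynomial.aeval c (MvPolynomial.map (Int.castRingHom ℚ) P) = 0 := by
      rw [hP, map_mul, h0, mul_zero]
    rw [MvPolynomial.aeval_def, MvPolynomial.eval₂_map] at h3
    rw [← h3]
    congr 1
  have e2 : ((MvPolynomial.eval₂ (Int.castRingHom O) cO P : O) : ℂ) = 0 := by
    have h3 := MvPolynomial.hom_eval₂ P (Int.castRingHom O) O.subtype cO
    have h4 : (O.subtype : O →+* ℂ).comp (Int.castRingHom O) = Int.castRingHom ℂ :=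
      Subsingleton.elim _ _
    rw [h4] at h3
    have h5 : (fun i => O.subtype (cO i)) = c := funext h1
    rw [h5, e1] at h3
    exact h3
  have e3 : MvPolynomial.eval₂ (Int.castRingHom O) cO P = 0 := Subtype.ext e2
  have e4 : MvPolynomial.eval₂ (Int.castRingHom κ) (fun x => algebraMap ℚ κ (cF x)) P = 0 := by
    have h3 := MvPolynomial.hom_eval₂ P (Int.castRingHom O) red cO
    have h4 : red.comp (Int.castRingHom O) = Int.castRingHom κ := Subsingleton.elim _ _
    rw [h4, e3, map_zero] at h3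
    have h5 : (fun i => red (cO i)) = fun x => algebraMap ℚ κ (cF x) := funext h2
    rw [h5] at h3
    exact h3.symm
  have e5 : algebraMap ℚ κ (MvPolynomial.eval₂ (Int.castRingHom ℚ) cF P) = 0 := by
    have h3 := MvPolynomial.hom_eval₂ P (Int.castRingHom ℚ) (algebraMap ℚ κ) cF
    have h4 : (algebraMap ℚ κ).comp (Int.castRingHom ℚ) = Int.castRingHom κ :=
      Subsingleton.elim _ _
    rw [h4] at h3
    rw [h3]
    exact e4
  have e6 : MvPolynomial.eval₂ (Int.castRingHom ℚ) cF P = 0 :=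
    (map_eq_zero_iff _ (algebraMap ℚ κ).injective).1 e5
  have e7 : MvPolynomial.aeval cF (MvPolynomial.map (Int.castRingHom ℚ) P) = 0 := by
    rw [MvPolynomial.aeval_def, MvPolynomial.eval₂_map, ← e6]
    congr 1
  rw [hP, map_mul, map_natCast, mul_eq_zero] at e7
  rcases e7 with h3 | h3
  · exact absurd (by exact_mod_cast h3) hn
  · exact h3

/-! ### the context -/

section
variable {I : Type} (U : Ultrafilter I) (g : ℕ) (Y : I → MarkedCurve g)

theorem isCtx (hTBB : Stmt_TBB) (hg : 1 ≤ g) (cF : Idx g → ℚ)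
    (hcF : ∀ (A : Type) [Field A] [CharZero A] (i j : ℕ),
      bF g A i * bF g A j = ∑ l ∈ Finset.range (i + j + g + 1),
        C (gam g (fun x => (algebraMap ℚ A (cF x))) i j l) * bF g A l)
    {κ : Type} [Field κ] [CharZero κ] (O : ValuationSubring (KU U)) (red : O →+* κ)
    (cO : Idx g → O) (hsurj : Function.Surjective red) (hker : ∀ x : O, red x = 0 ↔ ¬ IsUnit x)
    (hcO : ∀ x, (cO x : KU U) = UP.mk U (fun _ : I => ℂ) (fun i => (Y i).c x))
    (hred : ∀ x, red (cO x) = algebraMap ℚ κ (cF x)) :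
    IsCtx g O red (bU U (K := fun i => (Y i).K) (fun i => (Y i).β)) (X ^ g - 1 : κ[X]) (bF g κ) where
  surj := hsurj
  ker := hker
  ind := by
    rw [linearIndependent_iff_finset_linearIndependent]
    intro s
    refine ((isUP_field U (fun i => (Y i).K)).li (fun (j : s) i => (Y i).β j)).2 ?_
    refine Eventually.of_forall fun i => ?_
    exact (hTBB g (Y i) hg).1.comp _ Subtype.val_injective
  b0 := by
    unfold bU
    have h : (fun i => (Y i).β 0) = 1 := by
      funext i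
      simp [MarkedCurve.β]
    rw [h, map_one]
  mul := by
    intro i j
    refine ⟨fun l => gam g cO i j l, ?_, ?_⟩
    · unfold bU
      rw [← map_mul]
      have h1 : ((fun a => (Y a).β i) * (fun a => (Y a).β j) : ∀ a, (Y a).K) =
          fun a => ∑ l ∈ Finset.range (i + j + g + 1), gam g (Y a).c i j l • (Y a).β l := by
        funext a
        exact (hTBB g (Y a) hg).2.2 i j
      rw [h1]
      refine ((isUP_field U (fun i => (Y i).K)).sum _ (fun l a => gam g (Y a).c i j l)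
        (fun l a => (Y a).β l)).symm.trans ?_
      refine Finset.sum_congr rfl fun l _ => ?_
      have h2 : ((gam g cO i j l : O) : KU U) =
          UP.mk U (fun _ : I => ℂ) (fun a => gam g (Y a).c i j l) := by
        have h3 := gam_map g O.subtype cO i j l
        have h4 : (fun x => O.subtype (cO x)) =
            fun x => UP.mk U (fun _ : I => ℂ) (fun i => (Y i).c x) := funext hcO
        rw [h4, ← gam_map g (UP.mk U (fun _ : I => ℂ)) (fun x a => (Y a).c x) i j l] at h3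
        refine Eq.trans h3 ?_
        congr 1
        funext a
        exact gam_map g (Pi.evalRingHom (fun _ : I => ℂ) a) (fun x a => (Y a).c x) i j l
      rw [h2]
      rfl
    · rw [hcF κ i j]
      refine Finset.sum_congr rfl fun l _ => ?_
      rw [gam_map g red cO i j l]
      have h4 : (fun x => red (cO x)) = fun x => algebraMap ℚ κ (cF x) := funext hred
      rw [h4]
  ff := ff g κ hg
  bF0 := by simp [bF]
  bFdeg := fun j hj => natDegree_bF g κ hg j hj
  bFdvd := fun j => dvd_bF g κ j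

end

/-! ### the main theorem -/

/-- the index set of the ultraproduct -/
abbrev Ix (g : ℕ) (cF : Idx g → ℚ) : Type :=
  {Ψ : MvPolynomial (Idx g) ℚ // MvPolynomial.aeval cF Ψ ≠ 0}

/-- the ultraproduct argument -/
theorem main (hTBB : Stmt_TBB) (hTDA : Stmt_TDA) (hCFT : Stmt_CFT) (hSMO : Stmt_SMO)
    (hTHK : Stmt_THK) (hTHA : Stmt_THA) : MainStatement := by
  intro g hodd h15
  obtain ⟨k, rfl, hk⟩ : ∃ k, g = 2 * k - 3 ∧ 9 ≤ k := by
    obtain ⟨m, hm⟩ := hodd
    exact ⟨m + 2, by omega, by omega⟩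
  set g := 2 * k - 3 with hgk
  have hg : 1 ≤ g := by omega
  obtain ⟨cF, hcF, hcF2⟩ := hCFT g hg
  by_contra hno
  have hsm : ∀ Ψ : MvPolynomial (Idx g) ℚ, MvPolynomial.aeval cF Ψ ≠ 0 →
      ∃ X : MarkedCurve g, MvPolynomial.aeval X.c Ψ ≠ 0 := by
    intro Ψ hΨ
    obtain ⟨X, κ, _, _, O, red, cO, h1, h2⟩ := hSMO g cF hodd (by omega) hcF
    exact ⟨X, aeval_ne_zero O red X.c cF cO h1 h2 Ψ hΨ⟩
  have hbad : ∀ Ψ : Ix g cF,
      ∃ X : MarkedCurve g, MvPolynomial.aeval X.c Ψ.1 ≠ 0 ∧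
      (Dat1 ℂ g k (Rn ℂ g X.β) ∨
        ∃ (s : Fin k → Fin 2 → X.K) (f : X.K), Dat ℂ g k (Rn ℂ g X.β) s f) := by
    intro Ψ
    by_contra hcon
    apply hno
    refine ⟨Ψ.1, hsm Ψ.1 Ψ.2, ?_⟩
    intro X hX E hE hdeg hh0
    by_contra hE2
    apply hcon
    refine ⟨X, hX, ?_⟩
    have h1 : X.R = Rn ℂ g X.β := funext (hTBB g X hg).2.1
    rw [← h1]
    exact hTDA k X E hk hE hdeg hh0 hE2
  choose Y hY1 hY2 using hbad
  -- the ultrafilter
  have hne : Nonempty (Ix g cF) := ⟨⟨1, by rw [map_one]; exact one_ne_zero⟩⟩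
  have hF0 : (⨅ Ψ0 : Ix g cF, 𝓟 {Ψ : Ix g cF | Ψ0.1 ∣ Ψ.1}).NeBot := by
    refine iInf_neBot_of_directed' ?_ ?_
    · intro Ψ1 Ψ2
      refine ⟨⟨Ψ1.1 * Ψ2.1, by rw [map_mul]; exact mul_ne_zero Ψ1.2 Ψ2.2⟩, ?_, ?_⟩
      · exact principal_mono.2 fun Ψ hΨ => (Dvd.intro _ rfl).trans hΨ
      · exact principal_mono.2 fun Ψ hΨ => (Dvd.intro_left _ rfl).trans hΨ
    · intro Ψ0
      exact principal_neBot_iff.2 ⟨Ψ0, dvd_rfl⟩
  let U : Ultrafilter (Ix g cF) := Ultrafilter.of (⨅ Ψ0 : Ix g cF, 𝓟 {Ψ : Ix g cF | Ψ0.1 ∣ Ψ.1})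
  have hU : ∀ Ψ0 : Ix g cF, ∀ᶠ Ψ in (U : Filter (Ix g cF)), Ψ0.1 ∣ Ψ.1 := by
    intro Ψ0
    have h1 : (U : Filter (Ix g cF)) ≤ 𝓟 {Ψ : Ix g cF | Ψ0.1 ∣ Ψ.1} :=
      (Ultrafilter.of_le _).trans (iInf_le _ Ψ0)
    exact le_principal_iff.1 h1
  -- the table
  let c : Idx g → KU U := fun x => UP.mk U (fun _ : Ix g cF => ℂ) (fun i => (Y i).c x)
  have hc : ∀ Ψ : MvPolynomial (Idx g) ℚ, MvPolynomial.aeval c Ψ =
      UP.mk U (fun _ : Ix g cF => ℂ) (fun i => MvPolynomial.aeval (Y i).c Ψ) := by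
    intro Ψ
    have h1 : ((MvPolynomial.aeval (R := ℚ) c : MvPolynomial (Idx g) ℚ →ₐ[ℚ] KU U) :
        MvPolynomial (Idx g) ℚ →+* KU U) =
        (UP.mk U (fun _ : Ix g cF => ℂ)).comp
          (RingHom.pi fun i => ((MvPolynomial.aeval (R := ℚ) (Y i).c :
            MvPolynomial (Idx g) ℚ →ₐ[ℚ] ℂ) : MvPolynomial (Idx g) ℚ →+* ℂ)) := by
      apply MvPolynomial.ringHom_ext'
      · exact Subsingleton.elim _ _
      · intro x
        simp only [RingHom.coe_coe, MvPolynomial.aeval_X, RingHom.comp_apply]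
        refine congrArg (UP.mk U (fun _ : Ix g cF => ℂ)) ?_
        funext i
        simp [RingHom.pi]
    exact congrArg (fun φ : MvPolynomial (Idx g) ℚ →+* KU U => φ Ψ) h1
  have hspec : ∀ Ψ : MvPolynomial (Idx g) ℚ, MvPolynomial.aeval c Ψ = 0 →
      MvPolynomial.aeval cF Ψ = 0 := by
    intro Ψ0 h0
    by_contra hΨ
    rw [hc, UP.mk_eq_zero] at h0
    obtain ⟨Ψ, h1, h2⟩ := (h0.and (hU ⟨Ψ0, hΨ⟩)).exists
    obtain ⟨q, hq⟩ := h2
    apply hY1 Ψ
    rw [hq, map_mul, h1, zero_mul]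
  obtain ⟨O, κ, _, _, _, red, cO, h1, h2, h3, h4⟩ := exists_val c cF hspec
  have hctx := isCtx U g Y hTBB hg cF hcF2 O red cO h1 h2 h3 h4
  have hor : (∀ᶠ i in (U : Filter (Ix g cF)), Dat1 ℂ g k (Rn ℂ g (Y i).β)) ∨
      (∀ᶠ i in (U : Filter (Ix g cF)), ∃ (s : Fin k → Fin 2 → (Y i).K) (f : (Y i).K),
        Dat ℂ g k (Rn ℂ g (Y i).β) s f) := by
    rw [← Ultrafilter.eventually_or]
    exact Eventually.of_forall hY2
  rcases hor with h5 | h5
  · have h6 := transfer_dat1 U g (K := fun i => (Y i).K) (fun i => (Y i).β) k h5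
    exact hTHA (KU U) (UP U fun i => (Y i).K) κ k O red _ _ _ hk hctx h6
  · obtain ⟨s, f, h6⟩ := transfer_dat U g (K := fun i => (Y i).K) (fun i => (Y i).β) k h5
    exact hTHK (KU U) (UP U fun i => (Y i).K) κ k O red _ _ _ hk hctx s f h6

end U_

end Pool.Agent.RTB
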