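import Pool.Agent.RTB.SStmts

/-!
# squad RTB, module VAL: decomposition of the value at a cusp
-/

set_option autoImplicit false

open Polynomial

namespace Pool.Agent.RTB

namespace VAL_

section
variable {L : Type} [Field L]

theorem wr_add_left (a a' b : L[X]) : wr (a + a') b = wr a b + wr a' b := by
  simp only [wr, derivative_add]; ring

theorem wr_C_mul_left (c : L) (a b : L[X]) : wr (C c * a) b = C c * wr a b := by
  simp only [wr, derivative_mul, derivative_C]; ring

theorem wr_C_mul_right (c : L) (a b : L[X]) : wr a (C c * b) = C c * wr a b := by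
  simp only [wr, derivative_mul, derivative_C]; ring

theorem wr_sum_left {ι : Type} (s : Finset ι) (a : ι → L[X]) (b : L[X]) :
    wr (∑ i ∈ s, a i) b = ∑ i ∈ s, wr (a i) b := by
  simp only [wr, derivative_sum, Finset.sum_mul, Finset.sum_sub_distrib]

theorem wr_sum_right {ι : Type} (s : Finset ι) (a : L[X]) (b : ι → L[X]) :
    wr a (∑ i ∈ s, b i) = ∑ i ∈ s, wr a (b i) := by
  simp only [wr, derivative_sum, Finset.mul_sum, Finset.sum_sub_distrib]

theorem poly_fin (k : ℕ) (hk : 1 ≤ k) (u : L[X]) (hu : u.natDegree ≤ k - 1) :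
    ∑ j : Fin k, C (u.coeff j) * X ^ (j : ℕ) = u := by
  have h := as_sum_range_C_mul_X_pow' (p := u) (n := k) (by omega)
  rw [Finset.sum_range] at h
  exact h.symm

/-- the polynomials `∑ wr (p j) (X ^ j)` with `T ^ r ∣ p j` -/
noncomputable def G (T : L[X]) (r k : ℕ) : Submodule L L[X] where
  carrier := {τ | ∃ p : Fin k → L[X], (∀ j, (p j).natDegree ≤ k - 1 ∧ T ^ r ∣ p j) ∧
    ∑ j, wr (p j) (X ^ (j : ℕ)) = τ}
  zero_mem' := ⟨fun _ => 0, by simp, by simp [wr]⟩
  add_mem' := by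
    rintro a b ⟨p, hp, rfl⟩ ⟨q, hq, rfl⟩
    refine ⟨fun j => p j + q j, fun j => ⟨?_, dvd_add (hp j).2 (hq j).2⟩, ?_⟩
    · exact le_trans (natDegree_add_le _ _) (max_le (hp j).1 (hq j).1)
    · simp only [wr_add_left, Finset.sum_add_distrib]
  smul_mem' := by
    rintro c a ⟨p, hp, rfl⟩
    refine ⟨fun j => C c * p j, fun j => ⟨?_, Dvd.dvd.mul_left (hp j).2 _⟩, ?_⟩
    · exact le_trans (natDegree_C_mul_le _ _) (hp j).1
    · simp only [wr_C_mul_left, Finset.mul_sum, smul_eq_C_mul]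

theorem wr_mem_G {T : L[X]} {r k : ℕ} (hk : 1 ≤ k) (v u : L[X]) (hv : v.natDegree ≤ k - 1)
    (hT : T ^ r ∣ v) (hu : u.natDegree ≤ k - 1) : wr v u ∈ G T r k := by
  refine ⟨fun j => C (u.coeff j) * v, fun j => ⟨?_, Dvd.dvd.mul_left hT _⟩, ?_⟩
  · exact le_trans (natDegree_C_mul_le _ _) hv
  · have h : ∀ j : Fin k, wr (C (u.coeff j) * v) (X ^ (j : ℕ))
        = wr v (C (u.coeff j) * X ^ (j : ℕ)) := fun j => by
      rw [wr_C_mul_left, wr_C_mul_right]
    simp only [h]
    rw [← wr_sum_right, poly_fin k hk u hu]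

theorem wr_pow (T : L[X]) (hT : derivative T = 1) (r i j : ℕ) :
    wr (T ^ (r + i + 1)) (T ^ j) = C ((j : L) - ((r : L) + i + 1)) * T ^ (r + i + j) := by
  rw [wr, derivative_pow, derivative_pow, hT]
  rcases j with _ | j
  · simp
    ring
  · have : T ^ (r + i + 1) * (C ((j + 1 : ℕ) : L) * T ^ (j + 1 - 1) * 1)
        = C ((j + 1 : ℕ) : L) * T ^ (r + i + (j + 1)) := by
      rw [show j + 1 - 1 = j by omega]; ring
    rw [this]
    have h2 : C ((r + i + 1 : ℕ) : L) * T ^ (r + i + 1 - 1) * 1 * T ^ (j + 1)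
        = C ((r + i + 1 : ℕ) : L) * T ^ (r + i + (j + 1)) := by
      rw [show r + i + 1 - 1 = r + i by omega]; ring
    rw [h2, ← sub_mul, ← C_sub]
    push_cast
    ring_nf

theorem natDegree_T (c : L) (n : ℕ) : ((X - C c) ^ n).natDegree = n := by
  rw [natDegree_pow, natDegree_X_sub_C, mul_one]

theorem T_pow_mem [CharZero L] (c : L) (r k e : ℕ) (hr : r + 2 ≤ k) (he : r ≤ e)
    (he2 : e ≤ 2 * k - 4) : (X - C c) ^ e ∈ G (X - C c) (r + 1) k := by
  -- `e = r + i + j`, `i ≤ k - 2 - r`, `j < i + r + 1`, `j ≤ k - 1`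
  obtain ⟨i, j, hij, hi, hj, hj2⟩ : ∃ i j : ℕ, e = r + i + j ∧ r + i + 1 ≤ k - 1 ∧
      j ≤ k - 1 ∧ j < r + i + 1 := by
    by_cases h : e - r ≤ k - 2 - r
    · exact ⟨e - r, 0, by omega, by omega, by omega, by omega⟩
    · exact ⟨k - 2 - r, e - r - (k - 2 - r), by omega, by omega, by omega, by omega⟩
  have h1 : wr ((X - C c) ^ (r + i + 1)) ((X - C c) ^ j) ∈ G (X - C c) (r + 1) k := by
    apply wr_mem_G (by omega)
    · rw [natDegree_T]; exact hi
    · exact pow_dvd_pow _ (by omega)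
    · rw [natDegree_T]; exact hj
  rw [wr_pow (X - C c) (by simp) r i j, ← hij] at h1
  have h2 : ((j : L) - ((r : L) + i + 1)) ≠ 0 := by
    rw [sub_ne_zero]
    have : (r : L) + i + 1 = ((r + i + 1 : ℕ) : L) := by push_cast; ring
    rw [this]
    exact fun h => by
      have := Nat.cast_injective h
      omega
  have h3 := (G (X - C c) (r + 1) k).smul_mem ((j : L) - ((r : L) + i + 1))⁻¹ h1
  rw [smul_eq_C_mul, ← mul_assoc, ← C_mul, inv_mul_cancel₀ h2, C_1, one_mul] at h3
  exact h3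

theorem dvd_mem [CharZero L] (c : L) (r k : ℕ) (hr : r + 2 ≤ k) (τ : L[X])
    (hd : τ.natDegree ≤ 2 * k - 4) (hT : (X - C c) ^ r ∣ τ) :
    τ ∈ G (X - C c) (r + 1) k := by
  obtain ⟨ρ, rfl⟩ := hT
  by_cases h0 : ρ = 0
  · rw [h0, mul_zero]; exact Submodule.zero_mem _
  have hdeg : r + ρ.natDegree ≤ 2 * k - 4 := by
    rw [natDegree_mul (pow_ne_zero _ (X_sub_C_ne_zero c)) h0, natDegree_T] at hd
    exact hd
  have hs := sum_taylor_eq ρ c
  rw [← hs, Polynomial.sum_def, Finset.mul_sum]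
  apply Submodule.sum_mem
  intro e he
  have he1 : e ≤ ρ.natDegree := by
    rw [← natDegree_taylor ρ c]
    exact le_natDegree_of_mem_supp e he
  have : (X - C c) ^ r * (C ((taylor c ρ).coeff e) * (X - C c) ^ e)
      = (taylor c ρ).coeff e • (X - C c) ^ (r + e) := by
    rw [smul_eq_C_mul, pow_add]; ring
  rw [this]
  exact Submodule.smul_mem _ _ (T_pow_mem c r k (r + e) hr (by omega) (by omega))

/-- `θ κ` -/
noncomputable def th (k : ℕ) (κ : Fin k → Fin k → L) : L[X] :=
  ∑ i, ∑ j, C (κ i j) * wr (X ^ (i : ℕ)) (X ^ (j : ℕ))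

theorem sum_muX (f1 f2 : L[X]) (k : ℕ) (κ : Fin k → Fin k → L) :
    ∑ i, ∑ j, C (κ i j) * muX f1 f2 i j = wr (wr f1 f2) (th k κ) := by
  rw [th, wr_sum_right]
  refine Finset.sum_congr rfl fun i _ => ?_
  rw [wr_sum_right]
  refine Finset.sum_congr rfl fun j _ => ?_
  rw [wr_C_mul_right, muX, key_uv]

theorem th_sub (k : ℕ) (κ s : Fin k → Fin k → L) :
    th k (fun i j => κ i j - s i j) = th k κ - th k s := by
  simp only [th, C_sub, sub_mul, Finset.sum_sub_distrib]

theorem Dh_dvd_four (f1 f2 v : L[X]) (c : L) (h : (X - C c) ^ 4 ∣ v) :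
    (X - C c) ^ 2 ∣ Dh f1 f2 v := by
  obtain ⟨m, rfl⟩ := h
  have hT : derivative (X - C c) = 1 := by simp
  generalize X - C c = T at hT ⊢
  have d1 : ∀ a : L[X], derivative (T * a) = a + T * derivative a := fun a => by
    rw [derivative_mul, hT]; ring
  have e4 : T ^ 4 * m = T * (T * (T * (T * m))) := by ring
  refine ⟨wr f1 f2 * (12 * m + 8 * (T * derivative m) + T ^ 2 * derivative (derivative m))
    - derivative (wr f1 f2) * (4 * (T * m) + T ^ 2 * derivative m)
    + wr (derivative f1) (derivative f2) * (T ^ 2 * m), ?_⟩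
  rw [Dh, e4]
  simp only [d1, derivative_add]
  ring

theorem Dh_dvd_two (f1 f2 v : L[X]) (c : L) (hA : (X - C c) ∣ wr f1 f2)
    (h : (X - C c) ^ 2 ∣ v) : (X - C c) ^ 2 ∣ Dh f1 f2 v := by
  obtain ⟨m, rfl⟩ := h
  obtain ⟨A1, hA1⟩ := hA
  have hT : derivative (X - C c) = 1 := by simp
  rw [Dh, hA1]
  generalize X - C c = T at hT ⊢
  have d1 : ∀ a : L[X], derivative (T * a) = a + T * derivative a := fun a => by
    rw [derivative_mul, hT]; ring
  have e2 : T ^ 2 * m = T * (T * m) := by ring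
  refine ⟨A1 * (3 * derivative m + T * derivative (derivative m))
    - derivative A1 * (2 * m + T * derivative m)
    + wr (derivative f1) (derivative f2) * m, ?_⟩
  rw [e2]
  simp only [d1, derivative_add]
  ring

/-- from a decomposition of `θ` to the matrix -/
theorem finish [CharZero L] (f1 f2 : L[X]) (c : L) (k r : ℕ) (hr : r + 2 ≤ k) (hr1 : 1 ≤ r)
    (κ : Fin k → Fin k → L) (hDh : ∀ v, (X - C c) ^ (r + 1) ∣ v → (X - C c) ^ 2 ∣ Dh f1 f2 v)
    (τ : L[X]) (hd : τ.natDegree ≤ 2 * k - 4) (hT : (X - C c) ^ r ∣ τ)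
    (hτ : wr (wr f1 f2) (th k κ - τ) = 0) :
    ∃ (κ0 : Fin k → Fin k → L) (s : Fin k → Fin k → L),
    ∑ i, ∑ j, C (κ0 i j) * muX f1 f2 i j = 0 ∧
    (∀ j, (X - C c) ^ 2 ∣ ∑ i, C (s i j) * X ^ (i : ℕ)) ∧
    (∀ j, (X - C c) ^ 2 ∣ Dh f1 f2 (∑ i, C (s i j) * X ^ (i : ℕ))) ∧
    κ = fun i j => κ0 i j + s i j := by
  obtain ⟨p, hp, hsum⟩ := dvd_mem c r k hr τ hd hT
  have hs : ∀ j : Fin k, ∑ i : Fin k, C ((p j).coeff i) * X ^ (i : ℕ) = p j :=
    fun j => poly_fin k (by omega) (p j) (hp j).1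
  have hth : th k (fun i j => (p j).coeff i) = τ := by
    rw [th, Finset.sum_comm, ← hsum]
    refine Finset.sum_congr rfl fun j _ => ?_
    conv_rhs => rw [← hs j]
    rw [wr_sum_left]
    refine Finset.sum_congr rfl fun i _ => ?_
    rw [wr_C_mul_left]
  refine ⟨fun i j => κ i j - (p j).coeff i, fun i j => (p j).coeff i, ?_, ?_, ?_, ?_⟩
  · rw [sum_muX, th_sub, hth, hτ]
  · intro j
    rw [hs j]
    exact dvd_trans (pow_dvd_pow _ (by omega)) (hp j).2
  · intro j
    rw [hs j]
    exact hDh _ (hp j).2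
  · funext i j
    ring

theorem natDegree_th (hW : Stmt_WDG) (k : ℕ) (κ : Fin k → Fin k → L) :
    (th k κ).natDegree ≤ 2 * k - 4 := by
  rw [th]
  refine natDegree_sum_le_of_forall_le _ _ fun i _ => ?_
  refine natDegree_sum_le_of_forall_le _ _ fun j _ => ?_
  refine le_trans (natDegree_C_mul_le _ _) ?_
  have h := (hW L (k - 1) (X ^ (i : ℕ)) (X ^ (j : ℕ)) 0
    (by rw [natDegree_X_pow]; omega) (by rw [natDegree_X_pow]; omega) (by simp)).1
  omega

theorem dvd_of_eval (c : L) (p : L[X]) (h : p.eval c = 0) : (X - C c) ∣ p :=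
  dvd_iff_isRoot.mpr h

end

end VAL_

open VAL_ in
theorem val_proof (hWDG : Stmt_WDG) (_hHIN : Stmt_HIN) (_hWZR : Stmt_WZR) : Stmt_VAL := by
  intro L _ _ _ A f1 f2 a c k hk hFF hAa hf1 hf2 hw hc κ hκ
  rw [sum_muX, hw] at hκ
  have hθ : (th k κ).natDegree ≤ 2 * k - 4 := natDegree_th hWDG k κ
  by_cases hAc : A.eval c = 0
  · -- `c` is a root of `A`
    have hA' : (derivative A).eval c ≠ 0 := by
      intro h
      have := hFF.sep
      obtain ⟨u, v, huv⟩ := this
      have h1 := congrArg (eval c) huv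
      rw [eval_add, eval_mul, eval_mul, hAc, h] at h1
      simp at h1
    have hθc : (th k κ).eval c = 0 := by
      obtain ⟨q, hq⟩ := hκ
      have h1 := congrArg (eval c) hq
      rw [wr] at h1
      simp only [eval_sub, eval_mul, hAc, eval_pow, eval_X, eval_C, sub_self] at h1
      have h2 : (derivative A).eval c * (th k κ).eval c = 0 := by
        have : (0 : L) ^ 2 = 0 := by norm_num
        rw [this] at h1
        linear_combination -h1
      exact (mul_eq_zero.mp h2).resolve_left hA'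
    refine finish f1 f2 c k 1 (by omega) (le_refl 1) κ ?_ (th k κ) hθ ?_ ?_
    · intro v hv
      exact Dh_dvd_two f1 f2 v c (by rw [hw]; exact dvd_of_eval c A hAc) hv
    · rw [pow_one]; exact dvd_of_eval c _ hθc
    · rw [sub_self]; simp [wr]
  · -- `c = a`
    obtain ⟨lam, hlam⟩ : ∃ lam : L, (th k κ).eval c = lam * A.eval c :=
      ⟨(th k κ).eval c / A.eval c, by field_simp⟩
    set η : L[X] := th k κ - C lam * A with hη
    have hwη : wr A η = wr A (th k κ) := by
      rw [hη]; simp only [wr, derivative_sub, derivative_mul, derivative_C]; ring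
    have hcop : ∀ n : ℕ, IsCoprime ((X - C c) ^ n) A := by
      intro n
      apply IsCoprime.pow_left
      rw [(irreducible_X_sub_C c).coprime_iff_not_dvd, dvd_iff_isRoot]
      exact hAc
    have h1 : (X - C c) ∣ η := dvd_of_eval c _ (by
      rw [hη, eval_sub, eval_mul, eval_C, hlam, sub_self])
    rw [← hwη] at hκ
    have h2 : (X - C c) ∣ derivative η := by
      have : (X - C c) ∣ A * derivative η := by
        have h3 : A * derivative η = wr A η + derivative A * η := by rw [wr]; ring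
        rw [h3]
        exact dvd_add (dvd_trans (dvd_pow_self _ two_ne_zero) hκ) (Dvd.dvd.mul_left h1 _)
      have hc1 := hcop 1
      rw [pow_one] at hc1
      exact hc1.dvd_of_dvd_mul_left this
    have hT : derivative (X - C c) = 1 := by simp
    have h3 : (X - C c) ^ 2 ∣ η := by
      obtain ⟨q, hq⟩ := h1
      rw [hq, derivative_mul, hT, one_mul] at h2
      have h4 : (X - C c) ∣ q := (dvd_add_left (Dvd.intro _ rfl)).mp h2
      rw [hq, pow_two]
      exact mul_dvd_mul_left _ h4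
    have h4 : (X - C c) ^ 2 ∣ derivative η := by
      have : (X - C c) ^ 2 ∣ A * derivative η := by
        have h5 : A * derivative η = wr A η + derivative A * η := by rw [wr]; ring
        rw [h5]
        exact dvd_add hκ (Dvd.dvd.mul_left h3 _)
      exact (hcop 2).dvd_of_dvd_mul_left this
    have h5 : (X - C c) ^ 3 ∣ η := by
      obtain ⟨q, hq⟩ := h3
      have h6 : derivative ((X - C c) ^ 2) = C 2 * (X - C c) := by
        rw [derivative_pow, hT]; simp
      rw [hq, derivative_mul, h6] at h4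
      have h7 : (X - C c) ^ 2 ∣ (X - C c) * (C 2 * q) := by
        have h8 : (X - C c) ^ 2 ∣ C 2 * (X - C c) * q :=
          (dvd_add_left (Dvd.intro _ rfl)).mp h4
        have h9 : (X - C c) * (C 2 * q) = C 2 * (X - C c) * q := by ring
        rw [h9]; exact h8
      rw [pow_two] at h7
      have h8 : (X - C c) ∣ C 2 * q := (mul_dvd_mul_iff_left (X_sub_C_ne_zero c)).mp h7
      have h9 : (X - C c) ∣ q := by
        rw [dvd_iff_isRoot, IsRoot, eval_mul, eval_C] at h8
        rw [dvd_iff_isRoot, IsRoot]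
        exact (mul_eq_zero.mp h8).resolve_left two_ne_zero
      rw [hq, pow_succ]
      exact mul_dvd_mul_left _ h9
    have hAd : A.natDegree ≤ 2 * k - 4 := hFF.deg.le
    refine finish f1 f2 c k 3 (by omega) (by norm_num) κ ?_ η ?_ h5 ?_
    · intro v hv
      exact Dh_dvd_four f1 f2 v c hv
    · rw [hη]
      refine le_trans (natDegree_sub_le _ _) (max_le hθ ?_)
      exact le_trans (natDegree_C_mul_le _ _) hAd
    · rw [hη, hw]
      have : th k κ - (th k κ - C lam * A) = C lam * A := by ring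
      rw [this, wr_C_mul_right]
      simp only [wr]; ring

end Pool.Agent.RTB
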