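import Pool.Agent.RTB.SStmts

set_option autoImplicit false

/-!
# RTB, module WDG: degree bounds for Wronskians
-/

open Polynomial

namespace Pool.Agent.RTB

namespace WDG_

variable {L : Type} [Field L]

lemma lin_bound (T : L[X] →ₗ[L] L[X]) (n N : ℕ) (h : ∀ i, i ≤ n → (T (X ^ i)).natDegree ≤ N)
    (a : L[X]) (ha : a.natDegree ≤ n) : (T a).natDegree ≤ N := by
  have h1 : a = ∑ i ∈ Finset.range (n + 1), a.coeff i • (X ^ i : L[X]) := by
    conv_lhs => rw [a.as_sum_range' (n + 1) (by omega)]
    apply Finset.sum_congr rfl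
    intro i _
    rw [smul_X_eq_monomial]
  rw [h1, map_sum]
  apply natDegree_sum_le_of_forall_le
  intro i hi
  rw [map_smul]
  exact (natDegree_smul_le _ _).trans (h i (by
    have := Finset.mem_range.mp hi
    omega))

/-- `wr` as a linear map in the first variable -/
noncomputable def w1 (b : L[X]) : L[X] →ₗ[L] L[X] where
  toFun := fun a => wr a b
  map_add' := fun x y => by simp only [wr, derivative_add]; ring
  map_smul' := fun c x => by
    simp only [wr, smul_eq_C_mul, derivative_mul, derivative_C, zero_mul, zero_add,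
      RingHom.id_apply]; ring

noncomputable def w2 (a : L[X]) : L[X] →ₗ[L] L[X] where
  toFun := fun b => wr a b
  map_add' := fun x y => by simp only [wr, derivative_add]; ring
  map_smul' := fun c x => by
    simp only [wr, smul_eq_C_mul, derivative_mul, derivative_C, zero_mul, zero_add,
      RingHom.id_apply]; ring

noncomputable def D1 (b c : L[X]) : L[X] →ₗ[L] L[X] where
  toFun := fun a => Dh a b c
  map_add' := fun x y => by
    simp only [Dh, wr, derivative_add, derivative_sub, derivative_mul]; ring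
  map_smul' := fun s x => by
    simp only [Dh, wr, smul_eq_C_mul, derivative_mul, derivative_C, zero_mul, zero_add,
      RingHom.id_apply, derivative_sub]; ring

noncomputable def D2 (a c : L[X]) : L[X] →ₗ[L] L[X] where
  toFun := fun b => Dh a b c
  map_add' := fun x y => by
    simp only [Dh, wr, derivative_add, derivative_sub, derivative_mul]; ring
  map_smul' := fun s x => by
    simp only [Dh, wr, smul_eq_C_mul, derivative_mul, derivative_C, zero_mul, zero_add,
      RingHom.id_apply, derivative_sub]; ring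

lemma xd (i : ℕ) : (X : L[X]) * derivative (X ^ i) = (i : L[X]) * X ^ i := by
  rcases i with _ | i
  · simp
  · rw [derivative_X_pow]
    simp only [Nat.add_sub_cancel, map_natCast]
    push_cast
    ring

lemma xdd (i : ℕ) : (X : L[X]) ^ 2 * derivative (derivative (X ^ i)) =
    (i : L[X]) * ((i : L[X]) - 1) * X ^ i := by
  have h1 := xd (L := L) i
  have h2 : derivative ((X : L[X]) * derivative (X ^ i)) = derivative ((i : L[X]) * X ^ i) := by
    rw [h1]
  rw [derivative_mul, derivative_mul, derivative_X, derivative_natCast, zero_mul, zero_add,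
    one_mul] at h2
  have h3 : (X : L[X]) * (derivative (X ^ i) + X * derivative (derivative (X ^ i))) =
      X * ((i : L[X]) * derivative (X ^ i)) := by rw [h2]
  have h4 : (X : L[X]) * derivative (X ^ i) + X ^ 2 * derivative (derivative (X ^ i)) =
      (i : L[X]) * (X * derivative (X ^ i)) := by
    calc (X : L[X]) * derivative (X ^ i) + X ^ 2 * derivative (derivative (X ^ i)) =
        (X : L[X]) * (derivative (X ^ i) + X * derivative (derivative (X ^ i))) := by ring
      _ = _ := by rw [h3]; ring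
  rw [h1] at h4
  linear_combination h4

lemma wrXX (i j : ℕ) : (X : L[X]) * wr (X ^ i) (X ^ j) =
    ((j : L[X]) - (i : L[X])) * X ^ (i + j) := by
  have h1 := xd (L := L) i
  have h2 := xd (L := L) j
  unfold wr
  rw [pow_add]
  linear_combination (X : L[X]) ^ i * h2 - X ^ j * h1

lemma DhXXX (i j l : ℕ) : (X : L[X]) ^ 3 * Dh (X ^ i) (X ^ j) (X ^ l) =
    (((j : L[X]) - (i : L[X])) * ((l : L[X]) * ((l : L[X]) - 1))
      - ((j : L[X]) * ((j : L[X]) - 1) - (i : L[X]) * ((i : L[X]) - 1)) * (l : L[X])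
      + ((i : L[X]) * ((j : L[X]) * ((j : L[X]) - 1))
      - (i : L[X]) * ((i : L[X]) - 1) * (j : L[X]))) * X ^ (i + j + l) := by
  have h1 := xd (L := L) i
  have h2 := xd (L := L) j
  have h3 := xd (L := L) l
  have k1 := xdd (L := L) i
  have k2 := xdd (L := L) j
  have k3 := xdd (L := L) l
  have e : (X : L[X]) ^ 3 * Dh (X ^ i) (X ^ j) (X ^ l) =
      ((X ^ i) * (X * derivative (X ^ j)) - (X * derivative (X ^ i)) * X ^ j) *
        (X ^ 2 * derivative (derivative (X ^ l)))
      - ((X ^ i) * (X ^ 2 * derivative (derivative (X ^ j))) -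
          (X ^ 2 * derivative (derivative (X ^ i))) * X ^ j) * (X * derivative (X ^ l))
      + ((X * derivative (X ^ i)) * (X ^ 2 * derivative (derivative (X ^ j))) -
          (X ^ 2 * derivative (derivative (X ^ i))) * (X * derivative (X ^ j))) * X ^ l := by
    simp only [Dh, wr, derivative_sub, derivative_mul]
    ring
  rw [e, h1, h2, h3, k1, k2, k3, pow_add, pow_add]
  ring

lemma wr_mono (n i j : ℕ) (hi : i ≤ n) (hj : j ≤ n) :
    (wr (X ^ i : L[X]) (X ^ j)).natDegree ≤ 2 * n - 2 := by
  by_cases h0 : wr (X ^ i : L[X]) (X ^ j) = 0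
  · rw [h0]; simp
  have h := wrXX (L := L) i j
  have hij : i ≠ j := by
    rintro rfl
    rw [sub_self, zero_mul] at h
    exact h0 ((mul_eq_zero.mp h).resolve_left X_ne_zero)
  have h1 : ((X : L[X]) * wr (X ^ i) (X ^ j)).natDegree =
      (wr (X ^ i : L[X]) (X ^ j)).natDegree + 1 := by
    rw [natDegree_X_mul h0]
  have h2 : (((j : L[X]) - (i : L[X])) * X ^ (i + j)).natDegree ≤ i + j := by
    have e : ((j : L[X]) - (i : L[X])) = C ((j : L) - (i : L)) := by
      rw [C_sub]; simp
    rw [e]
    exact natDegree_C_mul_X_pow_le _ _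
  rw [h] at h1
  omega

lemma Dh_mono (n i j l : ℕ) (hi : i ≤ n) (hj : j ≤ n) (hl : l ≤ n) :
    (Dh (X ^ i : L[X]) (X ^ j) (X ^ l)).natDegree ≤ 3 * n - 6 := by
  by_cases h0 : Dh (X ^ i : L[X]) (X ^ j) (X ^ l) = 0
  · rw [h0]; simp
  have h := DhXXX (L := L) i j l
  have hX : (X : L[X]) ^ 3 ≠ 0 := pow_ne_zero 3 X_ne_zero
  have hij : i ≠ j := by
    rintro rfl
    apply h0
    have : (X : L[X]) ^ 3 * Dh (X ^ i) (X ^ i) (X ^ l) = 0 := by rw [h]; ring
    exact (mul_eq_zero.mp this).resolve_left hX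
  have hil : i ≠ l := by
    rintro rfl
    apply h0
    have : (X : L[X]) ^ 3 * Dh (X ^ i) (X ^ j) (X ^ i) = 0 := by rw [h]; ring
    exact (mul_eq_zero.mp this).resolve_left hX
  have hjl : j ≠ l := by
    rintro rfl
    apply h0
    have : (X : L[X]) ^ 3 * Dh (X ^ i) (X ^ j) (X ^ j) = 0 := by rw [h]; ring
    exact (mul_eq_zero.mp this).resolve_left hX
  have h1 : ((X : L[X]) ^ 3 * Dh (X ^ i) (X ^ j) (X ^ l)).natDegree =
      3 + (Dh (X ^ i : L[X]) (X ^ j) (X ^ l)).natDegree := by
    rw [natDegree_mul hX h0, natDegree_X_pow]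
  have h2 : ((((j : L[X]) - (i : L[X])) * ((l : L[X]) * ((l : L[X]) - 1))
      - ((j : L[X]) * ((j : L[X]) - 1) - (i : L[X]) * ((i : L[X]) - 1)) * (l : L[X])
      + ((i : L[X]) * ((j : L[X]) * ((j : L[X]) - 1))
      - (i : L[X]) * ((i : L[X]) - 1) * (j : L[X]))) * X ^ (i + j + l)).natDegree ≤
        i + j + l := by
    have e : (((j : L[X]) - (i : L[X])) * ((l : L[X]) * ((l : L[X]) - 1))
      - ((j : L[X]) * ((j : L[X]) - 1) - (i : L[X]) * ((i : L[X]) - 1)) * (l : L[X])
      + ((i : L[X]) * ((j : L[X]) * ((j : L[X]) - 1))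
      - (i : L[X]) * ((i : L[X]) - 1) * (j : L[X]))) =
        C (((j : L) - (i : L)) * ((l : L) * ((l : L) - 1))
      - ((j : L) * ((j : L) - 1) - (i : L) * ((i : L) - 1)) * (l : L)
      + ((i : L) * ((j : L) * ((j : L) - 1))
      - (i : L) * ((i : L) - 1) * (j : L))) := by
      simp
    rw [e]
    exact natDegree_C_mul_X_pow_le _ _
  rw [h] at h1
  omega

end WDG_

open WDG_

theorem wdg_proof : Stmt_WDG := by
  intro L _ n a b c ha hb hc
  constructor
  · refine lin_bound (w1 b) n (2 * n - 2) (fun i hi => ?_) a ha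
    refine lin_bound (w2 (X ^ i)) n (2 * n - 2) (fun j hj => ?_) b hb
    exact wr_mono n i j hi hj
  · refine lin_bound (D1 b c) n (3 * n - 6) (fun i hi => ?_) a ha
    refine lin_bound (D2 (X ^ i) c) n (3 * n - 6) (fun j hj => ?_) b hb
    refine lin_bound (DhLin (X ^ i) (X ^ j)) n (3 * n - 6) (fun l hl => ?_) c hc
    exact Dh_mono n i j l hi hj hl

end Pool.Agent.RTB
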