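import Pool.Agent.RTB.SStmts

/-!
# RTB: module WZR, vanishing Wronskian
-/

set_option autoImplicit false

open Polynomial

namespace Pool.Agent.RTB

theorem wzr_proof : Stmt_WZR := by
  intro L _ _ a b h ha
  classical
  set g := EuclideanDomain.gcd a b with hg
  have hg0 : g ≠ 0 := by
    intro h0
    exact ha (EuclideanDomain.gcd_eq_zero_iff.mp h0).1
  obtain ⟨a1, h1⟩ : g ∣ a := EuclideanDomain.gcd_dvd_left a b
  obtain ⟨b1, h2⟩ : g ∣ b := EuclideanDomain.gcd_dvd_right a b
  have hc : IsCoprime a1 b1 := by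
    have hb := EuclideanDomain.gcd_eq_gcd_ab a b
    rw [← hg] at hb
    refine ⟨EuclideanDomain.gcdA a b, EuclideanDomain.gcdB a b, ?_⟩
    apply mul_left_cancel₀ hg0
    calc g * (EuclideanDomain.gcdA a b * a1 + EuclideanDomain.gcdB a b * b1)
        = (g * a1) * EuclideanDomain.gcdA a b + (g * b1) * EuclideanDomain.gcdB a b := by ring
      _ = g * 1 := by rw [← h1, ← h2, mul_one]; exact hb.symm
  have hw : g ^ 2 * wronskian a1 b1 = 0 := by
    have : wr a b = g ^ 2 * wronskian a1 b1 := by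
      unfold wr wronskian
      rw [h1, h2]
      simp only [derivative_mul]
      ring
    rw [← this]; exact h
  have hw2 : wronskian a1 b1 = 0 := by
    rcases mul_eq_zero.mp hw with h3 | h3
    · exact absurd (pow_eq_zero_iff (by norm_num) |>.mp h3) hg0
    · exact h3
  obtain ⟨h3, h4⟩ := hc.wronskian_eq_zero_iff.mp hw2
  have h5 := eq_C_of_natDegree_eq_zero (derivative_eq_zero.mp h3)
  have h6 := eq_C_of_natDegree_eq_zero (derivative_eq_zero.mp h4)
  have h7 : a1.coeff 0 ≠ 0 := by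
    intro h0
    rw [h0, C_0] at h5
    rw [h5, mul_zero] at h1
    exact ha h1
  refine ⟨b1.coeff 0 / a1.coeff 0, ?_⟩
  rw [h1, h2, h5, h6]
  simp only [coeff_C_zero]
  have h8 : (C (b1.coeff 0) : L[X]) = C (b1.coeff 0 / a1.coeff 0) * C (a1.coeff 0) := by
    rw [← C_mul, div_mul_cancel₀ _ h7]
  rw [h8]
  ring

end Pool.Agent.RTB
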