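import Pool.Agent.RTB.BCH
import Pool.Agent.RTB.BEZ
import Pool.Agent.RTB.BN3
import Pool.Agent.RTB.BNG
import Pool.Agent.RTB.BNS
import Pool.Agent.RTB.CFT
import Pool.Agent.RTB.COM
import Pool.Agent.RTB.CONX
import Pool.Agent.RTB.DG9
import Pool.Agent.RTB.DGC
import Pool.Agent.RTB.DI1
import Pool.Agent.RTB.DUA
import Pool.Agent.RTB.EXT
import Pool.Agent.RTB.FI1
import Pool.Agent.RTB.FI2
import Pool.Agent.RTB.GCD
import Pool.Agent.RTB.GCK
import Pool.Agent.RTB.GDG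
import Pool.Agent.RTB.GDV
import Pool.Agent.RTB.GEI
import Pool.Agent.RTB.GEN
import Pool.Agent.RTB.GFF
import Pool.Agent.RTB.GFR
import Pool.Agent.RTB.GGN
import Pool.Agent.RTB.GGP
import Pool.Agent.RTB.GGR
import Pool.Agent.RTB.GHN
import Pool.Agent.RTB.GIC
import Pool.Agent.RTB.GIN
import Pool.Agent.RTB.GIT
import Pool.Agent.RTB.GIV
import Pool.Agent.RTB.GKD
import Pool.Agent.RTB.GKP
import Pool.Agent.RTB.GKS
import Pool.Agent.RTB.GLF
import Pool.Agent.RTB.GLN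
import Pool.Agent.RTB.GMK
import Pool.Agent.RTB.GNX
import Pool.Agent.RTB.GOT
import Pool.Agent.RTB.GPO
import Pool.Agent.RTB.GPT
import Pool.Agent.RTB.GRA
import Pool.Agent.RTB.GRI
import Pool.Agent.RTB.GRK
import Pool.Agent.RTB.GRS
import Pool.Agent.RTB.GRT
import Pool.Agent.RTB.GSM
import Pool.Agent.RTB.GSU
import Pool.Agent.RTB.GSW
import Pool.Agent.RTB.GTB
import Pool.Agent.RTB.GVL
import Pool.Agent.RTB.GVO
import Pool.Agent.RTB.GWA
import Pool.Agent.RTB.GXI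
import Pool.Agent.RTB.GYW
import Pool.Agent.RTB.GZD
import Pool.Agent.RTB.HIN
import Pool.Agent.RTB.HUB
import Pool.Agent.RTB.JPC
import Pool.Agent.RTB.JPD
import Pool.Agent.RTB.KER
import Pool.Agent.RTB.KIN
import Pool.Agent.RTB.KNT
import Pool.Agent.RTB.KNU
import Pool.Agent.RTB.LB2
import Pool.Agent.RTB.LBD
import Pool.Agent.RTB.LBE
import Pool.Agent.RTB.LIF
import Pool.Agent.RTB.LSA
import Pool.Agent.RTB.LSB
import Pool.Agent.RTB.NUM
import Pool.Agent.RTB.PEN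
import Pool.Agent.RTB.PLN
import Pool.Agent.RTB.PNX
import Pool.Agent.RTB.PSA
import Pool.Agent.RTB.PSB
import Pool.Agent.RTB.R1D
import Pool.Agent.RTB.R1T
import Pool.Agent.RTB.RDB
import Pool.Agent.RTB.RES
import Pool.Agent.RTB.RFB
import Pool.Agent.RTB.RLF
import Pool.Agent.RTB.RPK
import Pool.Agent.RTB.RSL
import Pool.Agent.RTB.RVD
import Pool.Agent.RTB.S1C
import Pool.Agent.RTB.S2A
import Pool.Agent.RTB.S2B
import Pool.Agent.RTB.S2C
import Pool.Agent.RTB.S3A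
import Pool.Agent.RTB.S3B
import Pool.Agent.RTB.S3C
import Pool.Agent.RTB.SC4
import Pool.Agent.RTB.SFT
import Pool.Agent.RTB.SP1
import Pool.Agent.RTB.SPC
import Pool.Agent.RTB.SSX
import Pool.Agent.RTB.ST1
import Pool.Agent.RTB.SUR
import Pool.Agent.RTB.THA
import Pool.Agent.RTB.THK
import Pool.Agent.RTB.TNA
import Pool.Agent.RTB.TNB
import Pool.Agent.RTB.TNC
import Pool.Agent.RTB.VAL
import Pool.Agent.RTB.WDG
import Pool.Agent.RTB.WZR
import Pool.Agent.RTB.Crv.Main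
import Pool.Agent.RTB.UMain

/-!
# squad RTB: assembly

`MainStatement`: for odd `g ≥ 15`, on a general curve of genus `g`, every semistable bundle of rank
2 and degree `2g-2` with determinant different from the canonical bundle has at most `(g+1)/2`
independent sections.
-/

set_option autoImplicit false

namespace Pool.Agent.RTB

theorem hWZR : Stmt_WZR := wzr_proof
theorem hKER : Stmt_KER := ker_proof hWZR
theorem hRFB : Stmt_RFB := rfb_proof
theorem hRDB : Stmt_RDB := rdb_proof hRFB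
theorem hRVD : Stmt_RVD := rvd_proof hRDB
theorem hR1D : Stmt_R1D := r1d_proof hRVD hRDB hRFB
theorem hBCH : Stmt_BCH := bch_proof hKER hR1D hRDB hWZR
theorem hBEZ : Stmt_BEZ := bez_proof
theorem hBNG : Stmt_BNG := bng_proof
theorem hBN3 : Stmt_BN3 := bn3_proof hBNG
theorem hHIN : Stmt_HIN := hin_proof
theorem hBNS : Stmt_BNS := bns_proof hBNG hHIN
theorem hCFT : Stmt_CFT := cft_proof
theorem hCOM : Stmt_COM := com_proof
theorem hRLF : Stmt_RLF := rlf_proof hRVD hRDB hRFB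
theorem hWDG : Stmt_WDG := wdg_proof
theorem hVAL : Stmt_VAL := val_proof hWDG hHIN hWZR
theorem hLBE : Stmt_LBE := lbe_proof
theorem hSUR : Stmt_SUR := sur_proof hLBE hWDG hHIN hWZR
theorem hLIF : Stmt_LIF := lif_proof hSUR hHIN
theorem hPLN : Stmt_PLN := pln_proof hWDG hHIN hWZR
theorem hSSX : Stmt_SSX := ssx_proof hVAL hLIF hPLN hHIN
theorem hHUB : Stmt_HUB := hub_proof hWDG hHIN
theorem hLBD : Stmt_LBD := lbd_proof hLBE hHIN
theorem hLB2 : Stmt_LB2 := lb2_proof hLBD hWDG hHIN hWZR hKER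
theorem hCON : Stmt_CON := con_proof hRLF hSSX hHUB hLB2 hRDB hRFB hHIN
theorem hDG9 : Stmt_DG9 := dg9_proof
theorem hDGC : Stmt_DGC := dgc_proof
theorem hPNX : Stmt_PNX := pnx_proof hWDG
theorem hDI1 : Stmt_DI1 := di1_proof hKER hWDG hPNX hHIN
theorem hRSL : Stmt_RSL := rsl_proof hHIN
theorem hDUA : Stmt_DUA := dua_proof hHIN hRSL
theorem hKIN : Stmt_KIN := kin_proof
theorem hRPK : Stmt_RPK := rpk_proof hKIN hRDB
theorem hKNT : Stmt_KNT := knt_proof hRPK hRDB hRVD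
theorem hEXT : Stmt_EXT := ext_proof hRPK hKNT hRVD hR1D hRLF hRDB hRFB
theorem hFI1 : Stmt_FI1 := fi1_proof hDI1 hR1D hRDB
theorem hFI2 : Stmt_FI2 := fi2_proof hBCH hCON
theorem hGCD : Stmt_GCD := gcd_proof
theorem hGCK : Stmt_GCK := gck_proof
theorem hGWA : Stmt_GWA := gwa_proof
theorem hGDG : Stmt_GDG := gdg_proof hGWA
theorem hGDV : Stmt_GDV := gdv_proof
theorem hGEI : Stmt_GEI := gei_proof
theorem hGEN : Stmt_GEN := gen_proof
theorem hGRK : Stmt_GRK := grk_proof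
theorem hGFF : Stmt_GFF := gff_proof hGRK
theorem hGRA : Stmt_GRA := gra_proof
theorem hGRI : Stmt_GRI := gri_proof
theorem hGFR : Stmt_GFR := gfr_proof hGRA hGRI
theorem hGNX : Stmt_GNX := gnx_proof
theorem hGKP : Stmt_GKP := gkp_proof
theorem hGGP : Stmt_GGP := ggp_proof hGKP
theorem hGGD : Stmt_GGD := ggd_proof hGNX hGGP
theorem hGVO : Stmt_GVO := gvo_proof
theorem hGOT : Stmt_GOT := got_proof hGDG hGRK hGVO
theorem hGIN : Stmt_GIN := gin_proof
theorem hGLN : Stmt_GLN := gln_proof hGVO hGOT hGIN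
theorem hGZD : Stmt_GZD := gzd_proof hGDG hGRK hGVO hGOT
theorem hGGN : Stmt_GGN := ggn_proof Crv.hGNS Crv.hELL Crv.hTWI hGVO hGOT hGLN hGZD
theorem hGGR : Stmt_GGR := ggr_proof
theorem hGHN : Stmt_GHN := ghn_proof
theorem hGIC : Stmt_GIC := gic_proof hGDV hGEN
theorem hGIT : Stmt_GIT := git_proof hGRI hGFR hGEI hGIC
theorem hGIV : Stmt_GIV := giv_proof
theorem hGKD : Stmt_GKD := gkd_proof
theorem hGKS : Stmt_GKS := gks_proof hGKP hGKD
theorem hGLF : Stmt_GLF := glf_proof hGKP hGKD hGKS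
theorem hGPT : Stmt_GPT := gpt_proof
theorem hGMK : Stmt_GMK := gmk_proof Crv.hVALO Crv.hPOL hGFF hGPT hGLN hGGN
theorem hGXI : Stmt_GXI := gxi_proof hGLF
theorem hGRT : Stmt_GRT := grt_proof
theorem hGYW : Stmt_GYW := gyw_proof hGRT hGIV
theorem hGOD : Stmt_GOD := god_proof hGHN hGXI hGYW
theorem hGPO : Stmt_GPO := gpo_proof
theorem hGRS : Stmt_GRS := grs_proof
theorem hGVL : Stmt_GVL := gvl_proof
theorem hGSW : Stmt_GSW := gsw_proof hGRT
theorem hGSU : Stmt_GSU := gsu_proof hGLF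
theorem hGTB : Stmt_GTB := gtb_proof
theorem hGSM : Stmt_GSM := gsm_proof hGVL hGOD hGGD hGRA hGGR hGIT hGSW hGSU hGTB hGCK hGMK
theorem hJPC : Stmt_JPC := jpc_proof
theorem hJPD : Stmt_JPD := jpd_proof hPNX
theorem hPEN : Stmt_PEN := pen_proof hGRS
theorem hR1T : Stmt_R1T := r1t_proof hGCD hLBD hBNS hR1D
theorem hNUM : Stmt_NUM := num_proof
theorem hKNU : Stmt_KNU := knu_proof hPEN hKIN hR1T hGPO hNUM hR1D hRDB
theorem hLSA : Stmt_LSA := lsa_proof hHIN hWDG hWZR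
theorem hLSB : Stmt_LSB := lsb_proof hHIN hWDG hWZR
theorem hPSA : Stmt_PSA := psa_proof hDUA hBN3 hLSA hPNX hKER hHIN
theorem hPSB : Stmt_PSB := psb_proof hDUA hBN3 hLSB hWDG hKER hHIN
theorem hRES : Stmt_RES := res_proof hHIN hRSL
theorem hSPC : Stmt_SPC := spc_proof hHIN
theorem hTNC : Stmt_TNC := tnc_proof
theorem hS1C : Stmt_S1C := s1c_proof hSPC hBEZ hRES hDGC hJPC hTNC hHIN hWDG
theorem hS2A : Stmt_S2A := s2a_proof hCOM hDG9 hWDG hPNX hHIN hWZR
theorem hS2B : Stmt_S2B := s2b_proof hCOM hWDG hHIN hWZR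
theorem hS2C : Stmt_S2C := s2c_proof hCOM hWDG hHIN hWZR
theorem hS3A : Stmt_S3A := s3a_proof hBN3 hPNX hWDG hHIN hWZR hKER
theorem hS3B : Stmt_S3B := s3b_proof hBN3 hWDG hHIN hWZR hPNX
theorem hS3C : Stmt_S3C := s3c_proof hWDG
theorem hSC4 : Stmt_SC4 := sc4_proof hKER
theorem hSP1 : Stmt_SP1 := sp1_proof hHIN
theorem hST1 : Stmt_ST1 := st1_proof hSP1 hBEZ hRES hDGC hJPD hPNX hHIN
theorem hTNA : Stmt_TNA := tna_proof hPNX hWDG
theorem hTNB : Stmt_TNB := tnb_proof hPNX hWDG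
theorem hSFT : Stmt_SFT := sft_proof hPSA hPSB hLSA hLSB hST1 hTNA hTNB hS2A hS2B hS3A hS3B hS1C hS2C hS3C hSC4 hKER hHIN hPNX
theorem hTHA : Stmt_THA := tha_proof hR1T
theorem hTHK : Stmt_THK := thk_proof hKNU hSFT hEXT hFI1 hFI2

theorem main_statement : MainStatement :=
  U_.main Crv.tbb Crv.tda hCFT hGSM hTHK hTHA

end Pool.Agent.RTB
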