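import Pool.Agent.RTB.KStmts

/-! Outcome II: a good basis of `V`. -/

set_option autoImplicit false

open Polynomial

namespace Pool.Agent.RTB

namespace BCH_

section
variable {Kf Lf κ : Type} [Field Kf] [Field Lf] [Algebra Kf Lf] [Field κ]

/-- `det2` as a bilinear map -/
noncomputable def dB (Kf Lf : Type) [Field Kf] [Field Lf] [Algebra Kf Lf] :
    (Fin 2 → Lf) →ₗ[Kf] (Fin 2 → Lf) →ₗ[Kf] Lf :=
  LinearMap.mk₂ Kf (fun u v => det2 u v)
    (fun a b c => by simp only [det2, Pi.add_apply]; ring)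
    (fun r a b => by simp only [det2, Pi.smul_apply, Algebra.smul_def]; ring)
    (fun a b c => by simp only [det2, Pi.add_apply]; ring)
    (fun r a b => by simp only [det2, Pi.smul_apply, Algebra.smul_def]; ring)

theorem dB_apply (u v : Fin 2 → Lf) : dB Kf Lf u v = det2 u v := rfl

theorem plucker (a b c d : Fin 2 → Lf) :
    det2 a b * det2 c d - det2 a c * det2 b d + det2 a d * det2 b c = 0 := by
  simp only [det2]
  ring

theorem det2_self (a : Fin 2 → Lf) : det2 a a = 0 := by
  simp only [det2]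
  ring

theorem det2_swap (a b : Fin 2 → Lf) : det2 a b = - det2 b a := by
  simp only [det2]
  ring

theorem red_zero (O : ValuationSubring Kf) (red : O →+* κ) (β : ℕ → Lf) (βF : ℕ → κ[X]) :
    Red O red β βF (0 : Lf) 0 :=
  ⟨0, fun _ => 0, by simp, by simp⟩

theorem red_sum {O : ValuationSubring Kf} {red : O →+* κ} {β : ℕ → Lf} {βF : ℕ → κ[X]}
    (hadd : ∀ x y p q, Red O red β βF x p → Red O red β βF y q → Red O red β βF (x + y) (p + q))
    {ι : Type} (S : Finset ι) (x : ι → Lf) (p : ι → κ[X]) (h : ∀ i ∈ S, Red O red β βF (x i) (p i)) :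
    Red O red β βF (∑ i ∈ S, x i) (∑ i ∈ S, p i) := by
  classical
  induction S using Finset.induction_on with
  | empty => simpa using red_zero O red β βF
  | insert a S ha ih =>
    rw [Finset.sum_insert ha, Finset.sum_insert ha]
    exact hadd _ _ _ _ (h a (Finset.mem_insert_self a S))
      (ih fun i hi => h i (Finset.mem_insert_of_mem hi))

/-- polynomials of degree at most `k - 1` -/
theorem span_eq {k : ℕ} (hk : 1 ≤ k) {J : Type} [Fintype J] (hJ : Fintype.card J = k)
    (v : J → κ[X]) (hv : ∀ j, (v j).natDegree ≤ k - 1) (hi : LinearIndependent κ v)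
    (p : κ[X]) (hp : p.natDegree ≤ k - 1) : p ∈ Submodule.span κ (Set.range v) := by
  have hlt : ∀ q : κ[X], q.natDegree ≤ k - 1 → q ∈ degreeLT κ k := by
    intro q hq
    rw [mem_degreeLT]
    by_cases h0 : q = 0
    · rw [h0, degree_zero]
      exact WithBot.bot_lt_coe k
    · rw [degree_eq_natDegree h0]
      exact_mod_cast (by omega : q.natDegree < k)
  have hle : Submodule.span κ (Set.range v) ≤ degreeLT κ k := by
    rw [Submodule.span_le]
    rintro _ ⟨j, rfl⟩
    exact hlt _ (hv j)
  have hfr : Module.finrank κ (degreeLT κ k) = k := by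
    rw [(degreeLTEquiv κ k).finrank_eq, Module.finrank_fin_fun]
  have hfd : FiniteDimensional κ (degreeLT κ k) := Module.Finite.equiv (degreeLTEquiv κ k).symm
  have hfs : Module.finrank κ (Submodule.span κ (Set.range v)) = k := by
    rw [finrank_span_eq_card hi, hJ]
  have := Submodule.eq_of_le_of_finrank_eq hle (by rw [hfs, hfr])
  rw [this]
  exact hlt p hp

end

end BCH_

open BCH_ in
theorem bch_proof (_hKER : Stmt_KER) (_hR1D : Stmt_R1D) (hRDB : Stmt_RDB) (_hWZR : Stmt_WZR) :
    Stmt_BCH := by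
  classical
  intro Kf Lf κ _ _ _ _ _ _ k O red β F βF hk hctx s f hdat e t j0 γN γP a b n0 hA N c τ q wh hE hO
  obtain ⟨hu, hadd, hsm, hmul, -, -, -, -, hRR, -, -, -⟩ :=
    hRDB Kf Lf κ (2 * k - 3) O red β F βF (by omega) inferInstance hctx
  obtain ⟨a', A, f1, f2, ν, b0, hF, hd1, hd2, hwr, hLam, hP, hb0, hOm⟩ := hO
  -- non vanishing
  have hbj0 : b j0 ≠ 0 := hA.indb.ne_zero j0
  have hπ0 : f * det2 (e 0) (t j0) ≠ 0 := by
    intro h
    have h1 := hA.redP j0
    rw [h] at h1
    have h2 := hu _ _ _ h1 (red_zero O red β βF)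
    exact mul_ne_zero hA.γP0 hbj0 h2
  set π : Lf := f * det2 (e 0) (t j0) with hπdef
  have hc0 : algebraMap Kf Lf c ≠ 0 := by
    rw [Ne, FaithfulSMul.algebraMap_eq_zero_iff]
    exact hE.c0
  have hee : ∀ i i' : Fin 2, det2 (e i) (e i') = 0 := by
    intro i i'
    have h01 := hA.par
    have h10 : det2 (e 1) (e 0) = 0 := by rw [det2_swap, h01, neg_zero]
    fin_cases i <;> fin_cases i'
    · exact det2_self _
    · exact h01
    · exact h10
    · exact det2_self _
  -- the corrections
  have hτ : ∀ j, ∃ x : Fin 2 → Kf, ∑ i, x i • (f * det2 (e i) (t j0)) = τ j := by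
    intro j
    exact (Submodule.mem_span_range_iff_exists_fun Kf).1 (hE.τN j)
  choose x hx using hτ
  let v : Fin (k - 2) → Fin 2 → Lf := fun j => ∑ i, x j i • e i
  have hv1 : ∀ j, f * det2 (v j) (t j0) = τ j := by
    intro j
    rw [← hx j, ← dB_apply (Kf := Kf)]
    simp only [v, map_sum, map_smul, LinearMap.sum_apply, LinearMap.smul_apply, dB_apply,
      Finset.mul_sum, mul_smul_comm]
  have hv2 : ∀ i j, det2 (e i) (v j) = 0 := by
    intro i j
    rw [← dB_apply (Kf := Kf)]
    simp only [v, map_sum, map_smul, dB_apply, hee, smul_zero, Finset.sum_const_zero]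
  let S : Fin 2 ⊕ Fin (k - 2) → Fin 2 → Lf := Sum.elim e (fun j => c • t j + v j)
  let w : Fin 2 ⊕ Fin (k - 2) → κ[X] := Sum.elim a (fun j => ν (b j))
  let θ : Lf := (algebraMap Kf Lf c)⁻¹ * (f * π)
  have hf0 : f ≠ 0 := hdat.f0
  have hθ0 : θ ≠ 0 := mul_ne_zero (inv_ne_zero hc0) (mul_ne_zero hf0 hπ0)
  let Γ : κ[X] := C b0⁻¹ * (γN * γP)
  have hCb : (C b0⁻¹ : κ[X]) * C b0 = 1 := by
    rw [← C_mul, inv_mul_cancel₀ hb0, C_1]
  have hΓ0 : Γ ≠ 0 := mul_ne_zero (C_ne_zero.2 (inv_ne_zero hb0)) (mul_ne_zero hA.γN0 hA.γP0)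
  have haL : ∀ i, a i ∈ Submodule.span κ {f1, f2} := by
    intro i
    rw [← hLam]
    exact Submodule.subset_span ⟨i, rfl⟩
  have hbP : ∀ j, b j ∈ Submodule.span κ (Set.range b) := fun j => Submodule.subset_span ⟨j, rfl⟩
  have hDa : ∀ i, Dh f1 f2 (a i) = 0 := by
    intro i
    obtain ⟨y, z, hyz⟩ := Submodule.mem_span_pair.1 (haL i)
    have h1 : DhLin f1 f2 (a i) = 0 := by
      rw [← hyz, map_add, map_smul, map_smul]
      have e1 : DhLin f1 f2 f1 = 0 := Dh_self1 f1 f2
      have e2 : DhLin f1 f2 f2 = 0 := Dh_self2 f1 f2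
      rw [e1, e2, smul_zero, smul_zero, add_zero]
    exact h1
  have hDb : ∀ j, Dh f1 f2 (ν (b j)) = C b0 * b j := fun j => (hOm _ (hbP j)).2.2
  have hq : ∀ i j, q i j = γN * γP * (b j * ν (b i) - b i * ν (b j)) := by
    intro i j
    apply mul_left_cancel₀ hbj0
    rw [hE.cyc i j, (hOm _ (hbP i)).2.1, (hOm _ (hbP j)).2.1]
    ring
  -- the key reductions
  have hω : ∀ i j, θ * det2 (e i) (c • t j + v j) =
      (f * det2 (e i) (t j0)) * (f * det2 (e 0) (t j)) := by
    intro i j
    have h1 : det2 (e i) (c • t j + v j) = algebraMap Kf Lf c * det2 (e i) (t j) := by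
      rw [← dB_apply (Kf := Kf), map_add, map_smul, dB_apply, dB_apply, hv2, add_zero,
        Algebra.smul_def]
    have h2 := plucker (e 0) (e i) (t j0) (t j)
    rw [hee 0 i] at h2
    rw [h1]
    simp only [θ, hπdef]
    field_simp
    linear_combination (-1 : Lf) * h2
  have hm : ∀ i j, θ * det2 (c • t i + v i) (c • t j + v j) =
      f * det2 (e 0) (t j) * (c • (f * det2 (t i) (t j0)) + τ i)
      - f * det2 (e 0) (t i) * (c • (f * det2 (t j) (t j0)) + τ j) := by
    intro i j
    have h1 : ∀ i, det2 (e 0) (c • t i + v i) = algebraMap Kf Lf c * det2 (e 0) (t i) := by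
      intro i
      rw [← dB_apply (Kf := Kf), map_add, map_smul, dB_apply, dB_apply, hv2, add_zero,
        Algebra.smul_def]
    have h2 : ∀ i, f * det2 (c • t i + v i) (t j0) = c • (f * det2 (t i) (t j0)) + τ i := by
      intro i
      rw [← hv1 i, ← dB_apply (Kf := Kf), map_add, map_smul, LinearMap.add_apply,
        LinearMap.smul_apply, dB_apply, dB_apply, mul_add, mul_smul_comm]
    have h3 := plucker (e 0) (c • t j + v j) (c • t i + v i) (t j0)
    rw [← h2 i, ← h2 j]
    rw [h1, h1, det2_swap (c • t j + v j) (c • t i + v i)] at h3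
    simp only [θ, hπdef]
    field_simp
    linear_combination (-1 : Lf) * h3
  have hR0 : ∀ I J, Red O red β βF (θ * det2 (S I) (S J))
      (Γ * (w I * Dh f1 f2 (w J) - w J * Dh f1 f2 (w I))) := by
    have hR1 : ∀ i j, Red O red β βF (θ * det2 (e i) (c • t j + v j))
        (Γ * (a i * Dh f1 f2 (ν (b j)) - ν (b j) * Dh f1 f2 (a i))) := by
      intro i j
      rw [hω, hDa, hDb]
      have h1 : Γ * (a i * (C b0 * b j) - ν (b j) * 0) = (γN * a i) * (γP * b j) := by
        simp only [Γ]
        linear_combination (γN * γP * a i * b j) * hCb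
      rw [h1]
      exact hmul _ _ _ _ (hA.redN i) (hA.redP j)
    rintro (i | i) (j | j)
    · simp only [S, w, Sum.elim_inl]
      rw [hee, hDa, hDa]
      simp only [mul_zero, sub_zero]
      exact red_zero O red β βF
    · simp only [S, w, Sum.elim_inl, Sum.elim_inr]
      exact hR1 i j
    · simp only [S, w, Sum.elim_inl, Sum.elim_inr]
      have h1 := hsm _ _ (-1 : O) (hR1 j i)
      have h2 : ((-1 : O) : Kf) • (θ * det2 (e j) (c • t i + v i)) =
          θ * det2 (c • t i + v i) (e j) := by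
        rw [det2_swap (c • t i + v i) (e j)]
        push_cast
        rw [neg_smul, one_smul, mul_neg]
      have h3 : C (red (-1 : O)) * (Γ * (a j * Dh f1 f2 (ν (b i)) - ν (b i) * Dh f1 f2 (a j))) =
          Γ * (ν (b i) * Dh f1 f2 (a j) - a j * Dh f1 f2 (ν (b i))) := by
        rw [map_neg, map_one, C_neg, C_1]
        ring
      rw [h2, h3] at h1
      exact h1
    · simp only [S, w, Sum.elim_inr]
      rw [hm, hDb, hDb]
      have h1 : Γ * (ν (b i) * (C b0 * b j) - ν (b j) * (C b0 * b i)) = q i j := by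
        rw [hq]
        simp only [Γ]
        linear_combination (γN * γP * (b j * ν (b i) - b i * ν (b j))) * hCb
      rw [h1]
      exact hE.redq i j
  -- the basis
  have hwd : ∀ J, (w J).natDegree ≤ k - 1 := by
    rintro (i | j)
    · obtain ⟨y, z, hyz⟩ := Submodule.mem_span_pair.1 (haL i)
      simp only [w, Sum.elim_inl]
      rw [← hyz]
      exact (natDegree_add_le _ _).trans (max_le ((natDegree_smul_le _ _).trans hd1)
        ((natDegree_smul_le _ _).trans hd2))
    · exact (hOm _ (hbP j)).1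
  have hwi : LinearIndependent κ w := by
    rw [Fintype.linearIndependent_iff]
    intro y hy
    rw [Fintype.sum_sum_type] at hy
    simp only [w, Sum.elim_inl, Sum.elim_inr] at hy
    have h1 : DhLin f1 f2 (∑ i, y (Sum.inl i) • a i + ∑ j, y (Sum.inr j) • ν (b j)) = 0 := by
      rw [hy, map_zero]
    rw [map_add, map_sum, map_sum] at h1
    have h2 : ∑ i, DhLin f1 f2 (y (Sum.inl i) • a i) = 0 := by
      apply Finset.sum_eq_zero
      intro i _
      rw [map_smul]
      have : DhLin f1 f2 (a i) = 0 := hDa i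
      rw [this, smul_zero]
    have h3 : ∑ j, DhLin f1 f2 (y (Sum.inr j) • ν (b j)) = C b0 * ∑ j, y (Sum.inr j) • b j := by
      rw [Finset.mul_sum]
      apply Finset.sum_congr rfl
      intro j _
      rw [map_smul]
      have : DhLin f1 f2 (ν (b j)) = C b0 * b j := hDb j
      rw [this, mul_smul_comm]
    rw [h2, h3, zero_add] at h1
    have h4 : ∑ j, y (Sum.inr j) • b j = 0 :=
      (mul_eq_zero.1 h1).resolve_left (C_ne_zero.2 hb0)
    have h5 : ∀ j, y (Sum.inr j) = 0 := Fintype.linearIndependent_iff.1 hA.indb _ h4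
    simp only [h5, zero_smul, Finset.sum_const_zero, add_zero] at hy
    have h6 : ∀ i, y (Sum.inl i) = 0 := Fintype.linearIndependent_iff.1 hA.inda _ hy
    rintro (i | j)
    · exact h6 i
    · exact h5 j
  have hcard : Fintype.card (Fin 2 ⊕ Fin (k - 2)) = k := by
    rw [Fintype.card_sum, Fintype.card_fin, Fintype.card_fin]
    omega
  have hX : ∀ i : Fin k, ∃ m : Fin 2 ⊕ Fin (k - 2) → κ, ∑ J, m J • w J = X ^ (i : ℕ) := by
    intro i
    have h1 := span_eq (by omega) hcard w hwd hwi (X ^ (i : ℕ)) (by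
      rw [natDegree_X_pow]
      omega)
    exact (Submodule.mem_span_range_iff_exists_fun κ).1 h1
  choose m hmX using hX
  choose mh hmh using fun (i : Fin k) (J : Fin 2 ⊕ Fin (k - 2)) => hctx.surj (m i J)
  let σ : Fin k → Fin 2 → Lf := fun i => ∑ J, (mh i J : Kf) • S J
  -- first slot
  have hR1 : ∀ (i : Fin k) J, Red O red β βF (θ * det2 (σ i) (S J))
      (Γ * (X ^ (i : ℕ) * Dh f1 f2 (w J) - w J * Dh f1 f2 (X ^ (i : ℕ)))) := by
    intro i J
    have h1 : θ * det2 (σ i) (S J) = ∑ I, (mh i I : Kf) • (θ * det2 (S I) (S J)) := by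
      rw [← dB_apply (Kf := Kf)]
      simp only [σ, map_sum, map_smul, LinearMap.sum_apply, LinearMap.smul_apply, dB_apply,
        Finset.mul_sum, mul_smul_comm]
    have h2 : Γ * (X ^ (i : ℕ) * Dh f1 f2 (w J) - w J * Dh f1 f2 (X ^ (i : ℕ))) =
        ∑ I, C (red (mh i I)) * (Γ * (w I * Dh f1 f2 (w J) - w J * Dh f1 f2 (w I))) := by
      have h3 : Dh f1 f2 (X ^ (i : ℕ)) = ∑ I, m i I • Dh f1 f2 (w I) := by
        have : DhLin f1 f2 (X ^ (i : ℕ)) = ∑ I, m i I • DhLin f1 f2 (w I) := by
          rw [← hmX i, map_sum]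
          simp only [map_smul]
        exact this
      rw [h3, ← hmX i, Finset.sum_mul, Finset.mul_sum, ← Finset.sum_sub_distrib, Finset.mul_sum]
      apply Finset.sum_congr rfl
      intro I _
      rw [hmh, smul_eq_C_mul, smul_eq_C_mul]
      ring
    rw [h1, h2]
    exact red_sum hadd _ _ _ fun I _ => hsm _ _ _ (hR0 I J)
  have hR2 : ∀ i j : Fin k, Red O red β βF (θ * det2 (σ i) (σ j)) (Γ * muX f1 f2 i j) := by
    intro i j
    have h1 : θ * det2 (σ i) (σ j) = ∑ J, (mh j J : Kf) • (θ * det2 (σ i) (S J)) := by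
      rw [← dB_apply (Kf := Kf)]
      simp only [σ]
      rw [map_sum (dB Kf Lf (∑ J, (mh i J : Kf) • S J))]
      simp only [map_smul, dB_apply, Finset.mul_sum, mul_smul_comm]
    have h2 : Γ * muX f1 f2 i j = ∑ J, C (red (mh j J)) *
        (Γ * (X ^ (i : ℕ) * Dh f1 f2 (w J) - w J * Dh f1 f2 (X ^ (i : ℕ)))) := by
      have h3 : Dh f1 f2 (X ^ (j : ℕ)) = ∑ J, m j J • Dh f1 f2 (w J) := by
        have : DhLin f1 f2 (X ^ (j : ℕ)) = ∑ J, m j J • DhLin f1 f2 (w J) := by
          rw [← hmX j, map_sum]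
          simp only [map_smul]
        exact this
      unfold muX
      rw [h3]
      conv_lhs => rw [← hmX j]
      rw [Finset.mul_sum, Finset.sum_mul, ← Finset.sum_sub_distrib, Finset.mul_sum]
      apply Finset.sum_congr rfl
      intro J _
      rw [hmh, smul_eq_C_mul, smul_eq_C_mul]
      ring
    rw [h1, h2]
    exact red_sum hadd _ _ _ fun J _ => hsm _ _ _ (hR1 i J)
  -- independence
  have hσi : LinearIndependent Kf σ := by
    rw [Fintype.linearIndependent_iff]
    intro y hy
    by_contra hne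
    push Not at hne
    obtain ⟨i1, hi1⟩ := hne
    have : Nonempty (Fin k) := ⟨i1⟩
    obtain ⟨i0, hi0⟩ := Finite.exists_max (fun i => O.valuation (y i))
    have hy0 : y i0 ≠ 0 := by
      intro h0
      have h1 := hi0 i1
      simp only [h0, map_zero] at h1
      exact hi1 ((map_eq_zero O.valuation).1 (le_zero_iff.1 h1))
    have hO' : ∀ i, y i / y i0 ∈ O := by
      intro i
      rw [← O.valuation_le_one_iff, map_div₀]
      apply div_le_one_of_le₀ (hi0 i) zero_le
    let z : Fin k → O := fun i => ⟨y i / y i0, hO' i⟩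
    have hz0 : z i0 = 1 := by
      apply Subtype.ext
      simp only [z]
      exact div_self hy0
    have hzs : ∑ i, (z i : Kf) • σ i = 0 := by
      have h1 : ∑ i, (z i : Kf) • σ i = (y i0)⁻¹ • ∑ i, y i • σ i := by
        rw [Finset.smul_sum]
        apply Finset.sum_congr rfl
        intro i _
        rw [smul_smul]
        simp only [z]
        rw [div_eq_inv_mul]
      rw [h1, hy, smul_zero]
    let p : κ[X] := ∑ i : Fin k, C (red (z i)) * X ^ (i : ℕ)
    have hp0 : p ≠ 0 := by
      intro h0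
      have h1 : p.coeff i0 = 1 := by
        simp only [p, finsetSum_coeff, coeff_C_mul, coeff_X_pow]
        rw [Finset.sum_eq_single i0]
        · simp [hz0]
        · intro i _ hi
          rw [if_neg (fun h => hi (Fin.ext h).symm), mul_zero]
        · intro h
          exact absurd (Finset.mem_univ _) h
      rw [h0, coeff_zero] at h1
      exact zero_ne_one h1
    have key : ∀ J, p * Dh f1 f2 (w J) - w J * Dh f1 f2 p = 0 := by
      intro J
      have h1 : Red O red β βF (∑ i, (z i : Kf) • (θ * det2 (σ i) (S J)))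
          (∑ i : Fin k, C (red (z i)) *
            (Γ * (X ^ (i : ℕ) * Dh f1 f2 (w J) - w J * Dh f1 f2 (X ^ (i : ℕ))))) :=
        red_sum hadd _ _ _ fun i _ => hsm _ _ _ (hR1 i J)
      have h2 : ∑ i, (z i : Kf) • (θ * det2 (σ i) (S J)) = 0 := by
        have h3 : dB Kf Lf (∑ i, (z i : Kf) • σ i) (S J) = 0 := by
          rw [hzs, map_zero, LinearMap.zero_apply]
        simp only [map_sum, map_smul, LinearMap.sum_apply, LinearMap.smul_apply, dB_apply] at h3
        have h4 : θ * ∑ i, (z i : Kf) • det2 (σ i) (S J) = 0 := by rw [h3, mul_zero]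
        rw [Finset.mul_sum] at h4
        simpa only [mul_smul_comm] using h4
      rw [h2] at h1
      have h5 := hu _ _ _ h1 (red_zero O red β βF)
      have h6 : ∑ i : Fin k, C (red (z i)) *
            (Γ * (X ^ (i : ℕ) * Dh f1 f2 (w J) - w J * Dh f1 f2 (X ^ (i : ℕ)))) =
          Γ * (p * Dh f1 f2 (w J) - w J * Dh f1 f2 p) := by
        have h7 : Dh f1 f2 p = ∑ i : Fin k, C (red (z i)) * Dh f1 f2 (X ^ (i : ℕ)) := by
          have : DhLin f1 f2 p = ∑ i : Fin k, C (red (z i)) * DhLin f1 f2 (X ^ (i : ℕ)) := by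
            simp only [p, map_sum]
            apply Finset.sum_congr rfl
            intro i _
            rw [← smul_eq_C_mul, map_smul, smul_eq_C_mul]
          exact this
        rw [h7]
        simp only [p]
        rw [Finset.sum_mul, Finset.mul_sum, ← Finset.sum_sub_distrib, Finset.mul_sum]
        apply Finset.sum_congr rfl
        intro i _
        ring
      rw [h6] at h5
      exact (mul_eq_zero.1 h5).resolve_left hΓ0
    have hDp : Dh f1 f2 p = 0 := by
      have h1 := key (Sum.inl 0)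
      simp only [w, Sum.elim_inl] at h1
      rw [hDa, mul_zero, zero_sub, neg_eq_zero] at h1
      exact (mul_eq_zero.1 h1).resolve_left (hA.inda.ne_zero 0)
    have h1 := key (Sum.inr j0)
    simp only [w, Sum.elim_inr] at h1
    rw [hDp, mul_zero, sub_zero, hDb] at h1
    exact mul_ne_zero hp0 (mul_ne_zero (C_ne_zero.2 hb0) hbj0) h1
  -- membership in V
  have heV : ∀ i, e i ∈ Submodule.span Kf (Set.range s) := by
    intro i
    rw [← hA.spanV]
    exact Submodule.subset_span (Or.inl ⟨i, rfl⟩)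
  have htV : ∀ j, t j ∈ Submodule.span Kf (Set.range s) := by
    intro j
    rw [← hA.spanV]
    exact Submodule.subset_span (Or.inr ⟨j, rfl⟩)
  have hSV : ∀ J, S J ∈ Submodule.span Kf (Set.range s) := by
    rintro (i | j)
    · exact heV i
    · simp only [S, Sum.elim_inr]
      refine Submodule.add_mem _ (Submodule.smul_mem _ _ (htV j)) ?_
      exact Submodule.sum_mem _ fun i _ => Submodule.smul_mem _ _ (heV i)
  have hσV : ∀ i, σ i ∈ Submodule.span Kf (Set.range s) := fun i =>
    Submodule.sum_mem _ fun J _ => Submodule.smul_mem _ _ (hSV J)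
  have hspan : Submodule.span Kf (Set.range σ) = Submodule.span Kf (Set.range s) := by
    have hfd : FiniteDimensional Kf (Submodule.span Kf (Set.range s)) :=
      FiniteDimensional.span_of_finite Kf (Set.finite_range s)
    apply Submodule.eq_of_le_of_finrank_eq
    · rw [Submodule.span_le]
      rintro _ ⟨i, rfl⟩
      exact hσV i
    · rw [finrank_span_eq_card hσi, finrank_span_eq_card hdat.ind]
  -- pole orders
  have hmem : ∀ u ∈ Submodule.span Kf (Set.range s), ∀ u' ∈ Submodule.span Kf (Set.range s),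
      f * det2 u u' ∈ Rn Kf (2 * k - 3) β (3 * (2 * k - 3)) := by
    intro u hu' u' hu''
    obtain ⟨y, rfl⟩ := (Submodule.mem_span_range_iff_exists_fun Kf).1 hu'
    obtain ⟨y', rfl⟩ := (Submodule.mem_span_range_iff_exists_fun Kf).1 hu''
    have h1 : f * det2 (∑ i, y i • s i) (∑ i, y' i • s i) =
        ∑ i, ∑ j, (y' i * y j) • (f * det2 (s j) (s i)) := by
      rw [← dB_apply (Kf := Kf)]
      simp only [map_sum, map_smul, LinearMap.sum_apply, LinearMap.smul_apply, dB_apply,
        Finset.mul_sum, Finset.smul_sum, mul_smul_comm, smul_smul]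
    rw [h1]
    exact Submodule.sum_mem _ fun i _ => Submodule.sum_mem _ fun j _ =>
      Submodule.smul_mem _ _ (hdat.mem j i)
  refine ⟨a', A, f1, f2, Γ, σ, θ, hF, hd1, hd2, hwr, hΓ0, hθ0, hspan, fun i j => ⟨?_, hR2 i j⟩⟩
  have h1 : θ * det2 (σ i) (σ j) = c⁻¹ • (π * (f * det2 (σ i) (σ j))) := by
    rw [Algebra.smul_def, map_inv₀]
    simp only [θ]
    ring
  rw [h1]
  apply Submodule.smul_mem
  have h2 : 6 * (2 * k - 3) = 3 * (2 * k - 3) + 3 * (2 * k - 3) := by ring
  rw [h2]
  exact hRR _ _ (Submodule.mul_mem_mul (hmem _ (heV 0) _ (htV j0)) (hmem _ (hσV i) _ (hσV j)))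

end Pool.Agent.RTB
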