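import Mathlib

/-!
# MP_7b271a_ag, squad RTB: curves, bundles of rank 2, marked curves

A smooth projective complex curve is given by its function field `K`; its points are the valuation
rings of `K` which contain `ℂ` and are different from `K`; a vector bundle is given by its fibres
(lattices over the local rings), a locally free module of rank 1 or 2 at every point, equal to the
standard lattice at all but finitely many points.
-/

set_option autoImplicit false

namespace Pool.Agent.RTB

/-- `K` is the function field of a curve over `ℂ`: a finite extension of `ℂ(x)` -/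
def IsFunctionField (K : Type) [Field K] [Algebra ℂ K] : Prop :=
  ∃ x : K, Transcendental ℂ x ∧ FiniteDimensional (IntermediateField.adjoin ℂ {x}) K

/-- a point of the smooth projective curve with function field `K`: a valuation ring of `K`
containing `ℂ` and different from `K` -/
structure Pt (K : Type) [Field K] [Algebra ℂ K] where
  ring : ValuationSubring K
  const : ∀ z : ℂ, algebraMap ℂ K z ∈ ring
  ne_top : ring ≠ ⊤

section
variable {K : Type} [Field K] [Algebra ℂ K]

/-- the local ring at `p` as a complex vector space -/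
def Pt.O (p : Pt K) : Submodule ℂ K where
  carrier := {x | x ∈ p.ring}
  zero_mem' := p.ring.zero_mem
  add_mem' := fun ha hb => p.ring.add_mem _ _ ha hb
  smul_mem' := fun z x hx => by
    show z • x ∈ p.ring
    rw [Algebra.smul_def]; exact p.ring.mul_mem _ _ (p.const z) hx

/-- the relative index of two complex subspaces, `dim P/(P ∩ Q) - dim Q/(P ∩ Q)` -/
noncomputable def idx (P Q : Submodule ℂ K) : ℤ :=
  (Module.finrank ℂ (P ⧸ (Q.comap P.subtype)) : ℤ)
    - (Module.finrank ℂ (Q ⧸ (P.comap Q.subtype)) : ℤ)

/-- `M` is (the family of fibres of) a line bundle: free of rank 1 at every point, and equal to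
the local ring at all but finitely many points -/
def IsLineBundle (M : Pt K → Submodule ℂ K) : Prop :=
  (∀ p, ∃ f : K, f ≠ 0 ∧ ∀ x, x ∈ M p ↔ ∃ a ∈ p.ring, x = a * f) ∧ {p | M p ≠ p.O}.Finite

/-- the degree of a line bundle -/
noncomputable def deg (M : Pt K → Submodule ℂ K) : ℤ := ∑ᶠ p, idx (M p) p.O

/-- the dimension of the space of global sections of a line bundle -/
noncomputable def h0 (M : Pt K → Submodule ℂ K) : ℕ :=
  Module.finrank ℂ (⨅ p, M p : Submodule ℂ K)

/-- the line bundle `O(n p)`: at `p` the functions `x` with `x * a^n` in the local ring for every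
`a` in the maximal ideal -/
def polar (p : Pt K) (n : ℕ) (q : Pt K) : Submodule ℂ K where
  carrier := {x | (q ≠ p → x ∈ q.ring) ∧
    (q = p → ∀ a ∈ p.ring, a ∈ p.ring.nonunits → x * a ^ n ∈ p.ring)}
  zero_mem' := ⟨fun _ => q.ring.zero_mem, fun _ a _ _ => by rw [zero_mul]; exact p.ring.zero_mem⟩
  add_mem' := fun {x y} hx hy => ⟨fun h => q.ring.add_mem _ _ (hx.1 h) (hy.1 h),
    fun h a ha hn => by rw [add_mul]; exact p.ring.add_mem _ _ (hx.2 h a ha hn) (hy.2 h a ha hn)⟩
  smul_mem' := fun z x hx => ⟨fun h => by
      rw [Algebra.smul_def]; exact q.ring.mul_mem _ _ (q.const z) (hx.1 h),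
    fun h a ha hn => by
      rw [Algebra.smul_def, mul_assoc]; exact p.ring.mul_mem _ _ (p.const z) (hx.2 h a ha hn)⟩

/-- the genus of the curve, `max (deg M + 1 - h0 M)` over all line bundles `M` (Riemann) -/
def IsGenus (K : Type) [Field K] [Algebra ℂ K] (g : ℕ) : Prop :=
  IsGreatest {n : ℤ | ∃ M : Pt K → Submodule ℂ K, IsLineBundle M ∧ n = deg M + 1 - h0 M} (g : ℤ)

/-- the determinant of two vectors -/
def det2 (v w : Fin 2 → K) : K := v 0 * w 1 - v 1 * w 0

/-- a vector bundle of rank 2 -/
structure VB2 (K : Type) [Field K] [Algebra ℂ K] where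
  fib : Pt K → Submodule ℂ (Fin 2 → K)
  loc : ∀ p, ∃ e e' : Fin 2 → K, det2 e e' ≠ 0 ∧
    ∀ v, v ∈ fib p ↔ ∃ a ∈ p.ring, ∃ b ∈ p.ring, v = a • e + b • e'
  triv : {p | ¬ ∀ v : Fin 2 → K, v ∈ fib p ↔ (v 0 ∈ p.ring ∧ v 1 ∈ p.ring)}.Finite

/-- the determinant line bundle -/
def VB2.det (E : VB2 K) (p : Pt K) : Submodule ℂ K :=
  Submodule.span ℂ {x | ∃ v ∈ E.fib p, ∃ w ∈ E.fib p, x = det2 v w}

/-- the line subbundle of `E` generated by the rational section `s ≠ 0` (every line subbundle with
torsion free quotient is of this form), with the trivialisation given by `s` -/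
def VB2.sub (E : VB2 K) (s : Fin 2 → K) (p : Pt K) : Submodule ℂ K where
  carrier := {f | f • s ∈ E.fib p}
  zero_mem' := by
    show (0 : K) • s ∈ E.fib p
    rw [zero_smul]; exact (E.fib p).zero_mem
  add_mem' := fun {a b} ha hb => by
    show (a + b) • s ∈ E.fib p
    rw [add_smul]; exact (E.fib p).add_mem ha hb
  smul_mem' := fun z x hx => by
    show (z • x) • s ∈ E.fib p
    rw [smul_assoc]; exact (E.fib p).smul_mem z hx

/-- the number of independent global sections -/
noncomputable def VB2.h0 (E : VB2 K) : ℕ :=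
  Module.finrank ℂ (⨅ p, E.fib p : Submodule ℂ (Fin 2 → K))

/-- semistability: every line subbundle has degree at most `deg E / 2` -/
def VB2.Semistable (E : VB2 K) : Prop :=
  ∀ s : Fin 2 → K, s ≠ 0 → 2 * deg (E.sub s) ≤ deg E.det

end

/-- index set of the structure constants -/
abbrev Idx (g : ℕ) : Type := Fin (g + 1) × Fin (g + 1) × Fin 4 × Fin (g + 1)

/-- A curve of genus `g` over `ℂ` with a point `pt` which is not a Weierstrass point and with
functions `y 0, ..., y g` where `y i` is regular outside `pt` and has a pole of exact order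
`g + 1 + i` at `pt`; `c` is the multiplication table of the `y i` with respect to the basis
`1, y 1, ..., y g` over `ℂ[y 0]` of the ring of functions regular outside `pt`. Every curve of
genus `g ≥ 1` has such data, and the table determines the curve and the point. -/
structure MarkedCurve (g : ℕ) where
  K : Type
  [fld : Field K]
  [alg : Algebra ℂ K]
  isFF : IsFunctionField K
  genus : IsGenus K g
  pt : Pt K
  nonW : h0 (polar pt g) = 1
  y : Fin (g + 1) → K
  pole : ∀ i : Fin (g + 1), y i ∈ (⨅ q, polar pt (g + 1 + (i : ℕ)) q : Submodule ℂ K) ∧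
    y i ∉ (⨅ q, polar pt (g + (i : ℕ)) q : Submodule ℂ K)
  c : Idx g → ℂ
  table : ∀ i j, y i * y j = ∑ l : Fin 4, ∑ m : Fin (g + 1),
    c (i, j, l, m) • (y 0 ^ (l : ℕ) * (if m = 0 then 1 else y m))

attribute [instance] MarkedCurve.fld MarkedCurve.alg

/-- The result: for odd `g ≥ 15`, on a general curve of genus `g` every semistable bundle of
rank 2 and degree `2g-2` whose determinant is not the canonical bundle has
`h0 ≤ (g+1)/2 < (g+3)/2`. The determinant has degree `2g-2`, so it is the canonical bundle if and
only if it has at least `g` independent sections. -/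
def MainStatement : Prop :=
  ∀ g : ℕ, Odd g → 15 ≤ g →
    ∃ Ψ : MvPolynomial (Idx g) ℚ,
      (∃ X : MarkedCurve g, MvPolynomial.aeval X.c Ψ ≠ 0) ∧
      ∀ X : MarkedCurve g, MvPolynomial.aeval X.c Ψ ≠ 0 →
        ∀ E : VB2 X.K, E.Semistable → deg E.det = 2 * (g : ℤ) - 2 → h0 E.det < g →
          2 * E.h0 ≤ g + 1

end Pool.Agent.RTB
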