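import Pool.Agent.RTB.GStmts

set_option autoImplicit false

open Polynomial

namespace Pool.Agent.RTB

namespace GDG_

variable {K : Type} [Field K] [Algebra ℂ K] (V : Crv.Val K)

theorem ord_pow (p : Pt K) {x : K} (hx : x ≠ 0) (i : ℕ) : V.ord p (x ^ i) = i * V.ord p x := by
  induction i with
  | zero => rw [pow_zero, V.ord_one]; simp
  | succ i ih =>
    rw [pow_succ, V.mul p _ _ (pow_ne_zero i hx) hx, ih]
    push_cast
    ring

theorem mul_mem {p : Pt K} {m n : ℤ} {x y : K} (hx : x ∈ V.Lp p m) (hy : y ∈ V.Lp p n) :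
    x * y ∈ V.Lp p (m + n) := by
  rw [V.mem_Lp] at hx hy ⊢
  by_cases hx0 : x = 0
  · left; rw [hx0, zero_mul]
  by_cases hy0 : y = 0
  · left; rw [hy0, mul_zero]
  right
  rcases hx with hx | hx
  · exact absurd hx hx0
  rcases hy with hy | hy
  · exact absurd hy hy0
  rw [V.mul p x y hx0 hy0]
  linarith

theorem mono {p : Pt K} {m n : ℤ} (h : m ≤ n) {x : K} (hx : x ∈ V.Lp p m) : x ∈ V.Lp p n := by
  rw [V.mem_Lp] at hx ⊢
  rcases hx with hx | hx
  · exact Or.inl hx
  · exact Or.inr (by linarith)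

theorem aeval_mem {p : Pt K} {x : K} (hx : x ≠ 0) (h : 0 < V.ord p x) (Q : ℂ[X]) :
    aeval x Q ∈ V.Lp p 0 := by
  rw [aeval_eq_sum_range]
  refine Submodule.sum_mem _ fun i _ => Submodule.smul_mem _ _ ?_
  rw [V.mem_Lp]
  right
  rw [ord_pow V p hx]
  have : (0 : ℤ) ≤ i := Int.natCast_nonneg i
  nlinarith

theorem aeval_divX (x : K) (Q : ℂ[X]) :
    aeval x Q = aeval x Q.divX * x + algebraMap ℂ K (Q.coeff 0) := by
  conv_lhs => rw [← Q.divX_mul_X_add]
  rw [map_add, map_mul, aeval_X, aeval_C]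

theorem aeval_mem' {p : Pt K} {x : K} (hx : x ≠ 0) (h : 0 < V.ord p x) (Q : ℂ[X])
    (hQ : Q.coeff 0 = 0) : aeval x Q ∈ V.Lp p (-V.ord p x) := by
  rw [aeval_divX, hQ, map_zero, add_zero]
  have h1 := mul_mem V (aeval_mem V hx h Q.divX) (y := x) (n := -V.ord p x)
    (by rw [V.mem_Lp]; right; linarith)
  rwa [zero_add] at h1

theorem aeval_ord {p : Pt K} {x : K} (hx : x ≠ 0) (h : 0 < V.ord p x) (Q : ℂ[X])
    (hQ : Q.coeff 0 ≠ 0) : aeval x Q ≠ 0 ∧ V.ord p (aeval x Q) = 0 := by
  have h1 : aeval x Q.divX * x ∈ V.Lp p (-1) := by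
    have h1 := mul_mem V (aeval_mem V hx h Q.divX) (y := x) (n := -V.ord p x)
      (by rw [V.mem_Lp]; right; linarith)
    exact mono V (by omega) h1
  have hc0 : algebraMap ℂ K (Q.coeff 0) ≠ 0 := by
    rw [Ne, FaithfulSMul.algebraMap_eq_zero_iff]; exact hQ
  have h2 : algebraMap ℂ K (Q.coeff 0) ∉ V.Lp p (-1) := by
    rw [V.mem_Lp, V.ord_const p hQ]
    rintro (h3 | h3)
    · exact hc0 h3
    · norm_num at h3
  have h3 : aeval x Q ∉ V.Lp p (-1) := by
    intro h4
    apply h2
    have h5 := Submodule.sub_mem _ h4 h1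
    rwa [aeval_divX x Q, add_sub_cancel_left] at h5
  have h4 := aeval_mem V hx h Q
  rw [V.mem_Lp] at h3 h4
  push Not at h3
  refine ⟨h3.1, ?_⟩
  rcases h4 with h4 | h4
  · exact absurd h4 h3.1
  · have := h3.2
    omega

/-- functions with prescribed orders -/
theorem exists_z (hGWA : Stmt_GWA) (S : Finset (Pt K)) (e : Pt K → ℕ) (p : Pt K) (hp : p ∈ S)
    (j : ℕ) (hj : j < e p) : ∃ z : K, z ≠ 0 ∧ V.ord p z = j ∧
      ∀ q ∈ S, q ≠ p → z ∈ V.Lp q (-(e q : ℤ)) := by
  classical
  obtain ⟨t, ht0, ht⟩ := V.unif p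
  obtain ⟨z, hz⟩ := hGWA K V S (fun q => if q = p then t ^ j else 0) (∑ q ∈ S, e q : ℕ)
  have hle : ∀ q ∈ S, (e q : ℤ) ≤ ((∑ q ∈ S, e q : ℕ) : ℤ) := by
    intro q hq
    exact_mod_cast Finset.single_le_sum (f := e) (fun _ _ => Nat.zero_le _) hq
  have htj : V.ord p (t ^ j) = j := by rw [ord_pow V p ht0, ht, mul_one]
  have h1 := hz p hp
  rw [if_pos rfl] at h1
  have h2 : z - t ^ j ∈ V.Lp p (-(e p : ℤ)) := by
    rw [V.mem_Lp]
    rcases h1 with h1 | h1
    · left; rw [h1, sub_self]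
    · right
      have := hle p hp
      linarith
  have h3 : t ^ j ∈ V.Lp p (-(j : ℤ)) := by
    rw [V.mem_Lp]; right; rw [htj]; linarith
  have h4 : t ^ j ∉ V.Lp p (-(j : ℤ) - 1) := by
    rw [V.mem_Lp, htj]
    rintro (h5 | h5)
    · exact pow_ne_zero j ht0 h5
    · linarith
  have h5 : z ∈ V.Lp p (-(j : ℤ)) := by
    have h6 := Submodule.add_mem _ (mono V (by omega : -(e p : ℤ) ≤ -(j : ℤ)) h2) h3
    rwa [sub_add_cancel] at h6
  have h6 : z ∉ V.Lp p (-(j : ℤ) - 1) := by
    intro h7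
    apply h4
    have h8 := Submodule.sub_mem _ h7 (mono V (by omega : -(e p : ℤ) ≤ -(j : ℤ) - 1) h2)
    rwa [sub_sub_cancel] at h8
  rw [V.mem_Lp] at h5 h6
  push Not at h6
  refine ⟨z, h6.1, ?_, ?_⟩
  · rcases h5 with h5 | h5
    · exact absurd h5 h6.1
    · have := h6.2
      omega
  · intro q hq hqp
    have h7 := hz q hq
    rw [if_neg hqp, sub_zero] at h7
    rw [V.mem_Lp]
    rcases h7 with h7 | h7
    · exact Or.inl h7
    · right
      have := hle q hq
      linarith

end GDG_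

open GDG_

theorem gdg_proof (hGWA : Stmt_GWA) : Stmt_GDG := by
  classical
  intro K _ _ V S x hx hS
  -- the functions
  have hz : ∀ i : (p : S) × Fin (V.ord (p : Pt K) x).toNat, ∃ z : K, z ≠ 0 ∧
      V.ord (i.1 : Pt K) z = (i.2 : ℕ) ∧
      ∀ q ∈ S, q ≠ (i.1 : Pt K) → z ∈ V.Lp q (-(((V.ord q x).toNat : ℕ) : ℤ)) := fun i =>
    exists_z V hGWA S (fun q => (V.ord q x).toNat) i.1 i.1.2 i.2 i.2.2
  choose z hz0 hz1 hz2 using hz
  -- the key step
  have key : ∀ Q : ((p : S) × Fin (V.ord (p : Pt K) x).toNat) → ℂ[X],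
      ∑ i, aeval x (Q i) * z i = 0 → ∀ i, (Q i).coeff 0 = 0 := by
    intro Q hQ
    have key2 : ∀ (n : ℕ) (i : (p : S) × Fin (V.ord (p : Pt K) x).toNat), (i.2 : ℕ) = n →
        (Q i).coeff 0 = 0 := by
      intro n
      induction n using Nat.strong_induction_on with
      | _ n ih =>
        intro i hi
        by_contra hne
        have hp := hS i.1 i.1.2
        have he : ((V.ord (i.1 : Pt K) x).toNat : ℤ) = V.ord (i.1 : Pt K) x :=
          Int.toNat_of_nonneg hp.le
        have hlt : ((i.2 : ℕ) : ℤ) < V.ord (i.1 : Pt K) x := by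
          have h0 : ((i.2 : ℕ) : ℤ) < ((V.ord (i.1 : Pt K) x).toNat : ℤ) := by
            exact_mod_cast i.2.2
          omega
        obtain ⟨h1, h2⟩ := aeval_ord V hx hp (Q i) hne
        have h3 : aeval x (Q i) * z i ∉ V.Lp (i.1 : Pt K) (-((i.2 : ℕ) : ℤ) - 1) := by
          rw [V.mem_Lp, V.mul _ _ _ h1 (hz0 i), h2, hz1 i]
          rintro (h4 | h4)
          · exact mul_ne_zero h1 (hz0 i) h4
          · linarith
        apply h3
        have h4 : aeval x (Q i) * z i = -∑ j ∈ Finset.univ.erase i, aeval x (Q j) * z j := by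
          rw [← Finset.add_sum_erase _ _ (Finset.mem_univ i)] at hQ
          linear_combination hQ
        rw [h4]
        refine Submodule.neg_mem _ (Submodule.sum_mem _ fun j hj => ?_)
        have hji : j ≠ i := (Finset.mem_erase.mp hj).1
        have h0 := aeval_mem V hx hp (Q j)
        by_cases h5 : (j.1 : Pt K) = i.1
        · have h6 : V.ord (i.1 : Pt K) (z j) = (j.2 : ℕ) := by rw [← h5]; exact hz1 j
          have h7 : z j ∈ V.Lp (i.1 : Pt K) (-((j.2 : ℕ) : ℤ)) := by
            rw [V.mem_Lp]; right; rw [h6]; linarith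
          have h8 : (j.2 : ℕ) ≠ (i.2 : ℕ) := by
            intro h8
            apply hji
            obtain ⟨⟨j1, j1'⟩, j2⟩ := j
            obtain ⟨⟨i1, i1'⟩, i2⟩ := i
            simp only at h5 h8
            subst h5
            congr 1
            exact Fin.ext h8
          rcases Nat.lt_or_gt_of_ne h8 with h9 | h9
          · have h10 := ih (j.2 : ℕ) (hi ▸ h9) j rfl
            have h11 := mul_mem V (aeval_mem' V hx hp (Q j) h10) h7
            exact mono V (by omega) h11
          · have h11 := mul_mem V h0 h7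
            exact mono V (by omega) h11
        · have h7 := hz2 j i.1 i.1.2 (fun h => h5 h.symm)
          have h11 := mul_mem V h0 h7
          exact mono V (by omega) h11
    exact fun i => key2 _ i rfl
  -- divisibility by all powers of `X`
  have all : ∀ (N : ℕ) (Q : ((p : S) × Fin (V.ord (p : Pt K) x).toNat) → ℂ[X]),
      ∑ i, aeval x (Q i) * z i = 0 → ∀ i, (Q i).coeff N = 0 := by
    intro N
    induction N with
    | zero => exact key
    | succ N ih =>
      intro Q hQ i
      have h1 := key Q hQ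
      have h2 : ∑ i, aeval x (Q i).divX * z i = 0 := by
        have h3 : x * ∑ i, aeval x (Q i).divX * z i = 0 := by
          rw [← hQ, Finset.mul_sum]
          refine Finset.sum_congr rfl fun i _ => ?_
          rw [aeval_divX x (Q i), h1 i, map_zero, add_zero]
          ring
        exact (mul_eq_zero.mp h3).resolve_left hx
      have h4 := ih (fun i => (Q i).divX) h2 i
      simpa [coeff_divX] using h4
  have hcard : Fintype.card ((p : S) × Fin (V.ord (p : Pt K) x).toNat) =
      ∑ p ∈ S, (V.ord p x).toNat := by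
    rw [Fintype.card_sigma, ← Finset.sum_coe_sort S (fun p => (V.ord p x).toNat)]
    exact Finset.sum_congr rfl fun p _ => Fintype.card_fin _
  let E := Fintype.equivFinOfCardEq hcard
  refine ⟨fun i => z (E.symm i), fun P hP i => ?_⟩
  have h1 : ∑ i, aeval x (P (E i)) * z i = 0 := by
    rw [← hP]
    refine Fintype.sum_equiv E _ _ fun i => ?_
    show aeval x (P (E i)) * z i = aeval x (P (E i)) * z (E.symm (E i))
    rw [Equiv.symm_apply_apply]
  ext N
  have h2 := all N (fun i => P (E i)) h1 (E.symm i)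
  simpa using h2

end Pool.Agent.RTB
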