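import Pool.Agent.RTB.KDefs

/-!
# MP_7b271a_ag, squad RTB, part T4 (smoothing): definitions

`LS B` are the Laurent series in `τ` over `B`. The smooth curve is a cyclic cover of degree `g`
of the elliptic curve `Y^2 = X^3 + b`, embedded in `LS ℂ` by `X = τ^(-2g)`.
-/

set_option autoImplicit false

open Polynomial

namespace Pool.Agent.RTB

/-- Laurent series in `τ` -/
abbrev LS (B : Type) [CommRing B] : Type := HahnSeries ℤ B

section
variable {B C D : Type} [CommRing B] [CommRing C] [CommRing D]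

/-- coefficientwise map -/
noncomputable def mapR (f : B →+* C) : LS B →+* LS C where
  toFun x := x.map f
  map_one' := by
    ext n
    simp only [HahnSeries.map_coeff, HahnSeries.coeff_one]
    split_ifs <;> simp
  map_zero' := by ext n; simp
  map_add' x y := by ext n; simp
  map_mul' x y := HahnSeries.map_mul (f : B →ₙ+* C)

@[simp] theorem mapR_coeff (f : B →+* C) (x : LS B) (n : ℤ) :
    (mapR f x).coeff n = f (x.coeff n) := rfl

theorem mapR_injective {f : B →+* C} (hf : Function.Injective f) :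
    Function.Injective (mapR f) := by
  intro x y h
  ext n
  apply hf
  rw [← mapR_coeff, ← mapR_coeff, h]

@[simp] theorem mapR_single (f : B →+* C) (n : ℤ) (c : B) :
    mapR f (HahnSeries.single n c) = HahnSeries.single n (f c) := by
  ext k
  rw [mapR_coeff]
  by_cases h : k = n
  · subst h; simp
  · simp [h]

@[simp] theorem mapR_C (f : B →+* C) (c : B) : mapR f (HahnSeries.C c) = HahnSeries.C (f c) :=
  mapR_single f 0 c

/-- `x = c τ^m + higher terms` -/
def Ld (x : LS B) (m : ℤ) (c : B) : Prop := (∀ k < m, x.coeff k = 0) ∧ x.coeff m = c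

theorem Ld_single (m : ℤ) (c : B) : Ld (HahnSeries.single m c : LS B) m c :=
  ⟨fun _ hk => HahnSeries.coeff_single_of_ne hk.ne, HahnSeries.coeff_single_same m c⟩

theorem Ld_C (c : B) : Ld (HahnSeries.C c : LS B) 0 c := Ld_single 0 c

theorem Ld_one : Ld (1 : LS B) 0 1 := Ld_C 1

theorem Ld.add {x y : LS B} {m : ℤ} {c d : B} (hx : Ld x m c) (hy : Ld y m d) :
    Ld (x + y) m (c + d) :=
  ⟨fun k hk => by rw [HahnSeries.coeff_add, hx.1 k hk, hy.1 k hk, add_zero],
    by rw [HahnSeries.coeff_add, hx.2, hy.2]⟩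

theorem Ld.neg {x : LS B} {m : ℤ} {c : B} (hx : Ld x m c) : Ld (-x) m (-c) :=
  ⟨fun k hk => by rw [HahnSeries.coeff_neg, hx.1 k hk, neg_zero],
    by rw [HahnSeries.coeff_neg, hx.2]⟩

theorem Ld.weaken {x : LS B} {m n : ℤ} {c : B} (hx : Ld x m c) (h : n < m) : Ld x n 0 :=
  ⟨fun k hk => hx.1 k (lt_trans hk h), hx.1 n h⟩

theorem Ld.mul {x y : LS B} {m n : ℤ} {c d : B} (hx : Ld x m c) (hy : Ld y n d) :
    Ld (x * y) (m + n) (c * d) := by
  have key : ∀ k : ℤ, ∀ ij ∈ Finset.antidiagonal x.isPWO_support y.isPWO_support k,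
      m ≤ ij.1 ∧ n ≤ ij.2 ∧ ij.1 + ij.2 = k := by
    intro k ij hij
    rw [Finset.mem_antidiagonal] at hij
    obtain ⟨h1, h2, h3⟩ := hij
    refine ⟨?_, ?_, h3⟩
    · by_contra h
      exact h1 (hx.1 _ (not_le.1 h))
    · by_contra h
      exact h2 (hy.1 _ (not_le.1 h))
  constructor
  · intro k hk
    rw [HahnSeries.coeff_mul]
    refine Finset.sum_eq_zero fun ij hij => ?_
    have := key k ij hij
    omega
  · rw [HahnSeries.coeff_mul]
    by_cases hc : c = 0
    · subst hc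
      rw [zero_mul]
      refine Finset.sum_eq_zero fun ij hij => ?_
      have := key _ ij hij
      have h1 : ij.1 = m := by omega
      rw [h1, hx.2, zero_mul]
    by_cases hd : d = 0
    · subst hd
      rw [mul_zero]
      refine Finset.sum_eq_zero fun ij hij => ?_
      have := key _ ij hij
      have h1 : ij.2 = n := by omega
      rw [h1, hy.2, mul_zero]
    rw [Finset.sum_eq_single (m, n)]
    · rw [hx.2, hy.2]
    · intro ij hij hne
      exfalso
      apply hne
      have := key _ ij hij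
      exact Prod.ext (by omega) (by omega)
    · intro h
      exfalso
      apply h
      rw [Finset.mem_antidiagonal]
      refine ⟨?_, ?_, rfl⟩
      · show x.coeff m ≠ 0
        rw [hx.2]; exact hc
      · show y.coeff n ≠ 0
        rw [hy.2]; exact hd

theorem Ld.pow {x : LS B} {m : ℤ} {c : B} (hx : Ld x m c) (n : ℕ) :
    Ld (x ^ n) (n * m) (c ^ n) := by
  induction n with
  | zero => simpa using Ld_one (B := B)
  | succ n ih =>
    rw [pow_succ, pow_succ]
    have := ih.mul hx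
    have h : ((n + 1 : ℕ) : ℤ) * m = n * m + m := by push_cast; ring
    rw [h]
    exact this

theorem Ld.map {x : LS B} {m : ℤ} {c : B} (hx : Ld x m c) (f : B →+* C) :
    Ld (mapR f x) m (f c) :=
  ⟨fun k hk => by rw [mapR_coeff, hx.1 k hk, map_zero], by rw [mapR_coeff, hx.2]⟩

theorem Ld.ne_zero {x : LS B} {m : ℤ} {c : B} (hx : Ld x m c) (hc : c ≠ 0) : x ≠ 0 := by
  intro h
  apply hc
  rw [← hx.2, h, HahnSeries.coeff_zero]

theorem Ld.order {x : LS B} {m : ℤ} {c : B} (hx : Ld x m c) (hc : c ≠ 0) : x.order = m := by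
  apply le_antisymm
  · apply HahnSeries.order_le_of_coeff_ne_zero
    rw [hx.2]; exact hc
  · by_contra h
    exact HahnSeries.coeff_order_eq_zero.not.2 (hx.ne_zero hc) (hx.1 _ (not_le.1 h))

theorem Ld_order (x : LS B) : Ld x x.order (x.coeff x.order) :=
  ⟨fun _ hk => HahnSeries.coeff_eq_zero_of_lt_order hk, rfl⟩

theorem Ld.unique {x : LS B} {m n : ℤ} {c d : B} (hx : Ld x m c) (hy : Ld x n d) (hc : c ≠ 0)
    (hd : d ≠ 0) : m = n ∧ c = d := by
  have h : m = n := by rw [← hx.order hc, ← hy.order hd]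
  subst h
  exact ⟨rfl, by rw [← hx.2, hy.2]⟩

end

/-- the substitution `τ ↦ ζ τ` -/
noncomputable def theta (ζ : ℂ) (hζ : ζ ≠ 0) : LS ℂ →+* LS ℂ where
  toFun x := ⟨fun n => ζ ^ n * x.coeff n, by
    refine x.isPWO_support.mono ?_
    intro n hn h
    apply hn
    show ζ ^ n * x.coeff n = 0
    rw [h, mul_zero]⟩
  map_one' := by
    ext n
    show ζ ^ n * (1 : LS ℂ).coeff n = (1 : LS ℂ).coeff n
    rw [HahnSeries.coeff_one]
    split_ifs with h
    · rw [h]; simp
    · simp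
  map_zero' := by
    ext n
    show ζ ^ n * (0 : LS ℂ).coeff n = (0 : LS ℂ).coeff n
    simp
  map_add' x y := by
    ext n
    show ζ ^ n * (x + y).coeff n = ζ ^ n * x.coeff n + ζ ^ n * y.coeff n
    rw [HahnSeries.coeff_add, mul_add]
  map_mul' x y := by
    have hs : ∀ z : LS ℂ, (⟨fun n => ζ ^ n * z.coeff n, by
        refine z.isPWO_support.mono ?_
        intro n hn h
        apply hn
        show ζ ^ n * z.coeff n = 0
        rw [h, mul_zero]⟩ : LS ℂ).support = z.support := by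
      intro z
      ext n
      simp only [HahnSeries.mem_support]
      constructor
      · intro h h2
        exact h (by rw [h2, mul_zero])
      · intro h
        exact mul_ne_zero (zpow_ne_zero _ hζ) h
    ext n
    show ζ ^ n * (x * y).coeff n = _
    rw [HahnSeries.coeff_mul_left' x.isPWO_support (hs x).le,
      HahnSeries.coeff_mul, Finset.mul_sum]
    refine Finset.sum_congr ?_ ?_
    · ext ij
      simp only [Finset.mem_antidiagonal]
      rw [hs y]
    · intro ij hij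
      rw [Finset.mem_antidiagonal] at hij
      show ζ ^ n * (x.coeff ij.1 * y.coeff ij.2) = ζ ^ ij.1 * x.coeff ij.1 * (ζ ^ ij.2 * y.coeff ij.2)
      rw [← hij.2.2, zpow_add₀ hζ]
      ring

theorem theta_coeff (ζ : ℂ) (hζ : ζ ≠ 0) (x : LS ℂ) (n : ℤ) :
    (theta ζ hζ x).coeff n = ζ ^ n * x.coeff n := rfl

theorem theta_single (ζ : ℂ) (hζ : ζ ≠ 0) (n : ℤ) (c : ℂ) :
    theta ζ hζ (HahnSeries.single n c) = HahnSeries.single n (ζ ^ n * c) := by
  ext k
  rw [theta_coeff]
  by_cases h : k = n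
  · subst h; simp
  · simp [h]

theorem theta_C (ζ : ℂ) (hζ : ζ ≠ 0) (c : ℂ) : theta ζ hζ (HahnSeries.C c) = HahnSeries.C c := by
  show theta ζ hζ (HahnSeries.single 0 c) = HahnSeries.single 0 c
  rw [theta_single]; simp

theorem Ld.theta {x : LS ℂ} {m : ℤ} {c : ℂ} (hx : Ld x m c) (ζ : ℂ) (hζ : ζ ≠ 0) :
    Ld (theta ζ hζ x) m (ζ ^ m * c) :=
  ⟨fun k hk => by rw [theta_coeff, hx.1 k hk, mul_zero], by rw [theta_coeff, hx.2]⟩


section
variable {B C' : Type} [CommRing B] [CommRing C']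

/-- uniqueness of roots -/
theorem Ld.root_unique [IsDomain B] {n : ℕ} (hn : 0 < n) (hn' : (n : B) ≠ 0) {m : ℤ} {x y : LS B}
    {c : B} (hx : Ld x m c) (hy : Ld y m c) (hc : c ≠ 0) (h : x ^ n = y ^ n) : x = y := by
  have h1 : (∑ i ∈ Finset.range n, x ^ i * y ^ (n - 1 - i)) * (x - y) = 0 := by
    rw [(Commute.all x y).geom_sum₂_mul, h, sub_self]
  have h2 : Ld (∑ i ∈ Finset.range n, x ^ i * y ^ (n - 1 - i)) (((n - 1 : ℕ) : ℤ) * m)
      ((n : B) * c ^ (n - 1)) := by
    have h3 : ∀ i ∈ Finset.range n, Ld (x ^ i * y ^ (n - 1 - i)) (((n - 1 : ℕ) : ℤ) * m)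
        (c ^ (n - 1)) := by
      intro i hi
      have hi' : i + (n - 1 - i) = n - 1 := by
        have := Finset.mem_range.1 hi
        omega
      have h4 := (hx.pow i).mul (hy.pow (n - 1 - i))
      have h5 : (i : ℤ) * m + ((n - 1 - i : ℕ) : ℤ) * m = ((n - 1 : ℕ) : ℤ) * m := by
        rw [← add_mul]
        congr 1
        exact_mod_cast hi'
      rw [h5, ← pow_add, hi'] at h4
      exact h4
    have h6 : ∀ s : Finset ℕ, s ⊆ Finset.range n →
        Ld (∑ i ∈ s, x ^ i * y ^ (n - 1 - i)) (((n - 1 : ℕ) : ℤ) * m)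
          ((s.card : B) * c ^ (n - 1)) := by
      intro s
      induction s using Finset.induction_on with
      | empty =>
        intro _
        constructor
        · intro k _; simp
        · simp
      | insert a s ha ih =>
        intro hs
        rw [Finset.sum_insert ha, Finset.card_insert_of_notMem ha]
        have h7 := (h3 a (hs (Finset.mem_insert_self a s))).add
          (ih (fun z hz => hs (Finset.mem_insert_of_mem hz)))
        have h8 : ((s.card + 1 : ℕ) : B) * c ^ (n - 1) = c ^ (n - 1) + (s.card : B) * c ^ (n - 1) := by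
          push_cast; ring
        rw [h8]
        exact h7
    have h9 := h6 (Finset.range n) (Finset.Subset.refl _)
    rw [Finset.card_range] at h9
    exact h9
  rcases mul_eq_zero.1 h1 with h3 | h3
  · exact absurd h3 (h2.ne_zero (mul_ne_zero hn' (pow_ne_zero _ hc)))
  · exact sub_eq_zero.1 h3

/-- `X = τ^(-2g)` -/
noncomputable def X0 (g : ℕ) (B : Type) [CommRing B] : LS B := HahnSeries.single (-(2 * (g : ℤ))) 1

/-- `p ↦ p(X)` -/
noncomputable def evX (g : ℕ) {B : Type} [CommRing B] : B[X] →+* LS B :=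
  eval₂RingHom HahnSeries.C (X0 g B)

/-- `(p, q) ↦ p(X) + q(X) Y` -/
noncomputable def ev (g : ℕ) (Y : LS B) (p q : B[X]) : LS B := evX g p + evX g q * Y

/-- `p ↦ p(σ)` where `σ = -τ^(-g)` -/
noncomputable def evS (g : ℕ) {B : Type} [CommRing B] : B[X] →+* LS B :=
  eval₂RingHom HahnSeries.C (HahnSeries.single (-(g : ℤ)) (-1))

/-- the function `p(X) + q(X) Y` on the cuspidal cubic `X = σ^2`, `Y = -σ^3` -/
noncomputable def rd (p q : B[X]) : B[X] := p.comp (X ^ 2) - q.comp (X ^ 2) * X ^ 3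

/-- `2 deg p ≤ n` and `2 deg q + 3 ≤ n` -/
def Bd (p q : B[X]) (n : ℕ) : Prop := 2 * p.natDegree ≤ n ∧ (q = 0 ∨ 2 * q.natDegree + 3 ≤ n)

/-- `p + q U` is divisible by `(Z - a)^i` -/
def VU (a : B) (U : B[X]) (i : ℕ) (p q : B[X]) : Prop := (X - C a) ^ i ∣ p + q * U

theorem VU.zero (a : B) (U : B[X]) (i : ℕ) : VU a U i 0 0 := by
  show _ ∣ _
  simp

theorem VU.of_zero (a : B) (U p q : B[X]) : VU a U 0 p q := by
  show _ ∣ _
  simp

theorem VU.add {a : B} {U : B[X]} {i : ℕ} {p q p' q' : B[X]} (h : VU a U i p q)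
    (h' : VU a U i p' q') : VU a U i (p + p') (q + q') := by
  show _ ∣ _
  have : p + p' + (q + q') * U = (p + q * U) + (p' + q' * U) := by ring
  rw [this]
  exact dvd_add h h'

theorem VU.cmul {a : B} {U : B[X]} {i : ℕ} {p q : B[X]} (h : VU a U i p q) (r : B[X]) :
    VU a U i (r * p) (r * q) := by
  show _ ∣ _
  have : r * p + r * q * U = r * (p + q * U) := by ring
  rw [this]
  exact Dvd.dvd.mul_left h r

theorem VU.mono {a : B} {U : B[X]} {i j : ℕ} {p q : B[X]} (h : VU a U i p q) (hj : j ≤ i) :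
    VU a U j p q := dvd_trans (pow_dvd_pow _ hj) h

theorem evX_C (g : ℕ) (c : B) : evX g (C c : B[X]) = HahnSeries.C c := by
  simp [evX]

theorem evX_X (g : ℕ) : evX g (X : B[X]) = X0 g B := by
  simp [evX]

theorem evS_C (g : ℕ) (c : B) : evS g (C c : B[X]) = HahnSeries.C c := by
  simp [evS]

theorem evS_X (g : ℕ) : evS g (X : B[X]) = HahnSeries.single (-(g : ℤ)) (-1) := by
  simp [evS]

theorem mapR_evX (g : ℕ) (f : B →+* C') (p : B[X]) : mapR f (evX g p) = evX g (p.map f) := by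
  have : (mapR f).comp (evX g) = (evX g).comp (mapRingHom f) := by
    apply Polynomial.ringHom_ext
    · intro a
      simp [evX]
    · simp [evX, X0]
  exact congrArg (fun h : B[X] →+* LS C' => h p) this

theorem mapR_evS (g : ℕ) (f : B →+* C') (p : B[X]) : mapR f (evS g p) = evS g (p.map f) := by
  have : (mapR f).comp (evS g) = (evS g).comp (mapRingHom f) := by
    apply Polynomial.ringHom_ext
    · intro a
      simp [evS]
    · simp [evS]
  exact congrArg (fun h : B[X] →+* LS C' => h p) this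

theorem mapR_ev (g : ℕ) (f : B →+* C') (Y : LS B) (p q : B[X]) :
    mapR f (ev g Y p q) = ev g (mapR f Y) (p.map f) (q.map f) := by
  rw [ev, ev, map_add, map_mul, mapR_evX, mapR_evX]

theorem rd_map (f : B →+* C') (p q : B[X]) : (rd p q).map f = rd (p.map f) (q.map f) := by
  simp [rd, Polynomial.map_comp]

/-- on the cuspidal cubic -/
theorem evS_rd (g : ℕ) (p q : B[X]) :
    evS g (rd p q) = ev g (HahnSeries.single (-(3 * (g : ℤ))) 1) p q := by
  have h1 : ∀ p : B[X], evS g (p.comp (X ^ 2)) = evX g p := by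
    intro p
    have : (evS g).comp (compRingHom (X ^ 2 : B[X])) = evX g := by
      apply Polynomial.ringHom_ext
      · intro a
        simp [evS, evX]
      · simp only [evS, evX, X0, RingHom.comp_apply, coe_compRingHom_apply, X_comp, map_pow,
          coe_eval₂RingHom, eval₂_X, HahnSeries.single_pow]
        congr 1
        · simp; 
        · ring
    exact congrArg (fun h : B[X] →+* LS B => h p) this
  rw [rd, ev, map_sub, map_mul, h1, h1, map_pow, evS_X, HahnSeries.single_pow, sub_eq_add_neg,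
    ← mul_neg]
  congr 2
  ext k
  rw [HahnSeries.coeff_neg]
  have : (3 • -(g : ℤ)) = -(3 * (g : ℤ)) := by simp
  rw [this]
  by_cases hk : k = -(3 * (g : ℤ))
  · rw [hk]; simp; ring
  · rw [HahnSeries.coeff_single_of_ne hk, HahnSeries.coeff_single_of_ne hk, neg_zero]

theorem rd_add (p q p' q' : B[X]) : rd (p + p') (q + q') = rd p q + rd p' q' := by
  simp only [rd, add_comp]; ring

theorem rd_neg (p q : B[X]) : rd (-p) (-q) = - rd p q := by
  simp only [rd, neg_comp]; ring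

theorem rd_sub (p q p' q' : B[X]) : rd (p - p') (q - q') = rd p q - rd p' q' := by
  simp only [rd, sub_comp]; ring

theorem rd_C_mul (c : B) (p q : B[X]) : rd (C c * p) (C c * q) = C c * rd p q := by
  simp only [rd, mul_comp, C_comp]; ring

theorem coeff_comp_sq (p : B[X]) (k : ℕ) :
    (p.comp (X ^ 2)).coeff k = if 2 ∣ k then p.coeff (k / 2) else 0 := by
  rw [← expand_eq_comp_X_pow, coeff_expand (by norm_num)]

theorem rd_coeff_even (p q : B[X]) (k : ℕ) : (rd p q).coeff (2 * k) = p.coeff k := by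
  rw [rd, coeff_sub, coeff_comp_sq, coeff_mul_X_pow']
  have h1 : 2 ∣ 2 * k := dvd_mul_right _ _
  rw [if_pos h1, Nat.mul_div_cancel_left _ (by norm_num)]
  split_ifs with h
  · rw [coeff_comp_sq, if_neg (by omega), sub_zero]
  · rw [sub_zero]

theorem rd_coeff_odd (p q : B[X]) (k : ℕ) : (rd p q).coeff (2 * k + 3) = - q.coeff k := by
  rw [rd, coeff_sub, coeff_comp_sq, coeff_mul_X_pow, coeff_comp_sq, if_neg (by omega),
    if_pos (dvd_mul_right _ _), Nat.mul_div_cancel_left _ (by norm_num), zero_sub]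

theorem rd_coeff_one (p q : B[X]) : (rd p q).coeff 1 = 0 := by
  rw [rd, coeff_sub, coeff_comp_sq, coeff_mul_X_pow', if_neg (by omega), if_neg (by omega),
    sub_zero]

theorem rd_eq_zero {p q : B[X]} (h : rd p q = 0) : p = 0 ∧ q = 0 := by
  constructor
  · ext k
    rw [← rd_coeff_even p q, h]; simp
  · ext k
    have := rd_coeff_odd p q k
    rw [h, coeff_zero] at this
    rw [coeff_zero, ← neg_eq_zero]
    exact this.symm

theorem Bd.mono {p q : B[X]} {m n : ℕ} (h : Bd p q m) (hmn : m ≤ n) : Bd p q n :=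
  ⟨le_trans h.1 hmn, h.2.imp id fun h => le_trans h hmn⟩

theorem Bd.zero (n : ℕ) : Bd (0 : B[X]) 0 n := ⟨by simp, Or.inl rfl⟩

theorem Bd.coeff {p q : B[X]} {n : ℕ} (h : Bd p q n) :
    (∀ k, n < 2 * k → p.coeff k = 0) ∧ (∀ k, n < 2 * k + 3 → q.coeff k = 0) := by
  constructor
  · intro k hk
    apply coeff_eq_zero_of_natDegree_lt
    have := h.1
    omega
  · intro k hk
    rcases h.2 with h2 | h2
    · rw [h2, coeff_zero]
    · apply coeff_eq_zero_of_natDegree_lt
      omega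

theorem Bd.of_coeff {p q : B[X]} {n : ℕ} (h : ∀ k, n < 2 * k → p.coeff k = 0)
    (h' : ∀ k, n < 2 * k + 3 → q.coeff k = 0) : Bd p q n := by
  constructor
  · have : p.natDegree ≤ n / 2 := by
      rw [natDegree_le_iff_coeff_eq_zero]
      intro k hk
      exact h k (by omega)
    omega
  · by_cases hq : q = 0
    · exact Or.inl hq
    · right
      by_contra hlt
      have := h' q.natDegree (by omega)
      rw [coeff_natDegree, leadingCoeff_eq_zero] at this
      exact hq this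

theorem Bd.add {p q p' q' : B[X]} {n : ℕ} (h : Bd p q n) (h' : Bd p' q' n) :
    Bd (p + p') (q + q') n := by
  apply Bd.of_coeff
  · intro k hk
    rw [coeff_add, h.coeff.1 k hk, h'.coeff.1 k hk, add_zero]
  · intro k hk
    rw [coeff_add, h.coeff.2 k hk, h'.coeff.2 k hk, add_zero]

theorem Bd.cmul {p q : B[X]} {n : ℕ} (h : Bd p q n) (c : B) : Bd (C c * p) (C c * q) n := by
  apply Bd.of_coeff
  · intro k hk
    rw [coeff_C_mul, h.coeff.1 k hk, mul_zero]
  · intro k hk
    rw [coeff_C_mul, h.coeff.2 k hk, mul_zero]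

theorem Bd.map {p q : B[X]} {n : ℕ} (h : Bd p q n) (f : B →+* C') :
    Bd (p.map f) (q.map f) n := by
  apply Bd.of_coeff
  · intro k hk
    rw [coeff_map, h.coeff.1 k hk, map_zero]
  · intro k hk
    rw [coeff_map, h.coeff.2 k hk, map_zero]

theorem Bd.natDegree_rd {p q : B[X]} {n : ℕ} (h : Bd p q n) : (rd p q).natDegree ≤ n := by
  rw [natDegree_le_iff_coeff_eq_zero]
  intro k hk
  rcases Nat.even_or_odd' k with ⟨j, hj | hj⟩
  · rw [hj, rd_coeff_even]
    exact h.coeff.1 j (by omega)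
  · by_cases hj1 : j = 0
    · rw [hj, hj1]; exact rd_coeff_one p q
    · obtain ⟨i, rfl⟩ := Nat.exists_eq_succ_of_ne_zero hj1
      have : k = 2 * i + 3 := by omega
      rw [this, rd_coeff_odd, h.coeff.2 i (by omega), neg_zero]

/-- the product of `p + q Y` and `p' + q' Y` when `Y^2 = X^3 + b` -/
noncomputable def pm (b : B) (P Q : B[X] × B[X]) : B[X] × B[X] :=
  (P.1 * Q.1 + P.2 * Q.2 * (X ^ 3 + C b), P.1 * Q.2 + P.2 * Q.1)

/-- powers of `p + q Y` -/
noncomputable def ppw (b : B) (P : B[X] × B[X]) : ℕ → B[X] × B[X]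
  | 0 => (1, 0)
  | n + 1 => pm b (ppw b P n) P

theorem ev_pm (g : ℕ) {Y : LS B} {b : B} (hY : Y ^ 2 = X0 g B ^ 3 + HahnSeries.C b)
    (P Q : B[X] × B[X]) :
    ev g Y (pm b P Q).1 (pm b P Q).2 = ev g Y P.1 P.2 * ev g Y Q.1 Q.2 := by
  have h1 : evX g (X ^ 3 + C b : B[X]) = Y ^ 2 := by
    rw [hY, map_add, map_pow, evX_X, evX_C]
  simp only [ev, pm, map_add, map_mul] at h1 ⊢
  rw [h1]
  ring

theorem ev_ppw (g : ℕ) {Y : LS B} {b : B} (hY : Y ^ 2 = X0 g B ^ 3 + HahnSeries.C b)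
    (P : B[X] × B[X]) (n : ℕ) :
    ev g Y (ppw b P n).1 (ppw b P n).2 = ev g Y P.1 P.2 ^ n := by
  induction n with
  | zero => simp [ppw, ev]
  | succ n ih => rw [ppw, ev_pm g hY, ih, pow_succ]

theorem eval_pm {b x y : B} (h : y ^ 2 = x ^ 3 + b) (P Q : B[X] × B[X]) :
    (pm b P Q).1.eval x + (pm b P Q).2.eval x * y =
      (P.1.eval x + P.2.eval x * y) * (Q.1.eval x + Q.2.eval x * y) := by
  simp only [pm, eval_add, eval_mul, eval_pow, eval_X, eval_C]
  rw [← h]
  ring

theorem eval_ppw {b x y : B} (h : y ^ 2 = x ^ 3 + b) (P : B[X] × B[X]) (n : ℕ) :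
    (ppw b P n).1.eval x + (ppw b P n).2.eval x * y = (P.1.eval x + P.2.eval x * y) ^ n := by
  induction n with
  | zero => simp [ppw]
  | succ n ih => rw [ppw, eval_pm h, ih, pow_succ]

/-- congruence modulo `(Z - a)^N`, with `U^2 = Z^3 + b` modulo `(Z - a)^N` -/
theorem pm_U {a b : B} {U : B[X]} {N : ℕ} (hU : (X - C a) ^ N ∣ U ^ 2 - X ^ 3 - C b)
    (P Q : B[X] × B[X]) : (X - C a) ^ N ∣
      ((pm b P Q).1 + (pm b P Q).2 * U) - (P.1 + P.2 * U) * (Q.1 + Q.2 * U) := by
  have : ((pm b P Q).1 + (pm b P Q).2 * U) - (P.1 + P.2 * U) * (Q.1 + Q.2 * U) =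
      (- P.2 * Q.2) * (U ^ 2 - X ^ 3 - C b) := by
    simp only [pm]; ring
  rw [this]
  exact Dvd.dvd.mul_left hU _

theorem ppw_U {a b : B} {U : B[X]} {N : ℕ} (hU : (X - C a) ^ N ∣ U ^ 2 - X ^ 3 - C b)
    (P : B[X] × B[X]) (n : ℕ) : (X - C a) ^ N ∣
      ((ppw b P n).1 + (ppw b P n).2 * U) - (P.1 + P.2 * U) ^ n := by
  induction n with
  | zero => simp [ppw]
  | succ n ih =>
    have h1 := pm_U hU (ppw b P n) P
    have h2 := Dvd.dvd.mul_right ih (P.1 + P.2 * U)
    have h3 := dvd_add h1 h2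
    have h4 : ((pm b (ppw b P n) P).1 + (pm b (ppw b P n) P).2 * U) -
        ((ppw b P n).1 + (ppw b P n).2 * U) * (P.1 + P.2 * U) +
        ((ppw b P n).1 + (ppw b P n).2 * U - (P.1 + P.2 * U) ^ n) * (P.1 + P.2 * U) =
        ((ppw b P (n + 1)).1 + (ppw b P (n + 1)).2 * U) - (P.1 + P.2 * U) ^ (n + 1) := by
      rw [ppw, pow_succ]; ring
    rw [h4] at h3
    exact h3

theorem VU.pm {a b : B} {U : B[X]} {N i j : ℕ} (hU : (X - C a) ^ N ∣ U ^ 2 - X ^ 3 - C b)
    {P Q : B[X] × B[X]} (hP : VU a U i P.1 P.2) (hQ : VU a U j Q.1 Q.2) (hij : i + j ≤ N) :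
    VU a U (i + j) (pm b P Q).1 (pm b P Q).2 := by
  have h1 := dvd_trans (pow_dvd_pow (X - C a) hij) (pm_U hU P Q)
  have h2 := mul_dvd_mul hP hQ
  rw [← pow_add] at h2
  have h3 := dvd_add h1 h2
  rw [sub_add_cancel] at h3
  exact h3

theorem VU.ppw {a b : B} {U : B[X]} {N i : ℕ} (hU : (X - C a) ^ N ∣ U ^ 2 - X ^ 3 - C b)
    {P : B[X] × B[X]} (hP : VU a U i P.1 P.2) (n : ℕ) (hn : n * i ≤ N) :
    VU a U (n * i) (ppw b P n).1 (ppw b P n).2 := by
  have h1 := dvd_trans (pow_dvd_pow (X - C a) hn) (ppw_U hU P n)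
  have h2 := pow_dvd_pow_of_dvd hP n
  rw [← pow_mul, mul_comm i n] at h2
  have h3 := dvd_add h1 h2
  rw [sub_add_cancel] at h3
  exact h3

end


section
variable {B : Type} [CommRing B]

theorem Ld.zero (m : ℤ) : Ld (0 : LS B) m 0 := ⟨fun _ _ => rfl, rfl⟩

theorem Ld.sum {ι : Type} (s : Finset ι) (x : ι → LS B) (m : ℤ) (c : ι → B)
    (h : ∀ i ∈ s, Ld (x i) m (c i)) : Ld (∑ i ∈ s, x i) m (∑ i ∈ s, c i) := by
  classical
  induction s using Finset.induction_on with
  | empty => simpa using Ld.zero (B := B) m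
  | insert a s ha ih =>
    rw [Finset.sum_insert ha, Finset.sum_insert ha]
    exact (h a (Finset.mem_insert_self a s)).add
      (ih fun i hi => h i (Finset.mem_insert_of_mem hi))

/-- the leading coefficient of `p(X)` -/
theorem Ld_evX (g : ℕ) {p : B[X]} {n : ℕ} (h : p.natDegree ≤ n) (hg : 0 < g) :
    Ld (evX g p) (-(2 * (g : ℤ) * n)) (p.coeff n) := by
  have h1 : evX g p = ∑ i ∈ Finset.range (n + 1), evX g (C (p.coeff i) * X ^ i) := by
    rw [← map_sum]
    congr 1
    exact p.as_sum_range_C_mul_X_pow' (by omega)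
  have h2 : p.coeff n = ∑ i ∈ Finset.range (n + 1), (if i = n then p.coeff i else 0) := by
    rw [Finset.sum_ite_eq' (Finset.range (n + 1)) n]
    simp
  rw [h1, h2]
  apply Ld.sum
  intro i hi
  rw [map_mul, map_pow, evX_C, evX_X]
  have h3 := (Ld_C (p.coeff i)).mul ((Ld_single (-(2 * (g : ℤ))) (1 : B)).pow i)
  rw [one_pow, mul_one, zero_add] at h3
  have hi' : i ≤ n := by have := Finset.mem_range.1 hi; omega
  split_ifs with hin
  · subst hin
    have : ((i : ℤ) * -(2 * (g : ℤ))) = -(2 * (g : ℤ) * i) := by ring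
    rw [this] at h3
    exact h3
  · apply h3.weaken
    have h4 : i < n := lt_of_le_of_ne hi' hin
    have h5 : (i : ℤ) < n := by exact_mod_cast h4
    have h6 : (0 : ℤ) < g := by exact_mod_cast hg
    nlinarith

/-- the leading coefficient of `p(X) + q(X) Y` -/
theorem Ld_ev (g : ℕ) (hg : 0 < g) {Y : LS B} (hY : Ld Y (-(3 * (g : ℤ))) 1) {p q : B[X]} {n : ℕ}
    (h : Bd p q n) : Ld (ev g Y p q) (-((g : ℤ) * n)) ((-1) ^ n * (rd p q).coeff n) := by
  have hg' : (0 : ℤ) < g := by exact_mod_cast hg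
  rcases Nat.even_or_odd' n with ⟨j, hj | hj⟩
  · have h1 : Ld (evX g p) (-((g : ℤ) * n)) (p.coeff j) := by
      have := Ld_evX g (p := p) (n := j) (by have := h.1; omega) hg
      have h2 : -((g : ℤ) * n) = -(2 * (g : ℤ) * j) := by rw [hj]; push_cast; ring
      rw [h2]; exact this
    have h3 : Ld (evX g q * Y) (-((g : ℤ) * n)) 0 := by
      by_cases hq : q = 0
      · rw [hq, map_zero, zero_mul]; exact Ld.zero _
      · have h4 := h.2.resolve_left hq
        have h5 := (Ld_evX g (p := q) (n := q.natDegree) le_rfl hg).mul hY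
        apply h5.weaken
        have h6 : ((2 * q.natDegree + 3 : ℕ) : ℤ) < ((n : ℕ) : ℤ) := by
          exact_mod_cast (by omega : 2 * q.natDegree + 3 < n)
        push_cast at h6
        nlinarith
    have h7 := h1.add h3
    have h8 : (-1 : B) ^ n * (rd p q).coeff n = p.coeff j + 0 := by
      rw [hj, rd_coeff_even, pow_mul]; simp
    rw [h8]
    exact h7
  · by_cases hj0 : j = 0
    · subst hj0
      have hp : p.natDegree = 0 := by have := h.1; omega
      have hq : q = 0 := by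
        rcases h.2 with h2 | h2
        · exact h2
        · omega
      have h1 := Ld_evX g (p := p) (n := 0) (by omega) hg
      rw [ev, hq, map_zero, zero_mul, add_zero]
      have h2 : (-1 : B) ^ n * (rd p 0).coeff n = 0 := by
        have : n = 1 := by omega
        rw [this, rd_coeff_one, mul_zero]
      rw [h2]
      apply h1.weaken
      have : n = 1 := by omega
      rw [this]
      push_cast
      linarith
    · obtain ⟨i, rfl⟩ := Nat.exists_eq_succ_of_ne_zero hj0
      have hn : n = 2 * i + 3 := by omega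
      have h1 : Ld (evX g p) (-((g : ℤ) * n)) 0 := by
        have h2 := Ld_evX g (p := p) (n := p.natDegree) le_rfl hg
        apply h2.weaken
        have h6 : ((2 * p.natDegree : ℕ) : ℤ) < ((n : ℕ) : ℤ) := by
          exact_mod_cast (by have := h.1; omega : 2 * p.natDegree < n)
        push_cast at h6
        nlinarith
      have h3 : Ld (evX g q * Y) (-((g : ℤ) * n)) (q.coeff i) := by
        have hq : q.natDegree ≤ i := by
          rcases h.2 with h4 | h4
          · rw [h4]; simp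
          · omega
        have h5 := (Ld_evX g (p := q) (n := i) hq hg).mul hY
        rw [mul_one] at h5
        have h6 : -((g : ℤ) * n) = -(2 * (g : ℤ) * i) + -(3 * (g : ℤ)) := by
          rw [hn]; push_cast; ring
        rw [h6]; exact h5
      have h7 := h1.add h3
      have h8 : (-1 : B) ^ n * (rd p q).coeff n = 0 + q.coeff i := by
        rw [hn, rd_coeff_odd]
        have : (-1 : B) ^ (2 * i + 3) = -1 := by
          rw [pow_add, pow_mul]; norm_num
        rw [this]; ring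
      rw [h8]
      exact h7

/-- `p(X) + q(X) Y` has pole order `g d` where `d = 0` or `d ≥ 2` -/
theorem ev_order (g : ℕ) (hg : 0 < g) {Y : LS B} (hY : Ld Y (-(3 * (g : ℤ))) 1) {p q : B[X]}
    (h : ¬ (p = 0 ∧ q = 0)) : ∃ (d : ℕ) (c : B), c ≠ 0 ∧ Bd p q d ∧ d ≠ 1 ∧
      Ld (ev g Y p q) (-((g : ℤ) * d)) c := by
  have h0 : rd p q ≠ 0 := fun h1 => h (rd_eq_zero h1)
  have hb : Bd p q (rd p q).natDegree := by
    apply Bd.of_coeff
    · intro k hk
      rw [← rd_coeff_even p q]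
      exact coeff_eq_zero_of_natDegree_lt hk
    · intro k hk
      rw [← neg_eq_zero, ← rd_coeff_odd p q]
      exact coeff_eq_zero_of_natDegree_lt hk
  refine ⟨(rd p q).natDegree, (-1) ^ (rd p q).natDegree * (rd p q).coeff (rd p q).natDegree,
    ?_, hb, ?_, Ld_ev g hg hY hb⟩
  · rw [coeff_natDegree]
    intro h1
    apply h0
    rw [← leadingCoeff_eq_zero]
    have h2 : (-1 : B) ^ (rd p q).natDegree * ((-1) ^ (rd p q).natDegree * (rd p q).leadingCoeff)
        = (rd p q).leadingCoeff := by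
      rw [← mul_assoc, ← mul_pow]; simp
    rw [← h2, h1, mul_zero]
  · intro h1
    apply h0
    rw [← leadingCoeff_eq_zero, ← coeff_natDegree, h1]
    exact rd_coeff_one p q

theorem ev_eq_zero (g : ℕ) (hg : 0 < g) {Y : LS B} (hY : Ld Y (-(3 * (g : ℤ))) 1) {p q : B[X]}
    (h : ev g Y p q = 0) : p = 0 ∧ q = 0 := by
  by_contra hn
  obtain ⟨d, c, hc, _, _, hd⟩ := ev_order g hg hY hn
  exact hd.ne_zero hc h

theorem ev_sub (g : ℕ) (Y : LS B) (p q p' q' : B[X]) :
    ev g Y (p - p') (q - q') = ev g Y p q - ev g Y p' q' := by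
  simp only [ev, map_sub]; ring

theorem ev_add (g : ℕ) (Y : LS B) (p q p' q' : B[X]) :
    ev g Y (p + p') (q + q') = ev g Y p q + ev g Y p' q' := by
  simp only [ev, map_add]; ring

theorem ev_cmul (g : ℕ) (Y : LS B) (r p q : B[X]) :
    ev g Y (r * p) (r * q) = evX g r * ev g Y p q := by
  simp only [ev, map_mul]; ring

theorem ev_inj (g : ℕ) (hg : 0 < g) {Y : LS B} (hY : Ld Y (-(3 * (g : ℤ))) 1) {p q p' q' : B[X]}
    (h : ev g Y p q = ev g Y p' q') : p = p' ∧ q = q' := by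
  have h1 : ev g Y (p - p') (q - q') = 0 := by rw [ev_sub, h, sub_self]
  obtain ⟨h2, h3⟩ := ev_eq_zero g hg hY h1
  exact ⟨sub_eq_zero.1 h2, sub_eq_zero.1 h3⟩

end

/-! ### the data -/

/-- the residue field -/
abbrev kap (O : ValuationSubring ℂ) : Type := IsLocalRing.ResidueField O

/-- the residue map -/
noncomputable abbrev red (O : ValuationSubring ℂ) : O →+* kap O := IsLocalRing.residue O

/-- a valuation ring of `ℂ`, of residue characteristic 0, with `b` in the maximal ideal -/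
structure VR (O : ValuationSubring ℂ) (b : O) : Prop where
  b0 : b ≠ 0
  bm : ¬ IsUnit b
  nat : ∀ n : ℕ, n ≠ 0 → IsUnit (n : O)

theorem VR.charZero {O : ValuationSubring ℂ} {b : O} (h : VR O b) : CharZero (kap O) := by
  apply charZero_of_inj_zero
  intro n hn
  by_contra h0
  have h1 := (h.nat n h0).map (red O)
  rw [map_natCast, hn] at h1
  exact not_isUnit_zero h1

theorem VR.red_b {O : ValuationSubring ℂ} {b : O} (h : VR O b) : red O b = 0 := by
  rw [IsLocalRing.residue_eq_zero_iff]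
  exact h.bm

/-- the data over `O` -/
structure OD (g : ℕ) (O : ValuationSubring ℂ) where
  b : O
  U : O[X]
  px : O[X]
  qx : O[X]
  Y : LS O
  w : LS O
  vr : VR O b
  hU : (X - C ((g : O) ^ 2)) ^ (g ^ 2) ∣ U ^ 2 - X ^ 3 - C b
  Ua : red O (U.eval ((g : O) ^ 2)) = -(g : kap O) ^ 3
  hx : VU ((g : O) ^ 2) U g px qx
  bd : Bd px qx (g + 1)
  lead : px.coeff ((g + 1) / 2) = 1
  hrd : rd (px.map (red O)) (qx.map (red O)) = (X + 1) * (X - C (g : kap O)) ^ g
  hY : Y ^ 2 = X0 g O ^ 3 + HahnSeries.C b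
  Yl : Ld Y (-(3 * (g : ℤ))) 1
  hw : w ^ g * (X0 g O - HahnSeries.C ((g : O) ^ 2)) ^ g = ev g Y px qx
  wl : Ld w ((g : ℤ) - 1) 1

/-- the data over `ℂ` -/
structure GD (g : ℕ) where
  b : ℂ
  U : ℂ[X]
  px : ℂ[X]
  qx : ℂ[X]
  Y : LS ℂ
  w : LS ℂ
  x1 : ℂ
  y1 : ℂ
  odd : Odd g
  g3 : 3 ≤ g
  b0 : b ≠ 0
  hU : (X - C ((g : ℂ) ^ 2)) ^ (g ^ 2) ∣ U ^ 2 - X ^ 3 - C b
  Ua : U.eval ((g : ℂ) ^ 2) ≠ 0
  hx : VU ((g : ℂ) ^ 2) U g px qx
  hN : px ^ 2 - qx ^ 2 * (X ^ 3 + C b) = (X - C ((g : ℂ) ^ 2)) ^ g * (X - C x1)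
  x1a : x1 ≠ (g : ℂ) ^ 2
  hy1 : y1 ^ 2 = x1 ^ 3 + b
  y10 : y1 ≠ 0
  hx1 : px.eval x1 + qx.eval x1 * y1 = 0
  hpa : px.eval ((g : ℂ) ^ 2) - qx.eval ((g : ℂ) ^ 2) * U.eval ((g : ℂ) ^ 2) ≠ 0
  gap : ∀ (i : ℕ) (p q : ℂ[X]), 1 ≤ i → i < g → VU ((g : ℂ) ^ 2) (-U) i p q → Bd p q i →
    p = 0 ∧ q = 0
  hY : Y ^ 2 = X0 g ℂ ^ 3 + HahnSeries.C b
  Yl : Ld Y (-(3 * (g : ℤ))) 1
  hw : w ^ g * (X0 g ℂ - HahnSeries.C ((g : ℂ) ^ 2)) ^ g = ev g Y px qx
  wl : Ld w ((g : ℤ) - 1) 1

/-- the complex data of the data over `O` -/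
structure IsC {g : ℕ} {O : ValuationSubring ℂ} (D : OD g O) (E : GD g) : Prop where
  b : E.b = (D.b : ℂ)
  U : E.U = D.U.map O.subtype
  px : E.px = D.px.map O.subtype
  qx : E.qx = D.qx.map O.subtype
  Y : E.Y = mapR O.subtype D.Y
  w : E.w = mapR O.subtype D.w

/-- membership in the ring of functions regular outside the marked point -/
def GD.InR {g : ℕ} (D : GD g) (x : LS ℂ) : Prop :=
  ∃ p q : ℕ → ℂ[X], (∀ i < g, VU ((g : ℂ) ^ 2) (-D.U) i (p i) (q i)) ∧
    x = ∑ i ∈ Finset.range g, ev g D.Y (p i) (q i) * D.w ^ i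

/-- A ring `R` of functions on a curve, regular outside one place, where `v` is the pole order -/
structure CR (g : ℕ) (K : Type) [Field K] [Algebra ℂ K] (R : Subalgebra ℂ K) (v : K → ℤ) :
    Prop where
  mul : ∀ x y, x ≠ 0 → y ≠ 0 → v (x * y) = v x + v y
  add : ∀ x y, x ≠ 0 → y ≠ 0 → x + y ≠ 0 → v (x + y) ≤ max (v x) (v y)
  alg : ∀ z : ℂ, z ≠ 0 → v (algebraMap ℂ K z) = 0
  res : ∀ x y, x ≠ 0 → y ≠ 0 → v x = v y → ∃ z : ℂ, x = z • y ∨ v (x - z • y) < v x
  gap : ∀ x ∈ R, x ≠ 0 → v x = 0 ∨ (g : ℤ) + 1 ≤ v x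
  att : ∀ n : ℕ, g + 1 ≤ n → ∃ x ∈ R, x ≠ 0 ∧ v x = n
  frac : ∀ x : K, ∃ a ∈ R, ∃ b ∈ R, b ≠ 0 ∧ x = a / b
  int : ∀ x : K, IsIntegral R x → x ∈ R

end Pool.Agent.RTB
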