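import Pool.Agent.RTB.GStmts

/-!
# squad RTB, part G, module GLN: functions with poles at the point only
-/

set_option autoImplicit false

open Module

namespace Pool.Agent.RTB

namespace GLN_

section
variable {g : ℕ} {K : Type} [Field K] [Algebra ℂ K] {R : Subalgebra ℂ K} {v : K → ℤ}

theorem np_self (p : Pt K) (n : ℤ) : Crv.np p n p = n := by
  classical
  simp [Crv.np]

theorem np_ne {p q : Pt K} (h : q ≠ p) (n : ℤ) : Crv.np p n q = 0 := by
  classical
  simp [Crv.np, Ne.symm h]

theorem v_one (h : CR g K R v) : v 1 = 0 := by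
  have := h.alg 1 one_ne_zero
  rwa [map_one] at this

/-- elements of pole order `0` are constants -/
theorem const_of_v (h : CR g K R v) {x : K} (hx : x ∈ R) (hx0 : x ≠ 0) (hv : v x ≤ g) :
    ∃ z : ℂ, x = z • (1 : K) := by
  have h0 : v x = 0 := by
    rcases h.gap x hx hx0 with h1 | h1
    · exact h1
    · omega
  obtain ⟨z, hz⟩ := h.res x 1 hx0 one_ne_zero (by rw [h0, v_one h])
  refine ⟨z, ?_⟩
  rcases hz with hz | hz
  · exact hz
  · by_contra hne
    have hne' : x - z • (1 : K) ≠ 0 := sub_ne_zero.mpr hne
    have hR : x - z • (1 : K) ∈ R := R.sub_mem hx (R.smul_mem R.one_mem z)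
    rcases h.gap _ hR hne' with h1 | h1
    · omega
    · omega

end

end GLN_

open GLN_

theorem gln_proof (hVO : Stmt_GVO) (hOT : Stmt_GOT) (hIN : Stmt_GIN) : Stmt_GLN := by
  intro g K _ _ R v h V p hp
  have mem : ∀ (n : ℕ) (x : K), x ∈ V.L (Crv.np p (n : ℤ)) ↔ x ∈ R ∧ (x = 0 ∨ v x ≤ n) := by
    intro n x
    rw [Crv.Val.mem_L]
    constructor
    · intro hx
      by_cases hx0 : x = 0
      · exact ⟨hx0 ▸ R.zero_mem, Or.inl hx0⟩
      refine ⟨?_, Or.inr ?_⟩
      · refine hIN g K R v h p hp x ?_
        intro q hq
        have h1 := hx q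
        rw [Crv.Val.mem_Lp, np_ne hq] at h1
        rcases h1 with h1 | h1
        · exact absurd h1 hx0
        · rw [V.mem q x hx0]; linarith
      · have h1 := hx p
        rw [Crv.Val.mem_Lp, np_self] at h1
        rcases h1 with h1 | h1
        · exact absurd h1 hx0
        · rw [hVO g K R v h V p hp x hx0] at h1; linarith
    · rintro ⟨hxR, hx⟩ q
      rw [Crv.Val.mem_Lp]
      by_cases hx0 : x = 0
      · exact Or.inl hx0
      right
      rcases hx with hx | hx
      · exact absurd hx hx0
      by_cases hq : q = p
      · rw [hq, np_self, hVO g K R v h V p hp x hx0]; linarith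
      · rw [np_ne hq]
        have h1 := hOT g K R v h V p hp q hq x hxR
        rw [V.mem q x hx0] at h1
        linarith
  -- the constants
  have small : ∀ n : ℕ, n ≤ g → V.L (Crv.np p (n : ℤ)) = Submodule.span ℂ {(1 : K)} := by
    intro n hn
    ext x
    rw [mem, Submodule.mem_span_singleton]
    constructor
    · rintro ⟨hxR, hx⟩
      by_cases hx0 : x = 0
      · exact ⟨0, by rw [zero_smul, hx0]⟩
      rcases hx with hx | hx
      · exact absurd hx hx0
      obtain ⟨z, hz⟩ := const_of_v h hxR hx0 (by
        have : (n : ℤ) ≤ g := by exact_mod_cast hn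
        linarith)
      exact ⟨z, hz.symm⟩
    · rintro ⟨z, rfl⟩
      refine ⟨R.smul_mem R.one_mem z, ?_⟩
      by_cases hz : z = 0
      · left; rw [hz, zero_smul]
      · right
        rw [← Algebra.algebraMap_eq_smul_one, h.alg z hz]
        exact Int.natCast_nonneg n
  have big : ∀ k : ℕ, FiniteDimensional ℂ (V.L (Crv.np p ((g + k : ℕ) : ℤ))) ∧
      finrank ℂ (V.L (Crv.np p ((g + k : ℕ) : ℤ))) = k + 1 := by
    intro k
    induction k with
    | zero =>
      rw [Nat.add_zero, small g le_rfl]
      exact ⟨inferInstance, finrank_span_singleton one_ne_zero⟩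
    | succ k ih =>
      obtain ⟨ih1, ih2⟩ := ih
      obtain ⟨y, hyR, hy0, hyv⟩ := h.att (g + (k + 1)) (by omega)
      have hsup : V.L (Crv.np p ((g + (k + 1) : ℕ) : ℤ)) =
          V.L (Crv.np p ((g + k : ℕ) : ℤ)) ⊔ Submodule.span ℂ {y} := by
        apply le_antisymm
        · intro x hx
          rw [mem] at hx
          obtain ⟨hxR, hx⟩ := hx
          by_cases hx0 : x = 0
          · rw [hx0]; exact Submodule.zero_mem _
          rcases hx with hx | hx
          · exact absurd hx hx0
          by_cases hlt : v x ≤ ((g + k : ℕ) : ℤ)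
          · exact Submodule.mem_sup_left ((mem _ _).mpr ⟨hxR, Or.inr hlt⟩)
          have heq : v x = v y := by
            rw [hyv]; push_cast at *; omega
          obtain ⟨z, hz⟩ := h.res x y hx0 hy0 heq
          have hzy : z • y ∈ Submodule.span ℂ {y} :=
            Submodule.smul_mem _ _ (Submodule.mem_span_singleton_self y)
          rcases hz with hz | hz
          · rw [hz]; exact Submodule.mem_sup_right hzy
          · have hx' : x = (x - z • y) + z • y := by ring
            rw [hx']
            refine Submodule.add_mem_sup ?_ hzy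
            rw [mem]
            refine ⟨R.sub_mem hxR (R.smul_mem hyR z), Or.inr ?_⟩
            push_cast at *
            omega
        · refine sup_le ?_ ?_
          · intro x hx
            rw [mem] at hx ⊢
            refine ⟨hx.1, hx.2.imp_right fun hx => ?_⟩
            push_cast at *
            omega
          · rw [Submodule.span_singleton_le_iff_mem, mem]
            exact ⟨hyR, Or.inr hyv.le⟩
      have hinf : V.L (Crv.np p ((g + k : ℕ) : ℤ)) ⊓ Submodule.span ℂ {y} = ⊥ := by
        rw [eq_bot_iff]
        rintro x ⟨hx1, hx2⟩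
        rw [Submodule.mem_bot]
        by_contra hx0
        rw [SetLike.mem_coe, mem] at hx1
        rw [SetLike.mem_coe, Submodule.mem_span_singleton] at hx2
        obtain ⟨z, rfl⟩ := hx2
        have hz : z ≠ 0 := by
          rintro rfl
          exact hx0 (zero_smul _ _)
        rcases hx1.2 with h1 | h1
        · exact hx0 h1
        · have hz' : algebraMap ℂ K z ≠ 0 := by
            rw [Ne, FaithfulSMul.algebraMap_eq_zero_iff]; exact hz
          rw [Algebra.smul_def, h.mul _ _ hz' hy0, h.alg z hz, hyv] at h1
          push_cast at *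
          omega
      have h3 := Submodule.finrank_sup_add_finrank_inf_eq
        (V.L (Crv.np p ((g + k : ℕ) : ℤ))) (Submodule.span ℂ {y})
      rw [hinf, finrank_bot, finrank_span_singleton hy0, ih2, ← hsup] at h3
      refine ⟨?_, by omega⟩
      rw [hsup]
      exact Submodule.finiteDimensional_sup _ _
  intro n
  refine ⟨mem n, ?_, ?_⟩
  · intro hn
    rw [Crv.Val.ell, small n hn, finrank_span_singleton one_ne_zero]
    rfl
  · intro hn
    obtain ⟨k, rfl⟩ := Nat.exists_eq_add_of_le hn
    rw [Crv.Val.ell, (big k).2]
    push_cast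
    ring

end Pool.Agent.RTB
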