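import Pool.Agent.RTB.GStmts

set_option autoImplicit false

open Polynomial

namespace Pool.Agent.RTB

theorem gxi_proof (hGLF : Stmt_GLF) : Stmt_GXI := by
  intro g O b U hodd hg3 hVR hU hUa
  haveI hcz : CharZero (kap O) := hVR.charZero
  have hg0 : (g : kap O) ≠ 0 := by
    have : g ≠ 0 := by omega
    exact_mod_cast this
  obtain ⟨k, hk⟩ := hodd
  set f : (kap O)[X] := (X + 1) * (X - C (g : kap O)) ^ g with hf
  have hm1 : (X + 1 : (kap O)[X]).Monic := by
    have : (X + 1 : (kap O)[X]) = X + C 1 := by rw [C_1]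
    rw [this]; exact monic_X_add_C 1
  have hd1 : (X + 1 : (kap O)[X]).natDegree = 1 := by
    have : (X + 1 : (kap O)[X]) = X + C 1 := by rw [C_1]
    rw [this]; exact natDegree_X_add_C 1
  have hm2 : ((X - C (g : kap O)) ^ g).Monic := (monic_X_sub_C _).pow g
  have hd2 : ((X - C (g : kap O)) ^ g).natDegree = g := by
    rw [natDegree_pow, natDegree_X_sub_C, mul_one]
  have hfm : f.Monic := hm1.mul hm2
  have hfd : f.natDegree = g + 1 := by
    rw [hf, hm1.natDegree_mul hm2, hd1, hd2, add_comm]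
  have hf1 : f.coeff 1 = 0 := by
    have h1 : f = X * (X - C (g : kap O)) ^ g + (X - C (g : kap O)) ^ g := by
      rw [hf]; ring
    have h0 : (X - C (g : kap O)) = X + C (-(g : kap O)) := by rw [C_neg]; ring
    rw [h1, coeff_add, coeff_X_mul, h0, coeff_X_add_C_pow, coeff_X_add_C_pow]
    have h2 : g - 0 = (g - 1) + 1 := by omega
    rw [h2, pow_succ, Nat.choose_zero_right, Nat.choose_one_right]
    push_cast
    ring
  obtain ⟨p, q, hB, hV, hrd⟩ := hGLF O (g : O) b (g ^ 2) U
    (by rw [map_natCast]; exact hg0) hVR.red_b hU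
    (by rw [map_natCast]; exact hUa) g (g + 1) f
    (by nlinarith) (by omega) hfd.le hf1
    (by rw [map_natCast]; exact Dvd.intro_left _ rfl)
  have hk2 : (g + 1) / 2 = k + 1 := by omega
  have hu : red O (p.coeff ((g + 1) / 2)) = 1 := by
    have h1 : (rd (p.map (red O)) (q.map (red O))).coeff (2 * (k + 1)) =
        f.coeff (2 * (k + 1)) := congrArg (fun r : (kap O)[X] => r.coeff (2 * (k + 1))) hrd
    rw [rd_coeff_even, coeff_map] at h1
    rw [hk2]
    have h2 : f.coeff (2 * (k + 1)) = 1 := by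
      have h3 : 2 * (k + 1) = f.natDegree := by rw [hfd]; omega
      rw [h3]
      exact hfm.coeff_natDegree
    rw [h2] at h1
    exact h1
  have hun : IsUnit (p.coeff ((g + 1) / 2)) := by
    rw [← IsLocalRing.residue_ne_zero_iff_isUnit]
    intro h0
    have h1 : red O (p.coeff ((g + 1) / 2)) = 0 := h0
    rw [hu] at h1
    exact one_ne_zero h1
  obtain ⟨v, hv⟩ := hun.exists_right_inv
  have hrv : red O v = 1 := by
    have h1 := congrArg (red O) hv
    rw [map_mul, map_one, hu, one_mul] at h1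
    exact h1
  refine ⟨C v * p, C v * q, hV.cmul (C v), hB.cmul v, ?_, ?_⟩
  · rw [coeff_C_mul, mul_comm, hv]
  · rw [Polynomial.map_mul, Polynomial.map_mul, map_C, rd_C_mul, hrv, C_1, one_mul]
    exact hrd

end Pool.Agent.RTB
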