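import Pool.Agent.RTB.GSM
import Pool.Agent.RTB.GVL
import Pool.Agent.RTB.GRT
import Pool.Agent.RTB.GIV
import Pool.Agent.RTB.GHN
import Pool.Agent.RTB.GKP
import Pool.Agent.RTB.GKD
import Pool.Agent.RTB.GKS
import Pool.Agent.RTB.GLF
import Pool.Agent.RTB.GXI
import Pool.Agent.RTB.GYW
import Pool.Agent.RTB.GNX
import Pool.Agent.RTB.GGP
import Pool.Agent.RTB.GDV
import Pool.Agent.RTB.GRA
import Pool.Agent.RTB.GGR
import Pool.Agent.RTB.GRI
import Pool.Agent.RTB.GFR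
import Pool.Agent.RTB.GEN
import Pool.Agent.RTB.GEI
import Pool.Agent.RTB.GIC
import Pool.Agent.RTB.GIT
import Pool.Agent.RTB.GSW
import Pool.Agent.RTB.GSU
import Pool.Agent.RTB.GTB
import Pool.Agent.RTB.GCK
import Pool.Agent.RTB.GWA
import Pool.Agent.RTB.GDG
import Pool.Agent.RTB.GRK
import Pool.Agent.RTB.GFF
import Pool.Agent.RTB.GPT
import Pool.Agent.RTB.GVO
import Pool.Agent.RTB.GOT
import Pool.Agent.RTB.GIN
import Pool.Agent.RTB.GLN
import Pool.Agent.RTB.GZD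
import Pool.Agent.RTB.GGN
import Pool.Agent.RTB.GMK
import Pool.Agent.RTB.Crv.VALO
import Pool.Agent.RTB.Crv.Main

/-!
# squad RTB, part G: the smoothing statement
-/

set_option autoImplicit false

namespace Pool.Agent.RTB

theorem hGVL : Stmt_GVL := gvl_proof
theorem hGRT : Stmt_GRT := grt_proof
theorem hGIV : Stmt_GIV := giv_proof
theorem hGHN : Stmt_GHN := ghn_proof
theorem hGKP : Stmt_GKP := gkp_proof
theorem hGKD : Stmt_GKD := gkd_proof
theorem hGKS : Stmt_GKS := gks_proof hGKP hGKD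
theorem hGLF : Stmt_GLF := glf_proof hGKP hGKD hGKS
theorem hGXI : Stmt_GXI := gxi_proof hGLF
theorem hGYW : Stmt_GYW := gyw_proof hGRT hGIV
theorem hGOD : Stmt_GOD := god_proof hGHN hGXI hGYW
theorem hGNX : Stmt_GNX := gnx_proof
theorem hGGP : Stmt_GGP := ggp_proof hGKP
theorem hGGD : Stmt_GGD := ggd_proof hGNX hGGP
theorem hGDV : Stmt_GDV := gdv_proof
theorem hGRA : Stmt_GRA := gra_proof
theorem hGGR : Stmt_GGR := ggr_proof
theorem hGRI : Stmt_GRI := gri_proof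
theorem hGFR : Stmt_GFR := gfr_proof hGRA hGRI
theorem hGEN : Stmt_GEN := gen_proof
theorem hGEI : Stmt_GEI := gei_proof
theorem hGIC : Stmt_GIC := gic_proof hGDV hGEN
theorem hGIT : Stmt_GIT := git_proof hGRI hGFR hGEI hGIC
theorem hGSW : Stmt_GSW := gsw_proof hGRT
theorem hGSU : Stmt_GSU := gsu_proof hGLF
theorem hGTB : Stmt_GTB := gtb_proof
theorem hGCK : Stmt_GCK := gck_proof
theorem hGWA : Stmt_GWA := gwa_proof
theorem hGDG : Stmt_GDG := gdg_proof hGWA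
theorem hGRK : Stmt_GRK := grk_proof
theorem hGFF : Stmt_GFF := gff_proof hGRK
theorem hGPT : Stmt_GPT := gpt_proof
theorem hGVO : Stmt_GVO := gvo_proof
theorem hGOT : Stmt_GOT := got_proof hGDG hGRK hGVO
theorem hGIN : Stmt_GIN := gin_proof
theorem hGLN : Stmt_GLN := gln_proof hGVO hGOT hGIN
theorem hGZD : Stmt_GZD := gzd_proof hGDG hGRK hGVO hGOT
theorem hGGN : Stmt_GGN := ggn_proof Crv.hGNS Crv.hELL Crv.hTWI hGVO hGOT hGLN hGZD
theorem hGMK : Stmt_GMK := gmk_proof Crv.hVALO Crv.hPOL hGFF hGPT hGLN hGGN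

/-- smoothing -/
theorem smo : Stmt_SMO := gsm_proof hGVL hGOD hGGD hGRA hGGR hGIT hGSW hGSU hGTB hGCK hGMK

end Pool.Agent.RTB
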