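import Pool.Agent.RTB.GDefs
import Pool.Agent.RTB.Crv.Stmts

/-!
# squad RTB, part G: statements of the modules of the smoothing part

Module `GXY` proves `theorem gxy_proof : Stmt_GXY` (with the statements listed in `uses` as
hypotheses, in that order) in the file `Pool/Agent/RTB/GXY.lean`, namespace `Pool.Agent.RTB`.
The goal is `Stmt_SMO` of `KDefs` (module `GSM`).
-/

set_option autoImplicit false

open Polynomial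

namespace Pool.Agent.RTB

/-! ## Data over `O` -/

/-- GVL: a valuation ring of `ℂ` with residue characteristic 0. -/
def Stmt_GVL : Prop := ∃ (O : ValuationSubring ℂ) (b : O), VR O b

/-- GRT: roots in the ring of Laurent series. -/
def Stmt_GRT : Prop := ∀ (B : Type) [CommRing B] (n : ℕ) (m : ℤ) (x : LS B), 0 < n →
  IsUnit (n : B) → Ld x (n * m) 1 → ∃ y : LS B, Ld y m 1 ∧ y ^ n = x

/-- GIV: inverses in the ring of Laurent series. -/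
def Stmt_GIV : Prop := ∀ (B : Type) [CommRing B] (m : ℤ) (x : LS B), Ld x m 1 →
  ∃ y : LS B, Ld y (-m) 1 ∧ x * y = 1

/-- GHN: the square root `U` of `Z^3 + b` modulo `(Z - g^2)^(g^2)`. -/
def Stmt_GHN : Prop := ∀ (g : ℕ) (O : ValuationSubring ℂ) (b : O), VR O b → 1 ≤ g →
  ∃ U : O[X], (X - C ((g : O) ^ 2)) ^ (g ^ 2) ∣ U ^ 2 - X ^ 3 - C b ∧
    red O (U.eval ((g : O) ^ 2)) = -(g : kap O) ^ 3

/-- GKP: vanishing at a point of the cuspidal cubic. -/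
def Stmt_GKP : Prop := ∀ (F : Type) [Field F] (c : F) (N : ℕ) (U : F[X]), (2 : F) ≠ 0 →
  c ≠ 0 → (X - C (c ^ 2)) ^ N ∣ U ^ 2 - X ^ 3 → U.eval (c ^ 2) = -c ^ 3 →
  ∀ (i : ℕ) (p q : F[X]), i ≤ N → (VU (c ^ 2) U i p q ↔ (X - C c) ^ i ∣ rd p q)

/-- GKD: the functions on the cuspidal cubic. -/
def Stmt_GKD : Prop := ∀ (B : Type) [CommRing B] (f : B[X]) (n : ℕ), f.natDegree ≤ n →
  f.coeff 1 = 0 → ∃ p q : B[X], Bd p q n ∧ rd p q = f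

/-- GKS (uses GKP GKD): Riemann-Roch on the cuspidal cubic, surjectivity. -/
def Stmt_GKS : Prop := ∀ (F : Type) [Field F] [CharZero F] (c : F) (N : ℕ) (U : F[X]),
  c ≠ 0 → (X - C (c ^ 2)) ^ N ∣ U ^ 2 - X ^ 3 → U.eval (c ^ 2) = -c ^ 3 →
  ∀ (i : ℕ) (u : F[X]), i ≤ N → ∃ p q : F[X], Bd p q i ∧
    (X - C (c ^ 2)) ^ i ∣ p + q * U - u

/-- GLF (uses GKP GKD GKS): lifting of functions from the cuspidal cubic. -/
def Stmt_GLF : Prop := ∀ (O : Type) [CommRing O] [IsLocalRing O]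
  [CharZero (IsLocalRing.ResidueField O)] (c b : O) (N : ℕ) (U : O[X]),
  IsLocalRing.residue O c ≠ 0 → IsLocalRing.residue O b = 0 →
  (X - C (c ^ 2)) ^ N ∣ U ^ 2 - X ^ 3 - C b →
  IsLocalRing.residue O (U.eval (c ^ 2)) = -(IsLocalRing.residue O c) ^ 3 →
  ∀ (i n : ℕ) (f : (IsLocalRing.ResidueField O)[X]), i ≤ N → i ≤ n → f.natDegree ≤ n →
  f.coeff 1 = 0 → (X - C (IsLocalRing.residue O c)) ^ i ∣ f →
  ∃ p q : O[X], Bd p q n ∧ VU (c ^ 2) U i p q ∧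
    rd (p.map (IsLocalRing.residue O)) (q.map (IsLocalRing.residue O)) = f

/-- GXI (uses GLF): the function `ξ`. -/
def Stmt_GXI : Prop := ∀ (g : ℕ) (O : ValuationSubring ℂ) (b : O) (U : O[X]), Odd g → 3 ≤ g →
  VR O b → (X - C ((g : O) ^ 2)) ^ (g ^ 2) ∣ U ^ 2 - X ^ 3 - C b →
  red O (U.eval ((g : O) ^ 2)) = -(g : kap O) ^ 3 →
  ∃ px qx : O[X], VU ((g : O) ^ 2) U g px qx ∧ Bd px qx (g + 1) ∧
    px.coeff ((g + 1) / 2) = 1 ∧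
    rd (px.map (red O)) (qx.map (red O)) = (X + 1) * (X - C (g : kap O)) ^ g

/-- GYW (uses GRT GIV): the series `Y` and `w`. -/
def Stmt_GYW : Prop := ∀ (g : ℕ) (O : ValuationSubring ℂ) (b : O) (px qx : O[X]), Odd g →
  3 ≤ g → VR O b → Bd px qx (g + 1) → px.coeff ((g + 1) / 2) = 1 →
  ∃ Y w : LS O, Y ^ 2 = X0 g O ^ 3 + HahnSeries.C b ∧ Ld Y (-(3 * (g : ℤ))) 1 ∧
    w ^ g * (X0 g O - HahnSeries.C ((g : O) ^ 2)) ^ g = ev g Y px qx ∧ Ld w ((g : ℤ) - 1) 1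

/-- GOD (uses GHN GXI GYW): the data over `O`. -/
def Stmt_GOD : Prop := ∀ (g : ℕ) (O : ValuationSubring ℂ) (b : O), Odd g → 3 ≤ g → VR O b →
  Nonempty (OD g O)

/-- GNX: the norm of `ξ` and its zero `(x1, y1)`. -/
def Stmt_GNX : Prop := ∀ (g : ℕ) (O : ValuationSubring ℂ) (D : OD g O), Odd g → 3 ≤ g →
  ∃ x1 y1 : ℂ,
    (D.px.map O.subtype) ^ 2 - (D.qx.map O.subtype) ^ 2 * (X ^ 3 + C (D.b : ℂ)) =
      (X - C ((g : ℂ) ^ 2)) ^ g * (X - C x1) ∧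
    x1 ≠ (g : ℂ) ^ 2 ∧ y1 ^ 2 = x1 ^ 3 + (D.b : ℂ) ∧ y1 ≠ 0 ∧
    (D.px.map O.subtype).eval x1 + (D.qx.map O.subtype).eval x1 * y1 = 0 ∧
    (D.px.map O.subtype).eval ((g : ℂ) ^ 2) -
      (D.qx.map O.subtype).eval ((g : ℂ) ^ 2) * (D.U.map O.subtype).eval ((g : ℂ) ^ 2) ≠ 0

/-- GGP (uses GKP): the gap property of the elliptic curve. -/
def Stmt_GGP : Prop := ∀ (g : ℕ) (O : ValuationSubring ℂ) (D : OD g O), Odd g → 3 ≤ g →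
  ∀ (i : ℕ) (p q : ℂ[X]), 1 ≤ i → i < g →
  VU ((g : ℂ) ^ 2) (-(D.U.map O.subtype)) i p q → Bd p q i → p = 0 ∧ q = 0

/-- GGD (uses GNX GGP): the data over `ℂ`. -/
def Stmt_GGD : Prop := ∀ (g : ℕ) (O : ValuationSubring ℂ) (D : OD g O), Odd g → 3 ≤ g →
  ∃ E : GD g, IsC D E

/-! ## The ring `R` over `ℂ` -/

/-- GDV: divisibility by `ξ`. -/
def Stmt_GDV : Prop := ∀ (g : ℕ) (D : GD g) (i : ℕ) (P Q : ℂ[X]), i ≤ g ^ 2 →
  P.eval D.x1 + Q.eval D.x1 * D.y1 = 0 → VU ((g : ℂ) ^ 2) D.U g P Q →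
  VU ((g : ℂ) ^ 2) (-D.U) i P Q → ∃ p q : ℂ[X], VU ((g : ℂ) ^ 2) (-D.U) i p q ∧
    (P, Q) = pm D.b (D.px, D.qx) (p, q)

/-- GRA: the ring. -/
def Stmt_GRA : Prop := ∀ (g : ℕ) (D : GD g), ∃ R : Subalgebra ℂ (LS ℂ), ∀ x, x ∈ R ↔ D.InR x

/-- GGR: the gap property of the ring. -/
def Stmt_GGR : Prop := ∀ (g : ℕ) (D : GD g) (x : LS ℂ), D.InR x → x ≠ 0 →
  x.order = 0 ∨ x.order ≤ -((g : ℤ) + 1)

/-- GRI: the ring is integral over `ℂ[X]`. -/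
def Stmt_GRI : Prop := ∀ (g : ℕ) (D : GD g) (x : LS ℂ), D.InR x →
  (evX g : ℂ[X] →+* LS ℂ).IsIntegralElem x

/-- GFR (uses GRA GRI): elements have multiples in `ℂ[X]`. -/
def Stmt_GFR : Prop := ∀ (g : ℕ) (D : GD g) (s : LS ℂ), D.InR s → s ≠ 0 →
  ∃ (s' : LS ℂ) (d : ℂ[X]), D.InR s' ∧ d ≠ 0 ∧ s * s' = evX g d

/-- GEN: the ring `ℂ[X, Y]` is integrally closed. -/
def Stmt_GEN : Prop := ∀ (g : ℕ) (D : GD g) (p q d : ℂ[X]), d ≠ 0 →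
  (evX g : ℂ[X] →+* LS ℂ).IsIntegralElem (ev g D.Y p q / evX g d) → d ∣ p ∧ d ∣ q

/-- GEI: decomposition into eigenvectors. -/
def Stmt_GEI : Prop := ∀ (g : ℕ) (D : GD g) (p q : ℕ → ℂ[X]) (d : ℂ[X]), d ≠ 0 →
  (evX g : ℂ[X] →+* LS ℂ).IsIntegralElem
    ((∑ i ∈ Finset.range g, ev g D.Y (p i) (q i) * D.w ^ i) / evX g d) →
  ∀ i < g, (evX g : ℂ[X] →+* LS ℂ).IsIntegralElem (ev g D.Y (p i) (q i) * D.w ^ i / evX g d)

/-- GIC (uses GDV GEN): integral elements, one component. -/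
def Stmt_GIC : Prop := ∀ (g : ℕ) (D : GD g) (i : ℕ) (p q d : ℂ[X]), i < g → d ≠ 0 →
  (evX g : ℂ[X] →+* LS ℂ).IsIntegralElem (ev g D.Y p q * D.w ^ i / evX g d) →
  ∃ p' q' : ℂ[X], VU ((g : ℂ) ^ 2) (-D.U) i p' q' ∧ p = d * p' ∧ q = d * q'

/-- GIT (uses GRI GFR GEI GIC): the ring is integrally closed. -/
def Stmt_GIT : Prop := ∀ (g : ℕ) (D : GD g) (R : Subalgebra ℂ (LS ℂ)),
  (∀ x, x ∈ R ↔ D.InR x) → ∀ x a s : LS ℂ, a ∈ R → s ∈ R → s ≠ 0 → x = a / s →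
  IsIntegral R x → x ∈ R

/-! ## Reduction -/

/-- GSW (uses GRT): the reductions of `Y` and `w`. -/
def Stmt_GSW : Prop := ∀ (g : ℕ) (O : ValuationSubring ℂ) (D : OD g O), Odd g → 3 ≤ g →
  mapR (red O) D.Y = HahnSeries.single (-(3 * (g : ℤ))) 1 ∧
  ∃ t : LS (kap O), Ld t (-1) (-1) ∧ t ^ g = evS g (X + 1) ∧
    mapR (red O) D.w * evS g (X + C (g : kap O)) = t

/-- GSU (uses GLF): the functions `y i`. -/
def Stmt_GSU : Prop := ∀ (g : ℕ) (O : ValuationSubring ℂ) (D : OD g O) (E : GD g), IsC D E →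
  ∀ t : LS (kap O), mapR (red O) D.Y = HahnSeries.single (-(3 * (g : ℤ))) 1 →
  t ^ g = evS g (X + 1) → mapR (red O) D.w * evS g (X + C (g : kap O)) = t →
  ∃ y : Fin (g + 1) → LS O, ∀ i : Fin (g + 1), E.InR (mapR O.subtype (y i)) ∧
    (∀ k : ℤ, k < -((g : ℤ) + 1 + (i : ℕ)) → (y i).coeff k = 0) ∧
    mapR (red O) (y i) = eval₂ HahnSeries.C t (yF g (kap O) i)

/-- GTB: the multiplication table. -/
def Stmt_GTB : Prop := ∀ (g : ℕ) (cF : Idx g → ℚ) (O : ValuationSubring ℂ) [CharZero (kap O)]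
  (R : Subalgebra ℂ (LS ℂ)) (y : Fin (g + 1) → LS O) (t : LS (kap O)), 1 ≤ g → IsCF g cF →
  Ld t (-1) (-1) → (∀ x ∈ R, x ≠ 0 → x.order = 0 ∨ x.order ≤ -((g : ℤ) + 1)) →
  (∀ i, mapR O.subtype (y i) ∈ R) →
  (∀ (i : Fin (g + 1)) (k : ℤ), k < -((g : ℤ) + 1 + (i : ℕ)) → (y i).coeff k = 0) →
  (∀ i : Fin (g + 1), mapR (red O) (y i) = eval₂ HahnSeries.C t (yF g (kap O) i)) →
  ∃ cO : Idx g → O, (∀ i j, mapR O.subtype (y i) * mapR O.subtype (y j) =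
      ∑ l : Fin 4, ∑ m : Fin (g + 1), (cO (i, j, l, m) : ℂ) •
        (mapR O.subtype (y 0) ^ (l : ℕ) * (if m = 0 then 1 else mapR O.subtype (y m)))) ∧
    (∀ x, red O (cO x) = algebraMap ℚ (kap O) (cF x)) ∧
    ∀ i : Fin (g + 1), y i ≠ 0 ∧
      (mapR O.subtype (y i)).order = -((g : ℤ) + 1 + (i : ℕ))

/-- GCK: the function field inside the field of Laurent series. -/
def Stmt_GCK : Prop := ∀ (g : ℕ) (R : Subalgebra ℂ (LS ℂ)),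
  (∀ x ∈ R, x ≠ 0 → x.order = 0 ∨ x.order ≤ -((g : ℤ) + 1)) →
  (∀ n : ℕ, g + 1 ≤ n → ∃ x ∈ R, x ≠ 0 ∧ x.order = -(n : ℤ)) →
  (∀ x a s : LS ℂ, a ∈ R → s ∈ R → s ≠ 0 → x = a / s → IsIntegral R x → x ∈ R) →
  CR g (IntermediateField.adjoin ℂ (R : Set (LS ℂ)))
    (R.comap (IntermediateField.adjoin ℂ (R : Set (LS ℂ))).val)
    (fun x => -(x : LS ℂ).order)

/-! ## Curves -/

/-- GWA: weak approximation. -/
def Stmt_GWA : Prop := ∀ (K : Type) [Field K] [Algebra ℂ K] (V : Crv.Val K)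
  (S : Finset (Pt K)) (a : Pt K → K) (n : ℤ), ∃ x : K, ∀ p ∈ S,
    x = a p ∨ n ≤ V.ord p (x - a p)

/-- GDG (uses GWA): the number of zeros of `x` is at most the degree of the field over `ℂ(x)`. -/
def Stmt_GDG : Prop := ∀ (K : Type) [Field K] [Algebra ℂ K] (V : Crv.Val K)
  (S : Finset (Pt K)) (x : K), x ≠ 0 → (∀ p ∈ S, 0 < V.ord p x) →
  ∃ z : Fin (∑ p ∈ S, (V.ord p x).toNat) → K,
    ∀ P : Fin (∑ p ∈ S, (V.ord p x).toNat) → ℂ[X],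
      ∑ i, aeval x (P i) * z i = 0 → ∀ i, P i = 0

/-- GRK: the degree of the field over `ℂ(f)` is at most the pole order of `f ∈ R`. -/
def Stmt_GRK : Prop := ∀ (g : ℕ) (K : Type) [Field K] [Algebra ℂ K] (R : Subalgebra ℂ K)
  (v : K → ℤ), CR g K R v → ∀ (f : K) (m : ℕ), f ∈ R → f ≠ 0 → v f = m → 0 < m →
  ∀ z : Fin (m + 1) → K, ∃ P : Fin (m + 1) → ℂ[X], (∃ i, P i ≠ 0) ∧
    ∑ i, aeval f (P i) * z i = 0

/-- GFF (uses GRK): the field is a function field. -/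
def Stmt_GFF : Prop := ∀ (g : ℕ) (K : Type) [Field K] [Algebra ℂ K] (R : Subalgebra ℂ K)
  (v : K → ℤ), CR g K R v → IsFunctionField K

/-- GPT: the point. -/
def Stmt_GPT : Prop := ∀ (g : ℕ) (K : Type) [Field K] [Algebra ℂ K] (R : Subalgebra ℂ K)
  (v : K → ℤ), CR g K R v → ∃ p : Pt K, ∀ x, x ∈ p.ring ↔ x = 0 ∨ v x ≤ 0

/-- GVO: the order at the point. -/
def Stmt_GVO : Prop := ∀ (g : ℕ) (K : Type) [Field K] [Algebra ℂ K] (R : Subalgebra ℂ K)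
  (v : K → ℤ), CR g K R v → ∀ (V : Crv.Val K) (p : Pt K),
  (∀ x, x ∈ p.ring ↔ x = 0 ∨ v x ≤ 0) → ∀ x, x ≠ 0 → V.ord p x = - v x

/-- GOT (uses GDG GRK GVO): `R` is regular outside the point. -/
def Stmt_GOT : Prop := ∀ (g : ℕ) (K : Type) [Field K] [Algebra ℂ K] (R : Subalgebra ℂ K)
  (v : K → ℤ), CR g K R v → ∀ (_ : Crv.Val K) (p : Pt K),
  (∀ x, x ∈ p.ring ↔ x = 0 ∨ v x ≤ 0) → ∀ q : Pt K, q ≠ p → ∀ r ∈ R, r ∈ q.ring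

/-- GIN: functions regular outside the point are in `R`. -/
def Stmt_GIN : Prop := ∀ (g : ℕ) (K : Type) [Field K] [Algebra ℂ K] (R : Subalgebra ℂ K)
  (v : K → ℤ), CR g K R v → ∀ (p : Pt K),
  (∀ x, x ∈ p.ring ↔ x = 0 ∨ v x ≤ 0) → ∀ x : K, (∀ q : Pt K, q ≠ p → x ∈ q.ring) → x ∈ R

/-- GLN (uses GVO GOT GIN): the spaces of functions with poles at the point only. -/
def Stmt_GLN : Prop := ∀ (g : ℕ) (K : Type) [Field K] [Algebra ℂ K] (R : Subalgebra ℂ K)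
  (v : K → ℤ), CR g K R v → ∀ (V : Crv.Val K) (p : Pt K),
  (∀ x, x ∈ p.ring ↔ x = 0 ∨ v x ≤ 0) → ∀ n : ℕ,
  (∀ x : K, x ∈ V.L (Crv.np p (n : ℤ)) ↔ x ∈ R ∧ (x = 0 ∨ v x ≤ n)) ∧
  (n ≤ g → V.ell (Crv.np p (n : ℤ)) = 1) ∧
  (g ≤ n → V.ell (Crv.np p (n : ℤ)) = (n : ℤ) + 1 - g)

/-- GZD (uses GDG GRK GVO GOT): the degree of a principal divisor. -/
def Stmt_GZD : Prop := ∀ (g : ℕ) (K : Type) [Field K] [Algebra ℂ K] (R : Subalgebra ℂ K)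
  (v : K → ℤ), CR g K R v → ∀ (V : Crv.Val K) (p : Pt K),
  (∀ x, x ∈ p.ring ↔ x = 0 ∨ v x ≤ 0) → ∀ f ∈ R, f ≠ 0 → Crv.dg (V.dv f) ≤ 0

/-- GGN (uses Crv.GNS Crv.ELL Crv.TWI GVO GOT GLN GZD): the genus. -/
def Stmt_GGN : Prop := ∀ (g : ℕ) (K : Type) [Field K] [Algebra ℂ K] (R : Subalgebra ℂ K)
  (v : K → ℤ), CR g K R v → ∀ (_ : Crv.Val K) (p : Pt K),
  (∀ x, x ∈ p.ring ↔ x = 0 ∨ v x ≤ 0) → IsGenus K g

/-- GMK (uses Crv.VALO Crv.POL GFF GPT GLN GGN): the marked curve. -/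
def Stmt_GMK : Prop := ∀ (g : ℕ) (K : Type) [Field K] [Algebra ℂ K] (R : Subalgebra ℂ K)
  (v : K → ℤ), CR g K R v → ∀ (y : Fin (g + 1) → K) (c : Idx g → ℂ),
  (∀ i : Fin (g + 1), y i ∈ R ∧ y i ≠ 0 ∧ v (y i) = (g : ℤ) + 1 + (i : ℕ)) →
  (∀ i j, y i * y j = ∑ l : Fin 4, ∑ m : Fin (g + 1),
    c (i, j, l, m) • (y 0 ^ (l : ℕ) * (if m = 0 then 1 else y m))) →
  ∃ X : MarkedCurve g, X.c = c

/-- GSM (uses GVL GOD GGD GRA GGR GIT GSW GSU GTB GCK GMK): smoothing. -/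
def Stmt_GSM : Prop := Stmt_SMO

end Pool.Agent.RTB
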