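import Mathlib

/-!
# MP_7b271a_ag, squad RTB: definitions for the polynomial part (special fibre)

`L` is an algebraically closed field of characteristic 0, `F` a monic separable polynomial (its
roots are the cusps).
-/

set_option autoImplicit false

open Polynomial

namespace Pool.Agent.RTB

section
variable {L : Type} [Field L]

/-- Wronskian of two polynomials -/
noncomputable def wr (a b : L[X]) : L[X] := a * derivative b - derivative a * b

/-- the differential operator of order 2 with kernel `⟨f1, f2⟩` -/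
noncomputable def Dh (f1 f2 v : L[X]) : L[X] :=
  wr f1 f2 * derivative (derivative v) - derivative (wr f1 f2) * derivative v
    + wr (derivative f1) (derivative f2) * v

/-- if `wr f1 f2 = F * l` and `l` has degree at most 1 then `Dh f1 f2 (l^2 * m) = l^2 * Dl F l f1 f2 m` -/
noncomputable def Dl (F l f1 f2 m : L[X]) : L[X] :=
  F * l * derivative (derivative m)
    + (3 * (F * derivative l) - derivative F * l) * derivative m
    + (wr (derivative f1) (derivative f2) - 2 * (derivative F * derivative l)) * m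

/-- monic separable of degree `g` -/
structure FF (F : L[X]) (g : ℕ) : Prop where
  mon : F.Monic
  sep : F.Separable
  deg : F.natDegree = g

/-- pencil of type N -/
structure PN (F : L[X]) (k : ℕ) (f1 f2 l : L[X]) : Prop where
  d1 : f1.natDegree ≤ k
  d2 : f2.natDegree ≤ k
  hw : wr f1 f2 = F * l
  l0 : l ≠ 0
  dl : l.natDegree ≤ 1

/-- polynomials of degree at most `n` -/
noncomputable def PL (L : Type) [Field L] (n : ℕ) : Submodule L L[X] where
  carrier := {p | p.natDegree ≤ n}
  zero_mem' := by simp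
  add_mem' := fun {a b} ha hb => by
    exact le_trans (natDegree_add_le a b) (max_le ha hb)
  smul_mem' := fun c p hp => le_trans (natDegree_smul_le c p) hp

/-- the functions of degree at most `n` on the cuspidal curve -/
noncomputable def RF (F : L[X]) (n : ℕ) : Submodule L L[X] where
  carrier := {p | p.natDegree ≤ n ∧ F ∣ derivative p}
  zero_mem' := by simp
  add_mem' := fun {a b} ha hb => by
    refine ⟨le_trans (natDegree_add_le a b) (max_le ha.1 hb.1), ?_⟩
    rw [derivative_add]; exact dvd_add ha.2 hb.2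
  smul_mem' := fun c p hp => by
    refine ⟨le_trans (natDegree_smul_le c p) hp.1, ?_⟩
    rw [derivative_smul, smul_eq_C_mul]; exact Dvd.dvd.mul_left hp.2 _

/-- polynomials of degree at most `M` whose 1-jets at the roots `c` of `F` are proportional to
`(1, lam c)` -/
noncomputable def QF (F : L[X]) (lam : L → L) (M : ℕ) : Submodule L L[X] where
  carrier := {p | p.natDegree ≤ M ∧
    ∀ c, F.eval c = 0 → (derivative p).eval c = lam c * p.eval c}
  zero_mem' := by simp
  add_mem' := fun {a b} ha hb => by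
    refine ⟨le_trans (natDegree_add_le a b) (max_le ha.1 hb.1), fun c hc => ?_⟩
    rw [derivative_add, eval_add, eval_add, ha.2 c hc, hb.2 c hc]; ring
  smul_mem' := fun s p hp => by
    refine ⟨le_trans (natDegree_smul_le s p) hp.1, fun c hc => ?_⟩
    rw [derivative_smul, eval_smul, eval_smul, hp.2 c hc]
    simp only [smul_eq_mul]; ring

/-- the 1-jets of `U` at `c` lie on the line of `(1, lam)` -/
def tI (U : Submodule L L[X]) (c : L) : Prop :=
  ∃ lam : L, ∀ u ∈ U, (derivative u).eval c = lam * u.eval c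

/-- the 1-jets of `U` at `c` lie on a line -/
def tline (U : Submodule L L[X]) (c : L) : Prop :=
  ∀ u ∈ U, ∀ v ∈ U, u.eval c * (derivative v).eval c = (derivative u).eval c * v.eval c

/-- no common root -/
def coprimeFam (U : Submodule L L[X]) : Prop := ∀ c : L, ∃ u ∈ U, u.eval c ≠ 0

open Classical in
/-- the roots of `F` at which `U` is of type II -/
noncomputable def sig (F : L[X]) (U : Submodule L L[X]) : Finset L :=
  F.roots.toFinset.filter (fun c => ¬ tI U c)

/-- `Dl` as a linear map -/
noncomputable def DlLin (F l f1 f2 : L[X]) : L[X] →ₗ[L] L[X] where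
  toFun := Dl F l f1 f2
  map_add' := fun a b => by simp only [Dl, derivative_add]; ring
  map_smul' := fun c a => by
    simp only [Dl, smul_eq_C_mul, derivative_mul, derivative_C, zero_mul, zero_add,
      RingHom.id_apply]; ring

/-- `Dh` as a linear map -/
noncomputable def DhLin (f1 f2 : L[X]) : L[X] →ₗ[L] L[X] where
  toFun := Dh f1 f2
  map_add' := fun a b => by simp only [Dh, derivative_add]; ring
  map_smul' := fun c a => by
    simp only [Dh, smul_eq_C_mul, derivative_mul, derivative_C, zero_mul, zero_add,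
      RingHom.id_apply]; ring

/-- the values of `Dl` on polynomials of degree at most `M` -/
noncomputable def DlSp (F l f1 f2 : L[X]) (M : ℕ) : Submodule L L[X] :=
  (PL L M).map (DlLin F l f1 f2)

/-- the values of `Dh` on polynomials of degree at most `M` -/
noncomputable def DhSp (f1 f2 : L[X]) (M : ℕ) : Submodule L L[X] :=
  (PL L M).map (DhLin f1 f2)

/-- the weak form of the relation property: `wh ω / (γ * w0)` is the extension datum `n(ω)`;
every relation with coefficients in `RF F N` of elements of `P` gives an element `q` satisfying the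
conditions of the pencil `f1, f2` at the roots of `A` -/
def RPh (F A f1 f2 : L[X]) (k : ℕ) (P : Submodule L L[X]) (w0 γ : L[X])
    (wh : L[X] →ₗ[L] L[X]) (N : ℕ) : Prop :=
  ∀ (m : ℕ) (r ω : Fin m → L[X]), (∀ i, r i ∈ RF F N) → (∀ i, ω i ∈ P) →
    ∑ i, r i * ω i = 0 →
    ∃ q : L[X], q.natDegree ≤ N + k ∧ A ∣ wr f1 q ∧ A ∣ wr f2 q ∧
      ∑ i, r i * wh (ω i) = γ * w0 * q

/-- the strong form: the element `q` is in `RF F N * Lam` -/
def RPs (F : L[X]) (Lam P : Submodule L L[X]) (w0 γ : L[X])
    (wh : L[X] →ₗ[L] L[X]) (N : ℕ) : Prop :=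
  ∀ (m : ℕ) (r ω : Fin m → L[X]), (∀ i, r i ∈ RF F N) → (∀ i, ω i ∈ P) →
    ∑ i, r i * ω i = 0 →
    ∃ q ∈ RF F N * Lam, ∑ i, r i * wh (ω i) = γ * w0 * q

/-- the local condition at `c` on `w = w0 * n` -/
def Jc (f1 f2 w0 w : L[X]) (c : L) : Prop :=
  (w0 * wr f1 w - f1 * w * derivative w0).eval c = 0 ∧
  (w0 * wr f2 w - f2 * w * derivative w0).eval c = 0

theorem mem_PL {n : ℕ} {p : L[X]} : p ∈ PL L n ↔ p.natDegree ≤ n := Iff.rfl

theorem mem_RF {F : L[X]} {n : ℕ} {p : L[X]} :
    p ∈ RF F n ↔ p.natDegree ≤ n ∧ F ∣ derivative p := Iff.rfl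

theorem mem_QF {F : L[X]} {lam : L → L} {M : ℕ} {p : L[X]} :
    p ∈ QF F lam M ↔ p.natDegree ≤ M ∧
      ∀ c, F.eval c = 0 → (derivative p).eval c = lam c * p.eval c := Iff.rfl

theorem mem_DlSp {F l f1 f2 p : L[X]} {M : ℕ} :
    p ∈ DlSp F l f1 f2 M ↔ ∃ m : L[X], m.natDegree ≤ M ∧ Dl F l f1 f2 m = p := by
  simp only [DlSp, Submodule.mem_map, mem_PL]; rfl

theorem mem_DhSp {f1 f2 p : L[X]} {M : ℕ} :
    p ∈ DhSp f1 f2 M ↔ ∃ m : L[X], m.natDegree ≤ M ∧ Dh f1 f2 m = p := by
  simp only [DhSp, Submodule.mem_map, mem_PL]; rfl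

/-- basic identity: for `f` in the pencil, `f * Dh v = wr (wr f1 f2) (wr f v)` -/
theorem key_identity (f1 f2 v : L[X]) (a b : L) :
    (C a * f1 + C b * f2) * Dh f1 f2 v = wr (wr f1 f2) (wr (C a * f1 + C b * f2) v) := by
  simp only [wr, Dh, derivative_add, derivative_sub, derivative_mul, derivative_C, zero_mul,
    zero_add]
  ring

theorem key1 (f1 f2 v : L[X]) : f1 * Dh f1 f2 v = wr (wr f1 f2) (wr f1 v) := by
  simp only [wr, Dh, derivative_sub, derivative_mul]
  ring

theorem key2 (f1 f2 v : L[X]) : f2 * Dh f1 f2 v = wr (wr f1 f2) (wr f2 v) := by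
  simp only [wr, Dh, derivative_sub, derivative_mul]
  ring

/-- `v * Dh u - u * Dh v` is the Wronskian of `wr f1 f2` and `wr v u` -/
theorem key_uv (f1 f2 u v : L[X]) :
    v * Dh f1 f2 u - u * Dh f1 f2 v = wr (wr f1 f2) (wr v u) := by
  simp only [wr, Dh, derivative_sub, derivative_mul]
  ring

theorem Dh_self1 (f1 f2 : L[X]) : Dh f1 f2 f1 = 0 := by
  simp only [wr, Dh, derivative_sub, derivative_mul]
  ring

theorem Dh_self2 (f1 f2 : L[X]) : Dh f1 f2 f2 = 0 := by
  simp only [wr, Dh, derivative_sub, derivative_mul]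
  ring

theorem Dh_eq_Dl {F l f1 f2 : L[X]} (hw : wr f1 f2 = F * l)
    (hl : derivative (derivative l) = 0) (m : L[X]) :
    Dh f1 f2 (l ^ 2 * m) = l ^ 2 * Dl F l f1 f2 m := by
  have h1 : derivative (l ^ 2 * m) = 2 * l * derivative l * m + l ^ 2 * derivative m := by
    rw [pow_two, derivative_mul, derivative_mul]; ring
  have h2 : derivative (derivative (l ^ 2 * m)) = 2 * derivative l ^ 2 * m
      + 4 * l * derivative l * derivative m + l ^ 2 * derivative (derivative m) := by
    rw [h1]
    have : derivative (2 : L[X]) = 0 := by simp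
    simp only [derivative_add, derivative_mul, hl, this, pow_two]
    ring
  simp only [Dl, Dh]
  rw [hw, h2, h1]
  simp only [derivative_mul]
  ring

theorem wr_l_cancel (l x y : L[X]) : wr (l * x) (l * y) = l ^ 2 * wr x y := by
  simp only [wr, derivative_mul]; ring

/-- the third commutator of `Dh ⊗ Dh'` -/
theorem T3_identity (f1 f2 g1 g2 T a b : L[X]) (hT : derivative T = 1) :
    Dh f1 f2 (T ^ 3 * a) * Dh g1 g2 b - 3 * (Dh f1 f2 (T ^ 2 * a) * Dh g1 g2 (T * b))
      + 3 * (Dh f1 f2 (T * a) * Dh g1 g2 (T ^ 2 * b)) - Dh f1 f2 a * Dh g1 g2 (T ^ 3 * b)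
    = 12 * (wr f1 f2 * wr g1 g2) * (derivative a * b - a * derivative b)
      + 6 * (wr f1 f2 * derivative (wr g1 g2) - derivative (wr f1 f2) * wr g1 g2) * (a * b) := by
  have d1 : ∀ a : L[X], derivative (T * a) = a + T * derivative a := fun a => by
    rw [derivative_mul, hT]; ring
  have d2 : ∀ a : L[X], derivative (T ^ 2 * a) = 2 * (T * a) + T ^ 2 * derivative a := fun a => by
    rw [pow_two, mul_assoc, d1, d1]; ring
  have d3 : ∀ a : L[X], derivative (T ^ 3 * a) = 3 * (T ^ 2 * a) + T ^ 3 * derivative a :=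
    fun a => by rw [pow_succ', mul_assoc, d1, d2]; ring
  have e2 : derivative (2 : L[X]) = 0 := by simp
  have e3 : derivative (3 : L[X]) = 0 := by simp
  have dd1 : ∀ a : L[X], derivative (derivative (T * a))
      = 2 * derivative a + T * derivative (derivative a) := fun a => by
    rw [d1, derivative_add, d1]; ring
  have dd2 : ∀ a : L[X], derivative (derivative (T ^ 2 * a))
      = 2 * a + 4 * (T * derivative a) + T ^ 2 * derivative (derivative a) := fun a => by
    rw [d2, derivative_add, derivative_mul, e2, d1, d2]; ring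
  have dd3 : ∀ a : L[X], derivative (derivative (T ^ 3 * a))
      = 6 * (T * a) + 6 * (T ^ 2 * derivative a) + T ^ 3 * derivative (derivative a) :=
    fun a => by rw [d3, derivative_add, derivative_mul, e3, d2, d3]; ring
  simp only [Dh, dd1, dd2, dd3]
  simp only [d1, d2, d3]
  ring

/-- for `f` in the pencil, `f * Dl m` is the Wronskian of `F` and a polynomial -/
theorem Dl_G {F l f1 f2 : L[X]} (hw : wr f1 f2 = F * l) (hl : derivative (derivative l) = 0)
    (hl0 : l ≠ 0) (m : L[X]) (a b : L) :
    (C a * f1 + C b * f2) * Dl F l f1 f2 m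
      = wr F ((C a * f1 + C b * f2) * (2 * derivative l * m + l * derivative m)
          - derivative (C a * f1 + C b * f2) * (l * m)) := by
  have h1 := key_identity f1 f2 (l ^ 2 * m) a b
  rw [Dh_eq_Dl hw hl, hw] at h1
  generalize hf : C a * f1 + C b * f2 = f at h1 ⊢
  have h2 : wr f (l ^ 2 * m) = l * (f * (2 * derivative l * m + l * derivative m)
      - derivative f * (l * m)) := by
    have h3 : derivative (l ^ 2 * m) = 2 * l * derivative l * m + l ^ 2 * derivative m := by
      rw [pow_two, derivative_mul, derivative_mul]; ring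
    rw [wr, h3]; ring
  rw [h2, mul_comm F l, wr_l_cancel] at h1
  have h4 : l ^ 2 * (f * Dl F l f1 f2 m) = l ^ 2 * wr F (f * (2 * derivative l * m
      + l * derivative m) - derivative f * (l * m)) := by
    rw [← h1]; ring
  exact mul_left_cancel₀ (pow_ne_zero 2 hl0) h4

theorem der2_of_natDegree_le_one {l : L[X]} (h : l.natDegree ≤ 1) :
    derivative (derivative l) = 0 := by
  rw [eq_X_add_C_of_natDegree_le_one h]
  simp

/-- `D3 p = T^5 * Dh (p / T^3)` -/
noncomputable def D3 (T f1 f2 p : L[X]) : L[X] :=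
  wr f1 f2 * (T ^ 2 * derivative (derivative p) - 6 * (T * derivative p) + 12 * p)
    - derivative (wr f1 f2) * (T ^ 2 * derivative p - 3 * (T * p))
    + wr (derivative f1) (derivative f2) * (T ^ 2 * p)

theorem D3_mul (T f1 f2 v : L[X]) (hT : derivative T = 1) :
    D3 T f1 f2 (T ^ 3 * v) = T ^ 5 * Dh f1 f2 v := by
  have d3 : ∀ a : L[X], derivative (T ^ 3 * a) = 3 * (T ^ 2 * a) + T ^ 3 * derivative a :=
    fun a => by
      rw [show T ^ 3 = T * T * T by ring, derivative_mul, derivative_mul, derivative_mul, hT]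
      ring
  have d2 : ∀ a : L[X], derivative (T ^ 2 * a) = 2 * (T * a) + T ^ 2 * derivative a := fun a => by
    rw [pow_two, derivative_mul, derivative_mul, hT]; ring
  have e3 : derivative (3 : L[X]) = 0 := by simp
  have dd3 : derivative (derivative (T ^ 3 * v))
      = 6 * (T * v) + 6 * (T ^ 2 * derivative v) + T ^ 3 * derivative (derivative v) := by
    rw [d3, derivative_add, derivative_mul, e3, d2, d3]; ring
  simp only [D3, Dh, dd3]
  simp only [d3]
  ring

/-- local condition for `w2 = T^2 * w` -/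
def JcT (T f1 f2 w0 w2 : L[X]) (c : L) : Prop :=
  (w0 * (f1 * (derivative w2 * T - 2 * w2) - derivative f1 * w2 * T)
    - f1 * w2 * derivative w0 * T).eval c = 0 ∧
  (w0 * (f2 * (derivative w2 * T - 2 * w2) - derivative f2 * w2 * T)
    - f2 * w2 * derivative w0 * T).eval c = 0

/-- the matrix of Wronskian-type products of monomials -/
noncomputable def muX (f1 f2 : L[X]) (i j : ℕ) : L[X] :=
  X ^ i * Dh f1 f2 (X ^ j) - X ^ j * Dh f1 f2 (X ^ i)

/-- generators of the known relations -/
def KS (F f1 f2 : L[X]) (k n : ℕ) : Set (Fin k → Fin k → L[X]) :=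
  {M | ∃ ρ ∈ RF F n, ∃ κ : Fin k → Fin k → L,
      ∑ i, ∑ j, C (κ i j) * muX f1 f2 i j = 0 ∧ M = fun i j => C (κ i j) * ρ} ∪
  {M | ∃ s : Fin k → L[X], (∀ i, s i ∈ RF F n) ∧ ∑ i, s i * X ^ (i : ℕ) = 0 ∧
      ∑ i, s i * Dh f1 f2 (X ^ (i : ℕ)) = 0 ∧
      ∃ j0 : Fin k, M = fun i j => if j = j0 then s i else 0}

end

end Pool.Agent.RTB
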