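import Pool.Agent.RTB.Defs
import Pool.Agent.RTB.SDefs

/-!
# squad RTB: the finite dimensional data and the reduction context
-/

set_option autoImplicit false

open Polynomial

namespace Pool.Agent.RTB

section
variable {k0 K : Type} [Field k0] [Field K] [Algebra k0 K]

/-- the space spanned by the products `r • u` -/
def smSp (R : Submodule k0 K) (U : Submodule k0 (Fin 2 → K)) : Submodule k0 (Fin 2 → K) :=
  Submodule.span k0 {x | ∃ r ∈ R, ∃ u ∈ U, x = r • u}

/-- the space spanned by the determinants of the `s i` -/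
def detSp {k : ℕ} (k0 : Type) [Field k0] [Algebra k0 K] (s : Fin k → Fin 2 → K) :
    Submodule k0 K :=
  Submodule.span k0 {x | ∃ i j, x = det2 (s i) (s j)}

/-- the data of a space of sections of a bundle of rank 2, `g = 2k-3` -/
structure Dat (k0 : Type) [Field k0] [Algebra k0 K] (g k : ℕ) (R : ℕ → Submodule k0 K)
    (s : Fin k → Fin 2 → K) (f : K) : Prop where
  f0 : f ≠ 0
  ind : LinearIndependent k0 s
  spn : ∃ i j, det2 (s i) (s j) ≠ 0
  mem : ∀ i j, f * det2 (s i) (s j) ∈ R (3 * g)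
  da : ∀ n, 2 * g ≤ n →
    Module.finrank k0 (smSp (R n) (Submodule.span k0 (Set.range s))) ≤ 2 * n
  db : ∀ U : Submodule k0 (Fin 2 → K), U ≤ Submodule.span k0 (Set.range s) →
    (∀ u ∈ U, ∀ v ∈ U, det2 u v = 0) → ∀ n, 2 * g ≤ n → Module.finrank k0 (smSp (R n) U) ≤ n
  dc : Module.finrank k0 (detSp k0 s) ≤ g - 1
  dd : ∀ n, 2 * g ≤ n →
    Module.finrank k0 (smSp (R n) (Submodule.span k0 (Set.range s))) = 2 * n →
    ∀ m, 4 * g ≤ m → Module.finrank k0 (R m * detSp k0 s : Submodule k0 K) = m + g - 1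

/-- the rank 1 alternative -/
def Dat1 (k0 : Type) [Field k0] [Algebra k0 K] (g k : ℕ) (R : ℕ → Submodule k0 K) : Prop :=
  ∃ U : Submodule k0 K, U ≤ R (3 * g) ∧ Module.finrank k0 U = k ∧
    ∀ n, 2 * g ≤ n → Module.finrank k0 (R n * U : Submodule k0 K) ≤ n

/-- the filtration defined by a sequence `β` (`β 0` has pole order `0`, `β j` has pole order
`g + j` for `j ≥ 1`) -/
def Rn (k0 : Type) [Field k0] [Algebra k0 K] (g : ℕ) (β : ℕ → K) (n : ℕ) : Submodule k0 K :=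
  Submodule.span k0 (β '' Set.Iic (n - g))

end

/-- reduction context: `Kf` is the valued field, `Lf` the function field, `κ` the residue field -/
structure IsCtx (g : ℕ) {Kf Lf κ : Type} [Field Kf] [Field Lf] [Algebra Kf Lf] [Field κ]
    (O : ValuationSubring Kf) (red : O →+* κ) (β : ℕ → Lf) (F : κ[X]) (βF : ℕ → κ[X]) :
    Prop where
  surj : Function.Surjective red
  ker : ∀ x : O, red x = 0 ↔ ¬ IsUnit x
  ind : LinearIndependent Kf β
  b0 : β 0 = 1
  mul : ∀ i j, ∃ a : ℕ → O,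
    β i * β j = ∑ l ∈ Finset.range (i + j + g + 1), (a l : Kf) • β l ∧
    βF i * βF j = ∑ l ∈ Finset.range (i + j + g + 1), C (red (a l)) * βF l
  ff : FF F g
  bF0 : βF 0 = 1
  bFdeg : ∀ j, 1 ≤ j → (βF j).natDegree = g + j
  bFdvd : ∀ j, F ∣ derivative (βF j)

/-- the reduction relation -/
def Red {Kf Lf κ : Type} [Field Kf] [Field Lf] [Algebra Kf Lf] [Field κ]
    (O : ValuationSubring Kf) (red : O →+* κ) (β : ℕ → Lf) (βF : ℕ → κ[X]) (x : Lf) (p : κ[X]) :
    Prop :=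
  ∃ (N : ℕ) (a : ℕ → O), x = ∑ j ∈ Finset.range N, (a j : Kf) • β j ∧
    p = ∑ j ∈ Finset.range N, C (red (a j)) * βF j

/-- Theorem K -/
def Stmt_THK : Prop := ∀ (Kf Lf κ : Type) [Field Kf] [Field Lf] [Algebra Kf Lf] [Field κ]
  [CharZero Kf] [IsAlgClosed Kf] [CharZero κ] [IsAlgClosed κ] (k : ℕ)
  (O : ValuationSubring Kf) (red : O →+* κ) (β : ℕ → Lf) (F : κ[X]) (βF : ℕ → κ[X]),
  9 ≤ k → IsCtx (2 * k - 3) O red β F βF →
  ∀ (s : Fin k → Fin 2 → Lf) (f : Lf),
    Dat Kf (2 * k - 3) k (Rn Kf (2 * k - 3) β) s f → False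

/-- Theorem K, rank 1 alternative -/
def Stmt_THA : Prop := ∀ (Kf Lf κ : Type) [Field Kf] [Field Lf] [Algebra Kf Lf] [Field κ]
  [CharZero Kf] [IsAlgClosed Kf] [CharZero κ] [IsAlgClosed κ] (k : ℕ)
  (O : ValuationSubring Kf) (red : O →+* κ) (β : ℕ → Lf) (F : κ[X]) (βF : ℕ → κ[X]),
  9 ≤ k → IsCtx (2 * k - 3) O red β F βF →
  ¬ Dat1 Kf (2 * k - 3) k (Rn Kf (2 * k - 3) β)

/-! ### the basis of the ring of a marked curve and its multiplication table -/

/-- the functions `β j` of a marked curve: `β 0 = 1` and, for `j ≥ 1`, the product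
`y0^(q-1) * y_m` of exact pole order `g + j = (g+1) q + m` -/
def MarkedCurve.β {g : ℕ} (X : MarkedCurve g) (j : ℕ) : X.K :=
  if j = 0 then 1 else X.y 0 ^ ((g + j) / (g + 1) - 1) *
    X.y ⟨(g + j) % (g + 1), Nat.mod_lt _ (Nat.succ_pos g)⟩

/-- the index of `y0^e * (1 or y_m)`: pole order `(g+1) e` resp. `(g+1)(e+1) + m` -/
def bidx (g e m : ℕ) : ℕ := if m = 0 then (if e = 0 then 0 else (g + 1) * e - g)
  else (g + 1) * (e + 1) + m - g

/-- the structure constants `γ i j l`, linear in the table `c`, over any commutative ring -/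
def gam (g : ℕ) {A : Type} [CommRing A] (c : Idx g → A) (i j l : ℕ) : A :=
  if i = 0 then (if l = j then 1 else 0) else
  if j = 0 then (if l = i then 1 else 0) else
  ∑ e : Fin 4, ∑ m : Fin (g + 1),
    if bidx g ((g + i) / (g + 1) - 1 + ((g + j) / (g + 1) - 1) + e) m = l then
      c (⟨(g + i) % (g + 1), Nat.mod_lt _ (Nat.succ_pos g)⟩,
        ⟨(g + j) % (g + 1), Nat.mod_lt _ (Nat.succ_pos g)⟩, e, m) else 0

/-- the function `y i` on the cuspidal curve with `F = t^g - 1`, with derivative `F * t^i` -/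
noncomputable def yF (g : ℕ) (A : Type) [Field A] (i : ℕ) : A[X] :=
  C ((g + i + 1 : A)⁻¹) * X ^ (g + i + 1) - C ((i + 1 : A)⁻¹) * X ^ (i + 1)

/-- the functions `β j` on the cuspidal curve -/
noncomputable def bF (g : ℕ) (A : Type) [Field A] (j : ℕ) : A[X] :=
  if j = 0 then 1 else yF g A 0 ^ ((g + j) / (g + 1) - 1) * yF g A ((g + j) % (g + 1))

/-- the table of the cuspidal curve -/
def IsCF (g : ℕ) (cF : Idx g → ℚ) : Prop :=
  ∀ i j : Fin (g + 1), yF g ℚ i * yF g ℚ j = ∑ l : Fin 4, ∑ m : Fin (g + 1),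
    C (cF (i, j, l, m)) * (yF g ℚ 0 ^ (l : ℕ) * (if m = 0 then 1 else yF g ℚ m))

/-- the ring of functions regular outside the marked point -/
noncomputable def MarkedCurve.R {g : ℕ} (X : MarkedCurve g) (n : ℕ) : Submodule ℂ X.K :=
  ⨅ q, polar X.pt n q

/-- facts on the basis of a marked curve (curve theory part) -/
def Stmt_TBB : Prop := ∀ (g : ℕ) (X : MarkedCurve g), 1 ≤ g →
  LinearIndependent ℂ X.β ∧ (∀ n, X.R n = Rn ℂ g X.β n) ∧
  (∀ i j, X.β i * X.β j = ∑ l ∈ Finset.range (i + j + g + 1), gam g X.c i j l • X.β l)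

/-- the data of a bad bundle (curve theory part) -/
def Stmt_TDA : Prop := ∀ (k : ℕ) (X : MarkedCurve (2 * k - 3)) (E : VB2 X.K), 9 ≤ k →
  E.Semistable → deg E.det = 2 * ((2 * k - 3 : ℕ) : ℤ) - 2 → h0 E.det < 2 * k - 3 →
  ¬ (2 * E.h0 ≤ (2 * k - 3) + 1) →
  Dat1 ℂ (2 * k - 3) k X.R ∨
    ∃ (s : Fin k → Fin 2 → X.K) (f : X.K), Dat ℂ (2 * k - 3) k X.R s f

/-- the table of the cuspidal curve exists, and the structure constants are right -/
def Stmt_CFT : Prop := ∀ g : ℕ, 1 ≤ g → ∃ cF : Idx g → ℚ, IsCF g cF ∧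
  ∀ (A : Type) [Field A] [CharZero A] (i j : ℕ),
    bF g A i * bF g A j = ∑ l ∈ Finset.range (i + j + g + 1),
      C (gam g (fun x => (algebraMap ℚ A (cF x))) i j l) * bF g A l

/-- smoothing: a marked curve whose table reduces to the table of the cuspidal curve -/
def Stmt_SMO : Prop := ∀ (g : ℕ) (cF : Idx g → ℚ), Odd g → 3 ≤ g → IsCF g cF →
  ∃ (X : MarkedCurve g) (κ : Type) (_ : Field κ) (_ : CharZero κ) (O : ValuationSubring ℂ)
    (red : O →+* κ) (cO : Idx g → O), (∀ x, (cO x : ℂ) = X.c x) ∧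
    ∀ x, red (cO x) = algebraMap ℚ κ (cF x)

end Pool.Agent.RTB
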