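import Pool.Agent.RTB.SDefs

/-!
# squad RTB: statements of the modules of the polynomial part

Module `XYZ` proves `theorem xyz_proof : Stmt_XYZ` (with the statements listed in `uses` as
hypotheses) in the file `Pool/Agent/RTB/XYZ.lean`.
-/

set_option autoImplicit false

open Polynomial

namespace Pool.Agent.RTB

/-- Wronskian degree bounds: reduce to monomials by multilinearity (top coefficients cancel) -/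
def Stmt_WDG : Prop := ∀ (L : Type) [Field L] (n : ℕ) (a b c : L[X]),
  a.natDegree ≤ n → b.natDegree ≤ n → c.natDegree ≤ n →
  (wr a b).natDegree ≤ 2 * n - 2 ∧ (Dh a b c).natDegree ≤ 3 * n - 6

/-- vanishing Wronskian -/
def Stmt_WZR : Prop := ∀ (L : Type) [Field L] [CharZero L] (a b : L[X]),
  wr a b = 0 → a ≠ 0 → ∃ c : L, b = C c * a

/-- kernel of `Dh` on polynomials -/
def Stmt_KER : Prop := ∀ (L : Type) [Field L] [CharZero L] (f1 f2 v : L[X]),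
  wr f1 f2 ≠ 0 → Dh f1 f2 v = 0 → ∃ a b : L, v = C a * f1 + C b * f2

open Classical in
/-- Hermite interpolation at the roots of `F` -/
def Stmt_HIN : Prop := ∀ (L : Type) [Field L] [CharZero L] [IsAlgClosed L] (F : L[X]) (g : ℕ),
  FF F g →
  F.roots.toFinset.card = g ∧
  (∀ c : L, F.eval c = 0 → (derivative F).eval c ≠ 0) ∧
  (∀ p : L[X], (∀ c, F.eval c = 0 → p.eval c = 0) → F ∣ p) ∧
  (∀ p : L[X], (∀ c, F.eval c = 0 → p.eval c = 0 ∧ (derivative p).eval c = 0) → F ^ 2 ∣ p) ∧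
  (1 ≤ g → ∀ a b : L → L, ∃ p : L[X], p.natDegree ≤ 2 * g - 1 ∧
    ∀ c, F.eval c = 0 → p.eval c = a c ∧ (derivative p).eval c = b c) ∧
  (1 ≤ g → ∀ a : L → L, ∃ p : L[X], p.natDegree ≤ g - 1 ∧ ∀ c, F.eval c = 0 → p.eval c = a c)

/-- the residue lemma -/
def Stmt_RSL : Prop := ∀ (L : Type) [Field L] [CharZero L] [IsAlgClosed L] (F : L[X]) (g : ℕ),
  FF F g → 1 ≤ g → ∀ f : L[X], f.natDegree ≤ 2 * g - 1 →
  (∀ c, F.eval c = 0 → (derivative f).eval c * (derivative F).eval c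
      = (derivative (derivative F)).eval c * f.eval c) →
  ∃ h : L[X], h.natDegree ≤ g - 1 ∧ f = wr F h

/-- general bound from the Wronskian of `h` functions: `(h-1)|S| ≤ h(D+1-h)` -/
def Stmt_BNG : Prop := ∀ (L : Type) [Field L] [CharZero L] (U : Submodule L L[X])
  (h D : ℕ) (S : Finset L), FiniteDimensional L U → Module.finrank L U = h → 1 ≤ h →
  (∀ u ∈ U, u.natDegree ≤ D) → (∀ c ∈ S, tline U c) →
  (h - 1) * S.card + h * h ≤ h * (D + 1)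

def Stmt_BN3 : Prop := ∀ (L : Type) [Field L] [CharZero L] (U : Submodule L L[X])
  (M : ℕ) (S : Finset L), FiniteDimensional L U → (∀ u ∈ U, u.natDegree ≤ M) →
  (∀ c ∈ S, tline U c) → 3 * M < 2 * S.card + 6 → Module.finrank L U ≤ 2

/-- duality (Riemann-Roch on the cuspidal curve) -/
def Stmt_DUA : Prop := ∀ (L : Type) [Field L] [CharZero L] [IsAlgClosed L] (F : L[X]) (g : ℕ),
  FF F g → 1 ≤ g → ∀ (lam mu : L → L) (M M' : ℕ),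
  (∀ c, F.eval c = 0 → (lam c + mu c) * (derivative F).eval c
      = (derivative (derivative F)).eval c) → M + M' = 2 * g - 2 →
  Module.finrank L (QF F mu M') + g = M' + 1 + Module.finrank L (QF F lam M)

/-- facts on pencils of type N -/
def Stmt_PNX : Prop := ∀ (L : Type) [Field L] [CharZero L] [IsAlgClosed L] (F f1 f2 l : L[X])
  (k : ℕ), 4 ≤ k → FF F (2 * k - 3) → PN F k f1 f2 l →
  (∃ a b : L, (C a * f1 + C b * f2).natDegree = k) ∧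
  (∀ c, f1.eval c = 0 → f2.eval c = 0 → F.eval c = 0 ∧ l.eval c = 0 ∧
    ((derivative f1).eval c ≠ 0 ∨ (derivative f2).eval c ≠ 0) ∧
    (wr (derivative f1) (derivative f2)).eval c = (derivative (derivative (F * l))).eval c) ∧
  (∀ m : L[X], m.natDegree ≤ k - 2 → (Dl F l f1 f2 m).natDegree ≤ 3 * k - 8) ∧
  (∀ (m : L[X]) (c : L), F.eval c = 0 → ∀ f : L[X], f = f1 ∨ f = f2 →
    (derivative (f * Dl F l f1 f2 m)).eval c * (derivative F).eval c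
      = (derivative (derivative F)).eval c * (f * Dl F l f1 f2 m).eval c) ∧
  (∀ (m : L[X]) (c : L), f1.eval c = 0 → f2.eval c = 0 → (Dl F l f1 f2 m).eval c = 0)

/-- structure of `Λ`, first form -/
def Stmt_LSA : Prop := ∀ (L : Type) [Field L] [CharZero L] [IsAlgClosed L] (F : L[X]) (k : ℕ)
  (Lam : Submodule L L[X]), 2 ≤ k → FF F (2 * k - 3) → Module.finrank L Lam = 2 →
  (∀ u ∈ Lam, u.natDegree ≤ k) → (∀ c, F.eval c = 0 → tline Lam c) →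
  ∃ f1 f2 l : L[X], PN F k f1 f2 l ∧ Lam = Submodule.span L {f1, f2}

/-- structure of `Λ`, second form -/
def Stmt_LSB : Prop := ∀ (L : Type) [Field L] [CharZero L] [IsAlgClosed L] (A : L[X]) (k : ℕ)
  (Lam : Submodule L L[X]), 2 ≤ k → FF A (2 * k - 4) → Module.finrank L Lam = 2 →
  (∀ u ∈ Lam, u.natDegree ≤ k - 1) → (∀ c, A.eval c = 0 → tline Lam c) →
  ∃ f1 f2 : L[X], f1.natDegree ≤ k - 1 ∧ f2.natDegree ≤ k - 1 ∧ wr f1 f2 = A ∧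
    Lam = Submodule.span L {f1, f2}

/-- structure of `P`, first form -/
def Stmt_PSA : Prop := ∀ (L : Type) [Field L] [CharZero L] [IsAlgClosed L] (F : L[X]) (k : ℕ)
  (P : Submodule L L[X]), 9 ≤ k → FF F (2 * k - 3) → Module.finrank L P = k - 2 →
  (∀ u ∈ P, u.natDegree ≤ 3 * k - 8) → (∀ c, F.eval c = 0 → tI P c) →
  ∃ g1 g2 l : L[X], PN F k g1 g2 l ∧ (∀ c, F.eval c = 0 → g1.eval c ≠ 0 ∨ g2.eval c ≠ 0) ∧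
    P = DlSp F l g1 g2 (k - 2)

/-- structure of `P`, second form -/
def Stmt_PSB : Prop := ∀ (L : Type) [Field L] [CharZero L] [IsAlgClosed L] (A : L[X]) (k : ℕ)
  (P : Submodule L L[X]), 9 ≤ k → FF A (2 * k - 4) → Module.finrank L P = k - 2 →
  (∀ u ∈ P, u.natDegree ≤ 3 * k - 9) → (∀ c, A.eval c = 0 → tI P c) →
  ∃ g1 g2 : L[X], g1.natDegree ≤ k - 1 ∧ g2.natDegree ≤ k - 1 ∧ wr g1 g2 = A ∧
    P = DhSp g1 g2 (k - 1)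

/-- from the relation property to polynomials `w` -/
def Stmt_SP1 : Prop := ∀ (L : Type) [Field L] [CharZero L] [IsAlgClosed L] (F f1 f2 w0 : L[X])
  (k D g : ℕ) (P : Submodule L L[X]), FF F g → w0 ∈ P → w0.natDegree = D → w0 ≠ 0 →
  (∀ ω ∈ P, ω.natDegree ≤ D) → (∀ c, F.eval c = 0 → w0.eval c ≠ 0) →
  (∀ c, F.eval c = 0 → tI P c ∨ f1.eval c ≠ 0 ∨ f2.eval c ≠ 0) →
  ∃ N0 : ℕ, ∀ N, N0 ≤ N → ∀ (γ : L[X]) (wh : L[X] →ₗ[L] L[X]), γ ≠ 0 → wh w0 = 0 →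
  RPh F F f1 f2 k P w0 γ wh N →
  ∀ ω ∈ P, ∃ w : L[X], wh ω = γ * w ∧ w.natDegree ≤ k + D ∧
    ∀ c, F.eval c = 0 → (tI P c ∨ (ω.eval c = 0 ∧ (derivative ω).eval c = 0)) →
      Jc f1 f2 w0 w c

/-- the same in the case of a double pole at `a` -/
def Stmt_SPC : Prop := ∀ (L : Type) [Field L] [CharZero L] [IsAlgClosed L]
  (A f1 f2 w0 : L[X]) (a : L)
  (K D g : ℕ) (P : Submodule L L[X]), FF A g → A.eval a ≠ 0 → w0 ∈ P → w0.natDegree = D →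
  w0 ≠ 0 → (∀ ω ∈ P, ω.natDegree ≤ D) → (∀ c, A.eval c = 0 → w0.eval c ≠ 0) →
  w0.eval a ≠ 0 → (∀ c, A.eval c = 0 → tI P c) →
  ∃ N0 : ℕ, ∀ N, N0 ≤ N → ∀ (γ : L[X]) (wh : L[X] →ₗ[L] L[X]), γ ≠ 0 → wh w0 = 0 →
  RPh ((X - C a) * A) A f1 f2 K P w0 γ wh N →
  ∀ ω ∈ P, (∃ w2 : L[X], (X - C a) ^ 2 * wh ω = γ * w2 ∧ w2.natDegree ≤ K + D + 2 ∧
      ∀ c, A.eval c = 0 → JcT (X - C a) f1 f2 w0 w2 c) ∧
    (ω.eval a = 0 → (derivative ω).eval a = 0 →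
      ∃ w : L[X], wh ω = γ * w ∧ w.natDegree ≤ K + D ∧ ∀ c, A.eval c = 0 → Jc f1 f2 w0 w c)

/-- the class `C0` modulo `w0` -/
def Stmt_BEZ : Prop := ∀ (L : Type) [Field L] [CharZero L] [IsAlgClosed L]
  (F A f1 f2 w0 T2 : L[X]) (K D : ℕ) (P : Submodule L L[X]), F ≠ 0 → coprimeFam P →
  FiniteDimensional L P → w0 ∈ P → w0.natDegree = D → 1 ≤ D →
  (∀ c, F.eval c = 0 → w0.eval c ≠ 0) → IsCoprime T2 w0 →
  ∃ N0 : ℕ, ∀ N, N0 ≤ N → ∀ (γ : L[X]) (wh : L[X] →ₗ[L] L[X]), γ ≠ 0 →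
  RPh F A f1 f2 K P w0 γ wh N → (∀ ω ∈ P, ∃ w : L[X], T2 * wh ω = γ * w) →
  ∃ C0 : L[X], C0.natDegree < D ∧
    ∀ ω ∈ P, ∀ w : L[X], T2 * wh ω = γ * w → w0 ∣ w - T2 * C0 * ω

/-- products `Dl m * Dl m'` and multiples of `F^2`, first form -/
def Stmt_TNA : Prop := ∀ (L : Type) [Field L] [CharZero L] [IsAlgClosed L]
  (F f1 f2 l g1 g2 l' : L[X]) (k : ℕ), 9 ≤ k → FF F (2 * k - 3) → PN F k f1 f2 l →
  PN F k g1 g2 l' → (∀ c, F.eval c = 0 → g1.eval c ≠ 0 ∨ g2.eval c ≠ 0) →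
  ∀ u : L[X], u.natDegree ≤ 2 * k - 10 →
  F ^ 2 * u ∈ DlSp F l f1 f2 (k - 2) * DlSp F l' g1 g2 (k - 2)

/-- second form -/
def Stmt_TNB : Prop := ∀ (L : Type) [Field L] [CharZero L] [IsAlgClosed L]
  (A f1 f2 l g1 g2 : L[X]) (b : L) (k : ℕ), 9 ≤ k → FF A (2 * k - 4) → A.eval b ≠ 0 →
  PN ((X - C b) * A) k f1 f2 l → (f1.eval b ≠ 0 ∨ f2.eval b ≠ 0) →
  g1.natDegree ≤ k - 1 → g2.natDegree ≤ k - 1 → wr g1 g2 = A →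
  ∀ u : L[X], u.natDegree ≤ 2 * k - 11 →
  ((X - C b) * A) ^ 2 * u ∈ DlSp ((X - C b) * A) l f1 f2 (k - 2) * DhSp g1 g2 (k - 1)

/-- third form -/
def Stmt_TNC : Prop := ∀ (L : Type) [Field L] [CharZero L]
  (A f1 f2 g1 g2 : L[X]) (a : L) (k : ℕ), 9 ≤ k → wr f1 f2 = A → wr g1 g2 = A →
  ∀ s, 3 ≤ s → s ≤ 2 * k - 10 →
  ∃ (n : ℕ) (p q : Fin n → L[X]), (∀ i, (p i).natDegree ≤ k - 1 ∧ (q i).natDegree ≤ k - 1 ∧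
      (X - C a) ^ 4 ∣ q i) ∧
    ∑ i, Dh f1 f2 (p i) * Dh g1 g2 (q i) = A ^ 2 * (X - C a) ^ s

/-- the residue theorem argument -/
def Stmt_RES : Prop := ∀ (L : Type) [Field L] [CharZero L] [IsAlgClosed L]
  (F f1 f2 w0 C0 : L[X]) (g K e D : ℕ) (P Q : Submodule L L[X]) (W : L[X] →ₗ[L] L[X]),
  FF F g → 1 ≤ g → K + e = 2 * g - 2 → w0.natDegree = D → 1 ≤ D →
  (∀ c, F.eval c = 0 → w0.eval c ≠ 0) →
  (∀ m ∈ Q, m.natDegree ≤ e ∧ ∀ c, F.eval c = 0 → ∀ f : L[X], f = f1 ∨ f = f2 →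
    (derivative (f * m)).eval c * (derivative F).eval c
      = (derivative (derivative F)).eval c * (f * m).eval c) →
  (∀ c, F.eval c = 0 → f1.eval c = 0 → f2.eval c = 0 →
    ((derivative f1).eval c ≠ 0 ∨ (derivative f2).eval c ≠ 0) ∧ ∀ m ∈ Q, m.eval c = 0) →
  (∀ ω ∈ P, (W ω).natDegree ≤ K + D ∧ w0 ∣ W ω - C0 * ω) →
  (∀ c, F.eval c = 0 → (∀ ω ∈ P, Jc f1 f2 w0 (W ω) c) ∨
    ((f1.eval c ≠ 0 ∨ f2.eval c ≠ 0) ∧ (wr f1 f2).eval c = 0 ∧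
      ∀ ω ∈ P, ω.eval c = 0 → (derivative ω).eval c = 0 → Jc f1 f2 w0 (W ω) c)) →
  ∀ u : L[X], F ^ 2 * u ∈ Q * P → ((C0 * u) % w0).coeff (D - 1) = 0

/-- degree of `C0` -/
def Stmt_DGC : Prop := ∀ (L : Type) [Field L] (w0 C0 : L[X]) (D M : ℕ), w0.natDegree = D →
  C0.natDegree < D → M + 2 ≤ D → (∀ j ≤ M, ((C0 * X ^ j) % w0).coeff (D - 1) = 0) →
  C0.natDegree ≤ D - 2 - M

/-- local property of `Dh (ν ω)` at a cusp -/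
def Stmt_JPD : Prop := ∀ (L : Type) [Field L] [CharZero L] [IsAlgClosed L]
  (F f1 f2 l w0 C0 : L[X]) (k : ℕ) (P : Submodule L L[X]) (ν : L[X] →ₗ[L] L[X]) (c : L),
  4 ≤ k → FF F (2 * k - 3) → PN F k f1 f2 l → F.eval c = 0 → w0.eval c ≠ 0 → w0 ∈ P → tI P c →
  (∀ ω ∈ P, Jc f1 f2 w0 (w0 * ν ω + C0 * ω) c) →
  ∃ κ κ' : L, ∀ ω ∈ P, (Dh f1 f2 (ν ω)).eval c = κ * ω.eval c ∧
    (derivative (Dh f1 f2 (ν ω))).eval c = κ' * ω.eval c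

/-- the same for `D3` (case C) -/
def Stmt_JPC : Prop := ∀ (L : Type) [Field L] [CharZero L] [IsAlgClosed L]
  (A f1 f2 w0 C3 : L[X]) (a c : L) (g : ℕ) (P : Submodule L L[X]) (ν3 w2 : L[X] →ₗ[L] L[X]),
  FF A g → wr f1 f2 = A → A.eval c = 0 → c ≠ a → w0.eval c ≠ 0 → w0 ∈ P → tI P c →
  (∀ ω ∈ P, (X - C a) * w2 ω = w0 * ν3 ω + C3 * ω) →
  (∀ ω ∈ P, JcT (X - C a) f1 f2 w0 (w2 ω) c) →
  ∃ κ κ' : L, ∀ ω ∈ P, (D3 (X - C a) f1 f2 (ν3 ω)).eval c = κ * ω.eval c ∧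
    (derivative (D3 (X - C a) f1 f2 (ν3 ω))).eval c = κ' * ω.eval c

/-- Step 1 (cases A and B) -/
def Stmt_ST1 : Prop := ∀ (L : Type) [Field L] [CharZero L] [IsAlgClosed L]
  (F f1 f2 l w0 : L[X]) (k D : ℕ) (P : Submodule L L[X]), 9 ≤ k → FF F (2 * k - 3) →
  PN F k f1 f2 l → FiniteDimensional L P → coprimeFam P → w0 ∈ P → w0.natDegree = D →
  k + 2 ≤ D → (∀ ω ∈ P, ω.natDegree ≤ D) → (∀ c, F.eval c = 0 → w0.eval c ≠ 0) →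
  (∀ c, F.eval c = 0 → tI P c ∨ f1.eval c ≠ 0 ∨ f2.eval c ≠ 0) →
  (∀ u : L[X], u.natDegree ≤ D - 2 - k → F ^ 2 * u ∈ DlSp F l f1 f2 (k - 2) * P) →
  ∃ N0 : ℕ, ∀ N, N0 ≤ N → ∀ (γ : L[X]) (wh : L[X] →ₗ[L] L[X]), γ ≠ 0 → wh w0 = 0 →
  RPh F F f1 f2 k P w0 γ wh N →
  ∃ ν : L[X] →ₗ[L] L[X], (∀ ω ∈ P, (ν ω).natDegree ≤ k ∧
      wh ω = γ * (w0 * ν ω - ν w0 * ω)) ∧
    ∀ c, F.eval c = 0 → tI P c → ∃ κ κ' : L, ∀ ω ∈ P,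
      (Dh f1 f2 (ν ω)).eval c = κ * ω.eval c ∧
      (derivative (Dh f1 f2 (ν ω))).eval c = κ' * ω.eval c

/-- the commutator lemma -/
def Stmt_COM : Prop := ∀ (L : Type) [Field L] [CharZero L] (S : Finset L) (M e : ℕ)
  (G : L[X] →ₗ[L] L[X]), 2 ≤ M → (∀ m : L[X], m.natDegree ≤ M → (G m).natDegree ≤ e) →
  (∀ c ∈ S, ∃ α β κ κ' : L, ∀ m : L[X], m.natDegree ≤ M →
    (G m).eval c = κ * (α * m.eval c + β * (derivative m).eval c) ∧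
    (derivative (G m)).eval c = κ' * (α * m.eval c + β * (derivative m).eval c)) →
  e + 3 < 2 * S.card →
  ∃ β0 β1 β2 : L[X], ∀ m : L[X], m.natDegree ≤ M →
    G m = β2 * derivative (derivative m) + β1 * derivative m + β0 * m

def Stmt_DG9 : Prop := ∀ (L : Type) [Field L] [CharZero L] (β0 β1 β2 : L[X]) (k : ℕ), 5 ≤ k →
  (∀ m : L[X], m.natDegree ≤ k - 2 →
    (β2 * derivative (derivative m) + β1 * derivative m + β0 * m).natDegree ≤ 3 * k - 6) →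
  β2.natDegree ≤ 2 * k ∧ β1.natDegree ≤ 2 * k - 1 ∧ β0.natDegree ≤ 2 * k - 2

/-- Step 2, case A -/
def Stmt_S2A : Prop := ∀ (L : Type) [Field L] [CharZero L] [IsAlgClosed L]
  (F f1 f2 l g1 g2 l' w0 : L[X]) (k : ℕ) (ν : L[X] →ₗ[L] L[X]), 9 ≤ k → FF F (2 * k - 3) →
  PN F k f1 f2 l → PN F k g1 g2 l' →
  (∀ c, F.eval c = 0 → g1.eval c ≠ 0 ∨ g2.eval c ≠ 0) →
  coprimeFam (DlSp F l' g1 g2 (k - 2)) →
  w0 ∈ DlSp F l' g1 g2 (k - 2) → w0.natDegree = 3 * k - 8 →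
  (∀ ω ∈ DlSp F l' g1 g2 (k - 2), (ν ω).natDegree ≤ k) →
  (∀ c, F.eval c = 0 → ∃ κ κ' : L, ∀ ω ∈ DlSp F l' g1 g2 (k - 2),
      (Dh f1 f2 (ν ω)).eval c = κ * ω.eval c ∧
      (derivative (Dh f1 f2 (ν ω))).eval c = κ' * ω.eval c) →
  ∃ a0 : L[X], a0.natDegree ≤ 2 ∧ ∀ ω ∈ DlSp F l' g1 g2 (k - 2), Dh f1 f2 (ν ω) = a0 * ω

/-- Step 2, case B -/
def Stmt_S2B : Prop := ∀ (L : Type) [Field L] [CharZero L] [IsAlgClosed L]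
  (A f1 f2 l g1 g2 w0 : L[X]) (b : L) (k : ℕ) (ν : L[X] →ₗ[L] L[X]), 9 ≤ k →
  FF A (2 * k - 4) → A.eval b ≠ 0 → PN ((X - C b) * A) k f1 f2 l →
  g1.natDegree ≤ k - 1 → g2.natDegree ≤ k - 1 → wr g1 g2 = A →
  w0 ∈ DhSp g1 g2 (k - 1) → w0.natDegree = 3 * k - 9 →
  (∀ ω ∈ DhSp g1 g2 (k - 1), (ν ω).natDegree ≤ k) →
  (∀ c, A.eval c = 0 → ∃ κ κ' : L, ∀ ω ∈ DhSp g1 g2 (k - 1),
      (Dh f1 f2 (ν ω)).eval c = κ * ω.eval c ∧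
      (derivative (Dh f1 f2 (ν ω))).eval c = κ' * ω.eval c) →
  ∃ a0 : L[X], a0.natDegree ≤ 3 ∧ ∀ ω ∈ DhSp g1 g2 (k - 1), Dh f1 f2 (ν ω) = a0 * ω

/-- Step 3, case A -/
def Stmt_S3A : Prop := ∀ (L : Type) [Field L] [CharZero L] [IsAlgClosed L]
  (F f1 f2 l g1 g2 l' a0 : L[X]) (k : ℕ), 9 ≤ k → FF F (2 * k - 3) →
  PN F k f1 f2 l → PN F k g1 g2 l' →
  (∀ c, F.eval c = 0 → g1.eval c ≠ 0 ∨ g2.eval c ≠ 0) →
  coprimeFam (DlSp F l' g1 g2 (k - 2)) → a0 ≠ 0 → a0.natDegree ≤ 2 →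
  (∀ ω ∈ DlSp F l' g1 g2 (k - 2), ∃ v : L[X], v.natDegree ≤ k ∧ Dh f1 f2 v = a0 * ω) →
  (∃ b0 : L, b0 ≠ 0 ∧ a0 = C b0 * l ^ 2) ∧
  DlSp F l' g1 g2 (k - 2) = DlSp F l f1 f2 (k - 2) ∧
  (∀ c, F.eval c = 0 → f1.eval c ≠ 0 ∨ f2.eval c ≠ 0)

/-- Step 3, case B -/
def Stmt_S3B : Prop := ∀ (L : Type) [Field L] [CharZero L] [IsAlgClosed L]
  (A f1 f2 l g1 g2 a0 : L[X]) (b : L) (k : ℕ), 9 ≤ k →
  FF A (2 * k - 4) → A.eval b ≠ 0 → PN ((X - C b) * A) k f1 f2 l →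
  (f1.eval b ≠ 0 ∨ f2.eval b ≠ 0) →
  g1.natDegree ≤ k - 1 → g2.natDegree ≤ k - 1 → wr g1 g2 = A →
  a0 ≠ 0 → a0.natDegree ≤ 3 →
  (∀ ω ∈ DhSp g1 g2 (k - 1), ∃ v : L[X], v.natDegree ≤ k ∧ Dh f1 f2 v = a0 * ω) → False

/-- Step 1, case C -/
def Stmt_S1C : Prop := ∀ (L : Type) [Field L] [CharZero L] [IsAlgClosed L]
  (A f1 f2 g1 g2 w0 : L[X]) (a : L) (k : ℕ), 9 ≤ k → FF A (2 * k - 4) → A.eval a ≠ 0 →
  f1.natDegree ≤ k - 1 → f2.natDegree ≤ k - 1 → wr f1 f2 = A →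
  g1.natDegree ≤ k - 1 → g2.natDegree ≤ k - 1 → wr g1 g2 = A →
  coprimeFam (DhSp g1 g2 (k - 1)) →
  w0 ∈ DhSp g1 g2 (k - 1) → w0.natDegree = 3 * k - 9 →
  (∀ c, A.eval c = 0 → w0.eval c ≠ 0) → w0.eval a ≠ 0 →
  ∃ N0 : ℕ, ∀ N, N0 ≤ N → ∀ (γ : L[X]) (wh : L[X] →ₗ[L] L[X]), γ ≠ 0 → wh w0 = 0 →
  RPh ((X - C a) * A) A f1 f2 (k - 1) (DhSp g1 g2 (k - 1)) w0 γ wh N →
  ∃ ν3 : L[X] →ₗ[L] L[X], (∀ ω ∈ DhSp g1 g2 (k - 1), (ν3 ω).natDegree ≤ k + 2 ∧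
      (X - C a) ^ 3 * wh ω = γ * (w0 * ν3 ω - ν3 w0 * ω) ∧
      (ω.eval a = 0 → (derivative ω).eval a = 0 → (X - C a) ^ 3 ∣ w0 * ν3 ω - ν3 w0 * ω)) ∧
    ∀ c, A.eval c = 0 → ∃ κ κ' : L, ∀ ω ∈ DhSp g1 g2 (k - 1),
      (D3 (X - C a) f1 f2 (ν3 ω)).eval c = κ * ω.eval c ∧
      (derivative (D3 (X - C a) f1 f2 (ν3 ω))).eval c = κ' * ω.eval c

/-- Step 2, case C -/
def Stmt_S2C : Prop := ∀ (L : Type) [Field L] [CharZero L] [IsAlgClosed L]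
  (A f1 f2 g1 g2 w0 : L[X]) (a : L) (k : ℕ) (ν3 : L[X] →ₗ[L] L[X]), 9 ≤ k →
  FF A (2 * k - 4) → A.eval a ≠ 0 →
  f1.natDegree ≤ k - 1 → f2.natDegree ≤ k - 1 → wr f1 f2 = A →
  g1.natDegree ≤ k - 1 → g2.natDegree ≤ k - 1 → wr g1 g2 = A →
  w0 ∈ DhSp g1 g2 (k - 1) → w0.natDegree = 3 * k - 9 →
  (∀ ω ∈ DhSp g1 g2 (k - 1), (ν3 ω).natDegree ≤ k + 2) →
  (∀ c, A.eval c = 0 → ∃ κ κ' : L, ∀ ω ∈ DhSp g1 g2 (k - 1),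
      (D3 (X - C a) f1 f2 (ν3 ω)).eval c = κ * ω.eval c ∧
      (derivative (D3 (X - C a) f1 f2 (ν3 ω))).eval c = κ' * ω.eval c) →
  ∃ b5 : L[X], b5.natDegree ≤ 5 ∧
    ∀ ω ∈ DhSp g1 g2 (k - 1), D3 (X - C a) f1 f2 (ν3 ω) = b5 * ω

/-- Step 3, case C: no pole at `a` -/
def Stmt_S3C : Prop := ∀ (L : Type) [Field L] [CharZero L] [IsAlgClosed L]
  (A f1 f2 g1 g2 w0 b5 : L[X]) (a : L) (k : ℕ) (ν3 : L[X] →ₗ[L] L[X]), 9 ≤ k →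
  FF A (2 * k - 4) → A.eval a ≠ 0 →
  f1.natDegree ≤ k - 1 → f2.natDegree ≤ k - 1 → wr f1 f2 = A →
  g1.natDegree ≤ k - 1 → g2.natDegree ≤ k - 1 → wr g1 g2 = A →
  w0 ∈ DhSp g1 g2 (k - 1) → w0.eval a ≠ 0 →
  (∀ ω ∈ DhSp g1 g2 (k - 1), ω.eval a = 0 → (derivative ω).eval a = 0 →
    (X - C a) ^ 3 ∣ w0 * ν3 ω - ν3 w0 * ω) →
  b5.natDegree ≤ 5 →
  (∀ ω ∈ DhSp g1 g2 (k - 1), D3 (X - C a) f1 f2 (ν3 ω) = b5 * ω) →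
  (∀ ω ∈ DhSp g1 g2 (k - 1), (X - C a) ^ 3 ∣ ν3 ω) ∧ ∃ b0 : L, b5 = C b0 * (X - C a) ^ 5

/-- case C: equality of the pencils -/
def Stmt_SC4 : Prop := ∀ (L : Type) [Field L] [CharZero L] [IsAlgClosed L]
  (A f1 f2 g1 g2 : L[X]) (b0 : L) (k : ℕ), 9 ≤ k →
  FF A (2 * k - 4) → f1.natDegree ≤ k - 1 → f2.natDegree ≤ k - 1 → wr f1 f2 = A →
  g1.natDegree ≤ k - 1 → g2.natDegree ≤ k - 1 → wr g1 g2 = A →
  coprimeFam (DhSp g1 g2 (k - 1)) → b0 ≠ 0 →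
  (∀ ω ∈ DhSp g1 g2 (k - 1), ∃ v : L[X], v.natDegree ≤ k - 1 ∧ Dh f1 f2 v = C b0 * ω) →
  DhSp g1 g2 (k - 1) = DhSp f1 f2 (k - 1)

/-- the first outcome -/
def OutI (L : Type) [Field L] (F : L[X]) (k : ℕ) (Lam P : Submodule L L[X]) (w0 γ : L[X])
    (wh : L[X] →ₗ[L] L[X]) : Prop :=
  ∃ (f1 f2 l : L[X]) (ν : L[X] →ₗ[L] L[X]) (b0 : L), PN F k f1 f2 l ∧
    Lam = Submodule.span L {f1, f2} ∧ P = DlSp F l f1 f2 (k - 2) ∧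
    (∀ c, F.eval c = 0 → f1.eval c ≠ 0 ∨ f2.eval c ≠ 0) ∧ b0 ≠ 0 ∧
    ∀ ω ∈ P, (ν ω).natDegree ≤ k ∧ wh ω = γ * (w0 * ν ω - ν w0 * ω) ∧
      Dh f1 f2 (ν ω) = C b0 * l ^ 2 * ω

/-- the second outcome -/
def OutII (L : Type) [Field L] (F : L[X]) (k : ℕ) (Lam P : Submodule L L[X]) (w0 γ : L[X])
    (wh : L[X] →ₗ[L] L[X]) : Prop :=
  ∃ (a : L) (A f1 f2 : L[X]) (ν : L[X] →ₗ[L] L[X]) (b0 : L), F = (X - C a) * A ∧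
    f1.natDegree ≤ k - 1 ∧ f2.natDegree ≤ k - 1 ∧ wr f1 f2 = A ∧
    Lam = Submodule.span L {f1, f2} ∧ P = DhSp f1 f2 (k - 1) ∧ b0 ≠ 0 ∧
    ∀ ω ∈ P, (ν ω).natDegree ≤ k - 1 ∧ wh ω = γ * (w0 * ν ω - ν w0 * ω) ∧
      Dh f1 f2 (ν ω) = C b0 * ω

/-- special fibre theorem -/
def Stmt_SFT : Prop := ∀ (L : Type) [Field L] [CharZero L] [IsAlgClosed L]
  (F w0 : L[X]) (k : ℕ) (Lam P : Submodule L L[X]), 9 ≤ k → FF F (2 * k - 3) →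
  Module.finrank L Lam = 2 → Module.finrank L P = k - 2 → coprimeFam Lam → coprimeFam P →
  (sig F Lam).card ≤ 1 → (sig F P).card ≤ 1 →
  (∀ u ∈ Lam, u.natDegree ≤ k - (sig F Lam).card) →
  (∀ u ∈ P, u.natDegree ≤ 3 * k - 8 - (sig F P).card) →
  w0 ∈ P → w0.natDegree = 3 * k - 8 - (sig F P).card → (∀ c, F.eval c = 0 → w0.eval c ≠ 0) →
  ∃ N0 : ℕ, ∀ N, N0 ≤ N → ∀ (γ : L[X]) (wh : L[X] →ₗ[L] L[X]), γ ≠ 0 → wh w0 = 0 →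
  RPs F Lam P w0 γ wh N →
  (¬ ∃ τ : L[X] →ₗ[L] L[X], (∀ ω ∈ P, τ ω ∈ Lam) ∧
    ∀ ω ∈ P, wh ω = γ * (w0 * τ ω - τ w0 * ω)) →
  OutI L F k Lam P w0 γ wh ∨ OutII L F k Lam P w0 γ wh

/-- outcome I: dimension of the span of the wedge products -/
def Stmt_DI1 : Prop := ∀ (L : Type) [Field L] [CharZero L] [IsAlgClosed L]
  (F f1 f2 l γ : L[X]) (ν : L[X] →ₗ[L] L[X]) (b0 : L) (k : ℕ) (Z : Submodule L L[X]),
  9 ≤ k → FF F (2 * k - 3) → PN F k f1 f2 l → b0 ≠ 0 → γ ≠ 0 →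
  (∀ c, F.eval c = 0 → f1.eval c ≠ 0 ∨ f2.eval c ≠ 0) →
  (∀ ω ∈ DlSp F l f1 f2 (k - 2), (ν ω).natDegree ≤ k ∧ Dh f1 f2 (ν ω) = C b0 * l ^ 2 * ω) →
  FiniteDimensional L Z →
  (∀ ω ∈ DlSp F l f1 f2 (k - 2), γ * (f1 * ω) ∈ Z ∧ γ * (f2 * ω) ∈ Z) →
  (∀ ω ∈ DlSp F l f1 f2 (k - 2), ∀ ω' ∈ DlSp F l f1 f2 (k - 2),
    γ * (ω' * ν ω - ω * ν ω') ∈ Z) →
  2 * k - 3 ≤ Module.finrank L Z

/-- outcome II, surjectivity with degree control -/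
def Stmt_SUR : Prop := ∀ (L : Type) [Field L] [CharZero L] [IsAlgClosed L]
  (A f1 f2 : L[X]) (k : ℕ), 9 ≤ k → FF A (2 * k - 4) → f1.natDegree ≤ k - 1 →
  f2.natDegree ≤ k - 1 → wr f1 f2 = A →
  ∃ m0 : ℕ, ∀ (m : ℕ), m0 ≤ m → ∀ x0 x1 : L[X], x0.natDegree ≤ m + k - 1 →
  x1.natDegree ≤ m + 3 * k - 9 →
  ∃ x : Fin k → L[X], (∀ i, (x i).natDegree ≤ m) ∧ ∑ i, x i * X ^ (i : ℕ) = x0 ∧
    ∑ i, x i * Dh f1 f2 (X ^ (i : ℕ)) = x1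

/-- outcome II, lifting of values at a cusp -/
def Stmt_LIF : Prop := ∀ (L : Type) [Field L] [CharZero L] [IsAlgClosed L]
  (A f1 f2 : L[X]) (a c : L) (k : ℕ), 9 ≤ k → FF A (2 * k - 4) → A.eval a ≠ 0 →
  f1.natDegree ≤ k - 1 → f2.natDegree ≤ k - 1 → wr f1 f2 = A → ((X - C a) * A).eval c = 0 →
  ∃ N1 : ℕ, ∀ n, N1 ≤ n → ∀ s : Fin k → L,
  (X - C c) ^ 2 ∣ ∑ i, C (s i) * X ^ (i : ℕ) →
  (X - C c) ^ 2 ∣ Dh f1 f2 (∑ i, C (s i) * X ^ (i : ℕ)) →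
  ∃ S : Fin k → L[X], (∀ i, S i ∈ RF ((X - C a) * A) n) ∧ (∀ i, (S i).eval c = s i) ∧
    (∀ i c', ((X - C a) * A).eval c' = 0 → c' ≠ c → (S i).eval c' = 0) ∧
    ∑ i, S i * X ^ (i : ℕ) = 0 ∧ ∑ i, S i * Dh f1 f2 (X ^ (i : ℕ)) = 0

/-- outcome II, decomposition of the value at a cusp -/
def Stmt_VAL : Prop := ∀ (L : Type) [Field L] [CharZero L] [IsAlgClosed L]
  (A f1 f2 : L[X]) (a c : L) (k : ℕ), 9 ≤ k → FF A (2 * k - 4) → A.eval a ≠ 0 →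
  f1.natDegree ≤ k - 1 → f2.natDegree ≤ k - 1 → wr f1 f2 = A → ((X - C a) * A).eval c = 0 →
  ∀ κ : Fin k → Fin k → L, (X - C c) ^ 2 ∣ ∑ i, ∑ j, C (κ i j) * muX f1 f2 i j →
  ∃ (κ0 : Fin k → Fin k → L) (s : Fin k → Fin k → L),
    ∑ i, ∑ j, C (κ0 i j) * muX f1 f2 i j = 0 ∧
    (∀ j, (X - C c) ^ 2 ∣ ∑ i, C (s i j) * X ^ (i : ℕ)) ∧
    (∀ j, (X - C c) ^ 2 ∣ Dh f1 f2 (∑ i, C (s i j) * X ^ (i : ℕ))) ∧
    κ = fun i j => κ0 i j + s i j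

/-- outcome II, relations over the polynomial ring -/
def Stmt_PLN : Prop := ∀ (L : Type) [Field L] [CharZero L] [IsAlgClosed L]
  (A f1 f2 : L[X]) (k m : ℕ), 9 ≤ k → FF A (2 * k - 4) → f1.natDegree ≤ k - 1 →
  f2.natDegree ≤ k - 1 → wr f1 f2 = A → 3 ≤ m →
  ∀ ρ : Fin k → Fin k → L[X], (∀ i j, (ρ i j).natDegree ≤ m) →
  ∑ i, ∑ j, ρ i j * muX f1 f2 i j = 0 →
  ρ ∈ Submodule.span L
    ({M : Fin k → Fin k → L[X] | ∃ p : L[X], p.natDegree ≤ m ∧ ∃ κ : Fin k → Fin k → L,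
      ∑ i, ∑ j, C (κ i j) * muX f1 f2 i j = 0 ∧ M = fun i j => C (κ i j) * p} ∪
    {M | ∃ s : Fin k → L[X], (∀ i, (s i).natDegree ≤ m) ∧ ∑ i, s i * X ^ (i : ℕ) = 0 ∧
      ∑ i, s i * Dh f1 f2 (X ^ (i : ℕ)) = 0 ∧
      ∃ j0 : Fin k, M = fun i j => if j = j0 then s i else 0})

/-- outcome II: all relations are known relations -/
def Stmt_SSX : Prop := ∀ (L : Type) [Field L] [CharZero L] [IsAlgClosed L]
  (A f1 f2 : L[X]) (a : L) (k : ℕ), 9 ≤ k → FF A (2 * k - 4) → A.eval a ≠ 0 →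
  f1.natDegree ≤ k - 1 → f2.natDegree ≤ k - 1 → wr f1 f2 = A →
  ∃ N1 : ℕ, ∀ n, N1 ≤ n → ∀ r : Fin k → Fin k → L[X],
  (∀ i j, r i j ∈ RF ((X - C a) * A) n) → ∑ i, ∑ j, r i j * muX f1 f2 i j = 0 →
  r ∈ Submodule.span L (KS ((X - C a) * A) f1 f2 k n)

/-- outcome II: upper bound -/
def Stmt_HUB : Prop := ∀ (L : Type) [Field L] [CharZero L] [IsAlgClosed L]
  (A : L[X]) (a : L) (k : ℕ) (H : Submodule L L[X]), 9 ≤ k → FF A (2 * k - 4) →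
  A.eval a ≠ 0 → (∀ p ∈ H, ∃ w : L[X], w.natDegree ≤ 2 * k - 4 ∧ p = wr A w) →
  ∃ N1 : ℕ, ∀ n, N1 ≤ n →
    Module.finrank L (RF ((X - C a) * A) n * H : Submodule L L[X]) ≤ n + 2 * k - 5

/-- removing the gcd -/
def Stmt_GCD : Prop := ∀ (L : Type) [Field L] [IsAlgClosed L] (U : Submodule L L[X]),
  FiniteDimensional L U → U ≠ ⊥ → ∃ (γ : L[X]) (U1 : Submodule L L[X]), γ ≠ 0 ∧
    coprimeFam U1 ∧ U = U1.map (LinearMap.mulLeft L γ)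

/-- polynomials generated by a coprime family -/
def Stmt_LBE : Prop := ∀ (L : Type) [Field L] [IsAlgClosed L] (D : ℕ)
  (U : Submodule L L[X]), FiniteDimensional L U → coprimeFam U →
  (∀ u ∈ U, u.natDegree ≤ D) → (∃ u ∈ U, u.natDegree = D) →
  ∃ m0 : ℕ, ∀ m, m0 ≤ m → PL L (m + D) ≤ PL L m * U

/-- lower bound for the number of functions generated by a coprime family -/
def Stmt_LBD : Prop := ∀ (L : Type) [Field L] [CharZero L] [IsAlgClosed L] (F : L[X]) (g D : ℕ)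
  (U : Submodule L L[X]), FF F g → 1 ≤ g → FiniteDimensional L U → coprimeFam U →
  (∀ u ∈ U, u.natDegree ≤ D) → (∃ u ∈ U, u.natDegree = D) →
  ∃ N0 : ℕ, ∀ n, N0 ≤ n →
    n + D + (sig F U).card + 1 ≤ Module.finrank L (RF F n * U : Submodule L L[X]) + g

/-- Brill-Noether inequality for a coprime family -/
def Stmt_BNS : Prop := ∀ (L : Type) [Field L] [CharZero L] [IsAlgClosed L] (F : L[X])
  (g D h : ℕ) (U : Submodule L L[X]), FF F g → FiniteDimensional L U →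
  Module.finrank L U = h → 1 ≤ h → (∀ u ∈ U, u.natDegree ≤ D) →
  (h - 1) * g + h * h ≤ h * (D + 1) + (h - 1) * (sig F U).card

/-- the numerical lemma -/
def Stmt_NUM : Prop := ∀ k h h' D D' s s' : ℕ, 9 ≤ k → h + h' = k → 2 ≤ h → 1 ≤ h' →
  (h - 1) * (2 * k - 3) + h * h ≤ h * (D + 1) + (h - 1) * s →
  (h' - 1) * (2 * k - 3) + h' * h' ≤ h' * (D' + 1) + (h' - 1) * s' →
  D + s ≤ 2 * k - 4 → D + s + (D' + s') ≤ 4 * k - 8 →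
  h = 2 ∧ h' = k - 2 ∧ D + s = k ∧ D' + s' = 3 * k - 8 ∧ s ≤ 1 ∧ s' ≤ 1

end Pool.Agent.RTB
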