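import Pool.Agent.RTB.KDefs
import Pool.Agent.RTB.SStmts

/-!
# squad RTB: statements of the modules of part K (reduction)
-/

set_option autoImplicit false

open Polynomial

namespace Pool.Agent.RTB

section
variable {Kf Lf κ : Type} [Field Kf] [Field Lf] [Algebra Kf Lf] [Field κ]

/-- reduction of a space of vectors -/
noncomputable def redV {q : ℕ} (O : ValuationSubring Kf) (red : O →+* κ) (β : ℕ → Lf) (βF : ℕ → κ[X])
    (U : Submodule Kf (Fin q → Lf)) : Submodule κ (Fin q → κ[X]) :=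
  Submodule.span κ {p | ∃ x ∈ U, ∀ i, Red O red β βF (x i) (p i)}

/-- reduction of a space of functions -/
noncomputable def red1 (O : ValuationSubring Kf) (red : O →+* κ) (β : ℕ → Lf) (βF : ℕ → κ[X])
    (U : Submodule Kf Lf) : Submodule κ κ[X] :=
  Submodule.span κ {p | ∃ x ∈ U, Red O red β βF x p}

/-- the space `N = n(Λ)` -/
def Nsp {h h' : ℕ} (Kf : Type) [Field Kf] [Algebra Kf Lf] (f : Lf) (e : Fin h → Fin 2 → Lf)
    (t : Fin h' → Fin 2 → Lf) (j0 : Fin h') : Submodule Kf Lf :=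
  Submodule.span Kf (Set.range fun i => f * det2 (e i) (t j0))

/-- the space `P = ω(V)` -/
def Psp {h h' : ℕ} (Kf : Type) [Field Kf] [Algebra Kf Lf] (f : Lf) (e : Fin h → Fin 2 → Lf)
    (t : Fin h' → Fin 2 → Lf) (i0 : Fin h) : Submodule Kf Lf :=
  Submodule.span Kf (Set.range fun j => f * det2 (e i0) (t j))

/-- adapted data: `e 0, e 1` span `Λ`, the `t j` a complement, with their reductions -/
structure Adp (k : ℕ) (O : ValuationSubring Kf) (red : O →+* κ) (β : ℕ → Lf) (F : κ[X])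
    (βF : ℕ → κ[X]) (s : Fin k → Fin 2 → Lf) (f : Lf) (e : Fin 2 → Fin 2 → Lf)
    (t : Fin (k - 2) → Fin 2 → Lf) (j0 : Fin (k - 2)) (γN γP : κ[X]) (a : Fin 2 → κ[X])
    (b : Fin (k - 2) → κ[X]) (n0 : ℕ) : Prop where
  spanV : Submodule.span Kf (Set.range e ∪ Set.range t) = Submodule.span Kf (Set.range s)
  par : det2 (e 0) (e 1) = 0
  γN0 : γN ≠ 0
  γP0 : γP ≠ 0
  redN : ∀ i, Red O red β βF (f * det2 (e i) (t j0)) (γN * a i)
  redP : ∀ j, Red O red β βF (f * det2 (e 0) (t j)) (γP * b j)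
  inda : LinearIndependent κ a
  indb : LinearIndependent κ b
  cpa : coprimeFam (Submodule.span κ (Set.range a))
  cpb : coprimeFam (Submodule.span κ (Set.range b))
  sga : (sig F (Submodule.span κ (Set.range a))).card ≤ 1
  sgb : (sig F (Submodule.span κ (Set.range b))).card ≤ 1
  dga : ∀ u ∈ Submodule.span κ (Set.range a),
    u.natDegree ≤ k - (sig F (Submodule.span κ (Set.range a))).card
  dgb : ∀ u ∈ Submodule.span κ (Set.range b),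
    u.natDegree ≤ 3 * k - 8 - (sig F (Submodule.span κ (Set.range b))).card
  w0d : (b j0).natDegree = 3 * k - 8 - (sig F (Submodule.span κ (Set.range b))).card
  w0r : ∀ c, F.eval c = 0 → (b j0).eval c ≠ 0
  eqV : ∀ n, n0 ≤ n → Module.finrank Kf (smSp (Rn Kf (2 * k - 3) β n)
    (Submodule.span Kf (Set.range s))) = 2 * n
  eqN : ∀ n, n0 ≤ n →
    Module.finrank Kf (Rn Kf (2 * k - 3) β n * Nsp Kf f e t j0 : Submodule Kf Lf)
    = Module.finrank κ (RF F n * Submodule.span κ (Set.range fun i => γN * a i) :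
        Submodule κ κ[X])
  eqP : ∀ n, n0 ≤ n →
    Module.finrank Kf (Rn Kf (2 * k - 3) β n * Psp Kf f e t 0 : Submodule Kf Lf)
    = Module.finrank κ (RF F n * Submodule.span κ (Set.range fun j => γP * b j) :
        Submodule κ κ[X])
  eqP' : ∀ n, n0 ≤ n →
    Module.finrank Kf (Rn Kf (2 * k - 3) β n * Psp Kf f e t 0 : Submodule Kf Lf) + 2 * k - 3
    = n + 3 * k - 7
  eqS : ∀ n, n0 ≤ n →
    Module.finrank Kf (Rn Kf (2 * k - 3) β n * Nsp Kf f e t j0 : Submodule Kf Lf)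
    + Module.finrank Kf (Rn Kf (2 * k - 3) β n * Psp Kf f e t 0 : Submodule Kf Lf) = 2 * n

/-- the normalised extension data for the level `N` -/
structure Ext (k : ℕ) (O : ValuationSubring Kf) (red : O →+* κ) (β : ℕ → Lf) (F : κ[X])
    (βF : ℕ → κ[X]) (f : Lf) (e : Fin 2 → Fin 2 → Lf)
    (t : Fin (k - 2) → Fin 2 → Lf) (j0 : Fin (k - 2)) (γN γP : κ[X]) (a : Fin 2 → κ[X])
    (b : Fin (k - 2) → κ[X]) (N : ℕ) (c : Kf) (τ : Fin (k - 2) → Lf)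
    (q : Fin (k - 2) → Fin (k - 2) → κ[X]) (wh : κ[X] →ₗ[κ] κ[X]) : Prop where
  c0 : c ≠ 0
  τN : ∀ j, τ j ∈ Nsp Kf f e t j0
  redq : ∀ i j, Red O red β βF
    (f * det2 (e 0) (t j) * (c • (f * det2 (t i) (t j0)) + τ i)
      - f * det2 (e 0) (t i) * (c • (f * det2 (t j) (t j0)) + τ j)) (q i j)
  whq : ∀ i, wh (b i) = q i j0
  cyc : ∀ i j, b j0 * q i j = b j * wh (b i) - b i * wh (b j)
  rps : RPs F (Submodule.span κ (Set.range a)) (Submodule.span κ (Set.range b)) (b j0)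
    (γN * γP) wh N
  nt : ¬ ∃ τ' : κ[X] →ₗ[κ] κ[X],
    (∀ ω ∈ Submodule.span κ (Set.range b), τ' ω ∈ Submodule.span κ (Set.range a)) ∧
    ∀ ω ∈ Submodule.span κ (Set.range b),
      wh ω = γN * γP * (b j0 * τ' ω - τ' (b j0) * ω)

end

/-- basic facts on the reduction relation -/
def Stmt_RDB : Prop := ∀ (Kf Lf κ : Type) [Field Kf] [Field Lf] [Algebra Kf Lf] [Field κ]
  (g : ℕ) (O : ValuationSubring Kf) (red : O →+* κ) (β : ℕ → Lf) (F : κ[X]) (βF : ℕ → κ[X]),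
  1 ≤ g → CharZero κ → IsCtx g O red β F βF →
  (∀ x p p', Red O red β βF x p → Red O red β βF x p' → p = p') ∧
  (∀ x y p q, Red O red β βF x p → Red O red β βF y q → Red O red β βF (x + y) (p + q)) ∧
  (∀ (x : Lf) (p : κ[X]) (r : O), Red O red β βF x p →
    Red O red β βF ((r : Kf) • x) (C (red r) * p)) ∧
  (∀ x y p q, Red O red β βF x p → Red O red β βF y q → Red O red β βF (x * y) (p * q)) ∧
  (∀ j, Red O red β βF (β j) (βF j)) ∧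
  (∀ (n : ℕ) (x : Lf), x ∈ Rn Kf g β n → x ≠ 0 →
    ∃ (c : Kf) (p : κ[X]), c ≠ 0 ∧ p ≠ 0 ∧ Red O red β βF (c • x) p) ∧
  (∀ (n : ℕ) (p : κ[X]), p ∈ RF F n → ∃ x ∈ Rn Kf g β n, Red O red β βF x p) ∧
  (∀ (n : ℕ) (x : Lf) (p : κ[X]), x ∈ Rn Kf g β n → Red O red β βF x p → p ∈ RF F n) ∧
  (∀ n m, Rn Kf g β n * Rn Kf g β m ≤ Rn Kf g β (n + m)) ∧
  (∀ n, Module.finrank Kf (Rn Kf g β n) = n - g + 1 ∧ FiniteDimensional Kf (Rn Kf g β n)) ∧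
  (∀ n m, n ≤ m → Rn Kf g β n ≤ Rn Kf g β m) ∧ (∀ n, (1 : Lf) ∈ Rn Kf g β n)

/-- the filtration on the cuspidal curve -/
def Stmt_RFB : Prop := ∀ (Kf Lf κ : Type) [Field Kf] [Field Lf] [Algebra Kf Lf] [Field κ]
  (g : ℕ) (O : ValuationSubring Kf) (red : O →+* κ) (β : ℕ → Lf) (F : κ[X]) (βF : ℕ → κ[X]),
  1 ≤ g → CharZero κ → IsCtx g O red β F βF →
  ∀ n, RF F n = Submodule.span κ (βF '' Set.Iic (n - g)) ∧
    Module.finrank κ (RF F n) = n - g + 1 ∧ FiniteDimensional κ (RF F n)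

/-- the dimension of the reduction -/
def Stmt_RVD : Prop := ∀ (Kf Lf κ : Type) [Field Kf] [Field Lf] [Algebra Kf Lf] [Field κ]
  (g : ℕ) (O : ValuationSubring Kf) (red : O →+* κ) (β : ℕ → Lf) (F : κ[X]) (βF : ℕ → κ[X]),
  1 ≤ g → CharZero κ → IsCtx g O red β F βF →
  ∀ (q N : ℕ) (U : Submodule Kf (Fin q → Lf)), (∀ x ∈ U, ∀ i, x i ∈ Rn Kf g β N) →
  Module.finrank κ (redV O red β βF U) = Module.finrank Kf U ∧
  FiniteDimensional κ (redV O red β βF U) ∧ FiniteDimensional Kf U ∧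
  (∀ p ∈ redV O red β βF U, ∃ x ∈ U, ∀ i, Red O red β βF (x i) (p i)) ∧
  (∀ (m : ℕ) (x : Fin m → Fin q → Lf) (p : Fin m → Fin q → κ[X]),
    (∀ a i, Red O red β βF (x a i) (p a i)) → LinearIndependent κ p → LinearIndependent Kf x)

/-- the same for spaces of functions -/
def Stmt_R1D : Prop := ∀ (Kf Lf κ : Type) [Field Kf] [Field Lf] [Algebra Kf Lf] [Field κ]
  (g : ℕ) (O : ValuationSubring Kf) (red : O →+* κ) (β : ℕ → Lf) (F : κ[X]) (βF : ℕ → κ[X]),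
  1 ≤ g → CharZero κ → IsCtx g O red β F βF →
  ∀ (N : ℕ) (U : Submodule Kf Lf), U ≤ Rn Kf g β N →
  Module.finrank κ (red1 O red β βF U) = Module.finrank Kf U ∧
  FiniteDimensional κ (red1 O red β βF U) ∧ FiniteDimensional Kf U ∧
  (∀ p ∈ red1 O red β βF U, ∃ x ∈ U, Red O red β βF x p) ∧
  (∀ n, Module.finrank κ (RF F n * red1 O red β βF U : Submodule κ κ[X])
    ≤ Module.finrank Kf (Rn Kf g β n * U : Submodule Kf Lf)) ∧
  (∀ (m : ℕ) (x : Fin m → Lf) (p : Fin m → κ[X]),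
    (∀ a, Red O red β βF (x a) (p a)) → LinearIndependent κ p → LinearIndependent Kf x)

/-- lifting of relations -/
def Stmt_RLF : Prop := ∀ (Kf Lf κ : Type) [Field Kf] [Field Lf] [Algebra Kf Lf] [Field κ]
  (g : ℕ) (O : ValuationSubring Kf) (red : O →+* κ) (β : ℕ → Lf) (F : κ[X]) (βF : ℕ → κ[X]),
  1 ≤ g → CharZero κ → IsCtx g O red β F βF →
  ∀ (h q n N : ℕ) (y : Fin h → Fin q → Lf) (p : Fin h → Fin q → κ[X]),
  (∀ i j, y i j ∈ Rn Kf g β N ∧ Red O red β βF (y i j) (p i j)) →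
  (Module.finrank κ (Submodule.span κ {z : Fin q → κ[X] | ∃ r ∈ RF F n, ∃ i, z = r • p i})
    ≤ Module.finrank Kf (Submodule.span Kf
      {z : Fin q → Lf | ∃ r ∈ Rn Kf g β n, ∃ i, z = r • y i})) ∧
  (Module.finrank Kf (Submodule.span Kf
      {z : Fin q → Lf | ∃ r ∈ Rn Kf g β n, ∃ i, z = r • y i})
    ≤ Module.finrank κ (Submodule.span κ
      {z : Fin q → κ[X] | ∃ r ∈ RF F n, ∃ i, z = r • p i}) →
   ∀ r' : Fin h → κ[X], (∀ i, r' i ∈ RF F n) → (∀ j, ∑ i, r' i * p i j = 0) →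
    ∃ r : Fin h → Lf, (∀ i, r i ∈ Rn Kf g β n ∧ Red O red β βF (r i) (r' i)) ∧
      ∀ j, ∑ i, r i * y i j = 0)

/-- Grassmannian lemma -/
def Stmt_GRS : Prop := ∀ (K : Type) [Field K] [IsAlgClosed K] (k m : ℕ), 2 ≤ k →
  m + 4 ≤ 2 * k → ∀ B : Fin m → Fin k → Fin k → K,
  ∃ x y : Fin k → K, LinearIndependent K ![x, y] ∧
    ∀ l, ∑ i, ∑ j, B l i j * (x i * y j - x j * y i) = 0

/-- adapted basis, general dimensions -/
def Stmt_PEN : Prop := ∀ (Kf Lf : Type) [Field Kf] [IsAlgClosed Kf] [Field Lf] [Algebra Kf Lf]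
  (k : ℕ) (R : ℕ → Submodule Kf Lf) (s : Fin k → Fin 2 → Lf) (f : Lf), 9 ≤ k →
  Dat Kf (2 * k - 3) k R s f →
  ∃ h h' : ℕ, h + h' = k ∧ 2 ≤ h ∧ 1 ≤ h' ∧
    ∃ (e : Fin h → Fin 2 → Lf) (t : Fin h' → Fin 2 → Lf) (i0 : Fin h),
      Submodule.span Kf (Set.range e ∪ Set.range t) = Submodule.span Kf (Set.range s) ∧
      (∀ i i', det2 (e i) (e i') = 0) ∧ LinearIndependent Kf e ∧
      LinearIndependent Kf (fun j => det2 (e i0) (t j))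

/-- inequality of dimensions -/
def Stmt_KIN : Prop := ∀ (Kf Lf : Type) [Field Kf] [Field Lf] [Algebra Kf Lf]
  (h h' : ℕ) (f : Lf) (e : Fin h → Fin 2 → Lf) (t : Fin h' → Fin 2 → Lf) (i0 : Fin h)
  (j0 : Fin h') (R : Submodule Kf Lf), FiniteDimensional Kf R → f ≠ 0 →
  (∀ i i', det2 (e i) (e i') = 0) → det2 (e i0) (t j0) ≠ 0 →
  Module.finrank Kf (smSp R (Submodule.span Kf (Set.range e)))
    = Module.finrank Kf (R * Nsp Kf f e t j0 : Submodule Kf Lf) ∧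
  Module.finrank Kf (R * Nsp Kf f e t j0 : Submodule Kf Lf)
    + Module.finrank Kf (R * Psp Kf f e t i0 : Submodule Kf Lf)
    ≤ Module.finrank Kf (smSp R (Submodule.span Kf (Set.range e ∪ Set.range t))) ∧
  (Module.finrank Kf (R * Nsp Kf f e t j0 : Submodule Kf Lf)
    + Module.finrank Kf (R * Psp Kf f e t i0 : Submodule Kf Lf)
    = Module.finrank Kf (smSp R (Submodule.span Kf (Set.range e ∪ Set.range t))) →
   ∀ x ∈ smSp R (Submodule.span Kf (Set.range e ∪ Set.range t)), det2 (e i0) x = 0 →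
    f * det2 x (t j0) ∈ (R * Nsp Kf f e t j0 : Submodule Kf Lf))

/-- rank one theory over the context -/
def Stmt_R1T : Prop := ∀ (Kf Lf κ : Type) [Field Kf] [Field Lf] [Algebra Kf Lf] [Field κ]
  [CharZero κ] [IsAlgClosed κ] (g : ℕ) (O : ValuationSubring Kf) (red : O →+* κ) (β : ℕ → Lf)
  (F : κ[X]) (βF : ℕ → κ[X]), 1 ≤ g → IsCtx g O red β F βF →
  ∀ (N h : ℕ) (U : Submodule Kf Lf), U ≤ Rn Kf g β N → Module.finrank Kf U = h → 1 ≤ h →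
  ∃ (γ : κ[X]) (U1 : Submodule κ κ[X]) (D : ℕ), γ ≠ 0 ∧ coprimeFam U1 ∧
    red1 O red β βF U = U1.map (LinearMap.mulLeft κ γ) ∧ Module.finrank κ U1 = h ∧
    FiniteDimensional κ U1 ∧ (∀ u ∈ U1, u.natDegree ≤ D) ∧ (∃ u ∈ U1, u.natDegree = D) ∧
    (h - 1) * g + h * h ≤ h * (D + 1) + (h - 1) * (sig F U1).card ∧
    ∃ N0 : ℕ, ∀ n, N0 ≤ n →
      n + D + (sig F U1).card + 1
        ≤ Module.finrank κ (RF F n * red1 O red β βF U : Submodule κ κ[X]) + g ∧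
      Module.finrank κ (RF F n * red1 O red β βF U : Submodule κ κ[X])
        ≤ Module.finrank Kf (Rn Kf g β n * U : Submodule Kf Lf)

/-- general position -/
def Stmt_GPO : Prop := ∀ (κ : Type) [Field κ] [CharZero κ] (F : κ[X]) (D : ℕ)
  (U : Submodule κ κ[X]), F ≠ 0 → coprimeFam U → (∀ u ∈ U, u.natDegree ≤ D) →
  (∃ u ∈ U, u.natDegree = D) →
  ∃ w ∈ U, w.natDegree = D ∧ w ≠ 0 ∧ ∀ c, F.eval c = 0 → w.eval c ≠ 0

/-- the adapted data exist -/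
def Stmt_KNU : Prop := ∀ (Kf Lf κ : Type) [Field Kf] [Field Lf] [Algebra Kf Lf] [Field κ]
  [CharZero Kf] [IsAlgClosed Kf] [CharZero κ] [IsAlgClosed κ] (k : ℕ)
  (O : ValuationSubring Kf) (red : O →+* κ) (β : ℕ → Lf) (F : κ[X]) (βF : ℕ → κ[X]),
  9 ≤ k → IsCtx (2 * k - 3) O red β F βF →
  ∀ (s : Fin k → Fin 2 → Lf) (f : Lf), Dat Kf (2 * k - 3) k (Rn Kf (2 * k - 3) β) s f →
  ∃ (e : Fin 2 → Fin 2 → Lf) (t : Fin (k - 2) → Fin 2 → Lf) (j0 : Fin (k - 2))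
    (γN γP : κ[X]) (a : Fin 2 → κ[X]) (b : Fin (k - 2) → κ[X]) (n0 : ℕ),
    Adp k O red β F βF s f e t j0 γN γP a b n0

/-- the relation property over `Kf` -/
def Stmt_RPK : Prop := ∀ (Kf Lf κ : Type) [Field Kf] [Field Lf] [Algebra Kf Lf] [Field κ]
  [CharZero κ] [IsAlgClosed κ] (k : ℕ)
  (O : ValuationSubring Kf) (red : O →+* κ) (β : ℕ → Lf) (F : κ[X]) (βF : ℕ → κ[X]),
  9 ≤ k → IsCtx (2 * k - 3) O red β F βF →
  ∀ (s : Fin k → Fin 2 → Lf) (f : Lf), Dat Kf (2 * k - 3) k (Rn Kf (2 * k - 3) β) s f →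
  ∀ (e : Fin 2 → Fin 2 → Lf) (t : Fin (k - 2) → Fin 2 → Lf) (j0 : Fin (k - 2))
    (γN γP : κ[X]) (a : Fin 2 → κ[X]) (b : Fin (k - 2) → κ[X]) (n0 : ℕ),
    Adp k O red β F βF s f e t j0 γN γP a b n0 →
  det2 (e 0) (t j0) ≠ 0 ∧ ∀ n, n0 ≤ n → ∀ r : Fin (k - 2) → Lf,
    (∀ j, r j ∈ Rn Kf (2 * k - 3) β n) → ∑ j, r j * (f * det2 (e 0) (t j)) = 0 →
    ∑ j, r j * (f * det2 (t j) (t j0))
      ∈ (Rn Kf (2 * k - 3) β n * Nsp Kf f e t j0 : Submodule Kf Lf)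

/-- the map `r ↦ ∑ r_j n(t_j)` on relations is not of the form `∑ r_j τ_j` -/
def Stmt_KNT : Prop := ∀ (Kf Lf κ : Type) [Field Kf] [Field Lf] [Algebra Kf Lf] [Field κ]
  [CharZero κ] [IsAlgClosed κ] (k : ℕ)
  (O : ValuationSubring Kf) (red : O →+* κ) (β : ℕ → Lf) (F : κ[X]) (βF : ℕ → κ[X]),
  9 ≤ k → IsCtx (2 * k - 3) O red β F βF →
  ∀ (s : Fin k → Fin 2 → Lf) (f : Lf), Dat Kf (2 * k - 3) k (Rn Kf (2 * k - 3) β) s f →
  ∀ (e : Fin 2 → Fin 2 → Lf) (t : Fin (k - 2) → Fin 2 → Lf) (j0 : Fin (k - 2))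
    (γN γP : κ[X]) (a : Fin 2 → κ[X]) (b : Fin (k - 2) → κ[X]) (n0 : ℕ),
    Adp k O red β F βF s f e t j0 γN γP a b n0 →
  ∀ n, n0 ≤ n → 3 * (2 * k - 3) ≤ n → ¬ ∃ τ : Fin (k - 2) → Lf, (∀ j, τ j ∈ Nsp Kf f e t j0) ∧
    ∀ r : Fin (k - 2) → Lf, (∀ j, r j ∈ Rn Kf (2 * k - 3) β n) →
      ∑ j, r j * (f * det2 (e 0) (t j)) = 0 →
      ∑ j, r j * (f * det2 (t j) (t j0)) = ∑ j, r j * τ j

/-- the normalised extension data exist -/
def Stmt_EXT : Prop := ∀ (Kf Lf κ : Type) [Field Kf] [Field Lf] [Algebra Kf Lf] [Field κ]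
  [CharZero κ] [IsAlgClosed κ] (k : ℕ)
  (O : ValuationSubring Kf) (red : O →+* κ) (β : ℕ → Lf) (F : κ[X]) (βF : ℕ → κ[X]),
  9 ≤ k → IsCtx (2 * k - 3) O red β F βF →
  ∀ (s : Fin k → Fin 2 → Lf) (f : Lf), Dat Kf (2 * k - 3) k (Rn Kf (2 * k - 3) β) s f →
  ∀ (e : Fin 2 → Fin 2 → Lf) (t : Fin (k - 2) → Fin 2 → Lf) (j0 : Fin (k - 2))
    (γN γP : κ[X]) (a : Fin 2 → κ[X]) (b : Fin (k - 2) → κ[X]) (n0 : ℕ),
    Adp k O red β F βF s f e t j0 γN γP a b n0 →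
  ∀ N, n0 ≤ N → 3 * (2 * k - 3) ≤ N →
  ∃ (c : Kf) (τ : Fin (k - 2) → Lf) (q : Fin (k - 2) → Fin (k - 2) → κ[X])
    (wh : κ[X] →ₗ[κ] κ[X]), Ext k O red β F βF f e t j0 γN γP a b N c τ q wh

/-- outcome I is impossible -/
def Stmt_FI1 : Prop := ∀ (Kf Lf κ : Type) [Field Kf] [Field Lf] [Algebra Kf Lf] [Field κ]
  [CharZero κ] [IsAlgClosed κ] (k : ℕ)
  (O : ValuationSubring Kf) (red : O →+* κ) (β : ℕ → Lf) (F : κ[X]) (βF : ℕ → κ[X]),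
  9 ≤ k → IsCtx (2 * k - 3) O red β F βF →
  ∀ (s : Fin k → Fin 2 → Lf) (f : Lf), Dat Kf (2 * k - 3) k (Rn Kf (2 * k - 3) β) s f →
  ∀ (e : Fin 2 → Fin 2 → Lf) (t : Fin (k - 2) → Fin 2 → Lf) (j0 : Fin (k - 2))
    (γN γP : κ[X]) (a : Fin 2 → κ[X]) (b : Fin (k - 2) → κ[X]) (n0 : ℕ),
    Adp k O red β F βF s f e t j0 γN γP a b n0 →
  ∀ (N : ℕ) (c : Kf) (τ : Fin (k - 2) → Lf) (q : Fin (k - 2) → Fin (k - 2) → κ[X])
    (wh : κ[X] →ₗ[κ] κ[X]), Ext k O red β F βF f e t j0 γN γP a b N c τ q wh →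
  ¬ OutI κ F k (Submodule.span κ (Set.range a)) (Submodule.span κ (Set.range b)) (b j0)
    (γN * γP) wh

/-- outcome II is impossible -/
def Stmt_FI2 : Prop := ∀ (Kf Lf κ : Type) [Field Kf] [Field Lf] [Algebra Kf Lf] [Field κ]
  [CharZero κ] [IsAlgClosed κ] (k : ℕ)
  (O : ValuationSubring Kf) (red : O →+* κ) (β : ℕ → Lf) (F : κ[X]) (βF : ℕ → κ[X]),
  9 ≤ k → IsCtx (2 * k - 3) O red β F βF →
  ∀ (s : Fin k → Fin 2 → Lf) (f : Lf), Dat Kf (2 * k - 3) k (Rn Kf (2 * k - 3) β) s f →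
  ∀ (e : Fin 2 → Fin 2 → Lf) (t : Fin (k - 2) → Fin 2 → Lf) (j0 : Fin (k - 2))
    (γN γP : κ[X]) (a : Fin 2 → κ[X]) (b : Fin (k - 2) → κ[X]) (n0 : ℕ),
    Adp k O red β F βF s f e t j0 γN γP a b n0 →
  ∀ (N : ℕ) (c : Kf) (τ : Fin (k - 2) → Lf) (q : Fin (k - 2) → Fin (k - 2) → κ[X])
    (wh : κ[X] →ₗ[κ] κ[X]), Ext k O red β F βF f e t j0 γN γP a b N c τ q wh →
  ¬ OutII κ F k (Submodule.span κ (Set.range a)) (Submodule.span κ (Set.range b)) (b j0)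
    (γN * γP) wh

/-- outcome II: a good basis of `V` -/
def Stmt_BCH : Prop := ∀ (Kf Lf κ : Type) [Field Kf] [Field Lf] [Algebra Kf Lf] [Field κ]
  [CharZero κ] [IsAlgClosed κ] (k : ℕ)
  (O : ValuationSubring Kf) (red : O →+* κ) (β : ℕ → Lf) (F : κ[X]) (βF : ℕ → κ[X]),
  9 ≤ k → IsCtx (2 * k - 3) O red β F βF →
  ∀ (s : Fin k → Fin 2 → Lf) (f : Lf), Dat Kf (2 * k - 3) k (Rn Kf (2 * k - 3) β) s f →
  ∀ (e : Fin 2 → Fin 2 → Lf) (t : Fin (k - 2) → Fin 2 → Lf) (j0 : Fin (k - 2))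
    (γN γP : κ[X]) (a : Fin 2 → κ[X]) (b : Fin (k - 2) → κ[X]) (n0 : ℕ),
    Adp k O red β F βF s f e t j0 γN γP a b n0 →
  ∀ (N : ℕ) (c : Kf) (τ : Fin (k - 2) → Lf) (q : Fin (k - 2) → Fin (k - 2) → κ[X])
    (wh : κ[X] →ₗ[κ] κ[X]), Ext k O red β F βF f e t j0 γN γP a b N c τ q wh →
  OutII κ F k (Submodule.span κ (Set.range a)) (Submodule.span κ (Set.range b)) (b j0)
    (γN * γP) wh →
  ∃ (a' : κ) (A f1 f2 Γ : κ[X]) (σ : Fin k → Fin 2 → Lf) (θ : Lf),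
    F = (X - C a') * A ∧ f1.natDegree ≤ k - 1 ∧ f2.natDegree ≤ k - 1 ∧ wr f1 f2 = A ∧
    Γ ≠ 0 ∧ θ ≠ 0 ∧ Submodule.span Kf (Set.range σ) = Submodule.span Kf (Set.range s) ∧
    ∀ i j, θ * det2 (σ i) (σ j) ∈ Rn Kf (2 * k - 3) β (6 * (2 * k - 3)) ∧
      Red O red β βF (θ * det2 (σ i) (σ j)) (Γ * muX f1 f2 i j)

/-- outcome II: the contradiction -/
def Stmt_CON : Prop := ∀ (Kf Lf κ : Type) [Field Kf] [Field Lf] [Algebra Kf Lf] [Field κ]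
  [CharZero κ] [IsAlgClosed κ] (k : ℕ)
  (O : ValuationSubring Kf) (red : O →+* κ) (β : ℕ → Lf) (F : κ[X]) (βF : ℕ → κ[X]),
  9 ≤ k → IsCtx (2 * k - 3) O red β F βF →
  ∀ (s : Fin k → Fin 2 → Lf) (f : Lf), Dat Kf (2 * k - 3) k (Rn Kf (2 * k - 3) β) s f →
  (∃ n0, ∀ n, n0 ≤ n → Module.finrank Kf (smSp (Rn Kf (2 * k - 3) β n)
    (Submodule.span Kf (Set.range s))) = 2 * n) →
  ∀ (a' : κ) (A f1 f2 Γ : κ[X]) (σ : Fin k → Fin 2 → Lf) (θ : Lf) (N : ℕ),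
    F = (X - C a') * A → f1.natDegree ≤ k - 1 → f2.natDegree ≤ k - 1 → wr f1 f2 = A →
    Γ ≠ 0 → θ ≠ 0 → Submodule.span Kf (Set.range σ) = Submodule.span Kf (Set.range s) →
    (∀ i j, θ * det2 (σ i) (σ j) ∈ Rn Kf (2 * k - 3) β N ∧
      Red O red β βF (θ * det2 (σ i) (σ j)) (Γ * muX f1 f2 i j)) → False

/-- outcome II: lower bound `2n` for the rank 2 family `(X^i, Dh X^i)`, and the dimension of the
span of the `muX i j` -/
def Stmt_LB2 : Prop := ∀ (L : Type) [Field L] [CharZero L] [IsAlgClosed L]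
  (A f1 f2 : L[X]) (a : L) (k : ℕ), 9 ≤ k → FF A (2 * k - 4) → A.eval a ≠ 0 →
  f1.natDegree ≤ k - 1 → f2.natDegree ≤ k - 1 → wr f1 f2 = A →
  (∀ Γ : L[X], Γ ≠ 0 → 2 * k - 4 ≤ Module.finrank L (Submodule.span L {z : L[X] |
    ∃ i j : Fin k, z = Γ * muX f1 f2 i j})) ∧
  ∃ N0 : ℕ, ∀ n, N0 ≤ n → ∀ Γ : L[X], Γ ≠ 0 →
    2 * n ≤ Module.finrank L (Submodule.span L {z : Fin k → L[X] |
      ∃ r ∈ RF ((X - C a) * A) n, ∃ i : Fin k, z = r • fun j : Fin k => Γ * muX f1 f2 i j})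

end Pool.Agent.RTB
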