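import Pool.Agent.RTB.KStmts

/-!
# squad RTB, module PEN: adapted basis, general dimensions
-/

set_option autoImplicit false

open Polynomial

namespace Pool.Agent.RTB

namespace PEN_

section
variable {Kf Lf : Type} [Field Kf] [Field Lf] [Algebra Kf Lf]

/-- `det2 a` as a linear map -/
noncomputable def dl (Kf : Type) [Field Kf] [Algebra Kf Lf] (a : Fin 2 → Lf) :
    (Fin 2 → Lf) →ₗ[Kf] Lf where
  toFun := det2 a
  map_add' x y := by simp only [det2, Pi.add_apply]; ring
  map_smul' c x := by
    simp only [det2, Pi.smul_apply, RingHom.id_apply, mul_smul_comm, smul_sub]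

theorem dl_apply (a x : Fin 2 → Lf) : dl Kf a x = det2 a x := rfl

theorem det2_swap (a b : Fin 2 → Lf) : det2 a b = - det2 b a := by
  unfold det2; ring

theorem det2_self (a : Fin 2 → Lf) : det2 a a = 0 := by
  unfold det2; ring

theorem par {u a b : Fin 2 → Lf} (hu : u ≠ 0) (ha : det2 u a = 0) (hb : det2 u b = 0) :
    det2 a b = 0 := by
  unfold det2 at *
  by_contra hne
  apply hu
  have h0 : u 0 * (a 0 * b 1 - a 1 * b 0) = 0 := by linear_combination a 0 * hb - b 0 * ha
  have h1 : u 1 * (a 0 * b 1 - a 1 * b 0) = 0 := by linear_combination a 1 * hb - b 1 * ha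
  funext i
  fin_cases i
  · exact (mul_eq_zero.mp h0).resolve_right hne
  · exact (mul_eq_zero.mp h1).resolve_right hne

theorem det2_sum {k : ℕ} (s : Fin k → Fin 2 → Lf) (x y : Fin k → Kf) :
    det2 (∑ i, x i • s i) (∑ j, y j • s j) =
      ∑ i, ∑ j, (x i * y j) • det2 (s i) (s j) := by
  rw [← dl_apply (Kf := Kf), map_sum, Finset.sum_comm]
  refine Finset.sum_congr rfl fun j _ => ?_
  rw [map_smul, dl_apply, det2_swap, ← dl_apply (Kf := Kf), map_sum, ← Finset.sum_neg_distrib,
    Finset.smul_sum]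
  refine Finset.sum_congr rfl fun i _ => ?_
  rw [map_smul, dl_apply, det2_swap (s j), smul_neg, smul_neg, smul_neg, neg_neg, smul_smul, mul_comm]

theorem alt_sum {k : ℕ} (d : Fin k → Fin k → Lf) (hd : ∀ i j, d i j = - d j i)
    (hd0 : ∀ i, d i i = 0) (x y : Fin k → Kf) :
    ∑ i, ∑ j, (x i * y j) • d i j =
      ∑ i, ∑ j, (if i < j then (x i * y j - x j * y i) • d i j else 0) := by
  have h1 : ∀ i j, (x i * y j) • d i j = (if i < j then (x i * y j) • d i j else 0) +
      (if j < i then (x i * y j) • d i j else 0) := by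
    intro i j
    rcases lt_trichotomy i j with h | h | h
    · rw [if_pos h, if_neg (not_lt.mpr h.le), add_zero]
    · subst h
      rw [if_neg (lt_irrefl _), hd0, smul_zero, add_zero]
    · rw [if_pos h, if_neg (not_lt.mpr h.le), zero_add]
  rw [Finset.sum_congr rfl fun i _ => Finset.sum_congr rfl fun j _ => h1 i j,
    Finset.sum_congr rfl fun i _ => Finset.sum_add_distrib, Finset.sum_add_distrib,
    Finset.sum_comm (f := fun i j => if j < i then (x i * y j) • d i j else 0),
    ← Finset.sum_add_distrib]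
  refine Finset.sum_congr rfl fun i _ => ?_
  rw [← Finset.sum_add_distrib]
  refine Finset.sum_congr rfl fun j _ => ?_
  split_ifs with h
  · rw [sub_smul, hd j i, smul_neg, sub_eq_add_neg]
  · rw [add_zero]

theorem exists_uv [IsAlgClosed Kf] (hG : Stmt_GRS) {k : ℕ} (hk : 2 ≤ k)
    (s : Fin k → Fin 2 → Lf) (hs : LinearIndependent Kf s)
    (hd : Module.finrank Kf (detSp Kf s) + 4 ≤ 2 * k) :
    ∃ u v : Fin 2 → Lf, u ∈ Submodule.span Kf (Set.range s) ∧
      v ∈ Submodule.span Kf (Set.range s) ∧ LinearIndependent Kf ![u, v] ∧ det2 u v = 0 := by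
  classical
  have hfin : FiniteDimensional Kf (detSp Kf s) := by
    unfold detSp
    refine FiniteDimensional.span_of_finite Kf ?_
    refine (Set.finite_range fun p : Fin k × Fin k => det2 (s p.1) (s p.2)).subset ?_
    rintro x ⟨i, j, rfl⟩
    exact ⟨(i, j), rfl⟩
  set w := Module.finBasis Kf (detSp Kf s) with hw
  have hmem : ∀ i j, det2 (s i) (s j) ∈ detSp Kf s := fun i j =>
    Submodule.subset_span ⟨i, j, rfl⟩
  obtain ⟨x, y, hxy, hB⟩ := hG Kf k (Module.finrank Kf (detSp Kf s)) hk hd
    (fun l i j => if i < j then w.repr ⟨det2 (s i) (s j), hmem i j⟩ l else 0)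
  refine ⟨∑ i, x i • s i, ∑ i, y i • s i, ?_, ?_, ?_, ?_⟩
  · exact Submodule.sum_mem _ fun i _ => Submodule.smul_mem _ _
      (Submodule.subset_span ⟨i, rfl⟩)
  · exact Submodule.sum_mem _ fun i _ => Submodule.smul_mem _ _
      (Submodule.subset_span ⟨i, rfl⟩)
  · have h1 : LinearMap.ker (Fintype.linearCombination Kf s) = ⊥ :=
      LinearMap.ker_eq_bot.mpr (linearIndependent_iff_injective_fintypeLinearCombination.mp hs)
    have h2 := hxy.map' (Fintype.linearCombination Kf s) h1
    have h3 : (Fintype.linearCombination Kf s) ∘ ![x, y] =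
        ![∑ i, x i • s i, ∑ i, y i • s i] := by
      funext a
      fin_cases a <;> simp [Fintype.linearCombination_apply]
    rw [h3] at h2
    exact h2
  · rw [det2_sum, alt_sum (fun i j => det2 (s i) (s j)) (fun i j => det2_swap _ _)
      (fun i => det2_self _)]
    set z : detSp Kf s := ∑ i, ∑ j, (if i < j then (x i * y j - x j * y i) •
      (⟨det2 (s i) (s j), hmem i j⟩ : detSp Kf s) else 0) with hz
    have hz0 : z = 0 := by
      apply w.repr.injective
      ext l
      rw [hz, map_sum, map_zero, Finsupp.coe_zero, Pi.zero_apply, Finsupp.finsetSum_apply]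
      rw [← hB l]
      refine Finset.sum_congr rfl fun i _ => ?_
      rw [map_sum, Finsupp.finsetSum_apply]
      refine Finset.sum_congr rfl fun j _ => ?_
      split_ifs with h
      · rw [map_smul, Finsupp.smul_apply, smul_eq_mul, mul_comm]
      · simp
    have hz1 : (detSp Kf s).subtype z = 0 := by rw [hz0, map_zero]
    refine Eq.trans ?_ hz1
    rw [hz, map_sum]
    refine Finset.sum_congr rfl fun i _ => ?_
    rw [map_sum]
    refine Finset.sum_congr rfl fun j _ => ?_
    split_ifs with h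
    · rfl
    · rw [map_zero]

end

end PEN_

open PEN_ in
theorem pen_proof (hG : Stmt_GRS) : Stmt_PEN := by
  intro Kf Lf _ _ _ _ k R s f hk hD
  obtain ⟨u, v, hu, hv, huv, hdet⟩ := exists_uv hG (by omega) s hD.ind
    (by have := hD.dc; omega)
  have hu0 : u ≠ 0 := by
    have := huv.ne_zero 0
    simpa using this
  set V := Submodule.span Kf (Set.range s) with hV
  have hVfin : FiniteDimensional Kf V := FiniteDimensional.span_of_finite Kf (Set.finite_range s)
  set Λ : Submodule Kf (Fin 2 → Lf) := V ⊓ LinearMap.ker (dl Kf u) with hΛ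
  have hΛV : Λ ≤ V := inf_le_left
  have hΛk : ∀ w ∈ Λ, det2 u w = 0 := fun w hw => LinearMap.mem_ker.mp hw.2
  have hΛfin : FiniteDimensional Kf Λ := Submodule.finiteDimensional_of_le hΛV
  obtain ⟨C0, hC0⟩ := exists_isCompl Λ
  set T : Submodule Kf (Fin 2 → Lf) := C0 ⊓ V with hT
  have hTV : T ≤ V := inf_le_right
  have hTfin : FiniteDimensional Kf T := Submodule.finiteDimensional_of_le hTV
  have hsup : Λ ⊔ T = V := by
    rw [hT, ← sup_inf_assoc_of_le _ hΛV, hC0.sup_eq_top, top_inf_eq]
  have hinf : Λ ⊓ T = ⊥ := by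
    rw [eq_bot_iff, ← hC0.inf_eq_bot]
    exact inf_le_inf_left _ inf_le_left
  have hsum : Module.finrank Kf Λ + Module.finrank Kf T = k := by
    have h1 := Submodule.finrank_sup_add_finrank_inf_eq Λ T
    rw [hsup, hinf, finrank_bot, add_zero] at h1
    rw [← h1, hV, finrank_span_eq_card hD.ind, Fintype.card_fin]
  have h2 : 2 ≤ Module.finrank Kf Λ := by
    have huL : u ∈ Λ := ⟨hu, LinearMap.mem_ker.mpr (det2_self u)⟩
    have hvL : v ∈ Λ := ⟨hv, LinearMap.mem_ker.mpr hdet⟩
    have h3 : LinearIndependent Kf (![⟨u, huL⟩, ⟨v, hvL⟩] : Fin 2 → Λ) := by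
      apply LinearIndependent.of_comp Λ.subtype
      have h4 : (Λ.subtype ∘ (![⟨u, huL⟩, ⟨v, hvL⟩] : Fin 2 → Λ)) = ![u, v] := by
        funext a
        fin_cases a <;> rfl
      rw [h4]
      exact huv
    have h5 := h3.fintype_card_le_finrank
    simpa using h5
  have h1 : 1 ≤ Module.finrank Kf T := by
    by_contra hlt
    have hT0 : T = ⊥ := Submodule.finrank_eq_zero.mp (by omega)
    rw [hT0, sup_bot_eq] at hsup
    obtain ⟨i, j, hij⟩ := hD.spn
    apply hij
    have hi : s i ∈ Λ := by rw [hsup]; exact Submodule.subset_span ⟨i, rfl⟩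
    have hj : s j ∈ Λ := by rw [hsup]; exact Submodule.subset_span ⟨j, rfl⟩
    exact par hu0 (hΛk _ hi) (hΛk _ hj)
  have hpar : ∀ a ∈ Λ, ∀ b ∈ Λ, det2 a b = 0 := fun a ha b hb =>
    par hu0 (hΛk _ ha) (hΛk _ hb)
  set eb := Module.finBasis Kf Λ with heb
  set tb := Module.finBasis Kf T with htb
  have espan : Submodule.span Kf (Set.range fun i => (eb i : Fin 2 → Lf)) = Λ := by
    have h4 := eb.span_eq
    have h5 : (Submodule.span Kf (Set.range eb)).map Λ.subtype = Λ := by
      rw [h4, Submodule.map_subtype_top]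
    rw [Submodule.map_span, ← Set.range_comp] at h5
    exact h5
  have tspan : Submodule.span Kf (Set.range fun i => (tb i : Fin 2 → Lf)) = T := by
    have h4 := tb.span_eq
    have h5 : (Submodule.span Kf (Set.range tb)).map T.subtype = T := by
      rw [h4, Submodule.map_subtype_top]
    rw [Submodule.map_span, ← Set.range_comp] at h5
    exact h5
  have eind : LinearIndependent Kf (fun i => (eb i : Fin 2 → Lf)) :=
    eb.linearIndependent.map' Λ.subtype (Submodule.ker_subtype _)
  have tind : LinearIndependent Kf (fun i => (tb i : Fin 2 → Lf)) :=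
    tb.linearIndependent.map' T.subtype (Submodule.ker_subtype _)
  set i0 : Fin (Module.finrank Kf Λ) := ⟨0, by omega⟩ with hi0
  have he0 : (eb i0 : Fin 2 → Lf) ≠ 0 := eind.ne_zero i0
  refine ⟨Module.finrank Kf Λ, Module.finrank Kf T, hsum, h2, h1, fun i => (eb i : Fin 2 → Lf),
    fun i => (tb i : Fin 2 → Lf), i0, ?_, ?_, eind, ?_⟩
  · rw [Submodule.span_union, espan, tspan, hsup]
  · exact fun i i' => hpar _ (eb i).2 _ (eb i').2
  · refine tind.map (f := dl Kf (eb i0 : Fin 2 → Lf)) ?_
    rw [tspan, Submodule.disjoint_def]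
    intro x hx hx2
    have hx3 : det2 (eb i0 : Fin 2 → Lf) x = 0 := LinearMap.mem_ker.mp hx2
    have hx4 : det2 u x = 0 := by
      refine par he0 ?_ hx3
      rw [det2_swap, hΛk _ (eb i0).2, neg_zero]
    have hx5 : x ∈ Λ ⊓ T := ⟨⟨hTV hx, LinearMap.mem_ker.mpr hx4⟩, hx⟩
    rw [hinf] at hx5
    exact (Submodule.mem_bot _).mp hx5

end Pool.Agent.RTB
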