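import Pool.Agent.RTB.SStmts

/-!
# squad RTB, module S3A: step 3, case A
-/

set_option autoImplicit false

open Polynomial

namespace Pool.Agent.RTB

namespace S3A_

variable {L : Type} [Field L]

theorem wr_comb (f1 f2 : L[X]) (a b c d : L) :
    wr (C a * f1 + C b * f2) (C c * f1 + C d * f2) = C (a * d - b * c) * wr f1 f2 := by
  simp only [wr, derivative_add, derivative_mul, derivative_C, C_sub, C_mul]; ring

theorem tline_span (S : Set L[X]) (c : L)
    (h : ∀ u ∈ S, ∀ v ∈ S, u.eval c * (derivative v).eval c = (derivative u).eval c * v.eval c) :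
    tline (Submodule.span L S) c := by
  intro u hu v hv
  induction hu using Submodule.span_induction with
  | mem x hx =>
    induction hv using Submodule.span_induction with
    | mem y hy => exact h x hx y hy
    | zero => simp
    | add y z _ _ hy hz =>
      simp only [derivative_add, eval_add, mul_add]
      rw [hy, hz]
    | smul a y _ hy =>
      simp only [derivative_smul, eval_smul, smul_eq_mul]
      linear_combination a * hy
  | zero => simp
  | add y z _ _ hy hz =>
    simp only [derivative_add, eval_add, add_mul]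
    rw [hy, hz]
  | smul a y _ hy =>
    simp only [derivative_smul, eval_smul, smul_eq_mul]
    linear_combination a * hy

theorem wr_self (a : L[X]) : wr a a = 0 := by simp only [wr]; ring

theorem wr_mul_left (a x y : L[X]) : wr (a * x) (a * y) = a ^ 2 * wr x y := by
  simp only [wr, derivative_mul]; ring

theorem tl_iff (u v : L[X]) (c : L) :
    u.eval c * (derivative v).eval c = (derivative u).eval c * v.eval c ↔
      (wr u v).eval c = 0 := by
  simp only [wr, eval_sub, eval_mul, sub_eq_zero]

theorem tline4 (p q r s : L[X]) (c : L) (h12 : (wr p q).eval c = 0) (h13 : (wr p r).eval c = 0)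
    (h14 : (wr p s).eval c = 0) (h23 : (wr q r).eval c = 0) (h24 : (wr q s).eval c = 0)
    (h34 : (wr r s).eval c = 0) : tline (Submodule.span L {p, q, r, s}) c := by
  have anti : ∀ x y : L[X], (wr x y).eval c = 0 → (wr y x).eval c = 0 := by
    intro x y h
    have : wr y x = - wr x y := by simp only [wr]; ring
    rw [this]; simp [h]
  have hself : ∀ x : L[X], (wr x x).eval c = 0 := by
    intro x; rw [wr_self]; simp
  apply tline_span
  intro u hu v hv
  rw [tl_iff]
  simp only [Set.mem_insert_iff, Set.mem_singleton_iff] at hu hv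
  rcases hu with hu | hu | hu | hu <;> rcases hv with hv | hv | hv | hv <;> rw [hu, hv]
  · exact hself _
  · exact h12
  · exact h13
  · exact h14
  · exact anti _ _ h12
  · exact hself _
  · exact h23
  · exact h24
  · exact anti _ _ h13
  · exact anti _ _ h23
  · exact hself _
  · exact h34
  · exact anti _ _ h14
  · exact anti _ _ h24
  · exact anti _ _ h34
  · exact hself _

/-- linear independence from the Wronskian -/
theorem indep {f1 f2 : L[X]} (h : wr f1 f2 ≠ 0) : LinearIndependent L ![f1, f2] := by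
  rw [LinearIndependent.pair_iff]
  intro s t hst
  have h1 : C s * f1 + C t * f2 = 0 := by
    simpa [smul_eq_C_mul] using hst
  have e1 : C s * wr f1 f2 = 0 := by
    have : wr (C s * f1 + C t * f2) f2 = C s * wr f1 f2 := by
      simp only [wr, derivative_add, derivative_mul, derivative_C]; ring
    rw [← this, h1]; simp [wr]
  have e2 : C t * wr f1 f2 = 0 := by
    have : wr f1 (C s * f1 + C t * f2) = C t * wr f1 f2 := by
      simp only [wr, derivative_add, derivative_mul, derivative_C]; ring
    rw [← this, h1]; simp [wr]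
  refine ⟨?_, ?_⟩
  · rcases mul_eq_zero.1 e1 with h2 | h2
    · simpa using h2
    · exact absurd h2 h
  · rcases mul_eq_zero.1 e2 with h2 | h2
    · simpa using h2
    · exact absurd h2 h

/-- the algebraic lemma on `l, l', a0` -/
theorem alg {l l' a0 : L[X]} {κ : L} (hκ : κ ≠ 0) (hl : l ≠ 0) (hl' : l' ≠ 0) (ha : a0 ≠ 0)
    (dl : l.natDegree ≤ 1) (dl' : l'.natDegree ≤ 1)
    (h : l ^ 3 * l' = C κ * a0 ^ 2) : ∃ b : L, b ≠ 0 ∧ a0 = C b * l ^ 2 := by
  have hdeg : 3 * l.natDegree + l'.natDegree = 2 * a0.natDegree := by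
    have h1 := congrArg natDegree h
    rw [natDegree_mul (pow_ne_zero 3 hl) hl', natDegree_pow, natDegree_C_mul hκ,
      natDegree_pow] at h1
    exact h1
  rcases Nat.lt_or_ge l.natDegree 1 with h0 | h1
  · have e0 : l.natDegree = 0 := by omega
    have e1 : a0.natDegree = 0 := by omega
    obtain ⟨x, hx⟩ := natDegree_eq_zero.1 e0
    obtain ⟨y, hy⟩ := natDegree_eq_zero.1 e1
    have hx0 : x ≠ 0 := by rintro rfl; apply hl; rw [← hx]; simp
    have hy0 : y ≠ 0 := by rintro rfl; apply ha; rw [← hy]; simp
    refine ⟨y / x ^ 2, div_ne_zero hy0 (pow_ne_zero 2 hx0), ?_⟩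
    rw [← hx, ← hy, ← C_pow, ← C_mul, div_mul_cancel₀ _ (pow_ne_zero 2 hx0)]
  · have e0 : l.natDegree = 1 := by omega
    have hp : Prime l := (irreducible_of_degree_eq_one (by
      rw [degree_eq_natDegree hl, e0]; rfl)).prime
    have hκu : IsUnit (C κ : L[X]) := isUnit_C.2 (isUnit_iff_ne_zero.2 hκ)
    have d1 : l ∣ a0 := by
      have : l ∣ C κ * a0 ^ 2 := ⟨l ^ 2 * l', by rw [← h]; ring⟩
      rcases hp.dvd_or_dvd this with h2 | h2
      · exact absurd (isUnit_of_dvd_unit h2 hκu) hp.not_unit
      · exact hp.dvd_of_dvd_pow h2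
    obtain ⟨a1, rfl⟩ := d1
    have h2 : l * l' = C κ * a1 ^ 2 := by
      apply mul_left_cancel₀ (pow_ne_zero 2 hl)
      linear_combination h
    have d2 : l ∣ a1 := by
      have : l ∣ C κ * a1 ^ 2 := ⟨l', by rw [← h2]⟩
      rcases hp.dvd_or_dvd this with h3 | h3
      · exact absurd (isUnit_of_dvd_unit h3 hκu) hp.not_unit
      · exact hp.dvd_of_dvd_pow h3
    obtain ⟨a2, rfl⟩ := d2
    have ha2 : a2 ≠ 0 := by rintro rfl; simp at ha
    have hd : a2.natDegree = 0 := by
      rw [natDegree_mul hl (mul_ne_zero hl ha2), natDegree_mul hl ha2] at hdeg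
      omega
    obtain ⟨y, hy⟩ := natDegree_eq_zero.1 hd
    refine ⟨y, ?_, ?_⟩
    · rintro rfl; apply ha2; rw [← hy]; simp
    · rw [← hy]; ring

end S3A_

open S3A_ in
theorem s3a_proof (hBN3 : Stmt_BN3) (hPNX : Stmt_PNX) (_hWDG : Stmt_WDG) (hHIN : Stmt_HIN)
    (_hWZR : Stmt_WZR) (_hKER : Stmt_KER) : Stmt_S3A := by
  classical
  intro L _ _ _ F f1 f2 l g1 g2 l' a0 k hk hF hf hg hgc hcop ha0 hda hex
  obtain ⟨hcard, hF', -, -, -, -⟩ := hHIN L F (2 * k - 3) hF
  obtain ⟨-, -, -, hP4, -⟩ := hPNX L F g1 g2 l' k (by omega) hF hg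
  have hF0 : F ≠ 0 := hF.mon.ne_zero
  have hwf : wr f1 f2 ≠ 0 := by rw [hf.hw]; exact mul_ne_zero hF0 hf.l0
  have hwg : wr g1 g2 ≠ 0 := by rw [hg.hw]; exact mul_ne_zero hF0 hg.l0
  -- the key relation
  have key : ∀ c, F.eval c = 0 → ∀ f, f = f1 ∨ f = f2 → ∀ g, g = g1 ∨ g = g2 →
      (wr (a0 * f) (l ^ 2 * g)).eval c = 0 := by
    intro c hc f hff g hgg
    obtain ⟨ω, hω, hωc⟩ := hcop c
    obtain ⟨v, -, hv⟩ := hex ω hω
    obtain ⟨m, -, hm⟩ := mem_DlSp.1 hω
    have h4 := hP4 m c hc g hgg
    rw [hm] at h4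
    have hkey : f * (a0 * ω) = wr (F * l) (wr f v) := by
      rw [← hv, ← hf.hw]
      rcases hff with rfl | rfl
      · exact key1 _ _ _
      · exact key2 _ _ _
    have e1 : (f * (a0 * ω)).eval c = -((derivative (F * l)).eval c * (wr f v).eval c) := by
      rw [hkey]; simp [wr, hc]
    have e2 : (derivative (f * (a0 * ω))).eval c
        = -((derivative (derivative (F * l))).eval c * (wr f v).eval c) := by
      rw [hkey]
      generalize wr f v = z
      have : derivative (wr (F * l) z) = F * l * derivative (derivative z)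
          - derivative (derivative (F * l)) * z := by
        simp only [wr, derivative_sub, derivative_mul]; ring
      rw [this]
      simp [hc]
    have e3 : (derivative (f * (a0 * ω))).eval c * (derivative (F * l)).eval c
        = (derivative (derivative (F * l))).eval c * (f * (a0 * ω)).eval c := by
      rw [e1, e2]; ring
    have e4 : (derivative (F * l)).eval c = (derivative F).eval c * l.eval c := by
      simp [derivative_mul, hc]
    have e5 : (derivative (derivative (F * l))).eval c = (derivative (derivative F)).eval c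
        * l.eval c + 2 * ((derivative F).eval c * (derivative l).eval c) := by
      simp only [derivative_mul, derivative_add, eval_add, eval_mul, hc]
      ring
    rw [e4, e5] at e3
    simp only [derivative_mul, eval_add, eval_mul] at e3 h4
    have hz : (derivative F).eval c * ω.eval c * (wr (a0 * f) (l ^ 2 * g)).eval c = 0 := by
      simp only [wr, pow_two, derivative_mul, eval_add, eval_mul, eval_sub]
      linear_combination (- (g.eval c) * l.eval c) * e3
        + (f.eval c * a0.eval c * l.eval c * l.eval c) * h4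
    rcases mul_eq_zero.1 hz with h5 | h5
    · rcases mul_eq_zero.1 h5 with h6 | h6
      · exact absurd h6 (hF' c hc)
      · exact absurd h6 hωc
    · exact h5
  set S : Set L[X] := {a0 * f1, a0 * f2, l ^ 2 * g1, l ^ 2 * g2} with hS
  set U : Submodule L L[X] := Submodule.span L S with hU
  have hSfin : S.Finite := by
    rw [hS]; exact Set.toFinite _
  have hUfd : FiniteDimensional L U := FiniteDimensional.span_of_finite L hSfin
  have htl : ∀ c ∈ F.roots.toFinset, tline U c := by
    intro c hc
    have hc0 : F.eval c = 0 := by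
      have := (mem_roots hF0).1 (Multiset.mem_toFinset.1 hc)
      exact this
    have kf : (wr f1 f2).eval c = 0 := by rw [hf.hw]; simp [hc0]
    have kg : (wr g1 g2).eval c = 0 := by rw [hg.hw]; simp [hc0]
    have w12 : (wr (a0 * f1) (a0 * f2)).eval c = 0 := by rw [wr_mul_left]; simp [kf]
    have w34 : (wr (l ^ 2 * g1) (l ^ 2 * g2)).eval c = 0 := by rw [wr_mul_left]; simp [kg]
    have w13 := key c hc0 f1 (Or.inl rfl) g1 (Or.inl rfl)
    have w14 := key c hc0 f1 (Or.inl rfl) g2 (Or.inr rfl)
    have w23 := key c hc0 f2 (Or.inr rfl) g1 (Or.inl rfl)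
    have w24 := key c hc0 f2 (Or.inr rfl) g2 (Or.inr rfl)
    exact tline4 _ _ _ _ c w12 w13 w14 w23 w24 w34
  have hdegU : ∀ u ∈ U, u.natDegree ≤ k + 2 := by
    intro u hu
    have hle : U ≤ PL L (k + 2) := by
      rw [hU, Submodule.span_le]
      intro x hx
      rw [hS] at hx
      simp only [Set.mem_insert_iff, Set.mem_singleton_iff] at hx
      have dl2 : (l ^ 2).natDegree ≤ 2 := by
        refine le_trans natDegree_pow_le ?_
        have := hf.dl
        omega
      show x.natDegree ≤ k + 2
      rcases hx with rfl | rfl | rfl | rfl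
      · refine le_trans natDegree_mul_le ?_
        have := hf.d1; omega
      · refine le_trans natDegree_mul_le ?_
        have := hf.d2; omega
      · refine le_trans natDegree_mul_le ?_
        have := hg.d1; omega
      · refine le_trans natDegree_mul_le ?_
        have := hg.d2; omega
    exact hle hu
  have hrank : Module.finrank L U ≤ 2 := by
    refine hBN3 L U (k + 2) F.roots.toFinset hUfd hdegU htl ?_
    have hcard' : F.roots.toFinset.card = 2 * k - 3 := by
      rw [← hcard]
    rw [hcard']; omega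
  have hwaf : wr (a0 * f1) (a0 * f2) ≠ 0 := by
    rw [wr_mul_left]; exact mul_ne_zero (pow_ne_zero 2 ha0) hwf
  have hind := indep hwaf
  have hV : Submodule.span L {a0 * f1, a0 * f2} = U := by
    apply Submodule.eq_of_le_of_finrank_le
    · rw [hU]
      apply Submodule.span_mono
      rw [hS]
      intro x hx
      simp only [Set.mem_insert_iff, Set.mem_singleton_iff] at hx ⊢
      rcases hx with rfl | rfl
      · exact Or.inl rfl
      · exact Or.inr (Or.inl rfl)
    · have h2 : Module.finrank L (Submodule.span L (Set.range ![a0 * f1, a0 * f2])) = 2 := by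
        rw [finrank_span_eq_card hind]; simp
      have h3 : Set.range ![a0 * f1, a0 * f2] = {a0 * f1, a0 * f2} := by
        simp [Matrix.range_cons, Set.pair_comm]
      rw [h3] at h2
      rw [h2]; exact hrank
  have hmem1 : l ^ 2 * g1 ∈ Submodule.span L {a0 * f1, a0 * f2} := by
    rw [hV, hU]; apply Submodule.subset_span; rw [hS]; simp
  have hmem2 : l ^ 2 * g2 ∈ Submodule.span L {a0 * f1, a0 * f2} := by
    rw [hV, hU]; apply Submodule.subset_span; rw [hS]; simp
  obtain ⟨α, β, h1⟩ := Submodule.mem_span_pair.1 hmem1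
  obtain ⟨γ, δ, h2⟩ := Submodule.mem_span_pair.1 hmem2
  simp only [smul_eq_C_mul] at h1 h2
  have hW : l ^ 3 * l' = C (α * δ - β * γ) * a0 ^ 2 := by
    have e : wr (l ^ 2 * g1) (l ^ 2 * g2) = C (α * δ - β * γ) * wr (a0 * f1) (a0 * f2) := by
      rw [← h1, ← h2, wr_comb]
    rw [wr_mul_left, wr_mul_left, hf.hw, hg.hw] at e
    apply mul_left_cancel₀ (mul_ne_zero hF0 hf.l0)
    linear_combination e
  have hκ : α * δ - β * γ ≠ 0 := by
    intro h0
    rw [h0, C_0, zero_mul] at hW
    exact (mul_ne_zero (pow_ne_zero 3 hf.l0) hg.l0) hW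
  obtain ⟨b, hb, hab⟩ := alg hκ hf.l0 hg.l0 ha0 hf.dl hg.dl hW
  have hl2 : l ^ 2 ≠ 0 := pow_ne_zero 2 hf.l0
  have hg1 : g1 = C (b * α) * f1 + C (b * β) * f2 := by
    apply mul_left_cancel₀ hl2
    rw [← h1, hab]
    simp only [C_mul]; ring
  have hg2 : g2 = C (b * γ) * f1 + C (b * δ) * f2 := by
    apply mul_left_cancel₀ hl2
    rw [← h2, hab]
    simp only [C_mul]; ring
  set Δ : L := b * α * (b * δ) - b * β * (b * γ) with hΔ
  have hΔ0 : Δ ≠ 0 := by
    rw [hΔ]
    have : b * α * (b * δ) - b * β * (b * γ) = b ^ 2 * (α * δ - β * γ) := by ring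
    rw [this]; exact mul_ne_zero (pow_ne_zero 2 hb) hκ
  have hll : l' = C Δ * l := by
    have e : wr g1 g2 = C Δ * wr f1 f2 := by
      rw [hg1, hg2, wr_comb]
    rw [hf.hw, hg.hw] at e
    apply mul_left_cancel₀ hF0
    linear_combination e
  have hDl : ∀ m, Dl F l' g1 g2 m = C Δ * Dl F l f1 f2 m := by
    intro m
    have e : wr (derivative g1) (derivative g2) = C Δ * wr (derivative f1) (derivative f2) := by
      have c1 : derivative g1 = C (b * α) * derivative f1 + C (b * β) * derivative f2 := by
        rw [hg1]; simp only [derivative_add, derivative_C_mul]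
      have c2 : derivative g2 = C (b * γ) * derivative f1 + C (b * δ) * derivative f2 := by
        rw [hg2]; simp only [derivative_add, derivative_C_mul]
      rw [c1, c2, wr_comb]
    simp only [Dl, e, hll, derivative_C_mul]
    ring
  have hDl2 : ∀ m, Dl F l f1 f2 (C Δ * m) = C Δ * Dl F l f1 f2 m := by
    intro m
    simp only [Dl, derivative_C_mul]; ring
  refine ⟨⟨b, hb, hab⟩, ?_, ?_⟩
  · ext p
    rw [mem_DlSp, mem_DlSp]
    constructor
    · rintro ⟨m, hm, rfl⟩
      refine ⟨C Δ * m, le_trans (natDegree_C_mul_le _ _) hm, ?_⟩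
      rw [hDl2, hDl]
    · rintro ⟨m, hm, rfl⟩
      refine ⟨C Δ⁻¹ * m, le_trans (natDegree_C_mul_le _ _) hm, ?_⟩
      rw [hDl, ← hDl2, ← mul_assoc, ← C_mul, mul_inv_cancel₀ hΔ0, C_1, one_mul]
  · intro c hc
    by_contra hcon
    push_neg at hcon
    rcases hgc c hc with h | h
    · apply h; rw [hg1]; simp [hcon.1, hcon.2]
    · apply h; rw [hg2]; simp [hcon.1, hcon.2]

end Pool.Agent.RTB
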