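import Mathlib

/-!
# squad RTB, part U: ultraproducts of fields and vector spaces
-/

set_option autoImplicit false

open Filter

namespace Pool.Agent.RTB

section
variable {I : Type} (U : Ultrafilter I) (K : I → Type) [∀ i, Field (K i)]

/-- the functions which vanish almost everywhere -/
def upIdeal : Ideal (∀ i, K i) where
  carrier := {f | ∀ᶠ i in (U : Filter I), f i = 0}
  zero_mem' := Eventually.of_forall fun _ => rfl
  add_mem' := fun {a b} ha hb => by
    filter_upwards [ha, hb] with i h1 h2
    simp [h1, h2]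
  smul_mem' := fun c x hx => by
    filter_upwards [hx] with i h1
    simp [h1]

theorem mem_upIdeal (f : ∀ i, K i) : f ∈ upIdeal U K ↔ ∀ᶠ i in (U : Filter I), f i = 0 := Iff.rfl

instance upIdeal_max : (upIdeal U K).IsMaximal := by
  rw [Ideal.isMaximal_iff]
  refine ⟨?_, ?_⟩
  · intro h
    rw [mem_upIdeal] at h
    obtain ⟨i, hi⟩ := h.exists
    exact one_ne_zero hi
  · intro J x hJ hx hxJ
    rw [mem_upIdeal] at hx
    have hx' : ∀ᶠ i in (U : Filter I), x i ≠ 0 := by
      rwa [← Ultrafilter.eventually_not] at hx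
    have h1 : (1 : ∀ i, K i) - (fun i => (x i)⁻¹) * x ∈ upIdeal U K := by
      rw [mem_upIdeal]
      filter_upwards [hx'] with i hi
      simp [hi]
    have h2 := J.add_mem (hJ h1) (J.mul_mem_left (fun i => (x i)⁻¹) hxJ)
    simpa using h2

/-- the ultraproduct of the fields `K i` -/
def UP : Type := (∀ i, K i) ⧸ upIdeal U K

/-- the field structure, kept opaque -/
noncomputable def UP.fieldAux : Field (UP U K) := Ideal.Quotient.field (upIdeal U K)

noncomputable instance : Field (UP U K) := UP.fieldAux U K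

/-- the class of a function -/
noncomputable def UP.mk : (∀ i, K i) →+* UP U K := Ideal.Quotient.mk (upIdeal U K)

variable {K}

theorem UP.mk_surj : Function.Surjective (UP.mk U K) := Ideal.Quotient.mk_surjective

theorem UP.mk_eq_zero (f : ∀ i, K i) : UP.mk U K f = 0 ↔ ∀ᶠ i in (U : Filter I), f i = 0 := by
  rw [← mem_upIdeal]
  exact Ideal.Quotient.eq_zero_iff_mem

theorem UP.mk_eq (f g : ∀ i, K i) :
    UP.mk U K f = UP.mk U K g ↔ ∀ᶠ i in (U : Filter I), f i = g i := by
  rw [← sub_eq_zero, ← map_sub, UP.mk_eq_zero]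
  simp [sub_eq_zero]

theorem UP.mk_ne_zero (f : ∀ i, K i) :
    UP.mk U K f ≠ 0 ↔ ∀ᶠ i in (U : Filter I), f i ≠ 0 := by
  rw [ne_eq, UP.mk_eq_zero, ← Ultrafilter.eventually_not]

theorem UP.natCast (n : ℕ) : (n : UP U K) = UP.mk U K (fun i => (n : K i)) := by
  have : (fun i => (n : K i)) = ((n : ∀ i, K i)) := rfl
  rw [this, map_natCast]

instance UP.charZero [∀ i, CharZero (K i)] : CharZero (UP U K) := by
  refine charZero_of_inj_zero fun n hn => ?_
  rw [UP.natCast, UP.mk_eq_zero] at hn
  obtain ⟨i, hi⟩ := hn.exists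
  exact_mod_cast hi

open Polynomial in
instance UP.algClosed [∀ i, IsAlgClosed (K i)] : IsAlgClosed (UP U K) := by
  refine IsAlgClosed.of_exists_root _ fun p hp hirr => ?_
  have hn : 0 < p.natDegree := hirr.natDegree_pos
  choose a ha using fun j : ℕ => UP.mk_surj U (p.coeff j)
  have h1 : ∀ i, ∃ x : K i, x ^ p.natDegree +
      ∑ j ∈ Finset.range p.natDegree, a j i * x ^ j = 0 := by
    intro i
    set q : (K i)[X] := X ^ p.natDegree + ∑ j ∈ Finset.range p.natDegree, C (a j i) * X ^ j with hq
    have hd : q.degree ≠ 0 := by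
      have h2 : (∑ j ∈ Finset.range p.natDegree, C (a j i) * X ^ j : (K i)[X]).degree
          < (X ^ p.natDegree : (K i)[X]).degree := by
        rw [Finset.sum_range, degree_X_pow]
        exact degree_sum_fin_lt (fun j : Fin p.natDegree => a j i)
      rw [hq, degree_add_eq_left_of_degree_lt h2, degree_X_pow]
      intro h
      have : p.natDegree = 0 := by exact_mod_cast h
      omega
    obtain ⟨x, hx⟩ := IsAlgClosed.exists_root q hd
    refine ⟨x, ?_⟩
    have := hx
    simpa [hq, IsRoot, eval_finsetSum] using this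
  choose x hx using h1
  refine ⟨UP.mk U K x, ?_⟩
  have h3 : UP.mk U K (x ^ p.natDegree + ∑ j ∈ Finset.range p.natDegree, a j * x ^ j) = 0 := by
    rw [UP.mk_eq_zero]
    refine Eventually.of_forall fun i => ?_
    have := hx i
    simpa using this
  rw [map_add, map_pow, map_sum] at h3
  have h4 := eval_eq_sum_range (p := p) (UP.mk U K x)
  rw [h4, Finset.sum_range_succ]
  have h5 : p.coeff p.natDegree = 1 := hp
  rw [h5, one_mul, add_comm, ← h3]
  congr 1
  refine Finset.sum_congr rfl fun j _ => ?_
  rw [map_mul, map_pow, ha]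

/-- the ultraproduct is an algebra over the ultrapower of `ℂ` -/
noncomputable instance UP.alg [∀ i, Algebra ℂ (K i)] :
    Algebra (UP U (fun _ : I => ℂ)) (UP U K) :=
  RingHom.toAlgebra (Ideal.Quotient.lift (upIdeal U (fun _ : I => ℂ))
    ((UP.mk U K).comp (RingHom.pi fun i =>
      (algebraMap ℂ (K i)).comp (Pi.evalRingHom (fun _ : I => ℂ) i)))
    (fun f hf => by
      rw [mem_upIdeal] at hf
      rw [RingHom.comp_apply, UP.mk_eq_zero]
      filter_upwards [hf] with i hi
      show algebraMap ℂ (K i) (f i) = 0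
      rw [hi, map_zero]))

theorem UP.smul_mk [∀ i, Algebra ℂ (K i)] (c : I → ℂ) (v : ∀ i, K i) :
    UP.mk U (fun _ : I => ℂ) c • UP.mk U K v = UP.mk U K (fun i => c i • v i) := by
  have h : algebraMap (UP U (fun _ : I => ℂ)) (UP U K) (UP.mk U (fun _ : I => ℂ) c)
      = UP.mk U K (fun i => algebraMap ℂ (K i) (c i)) := rfl
  rw [Algebra.smul_def, h, ← map_mul]
  congr 1
  funext i
  simp [Algebra.smul_def]

end

/-- `W` is the ultraproduct of the vector spaces `V i`, with quotient map `q` -/
structure IsUP {I : Type} (U : Ultrafilter I) (V : I → Type) [∀ i, AddCommGroup (V i)]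
    [∀ i, Module ℂ (V i)] (W : Type) [AddCommGroup W] [Module (UP U (fun _ : I => ℂ)) W]
    (q : (∀ i, V i) →+ W) : Prop where
  surj : Function.Surjective q
  ker : ∀ v, q v = 0 ↔ ∀ᶠ i in (U : Filter I), v i = 0
  smul : ∀ (c : I → ℂ) v, q (fun i => c i • v i) = UP.mk U (fun _ : I => ℂ) c • q v

section
variable {I : Type} {U : Ultrafilter I}

/-- a function to a finite type is constant almost everywhere -/
theorem eventually_const {β : Type} [Finite β] (f : I → β) :
    ∃ b, ∀ᶠ i in (U : Filter I), f i = b := by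
  obtain ⟨b, hb⟩ := Ultrafilter.eq_pure_of_finite (U.map f)
  refine ⟨b, ?_⟩
  have h1 : ({b} : Set β) ∈ U.map f := by rw [hb]; exact Ultrafilter.mem_pure.2 rfl
  exact h1

theorem eventually_exists {β : Type} [Finite β] {P : I → β → Prop}
    (h : ∀ᶠ i in (U : Filter I), ∃ b, P i b) : ∃ b, ∀ᶠ i in (U : Filter I), P i b := by
  classical
  obtain ⟨i0, hi0⟩ := h.exists
  obtain ⟨b0, _⟩ := hi0
  let f : I → β := fun i => if h : ∃ b, P i b then h.choose else b0
  obtain ⟨b, hb⟩ := eventually_const (U := U) f
  refine ⟨b, ?_⟩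
  filter_upwards [h, hb] with i h1 h2
  have h3 : f i = h1.choose := dif_pos h1
  rw [← h2, h3]
  exact h1.choose_spec

variable {V : I → Type} [∀ i, AddCommGroup (V i)] [∀ i, Module ℂ (V i)]
  {W : Type} [AddCommGroup W] [Module (UP U (fun _ : I => ℂ)) W] {q : (∀ i, V i) →+ W}

theorem IsUP.eq_iff (hq : IsUP U V W q) (v w : ∀ i, V i) :
    q v = q w ↔ ∀ᶠ i in (U : Filter I), v i = w i := by
  rw [← sub_eq_zero, ← map_sub, hq.ker]
  simp [sub_eq_zero]

theorem IsUP.sum (hq : IsUP U V W q) {ι : Type} (s : Finset ι) (c : ι → I → ℂ)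
    (v : ι → ∀ i, V i) :
    ∑ a ∈ s, UP.mk U (fun _ : I => ℂ) (c a) • q (v a) = q (fun i => ∑ a ∈ s, c a i • v a i) := by
  have h1 : (fun i => ∑ a ∈ s, c a i • v a i) = ∑ a ∈ s, (fun i => c a i • v a i) := by
    funext i
    simp
  rw [h1, map_sum]
  exact Finset.sum_congr rfl fun a _ => (hq.smul _ _).symm

/-- Los, linear independence -/
theorem IsUP.li (hq : IsUP U V W q) {ι : Type} [Finite ι] (v : ι → ∀ i, V i) :
    LinearIndependent (UP U (fun _ : I => ℂ)) (fun a => q (v a)) ↔
      ∀ᶠ i in (U : Filter I), LinearIndependent ℂ (fun a => v a i) := by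
  classical
  have := Fintype.ofFinite ι
  constructor
  · intro h
    by_contra hcon
    rw [← Ultrafilter.eventually_not] at hcon
    have h1 : ∀ i, ∃ c : ι → ℂ, ¬ LinearIndependent ℂ (fun a => v a i) →
        (∑ a, c a • v a i = 0 ∧ ∃ a, c a ≠ 0) := by
      intro i
      by_cases hi : LinearIndependent ℂ (fun a => v a i)
      · exact ⟨0, fun h => absurd hi h⟩
      · rw [Fintype.not_linearIndependent_iff] at hi
        obtain ⟨c, hc1, hc2⟩ := hi
        exact ⟨c, fun _ => ⟨hc1, hc2⟩⟩
    choose c hc using h1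
    have h2 : ∀ᶠ i in (U : Filter I), ∃ a, c i a ≠ 0 := by
      filter_upwards [hcon] with i hi
      exact (hc i hi).2
    obtain ⟨a, ha⟩ := eventually_exists h2
    have h3 : ∑ a, UP.mk U (fun _ : I => ℂ) (fun i => c i a) • q (v a) = 0 := by
      rw [hq.sum Finset.univ (fun a i => c i a), hq.ker]
      filter_upwards [hcon] with i hi
      exact (hc i hi).1
    have h4 := Fintype.linearIndependent_iff.1 h _ h3 a
    rw [UP.mk_eq_zero] at h4
    obtain ⟨i, h5, h6⟩ := (h4.and ha).exists
    exact h6 h5
  · intro h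
    rw [Fintype.linearIndependent_iff]
    intro c hc a
    choose c' hc' using fun a => UP.mk_surj U (c a)
    have h1 : q (fun i => ∑ a, c' a i • v a i) = 0 := by
      rw [← hq.sum, ← hc]
      exact Finset.sum_congr rfl fun a _ => by rw [hc']
    rw [hq.ker] at h1
    rw [← hc', UP.mk_eq_zero]
    filter_upwards [h, h1] with i h2 h3
    exact Fintype.linearIndependent_iff.1 h2 (fun a => c' a i) h3 a

/-- Los, membership in a span -/
theorem IsUP.span (hq : IsUP U V W q) {ι : Type} [Finite ι] (v : ι → ∀ i, V i) (w : ∀ i, V i) :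
    q w ∈ Submodule.span (UP U (fun _ : I => ℂ)) (Set.range fun a => q (v a)) ↔
      ∀ᶠ i in (U : Filter I), w i ∈ Submodule.span ℂ (Set.range fun a => v a i) := by
  classical
  have := Fintype.ofFinite ι
  constructor
  · intro h
    rw [Submodule.mem_span_range_iff_exists_fun] at h
    obtain ⟨c, hc⟩ := h
    choose c' hc' using fun a => UP.mk_surj U (c a)
    have h1 : q (fun i => ∑ a, c' a i • v a i) = q w := by
      rw [← hq.sum, ← hc]
      exact Finset.sum_congr rfl fun a _ => by rw [hc']
    rw [hq.eq_iff] at h1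
    filter_upwards [h1] with i hi
    rw [Submodule.mem_span_range_iff_exists_fun]
    exact ⟨fun a => c' a i, hi⟩
  · intro h
    have h1 : ∀ i, ∃ c : ι → ℂ, w i ∈ Submodule.span ℂ (Set.range fun a => v a i) →
        ∑ a, c a • v a i = w i := by
      intro i
      by_cases hi : w i ∈ Submodule.span ℂ (Set.range fun a => v a i)
      · obtain ⟨c, hc⟩ := (Submodule.mem_span_range_iff_exists_fun ℂ).1 hi
        exact ⟨c, fun _ => hc⟩
      · exact ⟨0, fun h => absurd h hi⟩
    choose c hc using h1
    rw [Submodule.mem_span_range_iff_exists_fun]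
    refine ⟨fun a => UP.mk U (fun _ : I => ℂ) (fun i => c i a), ?_⟩
    rw [hq.sum Finset.univ (fun a i => c i a), hq.eq_iff]
    filter_upwards [h] with i hi
    exact hc i hi

/-- Los, dimensions of spans -/
theorem IsUP.finrank (hq : IsUP U V W q) {ι : Type} [Finite ι] (v : ι → ∀ i, V i) :
    ∀ᶠ i in (U : Filter I),
      Module.finrank ℂ (Submodule.span ℂ (Set.range fun a => v a i)) =
      Module.finrank (UP U (fun _ : I => ℂ))
        (Submodule.span (UP U (fun _ : I => ℂ)) (Set.range fun a => q (v a))) := by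
  classical
  have := Fintype.ofFinite ι
  have h1 : ∀ᶠ i in (U : Filter I), ∃ B : Set ι,
      LinearIndependent ℂ (fun a : B => v a i) ∧
      ∀ a, v a i ∈ Submodule.span ℂ (Set.range fun a : B => v a i) := by
    refine Eventually.of_forall fun i => ?_
    obtain ⟨κ, a, h1, h2, h3⟩ := exists_linearIndependent' ℂ (fun a => v a i)
    refine ⟨Set.range a, ?_, ?_⟩
    · rw [← linearIndependent_equiv (Equiv.ofInjective a h1)]
      exact h3
    · intro b
      have h4 : v b i ∈ Submodule.span ℂ (Set.range fun a => v a i) :=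
        Submodule.subset_span ⟨b, rfl⟩
      rw [← h2] at h4
      refine Submodule.span_mono ?_ h4
      rintro _ ⟨x, rfl⟩
      exact ⟨⟨a x, x, rfl⟩, rfl⟩
  obtain ⟨B, hB⟩ := eventually_exists h1
  have h2 : LinearIndependent (UP U (fun _ : I => ℂ)) (fun a : B => q (v a)) := by
    rw [hq.li (fun a : B => v a)]
    exact hB.mono fun i hi => hi.1
  have h3 : ∀ a, q (v a) ∈
      Submodule.span (UP U (fun _ : I => ℂ)) (Set.range fun a : B => q (v a)) := by
    intro a
    rw [hq.span (fun a : B => v a)]
    exact hB.mono fun i hi => hi.2 a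
  have h4 : Submodule.span (UP U (fun _ : I => ℂ)) (Set.range fun a => q (v a)) =
      Submodule.span (UP U (fun _ : I => ℂ)) (Set.range fun a : B => q (v a)) := by
    apply le_antisymm
    · rw [Submodule.span_le]
      rintro _ ⟨a, rfl⟩
      exact h3 a
    · apply Submodule.span_mono
      rintro _ ⟨a, rfl⟩
      exact ⟨a, rfl⟩
  filter_upwards [hB] with i hi
  have h5 : Submodule.span ℂ (Set.range fun a => v a i) =
      Submodule.span ℂ (Set.range fun a : B => v a i) := by
    apply le_antisymm
    · rw [Submodule.span_le]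
      rintro _ ⟨a, rfl⟩
      exact hi.2 a
    · apply Submodule.span_mono
      rintro _ ⟨a, rfl⟩
      exact ⟨a, rfl⟩
  rw [h4, h5, finrank_span_eq_card h2, finrank_span_eq_card hi.1]

end

section
variable {I : Type} (U : Ultrafilter I) (K : I → Type) [∀ i, Field (K i)] [∀ i, Algebra ℂ (K i)]

/-- the fields themselves -/
theorem isUP_field :
    IsUP U K (UP U K) (UP.mk U K : (∀ i, K i) →+ UP U K) where
  surj := UP.mk_surj U
  ker := UP.mk_eq_zero U
  smul := fun c v => (UP.smul_mk U c v).symm

/-- the quotient map on pairs -/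
noncomputable def mk2 (K : I → Type) [∀ i, Field (K i)] :
    (∀ i, Fin 2 → K i) →+ (Fin 2 → UP U K) where
  toFun v j := UP.mk U K (fun i => v i j)
  map_zero' := by
    funext j
    exact map_zero (UP.mk U K)
  map_add' v w := by
    funext j
    exact map_add (UP.mk U K) _ _

theorem isUP_pair :
    IsUP U (fun i => Fin 2 → K i) (Fin 2 → UP U K) (mk2 U K) where
  surj := by
    intro w
    choose v hv using fun j => UP.mk_surj U (w j)
    exact ⟨fun i j => v j i, funext fun j => hv j⟩
  ker := by
    intro v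
    constructor
    · intro h
      have h0 := congrFun h 0
      have h1 := congrFun h 1
      have h0' := (UP.mk_eq_zero U _).1 h0
      have h1' := (UP.mk_eq_zero U _).1 h1
      filter_upwards [h0', h1'] with i a b
      funext j
      fin_cases j
      · exact a
      · exact b
    · intro h
      funext j
      refine (UP.mk_eq_zero U _).2 ?_
      filter_upwards [h] with i hi
      rw [hi]
      rfl
  smul := by
    intro c v
    funext j
    exact (UP.smul_mk U c (fun i => v i j)).symm

end

end Pool.Agent.RTB
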