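import Pool.Agent.RTB.KDefs
import Pool.Agent.RTB.UProd

/-!
# squad RTB, part U: transfer of the data of a bad bundle to the ultraproduct
-/

set_option autoImplicit false

open Filter

namespace Pool.Agent.RTB

namespace U_

section
variable {k0 K : Type} [Field k0] [Field K] [Algebra k0 K]

theorem smSp_span {ι κ : Type} (a : ι → K) (b : κ → Fin 2 → K) :
    smSp (Submodule.span k0 (Set.range a)) (Submodule.span k0 (Set.range b)) =
      Submodule.span k0 (Set.range fun p : ι × κ => a p.1 • b p.2) := by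
  apply le_antisymm
  · unfold smSp
    rw [Submodule.span_le]
    rintro _ ⟨r, hr, u, hu, rfl⟩
    show r • u ∈ Submodule.span k0 (Set.range fun p : ι × κ => a p.1 • b p.2)
    induction hr using Submodule.span_induction with
    | mem x hx =>
      obtain ⟨i, rfl⟩ := hx
      induction hu using Submodule.span_induction with
      | mem y hy =>
        obtain ⟨j, rfl⟩ := hy
        exact Submodule.subset_span ⟨(i, j), rfl⟩
      | zero => rw [smul_zero]; exact Submodule.zero_mem _
      | add y z _ _ hy hz => rw [smul_add]; exact Submodule.add_mem _ hy hz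
      | smul c y _ hy =>
        rw [smul_comm]; exact Submodule.smul_mem _ c hy
    | zero => rw [zero_smul]; exact Submodule.zero_mem _
    | add y z _ _ hy hz => rw [add_smul]; exact Submodule.add_mem _ hy hz
    | smul c y _ hy =>
      rw [smul_assoc]; exact Submodule.smul_mem _ c hy
  · rw [Submodule.span_le]
    rintro _ ⟨⟨i, j⟩, rfl⟩
    exact Submodule.subset_span ⟨a i, Submodule.subset_span ⟨i, rfl⟩, b j,
      Submodule.subset_span ⟨j, rfl⟩, rfl⟩

theorem mul_span {ι κ : Type} (a : ι → K) (b : κ → K) :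
    Submodule.span k0 (Set.range a) * Submodule.span k0 (Set.range b) =
      Submodule.span k0 (Set.range fun p : ι × κ => a p.1 * b p.2) := by
  rw [Submodule.span_mul_span]
  congr 1
  ext x
  rw [Set.mem_mul]
  constructor
  · rintro ⟨_, ⟨i, rfl⟩, _, ⟨j, rfl⟩, rfl⟩
    exact ⟨(i, j), rfl⟩
  · rintro ⟨⟨i, j⟩, rfl⟩
    exact ⟨_, ⟨i, rfl⟩, _, ⟨j, rfl⟩, rfl⟩

theorem Rn_range (g : ℕ) (β : ℕ → K) (n : ℕ) :
    Rn k0 g β n = Submodule.span k0 (Set.range fun j : Fin (n - g + 1) => β j) := by
  unfold Rn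
  congr 1
  ext x
  constructor
  · rintro ⟨j, hj, rfl⟩
    exact ⟨⟨j, Nat.lt_succ_of_le hj⟩, rfl⟩
  · rintro ⟨j, rfl⟩
    exact ⟨j, Nat.le_of_lt_succ j.2, rfl⟩

theorem detSp_range {k : ℕ} (s : Fin k → Fin 2 → K) :
    detSp k0 s = Submodule.span k0 (Set.range fun p : Fin k × Fin k => det2 (s p.1) (s p.2)) := by
  unfold detSp
  congr 1
  ext x
  constructor
  · rintro ⟨i, j, rfl⟩
    exact ⟨(i, j), rfl⟩
  · rintro ⟨⟨i, j⟩, rfl⟩
    exact ⟨i, j, rfl⟩

theorem det2_span (S : Set (Fin 2 → K)) (h : ∀ x ∈ S, ∀ y ∈ S, det2 x y = 0) :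
    ∀ x ∈ Submodule.span k0 S, ∀ y ∈ Submodule.span k0 S, det2 x y = 0 := by
  have h1 : ∀ x ∈ S, ∀ y ∈ Submodule.span k0 S, det2 x y = 0 := by
    intro x hx y hy
    induction hy using Submodule.span_induction with
    | mem y hy => exact h x hx y hy
    | zero => simp [det2]
    | add y z _ _ hy hz =>
      have : det2 x (y + z) = det2 x y + det2 x z := by simp [det2]; ring
      rw [this, hy, hz, add_zero]
    | smul c y _ hy =>
      have : det2 x (c • y) = c • det2 x y := by
        simp only [det2, Pi.smul_apply, smul_sub, mul_smul_comm, smul_mul_assoc]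
      rw [this, hy, smul_zero]
  intro x hx y hy
  induction hx using Submodule.span_induction with
  | mem x hx => exact h1 x hx y hy
  | zero => simp [det2]
  | add a b _ _ ha hb =>
    have : det2 (a + b) y = det2 a y + det2 b y := by simp [det2]; ring
    rw [this, ha, hb, add_zero]
  | smul c a _ ha =>
    have : det2 (c • a) y = c • det2 a y := by
      simp only [det2, Pi.smul_apply, smul_sub, mul_smul_comm, smul_mul_assoc]
    rw [this, ha, smul_zero]

end

section
variable {I : Type} (U : Ultrafilter I) {K : I → Type} [∀ i, Field (K i)] [∀ i, Algebra ℂ (K i)]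

/-- the ultrapower of `ℂ` -/
abbrev KU {I : Type} (U : Ultrafilter I) : Type := UP U (fun _ : I => ℂ)

theorem mk2_smul (b : ∀ i, K i) (v : ∀ i, Fin 2 → K i) :
    mk2 U K (fun i => b i • v i) = UP.mk U K b • mk2 U K v := by
  funext j
  exact map_mul (UP.mk U K) _ _

theorem mk2_det (v w : ∀ i, Fin 2 → K i) :
    UP.mk U K (fun i => det2 (v i) (w i)) = det2 (mk2 U K v) (mk2 U K w) := by
  unfold det2
  exact (map_sub (UP.mk U K) _ _).trans (congrArg₂ _ (map_mul (UP.mk U K) _ _)
    (map_mul (UP.mk U K) _ _))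

variable (g : ℕ) (β : ∀ i, ℕ → K i)

/-- the functions `β` on the ultraproduct -/
noncomputable def bU (j : ℕ) : UP U K := UP.mk U K (fun i => β i j)

theorem finrank_sm {ι : Type} [Finite ι] (s : ι → ∀ i, Fin 2 → K i) (n : ℕ) :
    ∀ᶠ i in (U : Filter I),
      Module.finrank ℂ (smSp (Rn ℂ g (β i) n) (Submodule.span ℂ (Set.range fun a => s a i))) =
      Module.finrank (KU U) (smSp (Rn (KU U) g (bU U β) n)
        (Submodule.span (KU U) (Set.range fun a => mk2 U K (s a)))) := by
  have h := (isUP_pair U K).finrank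
    (fun (p : Fin (n - g + 1) × ι) i => β i p.1 • s p.2 i)
  have h1 : (fun p : Fin (n - g + 1) × ι => mk2 U K (fun i => β i p.1 • s p.2 i)) =
      fun p : Fin (n - g + 1) × ι => bU U β p.1 • mk2 U K (s p.2) := by
    funext p
    rw [mk2_smul]
    rfl
  rw [h1] at h
  rw [Rn_range, smSp_span]
  filter_upwards [h] with i hi
  rw [Rn_range, smSp_span]
  exact hi

theorem finrank_det {k : ℕ} (s : Fin k → ∀ i, Fin 2 → K i) :
    ∀ᶠ i in (U : Filter I),
      Module.finrank ℂ (detSp ℂ (fun a => s a i)) =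
      Module.finrank (KU U) (detSp (KU U) (fun a => mk2 U K (s a))) := by
  have h := (isUP_field U K).finrank
    (fun (p : Fin k × Fin k) i => det2 (s p.1 i) (s p.2 i))
  have h1 : (fun p : Fin k × Fin k => (UP.mk U K : (∀ i, K i) →+ UP U K)
      (fun i => det2 (s p.1 i) (s p.2 i))) =
      fun p : Fin k × Fin k => det2 (mk2 U K (s p.1)) (mk2 U K (s p.2)) := by
    funext p
    exact mk2_det U _ _
  rw [h1] at h
  rw [detSp_range]
  filter_upwards [h] with i hi
  rw [detSp_range]
  exact hi

theorem finrank_mul {ι : Type} [Finite ι] (s : ι → ∀ i, K i) (n : ℕ) :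
    ∀ᶠ i in (U : Filter I),
      Module.finrank ℂ (Rn ℂ g (β i) n * Submodule.span ℂ (Set.range fun a => s a i) :
        Submodule ℂ (K i)) =
      Module.finrank (KU U) (Rn (KU U) g (bU U β) n *
        Submodule.span (KU U) (Set.range fun a => UP.mk U K (s a)) : Submodule (KU U) (UP U K)) := by
  have h := (isUP_field U K).finrank
    (fun (p : Fin (n - g + 1) × ι) i => β i p.1 * s p.2 i)
  have h1 : (fun p : Fin (n - g + 1) × ι => (UP.mk U K : (∀ i, K i) →+ UP U K)
      (fun i => β i p.1 * s p.2 i)) =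
      fun p : Fin (n - g + 1) × ι => bU U β p.1 * UP.mk U K (s p.2) := by
    funext p
    exact map_mul (UP.mk U K) _ _
  rw [h1] at h
  rw [Rn_range, mul_span]
  filter_upwards [h] with i hi
  rw [Rn_range, mul_span]
  exact hi

theorem mem_Rn (w : ∀ i, K i) (n : ℕ) :
    UP.mk U K w ∈ Rn (KU U) g (bU U β) n ↔ ∀ᶠ i in (U : Filter I), w i ∈ Rn ℂ g (β i) n := by
  have h := (isUP_field U K).span (fun (p : Fin (n - g + 1)) i => β i p) w
  rw [Rn_range]
  refine Iff.trans h ?_
  simp only [Rn_range]

/-- transfer of the rank one alternative -/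
theorem transfer_dat1 (k : ℕ) (h : ∀ᶠ i in (U : Filter I), Dat1 ℂ g k (Rn ℂ g (β i))) :
    Dat1 (KU U) g k (Rn (KU U) g (bU U β)) := by
  have h1 : ∀ i, ∃ u : Fin k → K i, Dat1 ℂ g k (Rn ℂ g (β i)) →
      (∀ a, u a ∈ Rn ℂ g (β i) (3 * g)) ∧ LinearIndependent ℂ u ∧
      ∀ n, 2 * g ≤ n → Module.finrank ℂ
        (Rn ℂ g (β i) n * Submodule.span ℂ (Set.range u) : Submodule ℂ (K i)) ≤ n := by
    intro i
    by_cases hi : Dat1 ℂ g k (Rn ℂ g (β i))
    · obtain ⟨V, hV1, hV2, hV3⟩ := hi
      have hfin : Module.Finite ℂ (Rn ℂ g (β i) (3 * g)) := by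
        rw [Rn_range]
        exact Module.Finite.span_of_finite ℂ (Set.finite_range _)
      have hfV : Module.Finite ℂ V := Submodule.finiteDimensional_of_le hV1
      let b := Module.finBasisOfFinrankEq ℂ V hV2
      refine ⟨fun a => (b a : K i), fun _ => ⟨fun a => hV1 (b a).2, ?_, ?_⟩⟩
      · exact b.linearIndependent.map' V.subtype (Submodule.ker_subtype V)
      · have h2 : Submodule.span ℂ (Set.range fun a => (b a : K i)) = V := by
          have h3 := congrArg (Submodule.map V.subtype) b.span_eq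
          rw [Submodule.map_span, Submodule.map_top, Submodule.range_subtype] at h3
          refine Eq.trans ?_ h3
          rw [← Set.range_comp]
          rfl
        rw [h2]
        exact hV3
    · exact ⟨0, fun h => absurd h hi⟩
  choose u hu using h1
  have hq := isUP_field U K
  refine ⟨Submodule.span (KU U) (Set.range fun a => UP.mk U K (fun i => u i a)), ?_, ?_, ?_⟩
  · rw [Submodule.span_le]
    rintro _ ⟨a, rfl⟩
    refine (mem_Rn U g β _ _).2 ?_
    filter_upwards [h] with i hi
    exact (hu i hi).1 a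
  · have hli : LinearIndependent (KU U) (fun a => UP.mk U K (fun i => u i a)) := by
      refine (hq.li (fun a i => u i a)).2 ?_
      filter_upwards [h] with i hi
      exact (hu i hi).2.1
    rw [finrank_span_eq_card hli, Fintype.card_fin]
  · intro n hn
    obtain ⟨i, hi1, hi2⟩ := ((finrank_mul U g β (fun a i => u i a) n).and h).exists
    rw [← hi1]
    exact (hu i hi2).2.2 n hn

/-- transfer of the data -/
theorem transfer_dat (k : ℕ) (h : ∀ᶠ i in (U : Filter I), ∃ (s : Fin k → Fin 2 → K i) (f : K i),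
      Dat ℂ g k (Rn ℂ g (β i)) s f) :
    ∃ (s : Fin k → Fin 2 → UP U K) (f : UP U K), Dat (KU U) g k (Rn (KU U) g (bU U β)) s f := by
  have h1 : ∀ i, ∃ (s : Fin k → Fin 2 → K i) (f : K i),
      (∃ (s : Fin k → Fin 2 → K i) (f : K i), Dat ℂ g k (Rn ℂ g (β i)) s f) →
      Dat ℂ g k (Rn ℂ g (β i)) s f := by
    intro i
    by_cases hi : ∃ (s : Fin k → Fin 2 → K i) (f : K i), Dat ℂ g k (Rn ℂ g (β i)) s f
    · obtain ⟨s, f, hsf⟩ := hi
      exact ⟨s, f, fun _ => hsf⟩
    · exact ⟨0, 0, fun h => absurd h hi⟩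
  choose s f hsf using h1
  have hD : ∀ᶠ i in (U : Filter I), Dat ℂ g k (Rn ℂ g (β i)) (s i) (f i) := by
    filter_upwards [h] with i hi
    exact hsf i hi
  have hq := isUP_field U K
  have hp := isUP_pair U K
  refine ⟨fun a => mk2 U K (fun i => s i a), UP.mk U K f, ?_⟩
  constructor
  · rw [UP.mk_ne_zero]
    filter_upwards [hD] with i hi
    exact hi.f0
  · refine (hp.li (fun a i => s i a)).2 ?_
    filter_upwards [hD] with i hi
    exact hi.ind
  · have h2 : ∀ᶠ i in (U : Filter I), ∃ p : Fin k × Fin k, det2 (s i p.1) (s i p.2) ≠ 0 := by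
      filter_upwards [hD] with i hi
      obtain ⟨a, b, hab⟩ := hi.spn
      exact ⟨(a, b), hab⟩
    obtain ⟨⟨a, b⟩, hab⟩ := eventually_exists h2
    refine ⟨a, b, ?_⟩
    rw [← mk2_det, UP.mk_ne_zero]
    exact hab
  · intro a b
    rw [← mk2_det, ← map_mul]
    refine (mem_Rn U g β _ _).2 ?_
    filter_upwards [hD] with i hi
    exact hi.mem a b
  · intro n hn
    obtain ⟨i, hi1, hi2⟩ := ((finrank_sm U g β (fun a i => s i a) n).and hD).exists
    rw [← hi1]
    exact hi2.da n hn
  · intro V hV hdet n hn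
    have hfin : Module.Finite (KU U)
        (Submodule.span (KU U) (Set.range fun a => mk2 U K (fun i => s i a))) :=
      Module.Finite.span_of_finite _ (Set.finite_range _)
    have hfV : Module.Finite (KU U) V := Submodule.finiteDimensional_of_le hV
    let b := Module.finBasis (KU U) V
    have h2 : ∀ a, ∃ c : Fin k → (I → ℂ),
        ∑ j, UP.mk U (fun _ : I => ℂ) (c j) • mk2 U K (fun i => s i j) =
          ((b a : V) : Fin 2 → UP U K) := by
      intro a
      obtain ⟨c, hc⟩ := (Submodule.mem_span_range_iff_exists_fun (KU U)).1 (hV (b a).2)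
      choose c' hc' using fun j => UP.mk_surj U (c j)
      refine ⟨c', ?_⟩
      rw [← hc]
      exact Finset.sum_congr rfl fun j _ => by rw [hc']
    choose c hc using h2
    set u : Fin (Module.finrank (KU U) V) → ∀ i, Fin 2 → K i :=
      fun a i => ∑ j, c a j i • s i j with hu
    have h3 : ∀ a, mk2 U K (u a) = ((b a : V) : Fin 2 → UP U K) := by
      intro a
      rw [← hc]
      exact (hp.sum Finset.univ (fun j i => c a j i) (fun j i => s i j)).symm
    have h4 : Submodule.span (KU U) (Set.range fun a => mk2 U K (u a)) = V := by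
      have h5 := congrArg (Submodule.map V.subtype) b.span_eq
      rw [Submodule.map_span, Submodule.map_top, Submodule.range_subtype] at h5
      refine Eq.trans ?_ h5
      rw [← Set.range_comp]
      congr 2
      funext a
      exact h3 a
    have h6 : ∀ᶠ i in (U : Filter I), ∀ a b', det2 (u a i) (u b' i) = 0 := by
      rw [eventually_all]
      intro a
      rw [eventually_all]
      intro b'
      rw [← UP.mk_eq_zero, mk2_det]
      rw [h3, h3]
      exact hdet _ (b a).2 _ (b b').2
    obtain ⟨i, ⟨hi1, hi2⟩, hi3⟩ := (((finrank_sm U g β u n).and hD).and h6).exists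
    rw [h4] at hi1
    rw [← hi1]
    refine hi2.db _ ?_ ?_ n hn
    · rw [Submodule.span_le]
      rintro _ ⟨a, rfl⟩
      refine Submodule.sum_mem _ fun j _ => Submodule.smul_mem _ _ (Submodule.subset_span ⟨j, rfl⟩)
    · refine det2_span _ ?_
      rintro _ ⟨a, rfl⟩ _ ⟨b', rfl⟩
      exact hi3 a b'
  · obtain ⟨i, hi1, hi2⟩ := ((finrank_det U (fun a i => s i a)).and hD).exists
    rw [← hi1]
    exact hi2.dc
  · intro n hn hn2 m hm
    have h2 := finrank_mul U g β
      (fun (p : Fin k × Fin k) i => det2 (s i p.1) (s i p.2)) m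
    have h3 : (fun p : Fin k × Fin k => UP.mk U K (fun i => det2 (s i p.1) (s i p.2))) =
        fun p : Fin k × Fin k => det2 (mk2 U K (fun i => s i p.1)) (mk2 U K (fun i => s i p.2)) := by
      funext p
      exact mk2_det U _ _
    rw [h3] at h2
    obtain ⟨i, ⟨hi1, hi2⟩, hi3⟩ :=
      (((finrank_sm U g β (fun a i => s i a) n).and hD).and h2).exists
    rw [hn2] at hi1
    have h4 := hi2.dd n hn hi1 m hm
    rw [detSp_range] at h4 ⊢
    rw [← hi3]
    exact h4

end

end U_

end Pool.Agent.RTB
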